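import Pool.Agent.Lib.MP_f58a57_nt.P.T8_ODE

/-! # T8c: the differential equation (MP_f58a57_nt, pairs) -/

open Complex Filter Topology

noncomputable section

namespace Pool.Agent.MSP

theorem t8c_th_an (τ : ℂ) (hτ : 0 < τ.im) (t : ℂ) : AnalyticAt ℂ (th τ) t :=
  (th_differentiable τ hτ).analyticAt t

/-- `wp` is analytic where `th ≠ 0`. -/
theorem wp_analyticAt (τ s : ℂ) (hτ : 0 < τ.im) (t : ℂ) (ht : th τ t ≠ 0) : AnalyticAt ℂ (wp τ s) t := by
  have h0 := t8c_th_an τ hτ t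
  have h1 : AnalyticAt ℂ (deriv (th τ)) t := h0.deriv
  have h2 : AnalyticAt ℂ (deriv (deriv (th τ))) t := h1.deriv
  have hn : AnalyticAt ℂ (fun t => deriv (th τ) t ^ 2 - th τ t * deriv (deriv (th τ)) t - s * th τ t ^ 2) t :=
    ((h1.pow 2).sub (h0.mul h2)).sub (analyticAt_const.mul (h0.pow 2))
  have hd : AnalyticAt ℂ (fun t => th τ t ^ 2) t := h0.pow 2
  exact hn.div hd (pow_ne_zero 2 ht)

/-- `ph` is analytic where `th ≠ 0`, and `ph' = -(wp + s)`. -/
theorem ph_analyticAt (τ : ℂ) (hτ : 0 < τ.im) (t : ℂ) (ht : th τ t ≠ 0) : AnalyticAt ℂ (ph τ) t := by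
  have h0 := t8c_th_an τ hτ t
  have h1 : AnalyticAt ℂ (deriv (th τ)) t := h0.deriv
  exact h1.div h0 ht

theorem hasDerivAt_ph (τ s : ℂ) (hτ : 0 < τ.im) (t : ℂ) (ht : th τ t ≠ 0) :
    HasDerivAt (ph τ) (-(wp τ s t + s)) t := by
  have h0 := t8c_th_an τ hτ t
  have h1 : AnalyticAt ℂ (deriv (th τ)) t := h0.deriv
  have h := h1.differentiableAt.hasDerivAt.div h0.differentiableAt.hasDerivAt ht
  have e : (deriv (deriv (th τ)) t * th τ t - deriv (th τ) t * deriv (th τ) t) / th τ t ^ 2 =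
      -(wp τ s t + s) := by
    unfold wp N2 N0
    field_simp
    ring
  rw [e] at h
  exact h

theorem t8c_open (τ : ℂ) (hτ : 0 < τ.im) : IsOpen {t : ℂ | th τ t ≠ 0} :=
  isOpen_ne_fun (th_differentiable τ hτ).continuous continuous_const

/-- T8c. PROOF. `derivWeierstrassP_sq`, `deriv_weierstrassP` and T7 (the functions agree on an open set). -/
theorem wp_ode (τ : ℂ) (hτ : 0 < τ.im) (t : ℂ) (ht : th τ t ≠ 0) :
    deriv (wp τ (sE τ)) t ^ 2 = 4 * wp τ (sE τ) t ^ 3 - 4 / 3 * Real.pi ^ 4 * MSD.e4 τ * wp τ (sE τ) t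
      - 8 / 27 * Real.pi ^ 6 * MSD.e6 τ := by
  have hmem : t ∉ (pp τ hτ).lattice := fun h => ht ((mem_pp τ hτ t).1 h)
  have heq : wp τ (sE τ) =ᶠ[𝓝 t] (pp τ hτ).weierstrassP := by
    filter_upwards [(t8c_open τ hτ).mem_nhds ht] with u hu
    exact wp_eq τ hτ u hu
  rw [heq.deriv_eq, PeriodPair.deriv_weierstrassP, PeriodPair.derivWeierstrassP_sq _ t hmem, wp_eq τ hτ t ht,
    g2_eq, g3_eq]

theorem t8c_zeros_countable (τ : ℂ) (hτ : 0 < τ.im) : {t : ℂ | th τ t = 0}.Countable := by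
  have : {t : ℂ | th τ t = 0} ⊆ Set.range (fun p : ℤ × ℤ => (p.1 : ℂ) + p.2 * τ) := by
    intro t ht
    obtain ⟨m, n, h⟩ := (th_eq_zero_iff τ hτ t).1 ht
    exact ⟨(m, n), h.symm⟩
  exact (Set.countable_range _).mono this

theorem t8c_preconn (τ : ℂ) (hτ : 0 < τ.im) : IsPreconnected {t : ℂ | th τ t ≠ 0} := by
  have h := Set.Countable.isPathConnected_compl_of_one_lt_rank
    (by rw [Complex.rank_real_complex]; exact Cardinal.one_lt_two) (t8c_zeros_countable τ hτ)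
  exact h.isConnected.isPreconnected

theorem t8c_zero (τ : ℂ) (hτ : 0 < τ.im) : th τ 0 = 0 :=
  (th_eq_zero_iff τ hτ 0).2 ⟨0, 0, by simp⟩

theorem t8c_ev_ne (τ : ℂ) (hτ : 0 < τ.im) : ∀ᶠ t in 𝓝[≠] (0 : ℂ), th τ t ≠ 0 := by
  rcases (t8c_th_an τ hτ 0).eventually_eq_zero_or_eventually_ne_zero with h | h
  · exfalso
    have : deriv (th τ) 0 = 0 := by
      have h' : th τ =ᶠ[𝓝 0] fun _ => 0 := h
      rw [h'.deriv_eq]
      simp
    exact deriv_th_zero_ne τ hτ this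
  · exact h

/-- `wp'` does not vanish identically near any point -/
theorem t8c_deriv_ne (τ : ℂ) (hτ : 0 < τ.im) (t : ℂ) (ht : th τ t ≠ 0) :
    ∀ᶠ u in 𝓝[≠] t, deriv (wp τ (sE τ)) u ≠ 0 := by
  rcases (wp_analyticAt τ (sE τ) hτ t ht).deriv.eventually_eq_zero_or_eventually_ne_zero with h | h
  swap
  · exact h
  exfalso
  have han : AnalyticOnNhd ℂ (deriv (wp τ (sE τ))) {t : ℂ | th τ t ≠ 0} :=
    fun u hu => (wp_analyticAt τ (sE τ) hτ u hu).deriv
  have hz : Set.EqOn (deriv (wp τ (sE τ))) 0 {t : ℂ | th τ t ≠ 0} :=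
    han.eqOn_zero_of_preconnected_of_eventuallyEq_zero (t8c_preconn τ hτ) ht h
  have hdiff : DifferentiableOn ℂ (wp τ (sE τ)) {t : ℂ | th τ t ≠ 0} :=
    fun u hu => (wp_analyticAt τ (sE τ) hτ u hu).differentiableAt.differentiableWithinAt
  have hconst : ∀ u, th τ u ≠ 0 → wp τ (sE τ) u = wp τ (sE τ) t := fun u hu =>
    (t8c_open τ hτ).is_const_of_deriv_eq_zero (t8c_preconn τ hτ) hdiff hz hu ht
  -- then `1/u²` would be bounded near `0`
  have h1 : Tendsto (fun u : ℂ => wp τ (sE τ) t - 1 / u ^ 2) (𝓝[≠] 0) (𝓝 0) := by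
    refine (wp_lim τ hτ).congr' ?_
    filter_upwards [t8c_ev_ne τ hτ] with u hu
    rw [hconst u hu]
  have h2 : Tendsto (fun u : ℂ => u ^ 2) (𝓝[≠] (0 : ℂ)) (𝓝 0) := by
    have : Tendsto (fun u : ℂ => u ^ 2) (𝓝 (0 : ℂ)) (𝓝 ((0 : ℂ) ^ 2)) := (continuous_pow 2).tendsto 0
    simp only [ne_eq, OfNat.ofNat_ne_zero, not_false_eq_true, zero_pow] at this
    exact this.mono_left nhdsWithin_le_nhds
  have h3 : Tendsto (fun u : ℂ => (wp τ (sE τ) t - 1 / u ^ 2) * u ^ 2) (𝓝[≠] 0) (𝓝 (0 * 0)) := h1.mul h2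
  have h4 : Tendsto (fun u : ℂ => wp τ (sE τ) t * u ^ 2 - 1) (𝓝[≠] (0 : ℂ)) (𝓝 (0 * 0)) := by
    refine h3.congr' ?_
    filter_upwards [self_mem_nhdsWithin] with u hu
    have hu' : u ≠ 0 := hu
    field_simp
  have h5 : Tendsto (fun u : ℂ => wp τ (sE τ) t * u ^ 2 - 1) (𝓝[≠] (0 : ℂ)) (𝓝 (wp τ (sE τ) t * 0 - 1)) :=
    (h2.const_mul _).sub_const 1
  have h6 := tendsto_nhds_unique h4 h5
  norm_num at h6

/-- T8d. PROOF. Differentiate T8c: `2 wp' wp'' = (12 wp² - g₂) wp'`; divide by `wp'` where `wp' ≠ 0`. `wp'` is not identically zero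
near any point (otherwise, the complement of the lattice being connected, `wp` would be constant, but `wp → ∞` at `0`), so the zeros of
`wp'` are isolated and the identity extends by continuity. -/
theorem wp_ode2 (τ : ℂ) (hτ : 0 < τ.im) (t : ℂ) (ht : th τ t ≠ 0) :
    HasDerivAt (deriv (wp τ (sE τ))) (6 * wp τ (sE τ) t ^ 2 - 2 / 3 * Real.pi ^ 4 * MSD.e4 τ) t := by
  set f := wp τ (sE τ) with hf
  set g : ℂ := 4 / 3 * Real.pi ^ 4 * MSD.e4 τ with hg
  -- the identity after differentiation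
  have key : ∀ u, th τ u ≠ 0 → 2 * deriv f u * deriv (deriv f) u = (12 * f u ^ 2 - g) * deriv f u := by
    intro u hu
    have hfa := wp_analyticAt τ (sE τ) hτ u hu
    have hd0 : HasDerivAt f (deriv f u) u := hfa.differentiableAt.hasDerivAt
    have hd1 : HasDerivAt (deriv f) (deriv (deriv f) u) u := hfa.deriv.differentiableAt.hasDerivAt
    have hL : HasDerivAt (fun v => deriv f v ^ 2) (2 * deriv f u * deriv (deriv f) u) u := by
      have := hd1.fun_pow 2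
      simpa using this
    have hR : HasDerivAt (fun v => 4 * f v ^ 3 - g * f v - 8 / 27 * Real.pi ^ 6 * MSD.e6 τ)
        ((12 * f u ^ 2 - g) * deriv f u) u := by
      have h := (((hd0.fun_pow 3).const_mul 4).fun_sub (hd0.const_mul g)).sub_const (8 / 27 * Real.pi ^ 6 * MSD.e6 τ)
      have e : (12 * f u ^ 2 - g) * deriv f u = 4 * ((3 : ℕ) * f u ^ (3 - 1) * deriv f u) - g * deriv f u := by
        norm_num
        ring
      rw [e]
      exact h
    have heq : (fun v => deriv f v ^ 2) =ᶠ[𝓝 u] fun v => 4 * f v ^ 3 - g * f v - 8 / 27 * Real.pi ^ 6 * MSD.e6 τ := by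
      filter_upwards [(t8c_open τ hτ).mem_nhds hu] with v hv
      exact wp_ode τ hτ v hv
    exact hL.unique (hR.congr_of_eventuallyEq heq)
  have hfa := wp_analyticAt τ (sE τ) hτ t ht
  have hd1 : HasDerivAt (deriv f) (deriv (deriv f) t) t := hfa.deriv.differentiableAt.hasDerivAt
  -- continuity of the difference
  have hc : ContinuousAt (fun u => deriv (deriv f) u - (6 * f u ^ 2 - g / 2)) t := by
    have h1 : ContinuousAt (deriv (deriv f)) t := hfa.deriv.deriv.continuousAt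
    have h2 : ContinuousAt f t := hfa.continuousAt
    fun_prop
  have hz : ∀ᶠ u in 𝓝[≠] t, deriv (deriv f) u - (6 * f u ^ 2 - g / 2) = 0 := by
    filter_upwards [t8c_deriv_ne τ hτ t ht, nhdsWithin_le_nhds ((t8c_open τ hτ).mem_nhds ht)] with u hu hu'
    have := key u hu'
    have h3 : deriv f u * (2 * (deriv (deriv f) u - (6 * f u ^ 2 - g / 2))) = 0 := by linear_combination this
    rcases mul_eq_zero.1 h3 with h | h
    · exact absurd h hu
    · simpa using h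
  have h0 : deriv (deriv f) t - (6 * f t ^ 2 - g / 2) = 0 := by
    have ha : Tendsto (fun u => deriv (deriv f) u - (6 * f u ^ 2 - g / 2)) (𝓝[≠] t)
        (𝓝 (deriv (deriv f) t - (6 * f t ^ 2 - g / 2))) := hc.tendsto.mono_left nhdsWithin_le_nhds
    have hb : Tendsto (fun u => deriv (deriv f) u - (6 * f u ^ 2 - g / 2)) (𝓝[≠] t) (𝓝 0) :=
      tendsto_const_nhds.congr' (hz.mono fun u hu => hu.symm)
    exact tendsto_nhds_unique ha hb
  have e : (6 * f t ^ 2 - 2 / 3 * Real.pi ^ 4 * MSD.e4 τ : ℂ) = deriv (deriv f) t := by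
    rw [sub_eq_zero.1 h0, hg]
    ring
  rw [e]
  exact hd1

end Pool.Agent.MSP
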