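import Pool.Agent.Lib.MP_f58a57_nt.P.Defs

/-! # V1: mixed derivatives, Leibniz rule (MP_f58a57_nt, pairs) -/

open Complex Filter Topology

noncomputable section

namespace Pool.Agent.MSP

/-- analytic in the second variable -/
theorem v1_right (F : ℂ → ℂ → ℂ) (t w : ℂ) (hF : An2 F t w) : AnalyticAt ℂ (F t) w := by
  have h1 : AnalyticAt ℂ (fun w' : ℂ => ((t, w') : ℂ × ℂ)) w := analyticAt_const.prod analyticAt_id
  exact AnalyticAt.fun_comp (f := fun w' : ℂ => ((t, w') : ℂ × ℂ)) (g := fun p : ℂ × ℂ => F p.1 p.2) hF h1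

/-- analytic in the first variable -/
theorem v1_left (F : ℂ → ℂ → ℂ) (t w : ℂ) (hF : An2 F t w) : AnalyticAt ℂ (fun t' => F t' w) t := by
  have h1 : AnalyticAt ℂ (fun t' : ℂ => ((t', w) : ℂ × ℂ)) t := analyticAt_id.prod analyticAt_const
  exact AnalyticAt.fun_comp (f := fun t' : ℂ => ((t', w) : ℂ × ℂ)) (g := fun p : ℂ × ℂ => F p.1 p.2) hF h1

/-- the partial derivative in the second variable as a Fréchet derivative -/
theorem v1_fderiv (H : ℂ → ℂ → ℂ) (t w : ℂ) (hH : An2 H t w) :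
    deriv (H t) w = fderiv ℂ (fun p : ℂ × ℂ => H p.1 p.2) (t, w) (0, 1) := by
  have h1 : HasFDerivAt (fun p : ℂ × ℂ => H p.1 p.2) (fderiv ℂ (fun p : ℂ × ℂ => H p.1 p.2) (t, w)) (t, w) :=
    hH.differentiableAt.hasFDerivAt
  have h2 : HasDerivAt (fun w' : ℂ => ((t, w') : ℂ × ℂ)) (0, 1) w :=
    (hasDerivAt_const w t).prodMk (hasDerivAt_id w)
  have h3 := HasFDerivAt.comp_hasDerivAt (x := w) (f := fun w' : ℂ => ((t, w') : ℂ × ℂ)) h1 h2
  exact h3.deriv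

/-- V1a. For fixed `t` near `t₀`, `w ↦ F t w` is analytic at `w₀`, and `t ↦ ∂_w^j F(t, w₀)` is analytic at `t₀`. -/
theorem an2_iter (F : ℂ → ℂ → ℂ) (t₀ w₀ : ℂ) (hF : An2 F t₀ w₀) (j : ℕ) :
    An2 (fun t w => iteratedDeriv j (F t) w) t₀ w₀ := by
  induction j with
  | zero => simpa [An2] using hF
  | succ j ih =>
    have h1 : AnalyticAt ℂ (fun p : ℂ × ℂ => iteratedDeriv j (F p.1) p.2) (t₀, w₀) := ih
    have h2 : AnalyticAt ℂ (fun p : ℂ × ℂ =>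
        fderiv ℂ (fun p : ℂ × ℂ => iteratedDeriv j (F p.1) p.2) p (0, 1)) (t₀, w₀) := by
      have h3 : AnalyticAt ℂ (fderiv ℂ (fun p : ℂ × ℂ => iteratedDeriv j (F p.1) p.2)) (t₀, w₀) := h1.fderiv
      have h4 : AnalyticAt ℂ (fun L : ℂ × ℂ →L[ℂ] ℂ => L (0, 1))
          (fderiv ℂ (fun p : ℂ × ℂ => iteratedDeriv j (F p.1) p.2) (t₀, w₀)) :=
        (ContinuousLinearMap.apply ℂ ℂ ((0, 1) : ℂ × ℂ)).analyticAt _
      exact AnalyticAt.fun_comp (f := fderiv ℂ (fun p : ℂ × ℂ => iteratedDeriv j (F p.1) p.2))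
        (g := fun L : ℂ × ℂ →L[ℂ] ℂ => L (0, 1)) h4 h3
    refine h2.congr ?_
    filter_upwards [h1.eventually_analyticAt] with p hp
    have := v1_fderiv (fun t w => iteratedDeriv j (F t) w) p.1 p.2 hp
    simp only [iteratedDeriv_succ]
    exact this.symm

theorem dd_congr (F F' : ℂ → ℂ → ℂ) (t₀ w₀ : ℂ) (h : ∀ᶠ p in 𝓝 (t₀, w₀), F p.1 p.2 = F' p.1 p.2) (r s : ℕ) :
    dd r s F t₀ w₀ = dd r s F' t₀ w₀ := by
  rw [nhds_prod_eq] at h
  have h1 : ∀ᶠ t in 𝓝 t₀, ∀ᶠ w in 𝓝 w₀, F t w = F' t w := h.curry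
  unfold dd
  apply Filter.EventuallyEq.iteratedDeriv_eq
  filter_upwards [h1] with t ht
  exact Filter.EventuallyEq.iteratedDeriv_eq s ht

/-- V1b. Leibniz rule. -/
theorem dd_leibniz (h₁ h₂ : ℂ → ℂ) (F : ℂ → ℂ → ℂ) (t₀ w₀ : ℂ) (h1 : AnalyticAt ℂ h₁ t₀) (h2 : AnalyticAt ℂ h₂ w₀)
    (hF : An2 F t₀ w₀) (r s : ℕ) :
    dd r s (fun t w => h₁ t * h₂ w * F t w) t₀ w₀ =
      ∑ i ∈ Finset.range (r + 1), ∑ j ∈ Finset.range (s + 1),
        (r.choose i : ℂ) * (s.choose j : ℂ) * iteratedDeriv (r - i) h₁ t₀ * iteratedDeriv (s - j) h₂ w₀ *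
          dd i j F t₀ w₀ := by
  -- the inner derivative
  have hev : ∀ᶠ t in 𝓝 t₀, AnalyticAt ℂ (F t) w₀ := by
    have ha : ∀ᶠ p in 𝓝 (t₀, w₀), AnalyticAt ℂ (fun p : ℂ × ℂ => F p.1 p.2) p :=
      AnalyticAt.eventually_analyticAt hF
    have hc : Tendsto (fun t : ℂ => ((t, w₀) : ℂ × ℂ)) (𝓝 t₀) (𝓝 (t₀, w₀)) :=
      (continuous_id.prodMk continuous_const).tendsto t₀
    filter_upwards [hc.eventually ha] with t ht
    exact v1_right F t w₀ ht
  have hin : (fun t => iteratedDeriv s (fun w => h₁ t * h₂ w * F t w) w₀) =ᶠ[𝓝 t₀]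
      (fun t => ∑ j ∈ Finset.range (s + 1), ((s.choose j : ℂ) * iteratedDeriv (s - j) h₂ w₀) *
        (iteratedDeriv j (F t) w₀ * h₁ t)) := by
    filter_upwards [hev] with t ht
    have e1 : (fun w => h₁ t * h₂ w * F t w) = (fun w => h₁ t * ((F t) w * h₂ w)) := by
      funext w; ring
    rw [e1, iteratedDeriv_const_mul_field, iteratedDeriv_fun_mul ht.contDiffAt h2.contDiffAt,
      Finset.mul_sum]
    apply Finset.sum_congr rfl
    intro j _
    ring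
  unfold dd
  rw [Filter.EventuallyEq.iteratedDeriv_eq r hin]
  have han : ∀ j, AnalyticAt ℂ (fun t => iteratedDeriv j (F t) w₀) t₀ := fun j =>
    v1_left (fun t w => iteratedDeriv j (F t) w) t₀ w₀ (an2_iter F t₀ w₀ hF j)
  rw [iteratedDeriv_fun_sum (f := fun j t => ((s.choose j : ℂ) * iteratedDeriv (s - j) h₂ w₀) *
        (iteratedDeriv j (F t) w₀ * h₁ t)) (fun j _ => (analyticAt_const.mul ((han j).mul h1)).contDiffAt)]
  rw [Finset.sum_comm]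
  apply Finset.sum_congr rfl
  intro j _
  rw [iteratedDeriv_const_mul_field, iteratedDeriv_fun_mul (han j).contDiffAt h1.contDiffAt, Finset.mul_sum]
  apply Finset.sum_congr rfl
  intro i _
  ring

end Pool.Agent.MSP
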