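import Pool.Agent.Lib.MP_f58a57_nt.P.A2_Der
import Pool.Agent.Lib.MP_f58a57_nt.P.T8c_ODE
import Pool.Agent.Lib.MP_f58a57_nt.P.V1_Leib

/-! # A3: the polynomials as functions of `(t, w)` (MP_f58a57_nt, pairs) -/

open Complex Filter Topology

noncomputable section

namespace Pool.Agent.MSP

/-- values of the `inl` variables -/
def vA (τ₁ τ₂ Ω₁ Ω₂ t w : ℂ) : Fin 8 → ℂ :=
  ![wp τ₁ (sE τ₁) t / (Real.pi * Ω₁) ^ 2, deriv (wp τ₁ (sE τ₁)) t / (Real.pi * Ω₁) ^ 3,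
    wp τ₂ (sE τ₂) w / (Real.pi * Ω₂) ^ 2, deriv (wp τ₂ (sE τ₂)) w / (Real.pi * Ω₂) ^ 3,
    2 / 3 * (MSD.e4 τ₁ / Ω₁ ^ 4), 2 / 3 * (MSD.e4 τ₂ / Ω₂ ^ 4), τ₁, τ₂]

/-- values of the `inr` variables -/
def vB (τ₁ τ₂ Ω₁ Ω₂ t w : ℂ) : Fin 8 → ℂ :=
  ![Real.pi * Ω₁ * Ω₂ / (2 * I), Real.pi * Ω₁ * Ω₂ / (2 * I) * (MSD.e2 τ₁ / (3 * Ω₁ ^ 2)),
    Real.pi * Ω₂ ^ 2 / (2 * I), Real.pi * Ω₂ ^ 2 / (2 * I) * (MSD.e2 τ₂ / (3 * Ω₂ ^ 2)), Ω₂ / Ω₁,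
    -(Ω₂ * ph τ₁ t / (2 * I)), -(Ω₂ * ph τ₂ w / (2 * I)),
    Real.pi * Ω₂ * (w - t) - τ₂ * (-(Ω₂ * ph τ₂ w / (2 * I))) + τ₁ * (-(Ω₂ * ph τ₁ t / (2 * I)))]

/-- evaluation at `(t, w)` -/
def ev (τ₁ τ₂ Ω₁ Ω₂ t w : ℂ) (p : PR) : ℂ :=
  MvPolynomial.aeval (Sum.elim (vA τ₁ τ₂ Ω₁ Ω₂ t w) (vB τ₁ τ₂ Ω₁ Ω₂ t w)) p

/-- general principle: a derivation and the derivative of the variables -/
theorem a3_main (val : ℂ → Fin 8 ⊕ Fin 8 → ℂ) (f : Fin 8 ⊕ Fin 8 → PR) (c t : ℂ)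
    (h : ∀ v, HasDerivAt (fun t' => val t' v) (c * MvPolynomial.aeval (val t) (f v)) t) (p : PR) :
    HasDerivAt (fun t' => MvPolynomial.aeval (val t') p)
      (c * MvPolynomial.aeval (val t) (MvPolynomial.mkDerivation ℤ f p)) t := by
  induction p using MvPolynomial.induction_on with
  | C a =>
    have e1 : (fun t' => MvPolynomial.aeval (val t') (MvPolynomial.C a : PR)) = fun _ => ((a : ℤ) : ℂ) := by
      funext t'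
      rw [MvPolynomial.aeval_C]
      simp
    rw [e1, ← MvPolynomial.algebraMap_eq, Derivation.map_algebraMap, map_zero, mul_zero]
    exact hasDerivAt_const t _
  | add p q hp hq =>
    have e1 : (fun t' => MvPolynomial.aeval (val t') (p + q)) =
        fun t' => MvPolynomial.aeval (val t') p + MvPolynomial.aeval (val t') q := by
      funext t'
      rw [map_add]
    rw [e1, map_add, map_add, mul_add]
    exact hp.add hq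
  | mul_X p v hp =>
    have e1 : (fun t' => MvPolynomial.aeval (val t') (p * MvPolynomial.X v)) =
        fun t' => MvPolynomial.aeval (val t') p * val t' v := by
      funext t'
      rw [map_mul, MvPolynomial.aeval_X]
    rw [e1, Derivation.leibniz, MvPolynomial.mkDerivation_X, map_add, smul_eq_mul, smul_eq_mul, map_mul, map_mul,
      MvPolynomial.aeval_X]
    have h3 := hp.fun_mul (h v)
    have e2 : c * (MvPolynomial.aeval (val t) p * MvPolynomial.aeval (val t) (f v) +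
        val t v * MvPolynomial.aeval (val t) (MvPolynomial.mkDerivation ℤ f p)) =
        c * MvPolynomial.aeval (val t) (MvPolynomial.mkDerivation ℤ f p) * val t v +
        MvPolynomial.aeval (val t) p * (c * MvPolynomial.aeval (val t) (f v)) := by ring
    rw [e2]
    exact h3

theorem a3_wp (τ Ω : ℂ) (hτ : 0 < τ.im) (hΩ : Ω ≠ 0) (t : ℂ) (ht : th τ t ≠ 0) :
    HasDerivAt (fun t' => wp τ (sE τ) t' / (Real.pi * Ω) ^ 2)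
      (Real.pi * Ω * (deriv (wp τ (sE τ)) t / (Real.pi * Ω) ^ 3)) t := by
  have hpi : (Real.pi : ℂ) ≠ 0 := by exact_mod_cast Real.pi_ne_zero
  have h := (wp_analyticAt τ (sE τ) hτ t ht).differentiableAt.hasDerivAt.div_const ((Real.pi * Ω) ^ 2)
  have e : Real.pi * Ω * (deriv (wp τ (sE τ)) t / (Real.pi * Ω) ^ 3) = deriv (wp τ (sE τ)) t / (Real.pi * Ω) ^ 2 := by
    field_simp
  rw [e]
  exact h

theorem a3_wp' (τ Ω : ℂ) (hτ : 0 < τ.im) (hΩ : Ω ≠ 0) (t : ℂ) (ht : th τ t ≠ 0) :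
    HasDerivAt (fun t' => deriv (wp τ (sE τ)) t' / (Real.pi * Ω) ^ 3)
      (Real.pi * Ω * (6 * (wp τ (sE τ) t / (Real.pi * Ω) ^ 2) ^ 2 - 2 / 3 * (MSD.e4 τ / Ω ^ 4))) t := by
  have hpi : (Real.pi : ℂ) ≠ 0 := by exact_mod_cast Real.pi_ne_zero
  have h := (wp_ode2 τ hτ t ht).div_const ((Real.pi * Ω) ^ 3)
  have e : Real.pi * Ω * (6 * (wp τ (sE τ) t / (Real.pi * Ω) ^ 2) ^ 2 - 2 / 3 * (MSD.e4 τ / Ω ^ 4)) =
      (6 * wp τ (sE τ) t ^ 2 - 2 / 3 * Real.pi ^ 4 * MSD.e4 τ) / (Real.pi * Ω) ^ 3 := by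
    field_simp
  rw [e]
  exact h

theorem a3_ph (τ Ω₂ : ℂ) (hτ : 0 < τ.im) (t : ℂ) (ht : th τ t ≠ 0) :
    HasDerivAt (fun t' => -(Ω₂ * ph τ t' / (2 * I))) (Ω₂ * (wp τ (sE τ) t + sE τ) / (2 * I)) t := by
  have h := (((hasDerivAt_ph τ (sE τ) hτ t ht).const_mul Ω₂).div_const (2 * I)).fun_neg
  have e : Ω₂ * (wp τ (sE τ) t + sE τ) / (2 * I) = -(Ω₂ * -(wp τ (sE τ) t + sE τ) / (2 * I)) := by ring
  rw [e]
  exact h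

/-- A3a. PROOF. Induction on `p` (`MvPolynomial.induction_on`): sums and products (`der₁` is a derivation), constants, and the 16 variables:
`∂_t wp₁ = wp₁'`, `∂_t wp₁' = 6wp₁² - (2/3)π⁴ e4(τ₁)` (`wp_ode2`), `ph₁' = -(wp₁ + sE τ₁)` (`hasDerivAt_ph`), so
`∂_t Y₁ = (Ω₂/(2I)) (wp₁ + (π²/3) e2 τ₁) = πΩ₁ (κ₁ P₁ + κ₁s₁)`, `∂_t Y₃ = -πΩ₂ + τ₁ ∂_t Y₁ = πΩ₁(-c + τ₁(κ₁P₁ + κ₁s₁))`. -/
theorem hasDerivAt_ev_left (τ₁ τ₂ Ω₁ Ω₂ : ℂ) (h1 : 0 < τ₁.im) (hΩ₁ : Ω₁ ≠ 0) (hΩ₂ : Ω₂ ≠ 0) (t w : ℂ)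
    (ht : N0 τ₁ t ≠ 0) (p : PR) :
    HasDerivAt (fun t' => ev τ₁ τ₂ Ω₁ Ω₂ t' w p) (Real.pi * Ω₁ * ev τ₁ τ₂ Ω₁ Ω₂ t w (der₁ p)) t := by
  have hpi : (Real.pi : ℂ) ≠ 0 := by exact_mod_cast Real.pi_ne_zero
  have ht' : th τ₁ t ≠ 0 := ht
  refine a3_main (fun t' => Sum.elim (vA τ₁ τ₂ Ω₁ Ω₂ t' w) (vB τ₁ τ₂ Ω₁ Ω₂ t' w)) _ _ t ?_ p
  have hph := a3_ph τ₁ Ω₂ h1 t ht'
  have hkey : Ω₂ * (wp τ₁ (sE τ₁) t + sE τ₁) / (2 * I) =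
      Real.pi * Ω₁ * (Real.pi * Ω₁ * Ω₂ / (2 * I) * (wp τ₁ (sE τ₁) t / (Real.pi * Ω₁) ^ 2) +
        Real.pi * Ω₁ * Ω₂ / (2 * I) * (MSD.e2 τ₁ / (3 * Ω₁ ^ 2))) := by
    unfold sE
    field_simp
  intro v
  rcases v with i | j
  · fin_cases i
    · simpa [vA, vX, MvPolynomial.aeval_X] using a3_wp τ₁ Ω₁ h1 hΩ₁ t ht'
    · simpa [vA, vX, MvPolynomial.aeval_X] using a3_wp' τ₁ Ω₁ h1 hΩ₁ t ht'
    all_goals simpa [vA] using hasDerivAt_const t _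
  · fin_cases j
    · simpa [vB] using hasDerivAt_const t _
    · simpa [vB] using hasDerivAt_const t _
    · simpa [vB] using hasDerivAt_const t _
    · simpa [vB] using hasDerivAt_const t _
    · simpa [vB] using hasDerivAt_const t _
    · rw [hkey] at hph
      simpa [vA, vB, vX, vY, MvPolynomial.aeval_X] using hph
    · simpa [vB] using hasDerivAt_const t _
    · have h3 := (((hasDerivAt_id t).const_sub w).const_mul (Real.pi * Ω₂)).sub_const (τ₂ * (-(Ω₂ * ph τ₂ w / (2 * I))))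
      have h4 := h3.fun_add (hph.const_mul τ₁)
      have e : Real.pi * Ω₂ * -1 + τ₁ * (Ω₂ * (wp τ₁ (sE τ₁) t + sE τ₁) / (2 * I)) =
          Real.pi * Ω₁ * (-(Ω₂ / Ω₁) + τ₁ * (Real.pi * Ω₁ * Ω₂ / (2 * I) * (wp τ₁ (sE τ₁) t / (Real.pi * Ω₁) ^ 2) +
            Real.pi * Ω₁ * Ω₂ / (2 * I) * (MSD.e2 τ₁ / (3 * Ω₁ ^ 2)))) := by
        rw [hkey]
        field_simp
      rw [e] at h4
      simpa [vA, vB, vX, vY, MvPolynomial.aeval_X] using h4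

theorem hasDerivAt_ev_right (τ₁ τ₂ Ω₁ Ω₂ : ℂ) (h2 : 0 < τ₂.im) (hΩ₁ : Ω₁ ≠ 0) (hΩ₂ : Ω₂ ≠ 0) (t w : ℂ)
    (hw : N0 τ₂ w ≠ 0) (p : PR) :
    HasDerivAt (fun w' => ev τ₁ τ₂ Ω₁ Ω₂ t w' p) (Real.pi * Ω₂ * ev τ₁ τ₂ Ω₁ Ω₂ t w (der₂ p)) w := by
  have hpi : (Real.pi : ℂ) ≠ 0 := by exact_mod_cast Real.pi_ne_zero
  have hw' : th τ₂ w ≠ 0 := hw
  refine a3_main (fun w' => Sum.elim (vA τ₁ τ₂ Ω₁ Ω₂ t w') (vB τ₁ τ₂ Ω₁ Ω₂ t w')) _ _ w ?_ p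
  have hph := a3_ph τ₂ Ω₂ h2 w hw'
  have hkey : Ω₂ * (wp τ₂ (sE τ₂) w + sE τ₂) / (2 * I) =
      Real.pi * Ω₂ * (Real.pi * Ω₂ ^ 2 / (2 * I) * (wp τ₂ (sE τ₂) w / (Real.pi * Ω₂) ^ 2) +
        Real.pi * Ω₂ ^ 2 / (2 * I) * (MSD.e2 τ₂ / (3 * Ω₂ ^ 2))) := by
    unfold sE
    field_simp
  intro v
  rcases v with i | j
  · fin_cases i
    · simpa [vA] using hasDerivAt_const w _
    · simpa [vA] using hasDerivAt_const w _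
    · simpa [vA, vX, MvPolynomial.aeval_X] using a3_wp τ₂ Ω₂ h2 hΩ₂ w hw'
    · simpa [vA, vX, MvPolynomial.aeval_X] using a3_wp' τ₂ Ω₂ h2 hΩ₂ w hw'
    all_goals simpa [vA] using hasDerivAt_const w _
  · fin_cases j
    · simpa [vB] using hasDerivAt_const w _
    · simpa [vB] using hasDerivAt_const w _
    · simpa [vB] using hasDerivAt_const w _
    · simpa [vB] using hasDerivAt_const w _
    · simpa [vB] using hasDerivAt_const w _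
    · simpa [vB] using hasDerivAt_const w _
    · rw [hkey] at hph
      simpa [vA, vB, vX, vY, MvPolynomial.aeval_X] using hph
    · have h3 := (((hasDerivAt_id w).sub_const t).const_mul (Real.pi * Ω₂)).fun_sub (hph.const_mul τ₂)
      have h4 := h3.add_const (τ₁ * (-(Ω₂ * ph τ₁ t / (2 * I))))
      have e : Real.pi * Ω₂ * 1 - τ₂ * (Ω₂ * (wp τ₂ (sE τ₂) w + sE τ₂) / (2 * I)) =
          Real.pi * Ω₂ * (1 - τ₂ * (Real.pi * Ω₂ ^ 2 / (2 * I) * (wp τ₂ (sE τ₂) w / (Real.pi * Ω₂) ^ 2) +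
            Real.pi * Ω₂ ^ 2 / (2 * I) * (MSD.e2 τ₂ / (3 * Ω₂ ^ 2)))) := by
        rw [hkey]
        ring
      rw [e] at h4
      simpa [vA, vB, vX, vY, MvPolynomial.aeval_X] using h4

theorem a3_open (τ : ℂ) (hτ : 0 < τ.im) : IsOpen {t : ℂ | N0 τ t ≠ 0} :=
  t8c_open τ hτ

/-- A3b. PROOF. Induction on `s`, then on `r` (the sets `N0 τ₁ ≠ 0`, `N0 τ₂ ≠ 0` are open; `iteratedDeriv_succ`, equality near the point). -/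
theorem dd_ev (τ₁ τ₂ Ω₁ Ω₂ : ℂ) (h1 : 0 < τ₁.im) (h2 : 0 < τ₂.im) (hΩ₁ : Ω₁ ≠ 0) (hΩ₂ : Ω₂ ≠ 0) (t w : ℂ)
    (ht : N0 τ₁ t ≠ 0) (hw : N0 τ₂ w ≠ 0) (p : PR) (r s : ℕ) :
    dd r s (fun t' w' => ev τ₁ τ₂ Ω₁ Ω₂ t' w' p) t w =
      (Real.pi * Ω₁) ^ r * (Real.pi * Ω₂) ^ s * ev τ₁ τ₂ Ω₁ Ω₂ t w (der₁^[r] (der₂^[s] p)) := by
  have hs : ∀ (t' : ℂ) (s : ℕ) (w' : ℂ), N0 τ₂ w' ≠ 0 →
      iteratedDeriv s (fun w'' => ev τ₁ τ₂ Ω₁ Ω₂ t' w'' p) w' =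
        (Real.pi * Ω₂) ^ s * ev τ₁ τ₂ Ω₁ Ω₂ t' w' (der₂^[s] p) := by
    intro t' s
    induction s with
    | zero => intro w' _; simp
    | succ n ih =>
      intro w' hw'
      rw [iteratedDeriv_succ, Function.iterate_succ_apply']
      have he : iteratedDeriv n (fun w'' => ev τ₁ τ₂ Ω₁ Ω₂ t' w'' p) =ᶠ[𝓝 w']
          fun w'' => (Real.pi * Ω₂) ^ n * ev τ₁ τ₂ Ω₁ Ω₂ t' w'' (der₂^[n] p) := by
        filter_upwards [(a3_open τ₂ h2).mem_nhds hw'] with u hu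
        exact ih u hu
      rw [he.deriv_eq, ((hasDerivAt_ev_right τ₁ τ₂ Ω₁ Ω₂ h2 hΩ₁ hΩ₂ t' w' hw' (der₂^[n] p)).const_mul _).deriv]
      ring
  have hr : ∀ (q : PR) (c : ℂ) (r : ℕ) (t' : ℂ), N0 τ₁ t' ≠ 0 →
      iteratedDeriv r (fun t'' => c * ev τ₁ τ₂ Ω₁ Ω₂ t'' w q) t' =
        (Real.pi * Ω₁) ^ r * c * ev τ₁ τ₂ Ω₁ Ω₂ t' w (der₁^[r] q) := by
    intro q c r
    induction r with
    | zero => intro t' _; simp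
    | succ n ih =>
      intro t' ht'
      rw [iteratedDeriv_succ, Function.iterate_succ_apply']
      have he : iteratedDeriv n (fun t'' => c * ev τ₁ τ₂ Ω₁ Ω₂ t'' w q) =ᶠ[𝓝 t']
          fun t'' => (Real.pi * Ω₁) ^ n * c * ev τ₁ τ₂ Ω₁ Ω₂ t'' w (der₁^[n] q) := by
        filter_upwards [(a3_open τ₁ h1).mem_nhds ht'] with u hu
        exact ih u hu
      rw [he.deriv_eq, ((hasDerivAt_ev_left τ₁ τ₂ Ω₁ Ω₂ h1 hΩ₁ hΩ₂ t' w ht' (der₁^[n] q)).const_mul _).deriv]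
      ring
  unfold dd
  have e1 : (fun t' => iteratedDeriv s ((fun t' w' => ev τ₁ τ₂ Ω₁ Ω₂ t' w' p) t') w) =
      fun t' => (Real.pi * Ω₂) ^ s * ev τ₁ τ₂ Ω₁ Ω₂ t' w (der₂^[s] p) := by
    funext t'
    exact hs t' s w hw
  rw [e1, hr (der₂^[s] p) ((Real.pi * Ω₂) ^ s) r t ht]

end Pool.Agent.MSP
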