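import Pool.Agent.Lib.MP_f58a57_nt.P.Defs

/-! # A1: lengths of integer polynomials (MP_f58a57_nt, pairs) -/

open Complex Filter Topology

noncomputable section

namespace Pool.Agent.MSP

/-! ## one variable -/

theorem a1_len_eq (p : Polynomial ℤ) (s : Finset ℕ) (h : p.support ⊆ s) :
    len p = ∑ i ∈ s, |((p.coeff i : ℤ) : ℝ)| := by
  unfold len
  refine Finset.sum_subset h fun i _ hi => ?_
  rw [Polynomial.notMem_support_iff.1 hi]
  simp

theorem len_nonneg (p : Polynomial ℤ) : 0 ≤ len p :=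
  Finset.sum_nonneg fun _ _ => abs_nonneg _

theorem len_zero : len 0 = 0 := by
  simp [len]

theorem a1_len_monomial (n : ℕ) (a : ℤ) : len (Polynomial.monomial n a) = |(a : ℝ)| := by
  rw [a1_len_eq _ {n} (Polynomial.support_monomial_subset n a), Finset.sum_singleton, Polynomial.coeff_monomial_same]

theorem len_C (a : ℤ) : len (Polynomial.C a) = |(a : ℝ)| := by
  rw [← Polynomial.monomial_zero_left, a1_len_monomial]

theorem abs_coeff_le_len (p : Polynomial ℤ) (i : ℕ) : |((p.coeff i : ℤ) : ℝ)| ≤ len p := by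
  by_cases hi : i ∈ p.support
  · exact Finset.single_le_sum (f := fun i => |((p.coeff i : ℤ) : ℝ)|) (fun _ _ => abs_nonneg _) hi
  · rw [Polynomial.notMem_support_iff.1 hi]
    simpa using len_nonneg p

theorem one_le_len (p : Polynomial ℤ) (hp : p ≠ 0) : 1 ≤ len p := by
  refine le_trans ?_ (abs_coeff_le_len p p.natDegree)
  have h : p.coeff p.natDegree ≠ 0 := by
    rw [Polynomial.coeff_natDegree]
    exact Polynomial.leadingCoeff_ne_zero.2 hp
  have h2 : 1 ≤ |p.coeff p.natDegree| := Int.one_le_abs h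
  exact_mod_cast h2

theorem len_neg (p : Polynomial ℤ) : len (-p) = len p := by
  simp [len]

theorem len_add (p q : Polynomial ℤ) : len (p + q) ≤ len p + len q := by
  rw [a1_len_eq (p + q) (p.support ∪ q.support) Polynomial.support_add,
    a1_len_eq p (p.support ∪ q.support) Finset.subset_union_left,
    a1_len_eq q (p.support ∪ q.support) Finset.subset_union_right, ← Finset.sum_add_distrib]
  refine Finset.sum_le_sum fun i _ => ?_
  rw [Polynomial.coeff_add]
  push_cast
  exact abs_add_le _ _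

theorem len_sum {ι : Type*} (s : Finset ι) (p : ι → Polynomial ℤ) : len (∑ i ∈ s, p i) ≤ ∑ i ∈ s, len (p i) := by
  classical
  induction s using Finset.induction_on with
  | empty => simp [len_zero]
  | insert a s ha ih =>
    rw [Finset.sum_insert ha, Finset.sum_insert ha]
    exact (len_add _ _).trans (by linarith)

theorem len_mul (p q : Polynomial ℤ) : len (p * q) ≤ len p * len q := by
  rw [Polynomial.mul_eq_sum_sum]
  refine (len_sum _ _).trans ?_
  have h : len p * len q = ∑ i ∈ p.support, |((p.coeff i : ℤ) : ℝ)| * len q := by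
    rw [← Finset.sum_mul]
    rfl
  rw [h]
  refine Finset.sum_le_sum fun i _ => ?_
  rw [Polynomial.sum]
  refine (len_sum _ _).trans ?_
  have h2 : |((p.coeff i : ℤ) : ℝ)| * len q = ∑ j ∈ q.support, |((p.coeff i : ℤ) : ℝ)| * |((q.coeff j : ℤ) : ℝ)| := by
    rw [← Finset.mul_sum]
    rfl
  rw [h2]
  refine Finset.sum_le_sum fun j _ => ?_
  rw [a1_len_monomial]
  push_cast
  rw [abs_mul]

theorem len_prod {ι : Type*} (s : Finset ι) (p : ι → Polynomial ℤ) : len (∏ i ∈ s, p i) ≤ ∏ i ∈ s, len (p i) := by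
  classical
  induction s using Finset.induction_on with
  | empty =>
    rw [Finset.prod_empty, Finset.prod_empty, ← Polynomial.C_1, len_C]
    simp
  | insert a s ha ih =>
    rw [Finset.prod_insert ha, Finset.prod_insert ha]
    exact (len_mul _ _).trans (mul_le_mul_of_nonneg_left ih (len_nonneg _))

/-- if all coefficients are at most `B` in absolute value -/
theorem len_le_of_coeff (p : Polynomial ℤ) (B : ℝ) (h : ∀ i, |((p.coeff i : ℤ) : ℝ)| ≤ B) :
    len p ≤ (p.natDegree + 1) * B := by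
  rw [a1_len_eq p (Finset.range (p.natDegree + 1)) Polynomial.supp_subset_range_natDegree_succ]
  refine (Finset.sum_le_card_nsmul _ _ B fun i _ => h i).trans ?_
  rw [Finset.card_range, nsmul_eq_mul]
  push_cast
  exact le_refl _

theorem norm_aeval_le (ϑ : ℂ) (p : Polynomial ℤ) : ‖Polynomial.aeval ϑ p‖ ≤ len p * (max 1 ‖ϑ‖) ^ p.natDegree := by
  rw [Polynomial.aeval_def, Polynomial.eval₂_eq_sum, Polynomial.sum]
  refine (norm_sum_le _ _).trans ?_
  unfold len
  rw [Finset.sum_mul]
  refine Finset.sum_le_sum fun i hi => ?_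
  rw [norm_mul, norm_pow]
  have h1 : ‖(algebraMap ℤ ℂ) (p.coeff i)‖ = |((p.coeff i : ℤ) : ℝ)| := by
    simp
  rw [h1]
  refine mul_le_mul_of_nonneg_left ?_ (abs_nonneg _)
  calc ‖ϑ‖ ^ i ≤ (max 1 ‖ϑ‖) ^ i := pow_le_pow_left₀ (norm_nonneg _) (le_max_right _ _) i
    _ ≤ (max 1 ‖ϑ‖) ^ p.natDegree := pow_le_pow_right₀ (le_max_left _ _) (Polynomial.le_natDegree_of_mem_supp i hi)

/-- PROOF. Leibniz formula: `N!` products of `N` entries. -/
theorem det_bounds {N : ℕ} (M : Matrix (Fin N) (Fin N) (Polynomial ℤ)) (e : ℕ) (B : ℝ)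
    (hd : ∀ i j, (M i j).natDegree ≤ e) (hB : ∀ i j, len (M i j) ≤ B) :
    (M.det).natDegree ≤ N * e ∧ len M.det ≤ (N.factorial : ℝ) * B ^ N := by
  have hsgn : ∀ (σ : Equiv.Perm (Fin N)) (q : Polynomial ℤ), Equiv.Perm.sign σ • q = q ∨
      Equiv.Perm.sign σ • q = -q := by
    intro σ q
    rcases Int.units_eq_one_or (Equiv.Perm.sign σ) with h | h
    · left; rw [h, one_smul]
    · right; rw [h]; simp
  constructor
  · rw [Matrix.det_apply]
    refine Polynomial.natDegree_sum_le_of_forall_le _ _ fun σ _ => ?_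
    have h1 : (∏ i, M (σ i) i).natDegree ≤ N * e := by
      refine (Polynomial.natDegree_prod_le _ _).trans ?_
      refine (Finset.sum_le_card_nsmul _ _ e fun i _ => hd _ _).trans ?_
      simp
    rcases hsgn σ (∏ i, M (σ i) i) with h | h
    · rw [h]; exact h1
    · rw [h, Polynomial.natDegree_neg]; exact h1
  · rw [Matrix.det_apply]
    refine (len_sum _ _).trans ?_
    have h1 : ∀ σ ∈ (Finset.univ : Finset (Equiv.Perm (Fin N))),
        len (Equiv.Perm.sign σ • ∏ i, M (σ i) i) ≤ B ^ N := by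
      intro σ _
      have h2 : len (Equiv.Perm.sign σ • ∏ i, M (σ i) i) = len (∏ i, M (σ i) i) := by
        rcases hsgn σ (∏ i, M (σ i) i) with h | h
        · rw [h]
        · rw [h, len_neg]
      rw [h2]
      refine (len_prod _ _).trans ?_
      calc ∏ i : Fin N, len (M (σ i) i) ≤ ∏ _i : Fin N, B :=
            Finset.prod_le_prod (fun i _ => len_nonneg _) fun i _ => hB _ _
        _ = B ^ N := by simp
    refine (Finset.sum_le_card_nsmul _ _ _ h1).trans ?_
    rw [Finset.card_univ, Fintype.card_perm, Fintype.card_fin, nsmul_eq_mul]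

/-! ## several variables -/

variable {σ : Type*}

theorem a1_mlen_eq (p : MvPolynomial σ ℤ) (s : Finset (σ →₀ ℕ)) (h : p.support ⊆ s) :
    mlen p = ∑ m ∈ s, |((p.coeff m : ℤ) : ℝ)| := by
  unfold mlen
  refine Finset.sum_subset h fun i _ hi => ?_
  rw [MvPolynomial.notMem_support_iff.1 hi]
  simp

theorem mlen_nonneg (p : MvPolynomial σ ℤ) : 0 ≤ mlen p :=
  Finset.sum_nonneg fun _ _ => abs_nonneg _

theorem mlen_zero : mlen (0 : MvPolynomial σ ℤ) = 0 := by
  simp [mlen]

theorem mlen_monomial (m : σ →₀ ℕ) (a : ℤ) : mlen (MvPolynomial.monomial m a) = |(a : ℝ)| := by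
  classical
  rw [a1_mlen_eq _ {m} MvPolynomial.support_monomial_subset, Finset.sum_singleton, MvPolynomial.coeff_monomial,
    if_pos rfl]

theorem mlen_C (a : ℤ) : mlen (MvPolynomial.C a : MvPolynomial σ ℤ) = |(a : ℝ)| := by
  rw [← MvPolynomial.monomial_zero', mlen_monomial]

theorem mlen_add (p q : MvPolynomial σ ℤ) : mlen (p + q) ≤ mlen p + mlen q := by
  classical
  rw [a1_mlen_eq (p + q) (p.support ∪ q.support) MvPolynomial.support_add,
    a1_mlen_eq p (p.support ∪ q.support) Finset.subset_union_left,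
    a1_mlen_eq q (p.support ∪ q.support) Finset.subset_union_right, ← Finset.sum_add_distrib]
  refine Finset.sum_le_sum fun i _ => ?_
  rw [MvPolynomial.coeff_add]
  push_cast
  exact abs_add_le _ _

theorem mlen_sum {ι : Type*} (s : Finset ι) (p : ι → MvPolynomial σ ℤ) :
    mlen (∑ i ∈ s, p i) ≤ ∑ i ∈ s, mlen (p i) := by
  classical
  induction s using Finset.induction_on with
  | empty => simp [mlen_zero]
  | insert a s ha ih =>
    rw [Finset.sum_insert ha, Finset.sum_insert ha]
    exact (mlen_add _ _).trans (by linarith)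

theorem mlen_mul (p q : MvPolynomial σ ℤ) : mlen (p * q) ≤ mlen p * mlen q := by
  have e : p * q = ∑ m ∈ p.support, ∑ n ∈ q.support, MvPolynomial.monomial (m + n) (p.coeff m * q.coeff n) := by
    conv_lhs => rw [p.as_sum, q.as_sum, Finset.sum_mul_sum]
    refine Finset.sum_congr rfl fun m _ => Finset.sum_congr rfl fun n _ => ?_
    rw [MvPolynomial.monomial_mul]
  rw [e]
  refine (mlen_sum _ _).trans ?_
  have h : mlen p * mlen q = ∑ i ∈ p.support, ∑ j ∈ q.support, |((p.coeff i : ℤ) : ℝ)| * |((q.coeff j : ℤ) : ℝ)| := by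
    unfold mlen
    rw [Finset.sum_mul_sum]
  rw [h]
  refine Finset.sum_le_sum fun i _ => ?_
  refine (mlen_sum _ _).trans ?_
  refine Finset.sum_le_sum fun j _ => ?_
  rw [mlen_monomial]
  push_cast
  rw [abs_mul]

end Pool.Agent.MSP
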