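import Pool.Agent.Lib.MP_f58a57_nt.P.A4c_Dict

/-! # A6: norms (MP_f58a57_nt, pairs) -/

open Complex Filter Topology IntermediateField Polynomial

noncomputable section

namespace Pool.Agent.MSP

theorem a6_transc {ϑ : ℂ} (hϑ : Transcendental ℚ ϑ) {Q : Polynomial ℤ} (hQ : Q ≠ 0) : aeval ϑ Q ≠ 0 := by
  intro h
  have h1 : aeval ϑ (Q.map (algebraMap ℤ ℚ)) = 0 := by
    rw [Polynomial.aeval_map_algebraMap]
    exact h
  have h2 := (transcendental_iff.mp hϑ) _ h1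
  exact hQ ((Polynomial.map_eq_zero_iff (algebraMap ℤ ℚ).injective_int).mp h2)

/-- the entries of the adjugate -/
theorem a6_adj {d : ℕ} (A : Matrix (Fin d) (Fin d) ℂ) (B : ℝ) (hB : 1 ≤ B) (hA : ∀ i j, ‖A i j‖ ≤ B) (i j : Fin d) :
    ‖A.adjugate i j‖ ≤ (d.factorial : ℝ) * B ^ d := by
  rw [Matrix.adjugate_apply]
  have h := Matrix.det_le (A := A.updateRow j (Pi.single i 1)) (abv := (NormedField.toAbsoluteValue ℂ))
    (x := B) ?_
  · simpa [NormedField.toAbsoluteValue] using h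
  · intro a b
    show ‖(A.updateRow j (Pi.single i 1)) a b‖ ≤ B
    rw [Matrix.updateRow_apply]
    split_ifs
    · by_cases hb : b = i
      · subst hb; simpa using hB
      · simp [hb]; linarith
    · exact hA a b

/-- the main inequality for a matrix with eigenvector `v` -/
theorem a6_main {d : ℕ} (A : Matrix (Fin d) (Fin d) ℂ) (B : ℝ) (hB : 1 ≤ B) (hA : ∀ i j, ‖A i j‖ ≤ B)
    (v : Fin d → ℂ) (hv : v ≠ 0) (c : ℂ) (h : Matrix.vecMul v A = c • v) :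
    ‖A.det‖ ≤ ‖c‖ * (d * ((d.factorial : ℝ) * B ^ d)) := by
  obtain ⟨i₀, hi₀⟩ : ∃ i, v i ≠ 0 := by
    by_contra hc
    push Not at hc
    exact hv (funext hc)
  obtain ⟨k, -, hk⟩ := Finset.exists_max_image (Finset.univ : Finset (Fin d)) (fun i => ‖v i‖) ⟨i₀, Finset.mem_univ _⟩
  have hk0 : 0 < ‖v k‖ := lt_of_lt_of_le (norm_pos_iff.mpr hi₀) (hk i₀ (Finset.mem_univ _))
  have h1 : A.det • v = c • Matrix.vecMul v A.adjugate := by
    have h2 : Matrix.vecMul v (A * A.adjugate) = A.det • v := by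
      rw [Matrix.mul_adjugate, Matrix.vecMul_smul, Matrix.vecMul_one]
    rw [← h2, ← Matrix.vecMul_vecMul, h, Matrix.smul_vecMul]
  have h2 : A.det * v k = c * ∑ j, v j * A.adjugate j k := by
    have h3 := congrFun h1 k
    simpa [Matrix.vecMul, dotProduct] using h3
  have h3 : ‖A.det‖ * ‖v k‖ ≤ (‖c‖ * (d * ((d.factorial : ℝ) * B ^ d))) * ‖v k‖ := by
    rw [← norm_mul, h2, norm_mul]
    have h4 : ‖∑ j, v j * A.adjugate j k‖ ≤ ∑ _j : Fin d, ‖v k‖ * ((d.factorial : ℝ) * B ^ d) := by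
      refine (norm_sum_le _ _).trans (Finset.sum_le_sum fun j _ => ?_)
      rw [norm_mul]
      exact mul_le_mul (hk j (Finset.mem_univ _)) (a6_adj A B hB hA j k) (norm_nonneg _) (norm_nonneg _)
    rw [Finset.sum_const, Finset.card_univ, Fintype.card_fin, nsmul_eq_mul] at h4
    calc ‖c‖ * ‖∑ j, v j * A.adjugate j k‖ ≤ ‖c‖ * (d * (‖v k‖ * ((d.factorial : ℝ) * B ^ d))) :=
          mul_le_mul_of_nonneg_left h4 (norm_nonneg _)
      _ = _ := by ring
  exact le_of_mul_le_mul_right h3 hk0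

/-- A6. PROOF. `Q = det N`, `N = ∑_ν p_ν • mat D l (Ξ_ν)`, `≠ 0` by `det_ne`, and `Q(ϑ) ≠ 0` since `ϑ` is transcendental. `det_bounds` (A1) for degree
`≤ d(δ + e l)` and length `≤ d! (card ι · H' · C^{D+l} H)^d`. With `N(ϑ)` the evaluated matrix, `eig` gives `v ᵥ* N(ϑ) = (sc D l · ξ) • v`; multiplying by the adjugate
matrix, `det N(ϑ) • v = (sc D l · ξ) • (v ᵥ* adj N(ϑ))` (`Matrix.mul_adjugate`), so with `v_k ≠ 0` of maximal absolute value
`‖det N(ϑ)‖ ≤ ‖sc D l‖ ‖ξ‖ ∑_j ‖adj N(ϑ)_{jk}‖`, and the entries of the adjugate are determinants of matrices with entries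
`≤ max(1, card ι H' C^{D+l} H max(1,‖ϑ‖)^{δ+el})` in absolute value (`norm_aeval_le`). The exponent `C` in the statement is real (`Real.rpow`); all the bases are `≥ 1`. -/
theorem norm_lemma {r s : ℕ} (ϑ : ℂ) (hϑ : Transcendental ℚ ϑ) (x : Fin r → ℂ) (y : Fin s → ℂ)
    (hx : ∀ i, IsAlgebraic ℚ (x i)) (hy : ∀ j, IsAlgebraic ℚ⟮ϑ⟯ (y j)) : ∃ C : ℝ, 1 ≤ C ∧
    ∀ (ι : Type) [Fintype ι] (D l δ : ℕ) (H H' : ℝ) (p : ι → Polynomial ℤ) (Ξ : ι → MvPolynomial (Fin r ⊕ Fin s) ℤ), 1 ≤ H → 1 ≤ H' →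
      (∀ ν, Bd D l H (Ξ ν)) → (∀ ν, (p ν).natDegree ≤ δ) → (∀ ν, len (p ν) ≤ H') →
      ∑ ν, aeval ϑ (p ν) * MvPolynomial.aeval (Sum.elim x y) (Ξ ν) ≠ 0 →
      ∃ Q : Polynomial ℤ, aeval ϑ Q ≠ 0 ∧ (Q.natDegree : ℝ) ≤ C * (δ + l) ∧
        Real.log (len Q) ≤ C * (Real.log (Fintype.card ι * H * H') + (D + l + 1)) ∧
        Real.log ‖aeval ϑ Q‖ ≤ Real.log ‖∑ ν, aeval ϑ (p ν) * MvPolynomial.aeval (Sum.elim x y) (Ξ ν)‖ +
          C * (Real.log (Fintype.card ι * H * H') + (D + l + δ + 1)) := by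
  obtain ⟨ρ⟩ := exists_dict ϑ hϑ x y hx hy
  set T : ℝ := max 1 ‖ϑ‖ with hT
  have hT1 : 1 ≤ T := le_max_left _ _
  have hlT : 0 ≤ Real.log T := Real.log_nonneg hT1
  have hlC : 0 ≤ Real.log ρ.C := Real.log_nonneg ρ.one_le
  have hC0 : 0 < ρ.C := lt_of_lt_of_le one_pos ρ.one_le
  have hd1 : (1 : ℝ) ≤ ρ.d := by exact_mod_cast ρ.d_pos
  have hdf1 : (1 : ℝ) ≤ (ρ.d.factorial : ℝ) := by exact_mod_cast ρ.d.factorial_pos
  have hlf : 0 ≤ Real.log (ρ.d.factorial : ℝ) := Real.log_nonneg hdf1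
  have hld : 0 ≤ Real.log (ρ.d : ℝ) := Real.log_nonneg hd1
  have he0 : (0 : ℝ) ≤ ρ.e := by positivity
  set C : ℝ := 1 + ρ.d * (1 + ρ.e) + (1 + ρ.d) * Real.log ρ.C + (Real.log ρ.d + Real.log (ρ.d.factorial : ℝ)) +
    ρ.d * (1 + ρ.e) * Real.log T with hC
  refine ⟨C, ?_, ?_⟩
  · have h1 : 0 ≤ (ρ.d : ℝ) * (1 + ρ.e) := by positivity
    have h2 : 0 ≤ (1 + (ρ.d : ℝ)) * Real.log ρ.C := by positivity
    have h3 : 0 ≤ (ρ.d : ℝ) * (1 + ρ.e) * Real.log T := by positivity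
    linarith
  intro ι _ D l δ H H' p Ξ hH hH' hΞ hp hlen hne
  set ξ : ℂ := ∑ ν, aeval ϑ (p ν) * MvPolynomial.aeval (Sum.elim x y) (Ξ ν) with hξ
  set n : ℝ := (Fintype.card ι : ℝ) with hn
  have hn1 : 1 ≤ n := by
    have : 0 < Fintype.card ι := by
      by_contra hc
      have hc0 : Fintype.card ι = 0 := by omega
      have := Fintype.card_eq_zero_iff.mp hc0
      apply hne
      rw [hξ]
      simp
    rw [hn]
    exact_mod_cast this
  set N : Matrix (Fin ρ.d) (Fin ρ.d) (Polynomial ℤ) := ∑ ν, p ν • ρ.mat D l (Ξ ν) with hN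
  have hNij : ∀ i j, N i j = ∑ ν, p ν * ρ.mat D l (Ξ ν) i j := by
    intro i j
    rw [hN, Matrix.sum_apply]
    simp [Matrix.smul_apply]
  have hdegN : ∀ i j, (N i j).natDegree ≤ δ + ρ.e * l := by
    intro i j
    rw [hNij]
    refine Polynomial.natDegree_sum_le_of_forall_le _ _ fun ν _ => ?_
    exact Polynomial.natDegree_mul_le.trans (add_le_add (hp ν) (ρ.deg D l H (Ξ ν) (hΞ ν) i j))
  set B : ℝ := n * (H' * (ρ.C ^ (D + l) * H)) with hB
  have hCp : 1 ≤ ρ.C ^ (D + l) := one_le_pow₀ ρ.one_le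
  have hCH : 1 ≤ ρ.C ^ (D + l) * H := one_le_mul_of_one_le_of_one_le hCp hH
  have hB1 : 1 ≤ B := one_le_mul_of_one_le_of_one_le hn1 (one_le_mul_of_one_le_of_one_le hH' hCH)
  have hB0 : 0 < B := lt_of_lt_of_le one_pos hB1
  have hlenN : ∀ i j, len (N i j) ≤ B := by
    intro i j
    rw [hNij]
    refine (len_sum _ _).trans ?_
    have h1 : ∀ ν ∈ (Finset.univ : Finset ι), len (p ν * ρ.mat D l (Ξ ν) i j) ≤ H' * (ρ.C ^ (D + l) * H) := by
      intro ν _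
      exact (len_mul _ _).trans (mul_le_mul (hlen ν) (ρ.len_le D l H (Ξ ν) (hΞ ν) i j) (len_nonneg _)
        (le_trans zero_le_one hH'))
    refine (Finset.sum_le_sum h1).trans ?_
    rw [Finset.sum_const, Finset.card_univ, nsmul_eq_mul]
  obtain ⟨hQd, hQl⟩ := det_bounds N (δ + ρ.e * l) B hdegN hlenN
  have hQ0 : N.det ≠ 0 := ρ.det_ne D l H ι p Ξ hΞ hne
  have hQϑ : aeval ϑ N.det ≠ 0 := a6_transc hϑ hQ0
  have hlogB : Real.log B = Real.log (n * H * H') + (D + l) * Real.log ρ.C := by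
    have : B = (n * H * H') * ρ.C ^ (D + l) := by rw [hB]; ring
    rw [this, Real.log_mul (by positivity) (by positivity), Real.log_pow]
    push_cast
    ring
  have hL0 : 0 ≤ Real.log (n * H * H') :=
    Real.log_nonneg (one_le_mul_of_one_le_of_one_le (one_le_mul_of_one_le_of_one_le hn1 hH) hH')
  have hDl : (0 : ℝ) ≤ D := by positivity
  have hl0 : (0 : ℝ) ≤ l := by positivity
  have hδ0 : (0 : ℝ) ≤ δ := by positivity
  refine ⟨N.det, hQϑ, ?_, ?_, ?_⟩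
  · have h1 : (N.det.natDegree : ℝ) ≤ ρ.d * (δ + ρ.e * l) := by exact_mod_cast hQd
    refine h1.trans ?_
    have h2 : (ρ.d : ℝ) * (δ + ρ.e * l) ≤ ρ.d * (1 + ρ.e) * (δ + l) := by
      have : (ρ.d : ℝ) * (1 + ρ.e) * (δ + l) = ρ.d * (δ + ρ.e * l) + ρ.d * (ρ.e * δ + l) := by ring
      rw [this]
      have h3 : 0 ≤ (ρ.d : ℝ) * (ρ.e * δ + l) := by positivity
      linarith
    refine h2.trans (mul_le_mul_of_nonneg_right ?_ (by positivity))
    have h4 : 0 ≤ (1 + (ρ.d : ℝ)) * Real.log ρ.C := by positivity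
    have h5 : 0 ≤ (ρ.d : ℝ) * (1 + ρ.e) * Real.log T := by positivity
    linarith
  · have hlpos : 0 < len N.det := lt_of_lt_of_le one_pos (one_le_len _ hQ0)
    have h1 : Real.log (len N.det) ≤ Real.log ((ρ.d.factorial : ℝ) * B ^ ρ.d) := Real.log_le_log hlpos hQl
    rw [Real.log_mul (by positivity) (by positivity), Real.log_pow, hlogB] at h1
    refine h1.trans ?_
    have e1 : C * (Real.log (n * H * H') + (D + l + 1)) =
        (Real.log (ρ.d.factorial : ℝ) + ρ.d * (Real.log (n * H * H') + (D + l) * Real.log ρ.C)) +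
        ((1 + ρ.d * ρ.e + (1 + ρ.d) * Real.log ρ.C + (Real.log ρ.d + Real.log (ρ.d.factorial : ℝ)) +
          ρ.d * (1 + ρ.e) * Real.log T) * Real.log (n * H * H') +
        (1 + ρ.d * (1 + ρ.e) + Real.log ρ.C + (Real.log ρ.d + Real.log (ρ.d.factorial : ℝ)) +
          ρ.d * (1 + ρ.e) * Real.log T) * (D + l) +
        (1 + ρ.d * (1 + ρ.e) + (1 + ρ.d) * Real.log ρ.C + Real.log ρ.d +
          ρ.d * (1 + ρ.e) * Real.log T)) := by
      rw [hC]; ring
    rw [e1]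
    have : 0 ≤ ((1 + ρ.d * ρ.e + (1 + ρ.d) * Real.log ρ.C + (Real.log ρ.d + Real.log (ρ.d.factorial : ℝ)) +
          ρ.d * (1 + ρ.e) * Real.log T) * Real.log (n * H * H') +
        (1 + ρ.d * (1 + ρ.e) + Real.log ρ.C + (Real.log ρ.d + Real.log (ρ.d.factorial : ℝ)) +
          ρ.d * (1 + ρ.e) * Real.log T) * (D + l) +
        (1 + ρ.d * (1 + ρ.e) + (1 + ρ.d) * Real.log ρ.C + Real.log ρ.d +
          ρ.d * (1 + ρ.e) * Real.log T)) := by positivity
    linarith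
  · set A : Matrix (Fin ρ.d) (Fin ρ.d) ℂ := N.map (fun f => aeval ϑ f) with hA
    have hdetA : A.det = aeval ϑ N.det := by
      have h := (RingHom.map_det (aeval ϑ : Polynomial ℤ →ₐ[ℤ] ℂ).toRingHom N)
      rw [show aeval ϑ N.det = (aeval ϑ : Polynomial ℤ →ₐ[ℤ] ℂ).toRingHom N.det from rfl, h]
      rfl
    have hAsum : A = ∑ ν, aeval ϑ (p ν) • (ρ.mat D l (Ξ ν)).map (fun f => aeval ϑ f) := by
      ext i j
      rw [hA, Matrix.map_apply, hNij, map_sum, Matrix.sum_apply]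
      refine Finset.sum_congr rfl fun ν _ => ?_
      rw [map_mul, Matrix.smul_apply, Matrix.map_apply, smul_eq_mul]
    have heig : Matrix.vecMul ρ.v A = (ρ.sc D l * ξ) • ρ.v := by
      rw [hAsum, Matrix.vecMul_sum, hξ, Finset.mul_sum, Finset.sum_smul]
      refine Finset.sum_congr rfl fun ν _ => ?_
      rw [Matrix.vecMul_smul, ρ.eig D l H (Ξ ν) (hΞ ν), smul_smul]
      congr 1
      ring
    have hTp : 1 ≤ T ^ (δ + ρ.e * l) := one_le_pow₀ hT1
    have hA2 : ∀ i j, ‖A i j‖ ≤ B * T ^ (δ + ρ.e * l) := by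
      intro i j
      rw [hA, Matrix.map_apply]
      refine (norm_aeval_le ϑ _).trans (mul_le_mul (hlenN i j) ?_ (by positivity) hB0.le)
      exact pow_le_pow_right₀ hT1 (hdegN i j)
    have hmain := a6_main A (B * T ^ (δ + ρ.e * l)) (one_le_mul_of_one_le_of_one_le hB1 hTp) hA2 ρ.v ρ.v_ne _ heig
    rw [hdetA] at hmain
    have hξ0 : 0 < ‖ξ‖ := norm_pos_iff.mpr hne
    have hT0 : 0 < T := lt_of_lt_of_le one_pos hT1
    have h2 : ‖aeval ϑ N.det‖ ≤ (ρ.C ^ (D + l) * ‖ξ‖) * (ρ.d * ((ρ.d.factorial : ℝ) * (B * T ^ (δ + ρ.e * l)) ^ ρ.d)) := by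
      refine hmain.trans (mul_le_mul_of_nonneg_right ?_ (by positivity))
      rw [norm_mul]
      exact mul_le_mul_of_nonneg_right (ρ.sc_le D l) (norm_nonneg _)
    have h3 := Real.log_le_log (norm_pos_iff.mpr hQϑ) h2
    rw [Real.log_mul (by positivity) (by positivity), Real.log_mul (by positivity) (by positivity),
      Real.log_mul (by positivity) (by positivity), Real.log_mul (by positivity) (by positivity), Real.log_pow,
      Real.log_pow, Real.log_mul (by positivity) (by positivity), Real.log_pow, hlogB] at h3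
    push_cast at h3
    refine h3.trans ?_
    have e1 : Real.log ‖ξ‖ + C * (Real.log (n * H * H') + (D + l + δ + 1)) =
        ((D + l) * Real.log ρ.C + Real.log ‖ξ‖ + (Real.log ρ.d + (Real.log (ρ.d.factorial : ℝ) +
          ρ.d * (Real.log (n * H * H') + (D + l) * Real.log ρ.C + (δ + ρ.e * l) * Real.log T)))) +
        ((1 + ρ.d * ρ.e + (1 + ρ.d) * Real.log ρ.C + (Real.log ρ.d + Real.log (ρ.d.factorial : ℝ)) +
          ρ.d * (1 + ρ.e) * Real.log T) * Real.log (n * H * H') +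
        (1 + ρ.d * (1 + ρ.e) + (Real.log ρ.d + Real.log (ρ.d.factorial : ℝ)) +
          ρ.d * (1 + ρ.e) * Real.log T) * D +
        (1 + ρ.d * (1 + ρ.e) + (Real.log ρ.d + Real.log (ρ.d.factorial : ℝ)) +
          ρ.d * Real.log T) * l +
        (1 + ρ.d * (1 + ρ.e) + (1 + ρ.d) * Real.log ρ.C + (Real.log ρ.d + Real.log (ρ.d.factorial : ℝ)) +
          ρ.d * ρ.e * Real.log T) * δ +
        (1 + ρ.d * (1 + ρ.e) + (1 + ρ.d) * Real.log ρ.C + ρ.d * (1 + ρ.e) * Real.log T)) := by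
      rw [hC]; ring
    rw [e1]
    have : 0 ≤ ((1 + ρ.d * ρ.e + (1 + ρ.d) * Real.log ρ.C + (Real.log ρ.d + Real.log (ρ.d.factorial : ℝ)) +
          ρ.d * (1 + ρ.e) * Real.log T) * Real.log (n * H * H') +
        (1 + ρ.d * (1 + ρ.e) + (Real.log ρ.d + Real.log (ρ.d.factorial : ℝ)) +
          ρ.d * (1 + ρ.e) * Real.log T) * D +
        (1 + ρ.d * (1 + ρ.e) + (Real.log ρ.d + Real.log (ρ.d.factorial : ℝ)) +
          ρ.d * Real.log T) * l +
        (1 + ρ.d * (1 + ρ.e) + (1 + ρ.d) * Real.log ρ.C + (Real.log ρ.d + Real.log (ρ.d.factorial : ℝ)) +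
          ρ.d * ρ.e * Real.log T) * δ +
        (1 + ρ.d * (1 + ρ.e) + (1 + ρ.d) * Real.log ρ.C + ρ.d * (1 + ρ.e) * Real.log T)) := by positivity
    linarith

end Pool.Agent.MSP
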