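import Pool.Agent.Lib.MP_f58a57_nt.P.F1_CMD
import Pool.Agent.Lib.MP_f58a57_nt.G3e_KK

/-! # F3: special points, dependence (MP_f58a57_nt, pairs) -/

open Complex Filter Topology IntermediateField

noncomputable section

namespace Pool.Agent.MSP

/-- F3a. PROOF. `a z² + b z + c = 0`; `a ≠ 0` as `z` is not real. `(2az + b)² = b² - 4ac`, the imaginary part of `2az + b` is not zero and its square is real, so
`2az + b = ± √(4ac - b²) I`; `d = (4ac - b²).toNat > 0`, `z = -b/(2a) ± (1/(2a)) rt d`. -/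
theorem special_KK (z : ℂ) (hz : 0 < z.im) (h : MSD.IsSpecial z) : ∃ d : ℕ, 0 < d ∧ z ∈ MSD.KK d := by
  obtain ⟨a, b, c, hne, hq⟩ := h
  have him := congrArg Complex.im hq
  have hre := congrArg Complex.re hq
  simp only [pow_two, add_im, mul_im, intCast_re, intCast_im, mul_re, zero_mul, add_zero, zero_im, add_re, sub_zero, zero_re] at him hre
  have h1 : z.im * (2 * a * z.re + b) = 0 := by linarith
  have h2 : 2 * (a : ℝ) * z.re + b = 0 := by
    rcases mul_eq_zero.1 h1 with h | h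
    · exact absurd h hz.ne'
    · exact h
  have ha : a ≠ 0 := by
    rintro rfl
    have hb : (b : ℝ) = 0 := by simpa using h2
    have hc : (c : ℝ) = 0 := by
      rw [hb] at hre
      simpa using hre
    exact hne ⟨rfl, by exact_mod_cast hb, by exact_mod_cast hc⟩
  have haR : (a : ℝ) ≠ 0 := by exact_mod_cast ha
  have hx : z.re = -b / (2 * a) := by
    field_simp
    linarith
  have hy : 4 * (a : ℝ) ^ 2 * z.im ^ 2 = 4 * a * c - b ^ 2 := by
    have hb : (b : ℝ) = -(2 * a * z.re) := by linarith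
    rw [hb] at hre ⊢
    linear_combination (-4 * (a : ℝ)) * hre
  have hpos : (0 : ℝ) < 4 * a * c - b ^ 2 := by
    rw [← hy]
    positivity
  have hposZ : 0 < 4 * a * c - b ^ 2 := by exact_mod_cast hpos
  obtain ⟨d, hd⟩ := Int.eq_ofNat_of_zero_le hposZ.le
  have hdR : ((d : ℕ) : ℝ) = 4 * a * c - b ^ 2 := by exact_mod_cast hd.symm
  have hd0 : 0 < d := by
    have : (0 : ℤ) < (d : ℤ) := by
      rw [← hd]
      exact hposZ
    exact_mod_cast this
  refine ⟨d, hd0, (-b / (2 * a) : ℚ), (1 / (2 * |a|) : ℚ), ?_⟩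
  have habs : (0 : ℝ) < |(a : ℝ)| := abs_pos.2 haR
  have hyv : z.im = 1 / (2 * |(a : ℝ)|) * Real.sqrt d := by
    rw [hdR, ← hy]
    have : 4 * (a : ℝ) ^ 2 * z.im ^ 2 = (2 * |(a : ℝ)| * z.im) ^ 2 := by
      rw [mul_pow, mul_pow, sq_abs]
      ring
    rw [this, Real.sqrt_sq (by positivity)]
    field_simp
  apply Complex.ext
  · rw [hx]
    simp only [MSD.rt, add_re, mul_re, ratCast_re, ratCast_im, ofReal_re, ofReal_im, I_re, I_im]
    push_cast
    ring
  · rw [MSD.g3e_im, hyv]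
    push_cast
    ring

/-- F3b. PROOF. `z_i = u_i + v_i rt d_i`, `Im z_i = v_i √d_i`, so the square of `ν = Im z₁/Im z₂` is `(v₁/v₂)² d₁/d₂`. If `ν = r` is rational, then
`v₁ √d₁ = r v₂ √d₂`, so `z₁ = u₁ + r v₂ rt d₂ ∈ KK d₂` and `MSD.equiv_of_KK` contradicts `hne`. -/
theorem irr_ratio (z₁ z₂ : ℂ) (h1 : 0 < z₁.im) (h2 : 0 < z₂.im) (d₁ d₂ : ℕ) (hd₁ : 0 < d₁) (hd₂ : 0 < d₂) (hK₁ : z₁ ∈ MSD.KK d₁)
    (hK₂ : z₂ ∈ MSD.KK d₂) (hne : ¬ MSD.GEquiv z₁ z₂) :
    Irrational (z₁.im / z₂.im) ∧ ∃ r : ℚ, (z₁.im / z₂.im) ^ 2 = r := by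
  have hK₂' := hK₂
  obtain ⟨u₁, v₁, e₁⟩ := hK₁
  obtain ⟨u₂, v₂, e₂⟩ := hK₂
  have i₁ : z₁.im = v₁ * Real.sqrt d₁ := by rw [e₁, MSD.g3e_im]
  have i₂ : z₂.im = v₂ * Real.sqrt d₂ := by rw [e₂, MSD.g3e_im]
  have r₁ : z₁.re = u₁ := by
    rw [e₁]
    simp [MSD.rt]
  constructor
  · rintro ⟨r, hr⟩
    apply hne
    refine MSD.equiv_of_KK d₂ z₁ z₂ h1 h2 ⟨u₁, r * v₂, ?_⟩ hK₂'
    have hz : z₁.im = r * z₂.im := by
      rw [hr]
      field_simp
    apply Complex.ext
    · rw [r₁]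
      simp [MSD.rt]
    · rw [MSD.g3e_im, hz, i₂]
      push_cast
      ring
  · refine ⟨v₁ ^ 2 * d₁ / (v₂ ^ 2 * d₂), ?_⟩
    rw [i₁, i₂, div_pow, mul_pow, mul_pow, Real.sq_sqrt (Nat.cast_nonneg _), Real.sq_sqrt (Nat.cast_nonneg _)]
    push_cast
    ring

theorem f3_indep (a b : ℂ) (ha : Transcendental ℚ a) (hb : Transcendental ℚ⟮a⟯ b) : AlgebraicIndependent ℚ ![a, b] := by
  rw [AlgebraicIndependent.iff_transcendental_adjoin_image (1 : Fin 2)]
  constructor
  · have : Subsingleton {j : Fin 2 // j ≠ 1} := by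
      constructor
      rintro ⟨i, hi⟩ ⟨j, hj⟩
      apply Subtype.ext
      show i = j
      omega
    rw [algebraicIndependent_singleton_iff (⟨0, by simp⟩ : {j : Fin 2 // j ≠ 1})]
    simpa using ha
  · have himg : (![a, b] '' {(1 : Fin 2)}ᶜ) = {a} := by
      ext x
      simp only [Set.mem_image, Set.mem_compl_iff, Set.mem_singleton_iff]
      constructor
      · rintro ⟨i, hi, rfl⟩
        fin_cases i
        · rfl
        · exact absurd rfl hi
      · rintro rfl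
        exact ⟨0, by simp, rfl⟩
    rw [himg]
    intro hal
    apply hb
    show IsAlgebraic _ b
    have h2 : IsAlgebraic (Algebra.adjoin ℚ {a}) b := by simpa using hal
    exact IntermediateField.isAlgebraic_adjoin_iff.mpr h2

/-- F3c. PROOF. If `a` is transcendental, then `b` is algebraic over `ℚ(a)` (otherwise `a, b` would be algebraically independent), `ϑ = a`. If `a` is algebraic and
`b` transcendental, `ϑ = b`. If both are algebraic, take any transcendental number (`transcendental_liouvilleNumber`). -/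
theorem exists_theta (a b : ℂ) (h : ¬ AlgebraicIndependent ℚ ![a, b]) :
    ∃ ϑ : ℂ, Transcendental ℚ ϑ ∧ IsAlgebraic ℚ⟮ϑ⟯ a ∧ IsAlgebraic ℚ⟮ϑ⟯ b := by
  by_cases ha : Transcendental ℚ a
  · refine ⟨a, ha, ?_, ?_⟩
    · exact isAlgebraic_algebraMap (⟨a, mem_adjoin_simple_self ℚ a⟩ : ℚ⟮a⟯)
    · by_contra hb
      exact h (f3_indep a b ha hb)
  · have ha' : IsAlgebraic ℚ a := by
      by_contra h'
      exact ha h'
    by_cases hb : Transcendental ℚ b
    · refine ⟨b, hb, ha'.tower_top _, ?_⟩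
      exact isAlgebraic_algebraMap (⟨b, mem_adjoin_simple_self ℚ b⟩ : ℚ⟮b⟯)
    · have hb' : IsAlgebraic ℚ b := by
        by_contra h'
        exact hb h'
      have hL : Transcendental ℤ (liouvilleNumber ((2 : ℕ) : ℝ)) := transcendental_liouvilleNumber le_rfl
      have hL2 : Transcendental ℚ (liouvilleNumber ((2 : ℕ) : ℝ)) := by
        intro h'
        exact hL ((IsFractionRing.isAlgebraic_iff ℤ ℚ ℝ).mpr h')
      have hL3 : Transcendental ℚ ((liouvilleNumber ((2 : ℕ) : ℝ) : ℝ) : ℂ) := by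
        intro h'
        apply hL2
        exact (isAlgebraic_algebraMap_iff (algebraMap ℝ ℂ).injective).mp h'
      exact ⟨_, hL3, ha'.tower_top _, hb'.tower_top _⟩

end Pool.Agent.MSP
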