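import Pool.Agent.Lib.MP_f58a57_nt.P.T8c_ODE

/-! # E1: duplication (MP_f58a57_nt, pairs) -/

open Complex Filter Topology

noncomputable section

namespace Pool.Agent.MSP

/-- the entire numerator `wp' th⁴` -/
def e1_f (τ s t : ℂ) : ℂ :=
  (deriv (N2 τ s) t * N0 τ t - 2 * N2 τ s t * N1 τ t) * N0 τ t

theorem e1_N0_diff (τ : ℂ) (hτ : 0 < τ.im) : Differentiable ℂ (N0 τ) := th_differentiable τ hτ

theorem e1_N1_diff (τ : ℂ) (hτ : 0 < τ.im) : Differentiable ℂ (N1 τ) := by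
  have h := (th_differentiable τ hτ).contDiff (n := 2)
  have h2 : ContDiff ℂ 1 (deriv (th τ)) := by
    have h3 : ContDiff ℂ (1 + 1) (th τ) := h
    exact (contDiff_succ_iff_deriv.1 h3).2.2
  exact h2.differentiable one_ne_zero

theorem e1_N0_hasDeriv (τ : ℂ) (hτ : 0 < τ.im) (t : ℂ) : HasDerivAt (N0 τ) (N1 τ t) t :=
  (th_differentiable τ hτ t).hasDerivAt

theorem e1_ddth_diff (τ : ℂ) (hτ : 0 < τ.im) : Differentiable ℂ (deriv (deriv (th τ))) := by
  have h2 : ContDiff ℂ 1 (deriv (deriv (th τ))) := by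
    have h3 : ContDiff ℂ (1 + 1) (deriv (th τ)) :=
      (Differentiable.contDiff (e1_N1_diff τ hτ) (n := 2))
    exact (contDiff_succ_iff_deriv.1 h3).2.2
  exact h2.differentiable one_ne_zero

theorem e1_N2_diff (τ s : ℂ) (hτ : 0 < τ.im) : Differentiable ℂ (N2 τ s) := by
  have h0 := th_differentiable τ hτ
  have h1 : Differentiable ℂ (deriv (th τ)) := e1_N1_diff τ hτ
  have h2 := e1_ddth_diff τ hτ
  unfold N2
  exact ((h1.pow 2).sub (h0.mul h2)).sub ((h0.pow 2).const_mul s)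

theorem e1_dN2_diff (τ s : ℂ) (hτ : 0 < τ.im) : Differentiable ℂ (deriv (N2 τ s)) := by
  have h2 : ContDiff ℂ 1 (deriv (N2 τ s)) := by
    have h3 : ContDiff ℂ (1 + 1) (N2 τ s) := Differentiable.contDiff (e1_N2_diff τ s hτ) (n := 2)
    exact (contDiff_succ_iff_deriv.1 h3).2.2
  exact h2.differentiable one_ne_zero

theorem e1_f_diff (τ s : ℂ) (hτ : 0 < τ.im) : Differentiable ℂ (e1_f τ s) := by
  unfold e1_f
  exact (((e1_dN2_diff τ s hτ).mul (e1_N0_diff τ hτ)).sub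
    (((e1_N2_diff τ s hτ).const_mul 2).mul (e1_N1_diff τ hτ))).mul (e1_N0_diff τ hτ)

/-- `f = wp' th⁴` off the lattice -/
theorem e1_f_eq (τ s : ℂ) (hτ : 0 < τ.im) (t : ℂ) (ht : th τ t ≠ 0) :
    deriv (wp τ s) t * th τ t ^ 4 = e1_f τ s t := by
  have h2 := (e1_N2_diff τ s hτ t).hasDerivAt
  have h0 := e1_N0_hasDeriv τ hτ t
  have ht' : N0 τ t ≠ 0 := ht
  have h : HasDerivAt (wp τ s) ((deriv (N2 τ s) t * N0 τ t ^ 2 -
      N2 τ s t * ((2 : ℕ) * N0 τ t ^ (2 - 1) * N1 τ t)) / (N0 τ t ^ 2) ^ 2) t :=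
    h2.div (h0.pow 2) (pow_ne_zero 2 ht')
  rw [h.deriv]
  unfold e1_f
  show _ * N0 τ t ^ 4 = _
  field_simp
  push_cast
  ring

/-- the derivative of the automorphy factor -/
theorem e1_au_deriv (τ : ℂ) (m n : ℤ) (t : ℂ) :
    HasDerivAt (au τ m n) (-(2 * Real.pi * I * n) * au τ m n t) t := by
  unfold au
  have h1 : HasDerivAt (fun t : ℂ => -(Real.pi * I * (n : ℂ) ^ 2 * τ) - 2 * Real.pi * I * n * t)
      (-(2 * Real.pi * I * n)) t := by
    have h2 := ((hasDerivAt_id t).const_mul (2 * Real.pi * I * n)).const_sub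
      (-(Real.pi * I * (n : ℂ) ^ 2 * τ))
    simpa using h2
  have h3 := (h1.cexp).const_mul ((-1 : ℂ) ^ (m + n))
  have h4 : -(2 * Real.pi * I * n) * ((-1 : ℂ) ^ (m + n) *
      cexp (-(Real.pi * I * (n : ℂ) ^ 2 * τ) - 2 * Real.pi * I * n * t)) =
      (-1 : ℂ) ^ (m + n) * (cexp (-(Real.pi * I * (n : ℂ) ^ 2 * τ) - 2 * Real.pi * I * n * t) *
        -(2 * Real.pi * I * n)) := by ring
  rw [h4]
  exact h3

theorem e1_dN2_shift (τ s : ℂ) (hτ : 0 < τ.im) (m n : ℤ) (t : ℂ) :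
    deriv (N2 τ s) (t + m + n * τ) =
      au τ m n t ^ 2 * (deriv (N2 τ s) t - 4 * Real.pi * I * n * N2 τ s t) := by
  have h1 : HasDerivAt (fun t : ℂ => N2 τ s (t + m + n * τ))
      (deriv (N2 τ s) (t + m + n * τ)) t := by
    have h2 := (e1_N2_diff τ s hτ (t + m + n * τ)).hasDerivAt
    have h3 : HasDerivAt (fun t : ℂ => t + m + n * τ) 1 t :=
      ((hasDerivAt_id t).add_const (m : ℂ)).add_const (n * τ)
    have h4 := HasDerivAt.comp t h2 h3
    rw [mul_one] at h4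
    exact h4
  have h5 : HasDerivAt (fun t : ℂ => au τ m n t ^ 2 * N2 τ s t)
      (((2 : ℕ) * au τ m n t ^ (2 - 1) * (-(2 * Real.pi * I * n) * au τ m n t)) * N2 τ s t +
        au τ m n t ^ 2 * deriv (N2 τ s) t) t :=
    ((e1_au_deriv τ m n t).pow 2).mul (e1_N2_diff τ s hτ t).hasDerivAt
  have h6 : (fun t : ℂ => N2 τ s (t + m + n * τ)) = fun t : ℂ => au τ m n t ^ 2 * N2 τ s t := by
    funext t
    exact N2_shift τ s hτ m n t
  rw [h6] at h1
  rw [h1.unique h5]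
  push_cast
  ring

theorem e1_f_shift (τ s : ℂ) (hτ : 0 < τ.im) (m n : ℤ) (t : ℂ) :
    e1_f τ s (t + m + n * τ) = au τ m n t ^ 4 * e1_f τ s t := by
  unfold e1_f
  rw [e1_dN2_shift τ s hτ, N0_shift τ hτ, N1_shift τ hτ, N2_shift τ s hτ]
  ring

theorem e1_N1_neg (τ : ℂ) (t : ℂ) : N1 τ (-t) = N1 τ t := by
  unfold N1
  have h : (fun t => th τ (-t)) = fun t => -th τ t := funext (fun t => th_neg τ t)
  have h1 : deriv (fun t => th τ (-t)) t = -deriv (th τ) (-t) := deriv_comp_neg (th τ) t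
  have h2 : deriv (fun t => -th τ t) t = -deriv (th τ) t := by
    rw [deriv.fun_neg]
  rw [h, h2] at h1
  exact (neg_inj.1 h1).symm

theorem e1_ddth_neg (τ : ℂ) (t : ℂ) : deriv (deriv (th τ)) (-t) = -deriv (deriv (th τ)) t := by
  have h : (fun t => deriv (th τ) (-t)) = fun t => deriv (th τ) t := funext (fun t => e1_N1_neg τ t)
  have h1 : deriv (fun t => deriv (th τ) (-t)) t = -deriv (deriv (th τ)) (-t) :=
    deriv_comp_neg (deriv (th τ)) t
  rw [h] at h1
  have h3 : deriv (fun t => deriv (th τ) t) t = deriv (deriv (th τ)) t := rfl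
  rw [h3] at h1
  rw [h1, neg_neg]

theorem e1_N2_neg (τ s : ℂ) (t : ℂ) : N2 τ s (-t) = N2 τ s t := by
  unfold N2
  have h1 : deriv (th τ) (-t) = deriv (th τ) t := e1_N1_neg τ t
  rw [h1, e1_ddth_neg, th_neg]
  ring

theorem e1_dN2_neg (τ s : ℂ) (t : ℂ) : deriv (N2 τ s) (-t) = -deriv (N2 τ s) t := by
  have h : (fun t => N2 τ s (-t)) = fun t => N2 τ s t := funext (fun t => e1_N2_neg τ s t)
  have h1 : deriv (fun t => N2 τ s (-t)) t = -deriv (N2 τ s) (-t) := deriv_comp_neg (N2 τ s) t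
  rw [h] at h1
  have h3 : deriv (fun t => N2 τ s t) t = deriv (N2 τ s) t := rfl
  rw [h3] at h1
  rw [h1, neg_neg]

theorem e1_f_neg (τ s t : ℂ) : e1_f τ s (-t) = -e1_f τ s t := by
  unfold e1_f
  have h0 : N0 τ (-t) = -N0 τ t := th_neg τ t
  rw [e1_dN2_neg, e1_N1_neg, e1_N2_neg, h0]
  ring

/-- `f` vanishes at the half periods -/
theorem e1_f_half (τ s : ℂ) (hτ : 0 < τ.im) (t : ℂ) (ht : th τ (2 * t) = 0) :
    e1_f τ s t = 0 := by
  obtain ⟨m, n, hmn⟩ := (th_eq_zero_iff τ hτ (2 * t)).1 ht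
  have h1 : t = -t + m + n * τ := by linear_combination hmn
  have h2 : e1_f τ s t = au τ m n (-t) ^ 4 * e1_f τ s (-t) := by
    conv_lhs => rw [h1]
    exact e1_f_shift τ s hτ m n (-t)
  have h3 : au τ m n (-t) ^ 4 = 1 := by
    unfold au
    rw [mul_pow, ← Complex.exp_nat_mul]
    have h4 : (((-1 : ℂ) ^ (m + n)) ^ 4) = 1 := by
      rw [← zpow_natCast, ← zpow_mul]
      have : (m + n) * ((4 : ℕ) : ℤ) = 2 * (2 * (m + n)) := by push_cast; ring
      rw [this, zpow_mul]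
      norm_num
    rw [h4, one_mul, Complex.exp_eq_one_iff]
    refine ⟨2 * (n * m), ?_⟩
    push_cast
    linear_combination (4 * Real.pi * I * n) * hmn
  rw [h3, one_mul, e1_f_neg] at h2
  have h5 : e1_f τ s t + e1_f τ s t = 0 := by
    nth_rewrite 1 [h2]
    ring
  have h6 : 2 * e1_f τ s t = 0 := by linear_combination h5
  exact (mul_eq_zero.1 h6).resolve_left two_ne_zero

/-- the denominator -/
def e1_g (τ t : ℂ) : ℂ := th τ (2 * t)

theorem e1_g_hasDeriv (τ : ℂ) (hτ : 0 < τ.im) (t : ℂ) :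
    HasDerivAt (e1_g τ) (2 * N1 τ (2 * t)) t := by
  have h1 := e1_N0_hasDeriv τ hτ (2 * t)
  have h2 : HasDerivAt (fun t : ℂ => 2 * t) 2 t := by
    simpa using (hasDerivAt_id t).const_mul (2 : ℂ)
  have h3 := HasDerivAt.comp t h1 h2
  rw [mul_comm] at h3
  exact h3

theorem e1_g_diff (τ : ℂ) (hτ : 0 < τ.im) : Differentiable ℂ (e1_g τ) :=
  fun t => (e1_g_hasDeriv τ hτ t).differentiableAt

/-- the zeros of `g` are simple -/
theorem e1_g_simple (τ : ℂ) (hτ : 0 < τ.im) (t : ℂ) (ht : e1_g τ t = 0) : deriv (e1_g τ) t ≠ 0 := by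
  rw [(e1_g_hasDeriv τ hτ t).deriv]
  obtain ⟨m, n, hmn⟩ := (th_eq_zero_iff τ hτ (2 * t)).1 ht
  have h1 := N1_shift τ hτ m n 0
  have h0 : N0 τ 0 = 0 := by
    have := (th_eq_zero_iff τ hτ 0).2 ⟨0, 0, by simp⟩
    exact this
  rw [h0, mul_zero, sub_zero, zero_add, ← hmn] at h1
  rw [h1]
  refine mul_ne_zero two_ne_zero (mul_ne_zero (au_ne τ m n 0) (deriv_th_zero_ne τ hτ))

theorem e1_g_shift (τ : ℂ) (hτ : 0 < τ.im) (m n : ℤ) (t : ℂ) :
    e1_g τ (t + m + n * τ) = au τ m n t ^ 4 * e1_g τ t := by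
  unfold e1_g
  have h1 := N0_shift τ hτ (2 * m) (2 * n) (2 * t)
  have h2 : 2 * (t + m + n * τ) = 2 * t + ((2 * m : ℤ) : ℂ) + ((2 * n : ℤ) : ℂ) * τ := by
    push_cast; ring
  rw [h2]
  have h3 : au τ (2 * m) (2 * n) (2 * t) = au τ m n t ^ 4 := by
    unfold au
    rw [mul_pow, ← Complex.exp_nat_mul]
    have h4 : (((-1 : ℂ) ^ (m + n)) ^ 4) = 1 := by
      rw [← zpow_natCast, ← zpow_mul]
      have : (m + n) * ((4 : ℕ) : ℤ) = 2 * (2 * (m + n)) := by push_cast; ring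
      rw [this, zpow_mul]
      norm_num
    have h5 : ((-1 : ℂ) ^ (2 * m + 2 * n)) = 1 := by
      have : 2 * m + 2 * n = 2 * (m + n) := by ring
      rw [this, zpow_mul]
      norm_num
    rw [h4, h5]
    congr 2
    push_cast
    ring
  rw [← h3]
  exact h1

open Classical in
/-- the quotient, with its removable singularities removed -/
def e1_E (τ s t : ℂ) : ℂ :=
  if e1_g τ t = 0 then deriv (e1_f τ s) t / deriv (e1_g τ) t else e1_f τ s t / e1_g τ t

theorem e1_g_ev_ne (τ : ℂ) (hτ : 0 < τ.im) (t : ℂ) (ht : e1_g τ t = 0) :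
    ∀ᶠ z in 𝓝[≠] t, e1_g τ z ≠ 0 := by
  have h := (e1_g_hasDeriv τ hτ t).eventually_ne (c := 0) (by
    have := e1_g_simple τ hτ t ht
    rwa [(e1_g_hasDeriv τ hτ t).deriv] at this)
  exact h

theorem e1_E_diff (τ s : ℂ) (hτ : 0 < τ.im) : Differentiable ℂ (e1_E τ s) := by
  intro t
  by_cases ht : e1_g τ t = 0
  · have hf0 : e1_f τ s t = 0 := e1_f_half τ s hτ t ht
    have hd1 : Differentiable ℂ (dslope (e1_f τ s) t) := by
      have := (Complex.differentiableOn_dslope (Filter.univ_mem : Set.univ ∈ 𝓝 t)).2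
        (e1_f_diff τ s hτ).differentiableOn
      exact differentiableOn_univ.1 this
    have hd2 : Differentiable ℂ (dslope (e1_g τ) t) := by
      have := (Complex.differentiableOn_dslope (Filter.univ_mem : Set.univ ∈ 𝓝 t)).2
        (e1_g_diff τ hτ).differentiableOn
      exact differentiableOn_univ.1 this
    have hne : dslope (e1_g τ) t t ≠ 0 := by
      rw [dslope_same]
      exact e1_g_simple τ hτ t ht
    have hev : e1_E τ s =ᶠ[𝓝 t] fun z => dslope (e1_f τ s) t z / dslope (e1_g τ) t z := by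
      have h1 := e1_g_ev_ne τ hτ t ht
      rw [eventually_nhdsWithin_iff] at h1
      filter_upwards [h1] with z hz
      by_cases hzt : z = t
      · subst hzt
        unfold e1_E
        rw [if_pos ht, dslope_same, dslope_same]
      · have h2 := hz hzt
        unfold e1_E
        rw [if_neg h2, dslope_of_ne _ hzt, dslope_of_ne _ hzt, slope_def_field, slope_def_field,
          hf0, ht, sub_zero, sub_zero]
        have h3 : z - t ≠ 0 := sub_ne_zero.2 hzt
        field_simp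
    exact ((hd1 t).div (hd2 t) hne).congr_of_eventuallyEq hev
  · have hev : e1_E τ s =ᶠ[𝓝 t] fun z => e1_f τ s z / e1_g τ z := by
      have h1 : ∀ᶠ z in 𝓝 t, e1_g τ z ≠ 0 :=
        ((e1_g_diff τ hτ).continuous.continuousAt).eventually_ne ht
      filter_upwards [h1] with z hz
      unfold e1_E
      rw [if_neg hz]
    exact ((e1_f_diff τ s hτ t).div (e1_g_diff τ hτ t) ht).congr_of_eventuallyEq hev

theorem e1_dense (τ : ℂ) (hτ : 0 < τ.im) : Dense {z | e1_g τ z ≠ 0} := by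
  intro t
  by_cases ht : e1_g τ t = 0
  · rw [mem_closure_iff_frequently]
    have h1 := e1_g_ev_ne τ hτ t ht
    exact (h1.frequently).filter_mono nhdsWithin_le_nhds
  · exact subset_closure ht

theorem e1_E_periodic (τ s : ℂ) (hτ : 0 < τ.im) (m n : ℤ) (t : ℂ) :
    e1_E τ s (t + m + n * τ) = e1_E τ s t := by
  have hc := (e1_E_diff τ s hτ).continuous
  have h : (fun t : ℂ => e1_E τ s (t + m + n * τ)) = e1_E τ s := by
    apply Continuous.ext_on (e1_dense τ hτ) (hc.comp (by fun_prop)) hc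
    intro z hz
    have hz' : e1_g τ z ≠ 0 := hz
    have ha := au_ne τ m n z
    have h2 : e1_g τ (z + m + n * τ) ≠ 0 := by
      rw [e1_g_shift τ hτ]
      exact mul_ne_zero (pow_ne_zero 4 ha) hz'
    show e1_E τ s (z + m + n * τ) = e1_E τ s z
    unfold e1_E
    rw [if_neg h2, if_neg hz', e1_g_shift τ hτ, e1_f_shift τ s hτ,
      mul_div_mul_left _ _ (pow_ne_zero 4 ha)]
  exact congrFun h t

theorem e1_reduce (τ : ℂ) (hτ : 0 < τ.im) (t : ℂ) :
    ∃ (t₀ : ℂ) (m n : ℤ), ‖t₀‖ ≤ 1 + ‖τ‖ ∧ t = t₀ + m + n * τ := by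
  set b : ℝ := t.im / τ.im with hb
  set a : ℝ := t.re - b * τ.re with ha
  have ht : t = a + b * τ := by
    apply Complex.ext
    · simp [ha]
    · simp [hb]
      field_simp
  refine ⟨(Int.fract a : ℝ) + (Int.fract b : ℝ) * τ, ⌊a⌋, ⌊b⌋, ?_, ?_⟩
  · refine (norm_add_le _ _).trans ?_
    rw [norm_mul, Complex.norm_real, Complex.norm_real, Real.norm_of_nonneg (Int.fract_nonneg a),
      Real.norm_of_nonneg (Int.fract_nonneg b)]
    have h1 := (Int.fract_lt_one a).le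
    have h2 := (Int.fract_lt_one b).le
    have h3 : Int.fract b * ‖τ‖ ≤ 1 * ‖τ‖ := by gcongr
    linarith
  · have h1 : (a : ℂ) = ((Int.fract a : ℝ) : ℂ) + ((⌊a⌋ : ℤ) : ℂ) := by
      have := Int.fract_add_floor a
      exact_mod_cast this.symm
    have h2 : (b : ℂ) = ((Int.fract b : ℝ) : ℂ) + ((⌊b⌋ : ℤ) : ℂ) := by
      have := Int.fract_add_floor b
      exact_mod_cast this.symm
    rw [ht]
    linear_combination h1 + τ * h2

/-- E1a. PROOF. `E(t) = wp'(t) th(t)⁴ / th(2t)` has the periods `1` and `τ` (T4 and its derivative: `th(2t + 2τ) = au τ 0 2 (2t) th(2t)`,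
`th(t+τ)⁴ = au τ 0 1 t ^ 4 th(t)⁴`, and `au τ 0 2 (2t) = au τ 0 1 t ^ 4 = e^{-4πiτ-8πit}`). It is analytic where `th(2t) ≠ 0`. The zeros of `th(2t)` are
the points of `(1/2)Λ`, all simple (T3). At a point `e ∈ (1/2)Λ \ Λ` the numerator vanishes: `wp'` is odd and periodic, so
`wp'(e) = wp'(e - 2e) = -wp'(e)`. At `0` (and by periodicity at all lattice points): `wp'(t) t³ → -2` (from `wp_eq` and Mathlib's series for
`℘'`, or from `wp = N2/N0²`), `th(t)/t → c`, `th(2t)/t → 2c`, `c = th'(0)`, so `E(t) → -2c⁴/(2c) = -c³`. So `E` extends to an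
entire function which is bounded, hence constant `= -c³`. [Alternatively avoid `wp'` near `0`: `wp' th³ = (N2' th - 2 N2 th')/1` is
entire: `wp = N2/th²` gives `wp' th³ = N2' th - 2 N2 N1`, so `E = (N2' th - 2 N2 N1) th/th(2t)`, at `0`: `-2 c² c · c t/(2 c t) = -c³`.] -/
theorem th_double (τ : ℂ) (hτ : 0 < τ.im) (t : ℂ) (ht : th τ t ≠ 0) :
    deriv (wp τ (sE τ)) t * th τ t ^ 4 = -(deriv (th τ) 0) ^ 3 * th τ (2 * t) := by
  rw [e1_f_eq τ (sE τ) hτ t ht]
  set s := sE τ with hs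
  have hE := e1_E_diff τ s hτ
  -- bounded
  have hb : Bornology.IsBounded (Set.range (e1_E τ s)) := by
    have hK : IsCompact (e1_E τ s '' Metric.closedBall 0 (1 + ‖τ‖)) :=
      (isCompact_closedBall _ _).image hE.continuous
    apply hK.isBounded.subset
    rintro _ ⟨z, rfl⟩
    obtain ⟨z₀, m, n, hz₀, hz⟩ := e1_reduce τ hτ z
    refine ⟨z₀, by rwa [mem_closedBall_zero_iff], ?_⟩
    rw [hz, e1_E_periodic τ s hτ]
  have hconst := hE.apply_eq_apply_of_bounded hb t 0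
  -- the value at zero
  have hth0 : th τ 0 = 0 := (th_eq_zero_iff τ hτ 0).2 ⟨0, 0, by simp⟩
  have hg0 : e1_g τ 0 = 0 := by
    unfold e1_g
    rw [mul_zero]
    exact hth0
  have hc := deriv_th_zero_ne τ hτ
  have hE0 : e1_E τ s 0 = -(deriv (th τ) 0) ^ 3 := by
    unfold e1_E
    rw [if_pos hg0, (e1_g_hasDeriv τ hτ 0).deriv]
    have hA : Differentiable ℂ (fun t => deriv (N2 τ s) t * N0 τ t - 2 * N2 τ s t * N1 τ t) :=
      ((e1_dN2_diff τ s hτ).mul (e1_N0_diff τ hτ)).sub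
        (((e1_N2_diff τ s hτ).const_mul 2).mul (e1_N1_diff τ hτ))
    have hf : HasDerivAt (e1_f τ s)
        (deriv (fun t => deriv (N2 τ s) t * N0 τ t - 2 * N2 τ s t * N1 τ t) 0 * N0 τ 0 +
          (deriv (N2 τ s) 0 * N0 τ 0 - 2 * N2 τ s 0 * N1 τ 0) * N1 τ 0) 0 :=
      (hA 0).hasDerivAt.mul (e1_N0_hasDeriv τ hτ 0)
    rw [hf.deriv, mul_zero]
    have h0 : N0 τ 0 = 0 := hth0
    have h1 : N1 τ 0 = deriv (th τ) 0 := rfl
    have h2 : N2 τ s 0 = deriv (th τ) 0 ^ 2 := by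
      unfold N2
      rw [hth0]
      ring
    rw [h0, h1, h2]
    field_simp
    ring
  by_cases hg : e1_g τ t = 0
  · rw [e1_f_half τ s hτ t hg]
    have : th τ (2 * t) = 0 := hg
    rw [this, mul_zero]
  · have h1 : e1_E τ s t = e1_f τ s t / e1_g τ t := by
      unfold e1_E
      rw [if_neg hg]
    rw [h1, hE0, div_eq_iff hg] at hconst
    exact hconst

end Pool.Agent.MSP
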