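import Pool.Agent.Lib.MP_f58a57_nt.P.A4_Basis

/-! # A4b: matrix representation (MP_f58a57_nt, pairs) -/

open Complex Filter Topology IntermediateField Polynomial

noncomputable section

namespace Pool.Agent.MSP

/-- the representation of a field `𝕃` by complex matrices -/
structure Rep (ϑ : ℂ) {r s : ℕ} (x : Fin r → ℂ) (y : Fin s → ℂ) where
  𝕃 : Subfield ℂ
  d : ℕ
  R : 𝕃 →+* Matrix (Fin d) (Fin d) ℂ
  v : Fin d → ℂ
  den : ℤ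
  h : Polynomial ℤ
  MA : Fin r → Matrix (Fin d) (Fin d) ℤ
  MB : Fin s → Matrix (Fin d) (Fin d) (Polynomial ℤ)
  Θ : 𝕃
  X : Fin r → 𝕃
  Y : Fin s → 𝕃
  d_pos : 0 < d
  v_ne : v ≠ 0
  den_ne : den ≠ 0
  h_ne : aeval ϑ h ≠ 0
  Θ_eq : (Θ : ℂ) = ϑ
  X_eq : ∀ i, (X i : ℂ) = x i
  Y_eq : ∀ j, (Y j : ℂ) = y j
  eig : ∀ ξ : 𝕃, Matrix.vecMul v (R ξ) = (ξ : ℂ) • v
  det_ne : ∀ ξ : 𝕃, ξ ≠ 0 → (R ξ).det ≠ 0
  R_Θ : R Θ = ϑ • (1 : Matrix (Fin d) (Fin d) ℂ)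
  R_X : ∀ i, (MA i).map (fun a : ℤ => (a : ℂ)) = (den : ℂ) • R (X i)
  R_Y : ∀ j, (MB j).map (fun p => aeval ϑ p) = (aeval ϑ h) • R (Y j)

/-- common denominator of finitely many rationals -/
theorem a4b_rat {ι : Type} [Fintype ι] (f : ι → ℚ) :
    ∃ D : ℤ, D ≠ 0 ∧ ∃ g : ι → ℤ, ∀ i, (g i : ℂ) = (D : ℂ) * (f i : ℂ) := by
  classical
  have key : ∀ s : Finset ι, ∃ D : ℤ, D ≠ 0 ∧ ∀ i ∈ s, ∃ g : ℤ, (g : ℂ) = (D : ℂ) * (f i : ℂ) := by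
    intro s
    induction s using Finset.induction_on with
    | empty => exact ⟨1, one_ne_zero, by simp⟩
    | insert a s ha ih =>
      obtain ⟨D, hD, hs⟩ := ih
      have hden : ((f a).den : ℂ) ≠ 0 := by
        exact_mod_cast (f a).den_nz
      refine ⟨D * (f a).den, mul_ne_zero hD (by exact_mod_cast (f a).den_nz), ?_⟩
      intro i hi
      rcases Finset.mem_insert.mp hi with rfl | hi
      · refine ⟨D * (f i).num, ?_⟩
        have h1 : ((f i : ℚ) : ℂ) = ((f i).num : ℂ) / ((f i).den : ℂ) := by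
          exact_mod_cast congrArg (fun q : ℚ => (q : ℂ)) (Rat.num_div_den (f i)).symm
        rw [h1]
        push_cast
        field_simp
      · obtain ⟨g, hg⟩ := hs i hi
        refine ⟨g * (f a).den, ?_⟩
        push_cast
        rw [hg]
        ring
  obtain ⟨D, hD, hs⟩ := key Finset.univ
  choose g hg using fun i => hs i (Finset.mem_univ i)
  exact ⟨D, hD, g, hg⟩

/-- a rational polynomial has a common denominator -/
theorem a4b_poly (r : Polynomial ℚ) (ϑ : ℂ) :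
    ∃ D : ℤ, D ≠ 0 ∧ ∃ p : Polynomial ℤ, aeval ϑ p = (D : ℂ) * aeval ϑ r := by
  obtain ⟨b, hb⟩ := IsLocalization.integerNormalization_map_to_map (nonZeroDivisors ℤ) (S := ℚ) r
  refine ⟨b, nonZeroDivisors.ne_zero b.2, IsLocalization.integerNormalization (nonZeroDivisors ℤ) r, ?_⟩
  have h1 : aeval ϑ (IsLocalization.integerNormalization (nonZeroDivisors ℤ) r)
      = aeval ϑ ((IsLocalization.integerNormalization (nonZeroDivisors ℤ) r).map (algebraMap ℤ ℚ)) := by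
    rw [Polynomial.aeval_map_algebraMap]
  rw [h1, hb, map_zsmul (aeval ϑ : Polynomial ℚ →ₐ[ℚ] ℂ), zsmul_eq_mul]

/-- an element of `ℚ(ϑ)` is a quotient of integral polynomials -/
theorem a4b_single (ϑ : ℂ) (c : ℚ⟮ϑ⟯) :
    ∃ h : Polynomial ℤ, aeval ϑ h ≠ 0 ∧ ∃ g : Polynomial ℤ, aeval ϑ g = aeval ϑ h * (c : ℂ) := by
  obtain ⟨r, s, hrs⟩ := (IntermediateField.mem_adjoin_simple_iff ℚ (c : ℂ)).mp c.2
  by_cases hs : aeval ϑ s = 0
  · refine ⟨1, by simp, 0, ?_⟩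
    rw [hrs, hs, div_zero, mul_zero, map_zero]
  · obtain ⟨D, hD, p, hp⟩ := a4b_poly r ϑ
    obtain ⟨E, hE, q, hq⟩ := a4b_poly s ϑ
    have hD' : (D : ℂ) ≠ 0 := by exact_mod_cast hD
    have hE' : (E : ℂ) ≠ 0 := by exact_mod_cast hE
    refine ⟨Polynomial.C D * q, ?_, Polynomial.C E * p, ?_⟩
    · rw [map_mul, hq, Polynomial.aeval_C]
      exact mul_ne_zero (by simpa using hD') (mul_ne_zero hE' hs)
    · rw [map_mul, map_mul, hq, hp, Polynomial.aeval_C, Polynomial.aeval_C, hrs]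
      simp only [eq_intCast]
      field_simp

/-- common denominator of finitely many elements of `ℚ(ϑ)` -/
theorem a4b_many (ϑ : ℂ) {ι : Type} [Fintype ι] (c : ι → ℚ⟮ϑ⟯) :
    ∃ h : Polynomial ℤ, aeval ϑ h ≠ 0 ∧ ∃ g : ι → Polynomial ℤ,
      ∀ i, aeval ϑ (g i) = aeval ϑ h * (c i : ℂ) := by
  classical
  have key : ∀ s : Finset ι, ∃ h : Polynomial ℤ, aeval ϑ h ≠ 0 ∧ ∀ i ∈ s, ∃ g : Polynomial ℤ,
      aeval ϑ g = aeval ϑ h * (c i : ℂ) := by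
    intro s
    induction s using Finset.induction_on with
    | empty => exact ⟨1, by simp, by simp⟩
    | insert a s ha ih =>
      obtain ⟨h, hh, hs⟩ := ih
      obtain ⟨h', hh', g', hg'⟩ := a4b_single ϑ (c a)
      refine ⟨h * h', by rw [map_mul]; exact mul_ne_zero hh hh', ?_⟩
      intro i hi
      rcases Finset.mem_insert.mp hi with rfl | hi
      · refine ⟨h * g', ?_⟩
        rw [map_mul, map_mul, hg']
        ring
      · obtain ⟨g, hg⟩ := hs i hi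
        refine ⟨g * h', ?_⟩
        rw [map_mul, map_mul, hg]
        ring
  obtain ⟨h, hh, hs⟩ := key Finset.univ
  choose g hg using fun i => hs i (Finset.mem_univ i)
  exact ⟨h, hh, g, hg⟩

/-- the identity map between the two incarnations of the field -/
def a4b_ι {ϑ : ℂ} (𝕃 : IntermediateField ℚ⟮ϑ⟯ ℂ) : 𝕃.toSubfield →+* 𝕃 where
  toFun x := ⟨x.1, x.2⟩
  map_one' := rfl
  map_mul' _ _ := rfl
  map_zero' := rfl
  map_add' _ _ := rfl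

/-- the representation -/
def a4b_R {ϑ : ℂ} (𝕃 : IntermediateField ℚ⟮ϑ⟯ ℂ) {d : ℕ} (b : Module.Basis (Fin d) ℚ⟮ϑ⟯ 𝕃) :
    𝕃.toSubfield →+* Matrix (Fin d) (Fin d) ℂ :=
  ((algebraMap ℚ⟮ϑ⟯ ℂ).mapMatrix.comp (Algebra.leftMulMatrix b).toRingHom).comp (a4b_ι 𝕃)

theorem a4b_R_apply {ϑ : ℂ} (𝕃 : IntermediateField ℚ⟮ϑ⟯ ℂ) {d : ℕ}
    (b : Module.Basis (Fin d) ℚ⟮ϑ⟯ 𝕃) (ξ : 𝕃.toSubfield) (i j : Fin d) :
    a4b_R 𝕃 b ξ i j = ((b.repr (a4b_ι 𝕃 ξ * b j) i : ℚ⟮ϑ⟯) : ℂ) := by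
  have h : a4b_R 𝕃 b ξ i j = algebraMap ℚ⟮ϑ⟯ ℂ (Algebra.leftMulMatrix b (a4b_ι 𝕃 ξ) i j) := rfl
  rw [h, Algebra.leftMulMatrix_eq_repr_mul]
  rfl

theorem a4b_sum {ϑ : ℂ} (𝕃 : IntermediateField ℚ⟮ϑ⟯ ℂ) {d : ℕ}
    (b : Module.Basis (Fin d) ℚ⟮ϑ⟯ 𝕃) (η : 𝕃) :
    ∑ i, ((b.repr η i : ℚ⟮ϑ⟯) : ℂ) * ((b i : 𝕃) : ℂ) = (η : ℂ) := by
  conv_rhs => rw [← b.sum_repr η]
  push_cast
  rfl

/-- A4b. PROOF. With `𝕃, b` of `exists_basis` (`𝕃.toSubfield`), `R ξ` = the matrix `Algebra.leftMulMatrix b ξ` with entries mapped to `ℂ`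
(`ξ b_j = ∑_i M_{ij} b_i`), `v = (b_i)_i`: `(v ᵥ* M)_j = ∑_i b_i M_{ij} = ξ b_j`. `det R ξ ≠ 0` for `ξ ≠ 0` since `R ξ R ξ⁻¹ = R 1 = 1`. The matrices `R (X i)` have rational
entries by `exists_basis` (uniqueness of coordinates): `den` = common denominator. The entries of `R (Y j)` are in `ℚ(ϑ)`, i.e. of the form `p(ϑ)/q(ϑ)` with
`p, q ∈ ℤ[X]`, `q(ϑ) ≠ 0` (`IntermediateField.mem_adjoin_simple_iff`): `h` = product of all the denominators. `R Θ = ϑ • 1` as `ϑ` is in the base field. -/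
theorem exists_rep {r s : ℕ} (ϑ : ℂ) (hϑ : Transcendental ℚ ϑ) (x : Fin r → ℂ) (y : Fin s → ℂ)
    (hx : ∀ i, IsAlgebraic ℚ (x i)) (hy : ∀ j, IsAlgebraic ℚ⟮ϑ⟯ (y j)) : Nonempty (Rep ϑ x y) := by
  obtain ⟨𝕃, d, b, hx𝕃, hy𝕃, hrat⟩ := exists_basis ϑ hϑ x y hx hy
  choose q hq using hrat
  have hΘ : ϑ ∈ 𝕃.toSubfield := by
    have h := 𝕃.algebraMap_mem (⟨ϑ, IntermediateField.mem_adjoin_simple_self ℚ ϑ⟩ : ℚ⟮ϑ⟯)
    exact h
  set X : Fin r → 𝕃.toSubfield := fun i => ⟨x i, hx𝕃 i⟩ with hX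
  set Y : Fin s → 𝕃.toSubfield := fun j => ⟨y j, hy𝕃 j⟩ with hY
  obtain ⟨den, hden, gA, hgA⟩ := a4b_rat (fun p : Fin r × Fin d × Fin d => q p.1 p.2.2 p.2.1)
  obtain ⟨h, hh, gB, hgB⟩ := a4b_many ϑ (fun p : Fin s × Fin d × Fin d =>
    b.repr (a4b_ι 𝕃 (Y p.1) * b p.2.2) p.2.1)
  haveI : Nonempty (Fin d) := b.index_nonempty
  have hRX : ∀ i l k, a4b_R 𝕃 b (X i) l k = (q i k l : ℂ) := by
    intro i l k
    rw [a4b_R_apply]
    have h1 : a4b_ι 𝕃 (X i) * b k = ∑ l, ((q i k l : ℚ) : ℚ⟮ϑ⟯) • b l := by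
      apply Subtype.ext
      have h2 : ((a4b_ι 𝕃 (X i) * b k : 𝕃) : ℂ) = x i * ((b k : 𝕃) : ℂ) := rfl
      rw [h2, hq i k]
      push_cast
      apply Finset.sum_congr rfl
      intro l _
      rfl
    rw [h1, b.repr_sum_self]
    rfl
  refine ⟨{
    𝕃 := 𝕃.toSubfield
    d := d
    R := a4b_R 𝕃 b
    v := fun i => ((b i : 𝕃) : ℂ)
    den := den
    h := h
    MA := fun i => Matrix.of fun l k => gA (i, l, k)
    MB := fun j => Matrix.of fun l k => gB (j, l, k)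
    Θ := ⟨ϑ, hΘ⟩
    X := X
    Y := Y
    d_pos := Fin.pos_iff_nonempty.mpr inferInstance
    v_ne := ?_
    den_ne := hden
    h_ne := hh
    Θ_eq := rfl
    X_eq := fun i => rfl
    Y_eq := fun j => rfl
    eig := ?_
    det_ne := ?_
    R_Θ := ?_
    R_X := ?_
    R_Y := ?_ }⟩
  · intro h0
    obtain ⟨k⟩ := (inferInstance : Nonempty (Fin d))
    have h1 := congrFun h0 k
    exact b.ne_zero k (Subtype.ext h1)
  · intro ξ
    funext j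
    have h1 : Matrix.vecMul (fun i => ((b i : 𝕃) : ℂ)) (a4b_R 𝕃 b ξ) j
        = ∑ i, ((b i : 𝕃) : ℂ) * a4b_R 𝕃 b ξ i j := rfl
    rw [h1]
    have h2 : ∑ i, ((b i : 𝕃) : ℂ) * a4b_R 𝕃 b ξ i j
        = ∑ i, ((b.repr (a4b_ι 𝕃 ξ * b j) i : ℚ⟮ϑ⟯) : ℂ) * ((b i : 𝕃) : ℂ) := by
      apply Finset.sum_congr rfl
      intro i _
      rw [a4b_R_apply, mul_comm]
    rw [h2, a4b_sum]
    rfl
  · intro ξ hξ
    have h1 : a4b_R 𝕃 b ξ * a4b_R 𝕃 b ξ⁻¹ = 1 := by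
      rw [← map_mul, mul_inv_cancel₀ hξ, map_one]
    intro h0
    have h2 := congrArg Matrix.det h1
    rw [Matrix.det_mul, h0, zero_mul, Matrix.det_one] at h2
    exact zero_ne_one h2
  · have h1 : a4b_ι 𝕃 ⟨ϑ, hΘ⟩
        = algebraMap ℚ⟮ϑ⟯ 𝕃 ⟨ϑ, IntermediateField.mem_adjoin_simple_self ℚ ϑ⟩ := rfl
    have h2 : a4b_R 𝕃 b ⟨ϑ, hΘ⟩ = (algebraMap ℚ⟮ϑ⟯ ℂ).mapMatrix
        (Algebra.leftMulMatrix b (a4b_ι 𝕃 ⟨ϑ, hΘ⟩)) := rfl
    rw [h2, h1, AlgHom.commutes]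
    ext i j
    rw [RingHom.mapMatrix_apply, Matrix.map_apply, Matrix.algebraMap_matrix_apply,
      Matrix.smul_apply, Matrix.one_apply]
    split_ifs
    · rw [smul_eq_mul, mul_one]
      rfl
    · rw [map_zero, smul_zero]
  · intro i
    ext l k
    have h1 : (Matrix.of fun l k => gA (i, l, k)).map (fun a : ℤ => (a : ℂ)) l k
        = (gA (i, l, k) : ℂ) := rfl
    rw [h1, hgA, Matrix.smul_apply, hRX, smul_eq_mul]
  · intro j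
    ext l k
    have h1 : (Matrix.of fun l k => gB (j, l, k)).map (fun p => aeval ϑ p) l k
        = aeval ϑ (gB (j, l, k)) := rfl
    rw [h1, hgB, Matrix.smul_apply, a4b_R_apply, smul_eq_mul]

end Pool.Agent.MSP
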