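import Pool.Agent.Lib.MP_f58a57_nt.P.T2_Func

/-! # T4: translation by lattice vectors (MP_f58a57_nt, pairs) -/

open Complex Filter Topology

noncomputable section

namespace Pool.Agent.MSP

theorem au_ne (τ : ℂ) (m n : ℤ) (t : ℂ) : au τ m n t ≠ 0 := by
  unfold au
  refine mul_ne_zero (zpow_ne_zero _ (by norm_num)) (Complex.exp_ne_zero _)

theorem T4_int (τ : ℂ) (m : ℤ) (t : ℂ) : th τ (t + m) = (-1 : ℂ) ^ m * th τ t := by
  induction m using Int.induction_on with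
  | zero => simp
  | succ m ih =>
    have e : t + ((((m : ℤ) + 1 : ℤ)) : ℂ) = (t + ((m : ℤ) : ℂ)) + 1 := by push_cast; ring
    rw [e, th_add_one, ih, zpow_add_one₀ (by norm_num)]
    ring
  | pred m ih =>
    have e : t + ((-(m : ℤ) : ℤ) : ℂ) = (t + ((-(m : ℤ) - 1 : ℤ) : ℂ)) + 1 := by push_cast; ring
    rw [e, th_add_one] at ih
    rw [zpow_sub_one₀ (by norm_num)]
    linear_combination -ih

theorem T4_tau (τ : ℂ) (hτ : 0 < τ.im) (n : ℤ) (t : ℂ) :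
    th τ (t + n * τ) =
      (-1 : ℂ) ^ n * cexp (-(Real.pi * I * (n : ℂ) ^ 2 * τ) - 2 * Real.pi * I * n * t) * th τ t := by
  induction n using Int.induction_on with
  | zero => simp
  | succ n ih =>
    have e : t + ((((n : ℤ) + 1 : ℤ)) : ℂ) * τ = (t + ((n : ℤ) : ℂ) * τ) + τ := by push_cast; ring
    have e2 : -(Real.pi * I * ((((n : ℤ) + 1 : ℤ)) : ℂ) ^ 2 * τ)
        - 2 * Real.pi * I * ((((n : ℤ) + 1 : ℤ)) : ℂ) * t =
        (-(Real.pi * I * τ) - 2 * Real.pi * I * (t + ((n : ℤ) : ℂ) * τ)) +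
        (-(Real.pi * I * ((n : ℤ) : ℂ) ^ 2 * τ) - 2 * Real.pi * I * ((n : ℤ) : ℂ) * t) := by
      push_cast; ring
    rw [e, th_add_tau τ hτ, ih, zpow_add_one₀ (by norm_num), e2, Complex.exp_add]
    ring
  | pred n ih =>
    have e : t + ((-(n : ℤ) : ℤ) : ℂ) * τ = (t + ((-(n : ℤ) - 1 : ℤ) : ℂ) * τ) + τ := by
      push_cast; ring
    have e2 : -(Real.pi * I * ((-(n : ℤ) - 1 : ℤ) : ℂ) ^ 2 * τ)
        - 2 * Real.pi * I * ((-(n : ℤ) - 1 : ℤ) : ℂ) * t =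
        -(-(Real.pi * I * τ) - 2 * Real.pi * I * (t + ((-(n : ℤ) - 1 : ℤ) : ℂ) * τ)) +
        (-(Real.pi * I * ((-(n : ℤ) : ℤ) : ℂ) ^ 2 * τ) - 2 * Real.pi * I * ((-(n : ℤ) : ℤ) : ℂ) * t)
          := by
      push_cast; ring
    rw [e, th_add_tau τ hτ] at ih
    rw [zpow_sub_one₀ (by norm_num), e2, Complex.exp_add, Complex.exp_neg]
    generalize cexp (-(Real.pi * I * ((-(n : ℤ) : ℤ) : ℂ) ^ 2 * τ)
      - 2 * Real.pi * I * ((-(n : ℤ) : ℤ) : ℂ) * t) = B at ih ⊢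
    have h0 : cexp (-(Real.pi * I * τ) - 2 * Real.pi * I * (t + ((-(n : ℤ) - 1 : ℤ) : ℂ) * τ)) ≠ 0 :=
      Complex.exp_ne_zero _
    generalize cexp (-(Real.pi * I * τ) - 2 * Real.pi * I * (t + ((-(n : ℤ) - 1 : ℤ) : ℂ) * τ)) = A
      at ih h0 ⊢
    generalize th τ (t + ((-(n : ℤ) - 1 : ℤ) : ℂ) * τ) = X at ih ⊢
    have h1 : X = (-1 : ℂ)⁻¹ * A⁻¹ * (-A * X) := by
      field_simp
      try ring
    rw [h1, ih]
    ring

/-- T4a. PROOF. Induction on `m` and `n` (`Int.induction_on`, both directions) from `th_add_one`, `th_add_tau`. -/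
theorem N0_shift (τ : ℂ) (hτ : 0 < τ.im) (m n : ℤ) (t : ℂ) :
    N0 τ (t + m + n * τ) = au τ m n t * N0 τ t := by
  unfold N0 au
  rw [T4_tau τ hτ, T4_int, zpow_add₀ (by norm_num)]
  have e : -(Real.pi * I * (n : ℂ) ^ 2 * τ) - 2 * Real.pi * I * n * (t + m) =
      (-(Real.pi * I * (n : ℂ) ^ 2 * τ) - 2 * Real.pi * I * n * t) +
        ((-(n * m) : ℤ) : ℂ) * (2 * Real.pi * I) := by
    push_cast; ring
  rw [e, Complex.exp_add, Complex.exp_int_mul_two_pi_mul_I]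
  ring

theorem T4_au_deriv (τ : ℂ) (m n : ℤ) (t : ℂ) :
    HasDerivAt (au τ m n) (-(2 * Real.pi * I * n) * au τ m n t) t := by
  have h1 : HasDerivAt (fun t : ℂ => -(Real.pi * I * (n : ℂ) ^ 2 * τ) - 2 * Real.pi * I * n * t)
      (0 - 2 * Real.pi * I * n * 1) t :=
    (hasDerivAt_const t _).sub ((hasDerivAt_id t).const_mul _)
  have h2 := (h1.cexp).const_mul ((-1 : ℂ) ^ (m + n))
  refine h2.congr_deriv ?_
  unfold au
  ring

theorem T4_th_deriv (τ : ℂ) (hτ : 0 < τ.im) (t : ℂ) : HasDerivAt (th τ) (N1 τ t) t :=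
  (th_differentiable τ hτ t).hasDerivAt

theorem T4_N1_deriv (τ : ℂ) (hτ : 0 < τ.im) (t : ℂ) :
    HasDerivAt (N1 τ) (deriv (deriv (th τ)) t) t := by
  have h : Differentiable ℂ (deriv (th τ)) := (th_differentiable τ hτ).deriv
  exact (h t).hasDerivAt

/-- T4b. PROOF. Differentiate T4a: `au' = -2πi n au`, `(d/dt) N0 τ (t+m+nτ) = N1 τ (t+m+nτ)`. -/
theorem N1_shift (τ : ℂ) (hτ : 0 < τ.im) (m n : ℤ) (t : ℂ) :
    N1 τ (t + m + n * τ) = au τ m n t * (N1 τ t - 2 * Real.pi * I * n * N0 τ t) := by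
  have h1 : HasDerivAt (fun t : ℂ => th τ (t + m + n * τ)) (N1 τ (t + m + n * τ)) t := by
    have h := (T4_th_deriv τ hτ (t + m + n * τ)).comp t
      (((hasDerivAt_id' t).add_const (m : ℂ)).add_const ((n : ℂ) * τ))
    exact h.congr_deriv (mul_one _)
  have h2 : HasDerivAt (fun t : ℂ => au τ m n t * th τ t)
      (-(2 * Real.pi * I * n) * au τ m n t * th τ t + au τ m n t * N1 τ t) t :=
    (T4_au_deriv τ m n t).mul (T4_th_deriv τ hτ t)
  have h3 : (fun t : ℂ => th τ (t + m + n * τ)) = fun t : ℂ => au τ m n t * th τ t := by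
    funext x
    exact N0_shift τ hτ m n x
  rw [h3] at h1
  rw [h1.unique h2]
  unfold N0
  ring

theorem T4_N1'_shift (τ : ℂ) (hτ : 0 < τ.im) (m n : ℤ) (t : ℂ) :
    deriv (deriv (th τ)) (t + m + n * τ) = au τ m n t * (deriv (deriv (th τ)) t
      - 2 * (2 * Real.pi * I * n) * N1 τ t + (2 * Real.pi * I * n) ^ 2 * N0 τ t) := by
  have h1 : HasDerivAt (fun t : ℂ => N1 τ (t + m + n * τ))
      (deriv (deriv (th τ)) (t + m + n * τ)) t := by
    have h := (T4_N1_deriv τ hτ (t + m + n * τ)).comp t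
      (((hasDerivAt_id' t).add_const (m : ℂ)).add_const ((n : ℂ) * τ))
    exact h.congr_deriv (mul_one _)
  have h2 : HasDerivAt (fun t : ℂ => au τ m n t * (N1 τ t - 2 * Real.pi * I * n * N0 τ t))
      (-(2 * Real.pi * I * n) * au τ m n t * (N1 τ t - 2 * Real.pi * I * n * N0 τ t) +
        au τ m n t * (deriv (deriv (th τ)) t - 2 * Real.pi * I * n * N1 τ t)) t :=
    (T4_au_deriv τ m n t).mul ((T4_N1_deriv τ hτ t).sub ((T4_th_deriv τ hτ t).const_mul _))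
  have h3 : (fun t : ℂ => N1 τ (t + m + n * τ)) =
      fun t : ℂ => au τ m n t * (N1 τ t - 2 * Real.pi * I * n * N0 τ t) := by
    funext x
    exact N1_shift τ hτ m n x
  rw [h3] at h1
  rw [h1.unique h2]
  ring

/-- T4c. PROOF. Differentiate once more: `th''(t+m+nτ) = au (th'' - 4πi n th' - 4π² n² th)` (`(2πi n)² = -4π²n²`); then
`(th' - c th)² - th (th'' - 2c th' + c² th) = th'² - th th''`, `c = 2πi n`. -/
theorem N2_shift (τ s : ℂ) (hτ : 0 < τ.im) (m n : ℤ) (t : ℂ) :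
    N2 τ s (t + m + n * τ) = au τ m n t ^ 2 * N2 τ s t := by
  have h0 := N0_shift τ hτ m n t
  have h1 := N1_shift τ hτ m n t
  have h2 := T4_N1'_shift τ hτ m n t
  have e : ∀ x, N2 τ s x = N1 τ x ^ 2 - N0 τ x * deriv (deriv (th τ)) x - s * N0 τ x ^ 2 :=
    fun x => rfl
  rw [e, e, h0, h1, h2]
  ring

/-- T4d. `|au|` : exact value. `|(-1)^{m+n}| = 1`, `Re(-πi n² τ - 2πi n t) = π n² Im τ + 2π n Im t`. -/
theorem norm_au (τ : ℂ) (m n : ℤ) (t : ℂ) :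
    ‖au τ m n t‖ = Real.exp (Real.pi * (n : ℝ) ^ 2 * τ.im + 2 * Real.pi * n * t.im) := by
  unfold au
  rw [norm_mul, norm_zpow, norm_neg, norm_one, one_zpow, one_mul, Complex.norm_exp]
  congr 1
  have e1 : ((n : ℂ) ^ 2) = (((n : ℝ) ^ 2 : ℝ) : ℂ) := by push_cast; rfl
  have e2 : (n : ℂ) = ((n : ℝ) : ℂ) := by push_cast; rfl
  rw [e1, e2]
  simp only [Complex.sub_re, Complex.neg_re, Complex.mul_re, Complex.mul_im, Complex.I_re,
    Complex.I_im, Complex.ofReal_re, Complex.ofReal_im, Complex.re_ofNat, Complex.im_ofNat]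
  ring

end Pool.Agent.MSP
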