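import Pool.Agent.Lib.MP_f58a57_nt.P.T1_Prod
import Pool.Agent.Lib.MP_f58a57_nt.P.T4_Shift

/-! # T5: growth of the numerators (MP_f58a57_nt, pairs) -/

open Complex Filter Topology

noncomputable section

namespace Pool.Agent.MSP

theorem t5_cont_deriv (τ : ℂ) (hτ : 0 < τ.im) : Differentiable ℂ (deriv (th τ)) := by
  intro z
  have h := (th_differentiable τ hτ).analyticAt z
  exact h.deriv.differentiableAt

theorem t5_cont0 (τ : ℂ) (hτ : 0 < τ.im) : Continuous (N0 τ) :=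
  (th_differentiable τ hτ).continuous

theorem t5_cont1 (τ : ℂ) (hτ : 0 < τ.im) : Continuous (N1 τ) :=
  (t5_cont_deriv τ hτ).continuous

theorem t5_cont2 (τ s : ℂ) (hτ : 0 < τ.im) : Continuous (N2 τ s) := by
  have h0 : Continuous (th τ) := (th_differentiable τ hτ).continuous
  have h1 : Continuous (deriv (th τ)) := (t5_cont_deriv τ hτ).continuous
  have h2 : Continuous (deriv (deriv (th τ))) := by
    have : Differentiable ℂ (deriv (deriv (th τ))) := by
      intro z
      have h := (th_differentiable τ hτ).analyticAt z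
      exact h.deriv.deriv.differentiableAt
    exact this.continuous
  unfold N2
  exact ((h1.pow 2).sub (h0.mul h2)).sub (continuous_const.mul (h0.pow 2))

/-- Reduction to a compact set. -/
theorem t5_reduce (τ : ℂ) (hτ : 0 < τ.im) (t : ℂ) : ∃ (m n : ℤ) (t₀ : ℂ),
    t = t₀ + m + n * τ ∧ t₀ ∈ (Set.Icc (0 : ℝ) 1 ×ℂ Set.Icc (0 : ℝ) τ.im) ∧
      (n : ℝ) ^ 2 ≤ (2 / τ.im ^ 2 + 2) * (1 + t.im ^ 2) := by
  set n : ℤ := ⌊t.im / τ.im⌋ with hn
  set m : ℤ := ⌊(t - n * τ).re⌋ with hm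
  refine ⟨m, n, t - n * τ - m, by ring, ?_, ?_⟩
  · have h1 := Int.floor_le (t.im / τ.im)
    have h2 := Int.lt_floor_add_one (t.im / τ.im)
    rw [← hn] at h1 h2
    rw [le_div_iff₀ hτ] at h1
    rw [div_lt_iff₀ hτ] at h2
    have h3 := Int.floor_le (t - n * τ).re
    have h4 := Int.lt_floor_add_one (t - n * τ).re
    rw [← hm] at h3 h4
    rw [Complex.mem_reProdIm]
    constructor
    · have e : (t - n * τ - m).re = (t - n * τ).re - m := by simp
      rw [e]
      constructor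
      · linarith
      · linarith
    · have e : (t - n * τ - m).im = t.im - n * τ.im := by simp
      rw [e]
      constructor
      · linarith
      · nlinarith
  · have h1 := Int.floor_le (t.im / τ.im)
    have h2 := Int.lt_floor_add_one (t.im / τ.im)
    rw [← hn] at h1 h2
    set x := t.im / τ.im with hx
    have h3 : (n : ℝ) ^ 2 ≤ 2 * x ^ 2 + 2 := by
      have : |(n : ℝ)| ≤ |x| + 1 := by
        rw [abs_le]
        constructor
        · have := neg_abs_le x
          linarith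
        · have := le_abs_self x
          linarith
      have h4 : (n : ℝ) ^ 2 ≤ (|x| + 1) ^ 2 := by
        rw [← sq_abs (n : ℝ)]
        exact pow_le_pow_left₀ (abs_nonneg _) this 2
      have h5 : |x| ^ 2 = x ^ 2 := sq_abs x
      nlinarith [sq_nonneg (|x| - 1)]
    have h4 : x ^ 2 = t.im ^ 2 / τ.im ^ 2 := by rw [hx, div_pow]
    have h5 : (2 / τ.im ^ 2 + 2) * (1 + t.im ^ 2)
        = 2 * (t.im ^ 2 / τ.im ^ 2) + 2 + (2 / τ.im ^ 2 + 2 * t.im ^ 2) := by ring
    rw [h5, ← h4]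
    have : 0 ≤ 2 / τ.im ^ 2 + 2 * t.im ^ 2 := by positivity
    linarith

/-- T5. PROOF. Given `t` choose integers `m, n` with `t = t₀ + m + nτ`, `0 ≤ Im t₀ ≤ Im τ`, `0 ≤ Re t₀ ≤ 1`
(`n = ⌊Im t/Im τ⌋`, then `m`). `t₀` is in a compact set where the three continuous functions `N0, N1, N2` (`th` is entire by T1, so
its derivatives are continuous) are bounded by a constant `B`. By T4 the value at `t` is at most
`‖au‖ (1 + 2π|n|) B` (resp. `‖au‖² B`), and `|n| ≤ |Im t|/Im τ + 1`, `‖au‖ = exp(π n² Im τ + 2π n Im t₀) ≤ exp(C(1 + (Im t)²))`. -/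
theorem growth (τ s : ℂ) (hτ : 0 < τ.im) : ∃ C : ℝ, 0 < C ∧ ∀ t : ℂ,
    ‖N0 τ t‖ ≤ Real.exp (C * (1 + t.im ^ 2)) ∧ ‖N1 τ t‖ ≤ Real.exp (C * (1 + t.im ^ 2)) ∧
      ‖N2 τ s t‖ ≤ Real.exp (C * (1 + t.im ^ 2)) := by
  have hK : IsCompact (Set.Icc (0 : ℝ) 1 ×ℂ Set.Icc (0 : ℝ) τ.im) := isCompact_Icc.reProdIm isCompact_Icc
  obtain ⟨B0, hB0⟩ := hK.exists_bound_of_continuousOn (t5_cont0 τ hτ).continuousOn
  obtain ⟨B1, hB1⟩ := hK.exists_bound_of_continuousOn (t5_cont1 τ hτ).continuousOn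
  obtain ⟨B2, hB2⟩ := hK.exists_bound_of_continuousOn (t5_cont2 τ s hτ).continuousOn
  set B : ℝ := max (max B0 B1) (max B2 1) with hB
  have hB1' : 1 ≤ B := (le_max_right _ _).trans (le_max_right _ _)
  have hb0 : B0 ≤ B := (le_max_left _ _).trans (le_max_left _ _)
  have hb1 : B1 ≤ B := (le_max_right _ _).trans (le_max_left _ _)
  have hb2 : B2 ≤ B := (le_max_left _ _).trans (le_max_right _ _)
  set A : ℝ := 2 / τ.im ^ 2 + 2 with hA
  have hA0 : 0 < A := by positivity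
  have hpi := Real.pi_pos
  refine ⟨6 * Real.pi * τ.im * A + 2 * Real.pi * A + B, by positivity, fun t => ?_⟩
  obtain ⟨m, n, t₀, ht, ht₀, hn2⟩ := t5_reduce τ hτ t
  have h0 := hB0 t₀ ht₀
  have h1 := hB1 t₀ ht₀
  have h2 := hB2 t₀ ht₀
  rw [Complex.mem_reProdIm] at ht₀
  obtain ⟨-, him0, him1⟩ := ht₀
  set V : ℝ := 1 + t.im ^ 2 with hV
  have hV1 : 1 ≤ V := by have := sq_nonneg t.im; linarith
  have hnn : |(n : ℝ)| ≤ (n : ℝ) ^ 2 := by
    have : |n| ≤ n ^ 2 := by
      rw [← sq_abs n]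
      rcases eq_or_ne n 0 with h | h
      · simp [h]
      · have : 1 ≤ |n| := Int.one_le_abs h
        nlinarith
    exact_mod_cast this
  -- the automorphy factor
  have hau : ‖au τ m n t₀‖ ≤ Real.exp (3 * Real.pi * τ.im * A * V) := by
    rw [norm_au τ m n t₀]
    apply Real.exp_le_exp.2
    have a1 : (n : ℝ) * t₀.im ≤ (n : ℝ) ^ 2 * τ.im := by
      calc (n : ℝ) * t₀.im ≤ |(n : ℝ)| * t₀.im := mul_le_mul_of_nonneg_right (le_abs_self _) him0
        _ ≤ |(n : ℝ)| * τ.im := mul_le_mul_of_nonneg_left him1 (abs_nonneg _)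
        _ ≤ (n : ℝ) ^ 2 * τ.im := mul_le_mul_of_nonneg_right hnn hτ.le
    calc Real.pi * (n : ℝ) ^ 2 * τ.im + 2 * Real.pi * n * t₀.im
        = Real.pi * ((n : ℝ) ^ 2 * τ.im) + 2 * Real.pi * (n * t₀.im) := by ring
      _ ≤ Real.pi * ((n : ℝ) ^ 2 * τ.im) + 2 * Real.pi * ((n : ℝ) ^ 2 * τ.im) := by
          have := mul_le_mul_of_nonneg_left a1 (by positivity : 0 ≤ 2 * Real.pi)
          linarith
      _ = 3 * Real.pi * τ.im * (n : ℝ) ^ 2 := by ring
      _ ≤ 3 * Real.pi * τ.im * (A * V) := mul_le_mul_of_nonneg_left hn2 (by positivity)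
      _ = 3 * Real.pi * τ.im * A * V := by ring
  have hBexp : B ≤ Real.exp (B * V) := by
    calc B ≤ B * V := by nlinarith
      _ ≤ B * V + 1 := by linarith
      _ ≤ Real.exp (B * V) := Real.add_one_le_exp _
  have hBpos : 0 < B := by linarith
  have hnexp : 1 + 2 * Real.pi * |(n : ℝ)| ≤ Real.exp (2 * Real.pi * A * V) := by
    calc 1 + 2 * Real.pi * |(n : ℝ)| ≤ 1 + 2 * Real.pi * (A * V) := by
          have := mul_le_mul_of_nonneg_left (hnn.trans hn2) (by positivity : 0 ≤ 2 * Real.pi)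
          linarith
      _ = 2 * Real.pi * A * V + 1 := by ring
      _ ≤ Real.exp (2 * Real.pi * A * V) := Real.add_one_le_exp _
  have hp1 : 0 ≤ Real.pi * τ.im * A * V := by positivity
  have hp2 : 0 ≤ Real.pi * A * V := by positivity
  refine ⟨?_, ?_, ?_⟩
  · rw [ht, N0_shift τ hτ m n t₀, norm_mul]
    calc ‖au τ m n t₀‖ * ‖N0 τ t₀‖ ≤ Real.exp (3 * Real.pi * τ.im * A * V) * Real.exp (B * V) :=
          mul_le_mul hau ((h0.trans hb0).trans hBexp) (norm_nonneg _) (Real.exp_pos _).le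
      _ ≤ Real.exp ((6 * Real.pi * τ.im * A + 2 * Real.pi * A + B) * V) := by
          rw [← Real.exp_add]
          apply Real.exp_le_exp.2
          nlinarith
  · rw [ht, N1_shift τ hτ m n t₀, norm_mul]
    have hsub : ‖N1 τ t₀ - 2 * Real.pi * I * n * N0 τ t₀‖
        ≤ Real.exp (2 * Real.pi * A * V) * Real.exp (B * V) := by
      calc ‖N1 τ t₀ - 2 * Real.pi * I * n * N0 τ t₀‖
          ≤ ‖N1 τ t₀‖ + ‖2 * Real.pi * I * n * N0 τ t₀‖ := norm_sub_le _ _
        _ ≤ B + 2 * Real.pi * |(n : ℝ)| * B := by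
            have e : ‖(2 * Real.pi * I * n * N0 τ t₀ : ℂ)‖ = 2 * Real.pi * |(n : ℝ)| * ‖N0 τ t₀‖ := by
              simp only [norm_mul, Complex.norm_I, Complex.norm_real, Complex.norm_intCast,
                Complex.norm_ofNat, Real.norm_eq_abs, abs_of_pos hpi, mul_one]
            rw [e]
            have := mul_le_mul_of_nonneg_left (h0.trans hb0)
              (by positivity : 0 ≤ 2 * Real.pi * |(n : ℝ)|)
            linarith [h1.trans hb1]
        _ = (1 + 2 * Real.pi * |(n : ℝ)|) * B := by ring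
        _ ≤ Real.exp (2 * Real.pi * A * V) * Real.exp (B * V) :=
            mul_le_mul hnexp hBexp hBpos.le (Real.exp_pos _).le
    calc ‖au τ m n t₀‖ * ‖N1 τ t₀ - 2 * Real.pi * I * n * N0 τ t₀‖
        ≤ Real.exp (3 * Real.pi * τ.im * A * V)
          * (Real.exp (2 * Real.pi * A * V) * Real.exp (B * V)) :=
          mul_le_mul hau hsub (norm_nonneg _) (Real.exp_pos _).le
      _ ≤ Real.exp ((6 * Real.pi * τ.im * A + 2 * Real.pi * A + B) * V) := by
          rw [← Real.exp_add, ← Real.exp_add]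
          apply Real.exp_le_exp.2
          nlinarith
  · rw [ht, N2_shift τ s hτ m n t₀, norm_mul, norm_pow]
    calc ‖au τ m n t₀‖ ^ 2 * ‖N2 τ s t₀‖
        ≤ Real.exp (3 * Real.pi * τ.im * A * V) ^ 2 * Real.exp (B * V) :=
          mul_le_mul (pow_le_pow_left₀ (norm_nonneg _) hau 2) ((h2.trans hb2).trans hBexp)
            (norm_nonneg _) (by positivity)
      _ ≤ Real.exp ((6 * Real.pi * τ.im * A + 2 * Real.pi * A + B) * V) := by
          rw [← Real.exp_nat_mul, ← Real.exp_add]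
          apply Real.exp_le_exp.2
          push_cast
          nlinarith

end Pool.Agent.MSP
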