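import Pool.Agent.Lib.MP_f58a57_nt.P.T3_Zeros

/-! # T6: behaviour of `wp` at the origin (MP_f58a57_nt, pairs) -/

open Complex Filter Topology

noncomputable section

namespace Pool.Agent.MSP

theorem t6_norm_ee (x : ℂ) : ‖ee x‖ = Real.exp (-(2 * Real.pi * x.im)) := by
  unfold ee
  rw [Complex.norm_exp]
  congr 1
  simp

/-- the bound for the terms -/
def t6_r (τ : ℂ) (n : ℕ) : ℝ := Real.exp (-(Real.pi * τ.im)) ^ (2 * n + 1)

theorem t6_r_pos (τ : ℂ) (n : ℕ) : 0 < t6_r τ n := by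
  unfold t6_r
  positivity

theorem t6_rho_lt (τ : ℂ) (hτ : 0 < τ.im) : Real.exp (-(Real.pi * τ.im)) < 1 := by
  rw [Real.exp_lt_one_iff]
  have := mul_pos Real.pi_pos hτ
  linarith

theorem t6_r_le (τ : ℂ) (hτ : 0 < τ.im) (n : ℕ) : t6_r τ n ≤ Real.exp (-(Real.pi * τ.im)) := by
  unfold t6_r
  calc Real.exp (-(Real.pi * τ.im)) ^ (2 * n + 1) ≤ Real.exp (-(Real.pi * τ.im)) ^ 1 :=
        pow_le_pow_of_le_one (Real.exp_pos _).le (t6_rho_lt τ hτ).le (by omega)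
    _ = _ := pow_one _

theorem t6_r_summable (τ : ℂ) (hτ : 0 < τ.im) : Summable (t6_r τ) := by
  have h1 := t6_rho_lt τ hτ
  have h0 := (Real.exp_pos (-(Real.pi * τ.im))).le
  have h2 : Summable (fun n : ℕ => Real.exp (-(Real.pi * τ.im)) *
      (Real.exp (-(Real.pi * τ.im)) ^ 2) ^ n) := by
    refine (summable_geometric_of_lt_one (by positivity) ?_).mul_left _
    exact pow_lt_one₀ h0 h1 (by norm_num)
  refine h2.congr fun n => ?_
  unfold t6_r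
  rw [← pow_mul, pow_succ, mul_comm]

theorem t6_bound_add (τ : ℂ) {t : ℂ} (ht : ‖t‖ < τ.im / 2) (n : ℕ) :
    ‖ee ((n + 1) * τ + t)‖ ≤ t6_r τ n := by
  rw [t6_norm_ee]
  unfold t6_r
  rw [← Real.exp_nat_mul, Real.exp_le_exp]
  have h1 := Complex.abs_im_le_norm t
  have h2 := abs_le.1 h1
  have h3 : (((n : ℂ) + 1) * τ + t).im = ((n : ℝ) + 1) * τ.im + t.im := by
    simp
  rw [h3]
  have h4 : ((n : ℝ) + 1 / 2) * τ.im ≤ ((n : ℝ) + 1) * τ.im + t.im := by nlinarith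
  have h5 := mul_le_mul_of_nonneg_left h4 (mul_pos two_pos Real.pi_pos).le
  push_cast
  nlinarith

theorem t6_bound_sub (τ : ℂ) {t : ℂ} (ht : ‖t‖ < τ.im / 2) (n : ℕ) :
    ‖ee ((n + 1) * τ - t)‖ ≤ t6_r τ n := by
  have := t6_bound_add τ (t := -t) (by rwa [norm_neg]) n
  rwa [← sub_eq_add_neg] at this

theorem t6_one_sub_ne {τ : ℂ} (hτ : 0 < τ.im) {n : ℕ} {x : ℂ} (hx : ‖x‖ ≤ t6_r τ n) :
    1 - x ≠ 0 := by
  intro h
  have h1 : x = 1 := (sub_eq_zero.1 h).symm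
  rw [h1, norm_one] at hx
  exact absurd (hx.trans (t6_r_le τ hτ n)) (not_le.2 (t6_rho_lt τ hτ))

theorem t6_one_sub_norm {τ : ℂ} (hτ : 0 < τ.im) {n : ℕ} {x : ℂ} (hx : ‖x‖ ≤ t6_r τ n) :
    1 - Real.exp (-(Real.pi * τ.im)) ≤ ‖1 - x‖ := by
  have h1 : ‖(1 : ℂ)‖ - ‖x‖ ≤ ‖1 - x‖ := norm_sub_norm_le _ _
  rw [norm_one] at h1
  have h2 := hx.trans (t6_r_le τ hτ n)
  linarith

theorem t6_hasDerivAt_add (τ t : ℂ) (n : ℕ) :
    HasDerivAt (fun t : ℂ => ee ((n + 1) * τ + t))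
      (2 * Real.pi * I * ee ((n + 1) * τ + t)) t := by
  unfold ee
  have h1 : HasDerivAt (fun t : ℂ => 2 * Real.pi * I * (((n : ℂ) + 1) * τ + t))
      (2 * Real.pi * I * 1) t := ((hasDerivAt_id t).const_add _).const_mul _
  have h2 := h1.cexp
  refine h2.congr_deriv ?_
  ring

theorem t6_hasDerivAt_sub (τ t : ℂ) (n : ℕ) :
    HasDerivAt (fun t : ℂ => ee ((n + 1) * τ - t))
      (-(2 * Real.pi * I * ee ((n + 1) * τ - t))) t := by
  unfold ee
  have h1 : HasDerivAt (fun t : ℂ => 2 * Real.pi * I * (((n : ℂ) + 1) * τ - t))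
      (2 * Real.pi * I * (-1)) t := ((hasDerivAt_id t).const_sub _).const_mul _
  have h2 := h1.cexp
  refine h2.congr_deriv ?_
  ring

/-- the factors -/
def t6_f (τ : ℂ) (n : ℕ) (t : ℂ) : ℂ := (1 - ee ((n + 1) * τ + t)) * (1 - ee ((n + 1) * τ - t))

/-- the logarithmic derivatives of the factors -/
def t6_L (τ : ℂ) (n : ℕ) (t : ℂ) : ℂ :=
  -(2 * Real.pi * I * (ee ((n + 1) * τ + t) / (1 - ee ((n + 1) * τ + t)))) +
    2 * Real.pi * I * (ee ((n + 1) * τ - t) / (1 - ee ((n + 1) * τ - t)))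

/-- their derivatives -/
def t6_L' (τ : ℂ) (n : ℕ) (t : ℂ) : ℂ :=
  4 * Real.pi ^ 2 * (ee ((n + 1) * τ + t) / (1 - ee ((n + 1) * τ + t)) ^ 2) +
    4 * Real.pi ^ 2 * (ee ((n + 1) * τ - t) / (1 - ee ((n + 1) * τ - t)) ^ 2)

theorem t6_f_differentiable (τ : ℂ) (n : ℕ) : Differentiable ℂ (t6_f τ n) := by
  intro t
  exact (((t6_hasDerivAt_add τ t n).const_sub 1).mul
    ((t6_hasDerivAt_sub τ t n).const_sub 1)).differentiableAt

theorem t6_logDeriv_f {τ : ℂ} (hτ : 0 < τ.im) {t : ℂ} (ht : ‖t‖ < τ.im / 2) (n : ℕ) :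
    logDeriv (t6_f τ n) t = t6_L τ n t := by
  have hA := t6_one_sub_ne hτ (t6_bound_add τ ht n)
  have hB := t6_one_sub_ne hτ (t6_bound_sub τ ht n)
  have h := ((t6_hasDerivAt_add τ t n).const_sub 1).mul ((t6_hasDerivAt_sub τ t n).const_sub 1)
  rw [logDeriv_apply]
  have h1 : deriv (t6_f τ n) t = -(2 * Real.pi * I * ee ((n + 1) * τ + t)) *
      (1 - ee ((n + 1) * τ - t)) + (1 - ee ((n + 1) * τ + t)) *
        -(-(2 * Real.pi * I * ee ((n + 1) * τ - t))) := h.deriv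
  rw [h1]
  unfold t6_f t6_L
  field_simp

theorem t6_hasDerivAt_L {τ : ℂ} (hτ : 0 < τ.im) {t : ℂ} (ht : ‖t‖ < τ.im / 2) (n : ℕ) :
    HasDerivAt (t6_L τ n) (t6_L' τ n t) t := by
  have hA := t6_one_sub_ne hτ (t6_bound_add τ ht n)
  have hB := t6_one_sub_ne hτ (t6_bound_sub τ ht n)
  have hI : (I : ℂ) ^ 2 = -1 := I_sq
  have h1 := ((t6_hasDerivAt_add τ t n).div ((t6_hasDerivAt_add τ t n).const_sub 1) hA).const_mul
    (2 * Real.pi * I)
  have h2 := ((t6_hasDerivAt_sub τ t n).div ((t6_hasDerivAt_sub τ t n).const_sub 1) hB).const_mul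
    (2 * Real.pi * I)
  refine (h1.neg.add h2).congr_deriv ?_
  unfold t6_L'
  field_simp
  ring_nf
  simp only [hI]
  ring

theorem t6_L_bound {τ : ℂ} (hτ : 0 < τ.im) {t : ℂ} (ht : ‖t‖ < τ.im / 2) (n : ℕ) :
    ‖t6_L τ n t‖ ≤ 4 * Real.pi / (1 - Real.exp (-(Real.pi * τ.im))) * t6_r τ n := by
  have h1 := t6_rho_lt τ hτ
  have key : ∀ x : ℂ, ‖x‖ ≤ t6_r τ n → ‖2 * Real.pi * I * (x / (1 - x))‖ ≤
      2 * Real.pi / (1 - Real.exp (-(Real.pi * τ.im))) * t6_r τ n := by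
    intro x hx
    have h2 := t6_one_sub_norm hτ hx
    have h3 : 0 < 1 - Real.exp (-(Real.pi * τ.im)) := by linarith
    have h4 : ‖(2 * Real.pi * I * (x / (1 - x)) : ℂ)‖ = 2 * Real.pi * (‖x‖ / ‖1 - x‖) := by
      rw [norm_mul, norm_mul, norm_mul, norm_div, Complex.norm_I, Complex.norm_real,
        Complex.norm_ofNat, Real.norm_of_nonneg Real.pi_pos.le]
      ring
    rw [h4]
    calc 2 * Real.pi * (‖x‖ / ‖1 - x‖) ≤
          2 * Real.pi * (t6_r τ n / (1 - Real.exp (-(Real.pi * τ.im)))) := by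
          refine mul_le_mul_of_nonneg_left ?_ (by positivity)
          exact div_le_div₀ (t6_r_pos τ n).le hx h3 h2
      _ = _ := by ring
  unfold t6_L
  refine (norm_add_le _ _).trans ?_
  rw [norm_neg]
  have e1 := key _ (t6_bound_add τ ht n)
  have e2 := key _ (t6_bound_sub τ ht n)
  refine (add_le_add e1 e2).trans (le_of_eq ?_)
  ring

theorem t6_L'_bound {τ : ℂ} (hτ : 0 < τ.im) {t : ℂ} (ht : ‖t‖ < τ.im / 2) (n : ℕ) :
    ‖t6_L' τ n t‖ ≤ 8 * Real.pi ^ 2 / (1 - Real.exp (-(Real.pi * τ.im))) ^ 2 * t6_r τ n := by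
  have h1 := t6_rho_lt τ hτ
  have key : ∀ x : ℂ, ‖x‖ ≤ t6_r τ n → ‖4 * (Real.pi : ℂ) ^ 2 * (x / (1 - x) ^ 2)‖ ≤
      4 * Real.pi ^ 2 / (1 - Real.exp (-(Real.pi * τ.im))) ^ 2 * t6_r τ n := by
    intro x hx
    have h2 := t6_one_sub_norm hτ hx
    have h3 : 0 < 1 - Real.exp (-(Real.pi * τ.im)) := by linarith
    have h4 : ‖(4 * (Real.pi : ℂ) ^ 2 * (x / (1 - x) ^ 2) : ℂ)‖ =
        4 * Real.pi ^ 2 * (‖x‖ / ‖1 - x‖ ^ 2) := by
      rw [norm_mul, norm_mul, norm_div, norm_pow, norm_pow, Complex.norm_real,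
        Complex.norm_ofNat, Real.norm_of_nonneg Real.pi_pos.le]
    rw [h4]
    calc 4 * Real.pi ^ 2 * (‖x‖ / ‖1 - x‖ ^ 2) ≤
          4 * Real.pi ^ 2 * (t6_r τ n / (1 - Real.exp (-(Real.pi * τ.im))) ^ 2) := by
          refine mul_le_mul_of_nonneg_left ?_ (by positivity)
          exact div_le_div₀ (t6_r_pos τ n).le hx (by positivity)
            (pow_le_pow_left₀ h3.le h2 2)
      _ = _ := by ring
  unfold t6_L'
  refine (norm_add_le _ _).trans ?_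
  have e1 := key _ (t6_bound_add τ ht n)
  have e2 := key _ (t6_bound_sub τ ht n)
  refine (add_le_add e1 e2).trans (le_of_eq ?_)
  ring

theorem t6_multipliable (τ : ℂ) (hτ : 0 < τ.im) :
    MultipliableLocallyUniformlyOn (t6_f τ) (Metric.ball (0 : ℂ) (τ.im / 2)) := by
  have h : MultipliableLocallyUniformlyOn (fun n t => 1 + (t6_f τ n t - 1))
      (Metric.ball (0 : ℂ) (τ.im / 2)) := by
    refine Summable.multipliableLocallyUniformlyOn_nat_one_add Metric.isOpen_ball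
      ((t6_r_summable τ hτ).mul_left 3) (Eventually.of_forall fun n t ht => ?_) (fun n => ?_)
    · rw [mem_ball_zero_iff] at ht
      have hA := t6_bound_add τ ht n
      have hB := t6_bound_sub τ ht n
      have hr1 : t6_r τ n ≤ 1 := (t6_r_le τ hτ n).trans (t6_rho_lt τ hτ).le
      have e : t6_f τ n t - 1 = -ee ((n + 1) * τ + t) + (-ee ((n + 1) * τ - t)) +
          ee ((n + 1) * τ + t) * ee ((n + 1) * τ - t) := by
        unfold t6_f
        ring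
      rw [e]
      refine (norm_add₃_le).trans ?_
      rw [norm_neg, norm_neg, norm_mul]
      have h3 : ‖ee ((n + 1) * τ + t)‖ * ‖ee ((n + 1) * τ - t)‖ ≤ 1 * t6_r τ n :=
        mul_le_mul (hA.trans hr1) hB (norm_nonneg _) zero_le_one
      linarith
    · exact ((t6_f_differentiable τ n).continuous.sub continuous_const).continuousOn
  have e : (fun n t => 1 + (t6_f τ n t - 1)) = t6_f τ := by
    funext n t
    ring
  rwa [e] at h

theorem t6_logDeriv_thp {τ : ℂ} (hτ : 0 < τ.im) {t : ℂ} (ht : ‖t‖ < τ.im / 2) :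
    logDeriv (thp τ) t = ∑' n, t6_L τ n t := by
  have h := logDeriv_tprod_eq_tsum (f := t6_f τ) (s := Metric.ball (0 : ℂ) (τ.im / 2))
    Metric.isOpen_ball (x := t) (mem_ball_zero_iff.2 ht)
    (fun n => mul_ne_zero (t6_one_sub_ne hτ (t6_bound_add τ ht n))
      (t6_one_sub_ne hτ (t6_bound_sub τ ht n)))
    (fun n => (t6_f_differentiable τ n).differentiableOn) ?_ (t6_multipliable τ hτ) ?_
  · rw [tsum_congr (fun n => t6_logDeriv_f hτ ht n)] at h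
    exact h
  · refine Summable.congr ?_ (fun n => (t6_logDeriv_f hτ ht n).symm)
    exact Summable.of_norm_bounded ((t6_r_summable τ hτ).mul_left _) (t6_L_bound hτ ht)
  · refine thp_ne_zero τ hτ t fun n => ⟨?_, ?_⟩
    · exact fun h0 => t6_one_sub_ne hτ (t6_bound_add τ ht n) (by rw [h0, sub_self])
    · exact fun h0 => t6_one_sub_ne hτ (t6_bound_sub τ ht n) (by rw [h0, sub_self])

/-- T6a. `(log thp)''(0)`. PROOF. `thp τ` is a locally uniformly convergent product, `logDeriv (thp τ) t = ∑_n [-2πi a_n z/(1 - a_n z) +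
2πi a_n z⁻¹/(1 - a_n z⁻¹)]`, `a_n = ee((n+1)τ)`, `z = ee t` (Mathlib: `logDeriv_tprod_eq_tsum`), near `t = 0` (where `thp ≠ 0`). The sum
converges locally uniformly; differentiate termwise at `t = 0` (`hasDerivAt_tsum...` or
`TendstoLocallyUniformlyOn.deriv`): each term contributes `2 · 4π² a_n/(1 - a_n)²`. -/
theorem deriv_logDeriv_thp (τ : ℂ) (hτ : 0 < τ.im) :
    deriv (logDeriv (thp τ)) 0 = 8 * Real.pi ^ 2 * ∑' n : ℕ, ee ((n + 1) * τ) / (1 - ee ((n + 1) * τ)) ^ 2 := by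
  have h0 : ‖(0 : ℂ)‖ < τ.im / 2 := by
    rw [norm_zero]
    linarith
  have hev : logDeriv (thp τ) =ᶠ[𝓝 0] fun t => ∑' n, t6_L τ n t := by
    filter_upwards [Metric.ball_mem_nhds (0 : ℂ) (show 0 < τ.im / 2 by linarith)] with t ht
    exact t6_logDeriv_thp hτ (mem_ball_zero_iff.1 ht)
  rw [hev.deriv_eq]
  have hd := hasDerivAt_tsum_of_isPreconnected (g := t6_L τ) (g' := t6_L' τ)
    ((t6_r_summable τ hτ).mul_left (8 * Real.pi ^ 2 / (1 - Real.exp (-(Real.pi * τ.im))) ^ 2))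
    (t := Metric.ball (0 : ℂ) (τ.im / 2)) Metric.isOpen_ball
    (convex_ball _ _).isPreconnected
    (fun n y hy => t6_hasDerivAt_L hτ (mem_ball_zero_iff.1 hy) n)
    (fun n y hy => t6_L'_bound hτ (mem_ball_zero_iff.1 hy) n)
    (y₀ := 0) (mem_ball_zero_iff.2 h0)
    (Summable.of_norm_bounded ((t6_r_summable τ hτ).mul_left _) (t6_L_bound hτ h0))
    (y := 0) (mem_ball_zero_iff.2 h0)
  rw [hd.deriv, ← tsum_mul_left]
  refine tsum_congr fun n => ?_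
  unfold t6_L'
  rw [add_zero, sub_zero]
  ring

/-- T6b. PROOF. Mathlib: `EisensteinSeries.E2` has the `q`-expansion `1 - 24 ∑ σ₁(n) qⁿ` (see
`Mathlib/NumberTheory/ModularForms/EisensteinSeries/E2`, and `logDeriv_eta_eq_E2` with its proof: `E2 = 1 - 24 ∑ (n+1) q^{n+1}/(1-q^{n+1})`);
`∑_n a_n/(1-a_n)² = ∑_n ∑_m m q^{nm} = ∑ σ₁(k) q^k` (`tsum_sigma_eqn`-like lemmas in Mathlib, or Fubini
`Summable.tsum_comm`). -/
theorem sE_eq (τ : ℂ) (hτ : 0 < τ.im) :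
    sE τ = Real.pi ^ 2 / 3 - 8 * Real.pi ^ 2 * ∑' n : ℕ, ee ((n + 1) * τ) / (1 - ee ((n + 1) * τ)) ^ 2 := by
  have hq : ‖ee τ‖ < 1 := by
    rw [t6_norm_ee, Real.exp_lt_one_iff]
    have := mul_pos (mul_pos two_pos Real.pi_pos) hτ
    linarith
  have hpow : ∀ n : ℕ, ee ((n + 1) * τ) = ee τ ^ (n + 1) := by
    intro n
    unfold ee
    rw [← Complex.exp_nat_mul]
    congr 1
    push_cast
    ring
  have h1 : MSD.e2 τ = 1 - 24 * ∑' n : ℕ+, (ArithmeticFunction.sigma 1 (n : ℕ) : ℂ) * ee τ ^ (n : ℕ) := by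
    unfold MSD.e2
    rw [UpperHalfPlane.ofComplex_apply_of_im_pos hτ, EisensteinSeries.E2_eq_tsum_cexp]
    rfl
  have h2 := tsum_prod_pow_eq_tsum_sigma 1 hq
  have h3 : ∀ d : ℕ+, ∑' c : ℕ+, ((c : ℕ) : ℂ) ^ 1 * ee τ ^ ((d : ℕ) * (c : ℕ)) =
      ee τ ^ (d : ℕ) / (1 - ee τ ^ (d : ℕ)) ^ 2 := by
    intro d
    have hd : ‖ee τ ^ (d : ℕ)‖ < 1 := by
      rw [norm_pow]
      exact pow_lt_one₀ (norm_nonneg _) hq d.ne_zero
    rw [← tsum_coe_mul_geometric_of_norm_lt_one hd,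
      ← tsum_zero_pnat_eq_tsum_nat (hasSum_coe_mul_geometric_of_norm_lt_one hd).summable]
    rw [Nat.cast_zero, zero_mul, zero_add]
    refine tsum_congr fun c => ?_
    rw [pow_one, pow_mul]
  have h4 : ∑' n : ℕ, ee ((n + 1) * τ) / (1 - ee ((n + 1) * τ)) ^ 2 =
      ∑' n : ℕ+, (ArithmeticFunction.sigma 1 (n : ℕ) : ℂ) * ee τ ^ (n : ℕ) := by
    rw [← h2, tsum_congr h3, tsum_pnat_eq_tsum_succ (f := fun n : ℕ => ee τ ^ n / (1 - ee τ ^ n) ^ 2)]
    refine tsum_congr fun n => ?_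
    rw [hpow]
  unfold sE
  rw [h1, h4]
  ring

end Pool.Agent.MSP
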