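import Pool.Agent.Lib.MP_f58a57_nt.P.Defs

/-! # K2: the resultant of two coprime integer polynomials (MP_f58a57_nt, pairs; Gelfond's criterion) -/

open Complex Filter Topology Polynomial Matrix

noncomputable section

namespace Pool.Agent.MSP

/-- K2a. A determinant is at most the product of the `ℓ¹` norms of the rows. PROOF. `Matrix.det_apply`, triangle inequality, and
`∑_σ ∏_i |M_{σ i, i}| ≤ ∏_i ∑_j |M_{i,j}|` (`Finset.prod_univ_sum`: the permutations are among all functions; transpose if necessary). -/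
theorem norm_det_le {N : ℕ} (M : Matrix (Fin N) (Fin N) ℂ) : ‖M.det‖ ≤ ∏ i, ∑ j, ‖M i j‖ := by
  classical
  rw [← Matrix.det_transpose, Matrix.det_apply]
  have h1 : ‖∑ σ : Equiv.Perm (Fin N), Equiv.Perm.sign σ • ∏ i, Mᵀ (σ i) i‖ ≤
      ∑ σ : Equiv.Perm (Fin N), ∏ i, ‖M i (σ i)‖ := by
    refine (norm_sum_le _ _).trans (Finset.sum_le_sum fun σ _ => ?_)
    have h2 : ‖Equiv.Perm.sign σ • ∏ i, Mᵀ (σ i) i‖ = ‖∏ i, M i (σ i)‖ := by
      rcases Int.units_eq_one_or (Equiv.Perm.sign σ) with h | h <;> rw [h] <;>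
        simp [Matrix.transpose_apply]
    rw [h2, norm_prod]
  refine h1.trans ?_
  rw [Finset.prod_univ_sum]
  have h3 : ∑ σ : Equiv.Perm (Fin N), ∏ i, ‖M i (σ i)‖ =
      ∑ φ ∈ Finset.univ.map ⟨fun σ : Equiv.Perm (Fin N) => (σ : Fin N → Fin N), DFunLike.coe_injective⟩,
        ∏ i, ‖M i (φ i)‖ := by
    rw [Finset.sum_map]
    rfl
  rw [h3]
  refine Finset.sum_le_sum_of_subset_of_nonneg (fun φ _ => ?_) fun φ _ _ =>
    Finset.prod_nonneg fun i _ => norm_nonneg _
  simp [Fintype.mem_piFinset]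

theorem k2_sum {M : Type*} [AddCommMonoid M] (N j d : ℕ) (h : j + d < N) (a : ℕ → M) :
    ∑ i : Fin N, (if (i : ℕ) ∈ Set.Icc j (j + d) then a (i - j) else 0) =
      ∑ t ∈ Finset.range (d + 1), a t := by
  classical
  rw [Fin.sum_univ_eq_sum_range (fun i => if i ∈ Set.Icc j (j + d) then a (i - j) else 0) N,
    ← Finset.sum_filter]
  have h1 : (Finset.range N).filter (fun i => i ∈ Set.Icc j (j + d)) = Finset.Ico j (j + d + 1) := by
    ext i
    simp only [Finset.mem_filter, Finset.mem_range, Set.mem_Icc, Finset.mem_Ico]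
    omega
  rw [h1, Finset.sum_Ico_eq_sum_range]
  have h2 : j + d + 1 - j = d + 1 := by omega
  rw [h2]
  refine Finset.sum_congr rfl fun t _ => ?_
  congr 1
  omega

theorem k2_len_eq (p : Polynomial ℤ) :
    ∑ t ∈ Finset.range (p.natDegree + 1), ‖((p.coeff t : ℤ) : ℂ)‖ = len p := by
  unfold len
  simp only [Complex.norm_intCast]
  symm
  refine Finset.sum_subset (fun i hi => ?_) fun i _ hi => ?_
  · rw [Finset.mem_range]
    have := Polynomial.le_natDegree_of_mem_supp i hi
    omega
  · rw [Polynomial.notMem_support_iff.1 hi]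
    simp

theorem k2_one_le_len (p : Polynomial ℤ) (hp : p ≠ 0) : 1 ≤ len p := by
  unfold len
  have h1 : p.natDegree ∈ p.support := Polynomial.natDegree_mem_support_of_nonzero hp
  have h2 : |((p.coeff p.natDegree : ℤ) : ℝ)| ≤ ∑ i ∈ p.support, |((p.coeff i : ℤ) : ℝ)| :=
    Finset.single_le_sum (f := fun i => |((p.coeff i : ℤ) : ℝ)|) (fun i _ => abs_nonneg _) h1
  refine le_trans ?_ h2
  have h3 : p.coeff p.natDegree ≠ 0 := by
    rw [Polynomial.coeff_natDegree]
    exact Polynomial.leadingCoeff_ne_zero.2 hp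
  have h4 : 1 ≤ |p.coeff p.natDegree| := Int.one_le_abs h3
  rw [← Int.cast_abs]
  exact_mod_cast h4

theorem k2_res_ne_zero (f g : Polynomial ℤ) (hf : Irreducible f) (hg : Irreducible g)
    (hfg : ¬ Associated f g) (df : 1 ≤ f.natDegree) (dg : 1 ≤ g.natDegree) :
    resultant f g f.natDegree g.natDegree ≠ 0 := by
  intro h0
  have pf : f.IsPrimitive := hf.isPrimitive (by omega)
  have pg : g.IsPrimitive := hg.isPrimitive (by omega)
  have hf' : Irreducible (f.map (Int.castRingHom ℚ)) :=
    (Polynomial.IsPrimitive.Int.irreducible_iff_irreducible_map_cast pf).1 hf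
  have hcop : IsCoprime (f.map (Int.castRingHom ℚ)) (g.map (Int.castRingHom ℚ)) := by
    rw [hf'.coprime_iff_not_dvd]
    intro hd
    have h1 : f ∣ g := (Polynomial.IsPrimitive.Int.dvd_iff_map_cast_dvd_map_cast f g pf).2 hd
    exact hfg (hf.associated_of_dvd hg h1)
  have hinj : Function.Injective (Int.castRingHom ℚ) := Int.cast_injective
  have hr := Polynomial.resultant_ne_zero _ _ hcop
  apply hr
  rw [Polynomial.natDegree_map_eq_of_injective hinj, Polynomial.natDegree_map_eq_of_injective hinj,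
    Polynomial.resultant_map_map, h0, map_zero]

/-- K2b. PROOF. Let `m = deg f`, `n = deg g`, `S` the Sylvester matrix of `f, g` (Mathlib `Polynomial.sylvester`, `Polynomial.resultant`, up to
transposition), `Res = det S`. `Res ≠ 0`: `f, g` are irreducible of positive degree and not associated in `ℤ[X]`, so coprime in `ℚ[X]` (Gauss), and
`Polynomial.resultant_ne_zero`/`resultant_eq_zero_iff` or similar over `ℚ` (`resultant_map_map`). It is an integer: `|Res| ≥ 1`. Over `ℂ`, if the rows of `S` are the coefficient vectors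
of `X^i f` (`i < n`) and `X^j g` (`j < m`) (transpose if necessary) and `v = (ϑ^k)_k`, then `(S v)` has the entries `ϑ^i f(ϑ)`, `ϑ^j g(ϑ)`, and
`det S · v_0 = (adj(S) S v)_0 = ∑_j adj(S)_{0j} (S v)_j` (`Matrix.adjugate_mul`), `v_0 = 1`. `adj(S)_{0j} = det (S.updateRow j (Pi.single 0 1))`
(`Matrix.adjugate_apply`), so by K2a `|adj(S)_{0j}| ≤ ∏_{rows ≠ j} (ℓ¹ norm) ≤ len f ^ n * len g ^ m` (the `ℓ¹` norm of a row is `len f` for `n` rows and `len g`
for `m` rows, and `len f, len g ≥ 1`). The bound is crude, any proof of it will do. -/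
theorem res_bound (f g : Polynomial ℤ) (hf : Irreducible f) (hg : Irreducible g) (hfg : ¬ Associated f g)
    (df : 1 ≤ f.natDegree) (dg : 1 ≤ g.natDegree) (ϑ : ℂ) :
    1 ≤ ((f.natDegree : ℝ) + g.natDegree) * (max 1 ‖ϑ‖) ^ (f.natDegree + g.natDegree) *
      (len f ^ g.natDegree * len g ^ f.natDegree) * max ‖aeval ϑ f‖ ‖aeval ϑ g‖ := by
  classical
  set m : ℕ := f.natDegree with hm
  set n : ℕ := g.natDegree with hn
  set S : Matrix (Fin (m + n)) (Fin (m + n)) ℤ := sylvester f g m n with hS
  set A : Matrix (Fin (m + n)) (Fin (m + n)) ℂ := ((Int.castRingHom ℂ).mapMatrix S)ᵀ with hA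
  have hAdet : A.det = ((S.det : ℤ) : ℂ) := by
    rw [hA, Matrix.det_transpose, ← RingHom.map_det]
    simp
  have hSdet : S.det ≠ 0 := k2_res_ne_zero f g hf hg hfg df dg
  have hdet1 : 1 ≤ ‖A.det‖ := by
    rw [hAdet, Complex.norm_intCast, ← Int.cast_abs]
    exact_mod_cast Int.one_le_abs hSdet
  have hlf : 1 ≤ len f := k2_one_le_len f hf.ne_zero
  have hlg : 1 ≤ len g := k2_one_le_len g hg.ne_zero
  let r : Fin (m + n) → ℝ := fun i => Fin.addCases (fun _ => len g) (fun _ => len f) i
  have hr1 : ∀ i, 1 ≤ r i := by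
    intro i
    refine Fin.addCases (fun i => ?_) (fun i => ?_) i
    · simp only [r, Fin.addCases_left]; exact hlg
    · simp only [r, Fin.addCases_right]; exact hlf
  have hrow : ∀ i, ∑ j, ‖A i j‖ = r i := by
    intro i
    refine Fin.addCases (fun i => ?_) (fun i => ?_) i
    · simp only [r, Fin.addCases_left]
      rw [← k2_len_eq g, ← k2_sum (m + n) i n (by have := i.2; omega)
        (fun t => ‖((g.coeff t : ℤ) : ℂ)‖)]
      refine Finset.sum_congr rfl fun j _ => ?_
      simp only [hA, hS, Matrix.transpose_apply, RingHom.mapMatrix_apply, Matrix.map_apply,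
        sylvester, Matrix.of_apply, Fin.addCases_left]
      split_ifs <;> simp
    · simp only [r, Fin.addCases_right]
      rw [← k2_len_eq f, ← k2_sum (m + n) i m (by have := i.2; omega)
        (fun t => ‖((f.coeff t : ℤ) : ℂ)‖)]
      refine Finset.sum_congr rfl fun j _ => ?_
      simp only [hA, hS, Matrix.transpose_apply, RingHom.mapMatrix_apply, Matrix.map_apply,
        sylvester, Matrix.of_apply, Fin.addCases_right]
      split_ifs <;> simp
  have hprod : ∏ i, r i = len g ^ m * len f ^ n := by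
    rw [Fin.prod_univ_add]
    simp only [r, Fin.addCases_left, Fin.addCases_right, Finset.prod_const, Finset.card_univ,
      Fintype.card_fin]
  -- the vector of the powers
  let v : Fin (m + n) → ℂ := fun i => ϑ ^ (i : ℕ)
  set Θ : ℝ := max 1 ‖ϑ‖ with hΘ
  have hΘ1 : 1 ≤ Θ := le_max_left _ _
  have hpow : ∀ i : ℕ, i ≤ m + n → ‖ϑ‖ ^ i ≤ Θ ^ (m + n) := by
    intro i hi
    calc ‖ϑ‖ ^ i ≤ Θ ^ i := pow_le_pow_left₀ (norm_nonneg _) (le_max_right _ _) _
      _ ≤ Θ ^ (m + n) := pow_le_pow_right₀ hΘ1 hi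
  have hev : ∀ (q : Polynomial ℤ) (j : ℕ), ∑ t ∈ Finset.range (q.natDegree + 1),
      ((q.coeff t : ℤ) : ℂ) * ϑ ^ (t + j) = ϑ ^ j * aeval ϑ q := by
    intro q j
    rw [Polynomial.aeval_eq_sum_range, Finset.mul_sum]
    refine Finset.sum_congr rfl fun t _ => ?_
    rw [zsmul_eq_mul]
    ring
  have hAv : ∀ i, ‖(A.mulVec v) i‖ ≤ Θ ^ (m + n) * max ‖aeval ϑ f‖ ‖aeval ϑ g‖ := by
    intro i
    refine Fin.addCases (fun i => ?_) (fun i => ?_) i
    · have h1 : (A.mulVec v) (Fin.castAdd n i) = ϑ ^ (i : ℕ) * aeval ϑ g := by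
        rw [← hev g i, ← k2_sum (m + n) i n (by have := i.2; omega)
          (fun t => ((g.coeff t : ℤ) : ℂ) * ϑ ^ (t + (i : ℕ)))]
        simp only [Matrix.mulVec, dotProduct]
        refine Finset.sum_congr rfl fun j _ => ?_
        simp only [hA, hS, Matrix.transpose_apply, RingHom.mapMatrix_apply, Matrix.map_apply,
          sylvester, Matrix.of_apply, Fin.addCases_left, v]
        split_ifs with hij
        · rw [Set.mem_Icc] at hij
          rw [Nat.sub_add_cancel hij.1]
          simp
        · simp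
      rw [h1, norm_mul, norm_pow]
      exact mul_le_mul (hpow _ (by have := i.2; omega)) (le_max_right _ _) (norm_nonneg _)
        (by positivity)
    · have h1 : (A.mulVec v) (Fin.natAdd m i) = ϑ ^ (i : ℕ) * aeval ϑ f := by
        rw [← hev f i, ← k2_sum (m + n) i m (by have := i.2; omega)
          (fun t => ((f.coeff t : ℤ) : ℂ) * ϑ ^ (t + (i : ℕ)))]
        simp only [Matrix.mulVec, dotProduct]
        refine Finset.sum_congr rfl fun j _ => ?_
        simp only [hA, hS, Matrix.transpose_apply, RingHom.mapMatrix_apply, Matrix.map_apply,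
          sylvester, Matrix.of_apply, Fin.addCases_right, v]
        split_ifs with hij
        · rw [Set.mem_Icc] at hij
          rw [Nat.sub_add_cancel hij.1]
          simp
        · simp
      rw [h1, norm_mul, norm_pow]
      exact mul_le_mul (hpow _ (by have := i.2; omega)) (le_max_left _ _) (norm_nonneg _)
        (by positivity)
  have hmn : 0 < m + n := by omega
  let z : Fin (m + n) := ⟨0, hmn⟩
  have hadj : ∀ j, ‖A.adjugate z j‖ ≤ len f ^ n * len g ^ m := by
    intro j
    rw [Matrix.adjugate_apply]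
    refine (norm_det_le _).trans ?_
    calc ∏ i, ∑ c, ‖(A.updateRow j (Pi.single z 1)) i c‖ ≤ ∏ i, r i := by
          refine Finset.prod_le_prod (fun i _ => Finset.sum_nonneg fun c _ => norm_nonneg _)
            fun i _ => ?_
          by_cases hij : i = j
          · subst hij
            rw [Matrix.updateRow_self]
            refine le_trans (le_of_eq ?_) (hr1 i)
            rw [Finset.sum_eq_single z]
            · simp
            · intro c _ hc
              rw [Pi.single_eq_of_ne hc, norm_zero]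
            · intro h; exact absurd (Finset.mem_univ _) h
          · rw [Matrix.updateRow_ne hij, hrow]
      _ = len f ^ n * len g ^ m := by rw [hprod, mul_comm]
  have hfinal : A.det = ∑ j, A.adjugate z j * (A.mulVec v) j := by
    have h1 : A.adjugate.mulVec (A.mulVec v) = A.det • v := by
      rw [Matrix.mulVec_mulVec, Matrix.adjugate_mul, Matrix.smul_mulVec, Matrix.one_mulVec]
    have h2 := congrFun h1 z
    simp only [Pi.smul_apply, smul_eq_mul, v, z, pow_zero, mul_one] at h2
    rw [← h2]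
    rfl
  calc (1 : ℝ) ≤ ‖A.det‖ := hdet1
    _ = ‖∑ j, A.adjugate z j * (A.mulVec v) j‖ := by rw [← hfinal]
    _ ≤ ∑ j, ‖A.adjugate z j * (A.mulVec v) j‖ := norm_sum_le _ _
    _ ≤ ∑ _j : Fin (m + n), (len f ^ n * len g ^ m) *
        (Θ ^ (m + n) * max ‖aeval ϑ f‖ ‖aeval ϑ g‖) := by
      refine Finset.sum_le_sum fun j _ => ?_
      rw [norm_mul]
      exact mul_le_mul (hadj j) (hAv j) (norm_nonneg _) (by positivity)
    _ = ((m : ℝ) + n) * Θ ^ (m + n) * (len f ^ n * len g ^ m) *
        max ‖aeval ϑ f‖ ‖aeval ϑ g‖ := by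
      rw [Finset.sum_const, Finset.card_univ, Fintype.card_fin, nsmul_eq_mul]
      push_cast
      ring

end Pool.Agent.MSP
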