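import Pool.Agent.Lib.MP_f58a57_nt.P.K1_Factor
import Pool.Agent.Lib.MP_f58a57_nt.P.K2_Res

/-! # K3: Gelfond's criterion (MP_f58a57_nt, pairs) -/

open Complex Filter Topology Polynomial

noncomputable section

namespace Pool.Agent.MSP

/-- length of an integer polynomial in terms of the Mahler measure -/
theorem k3_log_len (f : Polynomial ℤ) (hf : f ≠ 0) {m F : ℝ} (hm : m = (f.natDegree : ℝ))
    (hF : F = Real.log (MM f)) : Real.log (len f) ≤ m + F := by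
  have hM : 1 ≤ MM f := one_le_MM f hf
  have hlen : 0 < len f := lt_of_lt_of_le (by linarith) (MM_le_len f)
  have h1 := Real.log_le_log hlen (len_le_MM f)
  rw [Real.log_mul (by positivity) (by linarith), Real.log_pow, ← hm, ← hF] at h1
  have h2 : Real.log 2 ≤ 1 := by
    have := Real.log_le_sub_one_of_pos (by norm_num : (0 : ℝ) < 2)
    linarith
  have h3 : 0 ≤ m := by rw [hm]; positivity
  nlinarith

/-- degree, Mahler measure and value of a factor -/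
theorem k3_factor {P Q : Polynomial ℤ} (hQ : Q ≠ 0) (hPQ : P ∣ Q) :
    P.natDegree ≤ Q.natDegree ∧ Real.log (MM P) ≤ Real.log (MM Q) := by
  refine ⟨natDegree_le_of_dvd hPQ hQ, ?_⟩
  obtain ⟨R, rfl⟩ := hPQ
  have hP : P ≠ 0 := left_ne_zero_of_mul hQ
  have hR : R ≠ 0 := right_ne_zero_of_mul hQ
  have h1 := one_le_MM P hP
  have h2 := one_le_MM R hR
  rw [MM_mul]
  exact Real.log_le_log (by linarith) (by nlinarith)

/-- associated integer polynomials have the same absolute value at a point -/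
theorem k3_assoc {P Q : Polynomial ℤ} (h : Associated P Q) (ϑ : ℂ) :
    ‖aeval ϑ P‖ = ‖aeval ϑ Q‖ := by
  obtain ⟨u, hu⟩ := h
  obtain ⟨r, hr, hur⟩ := Polynomial.isUnit_iff.1 u.isUnit
  rw [← hu, map_mul, norm_mul, ← hur, aeval_C]
  rcases Int.isUnit_iff.1 hr with rfl | rfl <;> simp

/-- K3a. PROOF. Suppose `f, g` are not associated. Let `m = deg f`, `n = deg g` (`≤ δ`, `≤ δ'`), `c = max 1 ‖ϑ‖`. K2b and `len f ≤ 2^m M(f)` (K1d) give
`0 ≤ log(m+n) + (m+n) log c + n(m log 2 + log M(f)) + m(n log 2 + log M(g)) + max(log‖f(ϑ)‖, log‖g(ϑ)‖)`.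
If the maximum is `log‖f(ϑ)‖ ≤ -(Λ/2)(mσ + log M(f) δ)`: `n log M(f) ≤ aδ log M(f)`, `m log M(g) ≤ m aσ`, `2mn ≤ 2m aδ ≤ 2a mσ`,
`(m+n)(1 + log c) ≤ (1 + log c)(1 + a) mσ` (`m ≥ 1`, `n ≤ aδ ≤ aσ`). If it is `log‖g(ϑ)‖ ≤ -(Λ/2)(nσ' + log M(g) δ')`: `n log M(f) ≤ nσ ≤ nσ'`,
`m log M(g) ≤ δ' log M(g)`, `2mn ≤ 2nδ ≤ 2nσ'`, `(m+n)(1 + log c) ≤ 2(1 + log c) nσ'`. For `Λ = 20 a (1 + log c)` or so both are `< 0`.
(`log M ≥ 0` by K1b.) -/
theorem assoc_of_small (ϑ : ℂ) (a : ℝ) (ha : 1 ≤ a) : ∃ Λ₀ : ℝ, 0 < Λ₀ ∧ ∀ (Λ δ σ δ' σ' : ℝ) (f g : Polynomial ℤ), Λ₀ ≤ Λ →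
    Irreducible f → Irreducible g → 1 ≤ f.natDegree → 1 ≤ g.natDegree → (f.natDegree : ℝ) ≤ δ →
    (g.natDegree : ℝ) ≤ δ' → Real.log (MM f) ≤ σ → Real.log (MM g) ≤ σ' → δ ≤ δ' → δ' ≤ a * δ → σ ≤ σ' → σ' ≤ a * σ →
    δ ≤ σ → aeval ϑ f ≠ 0 → aeval ϑ g ≠ 0 →
    Real.log ‖aeval ϑ f‖ ≤ -(Λ / 2 * (f.natDegree * σ + Real.log (MM f) * δ)) →
    Real.log ‖aeval ϑ g‖ ≤ -(Λ / 2 * (g.natDegree * σ' + Real.log (MM g) * δ')) → Associated f g := by
  obtain ⟨C, hC⟩ : ∃ C : ℝ, C = Real.log (max 1 ‖ϑ‖) := ⟨_, rfl⟩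
  have hc1 : (1 : ℝ) ≤ max 1 ‖ϑ‖ := le_max_left _ _
  have hC0 : 0 ≤ C := by rw [hC]; exact Real.log_nonneg hc1
  refine ⟨2 * ((1 + C) * (1 + a) + 3 * a + 1), by positivity, ?_⟩
  intro Λ δ σ δ' σ' f g hΛ hf hg df dg hfδ hgδ hfσ hgσ hδδ hδa hσσ hσa hδσ hf0 hg0 hsf hsg
  by_contra hna
  have hres := res_bound f g hf hg hna df dg ϑ
  obtain ⟨m, hm⟩ : ∃ m : ℝ, m = (f.natDegree : ℝ) := ⟨_, rfl⟩
  obtain ⟨n, hn⟩ : ∃ n : ℝ, n = (g.natDegree : ℝ) := ⟨_, rfl⟩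
  obtain ⟨F, hF⟩ : ∃ F : ℝ, F = Real.log (MM f) := ⟨_, rfl⟩
  obtain ⟨G, hG⟩ : ∃ G : ℝ, G = Real.log (MM g) := ⟨_, rfl⟩
  have hMf : 1 ≤ MM f := one_le_MM f hf.ne_zero
  have hMg : 1 ≤ MM g := one_le_MM g hg.ne_zero
  have hF0 : 0 ≤ F := by rw [hF]; exact Real.log_nonneg hMf
  have hG0 : 0 ≤ G := by rw [hG]; exact Real.log_nonneg hMg
  have hm1 : 1 ≤ m := by rw [hm]; exact_mod_cast df
  have hn1 : 1 ≤ n := by rw [hn]; exact_mod_cast dg
  rw [← hm] at hfδ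
  rw [← hn] at hgδ
  rw [← hF] at hfσ
  rw [← hG] at hgσ
  rw [← hm, ← hF] at hsf
  rw [← hn, ← hG] at hsg
  have hlf : Real.log (len f) ≤ m + F := k3_log_len f hf.ne_zero hm hF
  have hlg : Real.log (len g) ≤ n + G := k3_log_len g hg.ne_zero hn hG
  have hlen1 : 0 < len f := lt_of_lt_of_le (by linarith) (MM_le_len f)
  have hlen2 : 0 < len g := lt_of_lt_of_le (by linarith) (MM_le_len g)
  have hnf : 0 < ‖aeval ϑ f‖ := norm_pos_iff.2 hf0
  have hng : 0 < ‖aeval ϑ g‖ := norm_pos_iff.2 hg0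
  have hmax : 0 < max ‖aeval ϑ f‖ ‖aeval ϑ g‖ := lt_max_of_lt_left hnf
  have hmn : 0 < (f.natDegree : ℝ) + g.natDegree := by rw [← hm, ← hn]; linarith
  have hlog := Real.log_nonneg hres
  rw [Real.log_mul (by positivity) hmax.ne', Real.log_mul (by positivity) (by positivity),
    Real.log_mul hmn.ne' (by positivity), Real.log_mul (by positivity) (by positivity),
    Real.log_pow, Real.log_pow, Real.log_pow, ← hC] at hlog
  push_cast at hlog
  rw [← hm, ← hn] at hlog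
  have hl1 : Real.log (m + n) ≤ m + n := by
    have := Real.log_le_sub_one_of_pos (by linarith : 0 < m + n)
    linarith
  have h1 : n * Real.log (len f) ≤ n * (m + F) := mul_le_mul_of_nonneg_left hlf (by linarith)
  have h2 : m * Real.log (len g) ≤ m * (n + G) := mul_le_mul_of_nonneg_left hlg (by linarith)
  have hσ1 : 1 ≤ σ := by linarith
  have hσ'1 : 1 ≤ σ' := by linarith
  have hδ1 : 1 ≤ δ := by linarith
  have hΛ2 : (1 + C) * (1 + a) + 3 * a + 1 ≤ Λ / 2 := by linarith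
  have hmσ : 1 ≤ m * σ := one_le_mul_of_one_le_of_one_le hm1 hσ1
  have hnσ : 1 ≤ n * σ' := one_le_mul_of_one_le_of_one_le hn1 hσ'1
  rcases le_total ‖aeval ϑ g‖ ‖aeval ϑ f‖ with hle | hle
  · rw [max_eq_left hle] at hlog
    -- `log ‖f ϑ‖` is the maximum
    have e1 : n * F ≤ a * (F * δ) := by
      have h3 : n ≤ a * δ := hgδ.trans hδa
      have h4 := mul_le_mul_of_nonneg_right h3 hF0
      linarith
    have e2 : m * G ≤ a * (m * σ) := by
      have h3 : G ≤ a * σ := hgσ.trans hσa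
      have h4 := mul_le_mul_of_nonneg_left h3 (by linarith : 0 ≤ m)
      linarith
    have e3 : n * m ≤ a * (m * σ) := by
      have h3 : n ≤ a * δ := hgδ.trans hδa
      have h4 : a * δ ≤ a * σ := mul_le_mul_of_nonneg_left hδσ (by linarith)
      have h5 := mul_le_mul_of_nonneg_right (h3.trans h4) (by linarith : 0 ≤ m)
      linarith
    have e4 : m + n ≤ (1 + a) * (m * σ) := by
      have h3 : n ≤ a * δ := hgδ.trans hδa
      have h4 : a * δ ≤ a * σ := mul_le_mul_of_nonneg_left hδσ (by linarith)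
      have h5 : a * σ ≤ a * (m * σ) :=
        mul_le_mul_of_nonneg_left (le_mul_of_one_le_left (by linarith) hm1) (by linarith)
      have h6 : m ≤ m * σ := le_mul_of_one_le_right (by linarith) hσ1
      linarith
    have e5 : (m + n) * (1 + C) ≤ (1 + C) * (1 + a) * (m * σ) := by
      have := mul_le_mul_of_nonneg_left e4 (by linarith : 0 ≤ 1 + C)
      linarith
    have e6 : ((1 + C) * (1 + a) + 3 * a + 1) * (m * σ + F * δ) ≤ Λ / 2 * (m * σ + F * δ) :=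
      mul_le_mul_of_nonneg_right hΛ2 (by positivity)
    have e7 : 0 ≤ ((1 + C) * (1 + a) + 2 * a + 1) * (F * δ) := by positivity
    linarith
  · rw [max_eq_right hle] at hlog
    have e0 : m ≤ σ' := by linarith
    have e1 : n * F ≤ n * σ' := mul_le_mul_of_nonneg_left (by linarith) (by linarith)
    have e2 : m * G ≤ G * δ' := by
      have h3 := mul_le_mul_of_nonneg_right (by linarith : m ≤ δ') hG0
      linarith
    have e3 : n * m ≤ n * σ' := mul_le_mul_of_nonneg_left e0 (by linarith)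
    have e4 : m + n ≤ 2 * (n * σ') := by
      have h5 : σ' ≤ n * σ' := le_mul_of_one_le_left (by linarith) hn1
      have h6 : n ≤ n * σ' := le_mul_of_one_le_right (by linarith) hσ'1
      linarith
    have e5 : (m + n) * (1 + C) ≤ 2 * (1 + C) * (n * σ') := by
      have := mul_le_mul_of_nonneg_left e4 (by linarith : 0 ≤ 1 + C)
      linarith
    have hδ'0 : 0 ≤ δ' := by linarith
    have e6 : ((1 + C) * (1 + a) + 3 * a + 1) * (n * σ' + G * δ') ≤ Λ / 2 * (n * σ' + G * δ') :=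
      mul_le_mul_of_nonneg_right hΛ2 (by positivity)
    have e7 : (2 * (1 + C) + 4) * (n * σ' + G * δ') ≤
        ((1 + C) * (1 + a) + 3 * a + 1) * (n * σ' + G * δ') := by
      refine mul_le_mul_of_nonneg_right ?_ (by positivity)
      have h3 := mul_le_mul_of_nonneg_left (by linarith : 2 ≤ 1 + a) (by linarith : 0 ≤ 1 + C)
      linarith
    have e8 : 0 ≤ (2 * (1 + C) + 3) * (G * δ') := by positivity
    linarith

/-- K3b. Gelfond's criterion. PROOF. `Λ = Λ₀` of K3a. For large `n` choose by K1e (`log M(Q) ≤ log len Q ≤ σ_n`, K1c) an irreducible factor `P_n` of the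
polynomial `Q_n`; its degree and `log M` are at most those of `Q_n` (`MM_mul`, `one_le_MM`), `P_n(ϑ) ≠ 0`. By K3a `P_n` and `P_{n+1}` are associated,
so all `P_n` are associated to one `P`; then `log‖P(ϑ)‖ ≤ -(Λ/2) σ_n → -∞`, a contradiction as `P(ϑ) ≠ 0` is fixed (`deg P ≥ 1`, associated polynomials
differ by a sign). -/
theorem gelfond (ϑ : ℂ) (a : ℝ) (ha : 1 ≤ a) : ∃ Λ : ℝ, 0 < Λ ∧ ∀ δ σ : ℕ → ℝ,
    (∀ᶠ n in atTop, 1 ≤ δ n ∧ δ n ≤ σ n ∧ δ n ≤ δ (n + 1) ∧ δ (n + 1) ≤ a * δ n ∧ σ n ≤ σ (n + 1) ∧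
      σ (n + 1) ≤ a * σ n) → Tendsto σ atTop atTop →
    (∀ᶠ n in atTop, ∃ Q : Polynomial ℤ, (Q.natDegree : ℝ) ≤ δ n ∧ Real.log (len Q) ≤ σ n ∧ aeval ϑ Q ≠ 0 ∧
      ‖aeval ϑ Q‖ ≤ Real.exp (-(Λ * δ n * σ n))) → False := by
  obtain ⟨Λ, hΛ0, hΛ⟩ := assoc_of_small ϑ a ha
  refine ⟨Λ, hΛ0, ?_⟩
  intro δ σ hev htend hQ
  obtain ⟨N, hN⟩ := eventually_atTop.1 (hev.and hQ)
  -- the irreducible factors
  have hP : ∀ k : ℕ, ∃ P : Polynomial ℤ, Irreducible P ∧ 1 ≤ P.natDegree ∧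
      (P.natDegree : ℝ) ≤ δ (N + k) ∧ Real.log (MM P) ≤ σ (N + k) ∧ aeval ϑ P ≠ 0 ∧
      Real.log ‖aeval ϑ P‖ ≤
        -(Λ / 2 * (P.natDegree * σ (N + k) + Real.log (MM P) * δ (N + k))) := by
    intro k
    obtain ⟨⟨h1, h2, -⟩, Q, q1, q2, q3, q4⟩ := hN (N + k) (by omega)
    have hQ0 : Q ≠ 0 := by
      rintro rfl
      exact q3 (map_zero _)
    have hMQ : Real.log (MM Q) ≤ σ (N + k) := by
      refine (Real.log_le_log ?_ (MM_le_len Q)).trans q2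
      exact lt_of_lt_of_le zero_lt_one (one_le_MM Q hQ0)
    obtain ⟨P, p1, p2, p3, p4⟩ := exists_factor ϑ Q q3 (δ (N + k)) (σ (N + k)) Λ (by linarith)
      (by linarith) hΛ0 q1 hMQ q4
    obtain ⟨f1, f2⟩ := k3_factor hQ0 p2
    refine ⟨P, p1, p3, ?_, f2.trans hMQ, ?_, p4⟩
    · exact le_trans (by exact_mod_cast f1) q1
    · intro h0
      obtain ⟨R, rfl⟩ := p2
      exact q3 (by rw [map_mul, h0, zero_mul])
  choose P p1 p2 p3 p4 p5 p6 using hP
  have hass : ∀ k, Associated (P k) (P (k + 1)) := by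
    intro k
    obtain ⟨⟨h1, h2, h3, h4, h5, h6⟩, -⟩ := hN (N + k) (by omega)
    exact hΛ Λ (δ (N + k)) (σ (N + k)) (δ (N + (k + 1))) (σ (N + (k + 1))) (P k) (P (k + 1)) le_rfl
      (p1 k) (p1 (k + 1)) (p2 k) (p2 (k + 1)) (p3 k) (p3 (k + 1)) (p4 k) (p4 (k + 1)) h3 h4 h5 h6
      h2 (p5 k) (p5 (k + 1)) (p6 k) (p6 (k + 1))
  have hass0 : ∀ k, Associated (P 0) (P k) := by
    intro k
    induction k with
    | zero => exact Associated.refl _
    | succ k ih => exact ih.trans (hass k)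
  -- the contradiction
  have hlt : ∀ k, Λ / 2 * σ (N + k) ≤ -Real.log ‖aeval ϑ (P 0)‖ := by
    intro k
    obtain ⟨⟨h1, h2, -⟩, -⟩ := hN (N + k) (by omega)
    have h3 := p6 k
    rw [← k3_assoc (hass0 k) ϑ] at h3
    have h4 : (1 : ℝ) ≤ (P k).natDegree := by exact_mod_cast p2 k
    have h5 : 0 ≤ Real.log (MM (P k)) := Real.log_nonneg (one_le_MM _ (p1 k).ne_zero)
    have h6 : σ (N + k) ≤ (P k).natDegree * σ (N + k) + Real.log (MM (P k)) * δ (N + k) := by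
      have : 0 ≤ Real.log (MM (P k)) * δ (N + k) := mul_nonneg h5 (by linarith)
      nlinarith
    have h7 : Λ / 2 * σ (N + k) ≤
        Λ / 2 * ((P k).natDegree * σ (N + k) + Real.log (MM (P k)) * δ (N + k)) :=
      mul_le_mul_of_nonneg_left h6 (by linarith)
    linarith
  have ht : Tendsto (fun k => Λ / 2 * σ (N + k)) atTop atTop := by
    refine Tendsto.const_mul_atTop (by linarith) ?_
    have h8 : Tendsto (fun k : ℕ => N + k) atTop atTop :=
      tendsto_atTop_mono (fun k => Nat.le_add_left k N) tendsto_id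
    exact htend.comp h8
  obtain ⟨k, hk⟩ := (ht.eventually (eventually_gt_atTop (-Real.log ‖aeval ϑ (P 0)‖))).exists
  exact absurd (hlt k) (not_le.2 hk)

end Pool.Agent.MSP
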