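import Pool.Agent.Lib.MP_f58a57_nt.P.T2_Func

/-! # T3: zeros of the theta function (MP_f58a57_nt, pairs) -/

open Complex Filter Topology

noncomputable section

namespace Pool.Agent.MSP

theorem t3_ee_eq_one (x : ℂ) : ee x = 1 ↔ ∃ k : ℤ, x = k := by
  unfold ee
  rw [Complex.exp_eq_one_iff]
  have hpi : (2 * Real.pi * I : ℂ) ≠ 0 := by
    simp [Real.pi_ne_zero, Complex.I_ne_zero]
  constructor
  · rintro ⟨k, hk⟩
    refine ⟨k, mul_left_cancel₀ hpi ?_⟩
    rw [hk]; ring
  · rintro ⟨k, rfl⟩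
    exact ⟨k, by ring⟩

theorem t3_shift (τ : ℂ) (hτ : 0 < τ.im) (t : ℂ) (n : ℤ) : th τ (t + n * τ) = 0 ↔ th τ t = 0 := by
  induction n using Int.induction_on with
  | zero => simp
  | succ n ih =>
    have h1 : t + ((n + 1 : ℤ) : ℂ) * τ = (t + (n : ℤ) * τ) + τ := by push_cast; ring
    rw [h1, th_add_tau τ hτ, ← ih, mul_eq_zero, neg_eq_zero]
    simp [Complex.exp_ne_zero]
  | pred n ih =>
    have h1 : t + ((-n : ℤ) : ℂ) * τ = (t + ((-n - 1 : ℤ) : ℂ) * τ) + τ := by push_cast; ring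
    rw [h1, th_add_tau τ hτ, mul_eq_zero, neg_eq_zero] at ih
    simpa [Complex.exp_ne_zero] using ih

/-- T3a. PROOF. ← : `sin(πm) = 0` and the functional equations T2 (or: some factor of the product is zero; `th` vanishes at `m`
and then at `m + nτ` by induction with `th_add_tau`, also backwards). → : if `th τ t = 0` then `sin(πt) = 0` (so `t ∈ ℤ`,
`Complex.sin_eq_zero_iff`) or `thp τ t = 0`, so by `thp_ne_zero` `ee(±t + (n+1)τ) = 1` for some `n`, so
`±t + (n+1)τ ∈ ℤ` (`Complex.exp_eq_one_iff`). -/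
theorem th_eq_zero_iff (τ : ℂ) (hτ : 0 < τ.im) (t : ℂ) : th τ t = 0 ↔ ∃ m n : ℤ, t = m + n * τ := by
  have hpi : (Real.pi : ℂ) ≠ 0 := Complex.ofReal_ne_zero.2 Real.pi_ne_zero
  constructor
  · intro h
    have h0 : Complex.sin (Real.pi * t) * thp τ t = 0 := h
    rcases mul_eq_zero.1 h0 with h1 | h1
    · obtain ⟨k, hk⟩ := Complex.sin_eq_zero_iff.1 h1
      refine ⟨k, 0, ?_⟩
      have h2 : t = k := mul_left_cancel₀ hpi (by rw [hk]; ring)
      rw [h2]; simp
    · by_contra hcon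
      push Not at hcon
      refine thp_ne_zero τ hτ t ?_ h1
      intro n
      constructor
      · intro h2
        obtain ⟨k, hk⟩ := (t3_ee_eq_one _).1 h2
        refine hcon k (-(n + 1)) ?_
        push_cast
        linear_combination hk
      · intro h2
        obtain ⟨k, hk⟩ := (t3_ee_eq_one _).1 h2
        refine hcon (-k) (n + 1) ?_
        push_cast
        linear_combination -hk
  · rintro ⟨m, n, rfl⟩
    rw [t3_shift τ hτ]
    unfold th
    rw [Complex.sin_eq_zero_iff.2 ⟨m, by ring⟩, zero_mul]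

/-- T3b. `th' (0) = π thp τ 0 ≠ 0`. -/
theorem deriv_th_zero_ne (τ : ℂ) (hτ : 0 < τ.im) : deriv (th τ) 0 ≠ 0 := by
  have h1 : HasDerivAt (fun t : ℂ => Complex.sin (Real.pi * t))
      (Complex.cos (Real.pi * 0) * (Real.pi * 1)) 0 :=
    (Complex.hasDerivAt_sin _).comp (0 : ℂ) ((hasDerivAt_id (0 : ℂ)).const_mul (Real.pi : ℂ))
  have h2 : HasDerivAt (thp τ) (deriv (thp τ) 0) 0 := (thp_differentiable τ hτ 0).hasDerivAt
  have h3 : HasDerivAt (th τ) _ 0 := h1.mul h2
  rw [h3.deriv]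
  simp only [mul_zero, Complex.cos_zero, Complex.sin_zero, mul_one, one_mul, zero_mul, add_zero]
  refine mul_ne_zero (Complex.ofReal_ne_zero.2 Real.pi_ne_zero) (thp_ne_zero τ hτ 0 ?_)
  intro n
  have key : ∀ k : ℤ, ((n : ℂ) + 1) * τ ≠ k := by
    intro k hk
    have him := congrArg Complex.im hk
    have h4 : (((n : ℂ) + 1) * τ).im = ((n : ℝ) + 1) * τ.im := by
      simp [Complex.mul_im]
    rw [h4] at him
    simp only [Complex.intCast_im] at him
    have h5 : (0 : ℝ) < ((n : ℝ) + 1) * τ.im := by positivity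
    linarith
  constructor
  · intro h4
    obtain ⟨k, hk⟩ := (t3_ee_eq_one _).1 h4
    exact key k (by rw [← hk]; ring)
  · intro h4
    obtain ⟨k, hk⟩ := (t3_ee_eq_one _).1 h4
    exact key k (by rw [← hk]; ring)

/-- T3c. real non-integers are not zeros. -/
theorem th_real_ne (τ : ℂ) (hτ : 0 < τ.im) (x : ℝ) (hx : ∀ m : ℤ, x ≠ m) : th τ x ≠ 0 := by
  rw [Ne, th_eq_zero_iff τ hτ]
  rintro ⟨m, n, h⟩
  have him := congrArg Complex.im h
  simp at him
  have hn : (n : ℝ) = 0 := by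
    rcases him with h' | h'
    · exact_mod_cast h'
    · exact absurd h' hτ.ne'
  have hn' : n = 0 := by exact_mod_cast hn
  subst hn'
  apply hx m
  have hre := congrArg Complex.re h
  simpa using hre

end Pool.Agent.MSP
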