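import Pool.Agent.Lib.MP_f58a57_nt.P.Defs

/-! # K1: selection of an irreducible factor (MP_f58a57_nt, pairs; Gelfond's criterion) -/

open Complex Filter Topology Polynomial

noncomputable section

namespace Pool.Agent.MSP

/-- Mahler measure of an integer polynomial -/
def MM (p : Polynomial ℤ) : ℝ := (p.map (Int.castRingHom ℂ)).mahlerMeasure

/-- K1a. Mathlib `mahlerMeasure_mul`. -/
theorem MM_mul (p q : Polynomial ℤ) : MM (p * q) = MM p * MM q := by
  unfold MM
  rw [Polynomial.map_mul, mahlerMeasure_mul]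

/-- K1b. `M(p) ≥ |leading coefficient| ≥ 1` (Mathlib: `one_le_mahlerMeasure...`/`norm_leadingCoeff_le_mahlerMeasure` or via the product formula). -/
theorem one_le_MM (p : Polynomial ℤ) (hp : p ≠ 0) : 1 ≤ MM p :=
  one_le_mahlerMeasure_of_ne_zero hp

theorem k1_inj : Function.Injective (Int.castRingHom ℂ) := RingHom.injective_int _

/-- K1c. Mathlib `mahlerMeasure_le_sum_norm_coeff`. -/
theorem MM_le_len (p : Polynomial ℤ) : MM p ≤ len p := by
  unfold MM len
  refine (mahlerMeasure_le_sum_norm_coeff _).trans (le_of_eq ?_)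
  rw [Polynomial.sum_def, Polynomial.support_map_of_injective p k1_inj]
  refine Finset.sum_congr rfl fun i _ => ?_
  rw [Polynomial.coeff_map]
  simp

/-- K1d. Mathlib `norm_coeff_le_choose_mul_mahlerMeasure` and `∑ choose = 2^deg`. -/
theorem len_le_MM (p : Polynomial ℤ) : len p ≤ 2 ^ p.natDegree * MM p := by
  unfold MM len
  have h : ∀ i, |((p.coeff i : ℤ) : ℝ)| ≤ (p.natDegree.choose i : ℝ) * (p.map (Int.castRingHom ℂ)).mahlerMeasure := by
    intro i
    have h1 := norm_coeff_le_choose_mul_mahlerMeasure i (p.map (Int.castRingHom ℂ))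
    rw [Polynomial.coeff_map, Polynomial.natDegree_map_eq_of_injective k1_inj] at h1
    simpa using h1
  calc ∑ i ∈ p.support, |((p.coeff i : ℤ) : ℝ)|
      ≤ ∑ i ∈ Finset.range (p.natDegree + 1), |((p.coeff i : ℤ) : ℝ)| := by
        refine Finset.sum_le_sum_of_subset_of_nonneg ?_ (fun _ _ _ => abs_nonneg _)
        exact Polynomial.supp_subset_range_natDegree_succ
    _ ≤ ∑ i ∈ Finset.range (p.natDegree + 1),
          (p.natDegree.choose i : ℝ) * (p.map (Int.castRingHom ℂ)).mahlerMeasure :=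
        Finset.sum_le_sum fun i _ => h i
    _ = 2 ^ p.natDegree * (p.map (Int.castRingHom ℂ)).mahlerMeasure := by
        rw [← Finset.sum_mul]
        congr 1
        exact_mod_cast Nat.sum_range_choose p.natDegree

/-- the additive function of the proof of `exists_factor` -/
def k1a (ϑ : ℂ) (δ σ Λ : ℝ) (P : Polynomial ℤ) : ℝ :=
  Real.log ‖aeval ϑ P‖ + Λ / 2 * (P.natDegree * σ + Real.log (MM P) * δ)

theorem k1a_mul (ϑ : ℂ) (δ σ Λ : ℝ) (P R : Polynomial ℤ) (hP : aeval ϑ P ≠ 0) (hR : aeval ϑ R ≠ 0) :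
    k1a ϑ δ σ Λ (P * R) = k1a ϑ δ σ Λ P + k1a ϑ δ σ Λ R := by
  have hP0 : P ≠ 0 := by
    rintro rfl
    exact hP (map_zero _)
  have hR0 : R ≠ 0 := by
    rintro rfl
    exact hR (map_zero _)
  unfold k1a
  rw [map_mul, norm_mul, Real.log_mul (norm_ne_zero_iff.2 hP) (norm_ne_zero_iff.2 hR),
    Polynomial.natDegree_mul hP0 hR0, MM_mul, Real.log_mul]
  · push_cast
    ring
  · have := one_le_MM P hP0
    linarith
  · have := one_le_MM R hR0
    linarith

theorem k1_MM_C (c : ℤ) : MM (C c) = |(c : ℝ)| := by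
  unfold MM
  rw [Polynomial.map_C, mahlerMeasure_const]
  simp

theorem k1a_C (ϑ : ℂ) (δ σ Λ : ℝ) (c : ℤ) :
    k1a ϑ δ σ Λ (C c) = Real.log |(c : ℝ)| * (1 + Λ / 2 * δ) := by
  unfold k1a
  rw [k1_MM_C, natDegree_C, aeval_C]
  have : ‖(algebraMap ℤ ℂ) c‖ = |(c : ℝ)| := by simp
  rw [this]
  push_cast
  ring

theorem k1_unit (P : Polynomial ℤ) (h : IsUnit P) : ∃ c : ℤ, |c| = 1 ∧ P = C c := by
  rw [Polynomial.isUnit_iff] at h
  obtain ⟨c, hc, rfl⟩ := h
  exact ⟨c, Int.isUnit_iff_abs_eq.1 hc, rfl⟩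

/-- K1e. PROOF. For an irreducible `P` put `a(P) = log‖P(ϑ)‖ + (Λ/2)(deg P · σ + log M(P) · δ)`; extend `a` to all `P` with `P(ϑ) ≠ 0`: it is additive.
`a(Q) ≤ -Λδσ + (Λ/2)(δσ + σδ) = 0`. If all irreducible factors `P` of `Q` had `a(P) > 0`, then (induction over the factorization in the UFD `ℤ[X]`,
`UniqueFactorizationMonoid.induction_on_prime` or `WfDvdMonoid.induction_on_irreducible`; a unit is `±1` and has `a = 0`) `a(Q) ≥ 0` with equality only if
`Q` is a unit; but for a unit `‖Q(ϑ)‖ = 1 > exp(-Λδσ)`. So some irreducible factor has `a(P) ≤ 0`. It is not constant: for a constant prime `p`,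
`a = log|p| (1 + Λδ/2) > 0`. -/
theorem exists_factor (ϑ : ℂ) (Q : Polynomial ℤ) (hQ : aeval ϑ Q ≠ 0) (δ σ Λ : ℝ) (hδ0 : 0 < δ) (hσ0 : 0 < σ)
    (hΛ : 0 < Λ) (hδ : (Q.natDegree : ℝ) ≤ δ) (hσ : Real.log (MM Q) ≤ σ)
    (hs : ‖aeval ϑ Q‖ ≤ Real.exp (-(Λ * δ * σ))) :
    ∃ P : Polynomial ℤ, Irreducible P ∧ P ∣ Q ∧ 1 ≤ P.natDegree ∧
      Real.log ‖aeval ϑ P‖ ≤ -(Λ / 2 * (P.natDegree * σ + Real.log (MM P) * δ)) := by
  by_contra hcon
  push Not at hcon
  have hQ0 : Q ≠ 0 := by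
    rintro rfl
    exact hQ (map_zero _)
  have hne : ∀ D : Polynomial ℤ, D ∣ Q → aeval ϑ D ≠ 0 := by
    rintro D ⟨E, rfl⟩ h
    rw [map_mul, h, zero_mul] at hQ
    exact hQ rfl
  have hirr : ∀ P : Polynomial ℤ, Irreducible P → P ∣ Q → 0 < k1a ϑ δ σ Λ P := by
    intro P hP hPQ
    rcases Nat.eq_zero_or_pos P.natDegree with h | h
    · obtain ⟨c, hc⟩ := Polynomial.natDegree_eq_zero.1 h
      rw [← hc, k1a_C]
      have hc0 : c ≠ 0 := by
        rintro rfl
        rw [map_zero] at hc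
        exact hP.ne_zero hc.symm
      have hc1 : |c| ≠ 1 := by
        intro h1
        apply hP.not_isUnit
        rw [← hc, Polynomial.isUnit_C]
        exact Int.isUnit_iff_abs_eq.2 h1
      have hc2 : 2 ≤ |c| := by
        have := Int.one_le_abs hc0
        omega
      have hc3 : (2 : ℝ) ≤ |(c : ℝ)| := by
        rw [← Int.cast_abs]
        exact_mod_cast hc2
      have h4 : 0 < Real.log |(c : ℝ)| := Real.log_pos (by linarith)
      positivity
    · have h1 := hcon P hP hPQ h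
      unfold k1a
      linarith
  have hind : ∀ D : Polynomial ℤ, D ∣ Q → 0 ≤ k1a ϑ δ σ Λ D ∧ (IsUnit D ∨ 0 < k1a ϑ δ σ Λ D) := by
    intro D
    induction D using WfDvdMonoid.induction_on_irreducible with
    | zero =>
      intro h
      exact absurd (zero_dvd_iff.1 h) hQ0
    | unit u hu =>
      intro _
      refine ⟨?_, Or.inl hu⟩
      obtain ⟨c, hc, rfl⟩ := k1_unit u hu
      rw [k1a_C]
      have : |(c : ℝ)| = 1 := by
        rw [← Int.cast_abs, hc]
        simp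
      rw [this, Real.log_one, zero_mul]
    | mul b i hb hi ih =>
      intro h
      have hiQ : i ∣ Q := (Dvd.intro _ rfl).trans h
      have hbQ : b ∣ Q := (Dvd.intro_left _ rfl).trans h
      have h1 := k1a_mul ϑ δ σ Λ i b (hne i hiQ) (hne b hbQ)
      have h2 := hirr i hi hiQ
      have h3 := (ih hbQ).1
      constructor
      · linarith
      · right
        linarith
  have hpos : 0 < Λ * δ * σ := by positivity
  have hlog : Real.log ‖aeval ϑ Q‖ ≤ -(Λ * δ * σ) := by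
    rw [Real.log_le_iff_le_exp (norm_pos_iff.2 hQ)]
    exact hs
  rcases (hind Q dvd_rfl).2 with h | h
  · obtain ⟨c, hc, rfl⟩ := k1_unit Q h
    have h1 : ‖aeval ϑ (C c : Polynomial ℤ)‖ = 1 := by
      rw [aeval_C]
      have : ‖(algebraMap ℤ ℂ) c‖ = |(c : ℝ)| := by simp
      rw [this, ← Int.cast_abs, hc]
      simp
    rw [h1, Real.log_one] at hlog
    linarith
  · unfold k1a at h
    have h1 : (Q.natDegree : ℝ) * σ ≤ δ * σ := mul_le_mul_of_nonneg_right hδ hσ0.le
    have h2 : Real.log (MM Q) * δ ≤ σ * δ := mul_le_mul_of_nonneg_right hσ hδ0.le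
    have h3 : Λ / 2 * (Q.natDegree * σ + Real.log (MM Q) * δ) ≤ Λ / 2 * (δ * σ + σ * δ) :=
      mul_le_mul_of_nonneg_left (by linarith) (by linarith)
    have h4 : Λ / 2 * (δ * σ + σ * δ) = Λ * δ * σ := by ring
    linarith

end Pool.Agent.MSP
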