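import Mathlib
import Pool.Agent.Lib.MP_f58a57_nt.Defs

/-!
# MP_f58a57_nt, pairs of special points: definitions

Flat functions of one curve with period ratio `τ`: the theta function `th τ`, the numerators `N0, N1, N2`,
`ph = th'/th` and `wp = -ph' - s` (the Weierstrass function of `ℤ + ℤτ` if `s = (π²/3) E₂(τ)`).
-/

open Complex

noncomputable section

namespace Pool.Agent.MSP

/-- `e^{2πix}` -/
def ee (x : ℂ) : ℂ := cexp (2 * Real.pi * I * x)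

/-- the product part of the theta function -/
def thp (τ t : ℂ) : ℂ := ∏' n : ℕ, ((1 - ee ((n + 1) * τ + t)) * (1 - ee ((n + 1) * τ - t)))

/-- `sin(πt) ∏_{n ≥ 1} (1 - pⁿ e^{2πit})(1 - pⁿ e^{-2πit})`, `p = e^{2πiτ}` -/
def th (τ t : ℂ) : ℂ := Complex.sin (Real.pi * t) * thp τ t

/-- the numerators -/
def N0 (τ t : ℂ) : ℂ := th τ t

def N1 (τ t : ℂ) : ℂ := deriv (th τ) t

def N2 (τ s t : ℂ) : ℂ := deriv (th τ) t ^ 2 - th τ t * deriv (deriv (th τ)) t - s * th τ t ^ 2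

/-- `th'/th` -/
def ph (τ t : ℂ) : ℂ := N1 τ t / N0 τ t

/-- `- (th'/th)' - s` -/
def wp (τ s t : ℂ) : ℂ := N2 τ s t / N0 τ t ^ 2

/-- the automorphy factor of `th` for the translation by `m + nτ` -/
def au (τ : ℂ) (m n : ℤ) (t : ℂ) : ℂ :=
  (-1 : ℂ) ^ (m + n) * cexp (-(Real.pi * I * (n : ℂ) ^ 2 * τ) - 2 * Real.pi * I * n * t)

/-- the value of `s` for which `wp` is the Weierstrass function -/
def sE (τ : ℂ) : ℂ := (Real.pi : ℂ) ^ 2 / 3 * MSD.e2 τ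

/-- one curve (flat) -/
structure Cv where
  τ : ℂ
  s : ℂ
  im : 0 < τ.im

/-- parameters of the auxiliary function: degree `L` in the two Weierstrass functions, degrees `d₁, d₂, d₃` in the three
linear coordinates `x₁, x₂, x₃` -/
structure Pr where
  L : ℕ
  d₁ : ℕ
  d₂ : ℕ
  d₃ : ℕ
  a₁ : ℤ
  a₂ : ℤ
  b₁ : ℤ
  b₂ : ℤ

namespace Pr

/-- total degree in the linear coordinates -/
def l (P : Pr) : ℕ := P.d₁ + P.d₂ + P.d₃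

/-- the power of the theta functions that clears the denominators -/
def M (P : Pr) : ℕ := 2 * P.L + P.l

/-- size of the coefficients of the linear coordinates -/
def A (P : Pr) : ℝ := 2 + |(P.a₁ : ℝ)| + |(P.a₂ : ℝ)| + |(P.b₁ : ℝ)| + |(P.b₂ : ℝ)|

/-- index set of the monomials: `(a, b, κ₁, κ₂, κ₃)` -/
def box (P : Pr) : Finset (ℕ × ℕ × ℕ × ℕ × ℕ) :=
  Finset.range (P.L + 1) ×ˢ Finset.range (P.L + 1) ×ˢ Finset.range (P.d₁ + 1) ×ˢ Finset.range (P.d₂ + 1) ×ˢ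
    Finset.range (P.d₃ + 1)

/-- standing assumptions -/
structure Good (P : Pr) : Prop where
  det : P.a₁ * P.b₁ + P.a₂ * P.b₂ = 1
  hL : 1 ≤ P.L
  hl : P.l ≤ P.L
  hA : P.A ^ P.l ≤ Real.exp P.L

end Pr

/-- `y₁ = -ph₁(t)/(2πi)` times `th₁(t) th₂(w)` -/
def Z1 (c₁ c₂ : Cv) (t w : ℂ) : ℂ := -(N1 c₁.τ t * N0 c₂.τ w) / (2 * Real.pi * I)

/-- `y₂ = -ph₂(w)/(2πi)` times `th₁(t) th₂(w)` -/
def Z2 (c₁ c₂ : Cv) (t w : ℂ) : ℂ := -(N0 c₁.τ t * N1 c₂.τ w) / (2 * Real.pi * I)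

/-- `y₃ = (w - t) - τ₂ y₂ + τ₁ y₁` times `th₁(t) th₂(w)` -/
def Z3 (c₁ c₂ : Cv) (t w : ℂ) : ℂ :=
  (w - t) * (N0 c₁.τ t * N0 c₂.τ w) - c₂.τ * Z2 c₁ c₂ t w + c₁.τ * Z1 c₁ c₂ t w

/-- the monomial with index `ν`, with the linear coordinates shifted by `k`, times `(th₁(t) th₂(w))^M` -/
def Gmon (c₁ c₂ : Cv) (P : Pr) (k : Fin 3 → ℂ) (ν : ℕ × ℕ × ℕ × ℕ × ℕ) (t w : ℂ) : ℂ :=
  N2 c₁.τ c₁.s t ^ ν.1 * N0 c₁.τ t ^ (2 * (P.L - ν.1)) *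
  (N2 c₂.τ c₂.s w ^ ν.2.1 * N0 c₂.τ w ^ (2 * (P.L - ν.2.1))) *
  ((Z3 c₁ c₂ t w + k 0 * (N0 c₁.τ t * N0 c₂.τ w)) ^ ν.2.2.1 *
   (P.b₂ * Z1 c₁ c₂ t w - P.b₁ * Z2 c₁ c₂ t w + k 1 * (N0 c₁.τ t * N0 c₂.τ w)) ^ ν.2.2.2.1 *
   (P.a₁ * Z1 c₁ c₂ t w + P.a₂ * Z2 c₁ c₂ t w + k 2 * (N0 c₁.τ t * N0 c₂.τ w)) ^ ν.2.2.2.2) *
  (N0 c₁.τ t * N0 c₂.τ w) ^ (P.l - (ν.2.2.1 + ν.2.2.2.1 + ν.2.2.2.2))

/-- the entire function `(th₁ th₂)^M F`, with shift `k` -/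
def Gs (c₁ c₂ : Cv) (P : Pr) (k : Fin 3 → ℂ) (coef : ℕ × ℕ × ℕ × ℕ × ℕ → ℂ) (t w : ℂ) : ℂ :=
  ∑ ν ∈ P.box, coef ν * Gmon c₁ c₂ P k ν t w

/-- the entire function `(th₁ th₂)^M F` -/
def GG (c₁ c₂ : Cv) (P : Pr) (coef : ℕ × ℕ × ℕ × ℕ × ℕ → ℂ) (t w : ℂ) : ℂ := Gs c₁ c₂ P 0 coef t w

/-- the linear coordinates -/
def xx (c₁ c₂ : Cv) (P : Pr) (i : Fin 3) (t w : ℂ) : ℂ :=
  ![(w - t) + c₂.τ * (ph c₂.τ w / (2 * Real.pi * I)) - c₁.τ * (ph c₁.τ t / (2 * Real.pi * I)),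
    -(P.b₂ * (ph c₁.τ t / (2 * Real.pi * I))) + P.b₁ * (ph c₂.τ w / (2 * Real.pi * I)),
    -(P.a₁ * (ph c₁.τ t / (2 * Real.pi * I))) - P.a₂ * (ph c₂.τ w / (2 * Real.pi * I))] i

/-- the auxiliary function -/
def FF (c₁ c₂ : Cv) (P : Pr) (coef : ℕ × ℕ × ℕ × ℕ × ℕ → ℂ) (t w : ℂ) : ℂ :=
  ∑ ν ∈ P.box, coef ν * (wp c₁.τ c₁.s t ^ ν.1 * wp c₂.τ c₂.s w ^ ν.2.1 *
    (xx c₁ c₂ P 0 t w ^ ν.2.2.1 * xx c₁ c₂ P 1 t w ^ ν.2.2.2.1 * xx c₁ c₂ P 2 t w ^ ν.2.2.2.2))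

/-- mixed partial derivatives -/
def dd (r s : ℕ) (G : ℂ → ℂ → ℂ) (t w : ℂ) : ℂ :=
  iteratedDeriv r (fun t' => iteratedDeriv s (G t') w) t

/-- joint analyticity at a point -/
def An2 (G : ℂ → ℂ → ℂ) (t w : ℂ) : Prop := AnalyticAt ℂ (fun p : ℂ × ℂ => G p.1 p.2) (t, w)

/-- Taylor coefficients along the diagonal: `G(t, t + z) = ∑ gm G m t z^m` -/
def gm (G : ℂ → ℂ → ℂ) (m : ℕ) (t : ℂ) : ℂ := iteratedDeriv m (G t) t / (m.factorial : ℂ)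

/-- the length of an integer polynomial -/
def len (p : Polynomial ℤ) : ℝ := ∑ i ∈ p.support, |((p.coeff i : ℤ) : ℝ)|

/-- the length of an integer polynomial in several variables -/
def mlen {σ : Type*} (p : MvPolynomial σ ℤ) : ℝ := ∑ m ∈ p.support, |((p.coeff m : ℤ) : ℝ)|

/-- bounds for the two partial degrees and the length -/
structure Bd {r s : ℕ} (D l : ℕ) (H : ℝ) (p : MvPolynomial (Fin r ⊕ Fin s) ℤ) : Prop where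
  dA : ∀ m ∈ p.support, ∑ i, m (Sum.inl i) ≤ D
  dB : ∀ m ∈ p.support, ∑ j, m (Sum.inr j) ≤ l
  h : mlen p ≤ H

end Pool.Agent.MSP
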