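import Pool.Agent.Lib.MP_f58a57_nt.P.E1b_Dup

/-! # E2: algebraic values at dyadic points (MP_f58a57_nt, pairs) -/

open Complex Filter Topology

noncomputable section

namespace Pool.Agent.MSP

theorem e2_N1_neg (τ t : ℂ) : N1 τ (-t) = N1 τ t := by
  have h : (fun u : ℂ => th τ (-u)) = fun u => -th τ u := by
    funext u; exact th_neg τ u
  have h1 : deriv (fun u : ℂ => th τ (-u)) t = deriv (fun u => -th τ u) t := by rw [h]
  rw [deriv_comp_neg, deriv.fun_neg] at h1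
  unfold N1
  exact neg_injective h1

theorem e2_N1_add_one (τ t : ℂ) : N1 τ (t + 1) = -N1 τ t := by
  have h : (fun u : ℂ => th τ (u + 1)) = fun u => -th τ u := by
    funext u; exact th_add_one τ u
  have h1 : deriv (fun u : ℂ => th τ (u + 1)) t = deriv (fun u => -th τ u) t := by rw [h]
  rw [deriv_comp_add_const, deriv.fun_neg] at h1
  exact h1

theorem e2_d2_neg (τ t : ℂ) : deriv (deriv (th τ)) (-t) = -deriv (deriv (th τ)) t := by
  have h : (fun u : ℂ => N1 τ (-u)) = fun u => N1 τ u := by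
    funext u; exact e2_N1_neg τ u
  have h1 : deriv (fun u : ℂ => N1 τ (-u)) t = deriv (fun u => N1 τ u) t := by rw [h]
  rw [deriv_comp_neg] at h1
  change -deriv (deriv (th τ)) (-t) = deriv (deriv (th τ)) t at h1
  rw [← h1, neg_neg]

theorem e2_d2_add_one (τ t : ℂ) : deriv (deriv (th τ)) (t + 1) = -deriv (deriv (th τ)) t := by
  have h : (fun u : ℂ => N1 τ (u + 1)) = fun u => -N1 τ u := by
    funext u; exact e2_N1_add_one τ u
  have h1 : deriv (fun u : ℂ => N1 τ (u + 1)) t = deriv (fun u => -N1 τ u) t := by rw [h]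
  rw [deriv_comp_add_const, deriv.fun_neg] at h1
  exact h1

theorem e2_wp_neg (τ s t : ℂ) : wp τ s (-t) = wp τ s t := by
  have h1 : deriv (th τ) (-t) = deriv (th τ) t := e2_N1_neg τ t
  simp only [wp, N2, N0, h1, e2_d2_neg, th_neg]
  ring

theorem e2_wp_add_one (τ s t : ℂ) : wp τ s (t + 1) = wp τ s t := by
  have h1 : deriv (th τ) (t + 1) = -deriv (th τ) t := e2_N1_add_one τ t
  simp only [wp, N2, N0, h1, e2_d2_add_one, th_add_one]
  ring

theorem e2_ph_neg (τ t : ℂ) : ph τ (-t) = -ph τ t := by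
  simp only [ph, N0, e2_N1_neg, th_neg, div_neg]

theorem e2_ph_add_one (τ t : ℂ) : ph τ (t + 1) = ph τ t := by
  simp only [ph, N0, e2_N1_add_one, th_add_one, neg_div_neg_eq]

theorem e2_dwp_neg (τ s t : ℂ) : deriv (wp τ s) (-t) = -deriv (wp τ s) t := by
  have h : (fun u : ℂ => wp τ s (-u)) = fun u => wp τ s u := by
    funext u; exact e2_wp_neg τ s u
  have h1 : deriv (fun u : ℂ => wp τ s (-u)) t = deriv (fun u => wp τ s u) t := by rw [h]
  rw [deriv_comp_neg] at h1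
  rw [← h1, neg_neg]

theorem e2_dwp_add_one (τ s t : ℂ) : deriv (wp τ s) (t + 1) = deriv (wp τ s) t := by
  have h : (fun u : ℂ => wp τ s (u + 1)) = fun u => wp τ s u := by
    funext u; exact e2_wp_add_one τ s u
  have h1 : deriv (fun u : ℂ => wp τ s (u + 1)) t = deriv (fun u => wp τ s u) t := by rw [h]
  rw [deriv_comp_add_const] at h1
  exact h1

theorem e2_per (f : ℂ → ℂ) (hf : ∀ t, f (t + 1) = f t) (t : ℂ) (m : ℤ) : f (t + m) = f t := by
  have h : Function.Periodic f 1 := hf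
  have := h.int_mul m t
  simpa using this

/-- values at the half period. PROOF. `wp'` and `ph` are odd and `1`-periodic (from `th_neg`, `th_add_one`), so they vanish at `1/2`. -/
theorem half_values (τ : ℂ) (hτ : 0 < τ.im) : deriv (wp τ (sE τ)) (1 / 2) = 0 ∧ ph τ (1 / 2) = 0 := by
  constructor
  · have h1 := e2_dwp_add_one τ (sE τ) (-(1 / 2))
    rw [e2_dwp_neg] at h1
    have h2 : (-(1 / 2) + 1 : ℂ) = 1 / 2 := by norm_num
    rw [h2] at h1
    linear_combination (1 / 2 : ℂ) * h1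
  · have h1 := e2_ph_add_one τ (-(1 / 2))
    rw [e2_ph_neg] at h1
    have h2 : (-(1 / 2) + 1 : ℂ) = 1 / 2 := by norm_num
    rw [h2] at h1
    linear_combination (1 / 2 : ℂ) * h1

theorem e2_root0 {F E : Type*} [Field F] [Field E] [Algebra F E] (q : Polynomial (algebraicClosure F E))
    (hq : q ≠ 0) (x : E) (hx : Polynomial.aeval x q = 0) : IsAlgebraic F x := by
  have h : IsAlgebraic (algebraicClosure F E) x := ⟨q, hq, hx⟩
  exact h.restrictScalars F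

theorem e2_root (q : Polynomial (algebraicClosure ℚ ℂ)) (hq : q ≠ 0) (x : ℂ)
    (hx : Polynomial.aeval x q = 0) : IsAlgebraic ℚ x := e2_root0 q hq x hx

theorem e2_quartic (a b c d e x : ℂ) (ha : IsAlgebraic ℚ a) (hb : IsAlgebraic ℚ b) (hc : IsAlgebraic ℚ c)
    (hd : IsAlgebraic ℚ d) (he : IsAlgebraic ℚ e) (h0 : a ≠ 0)
    (h : a * x ^ 4 + b * x ^ 3 + c * x ^ 2 + d * x + e = 0) : IsAlgebraic ℚ x := by
  obtain ⟨a', rfl⟩ : ∃ a' : algebraicClosure ℚ ℂ, (a' : ℂ) = a := ⟨⟨a, mem_algebraicClosure_iff.2 ha⟩, rfl⟩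
  obtain ⟨b', rfl⟩ : ∃ a' : algebraicClosure ℚ ℂ, (a' : ℂ) = b := ⟨⟨b, mem_algebraicClosure_iff.2 hb⟩, rfl⟩
  obtain ⟨c', rfl⟩ : ∃ a' : algebraicClosure ℚ ℂ, (a' : ℂ) = c := ⟨⟨c, mem_algebraicClosure_iff.2 hc⟩, rfl⟩
  obtain ⟨d', rfl⟩ : ∃ a' : algebraicClosure ℚ ℂ, (a' : ℂ) = d := ⟨⟨d, mem_algebraicClosure_iff.2 hd⟩, rfl⟩
  obtain ⟨e', rfl⟩ : ∃ a' : algebraicClosure ℚ ℂ, (a' : ℂ) = e := ⟨⟨e, mem_algebraicClosure_iff.2 he⟩, rfl⟩
  refine e2_root (Polynomial.C a' * Polynomial.X ^ 4 + Polynomial.C b' * Polynomial.X ^ 3 +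
    Polynomial.C c' * Polynomial.X ^ 2 + Polynomial.C d' * Polynomial.X + Polynomial.C e') ?_ x ?_
  · intro h1
    have h2 := congrArg (fun p => Polynomial.coeff p 4) h1
    simp at h2
    apply h0
    rw [h2]; rfl
  · simp only [map_add, map_mul, map_pow, Polynomial.aeval_C, Polynomial.aeval_X]
    exact h

theorem e2_cubic (b c d e x : ℂ) (hb : IsAlgebraic ℚ b) (hc : IsAlgebraic ℚ c)
    (hd : IsAlgebraic ℚ d) (he : IsAlgebraic ℚ e) (h0 : b ≠ 0)
    (h : b * x ^ 3 + c * x ^ 2 + d * x + e = 0) : IsAlgebraic ℚ x := by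
  refine e2_quartic b c d e 0 x hb hc hd he isAlgebraic_zero h0 ?_
  linear_combination x * h

theorem e2_sqrt (a x : ℂ) (ha : IsAlgebraic ℚ a) (h : x ^ 2 = a) : IsAlgebraic ℚ x := by
  refine e2_quartic 1 0 (-a) 0 0 x isAlgebraic_one isAlgebraic_zero ha.neg isAlgebraic_zero isAlgebraic_zero
    one_ne_zero ?_
  linear_combination x ^ 2 * h

/-- E2. PROOF. Induction on `k`. Put `G₂ = (4/3) e4/Ω⁴`, `G₃ = (8/27) e6/Ω⁶` (algebraic), `x = wp/(πΩ)²`, `y = wp'/(πΩ)³`, `f = ph/(πΩ)` at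
`t = a/2^k`; `y² = 4x³ - G₂ x - G₃` (T8c), `wp''/(πΩ)⁴ = 6x² - G₂/2` (T8d). `k = 0` is excluded (`a/1` integer). If `2t` is an integer,
reduce to `t = 1/2` by `1`-periodicity: `y = f = 0` and `4x³ - G₂x - G₃ = 0`, so `x` is algebraic. Otherwise `X = wp(2t)/(πΩ)²` and `F = ph(2t)/(πΩ)` are
algebraic by induction (`2t = a/2^{k-1}`), `X = -2x + ((6x² - G₂/2)/(2y))²` gives `4(X + 2x)(4x³ - G₂x - G₃) = (6x² - G₂/2)²`, a polynomial equation of
degree 4 for `x` with leading coefficient `36 - 32 = 4` over the field of algebraic numbers, so `x` is algebraic; `y` is a square root; and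
`F = 2f + (6x² - G₂/2)/(2y)`. (`IsAlgebraic`: work in `algebraicClosure ℚ ℂ`/`integralClosure`, closed under roots.) -/
theorem dyadic_alg (τ Ω : ℂ) (hτ : 0 < τ.im) (hΩ : Ω ≠ 0) (h4 : IsAlgebraic ℚ (MSD.e4 τ / Ω ^ 4))
    (h6 : IsAlgebraic ℚ (MSD.e6 τ / Ω ^ 6)) (k : ℕ) (a : ℤ) (ha : ¬ ((2 : ℤ) ^ k ∣ a)) :
    IsAlgebraic ℚ (wp τ (sE τ) ((a : ℂ) / 2 ^ k) / (Real.pi * Ω) ^ 2) ∧
    IsAlgebraic ℚ (deriv (wp τ (sE τ)) ((a : ℂ) / 2 ^ k) / (Real.pi * Ω) ^ 3) ∧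
    IsAlgebraic ℚ (ph τ ((a : ℂ) / 2 ^ k) / (Real.pi * Ω)) := by
  have hπ : (Real.pi : ℂ) ≠ 0 := by exact_mod_cast Real.pi_ne_zero
  -- notation
  obtain ⟨g, hg⟩ : ∃ g, g = MSD.e4 τ / Ω ^ 4 := ⟨_, rfl⟩
  obtain ⟨h, hh⟩ : ∃ h, h = MSD.e6 τ / Ω ^ 6 := ⟨_, rfl⟩
  rw [← hg] at h4
  rw [← hh] at h6
  have hg' : MSD.e4 τ = g * Ω ^ 4 := by rw [hg]; field_simp
  have hh' : MSD.e6 τ = h * Ω ^ 6 := by rw [hh]; field_simp
  have hn : ∀ n : ℕ, IsAlgebraic ℚ (n : ℂ) := fun n => isAlgebraic_natCast n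
  have hn2 : IsAlgebraic ℚ (2 : ℂ) := by exact_mod_cast hn 2
  have hn3 : IsAlgebraic ℚ (3 : ℂ) := by exact_mod_cast hn 3
  have hn4 : IsAlgebraic ℚ (4 : ℂ) := by exact_mod_cast hn 4
  have hn6 : IsAlgebraic ℚ (6 : ℂ) := by exact_mod_cast hn 6
  have hn8 : IsAlgebraic ℚ (8 : ℂ) := by exact_mod_cast hn 8
  have hn16 : IsAlgebraic ℚ (16 : ℂ) := by exact_mod_cast hn 16
  have hn27 : IsAlgebraic ℚ (27 : ℂ) := by exact_mod_cast hn 27
  have hG2 : IsAlgebraic ℚ (4 / 3 * g) := ((hn4.mul hn3.inv).mul h4)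
  have hG3 : IsAlgebraic ℚ (8 / 27 * h) := ((hn8.mul hn27.inv).mul h6)
  have hode : ∀ t : ℂ, th τ t ≠ 0 →
      (deriv (wp τ (sE τ)) t / (Real.pi * Ω) ^ 3) ^ 2 = 4 * (wp τ (sE τ) t / (Real.pi * Ω) ^ 2) ^ 3 -
        (4 / 3 * g) * (wp τ (sE τ) t / (Real.pi * Ω) ^ 2) - 8 / 27 * h := by
    intro t ht
    have h1 := wp_ode τ hτ t ht
    rw [hg', hh'] at h1
    rw [div_pow, h1]
    field_simp
  induction k generalizing a with
  | zero => exact absurd (by simp) ha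
  | succ k ih =>
    by_cases hk : (2 : ℤ) ^ k ∣ a
    · obtain ⟨b, rfl⟩ := hk
      have hb : ¬ (2 : ℤ) ∣ b := by
        intro hb
        apply ha
        rw [pow_succ]
        exact mul_dvd_mul_left _ hb
      obtain ⟨c, rfl⟩ : ∃ c : ℤ, b = 2 * c + 1 := by
        rcases Int.even_or_odd b with hb' | hb'
        · exact absurd hb'.two_dvd hb
        · exact hb'
      have ht : ((((2 : ℤ) ^ k * (2 * c + 1) : ℤ) : ℂ)) / 2 ^ (k + 1) = 1 / 2 + (c : ℤ) := by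
        push_cast
        rw [pow_succ]
        field_simp
        ring
      rw [ht, e2_per _ (e2_wp_add_one τ (sE τ)), e2_per _ (e2_dwp_add_one τ (sE τ)), e2_per _ (e2_ph_add_one τ)]
      obtain ⟨hv1, hv2⟩ := half_values τ hτ
      have hth : th τ (1 / 2) ≠ 0 := by
        have := th_real_ne τ hτ (1 / 2) (by
          intro m hm
          have h2 : (1 : ℝ) = ((2 * m : ℤ) : ℝ) := by push_cast; linarith
          have h3 : (1 : ℤ) = 2 * m := by exact_mod_cast h2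
          omega)
        simpa using this
      have h1 := hode (1 / 2) hth
      rw [hv1, hv2]
      refine ⟨?_, by simpa using isAlgebraic_zero, by simpa using isAlgebraic_zero⟩
      rw [hv1] at h1
      refine e2_cubic 4 0 (-(4 / 3 * g)) (-(8 / 27 * h)) _ hn4 isAlgebraic_zero hG2.neg hG3.neg (by norm_num) ?_
      linear_combination -h1
    · obtain ⟨hX, -, hF⟩ := ih a hk
      have h2t : 2 * ((a : ℂ) / 2 ^ (k + 1)) = (a : ℂ) / 2 ^ k := by
        rw [pow_succ]; field_simp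
      obtain ⟨t, ht⟩ : ∃ t : ℂ, t = (a : ℂ) / 2 ^ (k + 1) := ⟨_, rfl⟩
      rw [← ht] at h2t ⊢
      rw [← h2t] at hX hF
      have hth2 : th τ (2 * t) ≠ 0 := by
        rw [h2t]
        have := th_real_ne τ hτ ((a : ℝ) / 2 ^ k) (by
          intro m hm
          apply hk
          refine ⟨m, ?_⟩
          have h3 : (a : ℝ) = 2 ^ k * m := by
            rw [← hm]; field_simp
          exact_mod_cast h3)
        have h4' : (((a : ℝ) / 2 ^ k : ℝ) : ℂ) = (a : ℂ) / 2 ^ k := by push_cast; rfl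
        rw [h4'] at this
        exact this
      have hth1 : th τ t ≠ 0 := th_ne_of_double τ hτ t hth2
      have hy0 : deriv (wp τ (sE τ)) t ≠ 0 := wp'_ne τ hτ t hth2
      have h1 := hode t hth1
      have hd2 : deriv (deriv (wp τ (sE τ))) t = 6 * wp τ (sE τ) t ^ 2 - 2 / 3 * Real.pi ^ 4 * MSD.e4 τ :=
        (wp_ode2 τ hτ t hth1).deriv
      have hwd := wp_double τ hτ t hth2
      have hpd := ph_double τ hτ t hth2
      rw [hd2, hg'] at hwd hpd
      -- normalised values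
      obtain ⟨x, hx⟩ : ∃ x, x = wp τ (sE τ) t / (Real.pi * Ω) ^ 2 := ⟨_, rfl⟩
      obtain ⟨y, hy⟩ : ∃ y, y = deriv (wp τ (sE τ)) t / (Real.pi * Ω) ^ 3 := ⟨_, rfl⟩
      obtain ⟨f, hf⟩ : ∃ f, f = ph τ t / (Real.pi * Ω) := ⟨_, rfl⟩
      obtain ⟨X, hX'⟩ : ∃ X, X = wp τ (sE τ) (2 * t) / (Real.pi * Ω) ^ 2 := ⟨_, rfl⟩
      obtain ⟨F, hF'⟩ : ∃ F, F = ph τ (2 * t) / (Real.pi * Ω) := ⟨_, rfl⟩
      rw [← hX'] at hX
      rw [← hF'] at hF
      have hxe : wp τ (sE τ) t = x * (Real.pi * Ω) ^ 2 := by rw [hx]; field_simp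
      have hye : deriv (wp τ (sE τ)) t = y * (Real.pi * Ω) ^ 3 := by rw [hy]; field_simp
      have hfe : ph τ t = f * (Real.pi * Ω) := by rw [hf]; field_simp
      have hXe : wp τ (sE τ) (2 * t) = X * (Real.pi * Ω) ^ 2 := by rw [hX']; field_simp
      have hFe : ph τ (2 * t) = F * (Real.pi * Ω) := by rw [hF']; field_simp
      have hy0' : y ≠ 0 := by
        intro h0
        apply hy0
        rw [hye, h0, zero_mul]
      rw [← hx, ← hy] at h1
      rw [hXe, hxe, hye] at hwd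
      rw [hFe, hfe, hxe, hye] at hpd
      have hP : ((Real.pi : ℂ) * Ω) ≠ 0 := mul_ne_zero hπ hΩ
      have e1 : X = -2 * x + ((6 * x ^ 2 - 2 / 3 * g) / (2 * y)) ^ 2 := by
        have e0 : X * (Real.pi * Ω) ^ 2 = (-2 * x + ((6 * x ^ 2 - 2 / 3 * g) / (2 * y)) ^ 2) * (Real.pi * Ω) ^ 2 := by
          rw [hwd]
          field_simp
        exact mul_right_cancel₀ (pow_ne_zero 2 hP) e0
      have e2 : F = 2 * f + (6 * x ^ 2 - 2 / 3 * g) / (2 * y) := by
        have e0 : F * (Real.pi * Ω) = (2 * f + (6 * x ^ 2 - 2 / 3 * g) / (2 * y)) * (Real.pi * Ω) := by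
          rw [hpd]
          field_simp
        exact mul_right_cancel₀ hP e0
      have e3 : 4 * (X + 2 * x) * y ^ 2 = (6 * x ^ 2 - 2 / 3 * g) ^ 2 := by
        rw [e1]
        field_simp
        ring
      rw [h1] at e3
      have hxa : IsAlgebraic ℚ x := by
        refine e2_quartic (-4) (16 * X) (-2 * (4 / 3 * g)) (-(4 * X * (4 / 3 * g) + 8 * (8 / 27 * h)))
          (-(4 * X * (8 / 27 * h) + (2 / 3 * g) ^ 2)) x hn4.neg (hn16.mul hX) (hn2.neg.mul hG2)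
          (((hn4.mul hX).mul hG2).add (hn8.mul hG3)).neg
          (((hn4.mul hX).mul hG3).add (((hn2.mul hn3.inv).mul h4).pow 2)).neg (by norm_num) ?_
        linear_combination e3
      have hya : IsAlgebraic ℚ y := by
        refine e2_sqrt _ y ?_ h1
        exact ((hn4.mul (hxa.pow 3)).sub (hG2.mul hxa)).sub hG3
      have hfa : IsAlgebraic ℚ f := by
        have e4 : f = (F - (6 * x ^ 2 - 2 / 3 * g) / (2 * y)) / 2 := by
          rw [e2]; ring
        rw [e4]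
        refine IsAlgebraic.mul (hF.sub ?_) hn2.inv
        exact (((hn6.mul (hxa.pow 2)).sub ((hn2.mul hn3.inv).mul h4)).mul (hn2.mul hya).inv)
      rw [← hx, ← hy, ← hf]
      exact ⟨hxa, hya, hfa⟩

end Pool.Agent.MSP
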