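import Pool.Agent.Lib.MP_f58a57_nt.P.Z6_Zero

/-! # H1b: existence of the sample points (MP_f58a57_nt, pairs) -/

open Complex Filter Topology

noncomputable section

namespace Pool.Agent.MSP

/-- a ceiling hits an interval -/
theorem h1b_ceil (x w : ℝ) (k d : ℕ) (hk : k ≤ d) (hd : (d : ℝ) + 1 ≤ w) :
    x ≤ ((⌈x⌉ + k : ℤ) : ℝ) ∧ ((⌈x⌉ + k : ℤ) : ℝ) ≤ x + w := by
  have h1 := Int.le_ceil x
  have h2 := Int.ceil_lt_add_one x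
  have hk' : (k : ℝ) ≤ d := by exact_mod_cast hk
  have hk0 : (0 : ℝ) ≤ k := Nat.cast_nonneg k
  push_cast
  constructor <;> linarith

/-- H1b. PROOF. Put `ν = τ₁.im/τ₂.im`, `y₂ = τ₂.im`, `β = b₂ - ν b₁`. With `n₁ = j b₁ + h a₂`, `n₂ = j b₂ - h a₁`: `n₂ - ν n₁ = jβ - hε`, and
(from `a₁b₁ + a₂b₂ = 1`) `ε b₁ + a₂ β = 1`, so `n₁ = j/ε + a₂ (h - jβ/ε)`. Take `h₀ j = ⌈jβ/ε - R₀/(2y₂ε)⌉`; for `0 ≤ i ≤ d₂` the integer `h = h₀ j + i`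
satisfies `|h - jβ/ε| ≤ R₀/(2y₂ε)` (as `d₂ + 1 ≤ R₀/(y₂ε)`), so `|Im(n₂τ₂ - n₁τ₁)| = y₂|jβ - hε| ≤ R₀/2` and
`|n₁| ≤ j/ε + |a₂|R₀/(2y₂ε) ≤ X/2 + X/2`. Take `m₀ j i = ⌈-R₀/2 - Re(n₂τ₂ - n₁τ₁)⌉`; for `0 ≤ k ≤ d₁`, `|Re(n₂τ₂ - n₁τ₁) + m₀ + k| ≤ R₀/2`. Finally
`‖v‖ ≤ |Re v| + |Im v|`. -/
theorem nodes_exist (τ₁ τ₂ : ℂ) (h2 : 0 < τ₂.im) (P : Pr) (hdet : P.a₁ * P.b₁ + P.a₂ * P.b₂ = 1)
    (ε X R₀ : ℝ) (hε : ε = P.a₁ + P.a₂ * (τ₁.im / τ₂.im)) (hε0 : 0 < ε) (hX : 0 < X) (hR : 0 < R₀)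
    (hd₃ : (P.d₃ : ℝ) ≤ ε * X / 2) (hd₂ : ((P.d₂ : ℝ) + 1) * (τ₂.im * ε) ≤ R₀) (hd₁ : (P.d₁ : ℝ) + 1 ≤ R₀)
    (ha : |(P.a₂ : ℝ)| * R₀ ≤ τ₂.im * ε * X) : ∃ (h₀ : ℕ → ℤ) (m₀ : ℕ → ℕ → ℤ), Nodes τ₁ τ₂ P X R₀ h₀ m₀ := by
  set y₂ := τ₂.im with hy₂
  set ν : ℝ := τ₁.im / y₂ with hν
  have hν' : τ₁.im = ν * y₂ := by rw [hν]; field_simp
  set β : ℝ := P.b₂ - ν * P.b₁ with hβ
  have hdet' : (P.a₁ : ℝ) * P.b₁ + P.a₂ * P.b₂ = 1 := by exact_mod_cast hdet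
  have hrel : ε * P.b₁ + P.a₂ * β = 1 := by rw [hε, hβ]; linear_combination hdet'
  have hyε : 0 < y₂ * ε := mul_pos h2 hε0
  set h₀ : ℕ → ℤ := fun j => ⌈(j * β - R₀ / (2 * y₂)) / ε⌉ with hh₀
  set re : ℕ → ℕ → ℝ := fun j i => ((j * P.b₂ - (h₀ j + i) * P.a₁ : ℤ) : ℝ) * τ₂.re -
    ((j * P.b₁ + (h₀ j + i) * P.a₂ : ℤ) : ℝ) * τ₁.re with hre
  refine ⟨h₀, fun j i => ⌈-R₀ / 2 - re j i⌉, ?_⟩
  intro j hj i hi k hk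
  have hj' : (j : ℝ) ≤ P.d₃ := by exact_mod_cast hj
  set h : ℤ := h₀ j + i with hh
  have hceil := h1b_ceil ((j * β - R₀ / (2 * y₂)) / ε) (R₀ / (y₂ * ε)) i P.d₂ hi
    (by rw [le_div_iff₀ hyε]; exact hd₂)
  have hh' : (⌈(j * β - R₀ / (2 * y₂)) / ε⌉ + (i : ℤ) : ℤ) = h := rfl
  rw [hh'] at hceil
  obtain ⟨hc1, hc2⟩ := hceil
  have hb1 : j * β - R₀ / (2 * y₂) ≤ h * ε := by
    rw [div_le_iff₀ hε0] at hc1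
    exact hc1
  have hb2 : h * ε ≤ j * β + R₀ / (2 * y₂) := by
    have h3 := mul_le_mul_of_nonneg_right hc2 hε0.le
    have e1 : ((j * β - R₀ / (2 * y₂)) / ε + R₀ / (y₂ * ε)) * ε = j * β + R₀ / (2 * y₂) := by
      field_simp
      ring
    linarith
  have habs : |j * β - h * ε| ≤ R₀ / (2 * y₂) := by
    rw [abs_le]
    constructor <;> linarith
  set n₁ : ℤ := j * P.b₁ + h * P.a₂ with hn₁
  set n₂ : ℤ := j * P.b₂ - h * P.a₁ with hn₂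
  have e1 : (n₁ : ℝ) = j / ε - P.a₂ * (j * β - h * ε) / ε := by
    rw [hn₁]
    push_cast
    field_simp
    linear_combination (j : ℝ) * hrel
  have e2 : (n₂ : ℝ) - ν * n₁ = j * β - h * ε := by
    rw [hn₁, hn₂, hβ, hε]
    push_cast
    ring
  constructor
  · show |(n₁ : ℝ)| ≤ X
    have h3 : |(P.a₂ : ℝ) * (j * β - h * ε) / ε| ≤ X / 2 := by
      rw [abs_div, abs_mul, abs_of_pos hε0, div_le_iff₀ hε0]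
      calc |(P.a₂ : ℝ)| * |j * β - h * ε| ≤ |(P.a₂ : ℝ)| * (R₀ / (2 * y₂)) :=
            mul_le_mul_of_nonneg_left habs (abs_nonneg _)
        _ = (|(P.a₂ : ℝ)| * R₀) / (2 * y₂) := by ring
        _ ≤ (y₂ * ε * X) / (2 * y₂) := by gcongr
        _ = X / 2 * ε := by field_simp
    have h4 : |(j : ℝ) / ε| ≤ X / 2 := by
      rw [abs_div, abs_of_pos hε0, div_le_iff₀ hε0, abs_of_nonneg (Nat.cast_nonneg j)]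
      linarith
    rw [e1]
    calc |(j : ℝ) / ε - P.a₂ * (j * β - h * ε) / ε| ≤ |(j : ℝ) / ε| + |(P.a₂ : ℝ) * (j * β - h * ε) / ε| := abs_sub _ _
      _ ≤ X / 2 + X / 2 := add_le_add h4 h3
      _ = X := by ring
  · show ‖(n₂ : ℂ) * τ₂ - (n₁ : ℂ) * τ₁ + ((⌈-R₀ / 2 - re j i⌉ + k : ℤ) : ℂ)‖ ≤ R₀
    have hrej : re j i = (n₂ : ℝ) * τ₂.re - (n₁ : ℝ) * τ₁.re := rfl
    obtain ⟨hm1, hm2⟩ := h1b_ceil (-R₀ / 2 - re j i) R₀ k P.d₁ hk hd₁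
    refine (Complex.norm_le_abs_re_add_abs_im _).trans ?_
    have hre' : ((n₂ : ℂ) * τ₂ - (n₁ : ℂ) * τ₁ + ((⌈-R₀ / 2 - re j i⌉ + k : ℤ) : ℂ)).re =
        re j i + ((⌈-R₀ / 2 - re j i⌉ + k : ℤ) : ℝ) := by
      rw [hrej]
      simp
    have him' : ((n₂ : ℂ) * τ₂ - (n₁ : ℂ) * τ₁ + ((⌈-R₀ / 2 - re j i⌉ + k : ℤ) : ℂ)).im =
        y₂ * (j * β - h * ε) := by
      have : ((n₂ : ℂ) * τ₂ - (n₁ : ℂ) * τ₁ + ((⌈-R₀ / 2 - re j i⌉ + k : ℤ) : ℂ)).im =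
          (n₂ : ℝ) * τ₂.im - (n₁ : ℝ) * τ₁.im := by
        simp
      rw [this, hν', ← e2, ← hy₂]
      ring
    rw [hre', him']
    have h5 : |re j i + ((⌈-R₀ / 2 - re j i⌉ + k : ℤ) : ℝ)| ≤ R₀ / 2 := by
      rw [abs_le]
      constructor <;> linarith
    have h6 : |y₂ * (j * β - h * ε)| ≤ R₀ / 2 := by
      rw [abs_mul, abs_of_pos h2]
      calc y₂ * |j * β - h * ε| ≤ y₂ * (R₀ / (2 * y₂)) := mul_le_mul_of_nonneg_left habs h2.le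
        _ = R₀ / 2 := by field_simp
    linarith

end Pool.Agent.MSP
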