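import Pool.Agent.Lib.MP_f58a57_nt.P.M1_Strip

/-! # M2: Schwarz lemma in a strip (MP_f58a57_nt, pairs) -/

open Complex Filter Topology

noncomputable section

namespace Pool.Agent.MSP

/-- the sine factor -/
def m2s (a : ℝ) (t : ℂ) : ℂ := Complex.sin (Real.pi * (t - a))

theorem m2_diff (a : ℝ) : Differentiable ℂ (m2s a) := by
  intro t; unfold m2s; fun_prop

theorem m2_order_one (a : ℝ) (k : ℤ) : analyticOrderAt (m2s a) ((a : ℂ) + k) = 1 := by
  have hzero : m2s a ((a : ℂ) + k) = 0 := by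
    unfold m2s
    rw [add_sub_cancel_left, mul_comm]
    exact Complex.sin_int_mul_pi k
  have hderiv : deriv (m2s a) ((a : ℂ) + k) ≠ 0 := by
    intro hd
    have hd' : (Real.pi : ℂ) * Complex.cos (Real.pi * (((a : ℂ) + k) - a)) = 0 := by
      rw [← m1_deriv_sin a]; exact hd
    have hpi : (Real.pi : ℂ) ≠ 0 := by exact_mod_cast Real.pi_ne_zero
    have hcos := (mul_eq_zero.1 hd').resolve_left hpi
    have hsin : Complex.sin (Real.pi * (((a : ℂ) + k) - a)) = 0 := hzero
    have := Complex.sin_sq_add_cos_sq (Real.pi * (((a : ℂ) + k) - a))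
    rw [hsin, hcos] at this
    norm_num at this
  exact AnalyticAt.analyticOrderAt_eq_one_of_zero_deriv_ne_zero
    ((m2_diff a).analyticAt _) hzero hderiv

theorem m2_ne_zero (a b : ℝ) (hab : ∀ k : ℤ, b - a ≠ k) (k : ℤ) : m2s a ((b : ℂ) + k) ≠ 0 := by
  intro h
  obtain ⟨m, hm⟩ := m1_sin_zero a _ h
  apply hab (m - k)
  have h2 := congrArg Complex.re hm
  simp at h2
  push_cast
  linarith

/-- division by a power of the sine -/
theorem m2_div_pow (a : ℝ) (n : ℕ) (g : ℂ → ℂ) (hg : Differentiable ℂ g)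
    (hord : ∀ k : ℤ, (n : ℕ∞) ≤ analyticOrderAt g ((a : ℂ) + k)) :
    ∃ h : ℂ → ℂ, Differentiable ℂ h ∧ ∀ t, g t = m2s a t ^ n * h t := by
  induction n generalizing g with
  | zero => exact ⟨g, hg, fun t => by simp⟩
  | succ n ih =>
    have hz : ∀ k : ℤ, g (a + k) = 0 := by
      intro k
      apply apply_eq_zero_of_analyticOrderAt_ne_zero
      intro h0
      have := hord k
      rw [h0] at this
      simp at this
    obtain ⟨h₁, hh₁, hgh⟩ := div_sin g hg a hz
    have hgh' : g = m2s a * h₁ := by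
      funext t; exact hgh t
    have hord₁ : ∀ k : ℤ, (n : ℕ∞) ≤ analyticOrderAt h₁ ((a : ℂ) + k) := by
      intro k
      have h1 := hord k
      rw [hgh', analyticOrderAt_mul ((m2_diff a).analyticAt _) (hh₁.analyticAt _),
        m2_order_one a k, Nat.cast_succ, add_comm (1 : ℕ∞)] at h1
      exact (ENat.add_le_add_iff_right (by simp)).1 h1
    obtain ⟨h, hh, hhh⟩ := ih h₁ hh₁ hord₁
    refine ⟨h, hh, fun t => ?_⟩
    rw [hgh t, hhh t, pow_succ]
    change m2s a t * _ = _
    ring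

theorem m2_finset (q S : ℕ) (pts : Fin q → ℝ) (hpts : ∀ i j, i ≠ j → ∀ k : ℤ, pts i - pts j ≠ k)
    (g : ℂ → ℂ) (hg : Differentiable ℂ g)
    (hord : ∀ j (k : ℤ), (S : ℕ∞) ≤ analyticOrderAt g ((pts j : ℂ) + k)) (s : Finset (Fin q)) :
    ∃ h : ℂ → ℂ, Differentiable ℂ h ∧ (∀ t, g t = (∏ j ∈ s, m2s (pts j) t ^ S) * h t) ∧
      ∀ j, j ∉ s → ∀ k : ℤ, (S : ℕ∞) ≤ analyticOrderAt h ((pts j : ℂ) + k) := by
  induction s using Finset.induction_on with
  | empty => exact ⟨g, hg, fun t => by simp, fun j _ k => hord j k⟩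
  | insert j s hj ih =>
    obtain ⟨h, hh, hgh, hoh⟩ := ih
    obtain ⟨h', hh', hhh'⟩ := m2_div_pow (pts j) S h hh (hoh j hj)
    refine ⟨h', hh', fun t => ?_, fun i hi k => ?_⟩
    · rw [hgh t, hhh' t, Finset.prod_insert hj]
      ring
    · have hij : i ≠ j := fun h => hi (by rw [h]; exact Finset.mem_insert_self _ _)
      have his : i ∉ s := fun h => hi (Finset.mem_insert_of_mem h)
      have h1 := hoh i his k
      have hh'' : h = m2s (pts j) ^ S * h' := by
        funext t; exact hhh' t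
      have h0 : analyticOrderAt (m2s (pts j)) ((pts i : ℂ) + k) = 0 :=
        ((m2_diff (pts j)).analyticAt _).analyticOrderAt_eq_zero.2
          (m2_ne_zero (pts j) (pts i) (hpts i j hij) k)
      rw [hh'', analyticOrderAt_mul (((m2_diff (pts j)).analyticAt _).pow S) (hh'.analyticAt _),
        analyticOrderAt_pow ((m2_diff (pts j)).analyticAt _), h0, smul_zero, zero_add] at h1
      exact h1

theorem m2_order_shift (g : ℂ → ℂ) (hper : ∀ t, g (t + 1) = g t) (z : ℂ) (k : ℤ)
    (hg : Differentiable ℂ g) :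
    analyticOrderAt g (z + k) = analyticOrderAt g z := by
  have hperk : ∀ t, g (t + k) = g t := by
    have hp : Function.Periodic g 1 := hper
    intro t
    have := (hp.int_mul k) t
    simpa using this
  have h1 : analyticOrderAt (g ∘ fun t => t + (k : ℂ)) z = analyticOrderAt g (z + k) := by
    have hd : deriv (fun t : ℂ => t + (k : ℂ)) z ≠ 0 := by
      simp
    exact analyticOrderAt_comp_of_deriv_ne_zero (g := fun t : ℂ => t + (k : ℂ)) (by fun_prop) hd
  rw [← h1]
  congr 1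
  funext t
  exact hperk t

theorem m2_norm_shift (a : ℝ) (t : ℂ) : ‖m2s a (t + 1)‖ = ‖m2s a t‖ := by
  unfold m2s
  have : (Real.pi : ℂ) * (t + 1 - a) = Real.pi * (t - a) + Real.pi := by ring
  rw [this, Complex.sin_add_pi, norm_neg]

theorem m2_im_ne_zero (a : ℝ) (t : ℂ) (ht : t.im ≠ 0) : m2s a t ≠ 0 := by
  intro h
  obtain ⟨k, hk⟩ := m1_sin_zero a t h
  apply ht
  rw [hk]
  simp

/-- M2a. PROOF. Induction on `S` and on the number of points with `div_sin`: if `g = sin(π(·-a)) h` then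
`analyticOrderAt g z = analyticOrderAt (sin(π(·-a))) z + analyticOrderAt h z` (`analyticOrderAt_mul`), where the order of the sine is `1` at
`a + ℤ` and `0` elsewhere; and `‖h (t+1)‖ = ‖h t‖` (where the sine is `≠ 0`, then by continuity/density). A convenient form of the induction: on a list of
points (with repetitions), i.e. for a function `e : points → ℕ` of required orders. -/
theorem div_sin_pow (q S : ℕ) (pts : Fin q → ℝ) (hpts : ∀ i j, i ≠ j → ∀ k : ℤ, pts i - pts j ≠ k) (g : ℂ → ℂ)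
    (hg : Differentiable ℂ g) (hper : ∀ t, g (t + 1) = g t)
    (hord : ∀ j, (S : ℕ∞) ≤ analyticOrderAt g (pts j : ℂ)) :
    ∃ h : ℂ → ℂ, Differentiable ℂ h ∧ (∀ t, ‖h (t + 1)‖ = ‖h t‖) ∧
      ∀ t, g t = (∏ j, Complex.sin (Real.pi * (t - pts j)) ^ S) * h t := by
  obtain ⟨h, hh, hgh, -⟩ := m2_finset q S pts hpts g hg
    (fun j k => by rw [m2_order_shift g hper _ k hg]; exact hord j) Finset.univ
  refine ⟨h, hh, ?_, hgh⟩
  have hdense : Dense {t : ℂ | t.im ≠ 0} := by
    have h1 : Dense ({0}ᶜ : Set ℝ) := dense_compl_singleton (0 : ℝ)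
    exact h1.preimage Complex.isOpenMap_im
  have hcont1 : Continuous fun t => ‖h (t + 1)‖ :=
    (hh.continuous.comp (continuous_id.add continuous_const)).norm
  have hcont2 : Continuous fun t => ‖h t‖ := hh.continuous.norm
  have heq := hcont1.ext_on hdense hcont2 (fun t ht => by
    have hPr : (∏ j, m2s (pts j) t ^ S) ≠ 0 :=
      Finset.prod_ne_zero_iff.2 fun j _ => pow_ne_zero _ (m2_im_ne_zero _ _ ht)
    have hnorm : ‖∏ j, m2s (pts j) (t + 1) ^ S‖ = ‖∏ j, m2s (pts j) t ^ S‖ := by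
      rw [norm_prod, norm_prod]
      refine Finset.prod_congr rfl fun j _ => ?_
      rw [norm_pow, norm_pow, m2_norm_shift]
    have e1 := hgh (t + 1)
    rw [hper t, hgh t] at e1
    have e2 := congrArg norm e1
    rw [norm_mul, norm_mul, hnorm] at e2
    exact (mul_left_cancel₀ (norm_ne_zero_iff.2 hPr) e2).symm)
  exact fun t => congrFun heq t

/-- M2b. PROOF. On `|Im t| = R`: `|h| ≤ B e^{-2RqS}`; by `strip_max` also for `|Im t| ≤ R`; multiply by `|sin|^{qS} ≤ e^{π|Im t|qS}`. -/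
theorem schwarz (q S : ℕ) (pts : Fin q → ℝ) (hpts : ∀ i j, i ≠ j → ∀ k : ℤ, pts i - pts j ≠ k) (g : ℂ → ℂ)
    (hg : Differentiable ℂ g) (hper : ∀ t, g (t + 1) = g t)
    (hord : ∀ j, (S : ℕ∞) ≤ analyticOrderAt g (pts j : ℂ)) (R B : ℝ) (hR : 1 ≤ R)
    (hB : ∀ t : ℂ, |t.im| = R → ‖g t‖ ≤ B) (t : ℂ) (ht : |t.im| ≤ R) :
    ‖g t‖ ≤ B * Real.exp (-((2 * R - Real.pi * |t.im|) * (q * S))) := by
  obtain ⟨h, hh, hhper, hgh⟩ := div_sin_pow q S pts hpts g hg hper hord
  have hlow : ∀ t : ℂ, |t.im| = R →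
      Real.exp (2 * R * (q * S)) ≤ ‖∏ j, Complex.sin (Real.pi * (t - pts j)) ^ S‖ := by
    intro t ht
    rw [norm_prod]
    have h1 : Real.exp (2 * R * (q * S)) = ∏ _j : Fin q, Real.exp (2 * R) ^ S := by
      rw [Finset.prod_const, Finset.card_univ, Fintype.card_fin, ← Real.exp_nat_mul,
        ← Real.exp_nat_mul]
      congr 1; ring
    rw [h1]
    refine Finset.prod_le_prod (fun j _ => by positivity) fun j _ => ?_
    rw [norm_pow]
    exact pow_le_pow_left₀ (Real.exp_pos _).le (sin_lower t (pts j) R hR ht) S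
  have hup : ‖∏ j, Complex.sin (Real.pi * (t - pts j)) ^ S‖ ≤
      Real.exp (Real.pi * |t.im| * (q * S)) := by
    rw [norm_prod]
    have h1 : Real.exp (Real.pi * |t.im| * (q * S)) =
        ∏ _j : Fin q, Real.exp (Real.pi * |t.im|) ^ S := by
      rw [Finset.prod_const, Finset.card_univ, Fintype.card_fin, ← Real.exp_nat_mul,
        ← Real.exp_nat_mul]
      congr 1; ring
    rw [h1]
    refine Finset.prod_le_prod (fun j _ => norm_nonneg _) fun j _ => ?_
    rw [norm_pow]
    exact pow_le_pow_left₀ (norm_nonneg _) (sin_upper t (pts j)) S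
  have hB' : ∀ t : ℂ, |t.im| = R → ‖h t‖ ≤ B * Real.exp (-(2 * R * (q * S))) := by
    intro t ht
    have e1 := hB t ht
    rw [hgh t, norm_mul] at e1
    have e2 : Real.exp (2 * R * (q * S)) * ‖h t‖ ≤ B :=
      (mul_le_mul_of_nonneg_right (hlow t ht) (norm_nonneg _)).trans e1
    rw [Real.exp_neg, ← div_eq_mul_inv, le_div_iff₀ (Real.exp_pos _)]
    linarith
  have hmax := strip_max h hh hhper R _ (by linarith) hB' t ht
  rw [hgh t, norm_mul]
  calc ‖∏ j, Complex.sin (Real.pi * (t - pts j)) ^ S‖ * ‖h t‖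
      ≤ Real.exp (Real.pi * |t.im| * (q * S)) * (B * Real.exp (-(2 * R * (q * S)))) :=
        mul_le_mul hup hmax (norm_nonneg _) (Real.exp_pos _).le
    _ = B * (Real.exp (Real.pi * |t.im| * (q * S)) * Real.exp (-(2 * R * (q * S)))) := by ring
    _ = B * Real.exp (-((2 * R - Real.pi * |t.im|) * (q * S))) := by
        rw [← Real.exp_add]; congr 2; ring

end Pool.Agent.MSP
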