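import Pool.Agent.Lib.MP_f58a57_nt.P.H1_Geom
import Pool.Agent.Lib.MP_f58a57_nt.P.H1b_Nodes

/-! # H1c: choice of the parameters (MP_f58a57_nt, pairs) -/

open Complex Filter Topology

noncomputable section

namespace Pool.Agent.MSP

private lemma aux_pa {A E C' K N t : ℝ} (hA : A ≤ C' * N) (hN : N ≤ K * t) (hC' : 0 ≤ C') (t8 : C' * K ≤ t)
    (t0 : 0 ≤ t) (hE : t ≤ E) : A ≤ E ^ 2 := by
  have h1 : C' * N ≤ C' * (K * t) := mul_le_mul_of_nonneg_left hN hC'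
  have h2 : C' * K * t ≤ t * t := mul_le_mul_of_nonneg_right t8 t0
  have h3 : t * t ≤ E * E := mul_self_le_mul_self t0 hE
  rw [← mul_assoc] at h1
  rw [sq]
  exact hA.trans (h1.trans (h2.trans h3))

private lemma aux_cax {A E C C' K N t κ₂ X : ℝ} (hA : A ≤ C' * N) (hN : N ≤ K * t) (hC : 0 ≤ C) (hC' : 0 ≤ C')
    (t9 : C * C' * K * κ₂ ≤ t) (t0 : 0 ≤ t) (hE : t ≤ E) (hX : X = κ₂ * t ^ 6) (hX0 : 0 ≤ X) :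
    C * A * X ≤ E ^ 8 := by
  have h1 : A ≤ C' * (K * t) := hA.trans (mul_le_mul_of_nonneg_left hN hC')
  have h2 : C * A * X ≤ C * (C' * (K * t)) * X :=
    mul_le_mul_of_nonneg_right (mul_le_mul_of_nonneg_left h1 hC) hX0
  have h3 : C * (C' * (K * t)) * X = (C * C' * K * κ₂) * t ^ 7 := by rw [hX]; ring
  have h4 : (C * C' * K * κ₂) * t ^ 7 ≤ t * t ^ 7 := mul_le_mul_of_nonneg_right t9 (pow_nonneg t0 7)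
  have h5 : t * t ^ 7 = t ^ 8 := (pow_succ' t 7).symm
  have h6 : t ^ 8 ≤ E ^ 8 := pow_le_pow_left₀ t0 hE 8
  rw [h3] at h2
  rw [h5] at h4
  exact h2.trans (h4.trans h6)

private lemma aux_w3 {κ₂ η t ε N X : ℝ} (hη : 0 < η) (hε : 0 ≤ ε) (t0 : 0 ≤ t) (hN : 2 * κ₂ * t / η ≤ N)
    (hεN : ε * N ≤ 1) (hX : X = κ₂ * t ^ 6) : ε * X / 2 ≤ η * t ^ 5 / 4 := by
  have h3 : ε * (2 * κ₂ * t / η) ≤ 1 := le_trans (mul_le_mul_of_nonneg_left hN hε) hεN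
  rw [← mul_div_assoc, div_le_one hη] at h3
  have h7 := mul_le_mul_of_nonneg_right h3 (pow_nonneg t0 5)
  have h5 : ε * X / 2 = ε * (2 * κ₂ * t) * t ^ 5 / 4 := by rw [hX]; ring
  rw [h5]
  linarith

private lemma aux_w1 {κ₁ η t R : ℝ} (hη : 0 ≤ η) (t0 : 0 ≤ t) (tsq : t ≤ t ^ 2) (t6 : 4 * κ₁ ≤ t * η)
    (hR : R = κ₁ * t ^ 3) : R ≤ η * t ^ 5 / 4 := by
  have h4 : 4 * κ₁ ≤ t ^ 2 * η := t6.trans (mul_le_mul_of_nonneg_right tsq hη)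
  have h5 := mul_le_mul_of_nonneg_right h4 (pow_nonneg t0 3)
  have h6 : t ^ 2 * η * t ^ 3 = η * t ^ 5 := by ring
  rw [h6] at h5
  rw [hR]
  linarith

private lemma aux_w2 {κ₁ η t R K y c ε N : ℝ} (hη : 0 ≤ η) (t0 : 0 ≤ t) (hK : 0 < K) (hy : 0 ≤ y)
    (hε : 0 ≤ ε) (hεN : c ≤ ε * N) (hN : N ≤ K * t)
    (t5 : 4 * κ₁ * K ≤ t * (y * c * η)) (hR : R = κ₁ * t ^ 3) : R ≤ η * t ^ 5 / 4 * (y * ε) := by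
  have h4 : c ≤ ε * (K * t) := le_trans hεN (mul_le_mul_of_nonneg_left hN hε)
  have h5 : t * (y * c * η) ≤ t * (y * (ε * (K * t)) * η) :=
    mul_le_mul_of_nonneg_left (mul_le_mul_of_nonneg_right (mul_le_mul_of_nonneg_left h4 hy) hη) t0
  have h6 : t * (y * (ε * (K * t)) * η) = t * (y * (ε * t) * η) * K := by ring
  have h7 : 4 * κ₁ ≤ t * (y * (ε * t) * η) := le_of_mul_le_mul_right (by rw [← h6]; exact t5.trans h5) hK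
  have h8 := mul_le_mul_of_nonneg_right h7 (pow_nonneg t0 3)
  have h9 : t * (y * (ε * t) * η) * t ^ 3 = η * t ^ 5 * (y * ε) := by ring
  rw [h9] at h8
  rw [hR]
  linarith

private lemma aux_a2 {κ₁ κ₂ t R K y c ε N X a : ℝ} (hκ₁ : 0 ≤ κ₁) (hκ₂ : 0 ≤ κ₂) (t0 : 0 ≤ t) (hK : 0 < K) (hy : 0 ≤ y)
    (hε : 0 ≤ ε) (hεN : c ≤ ε * N) (hN : N ≤ K * t) (ha : a ≤ N)
    (t7 : K ^ 2 * κ₁ ≤ t * (y * c * κ₂)) (hR : R = κ₁ * t ^ 3) (hX : X = κ₂ * t ^ 6) : a * R ≤ y * ε * X := by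
  have h4 : c ≤ ε * (K * t) := le_trans hεN (mul_le_mul_of_nonneg_left hN hε)
  have h5 : t * (y * c * κ₂) ≤ t * (y * (ε * (K * t)) * κ₂) :=
    mul_le_mul_of_nonneg_left (mul_le_mul_of_nonneg_right (mul_le_mul_of_nonneg_left h4 hy) hκ₂) t0
  have h6 : t * (y * (ε * (K * t)) * κ₂) = t * (y * (ε * t) * κ₂) * K := by ring
  have h6' : K ^ 2 * κ₁ = K * κ₁ * K := by ring
  have h7 : K * κ₁ ≤ t * (y * (ε * t) * κ₂) :=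
    le_of_mul_le_mul_right (by rw [← h6, ← h6']; exact t7.trans h5) hK
  have h8 := mul_le_mul_of_nonneg_right h7 (pow_nonneg t0 4)
  have h9 : t * (y * (ε * t) * κ₂) * t ^ 4 = y * ε * X := by rw [hX]; ring
  have h10 : a * R ≤ K * t * R :=
    mul_le_mul_of_nonneg_right (ha.trans hN) (by rw [hR]; exact mul_nonneg hκ₁ (pow_nonneg t0 3))
  have h11 : K * t * R = K * κ₁ * t ^ 4 := by rw [hR]; ring
  rw [h9] at h8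
  rw [h11] at h10
  exact h10.trans h8

private lemma aux_prod {κ₁ κ₂ t R y ε X A B C : ℝ} (hy : 0 < y) (hε : 0 < ε) (hR0 : 0 < R) (hX0 : 0 < X)
    (h1 : R / 2 ≤ A) (h2 : R / (y * ε) / 2 ≤ B) (h3 : ε * X / 2 ≤ C) (hR : R = κ₁ * t ^ 3) (hX : X = κ₂ * t ^ 6) :
    1 / (8 * y) * (κ₂ * κ₁ ^ 2) * t ^ 12 ≤ A * B * C := by
  have k1 : 0 < R / 2 := half_pos hR0
  have k2 : 0 < R / (y * ε) / 2 := half_pos (div_pos hR0 (mul_pos hy hε))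
  have k3 : 0 < ε * X / 2 := half_pos (mul_pos hε hX0)
  have h4 : R / 2 * (R / (y * ε) / 2) * (ε * X / 2) ≤ A * B * C :=
    mul_le_mul (mul_le_mul h1 h2 k2.le (k1.le.trans h1)) h3 k3.le
      (mul_nonneg (k1.le.trans h1) (k2.le.trans h2))
  have h5 : 1 / (8 * y) * (κ₂ * κ₁ ^ 2) * t ^ 12 = R / 2 * (R / (y * ε) / 2) * (ε * X / 2) := by
    rw [hR, hX, div_mul_eq_mul_div, one_mul, div_mul_eq_mul_div, div_eq_iff (mul_pos (by norm_num) hy).ne']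
    have e1 : κ₁ * t ^ 3 / (y * ε) = κ₁ * t ^ 3 * (y⁻¹ * ε⁻¹) := by rw [div_eq_mul_inv, mul_inv]
    rw [e1]
    have e2 : y * y⁻¹ = 1 := mul_inv_cancel₀ hy.ne'
    have e3 : ε * ε⁻¹ = 1 := mul_inv_cancel₀ hε.ne'
    calc κ₂ * κ₁ ^ 2 * t ^ 12 = κ₂ * κ₁ ^ 2 * t ^ 12 * 1 * 1 := by rw [mul_one, mul_one]
      _ = κ₂ * κ₁ ^ 2 * t ^ 12 * (y * y⁻¹) * (ε * ε⁻¹) := by rw [e2, e3]
      _ = _ := by ring
  rw [h5]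
  exact h4

private lemma aux_pow56 {t : ℝ} (t1 : 1 ≤ t) : t ^ 5 ≤ t ^ 6 := pow_le_pow_right₀ t1 (by norm_num)

private lemma aux_last {l t η Q : ℝ} (t0 : 0 ≤ t) (hlt : l * t ≤ η * t ^ 6) (h4 : 32 * η ≤ Q) :
    8 * l * t ≤ t ^ 6 * Q / 4 := by
  have h5 := mul_le_mul_of_nonneg_left h4 (pow_nonneg t0 6)
  have h6 : 8 * l * t = 8 * (l * t) := by ring
  rw [h6]
  linarith

private lemma aux_ev (η : ℝ) (hη : 0 < η) : ∀ᶠ n : ℕ in atTop, 32 * η * (n : ℝ) ^ 6 ≤ 2 ^ n := by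
  have ht := tendsto_pow_const_div_const_pow_of_one_lt 6 (r := (2 : ℝ)) (by norm_num)
  have h0 : 0 < 32 * η := mul_pos (by norm_num) hη
  have h3 : ∀ᶠ n : ℕ in atTop, (n : ℝ) ^ 6 / 2 ^ n < 1 / (32 * η) :=
    ht.eventually_lt_const (one_div_pos.2 h0)
  filter_upwards [h3] with n hn
  rw [div_lt_div_iff₀ (pow_pos two_pos n) h0, one_mul, mul_comm] at hn
  exact hn.le

private lemma aux_exp {A t Q : ℝ} {l : ℕ} (hA0 : 0 ≤ A) (k : ℕ) (hA : A ≤ Real.exp t ^ k) (h : ((k * l : ℕ) : ℝ) * t ≤ Q) :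
    A ^ l ≤ Real.exp Q := by
  refine (pow_le_pow_left₀ hA0 hA l).trans ?_
  rw [← pow_mul, ← Real.exp_nat_mul]
  exact Real.exp_le_exp.2 h

private lemma aux_sum {a b c d e f g h t : ℝ} (p1 : 0 ≤ a) (p2 : 0 ≤ b) (p3 : 0 ≤ c) (p4 : 0 ≤ d) (p5 : 0 ≤ e)
    (p6 : 0 ≤ f) (p7 : 0 ≤ g) (p8 : 0 ≤ h) (ht : 1 + a + b + c + d + e + f + g + h ≤ t) :
    1 ≤ t ∧ a ≤ t ∧ b ≤ t ∧ c ≤ t ∧ d ≤ t ∧ e ≤ t ∧ f ≤ t ∧ g ≤ t ∧ h ≤ t := by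
  refine ⟨?_, ?_, ?_, ?_, ?_, ?_, ?_, ?_, ?_⟩ <;> linarith

/-- H1c. PROOF. Let `c', C'` be the constants of `dirichlet` for `ν = τ₁.im/τ₂.im`, `y₂ = τ₂.im`. For given `n` put `X = κ₂n⁶`, `R₀ = κ₁n³`, `N = ⌈2κ₂n/η⌉₊`
(`≥ 2` for large `n`), `a₁, ..., b₂` from `dirichlet`, `ε = a₁ + a₂ν ∈ [c'/N, 1/N]`, `L = 2^n`, `d₃ = ⌊εX/2⌋₊`, `d₂ = ⌊R₀/(y₂ε)⌋₊ - 1`, `d₁ = ⌊R₀⌋₊ - 1`
(for large `n` both floors are `≥ 1`: `R₀/(y₂ε) ≥ R₀N/y₂`). Then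
* `d₃ ≤ κ₂n⁶/(2N) ≤ ηn⁵/4`; `d₂ ≤ R₀N/(y₂c') = O(n⁴) ≤ ηn⁵/4`, `d₁ ≤ κ₁n³ ≤ ηn⁵/4` for large `n`: `l ≤ ηn⁵ ≤ 2^n`;
* `d₃ + 1 ≥ εX/2`, `d₂ + 1 ≥ R₀/(2y₂ε)`, `d₁ + 1 ≥ R₀/2`: product `≥ X R₀²/(8y₂)`, so `c = 1/(8y₂)`;
* `|a₂|R₀ ≤ N R₀` and `y₂εX ≥ y₂c'X/N`: `N²R₀ = O(n⁵) ≤ y₂c'κ₂n⁶` for large `n`; `nodes_exist` applies;
* `A ≤ C'N = O(n)`, so `A^l ≤ exp(ηn⁵ log(C'N)) ≤ exp(2^n)` and `(C A X)^l ≤ exp(ηn⁵ · 8 log n) ≤ exp(n⁶2^n/4)` for large `n`. -/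
theorem params (τ₁ τ₂ : ℂ) (h1 : 0 < τ₁.im) (h2 : 0 < τ₂.im) (hirr : Irrational (τ₁.im / τ₂.im))
    (hsq : ∃ r : ℚ, (τ₁.im / τ₂.im) ^ 2 = r) : ∃ c : ℝ, 0 < c ∧ ∀ κ₁ κ₂ η C : ℝ, 0 < κ₁ → 0 < κ₂ → 0 < η → 1 ≤ C →
    ∃ n₀ : ℕ, ∀ n : ℕ, n₀ ≤ n → ∃ P : Pr, P.Good ∧ P.L = 2 ^ n ∧ (P.l : ℝ) ≤ η * n ^ 5 ∧
      c * (κ₂ * κ₁ ^ 2) * n ^ 12 ≤ ((P.d₁ : ℝ) + 1) * (P.d₂ + 1) * (P.d₃ + 1) ∧
      (C * P.A * (κ₂ * n ^ 6)) ^ P.l ≤ Real.exp (n ^ 6 * 2 ^ n / 4) ∧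
      ∃ (h₀ : ℕ → ℤ) (m₀ : ℕ → ℕ → ℤ), Nodes τ₁ τ₂ P (κ₂ * n ^ 6) (κ₁ * n ^ 3) h₀ m₀ := by
  set y : ℝ := τ₂.im with hy
  set ν : ℝ := τ₁.im / y with hν
  have hν0 : 0 < ν := div_pos h1 h2
  obtain ⟨c', C', hc', hC', hdir⟩ := dirichlet ν hν0 hirr hsq
  refine ⟨1 / (8 * y), by positivity, ?_⟩
  intro κ₁ κ₂ η C hκ₁ hκ₂ hη hC
  have hC0 : 0 < C := by linarith
  obtain ⟨K, hK⟩ : ∃ K : ℝ, K = 2 * κ₂ / η + 1 := ⟨_, rfl⟩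
  have hKpos : 0 < K := by rw [hK]; positivity
  have p1 : 0 ≤ η / κ₂ := by positivity
  have p2 : 0 ≤ 1 / κ₁ := by positivity
  have p3 : 0 ≤ y / κ₁ := by positivity
  have p4 : 0 ≤ 4 * κ₁ * K / (y * c' * η) := by positivity
  have p5 : 0 ≤ 4 * κ₁ / η := by positivity
  have p6 : 0 ≤ K ^ 2 * κ₁ / (y * c' * κ₂) := by positivity
  have p7 : 0 ≤ C' * K := by positivity
  have p8 : 0 ≤ C * C' * K * κ₂ := by positivity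
  have ev1 : ∀ᶠ n : ℕ in atTop, 1 + η / κ₂ + 1 / κ₁ + y / κ₁ + 4 * κ₁ * K / (y * c' * η) + 4 * κ₁ / η +
      K ^ 2 * κ₁ / (y * c' * κ₂) + C' * K + C * C' * K * κ₂ ≤ (n : ℝ) :=
    tendsto_natCast_atTop_atTop.eventually_ge_atTop _
  have ev2 := aux_ev η hη
  obtain ⟨n₀, hn₀⟩ := eventually_atTop.1 (ev1.and ev2)
  refine ⟨n₀, fun n hn => ?_⟩
  obtain ⟨ht, hpow⟩ := hn₀ n hn
  obtain ⟨t, htn⟩ : ∃ t : ℝ, t = (n : ℝ) := ⟨_, rfl⟩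
  rw [← htn] at ht hpow
  rw [← htn]
  obtain ⟨t1, t2, t3, t4, t5, t6, t7, t8, t9⟩ := aux_sum p1 p2 p3 p4 p5 p6 p7 p8 ht
  have t0 : 0 < t := lt_of_lt_of_le one_pos t1
  rw [div_le_iff₀ hκ₂] at t2
  rw [div_le_iff₀ hκ₁] at t3 t4
  rw [div_le_iff₀ (mul_pos (mul_pos h2 hc') hη)] at t5
  rw [div_le_iff₀ hη] at t6
  rw [div_le_iff₀ (mul_pos (mul_pos h2 hc') hκ₂)] at t7
  -- the number N
  obtain ⟨N, hN⟩ : ∃ N : ℕ, N = ⌈2 * κ₂ * t / η⌉₊ := ⟨_, rfl⟩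
  have hNlow : 2 * κ₂ * t / η ≤ N := by rw [hN]; exact Nat.le_ceil _
  have hNup : (N : ℝ) ≤ K * t := by
    have h3 : (N : ℝ) < 2 * κ₂ * t / η + 1 := by rw [hN]; exact Nat.ceil_lt_add_one (by positivity)
    have h4 : K * t = 2 * κ₂ * t / η + t := by rw [hK]; ring
    linarith
  have hN2r : (2 : ℝ) ≤ N := by
    refine le_trans ?_ hNlow
    rw [le_div_iff₀ hη]
    linarith
  have hN2 : 2 ≤ N := by exact_mod_cast hN2r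
  have hN0 : (0 : ℝ) < N := by linarith
  obtain ⟨a₁, a₂, b₁, b₂, hdet, hεlow, hεup, ha₂, hA⟩ := hdir N hN2
  obtain ⟨ε, hε⟩ : ∃ ε : ℝ, ε = a₁ + a₂ * ν := ⟨_, rfl⟩
  rw [← hε] at hεlow hεup
  have hε0 : 0 < ε := lt_of_lt_of_le (by positivity) hεlow
  have hεN : ε * N ≤ 1 := by rwa [le_div_iff₀ hN0] at hεup
  have hεN' : c' ≤ ε * N := by rwa [div_le_iff₀ hN0] at hεlow
  obtain ⟨X, hX⟩ : ∃ X : ℝ, X = κ₂ * t ^ 6 := ⟨_, rfl⟩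
  obtain ⟨R₀, hR⟩ : ∃ R₀ : ℝ, R₀ = κ₁ * t ^ 3 := ⟨_, rfl⟩
  rw [← hX, ← hR]
  have hX0 : 0 < X := by rw [hX]; positivity
  have hR0 : 0 < R₀ := by rw [hR]; positivity
  have tsq : t ≤ t ^ 2 := le_self_pow₀ t1 (by norm_num)
  have tcu : t ≤ t ^ 3 := le_self_pow₀ t1 (by norm_num)
  have htk : t * κ₁ ≤ R₀ := by
    rw [hR, mul_comm κ₁]
    exact mul_le_mul_of_nonneg_right tcu hκ₁.le
  have hR1 : 1 ≤ R₀ := t3.trans htk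
  have hRy : y ≤ R₀ := t4.trans htk
  -- the numbers d
  have hq : 1 ≤ R₀ / (y * ε) := by
    rw [le_div_iff₀ (by positivity), one_mul]
    have h3 : ε ≤ 1 := le_trans (le_mul_of_one_le_right hε0.le (by linarith)) hεN
    calc y * ε ≤ y * 1 := mul_le_mul_of_nonneg_left h3 h2.le
      _ = y := mul_one y
      _ ≤ R₀ := hRy
  have hfl1 : 1 ≤ ⌊R₀⌋₊ := by rwa [Nat.one_le_floor_iff]
  have hfl2 : 1 ≤ ⌊R₀ / (y * ε)⌋₊ := by rwa [Nat.one_le_floor_iff]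
  obtain ⟨d₁, hd₁⟩ : ∃ d₁ : ℕ, d₁ + 1 = ⌊R₀⌋₊ := ⟨⌊R₀⌋₊ - 1, by omega⟩
  obtain ⟨d₂, hd₂⟩ : ∃ d₂ : ℕ, d₂ + 1 = ⌊R₀ / (y * ε)⌋₊ := ⟨⌊R₀ / (y * ε)⌋₊ - 1, by omega⟩
  obtain ⟨d₃, hd₃⟩ : ∃ d₃ : ℕ, d₃ = ⌊ε * X / 2⌋₊ := ⟨_, rfl⟩
  have hd₁' : (d₁ : ℝ) + 1 = ((⌊R₀⌋₊ : ℕ) : ℝ) := by exact_mod_cast hd₁
  have hd₂' : (d₂ : ℝ) + 1 = ((⌊R₀ / (y * ε)⌋₊ : ℕ) : ℝ) := by exact_mod_cast hd₂
  have u1 : (d₁ : ℝ) + 1 ≤ R₀ := by rw [hd₁']; exact Nat.floor_le hR0.le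
  have u2 : (d₂ : ℝ) + 1 ≤ R₀ / (y * ε) := by rw [hd₂']; exact Nat.floor_le (by positivity)
  have u3 : (d₃ : ℝ) ≤ ε * X / 2 := by rw [hd₃]; exact Nat.floor_le (by positivity)
  have v1 : R₀ / 2 ≤ (d₁ : ℝ) + 1 := by
    have h3 : R₀ < ((⌊R₀⌋₊ : ℕ) : ℝ) + 1 := Nat.lt_floor_add_one _
    have h4 : (1 : ℝ) ≤ ((⌊R₀⌋₊ : ℕ) : ℝ) := by exact_mod_cast hfl1
    rw [hd₁']
    linarith
  have v2 : R₀ / (y * ε) / 2 ≤ (d₂ : ℝ) + 1 := by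
    have h3 : R₀ / (y * ε) < ((⌊R₀ / (y * ε)⌋₊ : ℕ) : ℝ) + 1 := Nat.lt_floor_add_one _
    have h4 : (1 : ℝ) ≤ ((⌊R₀ / (y * ε)⌋₊ : ℕ) : ℝ) := by exact_mod_cast hfl2
    rw [hd₂']
    linarith
  have v3 : ε * X / 2 ≤ (d₃ : ℝ) + 1 := by
    rw [hd₃]
    exact (Nat.lt_floor_add_one _).le
  have w3 : (d₃ : ℝ) ≤ η * t ^ 5 / 4 := u3.trans (aux_w3 hη hε0.le t0.le hNlow hεN hX)
  have w1 : (d₁ : ℝ) ≤ η * t ^ 5 / 4 :=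
    (le_add_of_nonneg_right zero_le_one).trans (u1.trans (aux_w1 hη.le t0.le tsq t6 hR))
  have w2 : (d₂ : ℝ) ≤ η * t ^ 5 / 4 := by
    refine (le_add_of_nonneg_right zero_le_one).trans (u2.trans ?_)
    rw [div_le_iff₀ (mul_pos h2 hε0)]
    exact aux_w2 hη.le t0.le hKpos h2.le hε0.le hεN' hNup t5 hR
  let P : Pr := ⟨2 ^ n, d₁, d₂, d₃, a₁, a₂, b₁, b₂⟩
  have hPle : (P.l : ℝ) = (d₁ : ℝ) + d₂ + d₃ := by simp only [P, Pr.l, Nat.cast_add]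
  have hη5 : 0 ≤ η * t ^ 5 := mul_nonneg hη.le (pow_nonneg t0.le 5)
  have hPl : (P.l : ℝ) ≤ η * t ^ 5 := by
    rw [hPle]
    clear_value P
    linarith only [w1, w2, w3, hη5]
  have hPA : P.A ≤ C' * N := hA
  have hPA0 : 0 ≤ P.A := by
    simp only [Pr.A]
    positivity
  have hexp : t ≤ Real.exp t := (le_add_of_nonneg_right zero_le_one).trans (Real.add_one_le_exp t)
  have hPA2 : P.A ≤ Real.exp t ^ 2 := aux_pa hPA hNup hC'.le t8 t0.le hexp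
  have hCAX : C * P.A * X ≤ Real.exp t ^ 8 := aux_cax hPA hNup hC0.le hC'.le t9 t0.le hexp hX hX0.le
  have hlt : (P.l : ℝ) * t ≤ η * t ^ 6 := by
    have h3 := mul_le_mul_of_nonneg_right hPl t0.le
    rwa [mul_assoc, ← pow_succ] at h3
  have hη6 : 0 < η * t ^ 6 := mul_pos hη (pow_pos t0 6)
  have hcast : ((2 ^ n : ℕ) : ℝ) = 2 ^ n := by rw [Nat.cast_pow, Nat.cast_ofNat]
  refine ⟨P, ⟨hdet, ?_, ?_, ?_⟩, rfl, hPl, ?_, ?_, ?_⟩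
  · exact Nat.one_le_two_pow
  · have h3 : (P.l : ℝ) ≤ ((2 ^ n : ℕ) : ℝ) := by
      rw [hcast]
      refine hPl.trans (le_trans ?_ hpow)
      have h4 : η * t ^ 5 ≤ η * t ^ 6 := mul_le_mul_of_nonneg_left (aux_pow56 t1) hη.le
      linarith only [h4, hη6]
    exact_mod_cast h3
  · refine aux_exp hPA0 2 hPA2 ?_
    change ((2 * P.l : ℕ) : ℝ) * t ≤ ((2 ^ n : ℕ) : ℝ)
    rw [hcast, Nat.cast_mul, Nat.cast_ofNat]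
    refine le_trans ?_ hpow
    linarith only [hlt, hη6]
  · exact aux_prod h2 hε0 hR0 hX0 v1 v2 v3 hR hX
  · refine aux_exp (mul_nonneg (mul_nonneg hC0.le hPA0) hX0.le) 8 hCAX ?_
    rw [Nat.cast_mul, Nat.cast_ofNat]
    have h4 : 32 * η ≤ 2 ^ n := by
      refine le_trans ?_ hpow
      exact le_mul_of_one_le_right (mul_pos (by norm_num) hη).le (one_le_pow₀ t1)
    exact aux_last t0.le hlt h4
  · refine nodes_exist τ₁ τ₂ h2 P hdet ε X R₀ hε hε0 hX0 hR0 u3 ?_ u1 ?_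
    · have h3 := u2
      rw [le_div_iff₀ (mul_pos h2 hε0)] at h3
      exact h3
    · exact aux_a2 hκ₁.le hκ₂.le t0.le hKpos h2.le hε0.le hεN' hNup ha₂ t7 hR hX

end Pool.Agent.MSP
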