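import Pool.Agent.Lib.MP_f58a57_nt.P.V1_Leib

/-! # V1c: leading terms (MP_f58a57_nt, pairs) -/

open Complex Filter Topology

noncomputable section

namespace Pool.Agent.MSP

/-- V1c. immediate from `dd_leibniz`: all `dd i j F` in the sum vanish. -/
theorem dd_mul_zero (h₁ h₂ : ℂ → ℂ) (F : ℂ → ℂ → ℂ) (t₀ w₀ : ℂ) (h1 : AnalyticAt ℂ h₁ t₀) (h2 : AnalyticAt ℂ h₂ w₀)
    (hF : An2 F t₀ w₀) (k : ℕ) (hk : ∀ i j, i + j < k → dd i j F t₀ w₀ = 0) (r s : ℕ) (hrs : r + s < k) :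
    dd r s (fun t w => h₁ t * h₂ w * F t w) t₀ w₀ = 0 := by
  rw [dd_leibniz h₁ h₂ F t₀ w₀ h1 h2 hF r s]
  refine Finset.sum_eq_zero fun i hi => Finset.sum_eq_zero fun j hj => ?_
  have hi' := Finset.mem_range.1 hi
  have hj' := Finset.mem_range.1 hj
  rw [hk i j (by omega), mul_zero]

/-- V1d. only the term `i = r, j = s` survives. -/
theorem dd_mul_lead (h₁ h₂ : ℂ → ℂ) (F : ℂ → ℂ → ℂ) (t₀ w₀ : ℂ) (h1 : AnalyticAt ℂ h₁ t₀) (h2 : AnalyticAt ℂ h₂ w₀)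
    (hF : An2 F t₀ w₀) (k : ℕ) (hk : ∀ i j, i + j < k → dd i j F t₀ w₀ = 0) (r s : ℕ) (hrs : r + s = k) :
    dd r s (fun t w => h₁ t * h₂ w * F t w) t₀ w₀ = h₁ t₀ * h₂ w₀ * dd r s F t₀ w₀ := by
  rw [dd_leibniz h₁ h₂ F t₀ w₀ h1 h2 hF r s]
  rw [Finset.sum_eq_single r, Finset.sum_eq_single s]
  · simp
  · intro j hj hjs
    have hj' := Finset.mem_range.1 hj
    rw [hk r j (by omega), mul_zero]
  · intro h
    exact absurd (Finset.mem_range.2 (Nat.lt_succ_self s)) h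
  · intro i hi hir
    refine Finset.sum_eq_zero fun j hj => ?_
    have hi' := Finset.mem_range.1 hi
    have hj' := Finset.mem_range.1 hj
    rw [hk i j (by omega), mul_zero]
  · intro h
    exact absurd (Finset.mem_range.2 (Nat.lt_succ_self r)) h

end Pool.Agent.MSP
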