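import Pool.Agent.Lib.MP_f58a57_nt.P.G1_Entire
import Pool.Agent.Lib.MP_f58a57_nt.P.T3_Zeros
import Pool.Agent.Lib.MP_f58a57_nt.P.V1c_Lead

/-! # G5: relation between `GG` and `FF` (MP_f58a57_nt, pairs) -/

open Complex Filter Topology

noncomputable section

namespace Pool.Agent.MSP

theorem g5_Z1 (c₁ c₂ : Cv) (t w : ℂ) (h1 : N0 c₁.τ t ≠ 0) :
    Z1 c₁ c₂ t w = (N0 c₁.τ t * N0 c₂.τ w) * (-(ph c₁.τ t / (2 * Real.pi * I))) := by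
  have hpi : (2 * (Real.pi : ℂ) * I) ≠ 0 := by
    simp [Real.pi_ne_zero]
  unfold Z1 ph
  field_simp

theorem g5_Z2 (c₁ c₂ : Cv) (t w : ℂ) (h2 : N0 c₂.τ w ≠ 0) :
    Z2 c₁ c₂ t w = (N0 c₁.τ t * N0 c₂.τ w) * (-(ph c₂.τ w / (2 * Real.pi * I))) := by
  have hpi : (2 * (Real.pi : ℂ) * I) ≠ 0 := by
    simp [Real.pi_ne_zero]
  unfold Z2 ph
  field_simp

theorem g5_Z3 (c₁ c₂ : Cv) (P : Pr) (t w : ℂ) (h1 : N0 c₁.τ t ≠ 0) (h2 : N0 c₂.τ w ≠ 0) :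
    Z3 c₁ c₂ t w = (N0 c₁.τ t * N0 c₂.τ w) * xx c₁ c₂ P 0 t w := by
  have hx : xx c₁ c₂ P 0 t w = (w - t) + c₂.τ * (ph c₂.τ w / (2 * Real.pi * I)) -
      c₁.τ * (ph c₁.τ t / (2 * Real.pi * I)) := rfl
  rw [hx]
  unfold Z3
  rw [g5_Z1 c₁ c₂ t w h1, g5_Z2 c₁ c₂ t w h2]
  ring

theorem g5_x1 (c₁ c₂ : Cv) (P : Pr) (t w : ℂ) (h1 : N0 c₁.τ t ≠ 0) (h2 : N0 c₂.τ w ≠ 0) :
    P.b₂ * Z1 c₁ c₂ t w - P.b₁ * Z2 c₁ c₂ t w = (N0 c₁.τ t * N0 c₂.τ w) * xx c₁ c₂ P 1 t w := by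
  have hx : xx c₁ c₂ P 1 t w = -(P.b₂ * (ph c₁.τ t / (2 * Real.pi * I))) +
      P.b₁ * (ph c₂.τ w / (2 * Real.pi * I)) := rfl
  rw [hx, g5_Z1 c₁ c₂ t w h1, g5_Z2 c₁ c₂ t w h2]
  ring

theorem g5_x2 (c₁ c₂ : Cv) (P : Pr) (t w : ℂ) (h1 : N0 c₁.τ t ≠ 0) (h2 : N0 c₂.τ w ≠ 0) :
    P.a₁ * Z1 c₁ c₂ t w + P.a₂ * Z2 c₁ c₂ t w = (N0 c₁.τ t * N0 c₂.τ w) * xx c₁ c₂ P 2 t w := by
  have hx : xx c₁ c₂ P 2 t w = -(P.a₁ * (ph c₁.τ t / (2 * Real.pi * I))) -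
      P.a₂ * (ph c₂.τ w / (2 * Real.pi * I)) := rfl
  rw [hx, g5_Z1 c₁ c₂ t w h1, g5_Z2 c₁ c₂ t w h2]
  ring

theorem g5_N2 (τ s t : ℂ) (h : N0 τ t ≠ 0) : N2 τ s t = wp τ s t * N0 τ t ^ 2 := by
  unfold wp
  field_simp

/-- the purely algebraic identity behind G5a -/
theorem g5_alg (A B p q X Y Z : ℂ) (L l a b u v z : ℕ) (ha : a ≤ L) (hb : b ≤ L) (hl : u + v + z ≤ l) :
    (p * A ^ 2) ^ a * A ^ (2 * (L - a)) * ((q * B ^ 2) ^ b * B ^ (2 * (L - b))) *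
      (((A * B) * X) ^ u * ((A * B) * Y) ^ v * ((A * B) * Z) ^ z) * (A * B) ^ (l - (u + v + z)) =
    (A * B) ^ (2 * L + l) * (p ^ a * q ^ b * (X ^ u * Y ^ v * Z ^ z)) := by
  obtain ⟨c, rfl⟩ := Nat.exists_eq_add_of_le ha
  obtain ⟨d, hd⟩ := Nat.exists_eq_add_of_le hb
  obtain ⟨e, rfl⟩ := Nat.exists_eq_add_of_le hl
  have e1 : a + c - a = c := by omega
  have e2 : a + c - b = d := by omega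
  have e3 : u + v + z + e - (u + v + z) = e := by omega
  rw [e1, e2, e3]
  have hA : (p * A ^ 2) ^ a * A ^ (2 * c) = p ^ a * A ^ (2 * (a + c)) := by ring
  have hB : (q * B ^ 2) ^ b * B ^ (2 * d) = q ^ b * B ^ (2 * (a + c)) := by
    rw [hd]; ring
  rw [hA, hB]
  ring

theorem g5_box {P : Pr} {ν : ℕ × ℕ × ℕ × ℕ × ℕ} (h : ν ∈ P.box) :
    ν.1 ≤ P.L ∧ ν.2.1 ≤ P.L ∧ ν.2.2.1 + ν.2.2.2.1 + ν.2.2.2.2 ≤ P.l := by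
  unfold Pr.box at h
  simp only [Finset.mem_product, Finset.mem_range] at h
  unfold Pr.l
  omega

/-- G5a. PROOF. `wp = N2/N0²`, `ph = N1/N0`; `xx 0 + k 0 = (Z3 + k 0 N0 N0)/(N0 N0)` etc.; for `ν ∈ P.box` the exponents add up
to `M = 2L + l`. -/
theorem Gs_eq (c₁ c₂ : Cv) (P : Pr) (k : Fin 3 → ℂ) (coef : ℕ × ℕ × ℕ × ℕ × ℕ → ℂ) (t w : ℂ) (h1 : N0 c₁.τ t ≠ 0)
    (h2 : N0 c₂.τ w ≠ 0) :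
    Gs c₁ c₂ P k coef t w = (N0 c₁.τ t * N0 c₂.τ w) ^ P.M *
      ∑ ν ∈ P.box, coef ν * (wp c₁.τ c₁.s t ^ ν.1 * wp c₂.τ c₂.s w ^ ν.2.1 *
        ((xx c₁ c₂ P 0 t w + k 0) ^ ν.2.2.1 * (xx c₁ c₂ P 1 t w + k 1) ^ ν.2.2.2.1 *
          (xx c₁ c₂ P 2 t w + k 2) ^ ν.2.2.2.2)) := by
  unfold Gs
  rw [Finset.mul_sum]
  refine Finset.sum_congr rfl fun ν hν => ?_
  obtain ⟨ha, hb, hl⟩ := g5_box hν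
  have key : Gmon c₁ c₂ P k ν t w = (N0 c₁.τ t * N0 c₂.τ w) ^ P.M *
      (wp c₁.τ c₁.s t ^ ν.1 * wp c₂.τ c₂.s w ^ ν.2.1 *
        ((xx c₁ c₂ P 0 t w + k 0) ^ ν.2.2.1 * (xx c₁ c₂ P 1 t w + k 1) ^ ν.2.2.2.1 *
          (xx c₁ c₂ P 2 t w + k 2) ^ ν.2.2.2.2)) := by
    unfold Gmon
    rw [g5_Z3 c₁ c₂ P t w h1 h2, g5_x1 c₁ c₂ P t w h1 h2, g5_x2 c₁ c₂ P t w h1 h2,
      g5_N2 c₁.τ c₁.s t h1, g5_N2 c₂.τ c₂.s w h2]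
    have r0 : N0 c₁.τ t * N0 c₂.τ w * xx c₁ c₂ P 0 t w + k 0 * (N0 c₁.τ t * N0 c₂.τ w) =
        (N0 c₁.τ t * N0 c₂.τ w) * (xx c₁ c₂ P 0 t w + k 0) := by ring
    have r1 : N0 c₁.τ t * N0 c₂.τ w * xx c₁ c₂ P 1 t w + k 1 * (N0 c₁.τ t * N0 c₂.τ w) =
        (N0 c₁.τ t * N0 c₂.τ w) * (xx c₁ c₂ P 1 t w + k 1) := by ring
    have r2 : N0 c₁.τ t * N0 c₂.τ w * xx c₁ c₂ P 2 t w + k 2 * (N0 c₁.τ t * N0 c₂.τ w) =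
        (N0 c₁.τ t * N0 c₂.τ w) * (xx c₁ c₂ P 2 t w + k 2) := by ring
    rw [r0, r1, r2]
    exact g5_alg _ _ _ _ _ _ _ P.L P.l _ _ _ _ _ ha hb hl
  rw [key]
  ring

theorem g5_GG_eq (c₁ c₂ : Cv) (P : Pr) (coef : ℕ × ℕ × ℕ × ℕ × ℕ → ℂ) (t w : ℂ) (h1 : N0 c₁.τ t ≠ 0)
    (h2 : N0 c₂.τ w ≠ 0) :
    GG c₁ c₂ P coef t w = N0 c₁.τ t ^ P.M * N0 c₂.τ w ^ P.M * FF c₁ c₂ P coef t w := by
  unfold GG FF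
  rw [Gs_eq c₁ c₂ P 0 coef t w h1 h2, mul_pow]
  simp

theorem g5_N0_an (c : Cv) (t : ℂ) : AnalyticAt ℂ (N0 c.τ) t :=
  (th_differentiable c.τ c.im).analyticAt t

/-- near a point where the theta functions do not vanish they do not vanish -/
theorem g5_ev (c₁ c₂ : Cv) (t w : ℂ) (h1 : N0 c₁.τ t ≠ 0) (h2 : N0 c₂.τ w ≠ 0) :
    ∀ᶠ p : ℂ × ℂ in 𝓝 (t, w), N0 c₁.τ p.1 ≠ 0 ∧ N0 c₂.τ p.2 ≠ 0 := by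
  have a1 : ContinuousAt (fun p : ℂ × ℂ => N0 c₁.τ p.1) (t, w) :=
    ContinuousAt.comp (f := Prod.fst) (g := N0 c₁.τ) (g5_N0_an c₁ t).continuousAt continuousAt_fst
  have a2 : ContinuousAt (fun p : ℂ × ℂ => N0 c₂.τ p.2) (t, w) :=
    ContinuousAt.comp (f := Prod.snd) (g := N0 c₂.τ) (g5_N0_an c₂ w).continuousAt continuousAt_snd
  exact (a1.eventually_ne h1).and (a2.eventually_ne h2)

/-- G5b. -/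
theorem FF_an2 (c₁ c₂ : Cv) (P : Pr) (coef : ℕ × ℕ × ℕ × ℕ × ℕ → ℂ) (t w : ℂ) (h1 : N0 c₁.τ t ≠ 0)
    (h2 : N0 c₂.τ w ≠ 0) : An2 (FF c₁ c₂ P coef) t w := by
  have a1 : AnalyticAt ℂ (fun p : ℂ × ℂ => N0 c₁.τ p.1) (t, w) :=
    AnalyticAt.fun_comp (g := N0 c₁.τ) (f := Prod.fst) (g5_N0_an c₁ t) analyticAt_fst
  have a2 : AnalyticAt ℂ (fun p : ℂ × ℂ => N0 c₂.τ p.2) (t, w) :=
    AnalyticAt.fun_comp (g := N0 c₂.τ) (f := Prod.snd) (g5_N0_an c₂ w) analyticAt_snd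
  have aG : AnalyticAt ℂ (fun p : ℂ × ℂ => GG c₁ c₂ P coef p.1 p.2) (t, w) := GG_an2 c₁ c₂ P coef t w
  have h := (((a1.pow P.M).mul (a2.pow P.M)).inv (by
    simp only [Pi.mul_apply, Pi.pow_apply]
    exact mul_ne_zero (pow_ne_zero _ h1) (pow_ne_zero _ h2))).mul aG
  unfold An2
  refine h.congr ?_
  filter_upwards [g5_ev c₁ c₂ t w h1 h2] with p hp
  simp only [Pi.mul_apply, Pi.inv_apply, Pi.pow_apply]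
  rw [g5_GG_eq c₁ c₂ P coef p.1 p.2 hp.1 hp.2, ← mul_assoc, inv_mul_cancel₀
    (mul_ne_zero (pow_ne_zero _ hp.1) (pow_ne_zero _ hp.2)), one_mul]

theorem g5_dd_GG (c₁ c₂ : Cv) (P : Pr) (coef : ℕ × ℕ × ℕ × ℕ × ℕ → ℂ) (t w : ℂ) (h1 : N0 c₁.τ t ≠ 0)
    (h2 : N0 c₂.τ w ≠ 0) (r s : ℕ) :
    dd r s (GG c₁ c₂ P coef) t w =
      dd r s (fun t w => N0 c₁.τ t ^ P.M * N0 c₂.τ w ^ P.M * FF c₁ c₂ P coef t w) t w := by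
  refine dd_congr _ _ t w ?_ r s
  filter_upwards [g5_ev c₁ c₂ t w h1 h2] with p hp
  exact g5_GG_eq c₁ c₂ P coef p.1 p.2 hp.1 hp.2

theorem g5_dd_FF (c₁ c₂ : Cv) (P : Pr) (coef : ℕ × ℕ × ℕ × ℕ × ℕ → ℂ) (t w : ℂ) (h1 : N0 c₁.τ t ≠ 0)
    (h2 : N0 c₂.τ w ≠ 0) (r s : ℕ) :
    dd r s (FF c₁ c₂ P coef) t w =
      dd r s (fun t w => (N0 c₁.τ t ^ P.M)⁻¹ * (N0 c₂.τ w ^ P.M)⁻¹ * GG c₁ c₂ P coef t w) t w := by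
  refine dd_congr _ _ t w ?_ r s
  filter_upwards [g5_ev c₁ c₂ t w h1 h2] with p hp
  have q1 : N0 c₁.τ p.1 ^ P.M ≠ 0 := pow_ne_zero _ hp.1
  have q2 : N0 c₂.τ p.2 ^ P.M ≠ 0 := pow_ne_zero _ hp.2
  rw [g5_GG_eq c₁ c₂ P coef p.1 p.2 hp.1 hp.2]
  field_simp

/-- G5c. PROOF. Near `(t, w)` we have `GG = N0 c₁.τ t ^ M * N0 c₂.τ w ^ M * FF` (G5a with `k = 0`); `dd_congr` and `dd_mul_zero`. -/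
theorem GG_zero_of_FF (c₁ c₂ : Cv) (P : Pr) (coef : ℕ × ℕ × ℕ × ℕ × ℕ → ℂ) (t w : ℂ) (h1 : N0 c₁.τ t ≠ 0)
    (h2 : N0 c₂.τ w ≠ 0) (k : ℕ) (hk : ∀ i j, i + j < k → dd i j (FF c₁ c₂ P coef) t w = 0) (r s : ℕ) (hrs : r + s < k) :
    dd r s (GG c₁ c₂ P coef) t w = 0 := by
  rw [g5_dd_GG c₁ c₂ P coef t w h1 h2]
  exact dd_mul_zero (fun t => N0 c₁.τ t ^ P.M) (fun w => N0 c₂.τ w ^ P.M) (FF c₁ c₂ P coef) t w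
    ((g5_N0_an c₁ t).pow P.M) ((g5_N0_an c₂ w).pow P.M) (FF_an2 c₁ c₂ P coef t w h1 h2) k hk r s hrs

/-- G5d. PROOF. Near `(t, w)`: `FF = (N0 c₁.τ t ^ M)⁻¹ * (N0 c₂.τ w ^ M)⁻¹ * GG`; `dd_mul_zero` shows that all `dd i j FF`, `i + j < k`, vanish, and then
`dd_mul_lead` for `GG = N0 ^ M * N0 ^ M * FF`. -/
theorem GG_lead (c₁ c₂ : Cv) (P : Pr) (coef : ℕ × ℕ × ℕ × ℕ × ℕ → ℂ) (t w : ℂ) (h1 : N0 c₁.τ t ≠ 0)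
    (h2 : N0 c₂.τ w ≠ 0) (k : ℕ) (hk : ∀ i j, i + j < k → dd i j (GG c₁ c₂ P coef) t w = 0) (r s : ℕ) (hrs : r + s = k) :
    dd r s (GG c₁ c₂ P coef) t w = (N0 c₁.τ t * N0 c₂.τ w) ^ P.M * dd r s (FF c₁ c₂ P coef) t w := by
  have hF : ∀ i j, i + j < k → dd i j (FF c₁ c₂ P coef) t w = 0 := by
    intro i j hij
    rw [g5_dd_FF c₁ c₂ P coef t w h1 h2]
    exact dd_mul_zero (fun t => (N0 c₁.τ t ^ P.M)⁻¹) (fun w => (N0 c₂.τ w ^ P.M)⁻¹) (GG c₁ c₂ P coef) t w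
      (((g5_N0_an c₁ t).pow P.M).inv (pow_ne_zero _ h1)) (((g5_N0_an c₂ w).pow P.M).inv (pow_ne_zero _ h2))
      (GG_an2 c₁ c₂ P coef t w) k hk i j hij
  rw [g5_dd_GG c₁ c₂ P coef t w h1 h2, mul_pow]
  exact dd_mul_lead (fun t => N0 c₁.τ t ^ P.M) (fun w => N0 c₂.τ w ^ P.M) (FF c₁ c₂ P coef) t w
    ((g5_N0_an c₁ t).pow P.M) ((g5_N0_an c₂ w).pow P.M) (FF_an2 c₁ c₂ P coef t w h1 h2) k hF r s hrs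

end Pool.Agent.MSP
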