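import Pool.Agent.Lib.MP_f58a57_nt.P.Defs

/-! # Z4: interpolation (MP_f58a57_nt, pairs) -/

open Complex Filter Topology

noncomputable section

namespace Pool.Agent.MSP

/-- Coefficients of a product of normalised linear factors. -/
theorem z4_prod_coeff {ι : Type*} [DecidableEq ι] (t : Finset ι) (c v : ι → ℂ) (Y : ℝ) (hY : 0 ≤ Y)
    (hc : ∀ i ∈ t, ‖c i‖ ≤ 1) (hv : ∀ i ∈ t, ‖v i‖ ≤ Y) (j : ℕ) :
    ‖(∏ i ∈ t, (Polynomial.C (c i) * (Polynomial.X - Polynomial.C (v i)))).coeff j‖ ≤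
      (1 + Y) ^ t.card := by
  induction t using Finset.induction_on generalizing j with
  | empty =>
    simp only [Finset.prod_empty, Finset.card_empty, pow_zero, Polynomial.coeff_one]
    split_ifs <;> simp
  | insert a t ha ih =>
    have ih' := ih (fun i hi => hc i (Finset.mem_insert_of_mem hi))
      (fun i hi => hv i (Finset.mem_insert_of_mem hi))
    rw [Finset.prod_insert ha, Finset.card_insert_of_notMem ha]
    set q := ∏ i ∈ t, (Polynomial.C (c i) * (Polynomial.X - Polynomial.C (v i))) with hq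
    have e : Polynomial.C (c a) * (Polynomial.X - Polynomial.C (v a)) * q =
        Polynomial.C (c a) * (Polynomial.X * q - Polynomial.C (v a) * q) := by ring
    rw [e, Polynomial.coeff_C_mul, Polynomial.coeff_sub, Polynomial.coeff_C_mul, norm_mul]
    have hca := hc a (Finset.mem_insert_self _ _)
    have hva := hv a (Finset.mem_insert_self _ _)
    have hP : 0 ≤ (1 + Y) ^ t.card := by positivity
    have h1 : ‖(Polynomial.X * q).coeff j‖ ≤ (1 + Y) ^ t.card := by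
      rcases j with _ | j
      · simp [hP]
      · rw [Polynomial.coeff_X_mul]
        exact ih' j
    have h2 : ‖v a * q.coeff j‖ ≤ Y * (1 + Y) ^ t.card := by
      rw [norm_mul]
      exact mul_le_mul hva (ih' j) (norm_nonneg _) hY
    calc ‖c a‖ * ‖(Polynomial.X * q).coeff j - v a * q.coeff j‖
        ≤ 1 * ‖(Polynomial.X * q).coeff j - v a * q.coeff j‖ := by
          exact mul_le_mul_of_nonneg_right hca (norm_nonneg _)
      _ = ‖(Polynomial.X * q).coeff j - v a * q.coeff j‖ := one_mul _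
      _ ≤ ‖(Polynomial.X * q).coeff j‖ + ‖v a * q.coeff j‖ := norm_sub_le _ _
      _ ≤ (1 + Y) ^ t.card + Y * (1 + Y) ^ t.card := add_le_add h1 h2
      _ = (1 + Y) ^ (t.card + 1) := by ring

/-- Z4a. PROOF. Lagrange interpolation at the nodes `y_k = x + m₀ + k`, `k ≤ K`: the polynomial `p = ∑ A_κ X^κ` equals
`∑_k p(y_k) ∏_{i≠k} (X - y_i)/(y_k - y_i)` (Mathlib `Lagrange.eq_interpolate`), the denominators are nonzero integers (absolute value `≥ 1`), and the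
coefficients of `∏_{i≠k} (X - y_i)` are at most `∏ (1 + ‖y_i‖) ≤ (1+Y)^K`. (Alternative: Newton divided differences.) -/
theorem interp1 (K : ℕ) (A : ℕ → ℂ) (x : ℂ) (m₀ : ℤ) (ε Y : ℝ) (hY : ∀ k ≤ K, ‖x + m₀ + k‖ ≤ Y)
    (h : ∀ k ≤ K, ‖∑ κ ∈ Finset.range (K + 1), A κ * (x + m₀ + k) ^ κ‖ ≤ ε) (j : ℕ) (hj : j ≤ K) :
    ‖A j‖ ≤ (K + 1) * (1 + Y) ^ K * ε := by
  classical
  have hY0 : 0 ≤ Y := (norm_nonneg _).trans (hY 0 (Nat.zero_le _))
  have hε0 : 0 ≤ ε := (norm_nonneg _).trans (h 0 (Nat.zero_le _))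
  set v : ℕ → ℂ := fun k => x + m₀ + k with hvdef
  set s := Finset.range (K + 1) with hs
  set p : Polynomial ℂ := ∑ κ ∈ s, Polynomial.C (A κ) * Polynomial.X ^ κ with hp
  have hinj : Set.InjOn v (s : Set ℕ) := by
    intro a _ b _ hab
    simp only [hvdef, add_right_inj] at hab
    exact_mod_cast hab
  have hcoeff : ∀ i ∈ s, p.coeff i = A i := by
    intro i hi
    rw [hp, Polynomial.finsetSum_coeff]
    simp only [Polynomial.coeff_C_mul_X_pow]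
    rw [Finset.sum_ite_eq]
    simp [hi]
  have hdeg : p.degree < (s.card : WithBot ℕ) := by
    rw [hs, Finset.card_range, Polynomial.degree_lt_iff_coeff_zero]
    intro m hm
    rw [hp, Polynomial.finsetSum_coeff]
    refine Finset.sum_eq_zero fun i hi => ?_
    rw [Polynomial.coeff_C_mul_X_pow, if_neg]
    have := Finset.mem_range.1 hi
    intro hmi
    omega
  have heval : ∀ k, p.eval (v k) = ∑ κ ∈ s, A κ * (x + m₀ + k) ^ κ := by
    intro k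
    rw [hp, Polynomial.eval_finsetSum]
    simp [hvdef]
  have hpi := Lagrange.eq_interpolate hinj hdeg
  have hjs : j ∈ s := Finset.mem_range.2 (by omega)
  have hAj : A j = ∑ k ∈ s, p.eval (v k) * (Lagrange.basis s v k).coeff j := by
    rw [← hcoeff j hjs]
    conv_lhs => rw [hpi]
    rw [Lagrange.interpolate_apply, Polynomial.finsetSum_coeff]
    simp only [Polynomial.coeff_C_mul]
  rw [hAj]
  have hterm : ∀ k ∈ s, ‖p.eval (v k) * (Lagrange.basis s v k).coeff j‖ ≤ ε * (1 + Y) ^ K := by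
    intro k hk
    have hkK : k ≤ K := by have := Finset.mem_range.1 hk; omega
    rw [norm_mul]
    refine mul_le_mul ?_ ?_ (norm_nonneg _) hε0
    · rw [heval]; exact h k hkK
    · have hcard : (s.erase k).card = K := by
        rw [Finset.card_erase_of_mem hk, hs, Finset.card_range]; simp
      have := z4_prod_coeff (s.erase k) (fun i => (v k - v i)⁻¹) v Y hY0 ?_ ?_ j
      · rw [hcard] at this
        simpa [Lagrange.basis, Lagrange.basisDivisor] using this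
      · intro i hi
        have hik : i ≠ k := (Finset.mem_erase.1 hi).1
        have e : v k - v i = (((k : ℤ) - (i : ℤ) : ℤ) : ℂ) := by
          simp only [hvdef]; push_cast; ring
        rw [e, norm_inv, Complex.norm_intCast]
        have h1 : (1 : ℝ) ≤ |(((k : ℤ) - (i : ℤ) : ℤ) : ℝ)| := by
          rw [← Int.cast_abs]
          have : (1 : ℤ) ≤ |(k : ℤ) - (i : ℤ)| := Int.one_le_abs (by omega)
          exact_mod_cast this
        exact inv_le_one_of_one_le₀ h1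
      · intro i hi
        have hiK : i ≤ K := by
          have := Finset.mem_range.1 (Finset.mem_erase.1 hi).2; omega
        exact hY i hiK
  calc ‖∑ k ∈ s, p.eval (v k) * (Lagrange.basis s v k).coeff j‖
      ≤ ∑ k ∈ s, ‖p.eval (v k) * (Lagrange.basis s v k).coeff j‖ := norm_sum_le _ _
    _ ≤ ∑ _k ∈ s, ε * (1 + Y) ^ K := Finset.sum_le_sum hterm
    _ = (K + 1) * (1 + Y) ^ K * ε := by
        rw [Finset.sum_const, hs, Finset.card_range, nsmul_eq_mul]; push_cast; ring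

/-- Z4b. PROOF. Three applications of Z4a: for fixed `j, i` in the first variable, then in the second, then in the third. -/
theorem interp3 (d₁ d₂ d₃ : ℕ) (A : ℕ → ℕ → ℕ → ℂ) (x₁ x₂ x₃ : ℂ) (h₀ : ℕ → ℤ) (m₀ : ℕ → ℕ → ℤ) (ε Y : ℝ)
    (hY₁ : ∀ j ≤ d₃, ∀ i ≤ d₂, ∀ k ≤ d₁, ‖x₁ + m₀ j i + k‖ ≤ Y)
    (hY₂ : ∀ j ≤ d₃, ∀ i ≤ d₂, ‖x₂ + h₀ j + i‖ ≤ Y) (hY₃ : ∀ j ≤ d₃, ‖x₃ + j‖ ≤ Y)
    (h : ∀ j ≤ d₃, ∀ i ≤ d₂, ∀ k ≤ d₁, ‖∑ κ₁ ∈ Finset.range (d₁ + 1), ∑ κ₂ ∈ Finset.range (d₂ + 1),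
      ∑ κ₃ ∈ Finset.range (d₃ + 1), A κ₁ κ₂ κ₃ * ((x₁ + m₀ j i + k) ^ κ₁ * (x₂ + h₀ j + i) ^ κ₂ * (x₃ + j) ^ κ₃)‖ ≤ ε)
    (κ₁ κ₂ κ₃ : ℕ) (h₁ : κ₁ ≤ d₁) (h₂ : κ₂ ≤ d₂) (h₃ : κ₃ ≤ d₃) :
    ‖A κ₁ κ₂ κ₃‖ ≤ ((d₁ + 1) * (d₂ + 1) * (d₃ + 1)) * (1 + Y) ^ (d₁ + d₂ + d₃) * ε := by
  have s1 : ∀ j ≤ d₃, ∀ i ≤ d₂, ‖∑ κ₂ ∈ Finset.range (d₂ + 1), ∑ κ₃ ∈ Finset.range (d₃ + 1),
      A κ₁ κ₂ κ₃ * ((x₂ + h₀ j + i) ^ κ₂ * (x₃ + j) ^ κ₃)‖ ≤ (d₁ + 1) * (1 + Y) ^ d₁ * ε := by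
    intro j hj i hi
    refine interp1 d₁ (fun κ₁ => ∑ κ₂ ∈ Finset.range (d₂ + 1), ∑ κ₃ ∈ Finset.range (d₃ + 1),
      A κ₁ κ₂ κ₃ * ((x₂ + h₀ j + i) ^ κ₂ * (x₃ + j) ^ κ₃)) x₁ (m₀ j i) ε Y (hY₁ j hj i hi) ?_ κ₁ h₁
    intro k hk
    have := h j hj i hi k hk
    refine le_of_eq_of_le ?_ this
    congr 1
    refine Finset.sum_congr rfl fun a _ => ?_
    rw [Finset.sum_mul]
    refine Finset.sum_congr rfl fun b _ => ?_
    rw [Finset.sum_mul]
    refine Finset.sum_congr rfl fun c _ => ?_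
    ring
  have s2 : ∀ j ≤ d₃, ‖∑ κ₃ ∈ Finset.range (d₃ + 1), A κ₁ κ₂ κ₃ * (x₃ + j) ^ κ₃‖ ≤
      (d₂ + 1) * (1 + Y) ^ d₂ * ((d₁ + 1) * (1 + Y) ^ d₁ * ε) := by
    intro j hj
    refine interp1 d₂ (fun κ₂ => ∑ κ₃ ∈ Finset.range (d₃ + 1), A κ₁ κ₂ κ₃ * (x₃ + j) ^ κ₃) x₂ (h₀ j)
      ((d₁ + 1) * (1 + Y) ^ d₁ * ε) Y (hY₂ j hj) ?_ κ₂ h₂
    intro i hi
    have := s1 j hj i hi
    refine le_of_eq_of_le ?_ this
    congr 1
    refine Finset.sum_congr rfl fun b _ => ?_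
    rw [Finset.sum_mul]
    refine Finset.sum_congr rfl fun c _ => ?_
    ring
  have s3 := interp1 d₃ (fun κ₃ => A κ₁ κ₂ κ₃) x₃ 0
    ((d₂ + 1) * (1 + Y) ^ d₂ * ((d₁ + 1) * (1 + Y) ^ d₁ * ε)) Y
    (by intro k hk; simpa using hY₃ k hk) (by intro k hk; simpa using s2 k hk) κ₃ h₃
  refine s3.trans (le_of_eq ?_)
  rw [pow_add, pow_add]
  ring

end Pool.Agent.MSP
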