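import Pool.Agent.Lib.MP_f58a57_nt.P.Defs

/-! # Z4c: coefficients of polynomials that are small on a polydisc (MP_f58a57_nt, pairs) -/

open Complex Filter Topology

noncomputable section

namespace Pool.Agent.MSP

/-- Cauchy's estimate for the coefficients of a polynomial (via Parseval). -/
theorem z4c_coeff_le (Q : Polynomial ℂ) (ε : ℝ) (h : ∀ u : ℂ, ‖u‖ = 1 → ‖Q.eval u‖ ≤ ε) (c : ℕ) :
    ‖Q.coeff c‖ ≤ ε := by
  have hε : 0 ≤ ε := le_trans (norm_nonneg _) (h 1 (by simp))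
  have h1 : ∑ i ∈ Q.support, ‖Q.coeff i‖ ^ 2 ≤ ε ^ 2 := by
    rw [Q.sum_sq_norm_coeff_eq_circleAverage]
    have hc : Continuous (fun z : ℂ => ‖Q.eval z‖ ^ 2) := by fun_prop
    have := Real.circleAverage_mono_on_of_le_circle (c := (0 : ℂ)) (R := 1) (a := ε ^ 2)
      (f := fun z : ℂ => ‖Q.eval z‖ ^ 2) (hc.continuousOn.circleIntegrable')
      (by
        intro x hx
        have hx' : ‖x‖ = 1 := by simpa using hx
        have := h x hx'
        have h0 := norm_nonneg (Q.eval x)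
        nlinarith)
    exact this
  by_cases hs : c ∈ Q.support
  · have h2 : ‖Q.coeff c‖ ^ 2 ≤ ∑ i ∈ Q.support, ‖Q.coeff i‖ ^ 2 :=
      Finset.single_le_sum (f := fun i => ‖Q.coeff i‖ ^ 2) (fun i _ => by positivity) hs
    have h3 : ‖Q.coeff c‖ ^ 2 ≤ ε ^ 2 := h2.trans h1
    exact (sq_le_sq₀ (norm_nonneg _) hε).1 h3
  · rw [Polynomial.notMem_support_iff.1 hs]; simpa using hε

/-- Z4c. PROOF. `q(u) = ∑_a A_a (p + u)^a = ∑_c B_c u^c` satisfies `‖q(u)‖ ≤ ε` on the unit disc, so `‖B_c‖ ≤ ε` (Cauchy), and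
`A_a = ∑_{c ≥ a} B_c (c choose a) (-p)^{c-a}`, `(c choose a)‖p‖^{c-a} ≤ (1 + ‖p‖)^c`. (Or Lagrange interpolation at suitable points, any
constant `C` depending on `p` only will do.) -/
theorem coeff1 (L : ℕ) (A : ℕ → ℂ) (p : ℂ) (ε : ℝ)
    (h : ∀ x : ℂ, ‖x - p‖ ≤ 1 → ‖∑ a ∈ Finset.range (L + 1), A a * x ^ a‖ ≤ ε) (a : ℕ) (ha : a ≤ L) :
    ‖A a‖ ≤ (L + 1) * (1 + ‖p‖) ^ L * ε := by
  classical
  have hε : 0 ≤ ε := le_trans (norm_nonneg _) (h p (by simp))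
  set P : Polynomial ℂ := ∑ i ∈ Finset.range (L + 1), Polynomial.C (A i) * Polynomial.X ^ i with hP
  have hPc : P.coeff a = A a := by
    rw [hP, Polynomial.finsetSum_coeff]
    simp only [Polynomial.coeff_C_mul_X_pow]
    rw [Finset.sum_eq_single a]
    · simp
    · intro b _ hb; simp [Ne.symm hb]
    · intro h'; exact absurd (Finset.mem_range.2 (by omega)) h'
  have hPe : ∀ x, P.eval x = ∑ i ∈ Finset.range (L + 1), A i * x ^ i := by
    intro x; rw [hP, Polynomial.eval_finsetSum]; simp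
  have hPd : P.natDegree ≤ L := by
    rw [hP]
    refine Polynomial.natDegree_sum_le_of_forall_le _ _ ?_
    intro i hi
    exact (Polynomial.natDegree_C_mul_X_pow_le _ _).trans (by have := Finset.mem_range.1 hi; omega)
  set Q := Polynomial.taylor p P with hQ
  have hQe : ∀ u : ℂ, ‖u‖ = 1 → ‖Q.eval u‖ ≤ ε := by
    intro u hu
    rw [hQ, Polynomial.taylor_eval, hPe]
    exact h _ (by simp [hu])
  have hB := z4c_coeff_le Q ε hQe
  have hQd : Q.natDegree ≤ L := by rw [hQ, Polynomial.natDegree_taylor]; exact hPd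
  have hPQ : P = Polynomial.taylor (-p) Q := by
    rw [hQ, Polynomial.taylor_taylor]; simp
  have hA : A a = (Polynomial.hasseDeriv a Q).eval (-p) := by
    rw [← hPc, hPQ, Polynomial.taylor_coeff]
  have hsum : (Polynomial.hasseDeriv a Q).eval (-p)
      = ∑ i ∈ Finset.range (L + 1), (Polynomial.hasseDeriv a Q).coeff i * (-p) ^ i := by
    refine Polynomial.eval_eq_sum_range' ?_ _
    exact lt_of_le_of_lt ((Polynomial.natDegree_hasseDeriv_le Q a).trans (by omega)) (Nat.lt_succ_self L)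
  rw [hA, hsum]
  have hp1 : (1 : ℝ) ≤ 1 + ‖p‖ := by linarith [norm_nonneg p]
  have hterm : ∀ i ∈ Finset.range (L + 1),
      ‖(Polynomial.hasseDeriv a Q).coeff i * (-p) ^ i‖ ≤ (1 + ‖p‖) ^ L * ε := by
    intro i _
    rw [Polynomial.hasseDeriv_coeff, norm_mul, norm_mul, norm_pow, norm_neg]
    by_cases hi : i + a ≤ L
    · have h1 : ‖(((i + a).choose a : ℕ) : ℂ)‖ = (((i + a).choose a : ℕ) : ℝ) := by simp
      rw [h1]
      have h2 : (((i + a).choose a : ℕ) : ℝ) * ‖p‖ ^ i ≤ (1 + ‖p‖) ^ (i + a) := by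
        rw [add_pow]
        have h3 : i + a - a = i := by omega
        calc (((i + a).choose a : ℕ) : ℝ) * ‖p‖ ^ i
            = 1 ^ a * ‖p‖ ^ (i + a - a) * (((i + a).choose a : ℕ) : ℝ) := by
              rw [h3]; ring
          _ ≤ _ := Finset.single_le_sum
              (f := fun m => (1 : ℝ) ^ m * ‖p‖ ^ (i + a - m) * (((i + a).choose m : ℕ) : ℝ))
              (fun m _ => by positivity) (Finset.mem_range.2 (by omega))
      have h4 : (1 + ‖p‖) ^ (i + a) ≤ (1 + ‖p‖) ^ L := pow_le_pow_right₀ hp1 hi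
      calc (((i + a).choose a : ℕ) : ℝ) * ‖Q.coeff (i + a)‖ * ‖p‖ ^ i
          = ((((i + a).choose a : ℕ) : ℝ) * ‖p‖ ^ i) * ‖Q.coeff (i + a)‖ := by ring
        _ ≤ (1 + ‖p‖) ^ L * ε :=
            mul_le_mul (h2.trans h4) (hB _) (norm_nonneg _) (by positivity)
    · have h0 : Q.coeff (i + a) = 0 :=
        Polynomial.coeff_eq_zero_of_natDegree_lt (by omega)
      rw [h0]; simp; positivity
  calc ‖∑ i ∈ Finset.range (L + 1), (Polynomial.hasseDeriv a Q).coeff i * (-p) ^ i‖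
      ≤ ∑ i ∈ Finset.range (L + 1), (1 + ‖p‖) ^ L * ε := norm_sum_le_of_le _ hterm
    _ = (L + 1) * (1 + ‖p‖) ^ L * ε := by
        rw [Finset.sum_const, Finset.card_range, nsmul_eq_mul]; push_cast; ring

/-- Z4d. PROOF. Two applications of Z4c. -/
theorem coeff2 (L : ℕ) (A : ℕ → ℕ → ℂ) (p₁ p₂ : ℂ) (ε : ℝ)
    (h : ∀ x y : ℂ, ‖x - p₁‖ ≤ 1 → ‖y - p₂‖ ≤ 1 →
      ‖∑ a ∈ Finset.range (L + 1), ∑ b ∈ Finset.range (L + 1), A a b * (x ^ a * y ^ b)‖ ≤ ε)
    (a b : ℕ) (ha : a ≤ L) (hb : b ≤ L) :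
    ‖A a b‖ ≤ (L + 1) ^ 2 * ((1 + ‖p₁‖) * (1 + ‖p₂‖)) ^ L * ε := by
  have h1 : ∀ y : ℂ, ‖y - p₂‖ ≤ 1 →
      ‖∑ b ∈ Finset.range (L + 1), A a b * y ^ b‖ ≤ (L + 1) * (1 + ‖p₁‖) ^ L * ε := by
    intro y hy
    refine coeff1 L (fun a => ∑ b ∈ Finset.range (L + 1), A a b * y ^ b) p₁ ε ?_ a ha
    intro x hx
    have := h x y hx hy
    convert this using 3
    rw [Finset.sum_mul]
    refine Finset.sum_congr rfl fun b _ => ?_
    ring
  have h2 := coeff1 L (fun b => A a b) p₂ _ h1 b hb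
  refine h2.trans (le_of_eq ?_)
  rw [mul_pow]; ring

end Pool.Agent.MSP
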