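import Pool.Agent.Lib.MP_f58a57_nt.P.T3_Zeros

/-! # Z5: the values of `wp` cover a disc (MP_f58a57_nt, pairs) -/

open Complex Filter Topology

noncomputable section

namespace Pool.Agent.MSP

/-- Z5. PROOF. Near `0` the function `u(t) = N0 τ t ^ 2 / N2 τ s t` is analytic (`N2 τ s 0 = (th' 0)² ≠ 0`, T3b, as `th 0 = 0`), `u 0 = 0`, and it is not
constant near `0` (`N0 ≠ 0` on a punctured neighbourhood of `0`, T3a). By the open mapping theorem
(`AnalyticAt.eventually_constant_or_nhds_le_map_nhds`) every `y` with `‖y‖ ≤ δ₁` is `u t` for some `t` in a small disc on which `‖N2‖ ≥ c`, `‖N2‖ ≤ C`. For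
`p = 1 + 1/δ₁ + ...` real and `‖x - p‖ ≤ 1`: `‖1/x‖ ≤ δ₁`, so `x = 1/u(t) = wp τ s t`; and `‖N0 t‖² = ‖N2 t‖/‖x‖ ≥ c/(‖p‖ + 1)`. -/
theorem wp_cover (τ s : ℂ) (hτ : 0 < τ.im) : ∃ (ρ₀ δ : ℝ) (p : ℂ), 0 < ρ₀ ∧ 0 < δ ∧ ∀ x : ℂ, ‖x - p‖ ≤ 1 →
    ∃ t : ℂ, ‖t‖ ≤ ρ₀ ∧ δ ≤ ‖N0 τ t‖ ∧ wp τ s t = x := by
  have hth : AnalyticAt ℂ (th τ) 0 := (th_differentiable τ hτ).analyticAt 0
  have hth0 : th τ 0 = 0 := (th_eq_zero_iff τ hτ 0).mpr ⟨0, 0, by simp⟩
  have hN0 : AnalyticAt ℂ (N0 τ) 0 := hth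
  have hN2 : AnalyticAt ℂ (N2 τ s) 0 := by
    have h1 : AnalyticAt ℂ (deriv (th τ)) 0 := hth.deriv
    have h2 : AnalyticAt ℂ (deriv (deriv (th τ))) 0 := h1.deriv
    exact ((h1.pow 2).sub (hth.mul h2)).sub (analyticAt_const.mul (hth.pow 2))
  have hN20 : N2 τ s 0 ≠ 0 := by
    unfold N2
    rw [hth0]
    have := deriv_th_zero_ne τ hτ
    simpa using this
  have hu : AnalyticAt ℂ (fun t => N0 τ t ^ 2 / N2 τ s t) 0 := (hN0.pow 2).div hN2 hN20
  have hc0 : 0 < ‖N2 τ s 0‖ := norm_pos_iff.mpr hN20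
  -- a neighbourhood on which `N2` is bounded below
  have hev : ∀ᶠ t in 𝓝 (0 : ℂ), ‖N2 τ s 0‖ / 2 < ‖N2 τ s t‖ := by
    have hcont : ContinuousAt (fun t => ‖N2 τ s t‖) 0 := hN2.continuousAt.norm
    exact hcont.eventually (lt_mem_nhds (by linarith))
  obtain ⟨r, hr, hball⟩ := Metric.eventually_nhds_iff_ball.mp hev
  rcases hu.eventually_constant_or_nhds_le_map_nhds with hconst | hopen
  · exfalso
    obtain ⟨r', hr', hball'⟩ := Metric.eventually_nhds_iff_ball.mp hconst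
    set x : ℝ := min (min r r') 1 / 2 with hx
    have hx0 : 0 < x := by
      rw [hx]
      have : 0 < min (min r r') 1 := lt_min (lt_min hr hr') one_pos
      linarith
    have hx1 : x < 1 := by
      rw [hx]
      have : min (min r r') 1 ≤ 1 := min_le_right _ _
      linarith
    have hxr : x < r := by
      rw [hx]
      have h1 : min (min r r') 1 ≤ r := (min_le_left _ _).trans (min_le_left _ _)
      have : 0 < min (min r r') 1 := lt_min (lt_min hr hr') one_pos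
      linarith
    have hxr' : x < r' := by
      rw [hx]
      have h1 : min (min r r') 1 ≤ r' := (min_le_left _ _).trans (min_le_right _ _)
      have : 0 < min (min r r') 1 := lt_min (lt_min hr hr') one_pos
      linarith
    have hxm : ∀ m : ℤ, x ≠ m := by
      intro m hm
      rw [hm] at hx0 hx1
      have h1 : (0 : ℤ) < m := by exact_mod_cast hx0
      have h2 : m < 1 := by exact_mod_cast hx1
      omega
    have hne := th_real_ne τ hτ x hxm
    have hnorm : ‖(x : ℂ)‖ = x := by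
      rw [Complex.norm_real, Real.norm_eq_abs, abs_of_pos hx0]
    have hmem : (x : ℂ) ∈ Metric.ball (0 : ℂ) r := by
      rw [mem_ball_zero_iff, hnorm]; exact hxr
    have hmem' : (x : ℂ) ∈ Metric.ball (0 : ℂ) r' := by
      rw [mem_ball_zero_iff, hnorm]; exact hxr'
    have h1 := hball' _ hmem'
    have h2 := hball _ hmem
    have h3 : N2 τ s x ≠ 0 := by
      intro h
      rw [h, norm_zero] at h2
      linarith
    have h4 : N0 τ (0 : ℂ) = 0 := hth0
    simp only [h4] at h1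
    rw [div_eq_iff h3] at h1
    simp at h1
    exact hne h1
  · have hV : (fun t => N0 τ t ^ 2 / N2 τ s t) '' Metric.ball (0 : ℂ) r ∈ 𝓝 ((fun t => N0 τ t ^ 2 / N2 τ s t) 0) := by
      apply hopen
      exact Filter.image_mem_map (Metric.ball_mem_nhds _ hr)
    have h4 : N0 τ (0 : ℂ) = 0 := hth0
    have hu0 : (fun t => N0 τ t ^ 2 / N2 τ s t) 0 = 0 := by
      simp [h4]
    rw [hu0] at hV
    obtain ⟨δ₁, hδ₁, hsub⟩ := Metric.mem_nhds_iff.mp hV
    set p : ℝ := 2 + 1 / δ₁ with hp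
    have hp0 : 0 < p := by positivity
    have hnp : ‖(p : ℂ)‖ = p := by
      rw [Complex.norm_real, Real.norm_eq_abs, abs_of_pos hp0]
    refine ⟨r, Real.sqrt (‖N2 τ s 0‖ / 2 / (p + 1)), (p : ℂ), hr, Real.sqrt_pos.mpr (by positivity), ?_⟩
    intro x hx
    have hx1 : p - 1 ≤ ‖x‖ := by
      have h5 : ‖(p : ℂ)‖ ≤ ‖x‖ + ‖x - p‖ := by
        have := norm_sub_le x (x - p)
        simpa using this
      rw [hnp] at h5
      linarith
    have hx2 : ‖x‖ ≤ p + 1 := by
      have h5 : ‖x‖ ≤ ‖x - p‖ + ‖(p : ℂ)‖ := by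
        have := norm_add_le (x - p) (p : ℂ)
        simpa using this
      rw [hnp] at h5
      linarith
    have hxpos : 0 < ‖x‖ := by
      have : 0 < 1 / δ₁ := by positivity
      linarith
    have hxne : x ≠ 0 := norm_pos_iff.mp hxpos
    have hmem : x⁻¹ ∈ Metric.ball (0 : ℂ) δ₁ := by
      rw [mem_ball_zero_iff, norm_inv]
      have h6 : 1 / δ₁ < ‖x‖ := by linarith
      rw [inv_lt_comm₀ hxpos hδ₁]
      simpa using h6
    obtain ⟨t, ht, htx⟩ := hsub hmem
    have ht' : ‖t‖ < r := by simpa using ht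
    have hN2t := hball t ht
    have hN2ne : N2 τ s t ≠ 0 := by
      intro h
      rw [h, norm_zero] at hN2t
      linarith
    simp only at htx
    have hwp : wp τ s t = x := by
      unfold wp
      rw [← inv_inv x, ← htx, inv_div]
    refine ⟨t, ht'.le, ?_, hwp⟩
    have hN0sq : ‖N0 τ t‖ ^ 2 = ‖N2 τ s t‖ / ‖x‖ := by
      rw [div_eq_iff hN2ne] at htx
      rw [← norm_pow, htx, norm_mul, norm_inv]
      field_simp
    rw [Real.sqrt_le_left (norm_nonneg _), hN0sq]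
    gcongr

end Pool.Agent.MSP
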