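import Pool.Agent.Lib.MP_f58a57_nt.P.Z3_Sheet
import Pool.Agent.Lib.MP_f58a57_nt.P.Z4_Interp
import Pool.Agent.Lib.MP_f58a57_nt.P.Z4c_Coeff
import Pool.Agent.Lib.MP_f58a57_nt.P.Z5_Cover
import Pool.Agent.Lib.MP_f58a57_nt.P.G5_FF

/-! # Z6: the zero estimate (MP_f58a57_nt, pairs) -/

open Complex Filter Topology

noncomputable section

namespace Pool.Agent.MSP

/-- the sample points `n = (n₁, n₂, m)`: `n₁ = j b₁ + (h₀ j + i) a₂`, `n₂ = j b₂ - (h₀ j + i) a₁`, `m = m₀ j i + k` -/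
def Nodes (τ₁ τ₂ : ℂ) (P : Pr) (X R₀ : ℝ) (h₀ : ℕ → ℤ) (m₀ : ℕ → ℕ → ℤ) : Prop :=
  ∀ j ≤ P.d₃, ∀ i ≤ P.d₂, ∀ k ≤ P.d₁,
    |((j * P.b₁ + (h₀ j + i) * P.a₂ : ℤ) : ℝ)| ≤ X ∧
    ‖(((j * P.b₂ - (h₀ j + i) * P.a₁ : ℤ) : ℂ) * τ₂ - ((j * P.b₁ + (h₀ j + i) * P.a₂ : ℤ) : ℂ) * τ₁ +
      ((m₀ j i + k : ℤ) : ℂ))‖ ≤ R₀

theorem z6_ph (c : Cv) (ρ δ : ℝ) (hδ : 0 < δ) : ∃ K : ℝ, 1 ≤ K ∧ ∀ t : ℂ, ‖t‖ ≤ ρ → δ ≤ ‖N0 c.τ t‖ →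
    ‖ph c.τ t‖ ≤ K := by
  have hd : Continuous (deriv (th c.τ)) := by
    rw [continuous_iff_continuousAt]
    intro z
    exact ((th_differentiable c.τ c.im).analyticAt z).deriv.continuousAt
  obtain ⟨K, hK⟩ := (isCompact_closedBall (0 : ℂ) ρ).exists_bound_of_continuousOn hd.continuousOn
  refine ⟨max 1 (max K 0 / δ), le_max_left _ _, fun t ht hN => ?_⟩
  have h1 : ‖N1 c.τ t‖ ≤ max K 0 := (hK t (by simpa using ht)).trans (le_max_left _ _)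
  have h2 : ‖ph c.τ t‖ ≤ max K 0 / δ := by
    rw [ph, norm_div]
    exact div_le_div₀ (le_max_right _ _) h1 hδ hN
  exact h2.trans (le_max_right _ _)

theorem z6_A (P : Pr) : 2 ≤ P.A ∧ |(P.a₁ : ℝ)| + |(P.a₂ : ℝ)| ≤ P.A ∧ |(P.b₁ : ℝ)| + |(P.b₂ : ℝ)| ≤ P.A := by
  unfold Pr.A
  have h1 := abs_nonneg (P.a₁ : ℝ)
  have h2 := abs_nonneg (P.a₂ : ℝ)
  have h3 := abs_nonneg (P.b₁ : ℝ)
  have h4 := abs_nonneg (P.b₂ : ℝ)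
  refine ⟨by linarith, by linarith, by linarith⟩

theorem z6_lin (a b : ℤ) (x y : ℂ) (K : ℝ) (hx : ‖x‖ ≤ K) (hy : ‖y‖ ≤ K) :
    ‖(a : ℂ) * x‖ + ‖(b : ℂ) * y‖ ≤ (|(a : ℝ)| + |(b : ℝ)|) * K := by
  rw [norm_mul, norm_mul, Complex.norm_intCast, Complex.norm_intCast, add_mul]
  exact add_le_add (mul_le_mul_of_nonneg_left hx (abs_nonneg _))
    (mul_le_mul_of_nonneg_left hy (abs_nonneg _))

theorem z6_xx (c₁ c₂ : Cv) (ρ K : ℝ) (hρ : 0 ≤ ρ) (hK : 1 ≤ K) (P : Pr) (t w : ℂ) (ht : ‖t‖ ≤ ρ) (hw : ‖w‖ ≤ ρ)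
    (h1 : ‖ph c₁.τ t‖ ≤ K) (h2 : ‖ph c₂.τ w‖ ≤ K) (i : Fin 3) :
    ‖xx c₁ c₂ P i t w‖ ≤ (2 * ρ + (‖c₁.τ‖ + ‖c₂.τ‖ + 1) * K) * P.A := by
  have hpi : (1 : ℝ) ≤ ‖(2 * Real.pi * I : ℂ)‖ := by
    rw [norm_mul, norm_mul, Complex.norm_I, mul_one, Complex.norm_real, Real.norm_eq_abs,
      abs_of_pos Real.pi_pos, Complex.norm_ofNat]
    have := Real.pi_gt_three
    linarith
  have e1 : ‖ph c₁.τ t / (2 * Real.pi * I)‖ ≤ K := by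
    rw [norm_div]; exact (div_le_self (norm_nonneg _) hpi).trans h1
  have e2 : ‖ph c₂.τ w / (2 * Real.pi * I)‖ ≤ K := by
    rw [norm_div]; exact (div_le_self (norm_nonneg _) hpi).trans h2
  obtain ⟨hA, hAa, hAb⟩ := z6_A P
  have n1 := norm_nonneg c₁.τ
  have n2 := norm_nonneg c₂.τ
  have hK0 : 0 ≤ K := by linarith
  have hbase : 0 ≤ 2 * ρ + (‖c₁.τ‖ + ‖c₂.τ‖) * K := by positivity
  have hKA : K * P.A ≤ (2 * ρ + (‖c₁.τ‖ + ‖c₂.τ‖ + 1) * K) * P.A := by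
    apply mul_le_mul_of_nonneg_right _ (by linarith)
    have : 0 ≤ 2 * ρ + (‖c₁.τ‖ + ‖c₂.τ‖) * K := hbase
    linarith
  have x0 : ‖(w - t) + c₂.τ * (ph c₂.τ w / (2 * Real.pi * I)) - c₁.τ * (ph c₁.τ t / (2 * Real.pi * I))‖ ≤
      (2 * ρ + (‖c₁.τ‖ + ‖c₂.τ‖ + 1) * K) * P.A := by
    have a1 : ‖c₂.τ * (ph c₂.τ w / (2 * Real.pi * I))‖ ≤ ‖c₂.τ‖ * K := by
      rw [norm_mul]; exact mul_le_mul_of_nonneg_left e2 n2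
    have a2 : ‖c₁.τ * (ph c₁.τ t / (2 * Real.pi * I))‖ ≤ ‖c₁.τ‖ * K := by
      rw [norm_mul]; exact mul_le_mul_of_nonneg_left e1 n1
    have a3 := norm_sub_le (w - t + c₂.τ * (ph c₂.τ w / (2 * Real.pi * I)))
      (c₁.τ * (ph c₁.τ t / (2 * Real.pi * I)))
    have a4 := norm_add_le (w - t) (c₂.τ * (ph c₂.τ w / (2 * Real.pi * I)))
    have a5 := norm_sub_le w t
    have a6 : 2 * ρ + (‖c₁.τ‖ + ‖c₂.τ‖ + 1) * K ≤ (2 * ρ + (‖c₁.τ‖ + ‖c₂.τ‖ + 1) * K) * P.A := by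
      apply le_mul_of_one_le_right _ (by linarith)
      linarith
    linarith
  have x1 : ‖-(P.b₂ * (ph c₁.τ t / (2 * Real.pi * I))) + P.b₁ * (ph c₂.τ w / (2 * Real.pi * I))‖ ≤
      (2 * ρ + (‖c₁.τ‖ + ‖c₂.τ‖ + 1) * K) * P.A := by
    have a1 := z6_lin P.b₂ P.b₁ _ _ K e1 e2
    have a2 := norm_add_le (-((P.b₂ : ℂ) * (ph c₁.τ t / (2 * Real.pi * I))))
      (P.b₁ * (ph c₂.τ w / (2 * Real.pi * I)))
    rw [norm_neg] at a2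
    have a3 : (|(P.b₂ : ℝ)| + |(P.b₁ : ℝ)|) * K ≤ K * P.A := by
      rw [mul_comm]; exact mul_le_mul_of_nonneg_left (by linarith) hK0
    linarith
  have x2 : ‖-(P.a₁ * (ph c₁.τ t / (2 * Real.pi * I))) - P.a₂ * (ph c₂.τ w / (2 * Real.pi * I))‖ ≤
      (2 * ρ + (‖c₁.τ‖ + ‖c₂.τ‖ + 1) * K) * P.A := by
    have a1 := z6_lin P.a₁ P.a₂ _ _ K e1 e2
    have a2 := norm_sub_le (-((P.a₁ : ℂ) * (ph c₁.τ t / (2 * Real.pi * I))))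
      (P.a₂ * (ph c₂.τ w / (2 * Real.pi * I)))
    rw [norm_neg] at a2
    have a3 : (|(P.a₁ : ℝ)| + |(P.a₂ : ℝ)|) * K ≤ K * P.A := by
      rw [mul_comm]; exact mul_le_mul_of_nonneg_left hAa hK0
    linarith
  fin_cases i
  · exact x0
  · exact x1
  · exact x2

theorem z6_int (c₁ c₂ : Cv) : ∃ K : ℝ, 1 ≤ K ∧ ∀ X R₀ : ℝ, 1 ≤ R₀ → R₀ ≤ X → ∀ n₁ n₂ m : ℤ, |(n₁ : ℝ)| ≤ X →
    ‖(n₂ * c₂.τ - n₁ * c₁.τ + m : ℂ)‖ ≤ R₀ → |(n₂ : ℝ)| ≤ K * X ∧ |(m : ℝ)| ≤ K * X := by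
  have h1 := c₁.im
  have h2 := c₂.im
  set K₂ : ℝ := (1 + c₁.τ.im) / c₂.τ.im with hK₂
  have hK₂0 : 0 < K₂ := by positivity
  have nn1 := norm_nonneg c₁.τ
  have nn2 := norm_nonneg c₂.τ
  refine ⟨1 + K₂ + K₂ * ‖c₂.τ‖ + ‖c₁.τ‖, by
    have : 0 ≤ K₂ * ‖c₂.τ‖ := by positivity
    linarith, ?_⟩
  intro X R₀ hR hRX n₁ n₂ m hn₁ hnorm
  have hX : 1 ≤ X := hR.trans hRX
  have him := (Complex.abs_im_le_norm _).trans hnorm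
  have e1 : (n₂ * c₂.τ - n₁ * c₁.τ + m : ℂ).im = n₂ * c₂.τ.im - n₁ * c₁.τ.im := by simp
  rw [e1] at him
  have e2 : |(n₂ : ℝ)| * c₂.τ.im ≤ X * (1 + c₁.τ.im) := by
    have a1 : |(n₂ : ℝ) * c₂.τ.im| ≤ |(n₂ : ℝ) * c₂.τ.im - n₁ * c₁.τ.im| + |(n₁ : ℝ) * c₁.τ.im| := by
      have := abs_add_le ((n₂ : ℝ) * c₂.τ.im - n₁ * c₁.τ.im) (n₁ * c₁.τ.im)
      simpa using this
    rw [abs_mul, abs_of_pos h2, abs_mul (n₁ : ℝ), abs_of_pos h1] at a1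
    have a2 : |(n₁ : ℝ)| * c₁.τ.im ≤ X * c₁.τ.im := mul_le_mul_of_nonneg_right hn₁ h1.le
    have a3 : X * (1 + c₁.τ.im) = X + X * c₁.τ.im := by ring
    rw [a3]
    linarith
  have e3 : |(n₂ : ℝ)| ≤ K₂ * X := by
    rw [hK₂, div_mul_eq_mul_div, le_div_iff₀ h2]
    linarith
  have e4 : |(m : ℝ)| ≤ (1 + K₂ * ‖c₂.τ‖ + ‖c₁.τ‖) * X := by
    have a1 : (m : ℂ) = (n₂ * c₂.τ - n₁ * c₁.τ + m : ℂ) - n₂ * c₂.τ + n₁ * c₁.τ := by ring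
    have a2 : ‖(m : ℂ)‖ ≤ ‖(n₂ * c₂.τ - n₁ * c₁.τ + m : ℂ)‖ + ‖(n₂ : ℂ) * c₂.τ‖ + ‖(n₁ : ℂ) * c₁.τ‖ := by
      calc ‖(m : ℂ)‖ = ‖(n₂ * c₂.τ - n₁ * c₁.τ + m : ℂ) - n₂ * c₂.τ + n₁ * c₁.τ‖ := by rw [← a1]
        _ ≤ ‖(n₂ * c₂.τ - n₁ * c₁.τ + m : ℂ) - n₂ * c₂.τ‖ + ‖(n₁ : ℂ) * c₁.τ‖ := norm_add_le _ _
        _ ≤ _ := by
          have := norm_sub_le (n₂ * c₂.τ - n₁ * c₁.τ + m : ℂ) (n₂ * c₂.τ)
          linarith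
    rw [Complex.norm_intCast, norm_mul, norm_mul, Complex.norm_intCast, Complex.norm_intCast] at a2
    have a3 : |(n₂ : ℝ)| * ‖c₂.τ‖ ≤ K₂ * X * ‖c₂.τ‖ := mul_le_mul_of_nonneg_right e3 nn2
    have a4 : |(n₁ : ℝ)| * ‖c₁.τ‖ ≤ X * ‖c₁.τ‖ := mul_le_mul_of_nonneg_right hn₁ nn1
    have a5 : (1 + K₂ * ‖c₂.τ‖ + ‖c₁.τ‖) * X = X + K₂ * X * ‖c₂.τ‖ + X * ‖c₁.τ‖ := by ring
    rw [a5]
    linarith
  have e5 : 0 ≤ K₂ * ‖c₂.τ‖ * X := by positivity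
  have e6 : 0 ≤ ‖c₁.τ‖ * X := by positivity
  have e7 : 0 ≤ K₂ * X := by positivity
  have e8 : (1 + K₂ + K₂ * ‖c₂.τ‖ + ‖c₁.τ‖) * X =
      X + K₂ * X + K₂ * ‖c₂.τ‖ * X + ‖c₁.τ‖ * X := by ring
  have e9 : (1 + K₂ * ‖c₂.τ‖ + ‖c₁.τ‖) * X = X + K₂ * ‖c₂.τ‖ * X + ‖c₁.τ‖ * X := by ring
  rw [e9] at e4
  rw [e8]
  clear_value K₂
  constructor
  · linarith
  · linarith

theorem z6_sum (P : Pr) (coef : ℕ × ℕ × ℕ × ℕ × ℕ → ℂ) (x y u v z : ℂ) :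
    ∑ ν ∈ P.box, coef ν * (x ^ ν.1 * y ^ ν.2.1 * (u ^ ν.2.2.1 * v ^ ν.2.2.2.1 * z ^ ν.2.2.2.2)) =
    ∑ κ₁ ∈ Finset.range (P.d₁ + 1), ∑ κ₂ ∈ Finset.range (P.d₂ + 1), ∑ κ₃ ∈ Finset.range (P.d₃ + 1),
      (∑ a ∈ Finset.range (P.L + 1), ∑ b ∈ Finset.range (P.L + 1), coef (a, b, κ₁, κ₂, κ₃) * (x ^ a * y ^ b)) *
        (u ^ κ₁ * v ^ κ₂ * z ^ κ₃) := by
  have h1 : ∑ ν ∈ P.box, coef ν * (x ^ ν.1 * y ^ ν.2.1 * (u ^ ν.2.2.1 * v ^ ν.2.2.2.1 * z ^ ν.2.2.2.2)) =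
      ∑ κ ∈ Finset.range (P.d₁ + 1) ×ˢ Finset.range (P.d₂ + 1) ×ˢ Finset.range (P.d₃ + 1),
        ∑ a ∈ Finset.range (P.L + 1), ∑ b ∈ Finset.range (P.L + 1),
        coef (a, b, κ.1, κ.2.1, κ.2.2) * (x ^ a * y ^ b * (u ^ κ.1 * v ^ κ.2.1 * z ^ κ.2.2)) := by
    unfold Pr.box
    rw [Finset.sum_product, Finset.sum_comm]
    rw [Finset.sum_product]
    simp only
    rw [Finset.sum_comm]
    exact Finset.sum_congr rfl fun κ _ => Finset.sum_comm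
  rw [h1, Finset.sum_product]
  refine Finset.sum_congr rfl fun κ₁ _ => ?_
  rw [Finset.sum_product]
  refine Finset.sum_congr rfl fun κ₂ _ => Finset.sum_congr rfl fun κ₃ _ => ?_
  rw [Finset.sum_mul]
  refine Finset.sum_congr rfl fun a _ => ?_
  rw [Finset.sum_mul]
  refine Finset.sum_congr rfl fun b _ => ?_
  ring

theorem z6_pt (c₁ c₂ : Cv) (P : Pr) (coef : ℕ × ℕ × ℕ × ℕ × ℕ → ℂ) (t w : ℂ) (δ ε Y : ℝ) (hδ : 0 < δ)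
    (hN : δ ≤ ‖N0 c₁.τ t * N0 c₂.τ w‖) (h₀ : ℕ → ℤ) (m₀ : ℕ → ℕ → ℤ)
    (hG : ∀ j ≤ P.d₃, ∀ i ≤ P.d₂, ∀ k ≤ P.d₁,
      ‖Gs c₁ c₂ P ![((m₀ j i + k : ℤ) : ℂ), ((h₀ j + i : ℤ) : ℂ), ((j : ℤ) : ℂ)] coef t w‖ ≤ ε)
    (hY₁ : ∀ j ≤ P.d₃, ∀ i ≤ P.d₂, ∀ k ≤ P.d₁, ‖xx c₁ c₂ P 0 t w + m₀ j i + k‖ ≤ Y)
    (hY₂ : ∀ j ≤ P.d₃, ∀ i ≤ P.d₂, ‖xx c₁ c₂ P 1 t w + h₀ j + i‖ ≤ Y)
    (hY₃ : ∀ j ≤ P.d₃, ‖xx c₁ c₂ P 2 t w + j‖ ≤ Y)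
    (κ₁ κ₂ κ₃ : ℕ) (h₁ : κ₁ ≤ P.d₁) (h₂ : κ₂ ≤ P.d₂) (h₃ : κ₃ ≤ P.d₃) :
    ‖∑ a ∈ Finset.range (P.L + 1), ∑ b ∈ Finset.range (P.L + 1), coef (a, b, κ₁, κ₂, κ₃) *
      (wp c₁.τ c₁.s t ^ a * wp c₂.τ c₂.s w ^ b)‖ ≤
      (((P.d₁ : ℝ) + 1) * (P.d₂ + 1) * (P.d₃ + 1)) * (1 + Y) ^ P.l * (ε / δ ^ P.M) := by
  refine interp3 P.d₁ P.d₂ P.d₃ (fun κ₁ κ₂ κ₃ => ∑ a ∈ Finset.range (P.L + 1), ∑ b ∈ Finset.range (P.L + 1),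
    coef (a, b, κ₁, κ₂, κ₃) * (wp c₁.τ c₁.s t ^ a * wp c₂.τ c₂.s w ^ b)) (xx c₁ c₂ P 0 t w) (xx c₁ c₂ P 1 t w)
    (xx c₁ c₂ P 2 t w) h₀ m₀ (ε / δ ^ P.M) Y hY₁ hY₂ hY₃ ?_ κ₁ κ₂ κ₃ h₁ h₂ h₃
  intro j hj i hi k hk
  have hne : N0 c₁.τ t * N0 c₂.τ w ≠ 0 := by
    intro h
    rw [h, norm_zero] at hN
    linarith
  have h := hG j hj i hi k hk
  rw [Gs_eq c₁ c₂ P _ coef t w (left_ne_zero_of_mul hne) (right_ne_zero_of_mul hne), z6_sum, norm_mul,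
    norm_pow] at h
  have hpow : δ ^ P.M ≤ ‖N0 c₁.τ t * N0 c₂.τ w‖ ^ P.M := pow_le_pow_left₀ hδ.le hN _
  rw [le_div_iff₀ (by positivity), mul_comm]
  refine le_trans (mul_le_mul_of_nonneg_right hpow (norm_nonneg _)) ?_
  refine le_trans (le_of_eq ?_) h
  congr 2
  refine Finset.sum_congr rfl fun κ₁ _ => Finset.sum_congr rfl fun κ₂ _ => Finset.sum_congr rfl fun κ₃ _ => ?_
  simp only [Matrix.cons_val, Int.cast_add, Int.cast_natCast, add_assoc]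

theorem z6_num (d₁ d₂ d₃ L l M S' : ℕ) (B δ Y : ℝ) (hB : 0 ≤ B) (hδ : 0 < δ) (hl : d₁ + d₂ + d₃ ≤ L)
    (hl' : l ≤ L) (hM : M = 2 * L + l) (hY : (1 + Y) ^ l ≤ Real.exp (S' / 4)) (hY0 : 0 ≤ Y) :
    (((d₁ : ℝ) + 1) * (d₂ + 1) * (d₃ + 1)) * (1 + Y) ^ l * (B * Real.exp (-((S' : ℝ) / 2)) / δ ^ M) ≤
      B * Real.exp ((3 + 3 * Real.log (max 1 (1 / δ))) * L - S' / 4) := by
  set D : ℝ := max 1 (1 / δ) with hD
  have hD1 : 1 ≤ D := le_max_left _ _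
  have hL1 : ((L : ℝ) + 1) ≤ Real.exp L := Real.add_one_le_exp _
  have e1 : ((d₁ : ℝ) + 1) * (d₂ + 1) * (d₃ + 1) ≤ Real.exp (3 * L) := by
    have a1 : (d₁ : ℝ) + 1 ≤ Real.exp L := by
      have : (d₁ : ℝ) ≤ L := by exact_mod_cast (by omega : d₁ ≤ L)
      linarith
    have a2 : (d₂ : ℝ) + 1 ≤ Real.exp L := by
      have : (d₂ : ℝ) ≤ L := by exact_mod_cast (by omega : d₂ ≤ L)
      linarith
    have a3 : (d₃ : ℝ) + 1 ≤ Real.exp L := by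
      have : (d₃ : ℝ) ≤ L := by exact_mod_cast (by omega : d₃ ≤ L)
      linarith
    have a4 : Real.exp (3 * L) = Real.exp L * Real.exp L * Real.exp L := by
      rw [← Real.exp_add, ← Real.exp_add]; ring_nf
    rw [a4]
    exact mul_le_mul (mul_le_mul a1 a2 (by positivity) (by positivity)) a3 (by positivity) (by positivity)
  have e2 : 1 / δ ^ M ≤ Real.exp (3 * Real.log D * L) := by
    have a1 : 1 / δ ^ M = (1 / δ) ^ M := by rw [div_pow, one_pow]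
    rw [a1]
    have a2 : (1 / δ) ^ M ≤ D ^ M := pow_le_pow_left₀ (by positivity) (le_max_right _ _) _
    have a3 : D ^ M ≤ D ^ (3 * L) := pow_le_pow_right₀ hD1 (by omega)
    have a4 : D ^ (3 * L) = Real.exp (3 * Real.log D * L) := by
      have : 3 * Real.log D * L = ((3 * L : ℕ) : ℝ) * Real.log D := by push_cast; ring
      rw [this, Real.exp_nat_mul, Real.exp_log (by linarith)]
    linarith
  have e3 : Real.exp ((3 + 3 * Real.log D) * L - S' / 4) =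
      Real.exp (3 * L) * Real.exp (S' / 4) * (Real.exp (-((S' : ℝ) / 2)) * Real.exp (3 * Real.log D * L)) := by
    rw [← Real.exp_add, ← Real.exp_add, ← Real.exp_add]
    congr 1
    ring
  rw [e3]
  have e4 : B * Real.exp (-((S' : ℝ) / 2)) / δ ^ M = B * (Real.exp (-((S' : ℝ) / 2)) * (1 / δ ^ M)) := by
    ring
  rw [e4]
  have e5 : ((d₁ : ℝ) + 1) * (d₂ + 1) * (d₃ + 1) * (1 + Y) ^ l ≤ Real.exp (3 * L) * Real.exp (S' / 4) :=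
    mul_le_mul e1 hY (by positivity) (by positivity)
  have e6 : B * (Real.exp (-((S' : ℝ) / 2)) * (1 / δ ^ M)) ≤
      B * (Real.exp (-((S' : ℝ) / 2)) * Real.exp (3 * Real.log D * L)) :=
    mul_le_mul_of_nonneg_left (mul_le_mul_of_nonneg_left e2 (by positivity)) hB
  calc _ ≤ (Real.exp (3 * L) * Real.exp (S' / 4)) *
        (B * (Real.exp (-((S' : ℝ) / 2)) * Real.exp (3 * Real.log D * L))) :=
        mul_le_mul e5 e6 (by positivity) (by positivity)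
    _ = _ := by ring

theorem z6_fin (L S' : ℕ) (B a E : ℝ) (hB : 0 < B) (hE : 1 ≤ E) (hL : 1 ≤ L)
    (h : 4 * (2 + Real.log E + a) * L < S') :
    ((L : ℝ) + 1) ^ 2 * E ^ L * (B * Real.exp (a * L - S' / 4)) < B := by
  have hL1 : ((L : ℝ) + 1) ≤ Real.exp L := Real.add_one_le_exp _
  have e1 : ((L : ℝ) + 1) ^ 2 ≤ Real.exp (2 * L) := by
    have : Real.exp (2 * L) = Real.exp L ^ 2 := by rw [← Real.exp_nat_mul]; norm_num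
    rw [this]
    exact pow_le_pow_left₀ (by positivity) hL1 2
  have e2 : E ^ L = Real.exp (L * Real.log E) := by
    rw [Real.exp_nat_mul, Real.exp_log (by linarith)]
  calc ((L : ℝ) + 1) ^ 2 * E ^ L * (B * Real.exp (a * L - S' / 4))
      ≤ Real.exp (2 * L) * E ^ L * (B * Real.exp (a * L - S' / 4)) := by gcongr
    _ = B * Real.exp ((2 + Real.log E + a) * L - S' / 4) := by
        rw [e2]
        have : Real.exp ((2 + Real.log E + a) * L - S' / 4) =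
            Real.exp (2 * L) * Real.exp (L * Real.log E) * Real.exp (a * L - S' / 4) := by
          rw [← Real.exp_add, ← Real.exp_add]; congr 1; ring
        rw [this]; ring
    _ < B * 1 := by
        apply mul_lt_mul_of_pos_left _ hB
        rw [Real.exp_lt_one_iff]
        linarith
    _ = B := mul_one B

/-- Z6a. With `n₁, n₂` as in `Nodes`: `b₂ n₁ - b₁ n₂ = h₀ j + i`, `a₁ n₁ + a₂ n₂ = j` (as `a₁b₁ + a₂b₂ = 1`). PROOF. Apply Z3b at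
`(t, w)` with `‖t‖, ‖w‖ ≤ ρ₀`, and G5a (`Gs_eq`): if `‖N0 t‖, ‖N0 w‖ ≥ δ` (`δ ≤ 1` w.l.o.g.), then
`‖∑_ν coef ν wp^a wp^b (x₁ + m)^κ₁ (x₂ + h)^κ₂ (x₃ + j)^κ₃‖ ≤ B e^{-S'/2} δ^{-2M}`. On this set `‖x_i‖ ≤ C'A`
(`ph = N1/N0` bounded), the nodes are `≤ C' A X` in absolute value (`|m|, |h|, |j| ≤ C'AX` as `|n₁|, |n₂| ≤ C'X`).
`interp3` (with `A κ₁ κ₂ κ₃ = ∑_{a,b ≤ L} coef (a,b,κ₁,κ₂,κ₃) wp^a wp^b`) gives
`‖∑_{ab} coef wp^a wp^b‖ ≤ (d₁+1)(d₂+1)(d₃+1) (1 + C'AX)^l B e^{C'L - S'/2} ≤ B e^{C''L + S'/4 - S'/2}` (for `C` large in the hypothesis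
`(C A X)^l ≤ exp(S'/4)`). The `(t,w)` in question give all `(x,y)` with `‖x - p₁‖ ≤ 1`, `‖y - p₂‖ ≤ 1` (Z5), so `coeff2`:
`‖coef ν‖ ≤ B exp(C'''L - S'/4)` for all `ν ∈ box`. Take `B = max_{ν ∈ box} ‖coef ν‖`; if `B > 0` this contradicts `S' > 4C'''L`
(`S' ≥ C L R₀² ≥ C L`, `C > 4C'''`). -/
theorem zero_est (c₁ c₂ : Cv) : ∃ C : ℝ, 1 ≤ C ∧ ∀ (P : Pr), P.Good →
    ∀ (coef : ℕ × ℕ × ℕ × ℕ × ℕ → ℂ) (q S' : ℕ) (pts : Fin q → ℝ),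
    (∀ i j, i ≠ j → ∀ k : ℤ, pts i - pts j ≠ k) → Van c₁ c₂ P coef pts (2 * S') →
    ∀ X R₀ : ℝ, 1 ≤ R₀ → R₀ ≤ X → C * P.L * R₀ ^ 2 ≤ S' → C * X * P.L ≤ q * S' →
    (C * P.A * X) ^ P.l ≤ Real.exp (S' / 4) → ∀ (h₀ : ℕ → ℤ) (m₀ : ℕ → ℕ → ℤ), Nodes c₁.τ c₂.τ P X R₀ h₀ m₀ →
    ∀ ν ∈ P.box, coef ν = 0 := by
  obtain ⟨ρ₁, δ₁, p₁, hρ₁, hδ₁, hc₁⟩ := wp_cover c₁.τ c₁.s c₁.im
  obtain ⟨ρ₂, δ₂, p₂, hρ₂, hδ₂, hc₂⟩ := wp_cover c₂.τ c₂.s c₂.im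
  obtain ⟨K₁, hK₁1, hK₁⟩ := z6_ph c₁ ρ₁ δ₁ hδ₁
  obtain ⟨K₂, hK₂1, hK₂⟩ := z6_ph c₂ ρ₂ δ₂ hδ₂
  obtain ⟨Ki, hKi1, hKi⟩ := z6_int c₁ c₂
  set ρ₀ : ℝ := max ρ₁ ρ₂ with hρ₀
  have hρ₀0 : 0 < ρ₀ := lt_of_lt_of_le hρ₁ (le_max_left _ _)
  set K : ℝ := max K₁ K₂ with hK
  have hK1 : 1 ≤ K := hK₁1.trans (le_max_left _ _)
  obtain ⟨Cs, hCs1, hCs⟩ := sheet c₁ c₂ ρ₀ hρ₀0
  set Kx : ℝ := 2 * ρ₀ + (‖c₁.τ‖ + ‖c₂.τ‖ + 1) * K with hKx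
  have hKx0 : 0 < Kx := by positivity
  set δ : ℝ := δ₁ * δ₂ with hδdef
  have hδ : 0 < δ := mul_pos hδ₁ hδ₂
  set E : ℝ := (1 + ‖p₁‖) * (1 + ‖p₂‖) with hE
  have hE1 : 1 ≤ E := by
    have a1 := norm_nonneg p₁
    have a2 := norm_nonneg p₂
    rw [hE]
    exact one_le_mul_of_one_le_of_one_le (by linarith) (by linarith)
  set a : ℝ := 3 + 3 * Real.log (max 1 (1 / δ)) with ha
  have ha0 : 0 ≤ a := by
    have : 0 ≤ Real.log (max 1 (1 / δ)) := Real.log_nonneg (le_max_left _ _)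
    linarith
  have hlogE : 0 ≤ Real.log E := Real.log_nonneg hE1
  set C : ℝ := Cs + (1 + Kx + Ki) + 4 * (2 + Real.log E + a) + 1 with hC
  refine ⟨C, by linarith, ?_⟩
  intro P hP coef q S' pts hpts hvan X R₀ hR₀ hRX hS' hqS' hCAX h₀ m₀ hnodes
  have hX : 1 ≤ X := hR₀.trans hRX
  obtain ⟨hA2, hAa, hAb⟩ := z6_A P
  have hL1 : (1 : ℝ) ≤ P.L := by exact_mod_cast hP.hL
  have hCsC : Cs ≤ C := by linarith
  -- hypotheses of `sheet`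
  have hS1 : Cs * P.L * R₀ ^ 2 ≤ S' := by
    refine le_trans ?_ hS'
    gcongr
  have hS2 : Cs * X * P.L ≤ q * S' := by
    refine le_trans ?_ hqS'
    gcongr
  have hS3 : (Cs * P.A * X) ^ P.l ≤ Real.exp (S' / 4) := by
    refine le_trans ?_ hCAX
    gcongr
  have hS4 : (1 + (Kx + Ki) * (P.A * X)) ^ P.l ≤ Real.exp (S' / 4) := by
    refine le_trans ?_ hCAX
    have hAX : 1 ≤ P.A * X := one_le_mul_of_one_le_of_one_le (by linarith) hX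
    refine pow_le_pow_left₀ (by positivity) ?_ _
    rw [mul_assoc]
    have h5 : (1 + (Kx + Ki)) * (P.A * X) ≤ C * (P.A * X) :=
      mul_le_mul_of_nonneg_right (by linarith) (by linarith)
    rw [add_mul, one_mul] at h5
    linarith
  have hS5 : 4 * (2 + Real.log E + a) * P.L < S' := by
    have a1 : C * P.L ≤ C * P.L * R₀ ^ 2 := by
      exact le_mul_of_one_le_right (by positivity) (one_le_pow₀ hR₀)
    have a2 : 4 * (2 + Real.log E + a) * P.L < C * P.L := by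
      apply mul_lt_mul_of_pos_right _ (by linarith)
      linarith
    linarith
  -- the maximum
  obtain ⟨ν₀, hν₀, hmax⟩ := P.box.exists_max_image (fun ν => ‖coef ν‖)
    ⟨(0, 0, 0, 0, 0), by simp [Pr.box]⟩
  have key : ‖coef ν₀‖ = 0 := by
    by_contra hne
    have hB : 0 < ‖coef ν₀‖ := lt_of_le_of_ne (norm_nonneg _) (Ne.symm hne)
    set B : ℝ := ‖coef ν₀‖ with hBdef
    obtain ⟨a₀, b₀, k₁, k₂, k₃⟩ := ν₀
    have hν₀' := hν₀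
    simp only [Pr.box, Finset.mem_product, Finset.mem_range, Nat.lt_succ_iff] at hν₀'
    obtain ⟨ha₀, hb₀, hk₁, hk₂, hk₃⟩ := hν₀'
    have hpoly : ∀ x y : ℂ, ‖x - p₁‖ ≤ 1 → ‖y - p₂‖ ≤ 1 →
        ‖∑ a ∈ Finset.range (P.L + 1), ∑ b ∈ Finset.range (P.L + 1), coef (a, b, k₁, k₂, k₃) *
          (x ^ a * y ^ b)‖ ≤ B * Real.exp (a * P.L - S' / 4) := by
      intro x y hx hy
      obtain ⟨t, ht, htN, htx⟩ := hc₁ x hx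
      obtain ⟨w, hw, hwN, hwy⟩ := hc₂ y hy
      have ht0 : ‖t‖ ≤ ρ₀ := ht.trans (le_max_left _ _)
      have hw0 : ‖w‖ ≤ ρ₀ := hw.trans (le_max_right _ _)
      have hph1 : ‖ph c₁.τ t‖ ≤ K := (hK₁ t ht htN).trans (le_max_left _ _)
      have hph2 : ‖ph c₂.τ w‖ ≤ K := (hK₂ w hw hwN).trans (le_max_right _ _)
      have hxx := z6_xx c₁ c₂ ρ₀ K hρ₀0.le hK1 P t w ht0 hw0 hph1 hph2
      rw [← hKx] at hxx
      have hN : δ ≤ ‖N0 c₁.τ t * N0 c₂.τ w‖ := by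
        rw [norm_mul]
        exact mul_le_mul htN hwN hδ₂.le (norm_nonneg _)
      rw [← htx, ← hwy]
      have hbnd : ∀ j ≤ P.d₃, ∀ i ≤ P.d₂, ∀ k ≤ P.d₁,
          |(((j * P.b₁ + (h₀ j + i) * P.a₂ : ℤ)) : ℝ)| ≤ X ∧
          |(((j * P.b₂ - (h₀ j + i) * P.a₁ : ℤ)) : ℝ)| ≤ Ki * X ∧ |(((m₀ j i + k : ℤ)) : ℝ)| ≤ Ki * X := by
        intro j hj i hi k hk
        obtain ⟨n1, n2⟩ := hnodes j hj i hi k hk
        exact ⟨n1, hKi X R₀ hR₀ hRX _ _ _ n1 n2⟩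
      have hid2 : ∀ (j i : ℕ), P.b₂ * (j * P.b₁ + (h₀ j + i) * P.a₂) - P.b₁ * (j * P.b₂ - (h₀ j + i) * P.a₁)
          = h₀ j + i := by
        intro j i
        linear_combination (h₀ j + i) * hP.det
      have hid3 : ∀ (j i : ℕ), P.a₁ * (j * P.b₁ + (h₀ j + i) * P.a₂) + P.a₂ * (j * P.b₂ - (h₀ j + i) * P.a₁)
          = j := by
        intro j i
        linear_combination (j : ℤ) * hP.det
      have hG : ∀ j ≤ P.d₃, ∀ i ≤ P.d₂, ∀ k ≤ P.d₁,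
          ‖Gs c₁ c₂ P ![((m₀ j i + k : ℤ) : ℂ), ((h₀ j + i : ℤ) : ℂ), ((j : ℤ) : ℂ)] coef t w‖ ≤
            B * Real.exp (-((S' : ℝ) / 2)) := by
        intro j hj i hi k hk
        obtain ⟨n1, n2⟩ := hnodes j hj i hi k hk
        have := hCs P hP B coef hmax q S' pts hpts hvan X R₀ hR₀ hRX hS1 hS2 hS3 _ _ _ n1 n2 t w ht0 hw0
        have e2 : ((h₀ j + i : ℤ) : ℂ) = P.b₂ * ((j * P.b₁ + (h₀ j + i) * P.a₂ : ℤ) : ℂ) -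
            P.b₁ * ((j * P.b₂ - (h₀ j + i) * P.a₁ : ℤ) : ℂ) := by
          have e := congrArg (fun z : ℤ => (z : ℂ)) (hid2 j i)
          push_cast at e ⊢
          exact e.symm
        have e3 : ((j : ℤ) : ℂ) = P.a₁ * ((j * P.b₁ + (h₀ j + i) * P.a₂ : ℤ) : ℂ) +
            P.a₂ * ((j * P.b₂ - (h₀ j + i) * P.a₁ : ℤ) : ℂ) := by
          have e := congrArg (fun z : ℤ => (z : ℂ)) (hid3 j i)
          push_cast at e ⊢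
          exact e.symm
        rw [e2, e3]
        exact this
      have hYm : ∀ (z : ℂ) (n : ℤ), ‖z‖ ≤ Kx * P.A → |(n : ℝ)| ≤ Ki * (P.A * X) →
          ‖z + n‖ ≤ (Kx + Ki) * (P.A * X) := by
        intro z n hz hn
        have a1 := norm_add_le z (n : ℂ)
        rw [Complex.norm_intCast] at a1
        have a2 : Kx * P.A ≤ Kx * (P.A * X) := by
          apply mul_le_mul_of_nonneg_left _ hKx0.le
          exact le_mul_of_one_le_right (by linarith) hX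
        rw [add_mul]
        linarith
      have hAX : Ki * X ≤ Ki * (P.A * X) := by
        apply mul_le_mul_of_nonneg_left _ (by linarith)
        exact le_mul_of_one_le_left (by linarith) (by linarith)
      have hXKi : X ≤ Ki * X := le_mul_of_one_le_left (by linarith) hKi1
      have hlin : ∀ (u v n n' : ℤ), |(u : ℝ)| + |(v : ℝ)| ≤ P.A → |(n : ℝ)| ≤ Ki * X → |(n' : ℝ)| ≤ Ki * X →
          |((u * n + v * n' : ℤ) : ℝ)| ≤ Ki * (P.A * X) := by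
        intro u v n n' huv hn hn'
        push_cast
        refine (abs_add_le _ _).trans ?_
        rw [abs_mul, abs_mul]
        have a1 := mul_le_mul_of_nonneg_left hn (abs_nonneg (u : ℝ))
        have a2 := mul_le_mul_of_nonneg_left hn' (abs_nonneg (v : ℝ))
        have a3 := mul_le_mul_of_nonneg_right huv (show 0 ≤ Ki * X by positivity)
        rw [add_mul] at a3
        have a4 : P.A * (Ki * X) = Ki * (P.A * X) := mul_left_comm _ _ _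
        rw [a4] at a3
        linarith
      have hY₁ : ∀ j ≤ P.d₃, ∀ i ≤ P.d₂, ∀ k ≤ P.d₁, ‖xx c₁ c₂ P 0 t w + m₀ j i + k‖ ≤ (Kx + Ki) * (P.A * X) := by
        intro j hj i hi k hk
        obtain ⟨n1, n2, n3⟩ := hbnd j hj i hi k hk
        have := hYm (xx c₁ c₂ P 0 t w) (m₀ j i + k) (hxx 0) (n3.trans hAX)
        push_cast at this
        rwa [← add_assoc] at this
      have hY₂ : ∀ j ≤ P.d₃, ∀ i ≤ P.d₂, ‖xx c₁ c₂ P 1 t w + h₀ j + i‖ ≤ (Kx + Ki) * (P.A * X) := by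
        intro j hj i hi
        obtain ⟨n1, n2, n3⟩ := hbnd j hj i hi 0 (Nat.zero_le _)
        have h1 := hlin P.b₂ (-P.b₁) _ _ (by push_cast; rw [abs_neg]; linarith) (n1.trans hXKi) n2
        have h2 : P.b₂ * (j * P.b₁ + (h₀ j + i) * P.a₂) + -P.b₁ * (j * P.b₂ - (h₀ j + i) * P.a₁)
            = h₀ j + i := by linear_combination hid2 j i
        rw [h2] at h1
        have := hYm (xx c₁ c₂ P 1 t w) (h₀ j + i) (hxx 1) h1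
        push_cast at this
        rwa [← add_assoc] at this
      have hY₃ : ∀ j ≤ P.d₃, ‖xx c₁ c₂ P 2 t w + j‖ ≤ (Kx + Ki) * (P.A * X) := by
        intro j hj
        obtain ⟨n1, n2, n3⟩ := hbnd j hj 0 (Nat.zero_le _) 0 (Nat.zero_le _)
        have h1 := hlin P.a₁ P.a₂ _ _ hAa (n1.trans hXKi) n2
        rw [hid3 j 0] at h1
        have := hYm (xx c₁ c₂ P 2 t w) j (hxx 2) h1
        push_cast at this
        exact this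
      have h1 := z6_pt c₁ c₂ P coef t w δ _ _ hδ hN h₀ m₀ hG hY₁ hY₂ hY₃ k₁ k₂ k₃ hk₁ hk₂ hk₃
      exact h1.trans (z6_num P.d₁ P.d₂ P.d₃ P.L P.l P.M S' B δ _ hB.le hδ hP.hl hP.hl rfl hS4 (by positivity))
    have h1 := coeff2 P.L (fun a b => coef (a, b, k₁, k₂, k₃)) p₁ p₂ _ hpoly a₀ b₀ ha₀ hb₀
    have h2 := z6_fin P.L S' B a E hB hE1 hP.hL hS5
    exact absurd (lt_of_le_of_lt h1 h2) (lt_irrefl _)
  intro ν hν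
  have := hmax ν hν
  rw [key] at this
  exact norm_le_zero_iff.mp this

end Pool.Agent.MSP
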