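import Pool.Agent.Lib.MP_f58a57_nt.P.F2b_Norm
import Pool.Agent.Lib.MP_f58a57_nt.P.Z6_Zero
import Pool.Agent.Lib.MP_f58a57_nt.P.X1_Extra
import Pool.Agent.Lib.MP_f58a57_nt.P.H1c_Params
import Pool.Agent.Lib.MP_f58a57_nt.P.K3_Gelfond

/-! # F2c: the contradiction (MP_f58a57_nt, pairs) -/

open Complex Filter Topology IntermediateField Polynomial

noncomputable section

namespace Pool.Agent.MSP

/-- the points -/
def f2c_pt (k j : ℕ) : ℝ := ((j : ℝ) + 1) / 2 ^ k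

theorem f2c_pt_coe (k j : ℕ) : ((f2c_pt k j : ℝ) : ℂ) = (((j : ℤ) + 1 : ℤ) : ℂ) / 2 ^ k := by
  unfold f2c_pt
  push_cast
  rfl

theorem f2c_pt_int {k j : ℕ} (hj : j + 1 < 2 ^ k) (m : ℤ) : f2c_pt k j ≠ m := by
  unfold f2c_pt
  intro h
  have h2 : (0 : ℝ) < 2 ^ k := by positivity
  rw [div_eq_iff h2.ne'] at h
  have h3 : ((j : ℤ) + 1) = m * 2 ^ k := by exact_mod_cast h
  have hj' : (j : ℤ) + 1 < 2 ^ k := by exact_mod_cast hj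
  have hj0 : (0 : ℤ) < (j : ℤ) + 1 := by positivity
  have hp : (0 : ℤ) < 2 ^ k := pow_pos two_pos k
  rcases le_or_gt m 0 with hm | hm
  · have h4 := mul_nonpos_of_nonpos_of_nonneg hm hp.le
    rw [← h3] at h4
    exact absurd h4 (not_le.2 hj0)
  · have h4 := le_mul_of_one_le_left hp.le (Int.add_one_le_iff.2 hm)
    rw [← h3] at h4
    exact absurd h4 (not_le.2 hj')

theorem f2c_pt_diff {k i j : ℕ} (hi : i + 1 < 2 ^ k) (hj : j + 1 < 2 ^ k) (hij : i ≠ j) (m : ℤ) :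
    f2c_pt k i - f2c_pt k j ≠ m := by
  unfold f2c_pt
  intro h
  have h2 : (0 : ℝ) < 2 ^ k := by positivity
  rw [← sub_div, div_eq_iff h2.ne'] at h
  have h3 : ((i : ℤ) + 1 - ((j : ℤ) + 1)) = m * 2 ^ k := by exact_mod_cast h
  have hi' : (i : ℤ) + 1 < 2 ^ k := by exact_mod_cast hi
  have hj' : (j : ℤ) + 1 < 2 ^ k := by exact_mod_cast hj
  have hi0 : (0 : ℤ) ≤ (i : ℤ) := Int.natCast_nonneg i
  have hj0 : (0 : ℤ) ≤ (j : ℤ) := Int.natCast_nonneg j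
  have hp : (0 : ℤ) < 2 ^ k := pow_pos two_pos k
  rcases lt_trichotomy m 0 with hm | hm | hm
  · have h4 : m * 2 ^ k ≤ (-1) * 2 ^ k := mul_le_mul_of_nonneg_right (by omega) hp.le
    rw [← h3] at h4
    linarith
  · rw [hm, zero_mul] at h3
    apply hij
    have : (i : ℤ) = j := by linarith
    exact_mod_cast this
  · have h4 : 1 * 2 ^ k ≤ m * 2 ^ k := mul_le_mul_of_nonneg_right (by omega) hp.le
    rw [← h3] at h4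
    linarith

theorem f2c_not_dvd {k j : ℕ} (hj : j + 1 < 2 ^ k) : ¬ ((2 : ℤ) ^ k ∣ ((j : ℤ) + 1)) := by
  intro h
  have h1 := Int.le_of_dvd (by positivity) h
  have hj' : (j : ℤ) + 1 < 2 ^ k := by exact_mod_cast hj
  linarith

/-- the first nonvanishing derivative -/
theorem f2c_find {f : ℕ → ℕ → ℂ} {S r s : ℕ} (hrs : r + s < S) (h : f r s ≠ 0) :
    ∃ r' s', r' + s' < S ∧ f r' s' ≠ 0 ∧ ∀ i i', i + i' < r' + s' → f i i' = 0 := by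
  classical
  have hex : ∃ k, ∃ i i', i + i' = k ∧ f i i' ≠ 0 := ⟨r + s, r, s, rfl, h⟩
  obtain ⟨i, i', hk, hne⟩ := Nat.find_spec hex
  have hle : Nat.find hex ≤ r + s := Nat.find_min' hex ⟨r, s, rfl, h⟩
  refine ⟨i, i', by omega, hne, fun a b hab => ?_⟩
  by_contra hne'
  exact Nat.find_min hex (by omega : a + b < Nat.find hex) ⟨a, b, rfl, hne'⟩

theorem f2c_fact {r s T : ℕ} (h : r + s ≤ T) (hT : 1 ≤ T) :
    Real.log (2 ^ r * ((r + s).factorial : ℝ)) ≤ T * (1 + Real.log T) := by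
  have hT' : (1 : ℝ) ≤ T := by exact_mod_cast hT
  have h1 : (2 : ℝ) ^ r ≤ 2 ^ T := pow_le_pow_right₀ one_le_two (by omega)
  have h2 : ((r + s).factorial : ℝ) ≤ (T : ℝ) ^ T := by
    have h3 : (r + s).factorial ≤ T.factorial := Nat.factorial_le h
    have h4 : T.factorial ≤ T ^ T := Nat.factorial_le_pow T
    exact_mod_cast h3.trans h4
  have hf : (0 : ℝ) < ((r + s).factorial : ℝ) := by exact_mod_cast Nat.factorial_pos _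
  have h5 : Real.log (2 ^ r * ((r + s).factorial : ℝ)) ≤ Real.log (2 ^ T * (T : ℝ) ^ T) := by
    apply Real.log_le_log (by positivity)
    gcongr
  have e1 : Real.log (2 ^ T * (T : ℝ) ^ T) = T * Real.log 2 + T * Real.log T := by
    rw [Real.log_mul (by positivity) (by positivity), Real.log_pow, Real.log_pow]
  rw [e1] at h5
  have h6 : Real.log 2 ≤ 1 := by
    have := Real.log_two_lt_d9
    linarith
  have h7 : (T : ℝ) * Real.log 2 ≤ T * 1 := mul_le_mul_of_nonneg_left h6 (Nat.cast_nonneg T)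
  rw [mul_add]
  linarith

/-- from the entire function to the auxiliary function -/
theorem f2c_log_FF (c₁ c₂ : Cv) {P : Pr} {coef : ℕ × ℕ × ℕ × ℕ × ℕ → ℂ} {x : ℝ}
    (hx : ∀ m : ℤ, x ≠ m) {B E : ℝ} {r s : ℕ} (hB : 0 < B)
    (hne : dd r s (GG c₁ c₂ P coef) x x ≠ 0)
    (hmin : ∀ i i', i + i' < r + s → dd i i' (GG c₁ c₂ P coef) x x = 0)
    (hb : ‖dd r s (GG c₁ c₂ P coef) x x‖ ≤ B * (2 ^ r * ((r + s).factorial : ℝ)) * Real.exp (-E))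
    {T : ℕ} (hT : r + s ≤ T) (hT1 : 1 ≤ T) :
    dd r s (FF c₁ c₂ P coef) x x ≠ 0 ∧
    Real.log ‖dd r s (FF c₁ c₂ P coef) x x‖ ≤ Real.log B + T * (1 + Real.log T) - E +
      P.M * |Real.log ‖N0 c₁.τ x * N0 c₂.τ x‖| := by
  have h1 : N0 c₁.τ x ≠ 0 := th_real_ne c₁.τ c₁.im x hx
  have h2 : N0 c₂.τ x ≠ 0 := th_real_ne c₂.τ c₂.im x hx
  have h3 := GG_lead c₁ c₂ P coef x x h1 h2 (r + s) hmin r s rfl
  have h12 : N0 c₁.τ x * N0 c₂.τ x ≠ 0 := mul_ne_zero h1 h2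
  have hF : dd r s (FF c₁ c₂ P coef) x x ≠ 0 := by
    intro h0
    rw [h0, mul_zero] at h3
    exact hne h3
  refine ⟨hF, ?_⟩
  have hf : (0 : ℝ) < ((r + s).factorial : ℝ) := by exact_mod_cast Nat.factorial_pos _
  have h4 : Real.log ‖dd r s (GG c₁ c₂ P coef) x x‖ =
      P.M * Real.log ‖N0 c₁.τ x * N0 c₂.τ x‖ + Real.log ‖dd r s (FF c₁ c₂ P coef) x x‖ := by
    rw [h3, norm_mul, norm_pow, Real.log_mul (pow_ne_zero _ (norm_ne_zero_iff.2 h12))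
      (norm_ne_zero_iff.2 hF), Real.log_pow]
  have h5 : Real.log ‖dd r s (GG c₁ c₂ P coef) x x‖ ≤
      Real.log B + Real.log (2 ^ r * ((r + s).factorial : ℝ)) - E := by
    have h6 := Real.log_le_log (norm_pos_iff.2 hne) hb
    rw [Real.log_mul (by positivity) (Real.exp_pos _).ne', Real.log_mul hB.ne' (by positivity),
      Real.log_exp] at h6
    linarith
  have h7 := f2c_fact hT hT1
  have h8 : -((P.M : ℝ) * Real.log ‖N0 c₁.τ x * N0 c₂.τ x‖) ≤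
      P.M * |Real.log ‖N0 c₁.τ x * N0 c₂.τ x‖| := by
    rw [← mul_neg]
    exact mul_le_mul_of_nonneg_left (neg_le_abs _) (Nat.cast_nonneg _)
  linarith

/-- the size of `T (1 + log T)` -/
theorem f2c_W {n : ℕ} (hn : 1 ≤ n) :
    ((4 * n ^ 6 * 2 ^ n : ℕ) : ℝ) * (1 + Real.log ((4 * n ^ 6 * 2 ^ n : ℕ) : ℝ)) ≤ 40 * n ^ 7 * 2 ^ n := by
  have hn' : (1 : ℝ) ≤ n := by exact_mod_cast hn
  have hn0 : (0 : ℝ) < n := by linarith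
  have e : ((4 * n ^ 6 * 2 ^ n : ℕ) : ℝ) = 4 * (n : ℝ) ^ 6 * 2 ^ n := by push_cast; ring
  rw [e]
  have h1 : Real.log (4 * (n : ℝ) ^ 6 * 2 ^ n) = 2 * Real.log 2 + 6 * Real.log n + n * Real.log 2 := by
    rw [Real.log_mul (by positivity) (by positivity), Real.log_mul (by norm_num) (by positivity),
      Real.log_pow, Real.log_pow, show (4 : ℝ) = 2 ^ 2 by norm_num, Real.log_pow]
    push_cast
    ring
  have h2 : Real.log n ≤ n - 1 := Real.log_le_sub_one_of_pos hn0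
  have h3 : Real.log 2 ≤ 0.7 := by
    have := Real.log_two_lt_d9
    linarith
  have h30 : 0 < Real.log 2 := Real.log_pos one_lt_two
  have h4 : 1 + Real.log (4 * (n : ℝ) ^ 6 * 2 ^ n) ≤ 10 * n := by
    rw [h1]
    have h5 : (n : ℝ) * Real.log 2 ≤ n * 0.7 := mul_le_mul_of_nonneg_left h3 hn0.le
    linarith
  calc 4 * (n : ℝ) ^ 6 * 2 ^ n * (1 + Real.log (4 * (n : ℝ) ^ 6 * 2 ^ n))
      ≤ 4 * (n : ℝ) ^ 6 * 2 ^ n * (10 * n) := by gcongr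
    _ = 40 * (n : ℝ) ^ 7 * 2 ^ n := by ring

private lemma f2c_a1 {x L : ℝ} (hx : 1 ≤ x) (hL : 0 ≤ L) : L ≤ 4 * x ^ 6 * L := by
  have h1 : (1 : ℝ) ≤ x ^ 6 := one_le_pow₀ hx
  exact le_mul_of_one_le_left hL (by linarith)

private lemma f2c_a2 {CS c κ₁ κ₂ L x d : ℝ} (hCS : 0 ≤ CS) (hL : 0 ≤ L) (hx : 0 ≤ x) (hκ : c * (κ₂ * κ₁ ^ 2) = 16 * CS)
    (hd : c * (κ₂ * κ₁ ^ 2) * x ^ 12 ≤ d) : CS * (4 * x ^ 6 * L) ^ 2 ≤ (L + 1) ^ 2 * d := by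
  have h1 : 16 * CS * x ^ 12 ≤ d := by rw [← hκ]; exact hd
  have h2 : L ^ 2 ≤ (L + 1) ^ 2 := pow_le_pow_left₀ hL (by linarith) 2
  have h3 : 0 ≤ 16 * CS * x ^ 12 := mul_nonneg (mul_nonneg (by norm_num) hCS) (pow_nonneg hx 12)
  calc CS * (4 * x ^ 6 * L) ^ 2 = L ^ 2 * (16 * CS * x ^ 12) := by ring
    _ ≤ (L + 1) ^ 2 * d := mul_le_mul h2 h1 h3 (sq_nonneg _)

private lemma f2c_a3 {κ x : ℝ} (hκ : 0 < κ) (hx : 1 ≤ x) (h : 1 / κ ≤ x) : 1 ≤ κ * x ^ 3 := by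
  have h2 : x ≤ x ^ 3 := le_self_pow₀ hx (by norm_num)
  have h3 := h.trans h2
  rw [div_le_iff₀ hκ] at h3
  rw [mul_comm]
  exact h3

private lemma f2c_a4 {κ₁ κ₂ x : ℝ} (hκ : 0 < κ₂) (hx : 1 ≤ x) (h : κ₁ / κ₂ ≤ x) : κ₁ * x ^ 3 ≤ κ₂ * x ^ 6 := by
  have h2 : x ≤ x ^ 3 := le_self_pow₀ hx (by norm_num)
  have h3 := h.trans h2
  rw [div_le_iff₀ hκ] at h3
  have h4 : (0 : ℝ) ≤ x ^ 3 := pow_nonneg (zero_le_one.trans hx) 3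
  calc κ₁ * x ^ 3 ≤ (x ^ 3 * κ₂) * x ^ 3 := mul_le_mul_of_nonneg_right h3 h4
    _ = κ₂ * x ^ 6 := by ring

private lemma f2c_a5 {C x L : ℝ} (hC : 1 ≤ C) (hx : 0 ≤ x) (hL : 0 ≤ L) : C * L * (1 / C * x ^ 3) ^ 2 ≤ x ^ 6 * L := by
  have hC0 : C ≠ 0 := by linarith
  have h1 : 1 / C ≤ 1 := by
    rw [div_le_one (by linarith)]
    exact hC
  have e : C * L * (1 / C * x ^ 3) ^ 2 = 1 / C * (x ^ 6 * L) := by
    field_simp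
  rw [e]
  exact mul_le_of_le_one_left (mul_nonneg (pow_nonneg hx 6) hL) h1

private lemma f2c_a6 {C κ q x L : ℝ} (h : C * κ ≤ q) (hx : 0 ≤ x) (hL : 0 ≤ L) :
    C * (κ * x ^ 6) * L ≤ q * (x ^ 6 * L) := by
  calc C * (κ * x ^ 6) * L = (C * κ) * (x ^ 6 * L) := by ring
    _ ≤ q * (x ^ 6 * L) := mul_le_mul_of_nonneg_right h (mul_nonneg (pow_nonneg hx 6) hL)

private lemma f2c_a7 {C x L : ℝ} (h : C ≤ x) (hx : 1 ≤ x) (hL : 0 ≤ L) : C * L ≤ 2 * (x ^ 6 * L) := by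
  have h2 : x ≤ x ^ 6 := le_self_pow₀ hx (by norm_num)
  rw [← mul_assoc]
  exact mul_le_mul_of_nonneg_right (by linarith) hL

private lemma f2c_a8 {C x L : ℝ} (hC : C ≠ 0) (hL : L ≠ 0) :
    (2 * (x ^ 6 * L)) ^ 2 / (C * L) = 4 * (1 / C * x ^ 12 * L) := by
  rw [div_eq_iff (mul_ne_zero hC hL)]
  have e : 4 * (1 / C * x ^ 12 * L) * (C * L) = 4 * x ^ 12 * L ^ 2 * (1 / C * C) := by ring
  rw [e, one_div_mul_cancel hC]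
  ring

private lemma f2c_b1 {d C N δ l CS η x : ℝ} (h : d ≤ C * (δ + l)) (hC : C ≤ N) (hN : 0 ≤ N) (hCS : 0 ≤ CS) (hδ0 : 0 ≤ δ)
    (hl0 : 0 ≤ l) (hδ : δ ≤ CS * l) (hl : l ≤ η * x ^ 5) : d ≤ 80 * N * (CS + 1) * η * x ^ 5 := by
  have h1 : C * (δ + l) ≤ N * (CS * l + l) := mul_le_mul hC (by linarith) (by linarith) hN
  have h2 : N * (CS + 1) * l ≤ N * (CS + 1) * (η * x ^ 5) :=
    mul_le_mul_of_nonneg_left hl (mul_nonneg hN (by linarith))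
  have h3 : 0 ≤ N * (CS + 1) * (η * x ^ 5) := mul_nonneg (mul_nonneg hN (by linarith)) (hl0.trans hl)
  have e1 : N * (CS * l + l) = N * (CS + 1) * l := by ring
  have e2 : 80 * N * (CS + 1) * η * x ^ 5 = 80 * (N * (CS + 1) * (η * x ^ 5)) := by ring
  rw [e2]
  rw [e1] at h1
  linarith

private lemma f2c_b2 {d C N CS W x L : ℝ} (h : d ≤ C * (CS * W + W)) (hC : C ≤ N) (hN : 0 ≤ N) (hCS : 0 ≤ CS)
    (hW0 : 0 ≤ W) (hW : W ≤ 40 * x ^ 7 * L) : d ≤ 80 * N * (CS + 1) * x ^ 7 * L := by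
  have h0 : 0 ≤ CS * W + W := add_nonneg (mul_nonneg hCS hW0) hW0
  have h1 : C * (CS * W + W) ≤ N * (CS * W + W) := mul_le_mul_of_nonneg_right hC h0
  have h2 : N * (CS + 1) * W ≤ N * (CS + 1) * (40 * x ^ 7 * L) :=
    mul_le_mul_of_nonneg_left hW (mul_nonneg hN (by linarith))
  have h3 : 0 ≤ N * (CS + 1) * (40 * x ^ 7 * L) := mul_nonneg (mul_nonneg hN (by linarith)) (hW0.trans hW)
  have e1 : N * (CS * W + W) = N * (CS + 1) * W := by ring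
  have e2 : 80 * N * (CS + 1) * x ^ 7 * L = 2 * (N * (CS + 1) * (40 * x ^ 7 * L)) := by ring
  rw [e2]
  rw [e1] at h1
  linarith

private lemma f2c_b3 {K W X x L : ℝ} (hK : 0 ≤ K) (hX : 0 < X) (hx : 1 ≤ x) (hL : 0 ≤ L) (hW : W ≤ 40 * x ^ 7 * L)
    (h : 40 * K * X ≤ x) : K * W ≤ 3 * (1 / X * x ^ 12 * L) := by
  have h5 : x ≤ x ^ 5 := le_self_pow₀ hx (by norm_num)
  have h7 : 40 * K ≤ 1 / X * x ^ 5 := by
    rw [one_div, inv_mul_eq_div, le_div_iff₀ hX]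
    exact h.trans h5
  have hx0 : 0 ≤ x := zero_le_one.trans hx
  have h8 : 0 ≤ x ^ 7 * L := mul_nonneg (pow_nonneg hx0 7) hL
  have h9 : 0 ≤ 1 / X * x ^ 12 * L := mul_nonneg (mul_nonneg (one_div_pos.2 hX).le (pow_nonneg hx0 12)) hL
  calc K * W ≤ K * (40 * x ^ 7 * L) := mul_le_mul_of_nonneg_left hW hK
    _ = (40 * K) * (x ^ 7 * L) := by ring
    _ ≤ (1 / X * x ^ 5) * (x ^ 7 * L) := mul_le_mul_of_nonneg_right h7 h8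
    _ = 1 / X * x ^ 12 * L := by ring
    _ ≤ 3 * (1 / X * x ^ 12 * L) := by linarith

/-- the final estimate -/
private lemma f2c_b4 {K CS Cb U N W δ L CN M u F V lB E : ℝ} (hK : K = CS + Cb * (CS + 1) + 1 + 3 * U + N * (2 * CS + 1))
    (hCb : 0 ≤ Cb) (hW0 : 0 ≤ W) (hδ : δ ≤ CS * W) (hδ0 : 0 ≤ δ) (hCS : 0 ≤ CS) (hL : L ≤ W) (hM0 : 0 ≤ M) (hM : M ≤ 3 * W)
    (hu : u ≤ U) (hu0 : 0 ≤ u) (hCN : CN ≤ N) (hN : 0 ≤ N) (hlB : lB = CS * W + Cb * (δ + L))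
    (hF : F ≤ lB + W - 4 * E + M * u) (hV : V ≤ F + CN * (CS * W + δ + W)) (hKW : K * W ≤ 3 * E) : V ≤ -E := by
  have h1 : M * u ≤ 3 * W * U := mul_le_mul hM hu hu0 (by linarith)
  have h2 : CN * (CS * W + δ + W) ≤ N * (CS * W + CS * W + W) :=
    mul_le_mul hCN (by linarith) (by linarith [mul_nonneg hCS hW0]) hN
  have h3 : Cb * (δ + L) ≤ Cb * (CS * W + W) := mul_le_mul_of_nonneg_left (by linarith) hCb
  have e1 : K * W = CS * W + Cb * (CS * W + W) + W + 3 * W * U + N * (CS * W + CS * W + W) := by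
    rw [hK]
    ring
  rw [e1] at hKW
  linarith

/-- the constant of the norm steps -/
private lemma f2c_c1 (q : ℕ) (CN : Fin q → ℝ) (h : ∀ j, 1 ≤ CN j) : ∃ N : ℝ, 1 ≤ N ∧ ∀ j, CN j ≤ N := by
  have h0 : ∀ j, 0 ≤ CN j := fun j => zero_le_one.trans (h j)
  refine ⟨1 + ∑ j, CN j, ?_, fun j => ?_⟩
  · have : 0 ≤ ∑ j, CN j := Finset.sum_nonneg fun j _ => h0 j
    linarith
  · have := Finset.single_le_sum (fun i _ => h0 i) (Finset.mem_univ j)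
    linarith

private lemma f2c_c2 (q : ℕ) (u : Fin q → ℝ) (h : ∀ j, 0 ≤ u j) : ∃ U : ℝ, 0 ≤ U ∧ ∀ j, u j ≤ U :=
  ⟨∑ j, u j, Finset.sum_nonneg fun j _ => h j, fun j => Finset.single_le_sum (fun i _ => h i) (Finset.mem_univ j)⟩

private lemma f2c_c3 {a : ℝ} : ∃ k : ℕ, a ≤ ((2 ^ k - 1 : ℕ) : ℝ) := by
  obtain ⟨k, hk⟩ := pow_unbounded_of_one_lt (a + 1) (one_lt_two (α := ℝ))
  refine ⟨k, ?_⟩
  rw [Nat.cast_sub Nat.one_le_two_pow]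
  push_cast
  linarith

private lemma f2c_c4 {k : ℕ} (j : Fin (2 ^ k - 1)) : (j : ℕ) + 1 < 2 ^ k := by
  have := j.2
  omega

private lemma f2c_c5 {n : ℕ} {a b c d : ℝ} (ha : 0 ≤ a) (hb : 0 < b) (hc : 0 < c) (hd : 1 ≤ d)
    (h : ⌈a + b + c + d + 1⌉₊ ≤ n) : a ≤ n ∧ b ≤ n ∧ c ≤ n ∧ d ≤ n ∧ (1 : ℝ) ≤ n := by
  have h1 : a + b + c + d + 1 ≤ n := (Nat.le_ceil _).trans (by exact_mod_cast h)
  refine ⟨?_, ?_, ?_, ?_, ?_⟩ <;> linarith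

/-- F2c. One step: for large `n` there is a polynomial `Q` with small value at `ϑ`. PROOF. Constants in this order: `C_Z` (`zero_est`), `C_X` (`extra`), `C_S` (`siegel_step`),
`c` (`params`); `κ₁ = 1/C_Z`, `κ₂ = 16 C_S/(c κ₁²)`; `k` with `q = 2^k - 1 ≥ C_Z κ₂`, `q ≥ 1`; points `pts j = (j+1)/2^k`, `j < q`; `C_N` = maximum of
the constants of `norm_step` at the `q` points; `c_N > 0` minimum of `‖N0 τ₁ (pts j) N0 τ₂ (pts j)‖` and `1` (`th_real_ne`). None of these depends on `η`. Put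
`D = 80 C_N (C_S + 1)`; this is the constant in the statement. Now let `η > 0` be given, `n` large, `P` from `params` (with `C = C_Z`), `L = 2^n`,
`S' = n⁶ L`, `S = 2 S'`, `T = 2 S = 4n⁶L`. `siegel_step` applies: `C_S T² = 16 C_S n¹² L² ≤ (L+1)² c κ₂ κ₁² n¹²`. Let `p` be the polynomials,
`coef = cf ... p`, `δ = ⌊C_S l⌋₊`, `H' = exp(C_S T (1 + log T))`, `B = H' exp(C (δ + L))` (`cf_bound`). By `cf_ne` and `zero_est` (`X = κ₂n⁶`, `R₀ = κ₁n³`: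
`C_Z L R₀² ≤ S'`, `C_Z X L ≤ q S'`) some `dd r s GG (pts j) (pts j) ≠ 0` with `r + s < S`; take `r + s` minimal for this `j` (`Nat.find`). `GG_lead`:
`dd r s GG = (N0 N0)^M dd r s FF`, so `dd r s FF ≠ 0` and by `extra` (`C_X L ≤ S`)
`log‖dd r s FF‖ ≤ log B + M log(1/c_N) + log(2^r (r+s)!) - S²/(C_X L)`, `S²/(C_X L) = 4n¹²2ⁿ/C_X`, and all the other terms are `O(n⁷ 2ⁿ)` (`1 + log T ≤ 10 n`).
`norm_step` gives `Q` with `deg Q ≤ C_N (δ + l) ≤ C_N (C_S + 1) η n⁵ ≤ D η n⁵`, `log len Q ≤ C_N (C_S + 1) T (1 + log T) ≤ C_N (C_S + 1) 40 n⁷ 2ⁿ ≤ D n⁷ 2ⁿ`,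
`log‖Q(ϑ)‖ ≤ -4n¹²2ⁿ/C_X + O(n⁷2ⁿ) ≤ -n¹²2ⁿ/C_X`. -/
theorem step (c₁ c₂ : Cv) (Ω₁ Ω₂ ϑ : ℂ) (h : Hyp c₁ c₂ Ω₁ Ω₂ ϑ) (hirr : Irrational (c₁.τ.im / c₂.τ.im))
    (hsq : ∃ r : ℚ, (c₁.τ.im / c₂.τ.im) ^ 2 = r) : ∃ D c : ℝ, 1 ≤ D ∧ 0 < c ∧ ∀ η : ℝ, 0 < η → ∃ n₀ : ℕ, ∀ n : ℕ, n₀ ≤ n →
      ∃ Q : Polynomial ℤ, aeval ϑ Q ≠ 0 ∧ (Q.natDegree : ℝ) ≤ D * η * n ^ 5 ∧ Real.log (len Q) ≤ D * n ^ 7 * 2 ^ n ∧
        ‖aeval ϑ Q‖ ≤ Real.exp (-(c * n ^ 12 * 2 ^ n)) := by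
  obtain ⟨CZ, hCZ, hzero⟩ := zero_est c₁ c₂
  obtain ⟨CX, hCX, hextra⟩ := extra c₁ c₂
  obtain ⟨CS, hCS, hsieg⟩ := siegel_step c₁ c₂ Ω₁ Ω₂ ϑ h
  obtain ⟨c, hc, hparams⟩ := params c₁.τ c₂.τ c₁.im c₂.im hirr hsq
  obtain ⟨Cb, hCb, hcfb⟩ := cf_bound Ω₁ Ω₂ ϑ h.h₁.ne h.h₂.ne
  have hCZ0 : 0 < CZ := one_pos.trans_le hCZ
  have hCX0 : 0 < CX := one_pos.trans_le hCX
  have hCS0 : 0 < CS := one_pos.trans_le hCS
  have hCb0 : 0 ≤ Cb := zero_le_one.trans hCb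
  obtain ⟨κ₁, hκ₁⟩ : ∃ κ₁ : ℝ, κ₁ = 1 / CZ := ⟨_, rfl⟩
  have hκ₁0 : 0 < κ₁ := by rw [hκ₁]; exact one_div_pos.2 hCZ0
  have hcκ : 0 < c * κ₁ ^ 2 := mul_pos hc (pow_pos hκ₁0 2)
  obtain ⟨κ₂, hκ₂⟩ : ∃ κ₂ : ℝ, κ₂ = 16 * CS / (c * κ₁ ^ 2) := ⟨_, rfl⟩
  have hκ₂0 : 0 < κ₂ := by rw [hκ₂]; exact div_pos (mul_pos (by norm_num) hCS0) hcκ
  have hκ₂' : c * (κ₂ * κ₁ ^ 2) = 16 * CS := by
    rw [mul_left_comm, hκ₂]
    exact div_mul_cancel₀ _ hcκ.ne'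
  obtain ⟨k, hqr⟩ := f2c_c3 (a := CZ * κ₂)
  choose CN hCN1 hCN using fun j : Fin (2 ^ k - 1) => norm_step c₁ c₂ Ω₁ Ω₂ ϑ h k ((j : ℤ) + 1) (f2c_not_dvd (f2c_c4 j))
  obtain ⟨N, hN1, hNj⟩ := f2c_c1 _ CN hCN1
  have hN0 : 0 ≤ N := zero_le_one.trans hN1
  obtain ⟨U, hU0, hUj⟩ := f2c_c2 (2 ^ k - 1)
    (fun j : Fin (2 ^ k - 1) => |Real.log ‖N0 c₁.τ (f2c_pt k j) * N0 c₂.τ (f2c_pt k j)‖|) (fun j => abs_nonneg _)
  obtain ⟨K, hK⟩ : ∃ K : ℝ, K = CS + Cb * (CS + 1) + 1 + 3 * U + N * (2 * CS + 1) := ⟨_, rfl⟩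
  have hK0 : 0 ≤ K := by
    rw [hK]
    have h1 : 0 ≤ Cb * (CS + 1) := mul_nonneg hCb0 (by linarith)
    have h2 : 0 ≤ N * (2 * CS + 1) := mul_nonneg hN0 (by linarith)
    linarith
  refine ⟨80 * N * (CS + 1), 1 / CX, ?_, one_div_pos.2 hCX0, ?_⟩
  · clear hzero hextra hsieg hparams hcfb hCN hUj
    have h1 : 1 * 1 ≤ N * (CS + 1) := mul_le_mul hN1 (by linarith) zero_le_one hN0
    rw [mul_assoc]
    linarith
  intro η hη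
  obtain ⟨n₁, hn₁⟩ := hparams κ₁ κ₂ η CZ hκ₁0 hκ₂0 hη hCZ
  refine ⟨max n₁ ⌈40 * K * CX + 1 / κ₁ + κ₁ / κ₂ + CX + 1⌉₊, fun n hn => ?_⟩
  obtain ⟨hna, hnb, hnc, hnd, hn1'⟩ := f2c_c5 (n := n) (mul_nonneg (mul_nonneg (by norm_num) hK0) hCX0.le)
    (one_div_pos.2 hκ₁0) (div_pos hκ₁0 hκ₂0) hCX ((le_max_right _ _).trans hn)
  have hn1 : 1 ≤ n := by exact_mod_cast hn1'
  have hnn0 : (0 : ℝ) ≤ n := Nat.cast_nonneg n
  obtain ⟨P, hP, hPL, hPl, hPd, hPA, h₀, m₀, hnodes⟩ := hn₁ n ((le_max_left _ _).trans hn)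
  clear hparams hn₁ hn
  have hLr : ((P.L : ℕ) : ℝ) = 2 ^ n := by
    rw [hPL]
    push_cast
    rfl
  have hLpos : (0 : ℝ) < 2 ^ n := pow_pos two_pos n
  have hlL : (P.l : ℝ) ≤ 2 ^ n := by
    rw [← hLr]
    exact Nat.cast_le.2 hP.hl
  -- the orders
  obtain ⟨S', hS'⟩ : ∃ S' : ℕ, S' = n ^ 6 * 2 ^ n := ⟨_, rfl⟩
  obtain ⟨T, hT⟩ : ∃ T : ℕ, T = 4 * n ^ 6 * 2 ^ n := ⟨_, rfl⟩
  have hTS : T = 2 * (2 * S') := by
    rw [hT, hS']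
    ring
  have hS'r : (S' : ℝ) = n ^ 6 * 2 ^ n := by
    rw [hS']
    push_cast
    rfl
  have hTr : (T : ℝ) = 4 * n ^ 6 * 2 ^ n := by
    rw [hT]
    push_cast
    rfl
  have hTL : (2 : ℝ) ^ n ≤ T := by
    rw [hTr]
    exact f2c_a1 hn1' hLpos.le
  have hLT : P.L ≤ T := by
    have : ((P.L : ℕ) : ℝ) ≤ T := by rw [hLr]; exact hTL
    exact_mod_cast this
  have hT1r : (1 : ℝ) ≤ T := (one_le_pow₀ one_le_two).trans hTL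
  have hT1 : 1 ≤ T := by exact_mod_cast hT1r
  obtain ⟨W, hW⟩ : ∃ W : ℝ, W = T * (1 + Real.log T) := ⟨_, rfl⟩
  have hlogT : 0 ≤ Real.log T := Real.log_nonneg hT1r
  have hTW : (T : ℝ) ≤ W := by
    rw [hW]
    exact le_mul_of_one_le_right (Nat.cast_nonneg T) (le_add_of_nonneg_right hlogT)
  have hW40 : W ≤ 40 * n ^ 7 * 2 ^ n := by
    rw [hW, hT]
    exact f2c_W hn1
  have hW0 : 0 ≤ W := (Nat.cast_nonneg T).trans hTW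
  -- Siegel
  obtain ⟨p, hp0, hpdeg, hplen, hpvan⟩ := hsieg P hP T hLT (by
    rw [hTr, hLr]
    exact f2c_a2 hCS0.le hLpos.le hnn0 hκ₂' hPd)
  clear hsieg
  obtain ⟨δ, hδ⟩ : ∃ δ : ℕ, δ = ⌊CS * P.l⌋₊ := ⟨_, rfl⟩
  have hCSl : 0 ≤ CS * P.l := mul_nonneg hCS0.le (Nat.cast_nonneg _)
  have hδr : (δ : ℝ) ≤ CS * P.l := by
    rw [hδ]
    exact Nat.floor_le hCSl
  have hpdeg' : ∀ ν, (p ν).natDegree ≤ δ := fun ν => by
    rw [hδ]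
    exact Nat.le_floor (hpdeg ν)
  rw [mul_assoc, ← hW] at hplen
  have hH'1 : 1 ≤ Real.exp (CS * W) := Real.one_le_exp (mul_nonneg hCS0.le hW0)
  obtain ⟨B, hB⟩ : ∃ B : ℝ, B = Real.exp (CS * W) * Real.exp (Cb * (δ + P.L)) := ⟨_, rfl⟩
  have hB0 : 0 < B := by
    rw [hB]
    exact mul_pos (Real.exp_pos _) (Real.exp_pos _)
  have hlogB : Real.log B = CS * W + Cb * (δ + P.L) := by
    rw [hB, ← Real.exp_add, Real.log_exp]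
  have hcoefB : ∀ ν ∈ P.box, ‖cf ϑ Ω₁ Ω₂ P p ν‖ ≤ B := by
    rw [hB]
    exact hcfb P hP δ (Real.exp (CS * W)) p hpdeg' hplen
  clear hcfb
  -- the zero estimate
  have hnotvan : ¬ Van c₁ c₂ P (cf ϑ Ω₁ Ω₂ P p) (fun j : Fin (2 ^ k - 1) => f2c_pt k j) (2 * S') := by
    intro hvan
    obtain ⟨ν, hν, hνne⟩ := cf_ne Ω₁ Ω₂ ϑ h.h₁.ne h.h₂.ne h.tr P p hp0
    refine hνne (hzero P hP (cf ϑ Ω₁ Ω₂ P p) (2 ^ k - 1) S' (fun j : Fin (2 ^ k - 1) => f2c_pt k j) ?_ hvan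
      (κ₂ * n ^ 6) (κ₁ * n ^ 3) ?_ ?_ ?_ ?_ ?_ h₀ m₀ hnodes ν hν)
    · intro i j hij m
      exact f2c_pt_diff (f2c_c4 i) (f2c_c4 j) (fun h0 => hij (Fin.ext h0)) m
    · exact f2c_a3 hκ₁0 hn1' hnb
    · exact f2c_a4 hκ₂0 hn1' hnc
    · rw [hLr, hS'r, hκ₁]
      exact f2c_a5 hCZ hnn0 hLpos.le
    · rw [hLr, hS'r]
      exact f2c_a6 hqr hnn0 hLpos.le
    · rw [hS'r]
      exact hPA
  clear hzero
  unfold Van at hnotvan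
  push Not at hnotvan
  obtain ⟨j, r₀, s₀, hrs₀, hne₀⟩ := hnotvan
  obtain ⟨r, s, hrs, hne, hmin⟩ := f2c_find
    (f := fun r s => dd r s (GG c₁ c₂ P (cf ϑ Ω₁ Ω₂ P p)) (f2c_pt k j) (f2c_pt k j)) hrs₀ hne₀
  have hS2 : ((2 * S' : ℕ) : ℝ) = 2 * (n ^ 6 * 2 ^ n) := by
    rw [← hS'r]
    push_cast
    rfl
  have hext := hextra P hP B (cf ϑ Ω₁ Ω₂ P p) hcoefB (2 * S') (by
    rw [hLr, hS2]
    exact f2c_a7 hnd hn1' hLpos.le) (by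
    rw [← hTS]
    exact hpvan) r s hrs (f2c_pt k j)
  rw [hS2, hLr, f2c_a8 hCX0.ne' hLpos.ne'] at hext
  have hrsT : r + s ≤ T := by omega
  obtain ⟨hFne, hFlog⟩ := f2c_log_FF c₁ c₂ (f2c_pt_int (f2c_c4 j)) hB0 hne hmin hext (T := T) hrsT hT1
  rw [← hW] at hFlog
  rw [f2c_pt_coe] at hFne
  obtain ⟨Q, hQ0, hQdeg, hQlen, hQval⟩ := hCN j P hP T δ (Real.exp (CS * W)) p hLT hH'1 hpdeg' hplen r s hrsT hFne
  rw [Real.log_exp, ← hW] at hQlen hQval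
  rw [← f2c_pt_coe] at hQval
  refine ⟨Q, hQ0, f2c_b1 hQdeg (hNj j) hN0 hCS0.le (Nat.cast_nonneg _) (Nat.cast_nonneg _) hδr hPl,
    f2c_b2 hQlen (hNj j) hN0 hCS0.le hW0 hW40, ?_⟩
  rw [← Real.log_le_iff_le_exp (norm_pos_iff.2 hQ0)]
  have hLW : (P.L : ℝ) ≤ W := by
    rw [hLr]
    exact hTL.trans hTW
  have hMW : (P.M : ℝ) ≤ 3 * W := by
    have h1 : P.M ≤ 3 * P.L := by
      have := hP.hl
      unfold Pr.M
      omega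
    have h2 : (P.M : ℝ) ≤ 3 * P.L := by exact_mod_cast h1
    exact h2.trans (mul_le_mul_of_nonneg_left hLW (by norm_num))
  exact f2c_b4 hK hCb0 hW0 (hδr.trans (mul_le_mul_of_nonneg_left (hlL.trans (hTL.trans hTW)) hCS0.le))
    (Nat.cast_nonneg _) hCS0.le hLW (Nat.cast_nonneg _) hMW (hUj j) (abs_nonneg _) (hNj j) hN0 hlogB hFlog hQval
    (f2c_b3 hK0 hCX0 hn1' hLpos.le hW40 hna)

/-- F2d. PROOF. `gelfond` with `a = 256`: `Λ`. `D, c` from `step`; `η = c/(Λ D²)`, `δ_n = D η n⁵`, `σ_n = D n⁷ 2ⁿ`: `Λ δ_n σ_n = c n¹² 2ⁿ`. For large `n`: `δ_n ≥ 1`,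
`δ_n ≤ σ_n`, monotone, `(n+1)⁵ ≤ 32 n⁵`, `(n+1)⁷ 2^(n+1) ≤ 256 n⁷ 2ⁿ` (`n ≥ 1`). -/
theorem core (c₁ c₂ : Cv) (Ω₁ Ω₂ ϑ : ℂ) (h : Hyp c₁ c₂ Ω₁ Ω₂ ϑ) (hirr : Irrational (c₁.τ.im / c₂.τ.im))
    (hsq : ∃ r : ℚ, (c₁.τ.im / c₂.τ.im) ^ 2 = r) : False := by
  obtain ⟨D, c, hD, hc, hstep⟩ := step c₁ c₂ Ω₁ Ω₂ ϑ h hirr hsq
  obtain ⟨Λ, hΛ, hgel⟩ := gelfond ϑ 256 (by norm_num)
  have hD0 : 0 < D := by linarith
  set η : ℝ := c / (Λ * D ^ 2) with hη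
  have hη0 : 0 < η := by positivity
  obtain ⟨n₀, hn₀⟩ := hstep η hη0
  have hσ : Tendsto (fun n : ℕ => D * (n : ℝ) ^ 7 * 2 ^ n) atTop atTop := by
    refine tendsto_atTop_mono' _ ?_ (tendsto_natCast_atTop_atTop (R := ℝ))
    filter_upwards [eventually_ge_atTop 1] with n hn
    have hn1 : (1 : ℝ) ≤ n := by exact_mod_cast hn
    have h1 : (n : ℝ) ≤ (n : ℝ) ^ 7 := le_self_pow₀ hn1 (by norm_num)
    have h2 : (1 : ℝ) ≤ 2 ^ n := one_le_pow₀ one_le_two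
    have h3 : (1 : ℝ) * n ≤ D * (n : ℝ) ^ 7 := by gcongr
    have h4 : (0 : ℝ) ≤ D * (n : ℝ) ^ 7 := by positivity
    nlinarith
  refine hgel (fun n => D * η * (n : ℝ) ^ 5) (fun n => D * (n : ℝ) ^ 7 * 2 ^ n) ?_ hσ ?_
  · filter_upwards [eventually_ge_atTop (⌈1 / (D * η) + η⌉₊ + 1)] with n hn
    have hn1 : 1 ≤ n := by omega
    have hn1' : (1 : ℝ) ≤ n := by exact_mod_cast hn1
    have hn2 : 1 / (D * η) + η ≤ n := by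
      have h1 := Nat.le_ceil (1 / (D * η) + η)
      have h2 : ((⌈1 / (D * η) + η⌉₊ + 1 : ℕ) : ℝ) ≤ n := by exact_mod_cast hn
      push_cast at h2
      linarith
    have hDη : 0 < D * η := by positivity
    have hi : 0 < 1 / (D * η) := by positivity
    have h5 : (n : ℝ) ≤ (n : ℝ) ^ 5 := le_self_pow₀ hn1' (by norm_num)
    have h2n : (1 : ℝ) ≤ 2 ^ n := one_le_pow₀ one_le_two
    have hsucc : ((n + 1 : ℕ) : ℝ) ≤ 2 * n := by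
      push_cast
      linarith
    have hle : (n : ℝ) ≤ ((n + 1 : ℕ) : ℝ) := by
      push_cast
      linarith
    refine ⟨?_, ?_, ?_, ?_, ?_, ?_⟩
    · have h6 : 1 / (D * η) ≤ (n : ℝ) ^ 5 := by linarith
      rw [div_le_iff₀ hDη] at h6
      linarith
    · have h6 : η ≤ (n : ℝ) ^ 2 * 2 ^ n := by
        have h7 : (n : ℝ) ≤ (n : ℝ) ^ 2 := le_self_pow₀ hn1' (by norm_num)
        have h8 : (n : ℝ) ^ 2 * 1 ≤ (n : ℝ) ^ 2 * 2 ^ n := by gcongr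
        linarith
      calc D * η * (n : ℝ) ^ 5 ≤ D * ((n : ℝ) ^ 2 * 2 ^ n) * (n : ℝ) ^ 5 := by gcongr
        _ = D * (n : ℝ) ^ 7 * 2 ^ n := by ring
    · gcongr
    · calc D * η * ((n + 1 : ℕ) : ℝ) ^ 5 ≤ D * η * (2 * n) ^ 5 := by gcongr
        _ = 32 * (D * η * (n : ℝ) ^ 5) := by ring
        _ ≤ 256 * (D * η * (n : ℝ) ^ 5) := by
          have : 0 ≤ D * η * (n : ℝ) ^ 5 := by positivity
          linarith
    · have h6 : (2 : ℝ) ^ n ≤ 2 ^ (n + 1) := pow_le_pow_right₀ one_le_two (Nat.le_succ n)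
      have h7 : (n : ℝ) ^ 7 ≤ ((n + 1 : ℕ) : ℝ) ^ 7 := by gcongr
      calc D * (n : ℝ) ^ 7 * 2 ^ n ≤ D * ((n + 1 : ℕ) : ℝ) ^ 7 * 2 ^ n := by gcongr
        _ ≤ D * ((n + 1 : ℕ) : ℝ) ^ 7 * 2 ^ (n + 1) := by gcongr
    · calc D * ((n + 1 : ℕ) : ℝ) ^ 7 * 2 ^ (n + 1) ≤ D * (2 * n) ^ 7 * 2 ^ (n + 1) := by gcongr
        _ = 256 * (D * (n : ℝ) ^ 7 * 2 ^ n) := by ring
  · filter_upwards [eventually_ge_atTop n₀] with n hn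
    obtain ⟨Q, h1, h2, h3, h4⟩ := hn₀ n hn
    refine ⟨Q, h2, h3, h1, h4.trans (le_of_eq ?_)⟩
    congr 2
    rw [hη]
    field_simp

end Pool.Agent.MSP
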