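import Pool.Agent.Lib.MP_f58a57_nt.P.A3_Eval

/-! # A3c: derivatives of the auxiliary function (MP_f58a57_nt, pairs) -/

open Complex Filter Topology

noncomputable section

namespace Pool.Agent.MSP

/-- the coefficients of the auxiliary function -/
def cf (ϑ Ω₁ Ω₂ : ℂ) (P : Pr) (p : P.box → Polynomial ℤ) (ν : ℕ × ℕ × ℕ × ℕ × ℕ) : ℂ :=
  if h : ν ∈ P.box then Polynomial.aeval ϑ (p ⟨ν, h⟩) * ((Real.pi * Ω₂) ^ (ν.2.2.1 + ν.2.2.2.1 + ν.2.2.2.2) /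
    ((Real.pi * Ω₁) ^ (2 * ν.1) * (Real.pi * Ω₂) ^ (2 * ν.2.1))) else 0

/-- the value of the polynomial `Qp P ν` -/
theorem a3c_ev_Qp (τ₁ τ₂ Ω₁ Ω₂ : ℂ) (hΩ₁ : Ω₁ ≠ 0) (hΩ₂ : Ω₂ ≠ 0) (P : Pr) (ν : ℕ × ℕ × ℕ × ℕ × ℕ) (t w : ℂ)
    (c₁ c₂ : Cv) (h1 : c₁.τ = τ₁) (h2 : c₂.τ = τ₂) :
    ev τ₁ τ₂ Ω₁ Ω₂ t w (Qp P ν) =
      (Real.pi * Ω₂) ^ (ν.2.2.1 + ν.2.2.2.1 + ν.2.2.2.2) /
        ((Real.pi * Ω₁) ^ (2 * ν.1) * (Real.pi * Ω₂) ^ (2 * ν.2.1)) *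
      (wp τ₁ (sE τ₁) t ^ ν.1 * wp τ₂ (sE τ₂) w ^ ν.2.1 *
        (xx c₁ c₂ P 0 t w ^ ν.2.2.1 * xx c₁ c₂ P 1 t w ^ ν.2.2.2.1 * xx c₁ c₂ P 2 t w ^ ν.2.2.2.2)) := by
  subst h1 h2
  have hpi : (Real.pi : ℂ) ≠ 0 := by exact_mod_cast Real.pi_ne_zero
  have e0 : Real.pi * Ω₂ * (w - t) - c₂.τ * (-(Ω₂ * ph c₂.τ w / (2 * I))) + c₁.τ * (-(Ω₂ * ph c₁.τ t / (2 * I))) =
      Real.pi * Ω₂ * xx c₁ c₂ P 0 t w := by
    simp only [xx, Matrix.cons_val_zero]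
    field_simp
    ring
  have e1 : (P.b₂ : ℂ) * (-(Ω₂ * ph c₁.τ t / (2 * I))) - P.b₁ * (-(Ω₂ * ph c₂.τ w / (2 * I))) =
      Real.pi * Ω₂ * xx c₁ c₂ P 1 t w := by
    simp only [xx, Matrix.cons_val_one, Matrix.cons_val_zero]
    field_simp
    ring
  have e2 : (P.a₁ : ℂ) * (-(Ω₂ * ph c₁.τ t / (2 * I))) + P.a₂ * (-(Ω₂ * ph c₂.τ w / (2 * I))) =
      Real.pi * Ω₂ * xx c₁ c₂ P 2 t w := by
    simp only [xx, Matrix.cons_val]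
    field_simp
    ring
  have key : ev c₁.τ c₂.τ Ω₁ Ω₂ t w (Qp P ν) =
      (wp c₁.τ (sE c₁.τ) t / (Real.pi * Ω₁) ^ 2) ^ ν.1 * (wp c₂.τ (sE c₂.τ) w / (Real.pi * Ω₂) ^ 2) ^ ν.2.1 *
      ((Real.pi * Ω₂ * xx c₁ c₂ P 0 t w) ^ ν.2.2.1 * (Real.pi * Ω₂ * xx c₁ c₂ P 1 t w) ^ ν.2.2.2.1 *
        (Real.pi * Ω₂ * xx c₁ c₂ P 2 t w) ^ ν.2.2.2.2) := by
    rw [← e0, ← e1, ← e2]
    simp only [ev, Qp, vX, vY, map_mul, map_pow, map_sub, map_add, MvPolynomial.aeval_X, Sum.elim_inl, Sum.elim_inr,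
      vA, vB, Matrix.cons_val, eq_intCast, map_intCast]
  rw [key]
  simp only [mul_pow, div_pow, ← pow_mul, pow_add]
  field_simp

/-- A3c. PROOF. `ev (Qp P ν) = (wp₁/(πΩ₁)²)^a (wp₂/(πΩ₂)²)^b (πΩ₂)^{κ₁+κ₂+κ₃} x₁^κ₁ x₂^κ₂ x₃^κ₃`, since `vB 7 = πΩ₂ xx 0`,
`b₂ Y₁ - b₁ Y₂ = πΩ₂ xx 1`, `a₁ Y₁ + a₂ Y₂ = πΩ₂ xx 2` (`Y₁ = -Ω₂ ph₁/(2I) = πΩ₂ · (-ph₁/(2πI))`). -/
theorem FF_eq (c₁ c₂ : Cv) (hs₁ : c₁.s = sE c₁.τ) (hs₂ : c₂.s = sE c₂.τ) (ϑ Ω₁ Ω₂ : ℂ) (hΩ₁ : Ω₁ ≠ 0) (hΩ₂ : Ω₂ ≠ 0) (P : Pr)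
    (p : P.box → Polynomial ℤ) (t w : ℂ) :
    FF c₁ c₂ P (cf ϑ Ω₁ Ω₂ P p) t w = ∑ ν : P.box, Polynomial.aeval ϑ (p ν) * ev c₁.τ c₂.τ Ω₁ Ω₂ t w (Qp P ν) := by
  rw [FF, ← Finset.sum_coe_sort P.box]
  refine Finset.sum_congr rfl fun ν _ => ?_
  rw [a3c_ev_Qp c₁.τ c₂.τ Ω₁ Ω₂ hΩ₁ hΩ₂ P ν t w c₁ c₂ rfl rfl, cf, dif_pos ν.2, hs₁, hs₂]
  ring

/-- joint analyticity of `ev` -/
theorem a3c_ev_an2 (τ₁ τ₂ Ω₁ Ω₂ : ℂ) (h1 : 0 < τ₁.im) (h2 : 0 < τ₂.im) (t w : ℂ)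
    (ht : N0 τ₁ t ≠ 0) (hw : N0 τ₂ w ≠ 0) (p : PR) : An2 (fun t' w' => ev τ₁ τ₂ Ω₁ Ω₂ t' w' p) t w := by
  have a1 : AnalyticAt ℂ (fun q : ℂ × ℂ => q.1) (t, w) := analyticAt_fst
  have a2 : AnalyticAt ℂ (fun q : ℂ × ℂ => q.2) (t, w) := analyticAt_snd
  have w1 : AnalyticAt ℂ (fun q : ℂ × ℂ => wp τ₁ (sE τ₁) q.1) (t, w) :=
    (wp_analyticAt τ₁ (sE τ₁) h1 t ht).comp_of_eq a1 rfl
  have w2 : AnalyticAt ℂ (fun q : ℂ × ℂ => wp τ₂ (sE τ₂) q.2) (t, w) :=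
    (wp_analyticAt τ₂ (sE τ₂) h2 w hw).comp_of_eq a2 rfl
  have d1 : AnalyticAt ℂ (fun q : ℂ × ℂ => deriv (wp τ₁ (sE τ₁)) q.1) (t, w) :=
    (wp_analyticAt τ₁ (sE τ₁) h1 t ht).deriv.comp_of_eq a1 rfl
  have d2 : AnalyticAt ℂ (fun q : ℂ × ℂ => deriv (wp τ₂ (sE τ₂)) q.2) (t, w) :=
    (wp_analyticAt τ₂ (sE τ₂) h2 w hw).deriv.comp_of_eq a2 rfl
  have p1 : AnalyticAt ℂ (fun q : ℂ × ℂ => ph τ₁ q.1) (t, w) :=
    (ph_analyticAt τ₁ h1 t ht).comp_of_eq a1 rfl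
  have p2 : AnalyticAt ℂ (fun q : ℂ × ℂ => ph τ₂ q.2) (t, w) :=
    (ph_analyticAt τ₂ h2 w hw).comp_of_eq a2 rfl
  have q1 : AnalyticAt ℂ (fun q : ℂ × ℂ => -(Ω₂ * ph τ₁ q.1 / (2 * I))) (t, w) := by
    simp only [div_eq_mul_inv]
    exact ((analyticAt_const.mul p1).mul analyticAt_const).neg
  have q2 : AnalyticAt ℂ (fun q : ℂ × ℂ => -(Ω₂ * ph τ₂ q.2 / (2 * I))) (t, w) := by
    simp only [div_eq_mul_inv]
    exact ((analyticAt_const.mul p2).mul analyticAt_const).neg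
  unfold An2 ev
  refine AnalyticAt.aeval_mvPolynomial (fun i => ?_) p
  rcases i with i | j
  · simp only [Sum.elim_inl, vA]
    fin_cases i
    · simp only [Fin.zero_eta, Matrix.cons_val_zero, div_eq_mul_inv]
      exact w1.mul analyticAt_const
    · simp only [Fin.mk_one, Matrix.cons_val_one, Matrix.cons_val_zero, div_eq_mul_inv]
      exact d1.mul analyticAt_const
    · simp only [Fin.reduceFinMk, Matrix.cons_val, div_eq_mul_inv]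
      exact w2.mul analyticAt_const
    · simp only [Fin.reduceFinMk, Matrix.cons_val, div_eq_mul_inv]
      exact d2.mul analyticAt_const
    all_goals
      simp only [Fin.reduceFinMk, Matrix.cons_val]
      exact analyticAt_const
  · simp only [Sum.elim_inr, vB]
    fin_cases j
    · simp only [Fin.zero_eta, Matrix.cons_val_zero]
      exact analyticAt_const
    · simp only [Fin.mk_one, Matrix.cons_val_one, Matrix.cons_val_zero]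
      exact analyticAt_const
    · simp only [Fin.reduceFinMk, Matrix.cons_val]
      exact analyticAt_const
    · simp only [Fin.reduceFinMk, Matrix.cons_val]
      exact analyticAt_const
    · simp only [Fin.reduceFinMk, Matrix.cons_val]
      exact analyticAt_const
    · simp only [Fin.reduceFinMk, Matrix.cons_val]
      exact q1
    · simp only [Fin.reduceFinMk, Matrix.cons_val]
      exact q2
    · simp only [Fin.reduceFinMk, Matrix.cons_val]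
      exact ((analyticAt_const.mul (a2.sub a1)).sub (analyticAt_const.mul q2)).add (analyticAt_const.mul q1)

/-- `dd` commutes with finite linear combinations -/
theorem a3c_dd_sum {ι : Type*} [Fintype ι] (a : ι → ℂ) (G : ι → ℂ → ℂ → ℂ) (t w : ℂ) (hG : ∀ i, An2 (G i) t w) (r s : ℕ) :
    dd r s (fun t' w' => ∑ i, a i * G i t' w') t w = ∑ i, a i * dd r s (G i) t w := by
  have hin : ∀ᶠ t' in 𝓝 t, iteratedDeriv s (fun w' => ∑ i, a i * G i t' w') w =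
      ∑ i, a i * iteratedDeriv s (G i t') w := by
    have hev : ∀ᶠ t' in 𝓝 t, ∀ i, AnalyticAt ℂ (G i t') w := by
      rw [Filter.eventually_all]
      intro i
      have h0 : ∀ᶠ q in 𝓝 (t, w), AnalyticAt ℂ (fun p : ℂ × ℂ => G i p.1 p.2) q := (hG i).eventually_analyticAt
      have hc : Tendsto (fun t' : ℂ => (t', w)) (𝓝 t) (𝓝 (t, w)) :=
        (Continuous.prodMk_left w).tendsto t
      filter_upwards [hc.eventually h0] with t' ht'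
      have hd : AnalyticAt ℂ (fun w' : ℂ => ((t', w') : ℂ × ℂ)) w := analyticAt_const.prod analyticAt_id
      exact ht'.comp_of_eq hd rfl
    filter_upwards [hev] with t' ht'
    have hc : ∀ i ∈ (Finset.univ : Finset ι), ContDiffAt ℂ s (fun w' => a i * G i t' w') w := fun i _ =>
      (analyticAt_const.mul (ht' i)).contDiffAt
    rw [iteratedDeriv_fun_sum hc]
    refine Finset.sum_congr rfl fun i _ => ?_
    exact iteratedDeriv_const_mul_field (a i) (G i t')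
  have h2 : dd r s (fun t' w' => ∑ i, a i * G i t' w') t w =
      iteratedDeriv r (fun t' => ∑ i, a i * iteratedDeriv s (G i t') w) t := by
    unfold dd
    exact Filter.EventuallyEq.iteratedDeriv_eq r hin
  rw [h2]
  have hc : ∀ i ∈ (Finset.univ : Finset ι), ContDiffAt ℂ r (fun t' => a i * iteratedDeriv s (G i t') w) t := fun i _ => by
    have hd : AnalyticAt ℂ (fun t' : ℂ => ((t', w) : ℂ × ℂ)) t := analyticAt_id.prod analyticAt_const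
    have h3 : AnalyticAt ℂ (fun t' => iteratedDeriv s (G i t') w) t :=
      (an2_iter (G i) t w (hG i) s).comp_of_eq hd rfl
    exact (analyticAt_const.mul h3).contDiffAt
  rw [iteratedDeriv_fun_sum hc]
  refine Finset.sum_congr rfl fun i _ => ?_
  exact iteratedDeriv_const_mul_field (a i) _

/-- A3d. PROOF. A3c, linearity of `dd` for finite sums (of functions analytic at the point) and A3b. -/
theorem dd_FF (c₁ c₂ : Cv) (hs₁ : c₁.s = sE c₁.τ) (hs₂ : c₂.s = sE c₂.τ) (ϑ Ω₁ Ω₂ : ℂ) (hΩ₁ : Ω₁ ≠ 0) (hΩ₂ : Ω₂ ≠ 0) (P : Pr)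
    (p : P.box → Polynomial ℤ) (t w : ℂ) (ht : N0 c₁.τ t ≠ 0) (hw : N0 c₂.τ w ≠ 0) (r s : ℕ) :
    dd r s (FF c₁ c₂ P (cf ϑ Ω₁ Ω₂ P p)) t w = (Real.pi * Ω₁) ^ r * (Real.pi * Ω₂) ^ s *
      ∑ ν : P.box, Polynomial.aeval ϑ (p ν) * ev c₁.τ c₂.τ Ω₁ Ω₂ t w (der₁^[r] (der₂^[s] (Qp P ν))) := by
  have h0 : FF c₁ c₂ P (cf ϑ Ω₁ Ω₂ P p) = fun t' w' => ∑ ν : P.box, Polynomial.aeval ϑ (p ν) *
      (fun t'' w'' => ev c₁.τ c₂.τ Ω₁ Ω₂ t'' w'' (Qp P ν)) t' w' := by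
    funext t' w'
    exact FF_eq c₁ c₂ hs₁ hs₂ ϑ Ω₁ Ω₂ hΩ₁ hΩ₂ P p t' w'
  rw [h0, a3c_dd_sum (fun ν : P.box => Polynomial.aeval ϑ (p ν))
    (fun (ν : P.box) (t' w' : ℂ) => ev c₁.τ c₂.τ Ω₁ Ω₂ t' w' (Qp P ν)) t w
    (fun ν => a3c_ev_an2 c₁.τ c₂.τ Ω₁ Ω₂ c₁.im c₂.im t w ht hw (Qp P ν)) r s, Finset.mul_sum]
  refine Finset.sum_congr rfl fun ν _ => ?_
  rw [dd_ev c₁.τ c₂.τ Ω₁ Ω₂ c₁.im c₂.im hΩ₁ hΩ₂ t w ht hw (Qp P ν) r s]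
  ring

end Pool.Agent.MSP
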