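import Pool.Agent.Lib.MP_f58a57_nt.P.A4c_Dict

/-! # A5: Siegel's lemma over `ℤ[ϑ]` (MP_f58a57_nt, pairs) -/

open Complex Filter Topology IntermediateField Polynomial

noncomputable section

namespace Pool.Agent.MSP

/-- the polynomial with given coefficients -/
def a5_pol {δ : ℕ} (t : Fin (δ + 1) → ℤ) : Polynomial ℤ := ∑ m : Fin (δ + 1), C (t m) * X ^ (m : ℕ)

theorem a5_coeff_mul {δ : ℕ} (t : Fin (δ + 1) → ℤ) (q : Polynomial ℤ) (k : ℕ) :
    (a5_pol t * q).coeff k = ∑ m : Fin (δ + 1), (if (m : ℕ) ≤ k then q.coeff (k - m) else 0) * t m := by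
  unfold a5_pol
  rw [Finset.sum_mul, finsetSum_coeff]
  refine Finset.sum_congr rfl fun m _ => ?_
  rw [mul_assoc, coeff_C_mul, coeff_X_pow_mul', mul_comm]

theorem a5_coeff {δ : ℕ} (t : Fin (δ + 1) → ℤ) (m : Fin (δ + 1)) : (a5_pol t).coeff m = t m := by
  have h := a5_coeff_mul t 1 m
  rw [mul_one] at h
  rw [h, Finset.sum_eq_single m]
  · simp
  · intro b _ hb
    by_cases hbm : (b : ℕ) ≤ m
    · rw [if_pos hbm, coeff_one, if_neg, zero_mul]
      intro h0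
      apply hb
      apply Fin.ext
      omega
    · rw [if_neg hbm, zero_mul]
  · intro h0
    exact absurd (Finset.mem_univ m) h0

theorem a5_natDegree {δ : ℕ} (t : Fin (δ + 1) → ℤ) : (a5_pol t).natDegree ≤ δ := by
  unfold a5_pol
  refine natDegree_sum_le_of_forall_le _ _ fun m _ => ?_
  refine (natDegree_C_mul_X_pow_le _ _).trans ?_
  have := m.2
  omega

theorem a5_bound {δ : ℕ} (t : Fin (δ + 1) → ℤ) {B : ℝ} (hB : ∀ m, |((t m : ℤ) : ℝ)| ≤ B) (hB0 : 0 ≤ B)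
    (i : ℕ) : |(((a5_pol t).coeff i : ℤ) : ℝ)| ≤ B := by
  by_cases hi : i < δ + 1
  · have := a5_coeff t ⟨i, hi⟩
    simp only at this
    rw [this]
    exact hB _
  · rw [coeff_eq_zero_of_natDegree_lt (lt_of_le_of_lt (a5_natDegree t) (by omega))]
    simpa using hB0

/-- Siegel's lemma with exponent at most one. -/
theorem a5_siegel {α β : Type} [Fintype α] [Fintype β] (A : Matrix α β ℤ) {B : ℝ} (hB : 1 ≤ B)
    (hA : ∀ i j, |((A i j : ℤ) : ℝ)| ≤ B) (h : 2 * Fintype.card α ≤ Fintype.card β)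
    (hα : 0 < Fintype.card α) :
    ∃ t : β → ℤ, t ≠ 0 ∧ A.mulVec t = 0 ∧ ∀ j, |((t j : ℤ) : ℝ)| ≤ Fintype.card β * B := by
  classical
  let _ : SeminormedAddCommGroup (Matrix α β ℤ) := Matrix.seminormedAddCommGroup
  obtain ⟨t, ht, hAt, hn⟩ := Int.Matrix.exists_ne_zero_int_vec_norm_le A (by omega) hα
  refine ⟨t, ht, hAt, fun j => ?_⟩
  have hβ : (1 : ℝ) ≤ Fintype.card β := by
    have : 1 ≤ Fintype.card β := by omega
    exact_mod_cast this
  have hAn : max 1 ‖A‖ ≤ B := by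
    refine max_le hB ?_
    rw [Matrix.norm_le_iff (by linarith)]
    intro i j
    rw [Int.norm_eq_abs]
    exact hA i j
  have h1 : |((t j : ℤ) : ℝ)| ≤ ‖t‖ := by
    rw [← Int.norm_eq_abs]
    exact norm_le_pi_norm t j
  have hbase : (1 : ℝ) ≤ Fintype.card β * max 1 ‖A‖ := by
    have : (1 : ℝ) ≤ max 1 ‖A‖ := le_max_left _ _
    nlinarith
  have hexp : (Fintype.card α : ℝ) / (Fintype.card β - Fintype.card α) ≤ 1 := by
    have h2 : (2 : ℝ) * Fintype.card α ≤ Fintype.card β := by exact_mod_cast h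
    have h3 : (0 : ℝ) < Fintype.card α := by exact_mod_cast hα
    rw [div_le_one (by linarith)]
    linarith
  calc |((t j : ℤ) : ℝ)| ≤ ‖t‖ := h1
    _ ≤ (Fintype.card β * max 1 ‖A‖) ^ ((Fintype.card α : ℝ) / (Fintype.card β - Fintype.card α)) := hn
    _ ≤ (Fintype.card β * max 1 ‖A‖) ^ (1 : ℝ) := Real.rpow_le_rpow_of_exponent_le hbase hexp
    _ = Fintype.card β * max 1 ‖A‖ := Real.rpow_one _
    _ ≤ Fintype.card β * B := by gcongr

/-- the matrix relation gives the numerical relation -/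
theorem a5_eval {ϑ : ℂ} {r s : ℕ} {x : Fin r → ℂ} {y : Fin s → ℂ} (𝔇 : Dict ϑ x y) {ι : Type}
    [Fintype ι] {D l : ℕ} {H : ℝ} (Ξ : ι → MvPolynomial (Fin r ⊕ Fin s) ℤ) (hΞ : ∀ ν, Bd D l H (Ξ ν))
    (p : ι → Polynomial ℤ)
    (h : ∀ i j, ∑ ν, p ν * 𝔇.mat D l (Ξ ν) i j = 0) :
    ∑ ν, aeval ϑ (p ν) * MvPolynomial.aeval (Sum.elim x y) (Ξ ν) = 0 := by
  have h1 : ∀ j, ∑ i, 𝔇.v i * ∑ ν, aeval ϑ (p ν) * aeval ϑ (𝔇.mat D l (Ξ ν) i j) = 0 := by
    intro j
    refine Finset.sum_eq_zero fun i _ => ?_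
    have h2 := congrArg (aeval ϑ) (h i j)
    rw [map_sum, map_zero] at h2
    simp only [map_mul] at h2
    rw [h2, mul_zero]
  have h3 : ∀ j, (𝔇.sc D l * ∑ ν, aeval ϑ (p ν) * MvPolynomial.aeval (Sum.elim x y) (Ξ ν)) * 𝔇.v j = 0 := by
    intro j
    rw [← h1 j]
    have h4 : ∀ ν, ∑ i, 𝔇.v i * aeval ϑ (𝔇.mat D l (Ξ ν) i j) =
        (𝔇.sc D l * MvPolynomial.aeval (Sum.elim x y) (Ξ ν)) * 𝔇.v j := by
      intro ν
      have h5 := congrFun (𝔇.eig D l H (Ξ ν) (hΞ ν)) j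
      rw [Pi.smul_apply, smul_eq_mul] at h5
      rw [← h5]
      rfl
    calc (𝔇.sc D l * ∑ ν, aeval ϑ (p ν) * MvPolynomial.aeval (Sum.elim x y) (Ξ ν)) * 𝔇.v j
        = ∑ ν, aeval ϑ (p ν) * ((𝔇.sc D l * MvPolynomial.aeval (Sum.elim x y) (Ξ ν)) * 𝔇.v j) := by
          rw [Finset.mul_sum, Finset.sum_mul]
          refine Finset.sum_congr rfl fun ν _ => ?_
          ring
      _ = ∑ ν, aeval ϑ (p ν) * ∑ i, 𝔇.v i * aeval ϑ (𝔇.mat D l (Ξ ν) i j) := by
          refine Finset.sum_congr rfl fun ν _ => ?_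
          rw [h4 ν]
      _ = ∑ ν, ∑ i, 𝔇.v i * (aeval ϑ (p ν) * aeval ϑ (𝔇.mat D l (Ξ ν) i j)) := by
          refine Finset.sum_congr rfl fun ν _ => ?_
          rw [Finset.mul_sum]
          refine Finset.sum_congr rfl fun i _ => ?_
          ring
      _ = ∑ i, ∑ ν, 𝔇.v i * (aeval ϑ (p ν) * aeval ϑ (𝔇.mat D l (Ξ ν) i j)) := Finset.sum_comm
      _ = ∑ i, 𝔇.v i * ∑ ν, aeval ϑ (p ν) * aeval ϑ (𝔇.mat D l (Ξ ν) i j) := by
          refine Finset.sum_congr rfl fun i _ => ?_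
          rw [Finset.mul_sum]
  obtain ⟨j, hj⟩ := Function.ne_iff.1 𝔇.v_ne
  have h6 := (mul_eq_zero.1 (h3 j)).resolve_right hj
  exact (mul_eq_zero.1 h6).resolve_left (𝔇.sc_ne D l)

/-- A5. PROOF. Let `𝔇` be a `Dict`, `δ = e l`. Unknowns: the `card ι · (δ + 1)` coefficients of the `p_ν`. It suffices that
`∑_ν p_ν mat(Ξ_{c,ν}) = 0` in `Mat_d(ℤ[X])` for all `c` (by `eig`, `sc_ne`, `v_ne`): `card κ · d² · (2δ + 1)` integer equations (coefficients of
`X^k`, `k ≤ 2δ`), with coefficients bounded by `C^{D+l} H`. If `C' ≥ 4d²`, then `card ι (δ+1) ≥ 4d² card κ (δ+1) ≥ 2 · card κ d² (2δ+1)`, and Siegel's lemma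
`Int.Matrix.exists_ne_zero_int_vec_norm_le` (exponent `m/(n-m) ≤ 1`) gives a nonzero solution with `|coefficients| ≤ card ι (δ+1) C^{D+l} H`, so
`len p_ν ≤ (δ+1)² card ι C^{D+l} H ≤ card ι · C'^{D+l+1} H`. (If `card κ = 0` take all `p_ν = 1`.) -/
theorem siegel {r s : ℕ} (ϑ : ℂ) (hϑ : Transcendental ℚ ϑ) (x : Fin r → ℂ) (y : Fin s → ℂ)
    (hx : ∀ i, IsAlgebraic ℚ (x i)) (hy : ∀ j, IsAlgebraic ℚ⟮ϑ⟯ (y j)) : ∃ C : ℝ, 1 ≤ C ∧
    ∀ (ι κ : Type) [Fintype ι] [Fintype κ] (D l : ℕ) (H : ℝ) (Ξ : κ → ι → MvPolynomial (Fin r ⊕ Fin s) ℤ), 1 ≤ H →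
      (∀ c ν, Bd D l H (Ξ c ν)) → 0 < Fintype.card ι → C * Fintype.card κ ≤ Fintype.card ι →
      ∃ p : ι → Polynomial ℤ, p ≠ 0 ∧ (∀ ν, ((p ν).natDegree : ℝ) ≤ C * l) ∧
        (∀ ν, len (p ν) ≤ Fintype.card ι * C ^ (D + l + 1) * H) ∧
        ∀ c, ∑ ν, aeval ϑ (p ν) * MvPolynomial.aeval (Sum.elim x y) (Ξ c ν) = 0 := by
  classical
  obtain ⟨𝔇⟩ := exists_dict ϑ hϑ x y hx hy
  set d := 𝔇.d with hd
  set e := 𝔇.e with he
  have hC0 : 1 ≤ 𝔇.C := 𝔇.one_le
  have hd1 : (1 : ℝ) ≤ d := by exact_mod_cast 𝔇.d_pos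
  have he1 : (1 : ℝ) ≤ (e : ℝ) + 1 := by
    have : (0 : ℝ) ≤ e := Nat.cast_nonneg _
    linarith
  set K : ℝ := 4 * ((e : ℝ) + 1) ^ 2 with hK
  have hK1 : 4 ≤ K := by
    rw [hK]
    nlinarith
  set C' : ℝ := K * 𝔇.C * (d : ℝ) ^ 2 with hC'
  have hd2 : (1 : ℝ) ≤ (d : ℝ) ^ 2 := one_le_pow₀ hd1
  have hKC : K * 𝔇.C ≤ C' := by
    rw [hC']
    exact le_mul_of_one_le_right (by positivity) hd2
  have hKC1 : K ≤ K * 𝔇.C := le_mul_of_one_le_right (by linarith) hC0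
  have hC'1 : 1 ≤ C' := by linarith
  have h4d : 4 * (d : ℝ) ^ 2 ≤ C' := by
    rw [hC']
    have : 4 ≤ K * 𝔇.C := by linarith
    nlinarith
  have heC : (e : ℝ) ≤ C' := by
    have : (e : ℝ) ≤ K := by
      rw [hK]
      nlinarith [Nat.cast_nonneg (α := ℝ) e]
    linarith
  refine ⟨C', hC'1, ?_⟩
  intro ι κ _ _ D l H Ξ hH hΞ hι hcard
  have hι1 : (1 : ℝ) ≤ Fintype.card ι := by exact_mod_cast hι
  by_cases hκ : Fintype.card κ = 0
  · have hem : IsEmpty κ := Fintype.card_eq_zero_iff.1 hκ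
    refine ⟨fun _ => 1, ?_, ?_, ?_, fun c => hem.elim c⟩
    · intro h0
      have hne : Nonempty ι := Fintype.card_pos_iff.1 hι
      have := congrFun h0 hne.some
      simp at this
    · intro ν
      simp only [natDegree_one, Nat.cast_zero]
      positivity
    · intro ν
      have h1 : len (1 : Polynomial ℤ) = 1 := by
        have := len_C 1
        simpa using this
      rw [h1]
      have h2 : (1 : ℝ) ≤ C' ^ (D + l + 1) := one_le_pow₀ hC'1
      calc (1 : ℝ) = 1 * 1 * 1 := by norm_num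
        _ ≤ Fintype.card ι * C' ^ (D + l + 1) * H := by gcongr
  · have hκ' : 0 < Fintype.card κ := Nat.pos_of_ne_zero hκ
    set δ := e * l with hδ
    let A : Matrix (κ × (Fin d × Fin d) × Fin (2 * δ + 1)) (ι × Fin (δ + 1)) ℤ := fun a b =>
      if (b.2 : ℕ) ≤ (a.2.2 : ℕ) then
        (𝔇.mat D l (Ξ a.1 b.1) a.2.1.1 a.2.1.2).coeff ((a.2.2 : ℕ) - (b.2 : ℕ)) else 0
    have hB1 : 1 ≤ 𝔇.C ^ (D + l) * H := by
      have : (1 : ℝ) ≤ 𝔇.C ^ (D + l) := one_le_pow₀ hC0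
      nlinarith
    have hA : ∀ a b, |((A a b : ℤ) : ℝ)| ≤ 𝔇.C ^ (D + l) * H := by
      intro a b
      simp only [A]
      split_ifs
      · exact (abs_coeff_le_len _ _).trans (𝔇.len_le D l H _ (hΞ _ _) _ _)
      · simp only [Int.cast_zero, abs_zero]
        linarith
    have hcα : Fintype.card (κ × (Fin d × Fin d) × Fin (2 * δ + 1)) =
        Fintype.card κ * (d * d * (2 * δ + 1)) := by
      simp [Fintype.card_prod]
    have hcβ : Fintype.card (ι × Fin (δ + 1)) = Fintype.card ι * (δ + 1) := by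
      simp [Fintype.card_prod]
    have hcard2 : 4 * d * d * Fintype.card κ ≤ Fintype.card ι := by
      have h1 : 4 * (d : ℝ) ^ 2 * Fintype.card κ ≤ Fintype.card ι := by
        refine le_trans ?_ hcard
        gcongr
      have h2 : ((4 * d * d * Fintype.card κ : ℕ) : ℝ) ≤ (Fintype.card ι : ℕ) := by
        push_cast
        linarith
      exact_mod_cast h2
    obtain ⟨t, ht, hAt, htB⟩ := a5_siegel A hB1 hA (by
        rw [hcα, hcβ]
        calc 2 * (Fintype.card κ * (d * d * (2 * δ + 1)))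
            ≤ (4 * d * d * Fintype.card κ) * (δ + 1) := by nlinarith
          _ ≤ Fintype.card ι * (δ + 1) := by gcongr) (by
        rw [hcα]
        have := 𝔇.d_pos
        positivity)
    refine ⟨fun ν => a5_pol fun m => t (ν, m), ?_, ?_, ?_, ?_⟩
    · intro h0
      apply ht
      funext b
      have h1 := congrFun h0 b.1
      have h2 := a5_coeff (fun m => t (b.1, m)) b.2
      rw [h1] at h2
      simpa using h2.symm
    · intro ν
      have h1 := a5_natDegree (fun m => t (ν, m))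
      have h2 : ((a5_pol fun m => t (ν, m)).natDegree : ℝ) ≤ (e * l : ℕ) := by exact_mod_cast h1
      refine h2.trans ?_
      push_cast
      gcongr
    · intro ν
      have hβ : ((Fintype.card (ι × Fin (δ + 1)) : ℕ) : ℝ) = Fintype.card ι * ((δ : ℝ) + 1) := by
        rw [hcβ]
        push_cast
        ring
      have h1 := len_le_of_coeff (a5_pol fun m => t (ν, m)) _
        (a5_bound (fun m => t (ν, m)) (fun m => htB (ν, m)) (by positivity))
      have h2 : ((a5_pol fun m => t (ν, m)).natDegree : ℝ) ≤ δ := by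
        exact_mod_cast a5_natDegree (fun m => t (ν, m))
      have h3 : ((δ : ℝ) + 1) ^ 2 ≤ K ^ (D + l + 1) := by
        have h4 : (δ : ℝ) + 1 ≤ (e + 1) * 2 ^ l := by
          have h5 : (l : ℝ) + 1 ≤ 2 ^ l := by
            have := Nat.lt_two_pow_self (n := l)
            exact_mod_cast this
          rw [hδ]
          push_cast
          nlinarith [Nat.cast_nonneg (α := ℝ) e, Nat.cast_nonneg (α := ℝ) l]
        have h6 : ((e : ℝ) + 1) ^ 2 ≤ K := by
          rw [hK]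
          nlinarith
        calc ((δ : ℝ) + 1) ^ 2 ≤ ((e + 1) * 2 ^ l) ^ 2 := by gcongr
          _ = ((e : ℝ) + 1) ^ 2 * 4 ^ l := by
              rw [mul_pow, ← pow_mul, mul_comm l 2, pow_mul]
              norm_num
          _ ≤ K * K ^ l := by gcongr
          _ = K ^ (l + 1) := by ring
          _ ≤ K ^ (D + l + 1) := pow_le_pow_right₀ (by linarith) (by omega)
      have h7 : K ^ (D + l + 1) * 𝔇.C ^ (D + l) ≤ C' ^ (D + l + 1) := by
        have h8 : 𝔇.C ^ (D + l) ≤ 𝔇.C ^ (D + l + 1) := pow_le_pow_right₀ hC0 (Nat.le_succ _)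
        calc K ^ (D + l + 1) * 𝔇.C ^ (D + l) ≤ K ^ (D + l + 1) * 𝔇.C ^ (D + l + 1) := by
              gcongr
          _ = (K * 𝔇.C) ^ (D + l + 1) := (mul_pow K 𝔇.C (D + l + 1)).symm
          _ ≤ C' ^ (D + l + 1) := by gcongr
      calc len (a5_pol fun m => t (ν, m))
          ≤ ((a5_pol fun m => t (ν, m)).natDegree + 1) *
            (((Fintype.card (ι × Fin (δ + 1)) : ℕ) : ℝ) * (𝔇.C ^ (D + l) * H)) := h1
        _ ≤ ((δ : ℝ) + 1) * ((Fintype.card ι * ((δ : ℝ) + 1)) * (𝔇.C ^ (D + l) * H)) := by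
            rw [hβ]
            gcongr
        _ = Fintype.card ι * (((δ : ℝ) + 1) ^ 2 * 𝔇.C ^ (D + l)) * H := by ring
        _ ≤ Fintype.card ι * (K ^ (D + l + 1) * 𝔇.C ^ (D + l)) * H := by gcongr
        _ ≤ Fintype.card ι * C' ^ (D + l + 1) * H := by gcongr
    · intro c
      refine a5_eval 𝔇 (Ξ c) (hΞ c) _ fun i j => ?_
      ext k
      rw [finsetSum_coeff, coeff_zero]
      by_cases hk : k < 2 * δ + 1
      · have h1 := congrFun hAt (c, (i, j), ⟨k, hk⟩)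
        rw [Pi.zero_apply, Matrix.mulVec, dotProduct, Fintype.sum_prod_type] at h1
        rw [← h1]
        refine Finset.sum_congr rfl fun ν _ => ?_
        rw [a5_coeff_mul]
      · refine Finset.sum_eq_zero fun ν _ => ?_
        apply coeff_eq_zero_of_natDegree_lt
        refine lt_of_le_of_lt natDegree_mul_le ?_
        have h1 := a5_natDegree (fun m => t (ν, m))
        have h2 := 𝔇.deg D l H (Ξ c ν) (hΞ c ν) i j
        have h3 : e * l = δ := rfl
        rw [← he, h3] at h2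
        omega

end Pool.Agent.MSP
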