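import Pool.Agent.Lib.MP_f58a57_nt.P.E1_Dup

/-! # E1b: duplication formulas (MP_f58a57_nt, pairs) -/

open Complex Filter Topology

noncomputable section

namespace Pool.Agent.MSP

theorem th_ne_of_double (τ : ℂ) (hτ : 0 < τ.im) (t : ℂ) (ht : th τ (2 * t) ≠ 0) : th τ t ≠ 0 := by
  intro h
  apply ht
  rw [th_eq_zero_iff τ hτ] at h ⊢
  obtain ⟨m, n, rfl⟩ := h
  exact ⟨2 * m, 2 * n, by push_cast; ring⟩

theorem wp'_ne (τ : ℂ) (hτ : 0 < τ.im) (t : ℂ) (ht : th τ (2 * t) ≠ 0) : deriv (wp τ (sE τ)) t ≠ 0 := by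
  intro h
  have h1 := th_double τ hτ t (th_ne_of_double τ hτ t ht)
  rw [h, zero_mul] at h1
  have h2 := mul_ne_zero (neg_ne_zero.mpr (pow_ne_zero 3 (deriv_th_zero_ne τ hτ))) ht
  exact h2 h1.symm

theorem e1b_eventually (τ : ℂ) (hτ : 0 < τ.im) (t : ℂ) (ht : th τ (2 * t) ≠ 0) :
    ∀ᶠ u in 𝓝 t, th τ (2 * u) ≠ 0 := by
  have hc : Continuous (fun u : ℂ => th τ (2 * u)) :=
    (th_differentiable τ hτ).continuous.comp (continuous_const.mul continuous_id)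
  exact hc.continuousAt.eventually_ne ht

theorem e1b_comp_two {f : ℂ → ℂ} {f' t : ℂ} (h : HasDerivAt f f' (2 * t)) :
    HasDerivAt (fun u => f (2 * u)) (2 * f') t := by
  have h2 : HasDerivAt (fun u : ℂ => 2 * u) 2 t := by
    simpa using (hasDerivAt_id t).const_mul (2 : ℂ)
  have := HasDerivAt.comp t h h2
  rw [mul_comm]
  exact this

/-- E1b. PROOF. Logarithmic derivative of `th_double` (both sides analytic and nonzero near `t`):
`wp''/wp' + 4 ph(t) = 2 ph(2t)`. -/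
theorem ph_double (τ : ℂ) (hτ : 0 < τ.im) (t : ℂ) (ht : th τ (2 * t) ≠ 0) :
    ph τ (2 * t) = 2 * ph τ t + deriv (deriv (wp τ (sE τ))) t / (2 * deriv (wp τ (sE τ)) t) := by
  have ht1 := th_ne_of_double τ hτ t ht
  have hP1 := wp'_ne τ hτ t ht
  have hc := deriv_th_zero_ne τ hτ
  have hP : HasDerivAt (deriv (wp τ (sE τ))) (deriv (deriv (wp τ (sE τ))) t) t :=
    (wp_ode2 τ hτ t ht1).differentiableAt.hasDerivAt
  have hth : HasDerivAt (th τ) (deriv (th τ) t) t := (th_differentiable τ hτ t).hasDerivAt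
  have hth2 : HasDerivAt (th τ) (deriv (th τ) (2 * t)) (2 * t) := (th_differentiable τ hτ (2 * t)).hasDerivAt
  have hL := hP.mul (hth.pow 4)
  have hR := (e1b_comp_two hth2).const_mul (-(deriv (th τ) 0) ^ 3)
  have hev : (fun u => deriv (wp τ (sE τ)) u * th τ u ^ 4) =ᶠ[𝓝 t]
      (fun u => -(deriv (th τ) 0) ^ 3 * th τ (2 * u)) := by
    filter_upwards [e1b_eventually τ hτ t ht] with u hu
    exact th_double τ hτ u (th_ne_of_double τ hτ u hu)
  have hL' : HasDerivAt (fun u => deriv (wp τ (sE τ)) u * th τ u ^ 4)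
      (-(deriv (th τ) 0) ^ 3 * (2 * deriv (th τ) (2 * t))) t := hR.congr_of_eventuallyEq hev
  have key := HasDerivAt.unique hL hL'
  have h0 := th_double τ hτ t ht1
  simp only [Pi.pow_apply] at key
  unfold ph N1 N0
  set A := deriv (deriv (wp τ (sE τ))) t
  set B := deriv (wp τ (sE τ)) t
  set C := deriv (th τ) 0
  set D := deriv (th τ) (2 * t)
  set E := deriv (th τ) t
  set T := th τ t
  set T2 := th τ (2 * t)
  have hT2 : T2 = -(B * T ^ 4) / C ^ 3 := by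
    field_simp
    linear_combination h0
  have hD : D = -(A * T ^ 4 + B * (4 * T ^ 3 * E)) / (2 * C ^ 3) := by
    field_simp
    push_cast at key
    linear_combination key
  rw [hD, hT2]
  have hB : B ≠ 0 := hP1
  have hT : T ≠ 0 := ht1
  have hC : C ≠ 0 := hc
  field_simp
  ring

/-- E1c. PROOF. Differentiate E1b (`hasDerivAt_ph`, `wp_ode2` and `wp''' = 12 wp wp'`): with `s = sE τ`,
`-2(wp(2t) + s) = -2 (wp(t) + s) + (wp''' wp' - wp''²)/(2 wp'²)`, and `wp''' wp'/(2 wp'²) = 6 wp`. -/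
theorem wp_double (τ : ℂ) (hτ : 0 < τ.im) (t : ℂ) (ht : th τ (2 * t) ≠ 0) :
    wp τ (sE τ) (2 * t) = -2 * wp τ (sE τ) t +
      (deriv (deriv (wp τ (sE τ))) t / (2 * deriv (wp τ (sE τ)) t)) ^ 2 := by
  have ht1 := th_ne_of_double τ hτ t ht
  have hP1 := wp'_ne τ hτ t ht
  have hW : HasDerivAt (wp τ (sE τ)) (deriv (wp τ (sE τ)) t) t :=
    (wp_analyticAt τ (sE τ) hτ t ht1).differentiableAt.hasDerivAt
  have hP : HasDerivAt (deriv (wp τ (sE τ))) (deriv (deriv (wp τ (sE τ))) t) t :=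
    (wp_ode2 τ hτ t ht1).differentiableAt.hasDerivAt
  have hval : deriv (deriv (wp τ (sE τ))) t = 6 * wp τ (sE τ) t ^ 2 - 2 / 3 * Real.pi ^ 4 * MSD.e4 τ :=
    (wp_ode2 τ hτ t ht1).deriv
  have hL : HasDerivAt (fun u => ph τ (2 * u)) (2 * (-(wp τ (sE τ) (2 * t) + sE τ))) t :=
    e1b_comp_two (hasDerivAt_ph τ (sE τ) hτ (2 * t) ht)
  have hnum : HasDerivAt (fun u => 6 * wp τ (sE τ) u ^ 2 - 2 / 3 * Real.pi ^ 4 * MSD.e4 τ)
      (12 * wp τ (sE τ) t * deriv (wp τ (sE τ)) t) t := by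
    have h1 := ((hW.pow 2).const_mul (6 : ℂ)).sub_const (2 / 3 * Real.pi ^ 4 * MSD.e4 τ)
    have h2 : (6 : ℂ) * ((2 : ℕ) * wp τ (sE τ) t ^ (2 - 1) * deriv (wp τ (sE τ)) t) =
        12 * wp τ (sE τ) t * deriv (wp τ (sE τ)) t := by
      norm_num
      ring
    rw [h2] at h1
    exact h1
  have hden : HasDerivAt (fun u => 2 * deriv (wp τ (sE τ)) u) (2 * deriv (deriv (wp τ (sE τ))) t) t :=
    hP.const_mul 2
  have hden0 : 2 * deriv (wp τ (sE τ)) t ≠ 0 := mul_ne_zero two_ne_zero hP1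
  have hR := ((hasDerivAt_ph τ (sE τ) hτ t ht1).const_mul 2).add (hnum.div hden hden0)
  have hev : (fun u => ph τ (2 * u)) =ᶠ[𝓝 t]
      (fun u => 2 * ph τ u + (6 * wp τ (sE τ) u ^ 2 - 2 / 3 * Real.pi ^ 4 * MSD.e4 τ) /
        (2 * deriv (wp τ (sE τ)) u)) := by
    filter_upwards [e1b_eventually τ hτ t ht] with u hu
    rw [ph_double τ hτ u hu, (wp_ode2 τ hτ u (th_ne_of_double τ hτ u hu)).deriv]
  have hR' := hR.congr_of_eventuallyEq hev
  have key := HasDerivAt.unique hL hR'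
  rw [← hval] at key
  rw [hval] at key ⊢
  set P := wp τ (sE τ) t
  set P1 := deriv (wp τ (sE τ)) t
  set P2 := wp τ (sE τ) (2 * t)
  set K := 2 / 3 * (Real.pi : ℂ) ^ 4 * MSD.e4 τ
  have hP1' : P1 ≠ 0 := hP1
  field_simp at key ⊢
  linear_combination (-1 : ℂ) * key

end Pool.Agent.MSP
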