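import Pool.Agent.Lib.MP_f58a57_nt.P.F2_Steps
import Pool.Agent.Lib.MP_f58a57_nt.P.A6_Norm

/-! # F2b: norm step (MP_f58a57_nt, pairs) -/

open Complex Filter Topology IntermediateField Polynomial

noncomputable section

namespace Pool.Agent.MSP

private lemma f2b_r1 {a b T l : ℝ} (h1 : a ≤ T * (4 + l)) (h2 : b ≤ T) (h3 : 0 ≤ T * l) :
    a + b ≤ 5 * (T * (1 + l)) := by
  linarith

private lemma f2b_r2 {a b h T l L q : ℝ} (h1 : a ≤ 5 * (1 + l)) (h2 : b ≤ 5 * (T * (1 + l)))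
    (h3 : 1 + l ≤ T * (1 + l)) (h4 : T ≤ T * (1 + l)) (h5 : L ≤ T) (h6 : q ≤ L) (h7 : 1 ≤ T) :
    a + b + h + (2 * L + 2 * T + q + 1) ≤ h + 16 * (T * (1 + l)) := by
  linarith

private lemma f2b_r3 {C K h W : ℝ} (h1 : 0 ≤ C * h) (h2 : 0 ≤ K * (h + W)) :
    C * (h + 16 * W) ≤ (16 * C + K) * (h + W) := by
  linarith

private lemma f2b_r4 {r T x : ℝ} (h1 : 0 ≤ r) (h2 : r ≤ T) : -(r * x) ≤ T * |x| := by
  have h3 := mul_le_mul_of_nonneg_left (neg_abs_le x) h1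
  have h4 := mul_le_mul_of_nonneg_right h2 (abs_nonneg x)
  linarith

private lemma f2b_r5 {h d T W : ℝ} (h1 : 0 ≤ h) (h2 : 0 ≤ d) (h3 : T ≤ W) : T ≤ h + d + W := by
  linarith

private lemma f2b_r6 {C h W d : ℝ} (h1 : 0 ≤ C * h) (h2 : 0 ≤ C * d) :
    C * (h + 16 * W + d) ≤ 16 * C * (h + d + W) := by
  linarith

private lemma f2b_r7 {d x u v L : ℝ} (h1 : 0 ≤ x * L) (h2 : 0 ≤ u * d) (h3 : 0 ≤ v * d)
    (h4 : 0 ≤ L) (h5 : 0 ≤ d) :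
    d * x + (2 * u + 3 * v) * L ≤ (1 + x + 2 * u + 3 * v) * (d + L) := by
  linarith

theorem f2b_aeval_ne {ϑ : ℂ} (hϑ : Transcendental ℚ ϑ) {q : Polynomial ℤ} (hq : q ≠ 0) :
    aeval ϑ q ≠ 0 := by
  intro h
  refine hϑ ⟨q.map (algebraMap ℤ ℚ), ?_, ?_⟩
  · rwa [Ne, Polynomial.map_eq_zero_iff (RingHom.injective_int (algebraMap ℤ ℚ))]
  · rw [Polynomial.aeval_map_algebraMap]
    exact h

theorem f2b_pi_ne {Ω : ℂ} (hΩ : Ω ≠ 0) : (Real.pi : ℂ) * Ω ≠ 0 :=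
  mul_ne_zero (by exact_mod_cast Real.pi_ne_zero) hΩ

/-- the point `a/2^k` is not a zero of the theta function -/
theorem f2b_N0_ne (c : Cv) (k : ℕ) (a : ℤ) (ha : ¬ ((2 : ℤ) ^ k ∣ a)) :
    N0 c.τ ((a : ℂ) / 2 ^ k) ≠ 0 := by
  have h := th_real_ne c.τ c.im ((a : ℝ) / 2 ^ k) (fun m hm => by
    apply ha
    have h2 : (0 : ℝ) < 2 ^ k := by positivity
    rw [div_eq_iff h2.ne'] at hm
    have h3 : a = m * 2 ^ k := by exact_mod_cast hm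
    exact ⟨m, by rw [h3]; ring⟩)
  have e : (((a : ℝ) / 2 ^ k : ℝ) : ℂ) = (a : ℂ) / 2 ^ k := by push_cast; rfl
  rw [e] at h
  exact h

theorem f2b_box {P : Pr} {ν : ℕ × ℕ × ℕ × ℕ × ℕ} (hν : ν ∈ P.box) :
    ν.1 ≤ P.L ∧ ν.2.1 ≤ P.L ∧ ν.2.2.1 + ν.2.2.2.1 + ν.2.2.2.2 ≤ P.l := by
  unfold Pr.box at hν
  simp only [Finset.mem_product, Finset.mem_range] at hν
  unfold Pr.l
  omega

theorem f2b_card (P : Pr) (hP : P.Good) {T : ℕ} (hT : P.L ≤ T) :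
    (Fintype.card P.box : ℝ) ≤ (2 * (T : ℝ)) ^ 5 ∧ 1 ≤ (Fintype.card P.box : ℝ) := by
  have h1 := hP.hL
  have h2 := hP.hl
  unfold Pr.l at h2
  have hc : Fintype.card P.box =
      (P.L + 1) * ((P.L + 1) * ((P.d₁ + 1) * ((P.d₂ + 1) * (P.d₃ + 1)))) := by
    rw [Fintype.card_coe]
    unfold Pr.box
    simp only [Finset.card_product, Finset.card_range]
  rw [hc]
  constructor
  · have h3 : (P.L + 1) * ((P.L + 1) * ((P.d₁ + 1) * ((P.d₂ + 1) * (P.d₃ + 1)))) ≤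
        (2 * T) * ((2 * T) * ((2 * T) * ((2 * T) * (2 * T)))) := by
      refine Nat.mul_le_mul (by omega) (Nat.mul_le_mul (by omega) (Nat.mul_le_mul (by omega)
        (Nat.mul_le_mul (by omega) (by omega))))
    have h4 : (((P.L + 1) * ((P.L + 1) * ((P.d₁ + 1) * ((P.d₂ + 1) * (P.d₃ + 1)))) : ℕ) : ℝ) ≤
        (((2 * T) * ((2 * T) * ((2 * T) * ((2 * T) * (2 * T)))) : ℕ) : ℝ) := by exact_mod_cast h3
    refine h4.trans (le_of_eq ?_)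
    push_cast
    ring
  · have : 0 < (P.L + 1) * ((P.L + 1) * ((P.d₁ + 1) * ((P.d₂ + 1) * (P.d₃ + 1)))) := by positivity
    exact_mod_cast this

theorem f2b_log2 : Real.log 2 ≤ 1 := by
  have := Real.log_le_sub_one_of_pos (by norm_num : (0 : ℝ) < 2)
  linarith

theorem f2b_log40 : Real.log 40 ≤ 4 := by
  rw [Real.log_le_iff_le_exp (by norm_num)]
  have h1 : (2.7182818283 : ℝ) < Real.exp 1 := Real.exp_one_gt_d9
  have h2 : Real.exp 4 = Real.exp 1 ^ 4 := by rw [← Real.exp_nat_mul]; norm_num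
  rw [h2]
  have h3 : (2.7 : ℝ) ^ 4 ≤ Real.exp 1 ^ 4 := pow_le_pow_left₀ (by norm_num) (by linarith) 4
  norm_num at h3 ⊢
  linarith

/-- F2b. PROOF. `norm_lemma` with `x = vA (a/2^k)`, `y = vB (a/2^k)` (F1d, F1e), `Ξ ν = der₁^[r] (der₂^[s] (Qp P ν))`, `Bd (2L + 2T) l H`,
`H = (8 (2L + 2T + l))^(r+s) A^l ≤ (40 T)^T e^L` (`≥ 1` after enlarging), `log (card ι) ≤ 5 log (2T)`. By `dd_FF` (`N0 τ (a/2^k) ≠ 0`: `th_real_ne`)
`∑ p_ν(ϑ) Ξ_ν(..) = dd r s FF /((πΩ₁)^r (πΩ₂)^s)`, so `log‖∑‖ ≤ log‖dd r s FF‖ + C T`. -/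
theorem norm_step (c₁ c₂ : Cv) (Ω₁ Ω₂ ϑ : ℂ) (h : Hyp c₁ c₂ Ω₁ Ω₂ ϑ) (k : ℕ) (a : ℤ) (ha : ¬ ((2 : ℤ) ^ k ∣ a)) :
    ∃ C : ℝ, 1 ≤ C ∧ ∀ (P : Pr), P.Good → ∀ (T δ : ℕ) (H' : ℝ) (p : P.box → Polynomial ℤ), P.L ≤ T → 1 ≤ H' →
      (∀ ν, (p ν).natDegree ≤ δ) → (∀ ν, len (p ν) ≤ H') → ∀ r s, r + s ≤ T →
      dd r s (FF c₁ c₂ P (cf ϑ Ω₁ Ω₂ P p)) ((a : ℂ) / 2 ^ k) ((a : ℂ) / 2 ^ k) ≠ 0 →
      ∃ Q : Polynomial ℤ, aeval ϑ Q ≠ 0 ∧ (Q.natDegree : ℝ) ≤ C * (δ + P.l) ∧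
        Real.log (len Q) ≤ C * (Real.log H' + T * (1 + Real.log T)) ∧
        Real.log ‖aeval ϑ Q‖ ≤ Real.log ‖dd r s (FF c₁ c₂ P (cf ϑ Ω₁ Ω₂ P p)) ((a : ℂ) / 2 ^ k) ((a : ℂ) / 2 ^ k)‖ +
          C * (Real.log H' + δ + T * (1 + Real.log T)) := by
  set t : ℂ := (a : ℂ) / 2 ^ k with ht
  obtain ⟨C₁, hC₁, hnorm⟩ := norm_lemma ϑ h.tr (vA c₁.τ c₂.τ Ω₁ Ω₂ t t) (vB c₁.τ c₂.τ Ω₁ Ω₂ t t)
    (vA_alg c₁.τ c₂.τ Ω₁ Ω₂ h.h₁ h.h₂ k a ha)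
    (vB_alg c₁.τ c₂.τ Ω₁ Ω₂ ϑ h.h₁ h.h₂ h.a₁ h.a₂ k a ha)
  have hp1 := f2b_pi_ne h.h₁.ne
  have hp2 := f2b_pi_ne h.h₂.ne
  set K : ℝ := |Real.log ‖(Real.pi : ℂ) * Ω₁‖| + |Real.log ‖(Real.pi : ℂ) * Ω₂‖| with hK
  have hK0 : 0 ≤ K := by positivity
  refine ⟨16 * C₁ + K, by linarith, ?_⟩
  intro P hP T δ H' p hLT hH' hdeg hlen r s hrs hne
  have hL1 := hP.hL
  have hlL := hP.hl
  have hT1 : 1 ≤ T := hL1.trans hLT
  have hTr : (1 : ℝ) ≤ T := by exact_mod_cast hT1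
  have hLTr : (P.L : ℝ) ≤ T := by exact_mod_cast hLT
  have hlLr : (P.l : ℝ) ≤ P.L := by exact_mod_cast hlL
  have hL1r : (1 : ℝ) ≤ P.L := by exact_mod_cast hL1
  have hl0r : (0 : ℝ) ≤ P.l := Nat.cast_nonneg _
  have hlogT : 0 ≤ Real.log T := Real.log_nonneg hTr
  have hδ0 : (0 : ℝ) ≤ δ := Nat.cast_nonneg _
  have hlogH' : 0 ≤ Real.log H' := Real.log_nonneg hH'
  have hA1 : (1 : ℝ) ≤ P.A := by
    unfold Pr.A
    have h1 := abs_nonneg (P.a₁ : ℝ)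
    have h2 := abs_nonneg (P.a₂ : ℝ)
    have h3 := abs_nonneg (P.b₁ : ℝ)
    have h4 := abs_nonneg (P.b₂ : ℝ)
    linarith
  set B : ℝ := 8 * (((2 * P.L : ℕ) : ℝ) + 2 * T + P.l) with hB
  have hB8 : 1 ≤ B := by
    rw [hB]; push_cast; linarith
  have hB40 : B ≤ 40 * T := by
    rw [hB]; push_cast; linarith
  set H : ℝ := B ^ (r + s) * P.A ^ P.l with hH
  have hH1 : 1 ≤ H := one_le_mul_of_one_le_of_one_le (one_le_pow₀ hB8) (one_le_pow₀ hA1)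
  set S : ℂ := ∑ ν : P.box, aeval ϑ (p ν) * MvPolynomial.aeval
    (Sum.elim (vA c₁.τ c₂.τ Ω₁ Ω₂ t t) (vB c₁.τ c₂.τ Ω₁ Ω₂ t t))
    (der₁^[r] (der₂^[s] (Qp P ν))) with hS
  have hN1 := f2b_N0_ne c₁ k a ha
  have hN2 := f2b_N0_ne c₂ k a ha
  have hdd : dd r s (FF c₁ c₂ P (cf ϑ Ω₁ Ω₂ P p)) t t =
      (Real.pi * Ω₁) ^ r * (Real.pi * Ω₂) ^ s * S :=
    dd_FF c₁ c₂ h.s₁ h.s₂ ϑ Ω₁ Ω₂ h.h₁.ne h.h₂.ne P p t t hN1 hN2 r s
  have hS0 : S ≠ 0 := by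
    intro h0
    apply hne
    rw [hdd, h0, mul_zero]
  obtain ⟨Q, hQ0, hQ1, hQ2, hQ3⟩ := hnorm P.box (2 * P.L + 2 * T) P.l δ H H' p
    (fun ν => der₁^[r] (der₂^[s] (Qp P ν))) hH1 hH'
    (fun ν => Bd.iter (Bd.Qp P ν ν.2) r s T hrs) hdeg hlen hS0
  obtain ⟨hc1, hc2⟩ := f2b_card P hP hLT
  have hlogc : Real.log (Fintype.card P.box) ≤ 5 * (1 + Real.log T) := by
    have h1 := Real.log_le_log (by linarith) hc1
    rw [Real.log_pow, Real.log_mul (by norm_num) (by positivity)] at h1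
    have h2 := f2b_log2
    push_cast at h1
    linarith
  have hlogB : Real.log B ≤ 4 + Real.log T := by
    have h1 := Real.log_le_log (by linarith) hB40
    rw [Real.log_mul (by norm_num : (40 : ℝ) ≠ 0) (by positivity : (T : ℝ) ≠ 0)] at h1
    have := f2b_log40
    linarith
  have hlogB0 : 0 ≤ Real.log B := Real.log_nonneg hB8
  have hlogA : Real.log (P.A ^ P.l) ≤ T := by
    have h1 := Real.log_le_log (by positivity) hP.hA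
    rw [Real.log_exp] at h1
    linarith
  have hrs' : ((r + s : ℕ) : ℝ) ≤ T := by exact_mod_cast hrs
  have hlogH : Real.log H ≤ 5 * (T * (1 + Real.log T)) := by
    rw [hH, Real.log_mul (by positivity) (by positivity), Real.log_pow]
    have h1 : ((r + s : ℕ) : ℝ) * Real.log B ≤ T * (4 + Real.log T) :=
      mul_le_mul hrs' hlogB hlogB0 (by positivity)
    exact f2b_r1 h1 hlogA (mul_nonneg (zero_le_one.trans hTr) hlogT)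
  have hprod : Real.log (Fintype.card P.box * H * H') =
      Real.log (Fintype.card P.box) + Real.log H + Real.log H' := by
    rw [Real.log_mul (by positivity) (by positivity), Real.log_mul (by positivity) (by positivity)]
  have hTW : (T : ℝ) ≤ T * (1 + Real.log T) :=
    le_mul_of_one_le_right (zero_le_one.trans hTr) (le_add_of_nonneg_right hlogT)
  have hTT : (1 + Real.log T) ≤ T * (1 + Real.log T) := by
    exact le_mul_of_one_le_left (add_nonneg zero_le_one hlogT) hTr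
  have hmain : Real.log (Fintype.card P.box * H * H') + (((2 * P.L + 2 * T : ℕ) : ℝ) + P.l + 1) ≤
      Real.log H' + 16 * (T * (1 + Real.log T)) := by
    rw [hprod]
    push_cast
    exact f2b_r2 hlogc hlogH hTT hTW hLTr hlLr hTr
  have hTl : 0 ≤ T * (1 + Real.log T) := by positivity
  refine ⟨Q, hQ0, ?_, ?_, ?_⟩
  · refine hQ1.trans ?_
    exact mul_le_mul_of_nonneg_right (by linarith) (by positivity)
  · refine hQ2.trans ?_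
    have h1 := mul_le_mul_of_nonneg_left hmain (by linarith : 0 ≤ C₁)
    refine h1.trans ?_
    have h2 : 0 ≤ C₁ * Real.log H' := by positivity
    have h3 : 0 ≤ K * (Real.log H' + T * (1 + Real.log T)) :=
      mul_nonneg hK0 (add_nonneg hlogH' hTl)
    exact f2b_r3 h2 h3
  · have hlogS : Real.log ‖S‖ ≤
        Real.log ‖dd r s (FF c₁ c₂ P (cf ϑ Ω₁ Ω₂ P p)) t t‖ + K * T := by
      rw [hdd, norm_mul, norm_mul, norm_pow, norm_pow,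
        Real.log_mul (by positivity) (by positivity), Real.log_mul (by positivity) (by positivity),
        Real.log_pow, Real.log_pow]
      have hr : (r : ℝ) ≤ T := by
        refine le_trans ?_ hrs'
        push_cast
        have : (0 : ℝ) ≤ s := Nat.cast_nonneg _
        linarith
      have hs : (s : ℝ) ≤ T := by
        refine le_trans ?_ hrs'
        push_cast
        have : (0 : ℝ) ≤ r := Nat.cast_nonneg _
        linarith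
      have h1 : -((r : ℝ) * Real.log ‖(Real.pi : ℂ) * Ω₁‖) ≤
          T * |Real.log ‖(Real.pi : ℂ) * Ω₁‖| := by
        exact f2b_r4 (Nat.cast_nonneg _) hr
      have h1' : -((s : ℝ) * Real.log ‖(Real.pi : ℂ) * Ω₂‖) ≤
          T * |Real.log ‖(Real.pi : ℂ) * Ω₂‖| := by
        exact f2b_r4 (Nat.cast_nonneg _) hs
      rw [hK]
      linarith
    refine hQ3.trans ?_
    have h1 : C₁ * (Real.log (Fintype.card P.box * H * H') +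
        (((2 * P.L + 2 * T : ℕ) : ℝ) + P.l + δ + 1)) ≤
        C₁ * (Real.log H' + 16 * (T * (1 + Real.log T)) + δ) := by
      refine mul_le_mul_of_nonneg_left ?_ (by linarith)
      linarith
    have h2 : K * T ≤ K * (Real.log H' + δ + T * (1 + Real.log T)) := by
      refine mul_le_mul_of_nonneg_left ?_ hK0
      exact f2b_r5 hlogH' hδ0 hTW
    have h3 : C₁ * (Real.log H' + 16 * (T * (1 + Real.log T)) + δ) ≤
        16 * C₁ * (Real.log H' + δ + T * (1 + Real.log T)) := by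
      exact f2b_r6 (mul_nonneg (zero_le_one.trans hC₁) hlogH') (mul_nonneg (zero_le_one.trans hC₁) hδ0)
    linarith

/-- F2b'. -/
theorem cf_bound (Ω₁ Ω₂ ϑ : ℂ) (hΩ₁ : Ω₁ ≠ 0) (hΩ₂ : Ω₂ ≠ 0) : ∃ C : ℝ, 1 ≤ C ∧ ∀ (P : Pr), P.Good →
    ∀ (δ : ℕ) (H' : ℝ) (p : P.box → Polynomial ℤ), (∀ ν, (p ν).natDegree ≤ δ) → (∀ ν, len (p ν) ≤ H') →
    ∀ ν ∈ P.box, ‖cf ϑ Ω₁ Ω₂ P p ν‖ ≤ H' * Real.exp (C * (δ + P.L)) := by
  have hp1 := f2b_pi_ne hΩ₁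
  have hp2 := f2b_pi_ne hΩ₂
  set u : ℝ := Real.log ‖(Real.pi : ℂ) * Ω₁‖ with hu
  set v : ℝ := Real.log ‖(Real.pi : ℂ) * Ω₂‖ with hv
  set x : ℝ := Real.log (max 1 ‖ϑ‖) with hx
  have hx0 : 0 ≤ x := Real.log_nonneg (le_max_left _ _)
  have hmax : Real.exp x = max 1 ‖ϑ‖ := Real.exp_log (lt_of_lt_of_le one_pos (le_max_left _ _))
  have hexpu : Real.exp u = ‖(Real.pi : ℂ) * Ω₁‖ := Real.exp_log (norm_pos_iff.2 hp1)
  have hexpv : Real.exp v = ‖(Real.pi : ℂ) * Ω₂‖ := Real.exp_log (norm_pos_iff.2 hp2)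
  refine ⟨1 + x + 2 * |u| + 3 * |v|, by
    have := abs_nonneg u
    have := abs_nonneg v
    linarith, ?_⟩
  intro P hP δ H' p hdeg hlen ν hν
  obtain ⟨b1, b2, b3⟩ := f2b_box hν
  have hlL := hP.hl
  unfold cf
  rw [dif_pos hν, norm_mul, norm_div, norm_mul, norm_pow, norm_pow, norm_pow]
  have h1 := norm_aeval_le ϑ (p ⟨ν, hν⟩)
  have h2 : ‖aeval ϑ (p ⟨ν, hν⟩)‖ ≤ H' * Real.exp (δ * x) := by
    refine h1.trans ?_
    have h3 : (max 1 ‖ϑ‖) ^ (p ⟨ν, hν⟩).natDegree ≤ Real.exp (δ * x) := by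
      rw [Real.exp_nat_mul, hmax]
      exact pow_le_pow_right₀ (le_max_left _ _) (hdeg _)
    exact mul_le_mul (hlen _) h3 (by positivity) ((len_nonneg _).trans (hlen ⟨ν, hν⟩))
  have hL0 : (0 : ℝ) ≤ P.L := Nat.cast_nonneg _
  have hδ0 : (0 : ℝ) ≤ δ := Nat.cast_nonneg _
  have h4 : ‖(Real.pi : ℂ) * Ω₂‖ ^ (ν.2.2.1 + ν.2.2.2.1 + ν.2.2.2.2) /
      (‖(Real.pi : ℂ) * Ω₁‖ ^ (2 * ν.1) * ‖(Real.pi : ℂ) * Ω₂‖ ^ (2 * ν.2.1)) ≤
      Real.exp ((2 * |u| + 3 * |v|) * P.L) := by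
    rw [← hexpu, ← hexpv, ← Real.exp_nat_mul, ← Real.exp_nat_mul, ← Real.exp_nat_mul,
      ← Real.exp_add, ← Real.exp_sub]
    apply Real.exp_le_exp.2
    have e1 : (ν.1 : ℝ) ≤ P.L := by exact_mod_cast b1
    have e2 : (ν.2.1 : ℝ) ≤ P.L := by exact_mod_cast b2
    have e3 : ((ν.2.2.1 + ν.2.2.2.1 + ν.2.2.2.2 : ℕ) : ℝ) ≤ P.L := by
      exact_mod_cast b3.trans hlL
    have f1 : (0 : ℝ) ≤ ν.1 := Nat.cast_nonneg _
    have f2 : (0 : ℝ) ≤ ν.2.1 := Nat.cast_nonneg _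
    have f3 : (0 : ℝ) ≤ ((ν.2.2.1 + ν.2.2.2.1 + ν.2.2.2.2 : ℕ) : ℝ) := Nat.cast_nonneg _
    have g1 : ((ν.2.2.1 + ν.2.2.2.1 + ν.2.2.2.2 : ℕ) : ℝ) * v ≤ P.L * |v| :=
      (mul_le_mul_of_nonneg_left (le_abs_self v) f3).trans
        (mul_le_mul_of_nonneg_right e3 (abs_nonneg v))
    have g2 : -((ν.1 : ℝ) * u) ≤ P.L * |u| := by
      have := mul_le_mul_of_nonneg_left (neg_abs_le u) f1
      have := mul_le_mul_of_nonneg_right e1 (abs_nonneg u)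
      linarith
    have g3 : -((ν.2.1 : ℝ) * v) ≤ P.L * |v| := by
      have := mul_le_mul_of_nonneg_left (neg_abs_le v) f2
      have := mul_le_mul_of_nonneg_right e2 (abs_nonneg v)
      linarith
    push_cast at g1 ⊢
    linarith
  calc ‖aeval ϑ (p ⟨ν, hν⟩)‖ * (‖(Real.pi : ℂ) * Ω₂‖ ^ (ν.2.2.1 + ν.2.2.2.1 + ν.2.2.2.2) /
      (‖(Real.pi : ℂ) * Ω₁‖ ^ (2 * ν.1) * ‖(Real.pi : ℂ) * Ω₂‖ ^ (2 * ν.2.1)))
      ≤ (H' * Real.exp (δ * x)) * Real.exp ((2 * |u| + 3 * |v|) * P.L) :=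
        mul_le_mul h2 h4 (by positivity) ((norm_nonneg _).trans h2)
    _ = H' * Real.exp (δ * x + (2 * |u| + 3 * |v|) * P.L) := by
        rw [mul_assoc, ← Real.exp_add]
    _ ≤ H' * Real.exp ((1 + x + 2 * |u| + 3 * |v|) * (δ + P.L)) := by
        refine mul_le_mul_of_nonneg_left (Real.exp_le_exp.2 ?_) ((len_nonneg _).trans (hlen ⟨ν, hν⟩))
        exact f2b_r7 (mul_nonneg hx0 hL0) (mul_nonneg (abs_nonneg u) hδ0)
          (mul_nonneg (abs_nonneg v) hδ0) hL0 hδ0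

/-- F2b''. -/
theorem cf_ne (Ω₁ Ω₂ ϑ : ℂ) (hΩ₁ : Ω₁ ≠ 0) (hΩ₂ : Ω₂ ≠ 0) (hϑ : Transcendental ℚ ϑ) (P : Pr) (p : P.box → Polynomial ℤ)
    (hp : p ≠ 0) : ∃ ν ∈ P.box, cf ϑ Ω₁ Ω₂ P p ν ≠ 0 := by
  obtain ⟨ν, hν⟩ := Function.ne_iff.1 hp
  refine ⟨ν.1, ν.2, ?_⟩
  unfold cf
  rw [dif_pos ν.2]
  have hp1 := f2b_pi_ne hΩ₁
  have hp2 := f2b_pi_ne hΩ₂
  refine mul_ne_zero (f2b_aeval_ne hϑ hν) (div_ne_zero (pow_ne_zero _ hp2)
    (mul_ne_zero (pow_ne_zero _ hp1) (pow_ne_zero _ hp2)))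

end Pool.Agent.MSP
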