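import Pool.Agent.Lib.MP_f58a57_nt.P.A1_Len

/-! # A1b: closure properties of `Bd` (MP_f58a57_nt, pairs) -/

open Complex Filter Topology

noncomputable section

namespace Pool.Agent.MSP

variable {r s : ℕ}

theorem Bd.mono {D D' l l' : ℕ} {H H' : ℝ} {p : MvPolynomial (Fin r ⊕ Fin s) ℤ} (h : Bd D l H p) (hD : D ≤ D')
    (hl : l ≤ l') (hH : H ≤ H') : Bd D' l' H' p :=
  ⟨fun m hm => (h.dA m hm).trans hD, fun m hm => (h.dB m hm).trans hl, h.h.trans hH⟩

theorem Bd.zero (D l : ℕ) (H : ℝ) (hH : 0 ≤ H) : Bd D l H (0 : MvPolynomial (Fin r ⊕ Fin s) ℤ) :=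
  ⟨fun m hm => by simp at hm, fun m hm => by simp at hm, by rw [mlen_zero]; exact hH⟩

theorem Bd.add {D l : ℕ} {H H' : ℝ} {p p' : MvPolynomial (Fin r ⊕ Fin s) ℤ} (h : Bd D l H p) (h' : Bd D l H' p') :
    Bd D l (H + H') (p + p') := by
  classical
  refine ⟨fun m hm => ?_, fun m hm => ?_, (mlen_add p p').trans (add_le_add h.h h'.h)⟩
  · rcases Finset.mem_union.1 (MvPolynomial.support_add hm) with hm | hm
    · exact h.dA m hm
    · exact h'.dA m hm
  · rcases Finset.mem_union.1 (MvPolynomial.support_add hm) with hm | hm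
    · exact h.dB m hm
    · exact h'.dB m hm

theorem Bd.sum {ι : Type*} {D l : ℕ} (S : Finset ι) (H : ι → ℝ) (p : ι → MvPolynomial (Fin r ⊕ Fin s) ℤ)
    (h : ∀ i ∈ S, Bd D l (H i) (p i)) : Bd D l (∑ i ∈ S, H i) (∑ i ∈ S, p i) := by
  classical
  induction S using Finset.induction_on with
  | empty =>
    rw [Finset.sum_empty, Finset.sum_empty]
    exact Bd.zero D l 0 (le_refl _)
  | insert a S ha ih =>
    rw [Finset.sum_insert ha, Finset.sum_insert ha]
    exact (h a (Finset.mem_insert_self _ _)).add (ih fun i hi => h i (Finset.mem_insert_of_mem hi))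

theorem Bd.mul {D D' l l' : ℕ} {H H' : ℝ} {p p' : MvPolynomial (Fin r ⊕ Fin s) ℤ} (h : Bd D l H p)
    (h' : Bd D' l' H' p') : Bd (D + D') (l + l') (H * H') (p * p') := by
  classical
  have hmem : ∀ m ∈ (p * p').support, ∃ a ∈ p.support, ∃ b ∈ p'.support, m = a + b := by
    intro m hm
    have := MvPolynomial.support_mul p p' hm
    obtain ⟨a, ha, b, hb, hab⟩ := Finset.mem_add.1 this
    exact ⟨a, ha, b, hb, hab.symm⟩
  refine ⟨fun m hm => ?_, fun m hm => ?_, ?_⟩
  · obtain ⟨a, ha, b, hb, rfl⟩ := hmem m hm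
    simp only [Finsupp.add_apply, Finset.sum_add_distrib]
    exact add_le_add (h.dA a ha) (h'.dA b hb)
  · obtain ⟨a, ha, b, hb, rfl⟩ := hmem m hm
    simp only [Finsupp.add_apply, Finset.sum_add_distrib]
    exact add_le_add (h.dB a ha) (h'.dB b hb)
  · refine (mlen_mul p p').trans ?_
    exact mul_le_mul h.h h'.h (mlen_nonneg _) ((mlen_nonneg p).trans h.h)

theorem Bd.const (a : ℤ) : Bd 0 0 |(a : ℝ)| (MvPolynomial.C a : MvPolynomial (Fin r ⊕ Fin s) ℤ) := by
  classical
  have hm0 : ∀ m ∈ (MvPolynomial.C a : MvPolynomial (Fin r ⊕ Fin s) ℤ).support, m = 0 := by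
    intro m hm
    have h1 := MvPolynomial.mem_support_iff.1 hm
    rw [MvPolynomial.coeff_C] at h1
    by_contra hne
    exact h1 (if_neg (Ne.symm hne))
  refine ⟨fun m hm => ?_, fun m hm => ?_, ?_⟩
  · rw [hm0 m hm]; simp
  · rw [hm0 m hm]; simp
  · rw [mlen_C]

theorem Bd.pow {D l : ℕ} {H : ℝ} {p : MvPolynomial (Fin r ⊕ Fin s) ℤ} (h : Bd D l H p) (n : ℕ) :
    Bd (n * D) (n * l) (H ^ n) (p ^ n) := by
  induction n with
  | zero =>
    have := Bd.const (r := r) (s := s) 1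
    simpa using this
  | succ n ih =>
    rw [pow_succ, pow_succ]
    have := ih.mul h
    rwa [← Nat.succ_mul, ← Nat.succ_mul] at this

theorem a1b_single_l (i : Fin r) : ∑ k : Fin r, (Finsupp.single (Sum.inl i : Fin r ⊕ Fin s) 1) (Sum.inl k) = 1 := by
  rw [Finset.sum_eq_single i]
  · simp
  · intro k _ hk
    rw [Finsupp.single_apply, if_neg]
    intro h
    exact hk (Sum.inl_injective h).symm
  · intro h
    exact absurd (Finset.mem_univ i) h

theorem a1b_single_r (j : Fin s) : ∑ k : Fin s, (Finsupp.single (Sum.inr j : Fin r ⊕ Fin s) 1) (Sum.inr k) = 1 := by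
  rw [Finset.sum_eq_single j]
  · simp
  · intro k _ hk
    rw [Finsupp.single_apply, if_neg]
    intro h
    exact hk (Sum.inr_injective h).symm
  · intro h
    exact absurd (Finset.mem_univ j) h

theorem Bd.varA (i : Fin r) : Bd 1 0 1 (MvPolynomial.X (Sum.inl i) : MvPolynomial (Fin r ⊕ Fin s) ℤ) := by
  classical
  have hm0 : ∀ m ∈ (MvPolynomial.X (Sum.inl i) : MvPolynomial (Fin r ⊕ Fin s) ℤ).support,
      m = Finsupp.single (Sum.inl i) 1 := by
    intro m hm
    exact Finset.mem_singleton.1 (MvPolynomial.support_monomial_subset hm)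
  refine ⟨fun m hm => ?_, fun m hm => ?_, ?_⟩
  · rw [hm0 m hm]
    exact (a1b_single_l i).le
  · rw [hm0 m hm]
    simp
  · rw [MvPolynomial.X, mlen_monomial]
    simp

theorem Bd.varB (j : Fin s) : Bd 0 1 1 (MvPolynomial.X (Sum.inr j) : MvPolynomial (Fin r ⊕ Fin s) ℤ) := by
  classical
  have hm0 : ∀ m ∈ (MvPolynomial.X (Sum.inr j) : MvPolynomial (Fin r ⊕ Fin s) ℤ).support,
      m = Finsupp.single (Sum.inr j) 1 := by
    intro m hm
    exact Finset.mem_singleton.1 (MvPolynomial.support_monomial_subset hm)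
  refine ⟨fun m hm => ?_, fun m hm => ?_, ?_⟩
  · rw [hm0 m hm]
    simp
  · rw [hm0 m hm]
    exact (a1b_single_r j).le
  · rw [MvPolynomial.X, mlen_monomial]
    simp

end Pool.Agent.MSP
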