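import Pool.Agent.Lib.MP_f58a57_nt.P.A1b_Bd

/-! # A2: the two derivations (MP_f58a57_nt, pairs)

Variables: `inl 0, ..., inl 7` stand for `P₁, P₁', P₂, P₂', h₁, h₂, τ₁, τ₂`; `inr 0, ..., inr 7` stand for
`κ₁, κ₁s₁, κ₂, κ₂s₂, c, Y₁, Y₂, Y₃`. -/

open Complex Filter Topology

noncomputable section

namespace Pool.Agent.MSP

/-- the polynomial ring -/
abbrev PR := MvPolynomial (Fin 8 ⊕ Fin 8) ℤ

def vX (i : Fin 8) : PR := MvPolynomial.X (Sum.inl i)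
def vY (j : Fin 8) : PR := MvPolynomial.X (Sum.inr j)

/-- `δ₁ = (1/ω₁) ∂/∂t` -/
def der₁ : Derivation ℤ PR PR := MvPolynomial.mkDerivation ℤ (fun v => match v with
  | Sum.inl i => ![vX 1, 6 * vX 0 ^ 2 - vX 4, 0, 0, 0, 0, 0, 0] i
  | Sum.inr j => ![0, 0, 0, 0, 0, vY 0 * vX 0 + vY 1, 0, -vY 4 + vX 6 * (vY 0 * vX 0 + vY 1)] j)

/-- `δ₂ = (1/ω₂) ∂/∂w` -/
def der₂ : Derivation ℤ PR PR := MvPolynomial.mkDerivation ℤ (fun v => match v with
  | Sum.inl i => ![0, 0, vX 3, 6 * vX 2 ^ 2 - vX 5, 0, 0, 0, 0] i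
  | Sum.inr j => ![0, 0, 0, 0, 0, 0, vY 2 * vX 2 + vY 3, 1 - vX 7 * (vY 2 * vX 2 + vY 3)] j)

/-- degrees of a monomial -/
theorem a2_bd_monomial {D l : ℕ} (m : Fin 8 ⊕ Fin 8 →₀ ℕ) (a : ℤ) (hA : ∑ i, m (Sum.inl i) ≤ D) (hB : ∑ j, m (Sum.inr j) ≤ l) :
    Bd D l |(a : ℝ)| (MvPolynomial.monomial m a : PR) := by
  classical
  have hm0 : ∀ m' ∈ (MvPolynomial.monomial m a : PR).support, m' = m := by
    intro m' hm'
    exact Finset.mem_singleton.1 (MvPolynomial.support_monomial_subset hm')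
  refine ⟨fun m' hm' => ?_, fun m' hm' => ?_, ?_⟩
  · rw [hm0 m' hm']; exact hA
  · rw [hm0 m' hm']; exact hB
  · rw [mlen_monomial]

theorem a2_sub_l (m : Fin 8 ⊕ Fin 8 →₀ ℕ) (i : Fin 8) (hi : m (Sum.inl i) ≠ 0) :
    ∑ k, (m - Finsupp.single (Sum.inl i) 1 : Fin 8 ⊕ Fin 8 →₀ ℕ) (Sum.inl k) + 1 = ∑ k, m (Sum.inl k) ∧
    ∑ k, (m - Finsupp.single (Sum.inl i) 1 : Fin 8 ⊕ Fin 8 →₀ ℕ) (Sum.inr k) = ∑ k, m (Sum.inr k) := by
  classical
  have h : (m - Finsupp.single (Sum.inl i) 1) + Finsupp.single (Sum.inl i) 1 = m := by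
    apply tsub_add_cancel_of_le
    rw [Finsupp.single_le_iff]
    omega
  have h1 : ∀ v, m v = (m - Finsupp.single (Sum.inl i) 1 : Fin 8 ⊕ Fin 8 →₀ ℕ) v + (Finsupp.single (Sum.inl i) 1 : Fin 8 ⊕ Fin 8 →₀ ℕ) v := by
    intro v
    conv_lhs => rw [← h]
    rw [Finsupp.add_apply]
  refine ⟨?_, ?_⟩
  · rw [Finset.sum_congr rfl (fun k _ => h1 (Sum.inl k)), Finset.sum_add_distrib, a1b_single_l]
  · rw [Finset.sum_congr rfl (fun k _ => h1 (Sum.inr k)), Finset.sum_add_distrib]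
    simp

theorem a2_sub_r (m : Fin 8 ⊕ Fin 8 →₀ ℕ) (i : Fin 8) (hi : m (Sum.inr i) ≠ 0) :
    ∑ k, (m - Finsupp.single (Sum.inr i) 1 : Fin 8 ⊕ Fin 8 →₀ ℕ) (Sum.inr k) + 1 = ∑ k, m (Sum.inr k) ∧
    ∑ k, (m - Finsupp.single (Sum.inr i) 1 : Fin 8 ⊕ Fin 8 →₀ ℕ) (Sum.inl k) = ∑ k, m (Sum.inl k) := by
  classical
  have h : (m - Finsupp.single (Sum.inr i) 1) + Finsupp.single (Sum.inr i) 1 = m := by
    apply tsub_add_cancel_of_le
    rw [Finsupp.single_le_iff]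
    omega
  have h1 : ∀ v, m v = (m - Finsupp.single (Sum.inr i) 1 : Fin 8 ⊕ Fin 8 →₀ ℕ) v + (Finsupp.single (Sum.inr i) 1 : Fin 8 ⊕ Fin 8 →₀ ℕ) v := by
    intro v
    conv_lhs => rw [← h]
    rw [Finsupp.add_apply]
  refine ⟨?_, ?_⟩
  · rw [Finset.sum_congr rfl (fun k _ => h1 (Sum.inr k)), Finset.sum_add_distrib, a1b_single_r]
  · rw [Finset.sum_congr rfl (fun k _ => h1 (Sum.inl k)), Finset.sum_add_distrib]
    simp

theorem a2_sum_support (m : Fin 8 ⊕ Fin 8 →₀ ℕ) :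
    ∑ v ∈ m.support, (m v : ℝ) = ((∑ i, m (Sum.inl i) : ℕ) : ℝ) + ((∑ i, m (Sum.inr i) : ℕ) : ℝ) := by
  classical
  have h1 : ∑ v ∈ m.support, (m v : ℝ) = ∑ v, (m v : ℝ) := by
    apply Finset.sum_subset (Finset.subset_univ _)
    intro v _ hv
    rw [Finsupp.notMem_support_iff] at hv
    rw [hv]; simp
  rw [h1, Fintype.sum_sum_type]
  push_cast
  rfl

theorem a2_gen (f : Fin 8 ⊕ Fin 8 → PR) (hl : ∀ i, Bd 2 0 7 (f (Sum.inl i))) (hr : ∀ j, Bd 2 1 4 (f (Sum.inr j)))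
    {D l : ℕ} {H : ℝ} {p : PR} (h : Bd D l H p) : Bd (D + 2) l (8 * (D + l) * H) (MvPolynomial.mkDerivation ℤ f p) := by
  classical
  have key : ∀ m ∈ p.support, Bd (D + 2) l (|((p.coeff m : ℤ) : ℝ)| * (8 * (D + l)))
      (MvPolynomial.mkDerivation ℤ f (MvPolynomial.monomial m (p.coeff m))) := by
    intro m hm
    rw [MvPolynomial.mkDerivation_monomial, ← MvPolynomial.C_mul', Finsupp.sum]
    have hdA := h.dA m hm
    have hdB := h.dB m hm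
    have hs : Bd (D + 2) l (∑ v ∈ m.support, 8 * (m v : ℝ))
        (∑ v ∈ m.support, (MvPolynomial.monomial (m - Finsupp.single v 1) ((m v : ℕ) : ℤ)) • f v) := by
      apply Bd.sum
      intro v hv
      rw [Finsupp.mem_support_iff] at hv
      rw [smul_eq_mul]
      have hcast : |(((m v : ℕ) : ℤ) : ℝ)| = (m v : ℝ) := by
        push_cast
        exact abs_of_nonneg (Nat.cast_nonneg _)
      rcases v with i | j
      · obtain ⟨h1, h2⟩ := a2_sub_l m i hv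
        have h3 := (a2_bd_monomial (D := D - 1) (l := l) (m - Finsupp.single (Sum.inl i) 1)
          ((m (Sum.inl i) : ℕ) : ℤ) (by omega) (by omega)).mul (hl i)
        rw [hcast] at h3
        refine h3.mono (by omega) (by omega) ?_
        have : (0 : ℝ) ≤ m (Sum.inl i) := Nat.cast_nonneg _
        linarith
      · obtain ⟨h1, h2⟩ := a2_sub_r m j hv
        have h3 := (a2_bd_monomial (D := D) (l := l - 1) (m - Finsupp.single (Sum.inr j) 1)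
          ((m (Sum.inr j) : ℕ) : ℤ) (by omega) (by omega)).mul (hr j)
        rw [hcast] at h3
        refine h3.mono (by omega) (by omega) ?_
        have : (0 : ℝ) ≤ m (Sum.inr j) := Nat.cast_nonneg _
        linarith
    have h4 := (Bd.const (r := 8) (s := 8) (p.coeff m)).mul hs
    refine h4.mono (by omega) (by omega) ?_
    apply mul_le_mul_of_nonneg_left _ (abs_nonneg _)
    rw [← Finset.mul_sum, a2_sum_support]
    have h5 : ((∑ i, m (Sum.inl i) : ℕ) : ℝ) ≤ D := by exact_mod_cast hdA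
    have h6 : ((∑ i, m (Sum.inr i) : ℕ) : ℝ) ≤ l := by exact_mod_cast hdB
    linarith
  have hsum := Bd.sum p.support _ _ key
  rw [← map_sum, ← p.as_sum] at hsum
  refine hsum.mono le_rfl le_rfl ?_
  rw [← Finset.sum_mul]
  have h7 : ∑ m ∈ p.support, |((p.coeff m : ℤ) : ℝ)| ≤ H := h.h
  have h8 : (0 : ℝ) ≤ 8 * (D + l) := by positivity
  calc _ ≤ H * (8 * (D + l)) := mul_le_mul_of_nonneg_right h7 h8
    _ = _ := by ring

theorem a2_X (i : Fin 8) : Bd 1 0 1 (vX i) := Bd.varA i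
theorem a2_Y (j : Fin 8) : Bd 0 1 1 (vY j) := Bd.varB j

theorem a2_neg {D l : ℕ} {H : ℝ} {p : PR} (h : Bd D l H p) : Bd D l H (-p) := by
  have := (Bd.const (r := 8) (s := 8) (-1)).mul h
  have e : MvPolynomial.C (-1 : ℤ) * p = -p := by
    rw [map_neg, map_one, neg_one_mul]
  rw [e] at this
  refine this.mono (by omega) (by omega) ?_
  simp

theorem a2_q (i j : Fin 8) : Bd 2 0 7 (6 * vX i ^ 2 - vX j) := by
  have h1 := (Bd.const (r := 8) (s := 8) 6).mul ((a2_X i).pow 2)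
  have h2 := (a2_neg (a2_X j)).mono (D' := 2) (l' := 0) (H' := 1) (by omega) le_rfl le_rfl
  have h3 := (h1.mono (D' := 2) (l' := 0) (H' := 6) (by omega) (by omega) (by norm_num)).add h2
  have e : MvPolynomial.C (6 : ℤ) * vX i ^ 2 + -vX j = 6 * vX i ^ 2 - vX j := by
    rw [show (MvPolynomial.C (6 : ℤ) : PR) = 6 from map_ofNat _ 6]
    ring
  rw [e] at h3
  exact h3.mono le_rfl le_rfl (by norm_num)

theorem a2_r (i j k : Fin 8) : Bd 1 1 2 (vY i * vX j + vY k) := by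
  have h1 := (a2_Y i).mul (a2_X j)
  have h2 := (a2_Y k).mono (D' := 1) (l' := 1) (H' := 1) (by omega) le_rfl le_rfl
  have h3 := (h1.mono (D' := 1) (l' := 1) (H' := 1) (by omega) (by omega) (by norm_num)).add h2
  exact h3.mono le_rfl le_rfl (by norm_num)

theorem a2_s (a i j k : Fin 8) : Bd 2 1 2 (vX a * (vY i * vX j + vY k)) :=
  ((a2_X a).mul (a2_r i j k)).mono (by omega) (by omega) (by norm_num)

theorem a2_f1l (i : Fin 8) : Bd 2 0 7 ((![vX 1, 6 * vX 0 ^ 2 - vX 4, 0, 0, 0, 0, 0, 0] : Fin 8 → PR) i) := by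
  have z : Bd 2 0 7 (0 : PR) := Bd.zero _ _ _ (by norm_num)
  fin_cases i
  · exact (a2_X 1).mono (by omega) le_rfl (by norm_num)
  · exact a2_q 0 4
  all_goals exact z

theorem a2_f1r (j : Fin 8) : Bd 2 1 4 ((![0, 0, 0, 0, 0, vY 0 * vX 0 + vY 1, 0,
    -vY 4 + vX 6 * (vY 0 * vX 0 + vY 1)] : Fin 8 → PR) j) := by
  have z : Bd 2 1 4 (0 : PR) := Bd.zero _ _ _ (by norm_num)
  fin_cases j
  · exact z
  · exact z
  · exact z
  · exact z
  · exact z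
  · exact (a2_r 0 0 1).mono (by omega) le_rfl (by norm_num)
  · exact z
  · exact (((a2_neg (a2_Y 4)).mono (D' := 2) (l' := 1) (H' := 1) (by omega) le_rfl le_rfl).add (a2_s 6 0 0 1)).mono
      le_rfl le_rfl (by norm_num)

theorem a2_f2l (i : Fin 8) : Bd 2 0 7 ((![0, 0, vX 3, 6 * vX 2 ^ 2 - vX 5, 0, 0, 0, 0] : Fin 8 → PR) i) := by
  have z : Bd 2 0 7 (0 : PR) := Bd.zero _ _ _ (by norm_num)
  fin_cases i
  · exact z
  · exact z
  · exact (a2_X 3).mono (by omega) le_rfl (by norm_num)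
  · exact a2_q 2 5
  all_goals exact z

theorem a2_f2r (j : Fin 8) : Bd 2 1 4 ((![0, 0, 0, 0, 0, 0, vY 2 * vX 2 + vY 3,
    1 - vX 7 * (vY 2 * vX 2 + vY 3)] : Fin 8 → PR) j) := by
  have z : Bd 2 1 4 (0 : PR) := Bd.zero _ _ _ (by norm_num)
  fin_cases j
  · exact z
  · exact z
  · exact z
  · exact z
  · exact z
  · exact z
  · exact (a2_r 2 2 3).mono (by omega) le_rfl (by norm_num)
  · have h1 : Bd 2 1 1 (1 : PR) := by
      have := (Bd.const (r := 8) (s := 8) 1).mono (D' := 2) (l' := 1) (H' := 1) (by omega) (by omega) (by norm_num)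
      rwa [MvPolynomial.C_1] at this
    have h2 := (h1.add (a2_neg (a2_s 7 2 2 3))).mono (H' := 4) le_rfl le_rfl (by norm_num)
    rw [← sub_eq_add_neg] at h2
    exact h2

/-- A2a. PROOF. `δ p = ∑_m coeff m · ∑_{v ∈ m} m_v · (X^m/X_v) · δ(v)` (`MvPolynomial.mkDerivation_monomial`). For `v = inl _`: `δ(v)` is `Bd 2 0 7`,
`X^m/X_v` has `inl`-degree one less than `m`; for `v = inr _`: `δ(v)` is `Bd 2 1 4` and `X^m/X_v` has `inr`-degree one less. `∑_v m_v ≤ D + l`. -/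
theorem Bd.der₁ {D l : ℕ} {H : ℝ} {p : PR} (h : Bd D l H p) : Bd (D + 2) l (8 * (D + l) * H) (der₁ p) := by
  refine a2_gen _ (fun i => ?_) (fun j => ?_) h
  · exact a2_f1l i
  · exact a2_f1r j

theorem Bd.der₂ {D l : ℕ} {H : ℝ} {p : PR} (h : Bd D l H p) : Bd (D + 2) l (8 * (D + l) * H) (der₂ p) := by
  refine a2_gen _ (fun i => ?_) (fun j => ?_) h
  · exact a2_f2l i
  · exact a2_f2r j

theorem a2_iter (δ : PR → PR) (hδ : ∀ {D l : ℕ} {H : ℝ} {p : PR}, Bd D l H p → Bd (D + 2) l (8 * (D + l) * H) (δ p))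
    {D l : ℕ} {H : ℝ} {p : PR} (h : Bd D l H p) (r : ℕ) (N : ℝ) (hN : (D : ℝ) + 2 * r + l ≤ N) :
    Bd (D + 2 * r) l ((8 * N) ^ r * H) (δ^[r] p) := by
  induction r with
  | zero => simpa using h
  | succ r ih =>
    rw [Function.iterate_succ_apply']
    have h1 := ih (by push_cast at hN; linarith)
    have h2 := hδ h1
    refine h2.mono (by omega) le_rfl ?_
    have h3 : 0 ≤ (8 * N) ^ r * H := (mlen_nonneg _).trans h1.h
    have h4 : (8 : ℝ) * (((D + 2 * r : ℕ) : ℝ) + l) ≤ 8 * N := by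
      push_cast at hN ⊢
      linarith
    calc _ ≤ 8 * N * ((8 * N) ^ r * H) := mul_le_mul_of_nonneg_right h4 h3
      _ = _ := by ring

/-- A2b. induction from A2a. -/
theorem Bd.iter {D l : ℕ} {H : ℝ} {p : PR} (h : Bd D l H p) (r s T : ℕ) (hT : r + s ≤ T) :
    Bd (D + 2 * T) l ((8 * ((D : ℝ) + 2 * T + l)) ^ (r + s) * H) (MSP.der₁^[r] (MSP.der₂^[s] p)) := by
  have hT' : (r : ℝ) + s ≤ T := by exact_mod_cast hT
  have h1 := a2_iter (MSP.der₂) (fun h => Bd.der₂ h) h s ((D : ℝ) + 2 * T + l) (by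
    have : (0 : ℝ) ≤ r := Nat.cast_nonneg _
    linarith)
  have h2 := a2_iter (MSP.der₁) (fun h => Bd.der₁ h) h1 r ((D : ℝ) + 2 * T + l) (by
    push_cast
    linarith)
  refine h2.mono (by omega) le_rfl ?_
  rw [← mul_assoc, ← pow_add]

/-- the polynomial which corresponds to the monomial `ν` -/
def Qp (P : Pr) (ν : ℕ × ℕ × ℕ × ℕ × ℕ) : PR :=
  vX 0 ^ ν.1 * vX 2 ^ ν.2.1 * (vY 7 ^ ν.2.2.1 *
    (MvPolynomial.C P.b₂ * vY 5 - MvPolynomial.C P.b₁ * vY 6) ^ ν.2.2.2.1 *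
    (MvPolynomial.C P.a₁ * vY 5 + MvPolynomial.C P.a₂ * vY 6) ^ ν.2.2.2.2)

/-- A2c. PROOF. closure properties of `Bd`; `|b₂| + |b₁| ≤ A`, `|a₁| + |a₂| ≤ A`, `A ≥ 1`. -/
theorem Bd.Qp (P : Pr) (ν : ℕ × ℕ × ℕ × ℕ × ℕ) (hν : ν ∈ P.box) : Bd (2 * P.L) P.l (P.A ^ P.l) (MSP.Qp P ν) := by
  obtain ⟨a, b, k₁, k₂, k₃⟩ := ν
  have hA1 : (1 : ℝ) ≤ P.A := by
    have h1 := abs_nonneg (P.a₁ : ℝ)
    have h2 := abs_nonneg (P.a₂ : ℝ)
    have h3 := abs_nonneg (P.b₁ : ℝ)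
    have h4 := abs_nonneg (P.b₂ : ℝ)
    unfold Pr.A
    linarith
  simp only [Pr.box, Finset.mem_product, Finset.mem_range] at hν
  obtain ⟨ha, hb, hk₁, hk₂, hk₃⟩ := hν
  have f1 : Bd 0 1 P.A (MvPolynomial.C P.b₂ * vY 5 - MvPolynomial.C P.b₁ * vY 6) := by
    have h1 := ((Bd.const (r := 8) (s := 8) P.b₂).mul (a2_Y 5)).add
      (a2_neg ((Bd.const (r := 8) (s := 8) P.b₁).mul (a2_Y 6)))
    rw [← sub_eq_add_neg] at h1
    refine h1.mono (by omega) (by omega) ?_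
    have h1 := abs_nonneg (P.a₁ : ℝ)
    have h2 := abs_nonneg (P.a₂ : ℝ)
    unfold Pr.A
    linarith
  have f2 : Bd 0 1 P.A (MvPolynomial.C P.a₁ * vY 5 + MvPolynomial.C P.a₂ * vY 6) := by
    have h1 := ((Bd.const (r := 8) (s := 8) P.a₁).mul (a2_Y 5)).add
      ((Bd.const (r := 8) (s := 8) P.a₂).mul (a2_Y 6))
    refine h1.mono (by omega) (by omega) ?_
    have h1 := abs_nonneg (P.b₁ : ℝ)
    have h2 := abs_nonneg (P.b₂ : ℝ)
    unfold Pr.A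
    linarith
  have h1 := (((a2_X 0).pow a).mul ((a2_X 2).pow b)).mul
    ((((a2_Y 7).pow k₁).mul (f1.pow k₂)).mul (f2.pow k₃))
  refine h1.mono (by omega) (by unfold Pr.l; omega) ?_
  rw [one_pow, one_pow, one_pow, one_mul, one_mul, one_mul, ← pow_add]
  exact pow_le_pow_right₀ hA1 (by unfold Pr.l; omega)

end Pool.Agent.MSP
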