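import Pool.Agent.Lib.MP_f58a57_nt.P.A1_Len

/-! # A4: a basis adapted to algebraic numbers (MP_f58a57_nt, pairs) -/

open Complex Filter Topology IntermediateField

noncomputable section

namespace Pool.Agent.MSP

open scoped algebraAdjoinAdjoin in
/-- linear independence over `ℚ` of algebraic numbers implies linear independence over `ℚ(ϑ)` -/
theorem a4_indep (ϑ : ℂ) (hϑ : Transcendental ℚ ϑ) (E : IntermediateField ℚ ℂ)
    (hE : Algebra.IsAlgebraic ℚ E) {m : ℕ} (e : Fin m → E) (he : LinearIndependent ℚ e) :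
    LinearIndependent ℚ⟮ϑ⟯ (fun i => ((e i : E) : ℂ)) := by
  have hE' : Transcendental E ϑ := fun h => hϑ (h.restrictScalars ℚ)
  rw [← LinearIndependent.iff_fractionRing (Algebra.adjoin ℚ {ϑ}) ℚ⟮ϑ⟯,
    Fintype.linearIndependent_iff]
  intro c hc
  have hR : ∀ i, ∃ R : Polynomial ℚ, Polynomial.aeval ϑ R = (c i : ℂ) := by
    intro i
    have h1 : (c i : ℂ) ∈ (Polynomial.aeval (R := ℚ) ϑ).range := by
      rw [← Algebra.adjoin_singleton_eq_range_aeval]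
      exact (c i).2
    exact h1
  choose R hR using hR
  obtain ⟨G, hGd⟩ : ∃ G : Polynomial E, G = ∑ i, Polynomial.C (e i) * (R i).map (algebraMap ℚ E) :=
    ⟨_, rfl⟩
  have hG : Polynomial.aeval ϑ G = 0 := by
    rw [hGd, map_sum, ← hc]
    refine Finset.sum_congr rfl fun i _ => ?_
    rw [map_mul, Polynomial.aeval_C, Polynomial.aeval_map_algebraMap, hR, mul_comm]
    rfl
  have hG0 : G = 0 := by
    by_contra h
    exact hE' ⟨G, h, hG⟩
  have hR0 : ∀ i, R i = 0 := by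
    intro i
    ext k
    have h1 : G.coeff k = 0 := by rw [hG0, Polynomial.coeff_zero]
    rw [hGd, Polynomial.finsetSum_coeff] at h1
    have h2 : ∑ i, ((R i).coeff k) • e i = 0 := by
      rw [← h1]
      refine Finset.sum_congr rfl fun i _ => ?_
      rw [Polynomial.coeff_C_mul, Polynomial.coeff_map, Algebra.smul_def, mul_comm]
    rw [Polynomial.coeff_zero]
    exact (Fintype.linearIndependent_iff.1 he) _ h2 i
  intro i
  apply Subtype.ext
  rw [← hR i, hR0 i, map_zero]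
  rfl

/-- A4a. PROOF. Let `E = ℚ(x₁, ..., x_r)` (finite over `ℚ`) with `ℚ`-basis `e₁, ..., e_m`. The `e_i` are linearly independent over `ℚ(ϑ)`: clear
denominators in `∑ c_i e_i = 0`, `c_i ∈ ℚ(ϑ)`, so w.l.o.g. `c_i ∈ ℚ[ϑ]`; then `∑_k (∑_i c_{ik} e_i) ϑ^k = 0` is a polynomial relation for `ϑ` over `E`, and
`ϑ` is transcendental over `E` (`E/ℚ` algebraic), so `∑_i c_{ik} e_i = 0` and `c_{ik} = 0` for all `k`. They span `E' = ℚ(ϑ)(x₁, ..., x_r)` over `ℚ(ϑ)` (the span is a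
ring containing `ℚ(ϑ)` and the `x_i`, finite-dimensional over `ℚ(ϑ)`, so a field). Let `𝕃 = ℚ(ϑ)(x, y)`, finite over `E'`, with `E'`-basis `η_j`;
`b = (e_i η_j)` (`Module.Basis.smulTower`, reindexed by `Fin d`). `x_i e_k = ∑ q_l e_l` with `q_l ∈ ℚ`. -/
theorem exists_basis {r s : ℕ} (ϑ : ℂ) (hϑ : Transcendental ℚ ϑ) (x : Fin r → ℂ) (y : Fin s → ℂ)
    (hx : ∀ i, IsAlgebraic ℚ (x i)) (hy : ∀ j, IsAlgebraic ℚ⟮ϑ⟯ (y j)) :
    ∃ (𝕃 : IntermediateField ℚ⟮ϑ⟯ ℂ) (d : ℕ) (b : Module.Basis (Fin d) ℚ⟮ϑ⟯ 𝕃), (∀ i, x i ∈ 𝕃) ∧ (∀ j, y j ∈ 𝕃) ∧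
      ∀ (i : Fin r) (k : Fin d), ∃ q : Fin d → ℚ, x i * ((b k : 𝕃) : ℂ) = ∑ l, (q l : ℂ) * ((b l : 𝕃) : ℂ) := by
  classical
  have hxint : ∀ z ∈ Set.range x, IsIntegral ℚ z := by
    rintro z ⟨i, rfl⟩
    exact (hx i).isIntegral
  have hfinE : FiniteDimensional ℚ (adjoin ℚ (Set.range x)) := finiteDimensional_adjoin hxint
  obtain ⟨E, hE⟩ : ∃ E : IntermediateField ℚ ℂ, E = adjoin ℚ (Set.range x) := ⟨_, rfl⟩
  rw [← hE] at hfinE
  have hEalg : Algebra.IsAlgebraic ℚ E := Algebra.IsAlgebraic.of_finite ℚ E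
  have hxE : ∀ i, x i ∈ E := fun i => by rw [hE]; exact subset_adjoin ℚ _ ⟨i, rfl⟩
  obtain ⟨m, e⟩ : ∃ m : ℕ, Nonempty (Module.Basis (Fin m) ℚ E) := ⟨_, ⟨Module.finBasis ℚ E⟩⟩
  obtain ⟨e⟩ := e
  have hli := a4_indep ϑ hϑ E hEalg e e.linearIndependent
  -- the compositum
  obtain ⟨E', hE'⟩ : ∃ E' : IntermediateField ℚ⟮ϑ⟯ ℂ, E' = adjoin ℚ⟮ϑ⟯ (Set.range x) := ⟨_, rfl⟩
  have hEE' : ∀ z ∈ E, z ∈ E' := by
    have h1 : E ≤ E'.restrictScalars ℚ := by
      rw [hE, adjoin_le_iff]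
      rintro z ⟨i, rfl⟩
      show x i ∈ E'
      rw [hE']
      exact subset_adjoin _ _ ⟨i, rfl⟩
    exact fun z hz => h1 hz
  have hspan : ∀ z ∈ E', z ∈ Submodule.span ℚ⟮ϑ⟯ (Set.range fun i => ((e i : E) : ℂ)) := by
    have hEs : ∀ z ∈ E, z ∈ Submodule.span ℚ⟮ϑ⟯ (Set.range fun i => ((e i : E) : ℂ)) := by
      intro z hz
      have h1 := e.sum_repr ⟨z, hz⟩
      have h2 := congrArg (fun w : E => (w : ℂ)) h1
      simp only at h2
      rw [← h2]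
      push_cast
      refine Submodule.sum_mem _ fun i _ => ?_
      have h4 := Submodule.smul_mem (Submodule.span ℚ⟮ϑ⟯ (Set.range fun i => ((e i : E) : ℂ)))
        (algebraMap ℚ ℚ⟮ϑ⟯ (e.repr ⟨z, hz⟩ i)) (Submodule.subset_span ⟨i, rfl⟩)
      rw [algebraMap_smul] at h4
      exact h4
    intro z hz
    have h1 : z ∈ Algebra.adjoin ℚ⟮ϑ⟯ (Set.range x) := by
      have h2 : (adjoin ℚ⟮ϑ⟯ (Set.range x)).toSubalgebra = Algebra.adjoin ℚ⟮ϑ⟯ (Set.range x) :=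
        adjoin_toSubalgebra_of_isAlgebraic fun w hw => by
          obtain ⟨i, rfl⟩ := hw
          exact (hx i).tower_top _
      rw [← h2, ← hE']
      exact hz
    refine Algebra.adjoin_induction ?_ ?_ ?_ ?_ h1
    · rintro w ⟨i, rfl⟩
      exact hEs _ (hxE i)
    · intro c
      rw [Algebra.algebraMap_eq_smul_one]
      exact Submodule.smul_mem _ _ (hEs 1 E.one_mem)
    · intro a b _ _ ha hb
      exact Submodule.add_mem _ ha hb
    · intro a b _ _ ha hb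
      have h2 := Submodule.mul_mem_mul ha hb
      rw [Submodule.span_mul_span] at h2
      refine Submodule.span_le.2 ?_ h2
      rintro _ ⟨_, ⟨i, rfl⟩, _, ⟨j, rfl⟩, rfl⟩
      exact hEs _ (E.mul_mem (e i).2 (e j).2)
  -- basis of the compositum
  have heE' : ∀ i, ((e i : E) : ℂ) ∈ E' := fun i => hEE' _ (e i).2
  obtain ⟨e', he'⟩ : ∃ e' : Fin m → E', ∀ i, ((e' i : E') : ℂ) = ((e i : E) : ℂ) :=
    ⟨fun i => ⟨_, heE' i⟩, fun _ => rfl⟩
  have hrange : (Set.range fun i => ((e' i : E') : ℂ)) = Set.range fun i => ((e i : E) : ℂ) := by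
    congr 1
    funext i
    exact he' i
  have hli' : LinearIndependent ℚ⟮ϑ⟯ e' := by
    refine LinearIndependent.of_comp E'.val.toLinearMap ?_
    have h1 : (E'.val.toLinearMap ∘ e') = fun i => ((e i : E) : ℂ) := by
      funext i
      exact he' i
    rw [h1]
    exact hli
  have hsp' : ⊤ ≤ Submodule.span ℚ⟮ϑ⟯ (Set.range e') := by
    intro z _
    have h1 := hspan z z.2
    have h2 : (Submodule.span ℚ⟮ϑ⟯ (Set.range e')).map E'.val.toLinearMap =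
        Submodule.span ℚ⟮ϑ⟯ (Set.range fun i => ((e i : E) : ℂ)) := by
      rw [Submodule.map_span, ← Set.range_comp, ← hrange]
      rfl
    rw [← h2] at h1
    obtain ⟨w, hw, hwz⟩ := h1
    have h3 : w = z := Subtype.ext hwz
    rwa [← h3]
  obtain ⟨be, hbe⟩ : ∃ be : Module.Basis (Fin m) ℚ⟮ϑ⟯ E', ∀ i, be i = e' i :=
    ⟨Module.Basis.mk hli' hsp', fun i => Module.Basis.mk_apply _ _ i⟩
  -- the field
  obtain ⟨L', hL'⟩ : ∃ L' : IntermediateField E' ℂ, L' = adjoin E' (Set.range y) := ⟨_, rfl⟩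
  have hfinL : FiniteDimensional E' L' := by
    rw [hL']
    refine finiteDimensional_adjoin ?_
    rintro z ⟨j, rfl⟩
    exact (hy j).isIntegral.tower_top
  have hfree : Module.Free E' L' := Module.Free.of_divisionRing E' L'
  obtain ⟨t, η⟩ : ∃ t : ℕ, Nonempty (Module.Basis (Fin t) E' L') := ⟨_, ⟨Module.finBasis E' L'⟩⟩
  obtain ⟨η⟩ := η
  obtain ⟨𝕃, h𝕃⟩ : ∃ 𝕃 : IntermediateField ℚ⟮ϑ⟯ ℂ, 𝕃 = L'.restrictScalars ℚ⟮ϑ⟯ := ⟨_, rfl⟩
  have hmem : ∀ z : ℂ, z ∈ 𝕃 ↔ z ∈ L' := by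
    intro z
    rw [h𝕃]
    rfl
  let φ : L' ≃ₗ[ℚ⟮ϑ⟯] 𝕃 :=
    { toFun := fun z => ⟨z, (hmem _).2 z.2⟩
      invFun := fun z => ⟨z, (hmem _).1 z.2⟩
      left_inv := fun z => rfl
      right_inv := fun z => rfl
      map_add' := fun z w => rfl
      map_smul' := fun c z => rfl }
  have hφ : ∀ z : L', ((φ z : 𝕃) : ℂ) = (z : ℂ) := fun z => rfl
  obtain ⟨b, hb⟩ : ∃ b : Module.Basis (Fin (m * t)) ℚ⟮ϑ⟯ 𝕃, ∀ k, ((b k : 𝕃) : ℂ) =
      ((e (finProdFinEquiv.symm k).1 : E) : ℂ) * ((η (finProdFinEquiv.symm k).2 : L') : ℂ) := by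
    refine ⟨((be.smulTower η).reindex finProdFinEquiv).map φ, fun k => ?_⟩
    rw [Module.Basis.map_apply, hφ, Module.Basis.reindex_apply, Module.Basis.smulTower_apply, hbe,
      ← he']
    rfl
  refine ⟨𝕃, m * t, b, ?_, ?_, ?_⟩
  · intro i
    rw [hmem]
    exact L'.algebraMap_mem ⟨x i, hEE' _ (hxE i)⟩
  · intro j
    rw [hmem, hL']
    exact subset_adjoin _ _ ⟨j, rfl⟩
  · intro i k
    obtain ⟨p, hp⟩ : ∃ p : Fin m → ℚ, x i * ((e (finProdFinEquiv.symm k).1 : E) : ℂ) =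
        ∑ l, (p l : ℂ) * ((e l : E) : ℂ) := by
      have h1 := e.sum_repr (⟨x i, hxE i⟩ * e (finProdFinEquiv.symm k).1)
      have h2 := congrArg (fun w : E => (w : ℂ)) h1
      refine ⟨fun l => e.repr (⟨x i, hxE i⟩ * e (finProdFinEquiv.symm k).1) l, ?_⟩
      have h3 : ((⟨x i, hxE i⟩ * e (finProdFinEquiv.symm k).1 : E) : ℂ) =
          x i * ((e (finProdFinEquiv.symm k).1 : E) : ℂ) := rfl
      rw [← h3, ← h2]
      push_cast
      refine Finset.sum_congr rfl fun l _ => ?_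
      rw [Rat.smul_def]
    refine ⟨fun l => if (finProdFinEquiv.symm l).2 = (finProdFinEquiv.symm k).2 then
      p (finProdFinEquiv.symm l).1 else 0, ?_⟩
    rw [hb, ← mul_assoc, hp, Finset.sum_mul]
    rw [← finProdFinEquiv.sum_comp, Fintype.sum_prod_type]
    refine Finset.sum_congr rfl fun l _ => ?_
    simp only [hb, Equiv.symm_apply_apply]
    rw [Finset.sum_eq_single (finProdFinEquiv.symm k).2]
    · rw [if_pos rfl, mul_assoc]
    · intro j _ hj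
      rw [if_neg hj, Rat.cast_zero, zero_mul]
    · intro h
      exact absurd (Finset.mem_univ _) h

end Pool.Agent.MSP
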