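import Pool.Agent.Lib.MP_f58a57_nt.P.A4b_Rep

/-! # A4c: integer polynomial matrices for the values of polynomials (MP_f58a57_nt, pairs) -/

open Complex Filter Topology IntermediateField Polynomial

noncomputable section

namespace Pool.Agent.MSP

structure Dict (ϑ : ℂ) {r s : ℕ} (x : Fin r → ℂ) (y : Fin s → ℂ) where
  d : ℕ
  e : ℕ
  C : ℝ
  v : Fin d → ℂ
  sc : ℕ → ℕ → ℂ
  mat : ℕ → ℕ → MvPolynomial (Fin r ⊕ Fin s) ℤ → Matrix (Fin d) (Fin d) (Polynomial ℤ)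
  d_pos : 0 < d
  one_le : 1 ≤ C
  v_ne : v ≠ 0
  sc_ne : ∀ D l, sc D l ≠ 0
  sc_le : ∀ D l, ‖sc D l‖ ≤ C ^ (D + l)
  deg : ∀ (D l : ℕ) (H : ℝ) (p : MvPolynomial (Fin r ⊕ Fin s) ℤ), Bd D l H p → ∀ i j, (mat D l p i j).natDegree ≤ e * l
  len_le : ∀ (D l : ℕ) (H : ℝ) (p : MvPolynomial (Fin r ⊕ Fin s) ℤ), Bd D l H p → ∀ i j, len (mat D l p i j) ≤ C ^ (D + l) * H
  eig : ∀ (D l : ℕ) (H : ℝ) (p : MvPolynomial (Fin r ⊕ Fin s) ℤ), Bd D l H p →
    Matrix.vecMul v ((mat D l p).map (fun f => aeval ϑ f)) = (sc D l * MvPolynomial.aeval (Sum.elim x y) p) • v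
  det_ne : ∀ (D l : ℕ) (H : ℝ) (ι : Type) [Fintype ι] (p : ι → Polynomial ℤ) (Ξ : ι → MvPolynomial (Fin r ⊕ Fin s) ℤ),
    (∀ ν, Bd D l H (Ξ ν)) → ∑ ν, aeval ϑ (p ν) * MvPolynomial.aeval (Sum.elim x y) (Ξ ν) ≠ 0 →
    (∑ ν, p ν • mat D l (Ξ ν)).det ≠ 0

/-! ## bounds for matrices -/

/-- all row sums of lengths are at most `B` -/
def a4c_RS {d : ℕ} (M : Matrix (Fin d) (Fin d) (Polynomial ℤ)) (B : ℝ) : Prop :=
  ∀ i, ∑ j, len (M i j) ≤ B

/-- all degrees are at most `k` -/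
def a4c_DL {d : ℕ} (M : Matrix (Fin d) (Fin d) (Polynomial ℤ)) (k : ℕ) : Prop :=
  ∀ i j, (M i j).natDegree ≤ k

theorem a4c_len_one : len 1 = 1 := by
  have h := len_C 1
  simpa using h

theorem a4c_RS_one {d : ℕ} : a4c_RS (1 : Matrix (Fin d) (Fin d) (Polynomial ℤ)) 1 := by
  intro i
  rw [Finset.sum_eq_single i]
  · rw [Matrix.one_apply_eq, a4c_len_one]
  · intro j _ hj
    rw [Matrix.one_apply_ne (Ne.symm hj), len_zero]
  · intro h; exact absurd (Finset.mem_univ i) h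

theorem a4c_RS_mul {d : ℕ} {M N : Matrix (Fin d) (Fin d) (Polynomial ℤ)} {B B' : ℝ} (hB' : 0 ≤ B')
    (hM : a4c_RS M B) (hN : a4c_RS N B') : a4c_RS (M * N) (B * B') := by
  intro i
  calc ∑ j, len ((M * N) i j) ≤ ∑ j, ∑ k, len (M i k) * len (N k j) := by
        refine Finset.sum_le_sum fun j _ => ?_
        rw [Matrix.mul_apply]
        exact (len_sum _ _).trans (Finset.sum_le_sum fun k _ => len_mul _ _)
    _ = ∑ k, len (M i k) * ∑ j, len (N k j) := by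
        rw [Finset.sum_comm]
        exact Finset.sum_congr rfl fun k _ => (Finset.mul_sum _ _ _).symm
    _ ≤ ∑ k, len (M i k) * B' :=
        Finset.sum_le_sum fun k _ => mul_le_mul_of_nonneg_left (hN k) (len_nonneg _)
    _ = (∑ k, len (M i k)) * B' := (Finset.sum_mul _ _ _).symm
    _ ≤ B * B' := mul_le_mul_of_nonneg_right (hM i) hB'

theorem a4c_RS_pow {d : ℕ} {M : Matrix (Fin d) (Fin d) (Polynomial ℤ)} {B : ℝ} (hB : 0 ≤ B)
    (hM : a4c_RS M B) (k : ℕ) : a4c_RS (M ^ k) (B ^ k) := by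
  induction k with
  | zero => rw [pow_zero, pow_zero]; exact a4c_RS_one
  | succ k ih => rw [pow_succ, pow_succ]; exact a4c_RS_mul hB ih hM

theorem a4c_RS_prod {d : ℕ} {B : ℝ} (hB : 0 ≤ B) : ∀ {n : ℕ}
    (F : Fin n → Matrix (Fin d) (Fin d) (Polynomial ℤ)) (k : Fin n → ℕ), (∀ i, a4c_RS (F i) B) →
    a4c_RS (List.ofFn (fun i => F i ^ k i)).prod (B ^ ∑ i, k i)
  | 0, F, k, _ => by
    simpa using a4c_RS_one
  | n + 1, F, k, hF => by
    rw [List.ofFn_succ, List.prod_cons, Fin.sum_univ_succ, pow_add]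
    exact a4c_RS_mul (pow_nonneg hB _) (a4c_RS_pow hB (hF 0) _)
      (a4c_RS_prod hB (fun i => F i.succ) (fun i => k i.succ) (fun i => hF i.succ))

theorem a4c_DL_one {d : ℕ} : a4c_DL (1 : Matrix (Fin d) (Fin d) (Polynomial ℤ)) 0 := by
  intro i j
  by_cases h : i = j
  · rw [h, Matrix.one_apply_eq, Polynomial.natDegree_one]
  · rw [Matrix.one_apply_ne h, Polynomial.natDegree_zero]

theorem a4c_DL_mul {d : ℕ} {M N : Matrix (Fin d) (Fin d) (Polynomial ℤ)} {k k' : ℕ}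
    (hM : a4c_DL M k) (hN : a4c_DL N k') : a4c_DL (M * N) (k + k') := by
  intro i j
  rw [Matrix.mul_apply]
  refine Polynomial.natDegree_sum_le_of_forall_le _ _ fun t _ => ?_
  exact Polynomial.natDegree_mul_le.trans (add_le_add (hM i t) (hN t j))

theorem a4c_DL_pow {d : ℕ} {M : Matrix (Fin d) (Fin d) (Polynomial ℤ)} {e : ℕ}
    (hM : a4c_DL M e) (k : ℕ) : a4c_DL (M ^ k) (e * k) := by
  induction k with
  | zero => rw [pow_zero, mul_zero]; exact a4c_DL_one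
  | succ k ih => rw [pow_succ, mul_add, mul_one]; exact a4c_DL_mul ih hM

theorem a4c_DL_prod {d : ℕ} {e : ℕ} : ∀ {n : ℕ}
    (F : Fin n → Matrix (Fin d) (Fin d) (Polynomial ℤ)) (k : Fin n → ℕ), (∀ i, a4c_DL (F i) e) →
    a4c_DL (List.ofFn (fun i => F i ^ k i)).prod (e * ∑ i, k i)
  | 0, F, k, _ => by
    simpa using a4c_DL_one
  | n + 1, F, k, hF => by
    rw [List.ofFn_succ, List.prod_cons, Fin.sum_univ_succ, mul_add]
    exact a4c_DL_mul (a4c_DL_pow (hF 0) _)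
      (a4c_DL_prod (fun i => F i.succ) (fun i => k i.succ) (fun i => hF i.succ))

theorem a4c_map_prod {A S : Type*} [Ring A] [Ring S] {𝕃 : Type*} [Field 𝕃] (E : A →+* S)
    (R : 𝕃 →+* S) : ∀ {n : ℕ} (F : Fin n → A) (ξ : Fin n → 𝕃) (k : Fin n → ℕ),
    (∀ i, E (F i) = R (ξ i)) →
    E (List.ofFn (fun i => F i ^ k i)).prod = R (∏ i, ξ i ^ k i)
  | 0, F, ξ, k, _ => by simp
  | n + 1, F, ξ, k, h => by
    rw [List.ofFn_succ, List.prod_cons, Fin.prod_univ_succ, map_mul, map_mul, map_pow, map_pow,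
      h 0, a4c_map_prod E R (fun i => F i.succ) (fun i => ξ i.succ) (fun i => k i.succ)
        (fun i => h i.succ)]

/-! ## the matrices -/

namespace Rep

variable {ϑ : ℂ} {r s : ℕ} {x : Fin r → ℂ} {y : Fin s → ℂ} (ρ : Rep ϑ x y)

/-- degree in the algebraic numbers -/
def a4c_wA (m : (Fin r ⊕ Fin s) →₀ ℕ) : ℕ := ∑ i, m (Sum.inl i)

/-- degree in the functions -/
def a4c_wB (m : (Fin r ⊕ Fin s) →₀ ℕ) : ℕ := ∑ j, m (Sum.inr j)

def a4c_W (m : (Fin r ⊕ Fin s) →₀ ℕ) : Matrix (Fin ρ.d) (Fin ρ.d) (Polynomial ℤ) :=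
  (List.ofFn (fun i => ((ρ.MA i).map Polynomial.C) ^ m (Sum.inl i))).prod *
    (List.ofFn (fun j => (ρ.MB j) ^ m (Sum.inr j))).prod

def a4c_co (D l : ℕ) (p : MvPolynomial (Fin r ⊕ Fin s) ℤ) (m : (Fin r ⊕ Fin s) →₀ ℕ) :
    Polynomial ℤ :=
  Polynomial.C (p.coeff m) * (Polynomial.C ρ.den ^ (D - a4c_wA m) * ρ.h ^ (l - a4c_wB m))

def a4c_mat (D l : ℕ) (p : MvPolynomial (Fin r ⊕ Fin s) ℤ) :
    Matrix (Fin ρ.d) (Fin ρ.d) (Polynomial ℤ) :=
  ∑ m ∈ p.support, ρ.a4c_co D l p m • ρ.a4c_W m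

/-- evaluation at `ϑ` -/
def a4c_E : Matrix (Fin ρ.d) (Fin ρ.d) (Polynomial ℤ) →+* Matrix (Fin ρ.d) (Fin ρ.d) ℂ :=
  (Polynomial.aeval ϑ : Polynomial ℤ →ₐ[ℤ] ℂ).toRingHom.mapMatrix

theorem a4c_E_apply (M : Matrix (Fin ρ.d) (Fin ρ.d) (Polynomial ℤ)) :
    ρ.a4c_E M = M.map (fun f => aeval ϑ f) := rfl

theorem a4c_E_smul (f : Polynomial ℤ) (M : Matrix (Fin ρ.d) (Fin ρ.d) (Polynomial ℤ)) :
    ρ.a4c_E (f • M) = (aeval ϑ f : ℂ) • ρ.a4c_E M := by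
  ext i j
  simp [a4c_E_apply, Matrix.map_apply, Matrix.smul_apply]

/-- a polynomial in `ϑ` acts through the representation -/
theorem a4c_R_aeval (f : Polynomial ℤ) :
    ρ.R (aeval ρ.Θ f) = (aeval ϑ f : ℂ) • (1 : Matrix (Fin ρ.d) (Fin ρ.d) ℂ) := by
  have h1 : ρ.R (aeval ρ.Θ f) = f.eval₂ (Int.castRingHom _) (ρ.R ρ.Θ) := by
    rw [Polynomial.aeval_def, Polynomial.hom_eval₂]
    congr 1
    exact RingHom.ext_int _ _
  rw [h1, ρ.R_Θ]
  have h2 : ∀ k : ℕ, (ϑ • (1 : Matrix (Fin ρ.d) (Fin ρ.d) ℂ)) ^ k = (ϑ ^ k) • 1 := by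
    intro k
    rw [_root_.smul_pow, one_pow]
  rw [Polynomial.eval₂_eq_sum, Polynomial.aeval_def, Polynomial.eval₂_eq_sum, Polynomial.sum,
    Polynomial.sum, Finset.sum_smul]
  refine Finset.sum_congr rfl fun k _ => ?_
  rw [h2]
  simp only [eq_intCast, algebraMap_int_eq]
  rw [mul_smul, ← zsmul_eq_mul, Int.cast_smul_eq_zsmul]

theorem a4c_R_smul (f : Polynomial ℤ) (ξ : ρ.𝕃) :
    (aeval ϑ f : ℂ) • ρ.R ξ = ρ.R (aeval ρ.Θ f * ξ) := by
  rw [map_mul, a4c_R_aeval, smul_mul_assoc, one_mul]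

theorem a4c_E_MA (i : Fin r) :
    ρ.a4c_E ((ρ.MA i).map Polynomial.C) = ρ.R ((ρ.den : ρ.𝕃) * ρ.X i) := by
  have h1 : ρ.a4c_E ((ρ.MA i).map Polynomial.C) = (ρ.MA i).map (fun a : ℤ => (a : ℂ)) := by
    ext a b
    simp [a4c_E_apply, Matrix.map_apply]
  rw [h1, ρ.R_X, map_mul, map_intCast]
  ext a b
  rw [Matrix.smul_apply, smul_eq_mul]
  have : ((ρ.den : Matrix (Fin ρ.d) (Fin ρ.d) ℂ) * ρ.R (ρ.X i)) =
      (ρ.den : ℂ) • ρ.R (ρ.X i) := by
    rw [← zsmul_eq_mul, Int.cast_smul_eq_zsmul]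
  rw [this, Matrix.smul_apply, smul_eq_mul]

theorem a4c_E_MB (j : Fin s) :
    ρ.a4c_E (ρ.MB j) = ρ.R (aeval ρ.Θ ρ.h * ρ.Y j) := by
  rw [← a4c_R_smul, ← ρ.R_Y]
  rfl

/-- the scalar in the field -/
def a4c_S (D l : ℕ) : ρ.𝕃 := (ρ.den : ρ.𝕃) ^ D * (aeval ρ.Θ ρ.h) ^ l

theorem a4c_coe_aeval (f : Polynomial ℤ) : ((aeval ρ.Θ f : ρ.𝕃) : ℂ) = aeval ϑ f := by
  have h := Polynomial.hom_eval₂ f (algebraMap ℤ ρ.𝕃) ρ.𝕃.subtype ρ.Θ
  rw [Polynomial.aeval_def, Polynomial.aeval_def]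
  have h1 : ρ.𝕃.subtype ρ.Θ = ϑ := ρ.Θ_eq
  rw [h1] at h
  rw [show ((Polynomial.eval₂ (algebraMap ℤ ρ.𝕃) ρ.Θ f : ρ.𝕃) : ℂ) =
    ρ.𝕃.subtype (Polynomial.eval₂ (algebraMap ℤ ρ.𝕃) ρ.Θ f) from rfl, h]
  congr 1

theorem a4c_coe_maeval (p : MvPolynomial (Fin r ⊕ Fin s) ℤ) :
    ((MvPolynomial.aeval (Sum.elim ρ.X ρ.Y) p : ρ.𝕃) : ℂ) = MvPolynomial.aeval (Sum.elim x y) p := by
  have h := MvPolynomial.eval₂_comp_left ρ.𝕃.subtype (algebraMap ℤ ρ.𝕃) (Sum.elim ρ.X ρ.Y) p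
  rw [MvPolynomial.aeval_def, MvPolynomial.aeval_def]
  rw [show ((MvPolynomial.eval₂ (algebraMap ℤ ρ.𝕃) (Sum.elim ρ.X ρ.Y) p : ρ.𝕃) : ℂ) =
    ρ.𝕃.subtype (MvPolynomial.eval₂ (algebraMap ℤ ρ.𝕃) (Sum.elim ρ.X ρ.Y) p) from rfl, h]
  congr 1
  funext t
  rcases t with i | j
  · exact ρ.X_eq i
  · exact ρ.Y_eq j

theorem a4c_coe_S (D l : ℕ) : ((ρ.a4c_S D l : ρ.𝕃) : ℂ) = (ρ.den : ℂ) ^ D * (aeval ϑ ρ.h) ^ l := by
  rw [a4c_S]
  push_cast
  rw [a4c_coe_aeval]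

theorem a4c_S_ne (D l : ℕ) : ρ.a4c_S D l ≠ 0 := by
  intro h
  have h1 := ρ.a4c_coe_S D l
  rw [h] at h1
  have h2 : (ρ.den : ℂ) ^ D * (aeval ϑ ρ.h) ^ l ≠ 0 :=
    mul_ne_zero (pow_ne_zero _ (by exact_mod_cast ρ.den_ne)) (pow_ne_zero _ ρ.h_ne)
  exact h2 (by rw [← h1]; rfl)

/-- the key identity -/
theorem a4c_key {D l : ℕ} {H : ℝ} {p : MvPolynomial (Fin r ⊕ Fin s) ℤ} (hp : Bd D l H p) :
    ρ.a4c_E (ρ.a4c_mat D l p) =
      ρ.R (ρ.a4c_S D l * MvPolynomial.aeval (Sum.elim ρ.X ρ.Y) p) := by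
  rw [a4c_mat, map_sum, MvPolynomial.aeval_def, MvPolynomial.eval₂_eq', Finset.mul_sum, map_sum]
  refine Finset.sum_congr rfl fun m hm => ?_
  have hA : a4c_wA m ≤ D := hp.dA m hm
  have hB : a4c_wB m ≤ l := hp.dB m hm
  rw [a4c_E_smul, a4c_W, map_mul,
    a4c_map_prod ρ.a4c_E ρ.R _ (fun i => (ρ.den : ρ.𝕃) * ρ.X i) _ (fun i => ρ.a4c_E_MA i),
    a4c_map_prod ρ.a4c_E ρ.R _ (fun j => aeval ρ.Θ ρ.h * ρ.Y j) _ (fun j => ρ.a4c_E_MB j),
    ← map_mul, a4c_R_smul]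
  congr 1
  rw [a4c_co, map_mul, map_mul, map_pow, map_pow, Polynomial.aeval_C, Polynomial.aeval_C,
    Fintype.prod_sum_type, a4c_S]
  simp only [Sum.elim_inl, Sum.elim_inr, mul_pow, Finset.prod_mul_distrib,
    Finset.prod_pow_eq_pow_sum]
  have e1 : (ρ.den : ρ.𝕃) ^ D = (ρ.den : ρ.𝕃) ^ (D - a4c_wA m) * (ρ.den : ρ.𝕃) ^ (a4c_wA m) := by
    rw [← pow_add, Nat.sub_add_cancel hA]
  have e2 : (aeval ρ.Θ ρ.h : ρ.𝕃) ^ l =
      (aeval ρ.Θ ρ.h) ^ (l - a4c_wB m) * (aeval ρ.Θ ρ.h) ^ (a4c_wB m) := by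
    rw [← pow_add, Nat.sub_add_cancel hB]
  rw [e1, e2]
  simp only [a4c_wA, a4c_wB, algebraMap_int_eq, eq_intCast]
  ring

end Rep

/-- A4c. PROOF. Let `ρ` be a `Rep`. Put `mat D l p = ∑_{m ∈ supp p} coeff_m p • (den^{D - |m_A|} h^{l - |m_B|}) • (∏_i (MA i)^{m_i}) (∏_j (MB j)^{m_j})` (products in a fixed
order, `List.prod (List.ofFn ..)`; `MA i` is mapped to polynomials by `C`), `sc D l = den^D h(ϑ)^l`. Evaluated at `ϑ`, each term is
`coeff · sc D l • R(∏ X_i^{m_i} ∏ Y_j^{m_j})` (`R` is a ring homomorphism), so `(mat D l p)(ϑ) = sc D l • R(p(X, Y))`: this gives `eig`, and for a combination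
`∑ p_ν(ϑ) mat(Ξ_ν)(ϑ) = sc D l • R(∑ p_ν(Θ) Ξ_ν(X,Y))` (`R Θ = ϑ • 1`), whose determinant is nonzero if the sum is (`det_ne`); the determinant of the
polynomial matrix evaluated at `ϑ` is the determinant of the evaluated matrix (`RingHom.map_det`). Bounds: a product of `k` matrices with entries of length `≤ B` and degree `≤ e` has
entries of length `≤ (d B)^k` and degree `≤ e k`; `C = d · max(...)` (all of `1, |den|, len h`, `len` of the entries of `MA, MB`, `‖h(ϑ)‖`), `e` = maximum of the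
degrees of `h` and the entries of `MB`; `∑_m |coeff_m| ≤ H`. -/
theorem exists_dict {r s : ℕ} (ϑ : ℂ) (hϑ : Transcendental ℚ ϑ) (x : Fin r → ℂ) (y : Fin s → ℂ)
    (hx : ∀ i, IsAlgebraic ℚ (x i)) (hy : ∀ j, IsAlgebraic ℚ⟮ϑ⟯ (y j)) : Nonempty (Dict ϑ x y) := by
  classical
  obtain ⟨ρ⟩ := exists_rep ϑ hϑ x y hx hy
  -- the constants
  obtain ⟨B, hB1, hBden, hBh, hBϑ, hBA, hBB⟩ : ∃ B : ℝ, 1 ≤ B ∧ |(ρ.den : ℝ)| ≤ B ∧ len ρ.h ≤ B ∧
      ‖(aeval ϑ ρ.h : ℂ)‖ ≤ B ∧ (∀ i, a4c_RS ((ρ.MA i).map Polynomial.C) B) ∧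
      (∀ j, a4c_RS (ρ.MB j) B) := by
    refine ⟨1 + |(ρ.den : ℝ)| + len ρ.h + ‖(aeval ϑ ρ.h : ℂ)‖ +
      (∑ i, ∑ a, ∑ b, len (((ρ.MA i).map Polynomial.C) a b)) +
      (∑ j, ∑ a, ∑ b, len (ρ.MB j a b)), ?_, ?_, ?_, ?_, ?_, ?_⟩
    all_goals
      have n1 : 0 ≤ |(ρ.den : ℝ)| := abs_nonneg _
      have n2 : 0 ≤ len ρ.h := len_nonneg _
      have n3 : 0 ≤ ‖(aeval ϑ ρ.h : ℂ)‖ := norm_nonneg _
      have n4 : 0 ≤ ∑ i, ∑ a, ∑ b, len (((ρ.MA i).map Polynomial.C) a b) :=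
        Finset.sum_nonneg fun i _ => Finset.sum_nonneg fun a _ => Finset.sum_nonneg fun b _ =>
          len_nonneg _
      have n5 : 0 ≤ ∑ j, ∑ a, ∑ b, len (ρ.MB j a b) :=
        Finset.sum_nonneg fun i _ => Finset.sum_nonneg fun a _ => Finset.sum_nonneg fun b _ =>
          len_nonneg _
    · linarith
    · linarith
    · linarith
    · linarith
    · intro i a
      have h1 : ∑ b, len (((ρ.MA i).map Polynomial.C) a b) ≤
          ∑ a, ∑ b, len (((ρ.MA i).map Polynomial.C) a b) :=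
        Finset.single_le_sum (f := fun a => ∑ b, len (((ρ.MA i).map Polynomial.C) a b))
          (fun a _ => Finset.sum_nonneg fun b _ => len_nonneg _) (Finset.mem_univ a)
      have h2 : ∑ a, ∑ b, len (((ρ.MA i).map Polynomial.C) a b) ≤
          ∑ i, ∑ a, ∑ b, len (((ρ.MA i).map Polynomial.C) a b) :=
        Finset.single_le_sum (f := fun i => ∑ a, ∑ b, len (((ρ.MA i).map Polynomial.C) a b))
          (fun i _ => Finset.sum_nonneg fun a _ => Finset.sum_nonneg fun b _ => len_nonneg _)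
          (Finset.mem_univ i)
      linarith
    · intro j a
      have h1 : ∑ b, len (ρ.MB j a b) ≤ ∑ a, ∑ b, len (ρ.MB j a b) :=
        Finset.single_le_sum (f := fun a => ∑ b, len (ρ.MB j a b))
          (fun a _ => Finset.sum_nonneg fun b _ => len_nonneg _) (Finset.mem_univ a)
      have h2 : ∑ a, ∑ b, len (ρ.MB j a b) ≤ ∑ j, ∑ a, ∑ b, len (ρ.MB j a b) :=
        Finset.single_le_sum (f := fun j => ∑ a, ∑ b, len (ρ.MB j a b))
          (fun i _ => Finset.sum_nonneg fun a _ => Finset.sum_nonneg fun b _ => len_nonneg _)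
          (Finset.mem_univ j)
      linarith
  have hB0 : 0 ≤ B := by linarith
  obtain ⟨e, heh, heB⟩ : ∃ e : ℕ, ρ.h.natDegree ≤ e ∧ ∀ j, a4c_DL (ρ.MB j) e := by
    refine ⟨ρ.h.natDegree + ∑ j, ∑ a, ∑ b, (ρ.MB j a b).natDegree, Nat.le_add_right _ _, ?_⟩
    intro j a b
    have h1 : (ρ.MB j a b).natDegree ≤ ∑ b, (ρ.MB j a b).natDegree :=
      Finset.single_le_sum (f := fun b => (ρ.MB j a b).natDegree) (fun _ _ => Nat.zero_le _)
        (Finset.mem_univ b)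
    have h2 : ∑ b, (ρ.MB j a b).natDegree ≤ ∑ a, ∑ b, (ρ.MB j a b).natDegree :=
      Finset.single_le_sum (f := fun a => ∑ b, (ρ.MB j a b).natDegree) (fun _ _ => Nat.zero_le _)
        (Finset.mem_univ a)
    have h3 : ∑ a, ∑ b, (ρ.MB j a b).natDegree ≤ ∑ j, ∑ a, ∑ b, (ρ.MB j a b).natDegree :=
      Finset.single_le_sum (f := fun j => ∑ a, ∑ b, (ρ.MB j a b).natDegree)
        (fun _ _ => Nat.zero_le _) (Finset.mem_univ j)
    omega
  have heA : ∀ i, a4c_DL ((ρ.MA i).map Polynomial.C) 0 := by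
    intro i a b
    rw [Matrix.map_apply, Polynomial.natDegree_C]
  -- powers of scalars
  have hlenpow : ∀ (f : Polynomial ℤ), len f ≤ B → ∀ k : ℕ, len (f ^ k) ≤ B ^ k := by
    intro f hf k
    induction k with
    | zero => rw [pow_zero, pow_zero, a4c_len_one]
    | succ k ih =>
      rw [pow_succ, pow_succ]
      exact (len_mul _ _).trans (mul_le_mul ih hf (len_nonneg _) (pow_nonneg hB0 _))
  refine ⟨{
    d := ρ.d
    e := e
    C := B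
    v := ρ.v
    sc := fun D l => (ρ.den : ℂ) ^ D * (aeval ϑ ρ.h) ^ l
    mat := fun D l p => ρ.a4c_mat D l p
    d_pos := ρ.d_pos
    one_le := hB1
    v_ne := ρ.v_ne
    sc_ne := fun D l => mul_ne_zero (pow_ne_zero _ (by exact_mod_cast ρ.den_ne))
      (pow_ne_zero _ ρ.h_ne)
    sc_le := ?_
    deg := ?_
    len_le := ?_
    eig := ?_
    det_ne := ?_ }⟩
  · intro D l
    rw [norm_mul, norm_pow, norm_pow, Complex.norm_intCast, pow_add]
    exact mul_le_mul (pow_le_pow_left₀ (abs_nonneg _) hBden _)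
      (pow_le_pow_left₀ (norm_nonneg _) hBϑ _) (pow_nonneg (norm_nonneg _) _) (pow_nonneg hB0 _)
  · intro D l H p hp i j
    show (ρ.a4c_mat D l p i j).natDegree ≤ e * l
    rw [Rep.a4c_mat, Matrix.sum_apply]
    refine Polynomial.natDegree_sum_le_of_forall_le _ _ fun m hm => ?_
    have hBm : Rep.a4c_wB m ≤ l := hp.dB m hm
    rw [Matrix.smul_apply, smul_eq_mul]
    have h1 : (ρ.a4c_co D l p m).natDegree ≤ e * (l - Rep.a4c_wB m) := by
      rw [Rep.a4c_co]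
      refine (Polynomial.natDegree_C_mul_le _ _).trans ?_
      rw [← map_pow]
      refine (Polynomial.natDegree_C_mul_le _ _).trans ?_
      refine Polynomial.natDegree_pow_le.trans ?_
      rw [mul_comm]
      exact Nat.mul_le_mul_right _ heh
    have h2 : (ρ.a4c_W m i j).natDegree ≤ e * Rep.a4c_wB m := by
      have h3 := a4c_DL_mul
        (a4c_DL_prod (fun i => (ρ.MA i).map Polynomial.C) (fun i => m (Sum.inl i)) heA)
        (a4c_DL_prod ρ.MB (fun j => m (Sum.inr j)) heB) i j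
      simp only [zero_mul, zero_add] at h3
      exact h3
    refine Polynomial.natDegree_mul_le.trans ((add_le_add h1 h2).trans (le_of_eq ?_))
    rw [← mul_add, Nat.sub_add_cancel hBm]
  · intro D l H p hp i j
    show len (ρ.a4c_mat D l p i j) ≤ B ^ (D + l) * H
    rw [Rep.a4c_mat, Matrix.sum_apply]
    refine (len_sum _ _).trans ?_
    calc ∑ m ∈ p.support, len ((ρ.a4c_co D l p m • ρ.a4c_W m) i j)
        ≤ ∑ m ∈ p.support, B ^ (D + l) * |((p.coeff m : ℤ) : ℝ)| := by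
          refine Finset.sum_le_sum fun m hm => ?_
          have hA : Rep.a4c_wA m ≤ D := hp.dA m hm
          have hBm : Rep.a4c_wB m ≤ l := hp.dB m hm
          rw [Matrix.smul_apply, smul_eq_mul]
          have h1 : len (ρ.a4c_co D l p m) ≤
              |((p.coeff m : ℤ) : ℝ)| * (B ^ (D - Rep.a4c_wA m) * B ^ (l - Rep.a4c_wB m)) := by
            rw [Rep.a4c_co]
            refine (len_mul _ _).trans ?_
            rw [len_C]
            refine mul_le_mul_of_nonneg_left ?_ (abs_nonneg _)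
            refine (len_mul _ _).trans ?_
            exact mul_le_mul (hlenpow _ (by rw [len_C]; exact hBden) _) (hlenpow _ hBh _)
              (len_nonneg _) (pow_nonneg hB0 _)
          have h2 : len (ρ.a4c_W m i j) ≤ B ^ Rep.a4c_wA m * B ^ Rep.a4c_wB m := by
            have h3 := a4c_RS_mul (pow_nonneg hB0 _)
              (a4c_RS_prod hB0 (fun i => (ρ.MA i).map Polynomial.C) (fun i => m (Sum.inl i)) hBA)
              (a4c_RS_prod hB0 ρ.MB (fun j => m (Sum.inr j)) hBB) i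
            exact (Finset.single_le_sum (f := fun j => len (ρ.a4c_W m i j))
              (fun _ _ => len_nonneg _) (Finset.mem_univ j)).trans h3
          refine (len_mul _ _).trans ((mul_le_mul h1 h2 (len_nonneg _) (by positivity)).trans
            (le_of_eq ?_))
          have e1 : B ^ (D + l) = (B ^ (D - Rep.a4c_wA m) * B ^ Rep.a4c_wA m) *
              (B ^ (l - Rep.a4c_wB m) * B ^ Rep.a4c_wB m) := by
            rw [← pow_add, ← pow_add, Nat.sub_add_cancel hA, Nat.sub_add_cancel hBm, ← pow_add]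
          rw [e1]
          ring
      _ = B ^ (D + l) * mlen p := by rw [mlen, Finset.mul_sum]
      _ ≤ B ^ (D + l) * H := mul_le_mul_of_nonneg_left hp.h (pow_nonneg hB0 _)
  · intro D l H p hp
    have h1 := ρ.a4c_key hp
    rw [Rep.a4c_E_apply] at h1
    show Matrix.vecMul ρ.v ((ρ.a4c_mat D l p).map (fun f => aeval ϑ f)) = _
    rw [h1, ρ.eig]
    congr 1
    rw [← ρ.a4c_coe_S, ← ρ.a4c_coe_maeval]
    rfl
  · intro D l H ι _ p Ξ hΞ hne
    show (∑ ν, p ν • ρ.a4c_mat D l (Ξ ν)).det ≠ 0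
    intro h0
    have h1 : (ρ.a4c_E (∑ ν, p ν • ρ.a4c_mat D l (Ξ ν))).det = 0 := by
      have h2 := RingHom.map_det (Polynomial.aeval ϑ : Polynomial ℤ →ₐ[ℤ] ℂ).toRingHom
        (∑ ν, p ν • ρ.a4c_mat D l (Ξ ν))
      rw [h0, map_zero] at h2
      exact h2.symm
    have h3 : ρ.a4c_E (∑ ν, p ν • ρ.a4c_mat D l (Ξ ν)) =
        ρ.R (ρ.a4c_S D l * ∑ ν, aeval ρ.Θ (p ν) *
          MvPolynomial.aeval (Sum.elim ρ.X ρ.Y) (Ξ ν)) := by
      rw [map_sum, Finset.mul_sum, map_sum]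
      refine Finset.sum_congr rfl fun ν _ => ?_
      rw [Rep.a4c_E_smul, ρ.a4c_key (hΞ ν), Rep.a4c_R_smul]
      congr 1
      ring
    rw [h3] at h1
    refine ρ.det_ne _ (mul_ne_zero (ρ.a4c_S_ne D l) ?_) h1
    intro h4
    apply hne
    have h5 := congrArg (fun ξ : ρ.𝕃 => (ξ : ℂ)) h4
    push_cast at h5
    rw [← h5]
    refine Finset.sum_congr rfl fun ν _ => ?_
    rw [Rep.a4c_coe_aeval, Rep.a4c_coe_maeval]

end Pool.Agent.MSP
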