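import Pool.Agent.Lib.MP_f58a57_nt.P.Defs
import Pool.Agent.Lib.MP_f58a57_nt.C3_PcValues
import Pool.Agent.Lib.MP_f58a57_nt.G2_Link
import Pool.Agent.Lib.MP_f58a57_nt.G3_Orbit

/-! # F1: normalised values at special points are algebraic (MP_f58a57_nt, pairs) -/

open Complex Filter Topology

noncomputable section

namespace Pool.Agent.MSP

/-- a special point with its scaling factor -/
structure CMD (τ Ω : ℂ) : Prop where
  im : 0 < τ.im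
  ne : Ω ≠ 0
  alg : IsAlgebraic ℚ τ
  a4 : IsAlgebraic ℚ (MSD.e4 τ / Ω ^ 4)
  a6 : IsAlgebraic ℚ (MSD.e6 τ / Ω ^ 6)
  a2 : IsAlgebraic ℚ (MSD.e2s τ / Ω ^ 2)

/-- F1a. PROOF. `MSD.KK_algebraic`, `MSD.algebraic_e4` (C3_PcValues); for `e6` and `e2s` copy the proof of `algebraic_e4`: with `z = (q rt d + p)/r`,
`MSD.values_Gr` expresses `e6 z/Ω⁶`, `e2s z/Ω²` by `Gr κ (rt d) ρ` (`κ = 1, 2`) and `e2s (rt d)`, and these are algebraic after division by `Ω^6`, `Ω^2` by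
`MSD.ctrl_Gr` and `MSD.cm_e2`. (Or use `MSD.pc_values` for a Möbius transformation that takes the value `z`.) -/
theorem cmd_of_KK (d : ℕ) (hd : 0 < d) (Ω : ℂ) (hΩ : MSD.CMBase (MSD.rt d) Ω) (z : ℂ) (hz : 0 < z.im)
    (hK : z ∈ MSD.KK d) : CMD z Ω := by
  have halg := MSD.KK_algebraic d z hK
  obtain ⟨u, v, rfl⟩ := hK
  have hsd : 0 < Real.sqrt d := Real.sqrt_pos.2 (by exact_mod_cast hd)
  have him : ((u : ℂ) + v * MSD.rt d).im = (v : ℝ) * Real.sqrt d := by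
    have h1 : ((u : ℂ) + v * MSD.rt d) = ((u : ℝ) : ℂ) + (((v : ℝ) * Real.sqrt d : ℝ) : ℂ) * I := by
      unfold MSD.rt
      push_cast
      ring
    rw [h1]
    simp
  have hv : 0 < v := by
    have hz' := hz
    rw [him] at hz'
    have h2 : (0 : ℝ) < v := by
      by_contra h3
      push Not at h3
      nlinarith
    exact_mod_cast h2
  have hvn : 0 < v.num := Rat.num_pos.2 hv
  obtain ⟨n, hn⟩ := Int.eq_ofNat_of_zero_le hvn.le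
  have hn0 : 0 < n := by omega
  have hq : 0 < n * u.den := Nat.mul_pos hn0 u.den_pos
  have hr : 0 < v.den * u.den := Nat.mul_pos v.den_pos u.den_pos
  obtain ⟨ρ, hρ, h4, h6, h2⟩ := MSD.values_Gr d hd (n * u.den) (v.den * u.den) (u.num * v.den) hq hr
  have hz' : ((u : ℂ) + v * MSD.rt d) = (((n * u.den : ℕ) : ℂ) * MSD.rt d + ((u.num * v.den : ℤ) : ℂ)) /
      ((v.den * u.den : ℕ) : ℂ) := by
    have hu0 : (u.den : ℂ) ≠ 0 := Nat.cast_ne_zero.2 u.den_pos.ne'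
    have hv0 : (v.den : ℂ) ≠ 0 := Nat.cast_ne_zero.2 v.den_pos.ne'
    have hu1 : (u : ℂ) = (u.num : ℂ) / (u.den : ℂ) := Rat.cast_def u
    have hv1 : (v : ℂ) = (n : ℂ) / (v.den : ℂ) := by
      rw [Rat.cast_def v, hn]
      simp
    rw [hu1, hv1]
    push_cast
    field_simp
    ring
  have a4 := MSD.algebraic_e4 d hd Ω hΩ _ hz ⟨u, v, rfl⟩
  rw [← hz'] at h4 h6 h2
  generalize ((u : ℂ) + v * MSD.rt d) = z at *
  obtain ⟨C, hC⟩ := MSD.ctrl_Gr (MSD.rt d) Ω hΩ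
  have hΩ0 := hΩ.ne
  generalize n * u.den = q at *
  generalize v.den * u.den = r at *
  have hq0 : (q : ℂ) ≠ 0 := Nat.cast_ne_zero.2 hq.ne'
  have g1 := (hC 1 _ (Nat.mul_pos hq hr) ρ hρ).alg
  have g2 := (hC 2 _ (Nat.mul_pos hq hr) ρ hρ).alg
  have hrat : ∀ x : ℚ, IsAlgebraic ℚ (x : ℂ) := fun x => by
    simpa using isAlgebraic_algebraMap (R := ℚ) (A := ℂ) x
  refine ⟨hz, hΩ0, halg, a4, ?_, ?_⟩
  · have e : MSD.e6 z / Ω ^ 6 = (MSD.Gr 1 (MSD.rt d) ρ / Ω ^ MSD.kwt 1) * ((((q : ℚ) ^ 6)⁻¹ : ℚ) : ℂ) := by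
      rw [h6]
      show _ = (MSD.Gr 1 (MSD.rt d) ρ / Ω ^ 6) * _
      push_cast
      field_simp
    rw [e]
    exact g1.mul (hrat _)
  · have e : MSD.e2s z / Ω ^ 2 = ((MSD.Gr 2 (MSD.rt d) ρ / Ω ^ MSD.kwt 2) +
        (((q * r : ℕ) : ℚ) : ℂ) * (MSD.e2s (MSD.rt d) / Ω ^ 2)) * ((((q : ℚ) ^ 2)⁻¹ : ℚ) : ℂ) := by
      rw [h2]
      show _ = ((MSD.Gr 2 (MSD.rt d) ρ / Ω ^ 2) + _) * _
      push_cast
      field_simp
    rw [e]
    exact (g2.add ((hrat _).mul (MSD.cm_e2 d hd Ω hΩ))).mul (hrat _)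

/-- F1b. `jj z` is algebraic: `jj = 1728 A³/(A³ - B²)`, `A = e4/Ω⁴`, `B = e6/Ω⁶`. -/
theorem jj_algebraic (z Ω : ℂ) (h : CMD z Ω) : IsAlgebraic ℚ (MSD.jj z) := by
  have hΩ0 := h.ne
  have e1 : (MSD.e4 z / Ω ^ 4) ^ 3 - (MSD.e6 z / Ω ^ 6) ^ 2 = (MSD.e4 z ^ 3 - MSD.e6 z ^ 2) / Ω ^ 12 := by
    field_simp
  have e2 : MSD.jj z = (1728 : ℂ) * (MSD.e4 z / Ω ^ 4) ^ 3 *
      ((MSD.e4 z / Ω ^ 4) ^ 3 - (MSD.e6 z / Ω ^ 6) ^ 2)⁻¹ := by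
    rw [e1]
    unfold MSD.jj MSD.dl
    rw [div_div_eq_mul_div, inv_div]
    by_cases h0 : MSD.e4 z ^ 3 - MSD.e6 z ^ 2 = 0
    · rw [h0]
      simp
    · field_simp
  rw [e2]
  have h1728 : IsAlgebraic ℚ (1728 : ℂ) := by
    have := isAlgebraic_algebraMap (R := ℚ) (A := ℂ) 1728
    simpa using this
  exact (h1728.mul (h.a4.pow 3)).mul ((h.a4.pow 3).sub (h.a6.pow 2)).inv

/-- F1c. PROOF. `MSD.link6`: `πΩ² = -(e4/Ω⁴) jj'(z) / (2 I jj(z) (e6/Ω⁶))` (everything nonzero by `MSD.jj_ne`). -/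
theorem theta_eq (z Ω : ℂ) (h : CMD z Ω) (hj : deriv MSD.jj z ≠ 0) :
    ∃ α : ℂ, IsAlgebraic ℚ α ∧ Real.pi * Ω ^ 2 = α * deriv MSD.jj z := by
  have hΩ0 := h.ne
  obtain ⟨h1, h2, h4, h6⟩ := MSD.jj_ne z h.im hj
  have hl := MSD.link6 z Ω h.im hΩ0 hj
  have hpi : (Real.pi : ℂ) ≠ 0 := by exact_mod_cast Real.pi_ne_zero
  have hI : IsAlgebraic ℚ I := by
    refine ⟨Polynomial.X ^ 2 + Polynomial.C 1, ?_, ?_⟩
    · exact (Polynomial.monic_X_pow_add_C (1 : ℚ) (by norm_num)).ne_zero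
    · simp
  have h2a : IsAlgebraic ℚ (2 : ℂ) := by
    have := isAlgebraic_algebraMap (R := ℚ) (A := ℂ) 2
    simpa using this
  refine ⟨-((MSD.e4 z / Ω ^ 4) * (2 * I * MSD.jj z * (MSD.e6 z / Ω ^ 6))⁻¹), ?_, ?_⟩
  · exact (h.a4.mul (((h2a.mul hI).mul (jj_algebraic z Ω h)).mul h.a6).inv).neg
  · have hA : MSD.e4 z / Ω ^ 4 ≠ 0 := div_ne_zero h4 (pow_ne_zero _ hΩ0)
    have hB : MSD.e6 z / Ω ^ 6 ≠ 0 := div_ne_zero h6 (pow_ne_zero _ hΩ0)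
    generalize MSD.e4 z / Ω ^ 4 = A at *
    generalize MSD.e6 z / Ω ^ 6 = B at *
    generalize MSD.jj z = j at *
    generalize deriv MSD.jj z = j' at *
    have hI0 : I ≠ 0 := I_ne_zero
    have hT : (Real.pi : ℂ) * Ω ^ 2 ≠ 0 := mul_ne_zero hpi (pow_ne_zero _ hΩ0)
    generalize (Real.pi : ℂ) * Ω ^ 2 = T at *
    rw [hl]
    field_simp

end Pool.Agent.MSP
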