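import Pool.Agent.Lib.MP_f58a57_nt.P.F1_CMD
import Pool.Agent.Lib.MP_f58a57_nt.P.A3_Eval
import Pool.Agent.Lib.MP_f58a57_nt.P.E2_Alg

/-! # F1b: the values at dyadic points (MP_f58a57_nt, pairs) -/

open Complex Filter Topology IntermediateField

noncomputable section

namespace Pool.Agent.MSP

theorem f1b_rat (q : ℚ) : IsAlgebraic ℚ (q : ℂ) := by
  have := isAlgebraic_algebraMap (R := ℚ) (A := ℂ) q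
  simpa using this

theorem f1b_I : IsAlgebraic ℚ (I : ℂ) := by
  apply IsAlgebraic.of_pow (n := 2) (by norm_num)
  rw [Complex.I_sq]
  have := f1b_rat (-1)
  simpa using this

theorem f1b_conj (z : ℂ) (h : IsAlgebraic ℚ z) : IsAlgebraic ℚ ((starRingEnd ℂ) z) := by
  have h1 := h.algHom (Complex.conjAe.toAlgHom.restrictScalars ℚ)
  exact h1

theorem f1b_im (z : ℂ) (h : IsAlgebraic ℚ z) : IsAlgebraic ℚ ((z.im : ℂ)) := by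
  have h1 : (z.im : ℂ) = (z - (starRingEnd ℂ) z) * (((1 / 2 : ℚ) : ℂ) * (-I)) := by
    rw [Complex.sub_conj]
    push_cast
    linear_combination (z.im : ℂ) * Complex.I_sq
  rw [h1]
  exact (h.sub (f1b_conj z h)).mul ((f1b_rat _).mul f1b_I.neg)

/-- F1d. PROOF. `dyadic_alg` (E2) for `P_i, P_i'`, `CMD.a4`, `CMD.alg`. -/
theorem vA_alg (τ₁ τ₂ Ω₁ Ω₂ : ℂ) (h₁ : CMD τ₁ Ω₁) (h₂ : CMD τ₂ Ω₂) (k : ℕ) (a : ℤ) (ha : ¬ ((2 : ℤ) ^ k ∣ a)) (i : Fin 8) :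
    IsAlgebraic ℚ (vA τ₁ τ₂ Ω₁ Ω₂ ((a : ℂ) / 2 ^ k) ((a : ℂ) / 2 ^ k) i) := by
  have A1 := dyadic_alg τ₁ Ω₁ h₁.im h₁.ne h₁.a4 h₁.a6 k a ha
  have A2 := dyadic_alg τ₂ Ω₂ h₂.im h₂.ne h₂.a4 h₂.a6 k a ha
  have q : IsAlgebraic ℚ ((2 / 3 : ℂ)) := by
    have := f1b_rat (2 / 3)
    push_cast at this
    exact this
  unfold vA
  fin_cases i
  · exact A1.1
  · exact A1.2.1
  · exact A2.1
  · exact A2.2.1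
  · exact q.mul h₁.a4
  · exact q.mul h₂.a4
  · exact h₁.alg
  · exact h₂.alg

/-- F1e. PROOF. Let `θ_i = πΩ_i²` (algebraic over `ℚ(ϑ)`; `≠ 0`). `κ₂ = θ₂/(2I)`; `κ₁² = -θ₁θ₂/4`, so `κ₁` is algebraic over `ℚ(ϑ)`; `c² = θ₂/θ₁`.
`e2 τ/Ω² = e2s τ/Ω² + 3/(y θ)`, `y = Im τ` algebraic (`τ` and its conjugate are). `Y₁ = -Ω₂ ph τ₁ t/(2I) = -κ₁ · (ph τ₁ t/(πΩ₁))`, `Y₂ = -κ₂ (ph τ₂ t/(πΩ₂))`, and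
`ph/(πΩ)` is algebraic over `ℚ` (`dyadic_alg`); `Y₃ = -τ₂Y₂ + τ₁Y₁` (`w - t = 0`). Numbers algebraic over `ℚ` are algebraic over `ℚ(ϑ)`. -/
theorem vB_alg (τ₁ τ₂ Ω₁ Ω₂ ϑ : ℂ) (h₁ : CMD τ₁ Ω₁) (h₂ : CMD τ₂ Ω₂) (hθ₁ : IsAlgebraic ℚ⟮ϑ⟯ (Real.pi * Ω₁ ^ 2))
    (hθ₂ : IsAlgebraic ℚ⟮ϑ⟯ (Real.pi * Ω₂ ^ 2)) (k : ℕ) (a : ℤ) (ha : ¬ ((2 : ℤ) ^ k ∣ a)) (j : Fin 8) :
    IsAlgebraic ℚ⟮ϑ⟯ (vB τ₁ τ₂ Ω₁ Ω₂ ((a : ℂ) / 2 ^ k) ((a : ℂ) / 2 ^ k) j) := by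
  have up : ∀ {x : ℂ}, IsAlgebraic ℚ x → IsAlgebraic ℚ⟮ϑ⟯ x := fun h => h.tower_top _
  have A1 := dyadic_alg τ₁ Ω₁ h₁.im h₁.ne h₁.a4 h₁.a6 k a ha
  have A2 := dyadic_alg τ₂ Ω₂ h₂.im h₂.ne h₂.a4 h₂.a6 k a ha
  have hI : IsAlgebraic ℚ⟮ϑ⟯ (I : ℂ) := up f1b_I
  have h2 : IsAlgebraic ℚ⟮ϑ⟯ ((2 : ℂ)) := by
    have := up (f1b_rat 2)
    push_cast at this
    exact this
  have h3 : IsAlgebraic ℚ⟮ϑ⟯ ((3 : ℂ)) := by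
    have := up (f1b_rat 3)
    push_cast at this
    exact this
  have hpi : (Real.pi : ℂ) ≠ 0 := by exact_mod_cast Real.pi_ne_zero
  have n1 := h₁.ne
  have n2 := h₂.ne
  have k2 : IsAlgebraic ℚ⟮ϑ⟯ (Real.pi * Ω₂ ^ 2 / (2 * I)) := hθ₂.mul ((h2.mul hI).inv)
  have k1 : IsAlgebraic ℚ⟮ϑ⟯ (Real.pi * Ω₁ * Ω₂ / (2 * I)) := by
    apply IsAlgebraic.of_pow (n := 2) (by norm_num)
    have e : (Real.pi * Ω₁ * Ω₂ / (2 * I)) ^ 2 = (Real.pi * Ω₁ ^ 2) * (Real.pi * Ω₂ ^ 2) * ((2 * I) * (2 * I))⁻¹ := by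
      have : (I : ℂ) ≠ 0 := I_ne_zero
      field_simp
    rw [e]
    exact (hθ₁.mul hθ₂).mul ((h2.mul hI).mul (h2.mul hI)).inv
  have hc : IsAlgebraic ℚ⟮ϑ⟯ (Ω₂ / Ω₁) := by
    apply IsAlgebraic.of_pow (n := 2) (by norm_num)
    have e : (Ω₂ / Ω₁) ^ 2 = (Real.pi * Ω₂ ^ 2) * (Real.pi * Ω₁ ^ 2)⁻¹ := by
      field_simp
    rw [e]
    exact hθ₂.mul hθ₁.inv
  have hE : ∀ τ Ω : ℂ, CMD τ Ω → IsAlgebraic ℚ⟮ϑ⟯ (Real.pi * Ω ^ 2) →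
      IsAlgebraic ℚ⟮ϑ⟯ (MSD.e2 τ / (3 * Ω ^ 2)) := by
    intro τ Ω h hθ
    have n0 := h.ne
    have hy : (τ.im : ℂ) ≠ 0 := by exact_mod_cast h.im.ne'
    have e : MSD.e2 τ / (3 * Ω ^ 2) = (MSD.e2s τ / Ω ^ 2) * (3 : ℂ)⁻¹ + ((τ.im : ℂ) * (Real.pi * Ω ^ 2))⁻¹ := by
      unfold MSD.e2s
      field_simp
      ring
    rw [e]
    exact ((up h.a2).mul h3.inv).add ((up (f1b_im τ h.alg)).mul hθ).inv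
  have Y1 : IsAlgebraic ℚ⟮ϑ⟯ (-(Ω₂ * ph τ₁ ((a : ℂ) / 2 ^ k) / (2 * I))) := by
    have e : -(Ω₂ * ph τ₁ ((a : ℂ) / 2 ^ k) / (2 * I)) =
        -((Real.pi * Ω₁ * Ω₂ / (2 * I)) * (ph τ₁ ((a : ℂ) / 2 ^ k) / (Real.pi * Ω₁))) := by
      have : (I : ℂ) ≠ 0 := I_ne_zero
      field_simp
    rw [e]
    exact (k1.mul (up A1.2.2)).neg
  have Y2 : IsAlgebraic ℚ⟮ϑ⟯ (-(Ω₂ * ph τ₂ ((a : ℂ) / 2 ^ k) / (2 * I))) := by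
    have e : -(Ω₂ * ph τ₂ ((a : ℂ) / 2 ^ k) / (2 * I)) =
        -((Real.pi * Ω₂ ^ 2 / (2 * I)) * (ph τ₂ ((a : ℂ) / 2 ^ k) / (Real.pi * Ω₂))) := by
      have : (I : ℂ) ≠ 0 := I_ne_zero
      field_simp
    rw [e]
    exact (k2.mul (up A2.2.2)).neg
  unfold vB
  fin_cases j
  · exact k1
  · exact k1.mul (hE τ₁ Ω₁ h₁ hθ₁)
  · exact k2
  · exact k2.mul (hE τ₂ Ω₂ h₂ hθ₂)
  · exact hc
  · exact Y1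
  · exact Y2
  · have e : (Real.pi * Ω₂ * (((a : ℂ) / 2 ^ k) - ((a : ℂ) / 2 ^ k)) : ℂ) = 0 := by
      rw [sub_self, mul_zero]
    have h0 : IsAlgebraic ℚ⟮ϑ⟯ (0 - τ₂ * (-(Ω₂ * ph τ₂ ((a : ℂ) / 2 ^ k) / (2 * I))) +
        τ₁ * (-(Ω₂ * ph τ₁ ((a : ℂ) / 2 ^ k) / (2 * I)))) :=
      (isAlgebraic_zero.sub ((up h₂.alg).mul Y2)).add ((up h₁.alg).mul Y1)
    rw [← e] at h0
    exact h0

end Pool.Agent.MSP
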