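import Pool.Agent.Lib.MP_f58a57_nt.P.F1b_Vals
import Pool.Agent.Lib.MP_f58a57_nt.P.A3c_FF
import Pool.Agent.Lib.MP_f58a57_nt.P.A5_Siegel
import Pool.Agent.Lib.MP_f58a57_nt.P.G5_FF

/-! # F2: Siegel step (MP_f58a57_nt, pairs) -/

open Complex Filter Topology IntermediateField Polynomial

noncomputable section

namespace Pool.Agent.MSP

/-- all the hypotheses on the two curves -/
structure Hyp (c₁ c₂ : Cv) (Ω₁ Ω₂ ϑ : ℂ) : Prop where
  s₁ : c₁.s = sE c₁.τ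
  s₂ : c₂.s = sE c₂.τ
  h₁ : CMD c₁.τ Ω₁
  h₂ : CMD c₂.τ Ω₂
  tr : Transcendental ℚ ϑ
  a₁ : IsAlgebraic ℚ⟮ϑ⟯ (Real.pi * Ω₁ ^ 2)
  a₂ : IsAlgebraic ℚ⟮ϑ⟯ (Real.pi * Ω₂ ^ 2)

theorem f2_half_ne (τ : ℂ) (hτ : 0 < τ.im) : N0 τ (1 / 2) ≠ 0 := by
  have h := th_real_ne τ hτ (1 / 2 : ℝ) (by
    intro m hm
    have h2 : (2 * m : ℝ) = 1 := by rw [← hm]; norm_num
    have h3 : 2 * m = 1 := by exact_mod_cast h2
    omega)
  have h4 : (((1 / 2 : ℝ) : ℝ) : ℂ) = 1 / 2 := by push_cast; rfl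
  rw [h4] at h
  exact h

theorem f2_card (P : Pr) : (Fintype.card P.box : ℝ) = ((P.L : ℝ) + 1) ^ 2 * (((P.d₁ : ℝ) + 1) * (P.d₂ + 1) * (P.d₃ + 1)) := by
  rw [Fintype.card_coe]
  unfold Pr.box
  simp only [Finset.card_product, Finset.card_range]
  push_cast
  ring

theorem f2_exp_bound (C₀ T : ℝ) (hC : 1 ≤ C₀) (hT : 1 ≤ T) (n : ℕ) (hn : (n : ℝ) = T) :
    (2 * T) ^ 5 * C₀ ^ (8 * n) * ((56 * T) ^ (2 * n) * Real.exp T) ≤ Real.exp (24 * C₀ * T * (1 + Real.log T)) := by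
  have hT0 : 0 < T := by linarith
  have hlog : 0 ≤ Real.log T := Real.log_nonneg hT
  have he : (2.7 : ℝ) < Real.exp 1 := by
    have := Real.exp_one_gt_d9
    linarith
  have h1 : 2 * T ≤ Real.exp (1 + Real.log T) := by
    rw [Real.exp_add, Real.exp_log hT0]
    nlinarith
  have h5 : (56 : ℝ) ≤ Real.exp 5 := by
    have h : Real.exp 5 = (Real.exp 1) ^ 5 := by
      rw [← Real.exp_nat_mul]; norm_num
    rw [h]
    calc (56 : ℝ) ≤ (2.7 : ℝ) ^ 5 := by norm_num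
      _ ≤ (Real.exp 1) ^ 5 := pow_le_pow_left₀ (by norm_num) he.le 5
  have h2 : 56 * T ≤ Real.exp (5 + Real.log T) := by
    rw [Real.exp_add, Real.exp_log hT0]
    nlinarith
  have h3 : C₀ ≤ Real.exp C₀ := by
    have := Real.add_one_le_exp C₀
    linarith
  have e1 : (2 * T) ^ 5 ≤ Real.exp (5 * (1 + Real.log T)) := by
    have := pow_le_pow_left₀ (by positivity) h1 5
    rw [← Real.exp_nat_mul] at this
    simpa using this
  have e2 : C₀ ^ (8 * n) ≤ Real.exp (8 * T * C₀) := by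
    have := pow_le_pow_left₀ (by positivity) h3 (8 * n)
    rw [← Real.exp_nat_mul] at this
    push_cast at this
    rw [hn] at this
    exact this
  have e3 : (56 * T) ^ (2 * n) ≤ Real.exp (2 * T * (5 + Real.log T)) := by
    have := pow_le_pow_left₀ (by positivity) h2 (2 * n)
    rw [← Real.exp_nat_mul] at this
    push_cast at this
    rw [hn] at this
    exact this
  calc (2 * T) ^ 5 * C₀ ^ (8 * n) * ((56 * T) ^ (2 * n) * Real.exp T)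
      ≤ Real.exp (5 * (1 + Real.log T)) * Real.exp (8 * T * C₀) *
        (Real.exp (2 * T * (5 + Real.log T)) * Real.exp T) := by
        gcongr
    _ = Real.exp (5 * (1 + Real.log T) + 8 * T * C₀ + (2 * T * (5 + Real.log T) + T)) := by
        rw [← Real.exp_add, ← Real.exp_add, ← Real.exp_add]
    _ ≤ Real.exp (24 * C₀ * T * (1 + Real.log T)) := by
        apply Real.exp_le_exp.mpr
        have i1 : 5 * (1 + Real.log T) ≤ 5 * (C₀ * T) * (1 + Real.log T) := by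
          have hCT : 1 ≤ C₀ * T := by nlinarith
          have : 0 ≤ (C₀ * T - 1) * (1 + Real.log T) := mul_nonneg (by linarith) (by linarith)
          nlinarith
        have i2 : 8 * T * C₀ ≤ 8 * (C₀ * T) * (1 + Real.log T) := by
          have : 0 ≤ (C₀ * T) * Real.log T := by positivity
          nlinarith
        have i3 : 2 * T * (5 + Real.log T) + T ≤ 11 * (C₀ * T) * (1 + Real.log T) := by
          have j1 : T ≤ C₀ * T := by nlinarith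
          have j2 : 2 * T * (5 + Real.log T) + T ≤ 11 * T * (1 + Real.log T) := by
            have : 0 ≤ T * Real.log T := by positivity
            nlinarith
          have j3 : 0 ≤ (C₀ * T - T) * (1 + Real.log T) := mul_nonneg (by linarith) (by linarith)
          nlinarith
        nlinarith

/-- F2a. PROOF. `siegel` with `x = vA (1/2)`, `y = vB (1/2)` (algebraic by F1d, F1e with `k = 1, a = 1`), `ι = P.box`, `κ = Fin T × Fin T`,
`Ξ (r,s) ν = der₁^[r] (der₂^[s] (Qp P ν))`, which is `Bd (2L + 4T) l H`, `H = (8 (2L + 4T + l))^(2T) A^l ≤ (56 T)^(2T) e^L` (`Bd.Qp`, `Bd.iter` with `r + s ≤ 2T`; `l ≤ L ≤ T`).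
`card κ = T²`, `card ι = (L+1)²(d₁+1)(d₂+1)(d₃+1) ≤ (2T)^5`. `len ≤ (2T)^5 C^(2L+4T+l+1) H ≤ exp(C' T (1 + log T))`. By `dd_FF` (`N0 τ (1/2) ≠ 0`: `th_real_ne`) the derivatives of
`FF` of order `(r,s)`, `r, s < T`, vanish at `(1/2, 1/2)`, and by `GG_zero_of_FF` those of `GG` with `r + s < T`. -/
theorem siegel_step (c₁ c₂ : Cv) (Ω₁ Ω₂ ϑ : ℂ) (h : Hyp c₁ c₂ Ω₁ Ω₂ ϑ) : ∃ C : ℝ, 1 ≤ C ∧ ∀ (P : Pr), P.Good → ∀ T : ℕ, P.L ≤ T →
    C * (T : ℝ) ^ 2 ≤ ((P.L : ℝ) + 1) ^ 2 * (((P.d₁ : ℝ) + 1) * (P.d₂ + 1) * (P.d₃ + 1)) →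
    ∃ p : P.box → Polynomial ℤ, p ≠ 0 ∧ (∀ ν, ((p ν).natDegree : ℝ) ≤ C * P.l) ∧
      (∀ ν, len (p ν) ≤ Real.exp (C * T * (1 + Real.log T))) ∧
      ∀ r s, r + s < T → dd r s (GG c₁ c₂ P (cf ϑ Ω₁ Ω₂ P p)) (1 / 2) (1 / 2) = 0 := by
  have hA : ∀ i, IsAlgebraic ℚ (vA c₁.τ c₂.τ Ω₁ Ω₂ (1 / 2) (1 / 2) i) := by
    intro i
    have := vA_alg c₁.τ c₂.τ Ω₁ Ω₂ h.h₁ h.h₂ 1 1 (by norm_num) i
    simpa using this
  have hB : ∀ j, IsAlgebraic ℚ⟮ϑ⟯ (vB c₁.τ c₂.τ Ω₁ Ω₂ (1 / 2) (1 / 2) j) := by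
    intro j
    have := vB_alg c₁.τ c₂.τ Ω₁ Ω₂ ϑ h.h₁ h.h₂ h.a₁ h.a₂ 1 1 (by norm_num) j
    simpa using this
  obtain ⟨C₀, hC₀, hS⟩ := siegel ϑ h.tr (vA c₁.τ c₂.τ Ω₁ Ω₂ (1 / 2) (1 / 2))
    (vB c₁.τ c₂.τ Ω₁ Ω₂ (1 / 2) (1 / 2)) hA hB
  refine ⟨24 * C₀, by linarith, ?_⟩
  intro P hP T hLT hbig
  have hL1 : (1 : ℝ) ≤ P.L := by exact_mod_cast hP.hL
  have hLT' : (P.L : ℝ) ≤ T := by exact_mod_cast hLT
  have hlL : (P.l : ℝ) ≤ P.L := by exact_mod_cast hP.hl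
  have hl0 : (0 : ℝ) ≤ P.l := by positivity
  have hT1 : (1 : ℝ) ≤ T := by linarith
  have hA2 : (1 : ℝ) ≤ P.A := by
    unfold Pr.A
    have := abs_nonneg (P.a₁ : ℝ)
    have := abs_nonneg (P.a₂ : ℝ)
    have := abs_nonneg (P.b₁ : ℝ)
    have := abs_nonneg (P.b₂ : ℝ)
    linarith
  set B : ℝ := 8 * (((2 * P.L : ℕ) : ℝ) + 2 * ((2 * T : ℕ) : ℝ) + (P.l : ℝ)) with hBdef
  have hB1 : 1 ≤ B := by
    rw [hBdef]; push_cast; linarith
  have hB56 : B ≤ 56 * T := by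
    rw [hBdef]; push_cast; linarith
  have hAl : 1 ≤ P.A ^ P.l := one_le_pow₀ hA2
  have hH1 : 1 ≤ B ^ (2 * T) * P.A ^ P.l := by
    have h1 : 1 ≤ B ^ (2 * T) := one_le_pow₀ hB1
    nlinarith
  obtain ⟨p, hp0, hpd, hpl, hpz⟩ := hS P.box (Fin T × Fin T) (2 * P.L + 2 * (2 * T)) P.l
    (B ^ (2 * T) * P.A ^ P.l) (fun c ν => MSP.der₁^[(c.1 : ℕ)] (MSP.der₂^[(c.2 : ℕ)] (Qp P ν))) hH1
    (by
      intro c ν
      have hc : (c.1 : ℕ) + (c.2 : ℕ) ≤ 2 * T := by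
        have := c.1.isLt
        have := c.2.isLt
        omega
      have hb := Bd.iter (Bd.Qp P ν ν.2) (c.1 : ℕ) (c.2 : ℕ) (2 * T) hc
      refine hb.mono le_rfl le_rfl ?_
      apply mul_le_mul_of_nonneg_right _ (by positivity)
      exact pow_le_pow_right₀ hB1 hc)
    (by
      have : (0 : ℝ) < Fintype.card P.box := by
        rw [f2_card]; positivity
      exact_mod_cast this)
    (by
      rw [f2_card]
      simp only [Fintype.card_prod, Fintype.card_fin]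
      push_cast
      have hTT : 0 ≤ (T : ℝ) ^ 2 := by positivity
      have : C₀ * ((T : ℝ) * T) ≤ 24 * C₀ * (T : ℝ) ^ 2 := by nlinarith
      linarith)
  refine ⟨p, hp0, ?_, ?_, ?_⟩
  · intro ν
    have := hpd ν
    nlinarith
  · intro ν
    refine (hpl ν).trans ?_
    have hd1 : (P.d₁ : ℝ) ≤ P.l := by
      have : P.d₁ ≤ P.l := by unfold Pr.l; omega
      exact_mod_cast this
    have hd2 : (P.d₂ : ℝ) ≤ P.l := by
      have : P.d₂ ≤ P.l := by unfold Pr.l; omega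
      exact_mod_cast this
    have hd3 : (P.d₃ : ℝ) ≤ P.l := by
      have : P.d₃ ≤ P.l := by unfold Pr.l; omega
      exact_mod_cast this
    have hcard : (Fintype.card P.box : ℝ) ≤ (2 * (T : ℝ)) ^ 5 := by
      rw [f2_card]
      have h1 : (P.L : ℝ) + 1 ≤ 2 * (T : ℝ) := by linarith
      have h2 : (P.d₁ : ℝ) + 1 ≤ 2 * (T : ℝ) := by linarith
      have h3 : (P.d₂ : ℝ) + 1 ≤ 2 * (T : ℝ) := by linarith
      have h4 : (P.d₃ : ℝ) + 1 ≤ 2 * (T : ℝ) := by linarith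
      calc ((P.L : ℝ) + 1) ^ 2 * (((P.d₁ : ℝ) + 1) * (P.d₂ + 1) * (P.d₃ + 1))
          ≤ (2 * (T : ℝ)) ^ 2 * ((2 * (T : ℝ)) * (2 * (T : ℝ)) * (2 * (T : ℝ))) := by gcongr
        _ = (2 * (T : ℝ)) ^ 5 := by ring
    have hCp : C₀ ^ (2 * P.L + 2 * (2 * T) + P.l + 1) ≤ C₀ ^ (8 * T) := by
      apply pow_le_pow_right₀ hC₀
      have := hP.hl
      have := hP.hL
      omega
    have hHp : B ^ (2 * T) * P.A ^ P.l ≤ (56 * (T : ℝ)) ^ (2 * T) * Real.exp T := by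
      have h1 : B ^ (2 * T) ≤ (56 * (T : ℝ)) ^ (2 * T) := pow_le_pow_left₀ (by linarith) hB56 _
      have h2 : P.A ^ P.l ≤ Real.exp T := hP.hA.trans (Real.exp_le_exp.mpr hLT')
      exact mul_le_mul h1 h2 (by positivity) (by positivity)
    calc (Fintype.card P.box : ℝ) * C₀ ^ (2 * P.L + 2 * (2 * T) + P.l + 1) * (B ^ (2 * T) * P.A ^ P.l)
        ≤ (2 * (T : ℝ)) ^ 5 * C₀ ^ (8 * T) * ((56 * (T : ℝ)) ^ (2 * T) * Real.exp T) := by
          have h0 : 0 ≤ B ^ (2 * T) * P.A ^ P.l := by linarith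
          have h00 : 0 ≤ C₀ ^ (2 * P.L + 2 * (2 * T) + P.l + 1) := by positivity
          have h000 : 0 ≤ C₀ ^ (8 * T) := by positivity
          exact mul_le_mul (mul_le_mul hcard hCp h00 (by positivity)) hHp h0 (by positivity)
      _ ≤ Real.exp (24 * C₀ * T * (1 + Real.log T)) := f2_exp_bound C₀ T hC₀ hT1 T rfl
  · intro r s hrs
    have hn1 := f2_half_ne c₁.τ c₁.im
    have hn2 := f2_half_ne c₂.τ c₂.im
    refine GG_zero_of_FF c₁ c₂ P (cf ϑ Ω₁ Ω₂ P p) (1 / 2) (1 / 2) hn1 hn2 T ?_ r s hrs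
    intro i j hij
    rw [dd_FF c₁ c₂ h.s₁ h.s₂ ϑ Ω₁ Ω₂ h.h₁.ne h.h₂.ne P p (1 / 2) (1 / 2) hn1 hn2 i j]
    have hz := hpz (⟨i, by omega⟩, ⟨j, by omega⟩)
    simp only [ev]
    rw [hz, mul_zero]

end Pool.Agent.MSP
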