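import Pool.Agent.Lib.MP_f58a57_nt.P.F2c_Core
import Pool.Agent.Lib.MP_f58a57_nt.P.F3_Special
import Pool.Agent.Lib.MP_f58a57_nt.B8_Base

/-! # F4: the theorem (MP_f58a57_nt, pairs) -/

open Complex Filter Topology IntermediateField

noncomputable section

namespace Pool.Agent.MSP

/-- F4. The derivatives of `j` at two inequivalent special points are algebraically independent. -/
theorem pairs (z₁ z₂ : ℂ) (h1 : 0 < z₁.im) (h2 : 0 < z₂.im) (s1 : MSD.IsSpecial z₁) (s2 : MSD.IsSpecial z₂)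
    (hne : ¬ MSD.GEquiv z₁ z₂) (j1 : deriv MSD.jj z₁ ≠ 0) (j2 : deriv MSD.jj z₂ ≠ 0) :
    AlgebraicIndependent ℚ ![deriv MSD.jj z₁, deriv MSD.jj z₂] := by
  by_contra hdep
  obtain ⟨ϑ, htr, ha, hb⟩ := exists_theta _ _ hdep
  obtain ⟨d₁, hd₁, hK₁⟩ := special_KK z₁ h1 s1
  obtain ⟨d₂, hd₂, hK₂⟩ := special_KK z₂ h2 s2
  obtain ⟨Ω₁, hΩ₁⟩ := MSD.cm_base d₁ hd₁
  obtain ⟨Ω₂, hΩ₂⟩ := MSD.cm_base d₂ hd₂
  have H1 := cmd_of_KK d₁ hd₁ Ω₁ hΩ₁ z₁ h1 hK₁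
  have H2 := cmd_of_KK d₂ hd₂ Ω₂ hΩ₂ z₂ h2 hK₂
  obtain ⟨hirr, hsq⟩ := irr_ratio z₁ z₂ h1 h2 d₁ d₂ hd₁ hd₂ hK₁ hK₂ hne
  obtain ⟨α₁, hα₁, e₁⟩ := theta_eq z₁ Ω₁ H1 j1
  obtain ⟨α₂, hα₂, e₂⟩ := theta_eq z₂ Ω₂ H2 j2
  refine core ⟨z₁, sE z₁, h1⟩ ⟨z₂, sE z₂, h2⟩ Ω₁ Ω₂ ϑ ⟨rfl, rfl, H1, H2, htr, ?_, ?_⟩ hirr hsq
  · rw [e₁]
    exact (hα₁.tower_top _).mul ha
  · rw [e₂]
    exact (hα₂.tower_top _).mul hb

/-- F4b. the transcendence degree. -/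
theorem trdeg_ge {n : ℕ} (z : Fin n → ℂ) (hz : ∀ i, 0 < (z i).im) (hs : ∀ i, MSD.IsSpecial (z i))
    (hind : ∀ i j, i ≠ j → ¬ MSD.GEquiv (z i) (z j)) (hj : ∀ i, deriv MSD.jj (z i) ≠ 0) (hn : 2 ≤ n) :
    (2 : Cardinal) ≤ Algebra.trdeg ℚ (IntermediateField.adjoin ℚ
      (⋃ i, {z i, MSD.jj (z i), deriv MSD.jj (z i), deriv (deriv MSD.jj) (z i)} : Set ℂ)) := by
  have h01 : (⟨0, by omega⟩ : Fin n) ≠ ⟨1, by omega⟩ := by simp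
  have key := pairs (z ⟨0, by omega⟩) (z ⟨1, by omega⟩) (hz _) (hz _) (hs _) (hs _) (hind _ _ h01) (hj _) (hj _)
  have mem : ∀ i, deriv MSD.jj (z i) ∈ IntermediateField.adjoin ℚ
      (⋃ i, {z i, MSD.jj (z i), deriv MSD.jj (z i), deriv (deriv MSD.jj) (z i)} : Set ℂ) := fun i =>
    IntermediateField.subset_adjoin _ _ (Set.mem_iUnion.mpr ⟨i, by simp⟩)
  have hx : AlgebraicIndependent ℚ (fun i : Fin 2 => (⟨deriv MSD.jj (z ⟨i, by omega⟩), mem _⟩ : IntermediateField.adjoin ℚ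
      (⋃ i, {z i, MSD.jj (z i), deriv MSD.jj (z i), deriv (deriv MSD.jj) (z i)} : Set ℂ))) := by
    apply AlgebraicIndependent.of_comp (IntermediateField.val _)
    have e : (fun i : Fin 2 => deriv MSD.jj (z ⟨i, by omega⟩)) =
        ![deriv MSD.jj (z ⟨0, by omega⟩), deriv MSD.jj (z ⟨1, by omega⟩)] := by
      funext i
      fin_cases i <;> rfl
    change AlgebraicIndependent ℚ (fun i : Fin 2 => deriv MSD.jj (z ⟨i, by omega⟩))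
    rw [e]
    exact key
  have h2 := hx.cardinalMk_le_trdeg
  simpa using h2

end Pool.Agent.MSP
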