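import Pool.Agent.Lib.MP_f58a57_nt.P.T1_Prod
import Pool.Agent.Lib.MP_f58a57_nt.P.T4_Shift

/-! # G1: the functions `Gs` are entire; behaviour under translations (MP_f58a57_nt, pairs) -/

open Complex Filter Topology

noncomputable section

namespace Pool.Agent.MSP

theorem g1_N0 (c : Cv) (t : ℂ) : AnalyticAt ℂ (N0 c.τ) t := (th_differentiable c.τ c.im).analyticAt t

theorem g1_N1 (c : Cv) (t : ℂ) : AnalyticAt ℂ (N1 c.τ) t := ((th_differentiable c.τ c.im).analyticAt t).deriv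

theorem g1_N2 (c : Cv) (t : ℂ) : AnalyticAt ℂ (N2 c.τ c.s) t := by
  have h0 := (th_differentiable c.τ c.im).analyticAt t
  have h1 := h0.deriv
  have h2 := h1.deriv
  exact ((h1.pow 2).sub (h0.mul h2)).sub (analyticAt_const.mul (h0.pow 2))

theorem g1_mon (c₁ c₂ : Cv) (P : Pr) (k : Fin 3 → ℂ) (ν : ℕ × ℕ × ℕ × ℕ × ℕ) (t w : ℂ) :
    AnalyticAt ℂ (fun p : ℂ × ℂ => Gmon c₁ c₂ P k ν p.1 p.2) (t, w) := by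
  have a0 : AnalyticAt ℂ (fun p : ℂ × ℂ => N0 c₁.τ p.1) (t, w) := (g1_N0 c₁ t).comp_of_eq analyticAt_fst rfl
  have a1 : AnalyticAt ℂ (fun p : ℂ × ℂ => N1 c₁.τ p.1) (t, w) := (g1_N1 c₁ t).comp_of_eq analyticAt_fst rfl
  have a2 : AnalyticAt ℂ (fun p : ℂ × ℂ => N2 c₁.τ c₁.s p.1) (t, w) := (g1_N2 c₁ t).comp_of_eq analyticAt_fst rfl
  have b0 : AnalyticAt ℂ (fun p : ℂ × ℂ => N0 c₂.τ p.2) (t, w) := (g1_N0 c₂ w).comp_of_eq analyticAt_snd rfl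
  have b1 : AnalyticAt ℂ (fun p : ℂ × ℂ => N1 c₂.τ p.2) (t, w) := (g1_N1 c₂ w).comp_of_eq analyticAt_snd rfl
  have b2 : AnalyticAt ℂ (fun p : ℂ × ℂ => N2 c₂.τ c₂.s p.2) (t, w) := (g1_N2 c₂ w).comp_of_eq analyticAt_snd rfl
  have hn : AnalyticAt ℂ (fun p : ℂ × ℂ => N0 c₁.τ p.1 * N0 c₂.τ p.2) (t, w) := a0.mul b0
  have hd : AnalyticAt ℂ (fun p : ℂ × ℂ => p.2 - p.1) (t, w) := analyticAt_snd.sub analyticAt_fst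
  have z1 : AnalyticAt ℂ (fun p : ℂ × ℂ => Z1 c₁ c₂ p.1 p.2) (t, w) := by
    unfold Z1
    exact (a1.mul b0).neg.div_const
  have z2 : AnalyticAt ℂ (fun p : ℂ × ℂ => Z2 c₁ c₂ p.1 p.2) (t, w) := by
    unfold Z2
    exact (a0.mul b1).neg.div_const
  have z3 : AnalyticAt ℂ (fun p : ℂ × ℂ => Z3 c₁ c₂ p.1 p.2) (t, w) := by
    unfold Z3
    exact ((hd.mul hn).sub (analyticAt_const.mul z2)).add (analyticAt_const.mul z1)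
  unfold Gmon
  refine ((((a2.pow _).mul (a0.pow _)).mul ((b2.pow _).mul (b0.pow _))).mul ((((z3.add (analyticAt_const.mul hn)).pow _).mul
    ((((analyticAt_const.mul z1).sub (analyticAt_const.mul z2)).add (analyticAt_const.mul hn)).pow _)).mul
    ((((analyticAt_const.mul z1).add (analyticAt_const.mul z2)).add (analyticAt_const.mul hn)).pow _))).mul (hn.pow _)

/-- G1a. PROOF. `th` is differentiable on `ℂ` (T1), hence analytic, and so are its derivatives (`Differentiable.analyticAt`,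
`AnalyticAt.deriv`); compose with `Prod.fst`, `Prod.snd` and use sums, products, powers of analytic functions (`fun_prop` helps). -/
theorem Gs_an2 (c₁ c₂ : Cv) (P : Pr) (k : Fin 3 → ℂ) (coef : ℕ × ℕ × ℕ × ℕ × ℕ → ℂ) (t w : ℂ) :
    An2 (Gs c₁ c₂ P k coef) t w := by
  unfold An2 Gs
  exact Finset.analyticAt_fun_sum _ fun ν _ => analyticAt_const.mul (g1_mon c₁ c₂ P k ν t w)

theorem GG_an2 (c₁ c₂ : Cv) (P : Pr) (coef : ℕ × ℕ × ℕ × ℕ × ℕ → ℂ) (t w : ℂ) : An2 (GG c₁ c₂ P coef) t w :=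
  Gs_an2 c₁ c₂ P 0 coef t w

theorem g1_Z1 (c₁ c₂ : Cv) (m₁ n₁ m₂ n₂ : ℤ) (t w : ℂ) :
    Z1 c₁ c₂ (t + m₁ + n₁ * c₁.τ) (w + m₂ + n₂ * c₂.τ) =
      (au c₁.τ m₁ n₁ t * au c₂.τ m₂ n₂ w) * (Z1 c₁ c₂ t w + n₁ * (N0 c₁.τ t * N0 c₂.τ w)) := by
  have hpi : (2 * Real.pi * I : ℂ) ≠ 0 := by
    have : (Real.pi : ℂ) ≠ 0 := by exact_mod_cast Real.pi_ne_zero
    simp [this]
  unfold Z1
  rw [N1_shift _ c₁.im, N0_shift _ c₂.im]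
  field_simp
  ring

theorem g1_Z2 (c₁ c₂ : Cv) (m₁ n₁ m₂ n₂ : ℤ) (t w : ℂ) :
    Z2 c₁ c₂ (t + m₁ + n₁ * c₁.τ) (w + m₂ + n₂ * c₂.τ) =
      (au c₁.τ m₁ n₁ t * au c₂.τ m₂ n₂ w) * (Z2 c₁ c₂ t w + n₂ * (N0 c₁.τ t * N0 c₂.τ w)) := by
  have hpi : (2 * Real.pi * I : ℂ) ≠ 0 := by
    have : (Real.pi : ℂ) ≠ 0 := by exact_mod_cast Real.pi_ne_zero
    simp [this]
  unfold Z2
  rw [N1_shift _ c₂.im, N0_shift _ c₁.im]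
  field_simp
  ring

theorem g1_Z3 (c₁ c₂ : Cv) (m₁ n₁ m₂ n₂ : ℤ) (t w : ℂ) :
    Z3 c₁ c₂ (t + m₁ + n₁ * c₁.τ) (w + m₂ + n₂ * c₂.τ) =
      (au c₁.τ m₁ n₁ t * au c₂.τ m₂ n₂ w) * (Z3 c₁ c₂ t w + (m₂ - m₁) * (N0 c₁.τ t * N0 c₂.τ w)) := by
  unfold Z3
  rw [g1_Z1, g1_Z2, N0_shift _ c₁.im, N0_shift _ c₂.im]
  ring

theorem g1_mon_shift (c₁ c₂ : Cv) (P : Pr) (k : Fin 3 → ℂ) (ν : ℕ × ℕ × ℕ × ℕ × ℕ) (hν : ν ∈ P.box) (m₁ n₁ m₂ n₂ : ℤ) (t w : ℂ) :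
    Gmon c₁ c₂ P k ν (t + m₁ + n₁ * c₁.τ) (w + m₂ + n₂ * c₂.τ) =
      (au c₁.τ m₁ n₁ t * au c₂.τ m₂ n₂ w) ^ P.M *
        Gmon c₁ c₂ P (k + ![(m₂ : ℂ) - m₁, P.b₂ * n₁ - P.b₁ * n₂, P.a₁ * n₁ + P.a₂ * n₂]) ν t w := by
  obtain ⟨a, b, x, y, z⟩ := ν
  simp only [Pr.box, Finset.mem_product, Finset.mem_range] at hν
  obtain ⟨ha, hb, hx, hy, hz⟩ := hν
  obtain ⟨a', ha'⟩ : ∃ a', P.L = a + a' := ⟨P.L - a, by omega⟩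
  obtain ⟨b', hb'⟩ : ∃ b', P.L = b + b' := ⟨P.L - b, by omega⟩
  obtain ⟨l', hl'⟩ : ∃ l', P.l = x + y + z + l' := ⟨P.l - (x + y + z), by unfold Pr.l; omega⟩
  have e1 : P.L - a = a' := by omega
  have e2 : P.L - b = b' := by omega
  have e3 : P.l - (x + y + z) = l' := by omega
  have hM : P.M = 2 * P.L + P.l := rfl
  set A := au c₁.τ m₁ n₁ t with hA
  set B := au c₂.τ m₂ n₂ w with hB
  set U := N0 c₁.τ t * N0 c₂.τ w with hU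
  have hN : N0 c₁.τ (t + m₁ + n₁ * c₁.τ) * N0 c₂.τ (w + m₂ + n₂ * c₂.τ) = (A * B) * U := by
    rw [N0_shift _ c₁.im, N0_shift _ c₂.im]
    ring
  unfold Gmon
  simp only [e1, e2, e3]
  rw [hN, g1_Z1, g1_Z2, g1_Z3, ← hA, ← hB, ← hU, N2_shift _ _ c₁.im, N2_shift _ _ c₂.im, N0_shift _ c₁.im, N0_shift _ c₂.im,
    ← hA, ← hB]
  have f0 : (k + ![(m₂ : ℂ) - m₁, P.b₂ * n₁ - P.b₁ * n₂, P.a₁ * n₁ + P.a₂ * n₂]) 0 = k 0 + (m₂ - m₁) := by simp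
  have f1 : (k + ![(m₂ : ℂ) - m₁, P.b₂ * n₁ - P.b₁ * n₂, P.a₁ * n₁ + P.a₂ * n₂]) 1 = k 1 + (P.b₂ * n₁ - P.b₁ * n₂) := by simp
  have f2 : (k + ![(m₂ : ℂ) - m₁, P.b₂ * n₁ - P.b₁ * n₂, P.a₁ * n₁ + P.a₂ * n₂]) 2 = k 2 + (P.a₁ * n₁ + P.a₂ * n₂) := by simp
  rw [f0, f1, f2]
  have g1 : A * B * (Z3 c₁ c₂ t w + (m₂ - m₁) * U) + k 0 * (A * B * U) =
      (A * B) * (Z3 c₁ c₂ t w + (k 0 + (m₂ - m₁)) * U) := by ring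
  have g2 : P.b₂ * (A * B * (Z1 c₁ c₂ t w + n₁ * U)) - P.b₁ * (A * B * (Z2 c₁ c₂ t w + n₂ * U)) + k 1 * (A * B * U) =
      (A * B) * (P.b₂ * Z1 c₁ c₂ t w - P.b₁ * Z2 c₁ c₂ t w + (k 1 + (P.b₂ * n₁ - P.b₁ * n₂)) * U) := by ring
  have g3 : P.a₁ * (A * B * (Z1 c₁ c₂ t w + n₁ * U)) + P.a₂ * (A * B * (Z2 c₁ c₂ t w + n₂ * U)) + k 2 * (A * B * U) =
      (A * B) * (P.a₁ * Z1 c₁ c₂ t w + P.a₂ * Z2 c₁ c₂ t w + (k 2 + (P.a₁ * n₁ + P.a₂ * n₂)) * U) := by ring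
  rw [g1, g2, g3]
  simp only [mul_pow]
  have hMA : A ^ P.M = (A ^ 2) ^ a * A ^ (2 * a') * (A ^ x * A ^ y * A ^ z) * A ^ l' := by
    rw [hM, hl', ha', ← pow_mul, ← pow_add, ← pow_add, ← pow_add, ← pow_add, ← pow_add]
    congr 1
    ring
  have hMB : B ^ P.M = (B ^ 2) ^ b * B ^ (2 * b') * (B ^ x * B ^ y * B ^ z) * B ^ l' := by
    rw [hM, hl', hb', ← pow_mul, ← pow_add, ← pow_add, ← pow_add, ← pow_add, ← pow_add]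
    congr 1
    ring
  rw [hMA, hMB]
  generalize (Z3 c₁ c₂ t w + (k 0 + (m₂ - m₁)) * U) ^ x = X1
  generalize (P.b₂ * Z1 c₁ c₂ t w - P.b₁ * Z2 c₁ c₂ t w + (k 1 + (P.b₂ * n₁ - P.b₁ * n₂)) * U) ^ y = X2
  generalize (P.a₁ * Z1 c₁ c₂ t w + P.a₂ * Z2 c₁ c₂ t w + (k 2 + (P.a₁ * n₁ + P.a₂ * n₂)) * U) ^ z = X3
  ring

/-- G1b. PROOF. By T4: `Z1(t',w') = au₁ au₂ (Z1 + n₁ N0 N0)`, `Z2(t',w') = au₁ au₂ (Z2 + n₂ N0 N0)`,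
`Z3(t',w') = au₁ au₂ (Z3 + (m₂ - m₁) N0 N0)` where `t' = t + m₁ + n₁τ₁`, `w' = w + m₂ + n₂τ₂`, `au₁ = au τ₁ m₁ n₁ t`, `au₂ = au τ₂ m₂ n₂ w`. In each
monomial (`ν ∈ P.box`, so `ν.1 ≤ L`, `ν.2.1 ≤ L`, `κ₁+κ₂+κ₃ ≤ l`) the exponents of `au₁` and `au₂` add up to `M = 2L + l`. -/
theorem Gs_shift (c₁ c₂ : Cv) (P : Pr) (k : Fin 3 → ℂ) (coef : ℕ × ℕ × ℕ × ℕ × ℕ → ℂ) (m₁ n₁ m₂ n₂ : ℤ) (t w : ℂ) :
    Gs c₁ c₂ P k coef (t + m₁ + n₁ * c₁.τ) (w + m₂ + n₂ * c₂.τ) =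
      (au c₁.τ m₁ n₁ t * au c₂.τ m₂ n₂ w) ^ P.M *
        Gs c₁ c₂ P (k + ![(m₂ : ℂ) - m₁, P.b₂ * n₁ - P.b₁ * n₂, P.a₁ * n₁ + P.a₂ * n₂]) coef t w := by
  unfold Gs
  rw [Finset.mul_sum]
  refine Finset.sum_congr rfl fun ν hν => ?_
  rw [g1_mon_shift c₁ c₂ P k ν hν]
  ring

/-- G1c. PROOF. `Gs_shift` with `m₁ = m₂ = 1`, `n₁ = n₂ = 0`; `au τ 1 0 t = -1`. -/
theorem GG_period (c₁ c₂ : Cv) (P : Pr) (coef : ℕ × ℕ × ℕ × ℕ × ℕ → ℂ) (t w : ℂ) :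
    GG c₁ c₂ P coef (t + 1) (w + 1) = GG c₁ c₂ P coef t w := by
  have h := Gs_shift c₁ c₂ P 0 coef 1 0 1 0 t w
  have ha : ∀ (τ t : ℂ), au τ 1 0 t = -1 := by
    intro τ t
    unfold au
    simp
  have hk : (0 : Fin 3 → ℂ) + ![((1 : ℤ) : ℂ) - ((1 : ℤ) : ℂ), P.b₂ * ((0 : ℤ) : ℂ) - P.b₁ * ((0 : ℤ) : ℂ),
      P.a₁ * ((0 : ℤ) : ℂ) + P.a₂ * ((0 : ℤ) : ℂ)] = 0 := by
    funext i
    fin_cases i <;> simp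
  rw [hk, ha, ha] at h
  unfold GG
  have h1 : t + ((1 : ℤ) : ℂ) + ((0 : ℤ) : ℂ) * c₁.τ = t + 1 := by push_cast; ring
  have h2 : w + ((1 : ℤ) : ℂ) + ((0 : ℤ) : ℂ) * c₂.τ = w + 1 := by push_cast; ring
  rw [h1, h2] at h
  rw [h]
  norm_num

/-- G1d. PROOF. `gm G m (t+1)`: `GG (t+1) w' = GG t (w' - 1)`, `iteratedDeriv_comp_add_const` or `iteratedDeriv_comp_sub_const`. -/
theorem gm_period (c₁ c₂ : Cv) (P : Pr) (coef : ℕ × ℕ × ℕ × ℕ × ℕ → ℂ) (m : ℕ) (t : ℂ) :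
    gm (GG c₁ c₂ P coef) m (t + 1) = gm (GG c₁ c₂ P coef) m t := by
  unfold gm
  have h : GG c₁ c₂ P coef (t + 1) = fun w => GG c₁ c₂ P coef t (w + (-1)) := by
    funext w
    rw [← GG_period c₁ c₂ P coef t (w + (-1))]
    congr 1
    ring
  rw [h, iteratedDeriv_comp_add_const]
  simp

end Pool.Agent.MSP
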