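import Pool.Agent.Lib.MP_f58a57_nt.P.V2_Diag

/-! # V3: Taylor coefficients along the diagonal (MP_f58a57_nt, pairs) -/

open Complex Filter Topology

noncomputable section

namespace Pool.Agent.MSP

variable {G : ℂ → ℂ → ℂ}

theorem v3_pascal (a : ℕ → ℂ) (i : ℕ) :
    ∑ l ∈ Finset.range (i + 1), (i.choose l : ℂ) * (a (l + 1) + a l) =
      ∑ l ∈ Finset.range (i + 1 + 1), ((i + 1).choose l : ℂ) * a l := by
  rw [Finset.sum_range_succ' (fun l => ((i + 1).choose l : ℂ) * a l) (i + 1)]
  have h1 : ∀ l ∈ Finset.range (i + 1), (((i + 1).choose (l + 1) : ℕ) : ℂ) * a (l + 1)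
      = (i.choose l : ℂ) * a (l + 1) + (i.choose (l + 1) : ℂ) * a (l + 1) := by
    intro l _
    rw [Nat.choose_succ_succ]
    push_cast
    ring
  rw [Finset.sum_congr rfl h1, Finset.sum_add_distrib]
  have h2 : ∑ l ∈ Finset.range (i + 1), (i.choose (l + 1) : ℂ) * a (l + 1) + ((i + 1).choose 0 : ℂ) * a 0
      = ∑ l ∈ Finset.range (i + 1), (i.choose l : ℂ) * a l := by
    have h3 := Finset.sum_range_succ' (fun l => (i.choose l : ℂ) * a l) (i + 1)
    have h4 := Finset.sum_range_succ (fun l => (i.choose l : ℂ) * a l) (i + 1)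
    rw [Nat.choose_eq_zero_of_lt (Nat.lt_succ_self i)] at h4
    simp only [Nat.choose_zero_right, Nat.cast_zero, zero_mul, add_zero] at h3 h4 ⊢
    rw [← h4, h3]
  rw [add_assoc, h2, ← Finset.sum_add_distrib]
  refine Finset.sum_congr rfl fun l _ => ?_
  ring

theorem gm_eq (m : ℕ) (t : ℂ) : gm G m t = dd 0 m G t t / (m.factorial : ℂ) := by
  unfold gm dd
  rw [iteratedDeriv_zero]

/-- V3a. -/
theorem gm_differentiable (hG : ∀ t w, An2 G t w) (m : ℕ) : Differentiable ℂ (gm G m) := by
  intro t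
  have h1 : gm G m = fun t => dd 0 m G t t / (m.factorial : ℂ) := by
    funext t
    exact gm_eq m t
  rw [h1]
  exact (deriv_dd_diag hG 0 m t).differentiableAt.div_const _

/-- V3b. PROOF. Induction on `i` from V2c (Pascal's rule). -/
theorem iteratedDeriv_diag (hG : ∀ t w, An2 G t w) (i r m : ℕ) (t : ℂ) :
    iteratedDeriv i (fun t' => dd r m G t' t') t =
      ∑ l ∈ Finset.range (i + 1), (i.choose l : ℂ) * dd (r + l) (m + i - l) G t t := by
  induction i generalizing t with
  | zero => simp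
  | succ i ih =>
    rw [iteratedDeriv_succ]
    have h1 : iteratedDeriv i (fun t' => dd r m G t' t') = fun t =>
        ∑ l ∈ Finset.range (i + 1), (i.choose l : ℂ) * dd (r + l) (m + i - l) G t t := by
      funext t
      exact ih t
    rw [h1]
    have h2 : HasDerivAt (fun t => ∑ l ∈ Finset.range (i + 1), (i.choose l : ℂ) * dd (r + l) (m + i - l) G t t)
        (∑ l ∈ Finset.range (i + 1), (i.choose l : ℂ) *
          (dd (r + l + 1) (m + i - l) G t t + dd (r + l) (m + i - l + 1) G t t)) t := by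
      refine HasDerivAt.fun_sum fun l _ => ?_
      exact (deriv_dd_diag hG (r + l) (m + i - l) t).const_mul _
    rw [h2.deriv, ← v3_pascal (fun l => dd (r + l) (m + (i + 1) - l) G t t) i]
    refine Finset.sum_congr rfl fun l hl => ?_
    rw [Finset.mem_range] at hl
    have e1 : m + (i + 1) - (l + 1) = m + i - l := by omega
    have e2 : m + (i + 1) - l = m + i - l + 1 := by omega
    rw [e1, e2, ← add_assoc]

theorem v3_hasDerivAt (hG : ∀ t w, An2 G t w) (i r m : ℕ) (t : ℂ) :
    HasDerivAt (iteratedDeriv i (fun t' => dd r m G t' t')) (iteratedDeriv (i + 1) (fun t' => dd r m G t' t') t) t := by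
  have h1 : iteratedDeriv i (fun t' => dd r m G t' t') = fun t =>
        ∑ l ∈ Finset.range (i + 1), (i.choose l : ℂ) * dd (r + l) (m + i - l) G t t := by
    funext t
    exact iteratedDeriv_diag hG i r m t
  rw [iteratedDeriv_succ]
  have h2 : DifferentiableAt ℂ (iteratedDeriv i (fun t' => dd r m G t' t')) t := by
    rw [h1]
    refine DifferentiableAt.fun_sum fun l _ => ?_
    exact (deriv_dd_diag hG (r + l) (m + i - l) t).differentiableAt.const_mul _
  exact h2.hasDerivAt

/-- V3c. PROOF. Induction on `r`: `dd (r+1) s G t t = (d/dt)[dd r s G t t] - dd r (s+1) G t t` (V2c) and Pascal's rule. -/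
theorem dd_eq_sum (hG : ∀ t w, An2 G t w) (r s : ℕ) (t : ℂ) :
    dd r s G t t = ∑ l ∈ Finset.range (r + 1), (r.choose l : ℂ) * (-1) ^ (r - l) *
      iteratedDeriv l (fun t' => dd 0 (s + r - l) G t' t') t := by
  induction r generalizing s t with
  | zero => simp
  | succ r ih =>
    have h1 : (fun t => dd r s G t t) = fun t => ∑ l ∈ Finset.range (r + 1), (r.choose l : ℂ) * (-1) ^ (r - l) *
      iteratedDeriv l (fun t' => dd 0 (s + r - l) G t' t') t := by
      funext t
      exact ih s t
    have h2 := deriv_dd_diag hG r s t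
    rw [h1] at h2
    have h3 : HasDerivAt (fun t => ∑ l ∈ Finset.range (r + 1), (r.choose l : ℂ) * (-1) ^ (r - l) *
      iteratedDeriv l (fun t' => dd 0 (s + r - l) G t' t') t)
      (∑ l ∈ Finset.range (r + 1), (r.choose l : ℂ) * (-1) ^ (r - l) *
      iteratedDeriv (l + 1) (fun t' => dd 0 (s + r - l) G t' t') t) t := by
      refine HasDerivAt.fun_sum fun l _ => ?_
      exact (v3_hasDerivAt hG l 0 (s + r - l) t).const_mul _
    have h4 := h2.unique h3
    have h5 := ih (s + 1) t
    have h6 : dd (r + 1) s G t t = ∑ l ∈ Finset.range (r + 1), (r.choose l : ℂ) * (-1) ^ (r - l) *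
      iteratedDeriv (l + 1) (fun t' => dd 0 (s + r - l) G t' t') t -
      ∑ l ∈ Finset.range (r + 1), (r.choose l : ℂ) * (-1) ^ (r - l) *
      iteratedDeriv l (fun t' => dd 0 (s + 1 + r - l) G t' t') t := by
      rw [← h4, ← h5]
      ring
    have h7 := v3_pascal (fun l => (-1) ^ (r + 1 - l) * iteratedDeriv l (fun t' => dd 0 (s + (r + 1) - l) G t' t') t) r
    have h8 : ∑ l ∈ Finset.range (r + 1 + 1), ((r + 1).choose l : ℂ) * (-1) ^ (r + 1 - l) *
      iteratedDeriv l (fun t' => dd 0 (s + (r + 1) - l) G t' t') t = ∑ l ∈ Finset.range (r + 1 + 1), ((r + 1).choose l : ℂ) * ((-1) ^ (r + 1 - l) *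
      iteratedDeriv l (fun t' => dd 0 (s + (r + 1) - l) G t' t') t) := by
      refine Finset.sum_congr rfl fun l _ => ?_
      ring
    rw [h8, ← h7, h6, ← Finset.sum_sub_distrib]
    refine Finset.sum_congr rfl fun l hl => ?_
    rw [Finset.mem_range] at hl
    have e1 : r + 1 - (l + 1) = r - l := by omega
    have e2 : s + (r + 1) - (l + 1) = s + r - l := by omega
    have e3 : s + 1 + r - l = s + (r + 1) - l := by omega
    have e4 : r + 1 - l = r - l + 1 := by omega
    rw [e1, e2, e3, e4, pow_succ]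
    ring

/-- V3d. PROOF. By V3b all derivatives of `gm G m` of order `< T - m` vanish at `t₀`; `gm G m` is analytic;
`natCast_le_analyticOrderAt_iff_iteratedDeriv_eq_zero` or similar. -/
theorem order_gm (hG : ∀ t w, An2 G t w) (t₀ : ℂ) (T : ℕ) (h : ∀ r s, r + s < T → dd r s G t₀ t₀ = 0) (m : ℕ) :
    ((T - m : ℕ) : ℕ∞) ≤ analyticOrderAt (gm G m) t₀ := by
  rw [natCast_le_analyticOrderAt_iff_iteratedDeriv_eq_zero ((gm_differentiable hG m).analyticAt t₀)]
  intro i hi
  have h1 : gm G m = fun t => ((m.factorial : ℂ)⁻¹) * (dd 0 m G t t) := by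
    funext t
    rw [gm_eq, div_eq_inv_mul]
  rw [h1, iteratedDeriv_const_mul_field, iteratedDeriv_diag hG]
  rw [Finset.sum_eq_zero, mul_zero]
  intro l hl
  rw [Finset.mem_range] at hl
  rw [h _ _ (by omega), mul_zero]

/-- V3e. Taylor series of the entire function `z ↦ G t (t + z)`. -/
theorem hasSum_gm (hG : ∀ t w, An2 G t w) (t z : ℂ) : HasSum (fun m => gm G m t * z ^ m) (G t (t + z)) := by
  have h1 : Differentiable ℂ (G t) := by
    intro w
    have h2 : AnalyticAt ℂ (fun p : ℂ × ℂ => G p.1 p.2) (t, w) := hG t w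
    have h3 : DifferentiableAt ℂ (fun w' : ℂ => ((t, w') : ℂ × ℂ)) w :=
      (differentiableAt_const t).prodMk differentiableAt_id
    exact DifferentiableAt.comp (g := fun p : ℂ × ℂ => G p.1 p.2) w h2.differentiableAt h3
  have h2 := Complex.hasSum_taylorSeries_of_entire h1 t (t + z)
  have h3 : (fun m => ((m.factorial : ℂ))⁻¹ • (t + z - t) ^ m • iteratedDeriv m (G t) t) = fun m => gm G m t * z ^ m := by
    funext m
    rw [add_sub_cancel_left, smul_eq_mul, smul_eq_mul, gm, div_eq_mul_inv]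
    ring
  rw [h3] at h2
  exact h2

end Pool.Agent.MSP
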