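import Pool.Agent.Lib.MP_f58a57_nt.P.G1_Entire
import Pool.Agent.Lib.MP_f58a57_nt.P.T5_Growth
import Pool.Agent.Lib.MP_f58a57_nt.P.V3_Diag

/-! # G3: growth of `Gs` (MP_f58a57_nt, pairs) -/

open Complex Filter Topology

noncomputable section

namespace Pool.Agent.MSP

private lemma g3_ar (u v A κ : ℝ) (h : u + v ≤ A - 2) (hA : 2 ≤ A) (hκ : 1 ≤ κ) :
    u + v + κ ≤ A * κ := by
  have h1 : 0 ≤ (A - 1) * (κ - 1) := mul_nonneg (by linarith) (by linarith)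
  have h2 : (A - 1) * (κ - 1) = A * κ - A - κ + 1 := by ring
  linarith

private lemma g3_ar2 (C L x y : ℝ) (h6 : 0 ≤ C * L) (hL : 0 ≤ L) (h : y ^ 2 ≤ 2 * x ^ 2 + 2) :
    C * L * (1 + x ^ 2 + y ^ 2) + L ≤ (3 * C + 1) * L * (1 + x ^ 2) := by
  have h1 : 0 ≤ C * L * (2 * x ^ 2 + 2 - y ^ 2) := mul_nonneg h6 (by linarith)
  have h2 : 0 ≤ L * x ^ 2 := mul_nonneg hL (sq_nonneg x)
  linarith

private lemma g3_prod {E F : ℝ} (hE : 1 ≤ E) (hF : 0 ≤ F) {x1 x2 x3 x4 y1 y2 y3 y4 : ℝ}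
    (hx1 : 0 ≤ x1) (hx2 : 0 ≤ x2) (hx3 : 0 ≤ x3) (hx4 : 0 ≤ x4) (hy1 : 0 ≤ y1) (hy2 : 0 ≤ y2)
    (hy3 : 0 ≤ y3) (hy4 : 0 ≤ y4) (kx1 : x1 ≤ E) (kx2 : x2 ≤ E) (kx3 : x3 ≤ E) (kx4 : x4 ≤ E)
    (ky1 : y1 ≤ F) (ky2 : y2 ≤ F) (ky3 : y3 ≤ F) (ky4 : y4 ≤ F) {a b p q r L l : ℕ} (ha : a < L + 1)
    (hb : b < L + 1) (hk : p + q + r ≤ l) :
    x1 ^ a * x2 ^ (2 * (L - a)) * (x3 ^ b * x4 ^ (2 * (L - b))) * (y1 ^ p * y2 ^ q * y3 ^ r) *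
      y4 ^ (l - (p + q + r)) ≤ E ^ (2 * L) * E ^ (2 * L) * F ^ l := by
  have hE0 : (0 : ℝ) ≤ E := zero_le_one.trans hE
  have key : ∀ {x x' : ℝ} (_ : 0 ≤ x) (_ : 0 ≤ x') (_ : x ≤ E) (_ : x' ≤ E) {a : ℕ} (_ : a < L + 1),
      x ^ a * x' ^ (2 * (L - a)) ≤ E ^ (2 * L) := by
    intro x x' h0 h0' h h' a ha
    calc x ^ a * x' ^ (2 * (L - a)) ≤ E ^ a * E ^ (2 * (L - a)) :=
          mul_le_mul (pow_le_pow_left₀ h0 h _) (pow_le_pow_left₀ h0' h' _) (pow_nonneg h0' _)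
            (pow_nonneg hE0 _)
      _ = E ^ (a + 2 * (L - a)) := (pow_add _ _ _).symm
      _ ≤ E ^ (2 * L) := pow_le_pow_right₀ hE (by omega)
  have e : F ^ l = F ^ p * F ^ q * F ^ r * F ^ (l - (p + q + r)) := by
    rw [← pow_add, ← pow_add, ← pow_add, Nat.add_sub_cancel' hk]
  rw [mul_assoc, e]
  refine mul_le_mul (mul_le_mul (key hx1 hx2 kx1 kx2 ha) (key hx3 hx4 kx3 kx4 hb)
    (mul_nonneg (pow_nonneg hx3 _) (pow_nonneg hx4 _)) (pow_nonneg hE0 _)) ?_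
    (mul_nonneg (mul_nonneg (mul_nonneg (pow_nonneg hy1 _) (pow_nonneg hy2 _))
      (pow_nonneg hy3 _)) (pow_nonneg hy4 _)) (mul_nonneg (pow_nonneg hE0 _) (pow_nonneg hE0 _))
  refine mul_le_mul (mul_le_mul (mul_le_mul (pow_le_pow_left₀ hy1 ky1 _) (pow_le_pow_left₀ hy2 ky2 _)
    (pow_nonneg hy2 _) (pow_nonneg hF _)) (pow_le_pow_left₀ hy3 ky3 _) (pow_nonneg hy3 _)
    (mul_nonneg (pow_nonneg hF _) (pow_nonneg hF _))) (pow_le_pow_left₀ hy4 ky4 _)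
    (pow_nonneg hy4 _) (mul_nonneg (mul_nonneg (pow_nonneg hF _) (pow_nonneg hF _))
      (pow_nonneg hF _))

private lemma g3_fin {E C A X x : ℝ} (hE : 1 ≤ E) (hC : 1 ≤ C) (hA0 : 0 ≤ A) (hX : 0 ≤ X)
    {L l : ℕ} (hl : l ≤ L) (hA : A ^ l ≤ x) :
    E ^ (2 * L) * E ^ (2 * L) * (E ^ 2 * (C * A) * X) ^ l ≤
      E ^ (6 * L) * (C ^ L * x) * X ^ l := by
  have hE0 : (0 : ℝ) ≤ E := zero_le_one.trans hE
  have hC0 : (0 : ℝ) ≤ C := zero_le_one.trans hC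
  have h1 : E ^ (2 * l) ≤ E ^ (2 * L) := pow_le_pow_right₀ hE (by omega)
  have h2 : C ^ l ≤ C ^ L := pow_le_pow_right₀ hC hl
  have e : E ^ (6 * L) = E ^ (2 * L) * E ^ (2 * L) * E ^ (2 * L) := by
    rw [← pow_add, ← pow_add]; congr 1; omega
  calc E ^ (2 * L) * E ^ (2 * L) * (E ^ 2 * (C * A) * X) ^ l
      = E ^ (2 * L) * E ^ (2 * L) * (E ^ (2 * l) * (C ^ l * A ^ l) * X ^ l) := by
        rw [mul_pow, mul_pow, mul_pow, ← pow_mul]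
    _ ≤ E ^ (2 * L) * E ^ (2 * L) * (E ^ (2 * L) * (C ^ L * x) * X ^ l) :=
        mul_le_mul_of_nonneg_left (mul_le_mul_of_nonneg_right
          (mul_le_mul h1 (mul_le_mul h2 hA (pow_nonneg hA0 _) (pow_nonneg hC0 _))
            (mul_nonneg (pow_nonneg hC0 _) (pow_nonneg hA0 _)) (pow_nonneg hE0 _))
          (pow_nonneg hX _)) (mul_nonneg (pow_nonneg hE0 _) (pow_nonneg hE0 _))
    _ = _ := by rw [e]; simp only [mul_assoc]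

private lemma g3_z3 {E2 a b n κ A : ℝ} (hE : 0 ≤ E2) (ha : 0 ≤ a) (hb : 0 ≤ b) (hn : 0 ≤ n)
    (hκ : 1 ≤ κ) (hA : 2 ≤ A) :
    n * E2 + b * E2 + a * E2 + κ * E2 ≤ E2 * ((1 + a + b) * A) * (κ + n) := by
  have hX : 0 ≤ κ + n - 1 := by linarith
  have h1 : n + b + a + κ ≤ (1 + a + b) * (κ + n) := by
    have h1 := mul_nonneg ha hX
    have h2 := mul_nonneg hb hX
    linarith
  have h2 : (1 + a + b) * (κ + n) ≤ (1 + a + b) * A * (κ + n) :=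
    mul_le_mul_of_nonneg_right (le_mul_of_one_le_right (by linarith) (by linarith)) (by linarith)
  calc n * E2 + b * E2 + a * E2 + κ * E2 = E2 * (n + b + a + κ) := by ring
    _ ≤ E2 * ((1 + a + b) * A * (κ + n)) := mul_le_mul_of_nonneg_left (h1.trans h2) hE
    _ = _ := by ring

private lemma g3_lin {E2 a b n κ A u v : ℝ} (hE : 0 ≤ E2) (ha : 0 ≤ a) (hb : 0 ≤ b) (hn : 0 ≤ n)
    (hκ : 1 ≤ κ) (hA : 2 ≤ A) (h : u + v ≤ A - 2) :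
    u * E2 + v * E2 + κ * E2 ≤ E2 * ((1 + a + b) * A) * (κ + n) := by
  have h1 := g3_ar u v A κ h hA hκ
  have h2 : A * κ ≤ (1 + a + b) * A * (κ + n) :=
    mul_le_mul (le_mul_of_one_le_left (by linarith) (by linarith)) (by linarith) (by linarith)
      (mul_nonneg (by linarith) (by linarith))
  calc u * E2 + v * E2 + κ * E2 = E2 * (u + v + κ) := by ring
    _ ≤ E2 * ((1 + a + b) * A * (κ + n)) := mul_le_mul_of_nonneg_left (h1.trans h2) hE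
    _ = _ := by ring

private lemma g3_A (P : Pr) : 2 ≤ P.A ∧ |(P.b₂ : ℝ)| + |(P.b₁ : ℝ)| ≤ P.A - 2 ∧
    |(P.a₁ : ℝ)| + |(P.a₂ : ℝ)| ≤ P.A - 2 := by
  unfold Pr.A
  have h1 := abs_nonneg (P.a₁ : ℝ)
  have h2 := abs_nonneg (P.a₂ : ℝ)
  have h3 := abs_nonneg (P.b₁ : ℝ)
  have h4 := abs_nonneg (P.b₂ : ℝ)
  exact ⟨by linarith, by linarith, by linarith⟩

private lemma g3_div {x y E : ℝ} (hE : 0 ≤ E) (hx : 0 ≤ x) (h1 : x ≤ E)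
    (h2 : 0 ≤ y) (h3 : y ≤ E) : x * y / (2 * Real.pi) ≤ E ^ 2 := by
  have hpi : 1 ≤ 2 * Real.pi := by have := Real.pi_gt_three; linarith
  have h : x * y ≤ E ^ 2 := by rw [sq]; exact mul_le_mul h1 h3 h2 hE
  exact (div_le_self (mul_nonneg hx h2) hpi).trans h

/-- the bound for one monomial -/
theorem g3_mon (c₁ c₂ : Cv) (P : Pr) (hP : P.Good) (κ₀ : ℝ) (k : Fin 3 → ℂ) (hκ : 1 ≤ κ₀)
    (hk : ∀ i, ‖k i‖ ≤ κ₀) (ν : ℕ × ℕ × ℕ × ℕ × ℕ) (hν : ν ∈ P.box) (t w : ℂ) (E : ℝ) (hE : 1 ≤ E)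
    (h0t : ‖N0 c₁.τ t‖ ≤ E) (h1t : ‖N1 c₁.τ t‖ ≤ E) (h2t : ‖N2 c₁.τ c₁.s t‖ ≤ E)
    (h0w : ‖N0 c₂.τ w‖ ≤ E) (h1w : ‖N1 c₂.τ w‖ ≤ E) (h2w : ‖N2 c₂.τ c₂.s w‖ ≤ E) :
    ‖Gmon c₁ c₂ P k ν t w‖ ≤ E ^ (6 * P.L) * ((1 + ‖c₁.τ‖ + ‖c₂.τ‖) ^ P.L * Real.exp P.L) *
      (κ₀ + ‖w - t‖) ^ P.l := by
  have hE0 : (0 : ℝ) ≤ E := zero_le_one.trans hE
  have hE2 : 0 ≤ E ^ 2 := pow_nonneg hE0 2
  obtain ⟨hA2, hAb, hAa⟩ := g3_A P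
  simp only [Pr.box, Finset.mem_product, Finset.mem_range] at hν
  obtain ⟨hν1, hν2, hκ1, hκ2, hκ3⟩ := hν
  have hw0 : 0 ≤ ‖w - t‖ := norm_nonneg _
  have h10 : 0 ≤ ‖c₁.τ‖ := norm_nonneg _
  have h20 : 0 ≤ ‖c₂.τ‖ := norm_nonneg _
  have h2pi : ‖(2 * Real.pi * I : ℂ)‖ = 2 * Real.pi := by
    simp [abs_of_pos Real.pi_pos]
  have hnn : ‖N0 c₁.τ t * N0 c₂.τ w‖ ≤ E ^ 2 := by
    rw [norm_mul, sq]
    exact mul_le_mul h0t h0w (norm_nonneg _) hE0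
  have hZ1 : ‖Z1 c₁ c₂ t w‖ ≤ E ^ 2 := by
    unfold Z1
    rw [norm_div, norm_neg, norm_mul, h2pi]
    exact g3_div hE0 (norm_nonneg _) h1t (norm_nonneg _) h0w
  have hZ2 : ‖Z2 c₁ c₂ t w‖ ≤ E ^ 2 := by
    unfold Z2
    rw [norm_div, norm_neg, norm_mul, h2pi]
    exact g3_div hE0 (norm_nonneg _) h0t (norm_nonneg _) h1w
  have hk' : ∀ i, ‖k i * (N0 c₁.τ t * N0 c₂.τ w)‖ ≤ κ₀ * E ^ 2 := fun i => by
    rw [norm_mul]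
    exact mul_le_mul (hk i) hnn (norm_nonneg _) (zero_le_one.trans hκ)
  have hX3 : ‖Z3 c₁ c₂ t w + k 0 * (N0 c₁.τ t * N0 c₂.τ w)‖ ≤
      E ^ 2 * ((1 + ‖c₁.τ‖ + ‖c₂.τ‖) * P.A) * (κ₀ + ‖w - t‖) := by
    refine le_trans ?_ (g3_z3 hE2 h10 h20 hw0 hκ hA2)
    have h1 : ‖(w - t) * (N0 c₁.τ t * N0 c₂.τ w)‖ ≤ ‖w - t‖ * E ^ 2 :=
      (norm_mul _ _).trans_le (mul_le_mul_of_nonneg_left hnn hw0)
    have h2 : ‖c₂.τ * Z2 c₁ c₂ t w‖ ≤ ‖c₂.τ‖ * E ^ 2 :=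
      (norm_mul _ _).trans_le (mul_le_mul_of_nonneg_left hZ2 h20)
    have h3 : ‖c₁.τ * Z1 c₁ c₂ t w‖ ≤ ‖c₁.τ‖ * E ^ 2 :=
      (norm_mul _ _).trans_le (mul_le_mul_of_nonneg_left hZ1 h10)
    unfold Z3
    exact (norm_add_le _ _).trans (add_le_add ((norm_add_le _ _).trans (add_le_add
      ((norm_sub_le _ _).trans (add_le_add h1 h2)) h3)) (hk' 0))
  have hlin : ∀ (u v : ℤ) (Y₁ Y₂ : ℂ) (i : Fin 3), |(u : ℝ)| + |(v : ℝ)| ≤ P.A - 2 →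
      ‖Y₁‖ ≤ E ^ 2 → ‖Y₂‖ ≤ E ^ 2 →
      ‖(u : ℂ) * Y₁‖ + ‖(v : ℂ) * Y₂‖ + ‖k i * (N0 c₁.τ t * N0 c₂.τ w)‖ ≤
        E ^ 2 * ((1 + ‖c₁.τ‖ + ‖c₂.τ‖) * P.A) * (κ₀ + ‖w - t‖) := by
    intro u v Y₁ Y₂ i huv h1 h2
    have h3 : ‖(u : ℂ) * Y₁‖ ≤ |(u : ℝ)| * E ^ 2 := by
      rw [norm_mul, Complex.norm_intCast]; exact mul_le_mul_of_nonneg_left h1 (abs_nonneg _)
    have h4 : ‖(v : ℂ) * Y₂‖ ≤ |(v : ℝ)| * E ^ 2 := by
      rw [norm_mul, Complex.norm_intCast]; exact mul_le_mul_of_nonneg_left h2 (abs_nonneg _)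
    exact (add_le_add (add_le_add h3 h4) (hk' i)).trans (g3_lin hE2 h10 h20 hw0 hκ hA2 huv)
  have hX4 : ‖(P.b₂ : ℂ) * Z1 c₁ c₂ t w - P.b₁ * Z2 c₁ c₂ t w +
      k 1 * (N0 c₁.τ t * N0 c₂.τ w)‖ ≤
      E ^ 2 * ((1 + ‖c₁.τ‖ + ‖c₂.τ‖) * P.A) * (κ₀ + ‖w - t‖) :=
    ((norm_add_le _ _).trans (add_le_add_left (norm_sub_le _ _) _)).trans
      (hlin P.b₂ P.b₁ _ _ 1 hAb hZ1 hZ2)
  have hX5 : ‖(P.a₁ : ℂ) * Z1 c₁ c₂ t w + P.a₂ * Z2 c₁ c₂ t w +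
      k 2 * (N0 c₁.τ t * N0 c₂.τ w)‖ ≤
      E ^ 2 * ((1 + ‖c₁.τ‖ + ‖c₂.τ‖) * P.A) * (κ₀ + ‖w - t‖) :=
    ((norm_add_le _ _).trans (add_le_add_left (norm_add_le _ _) _)).trans
      (hlin P.a₁ P.a₂ _ _ 2 hAa hZ1 hZ2)
  have hn' : ‖N0 c₁.τ t * N0 c₂.τ w‖ ≤
      E ^ 2 * ((1 + ‖c₁.τ‖ + ‖c₂.τ‖) * P.A) * (κ₀ + ‖w - t‖) := by
    refine hnn.trans (le_trans ?_ (g3_lin (u := 0) (v := 0) hE2 h10 h20 hw0 hκ hA2
      (by linarith only [hA2])))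
    rw [zero_mul, zero_add, zero_add]
    exact le_mul_of_one_le_left hE2 hκ
  have hKl : ν.2.2.1 + ν.2.2.2.1 + ν.2.2.2.2 ≤ P.l := by unfold Pr.l; omega
  have hF1 := (norm_nonneg _).trans hn'
  have hfin := g3_fin (x := Real.exp P.L) hE (C := 1 + ‖c₁.τ‖ + ‖c₂.τ‖)
    (by linarith only [h10, h20]) (A := P.A)
    (by linarith only [hA2]) (X := κ₀ + ‖w - t‖) (by linarith only [hw0, hκ]) hP.hl hP.hA
  unfold Gmon
  rw [norm_mul, norm_mul, norm_mul, norm_mul, norm_mul, norm_mul, norm_mul, norm_pow, norm_pow,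
    norm_pow, norm_pow, norm_pow, norm_pow, norm_pow, norm_pow]
  exact (g3_prod hE hF1 (norm_nonneg _) (norm_nonneg _) (norm_nonneg _) (norm_nonneg _)
    (norm_nonneg _) (norm_nonneg _) (norm_nonneg _) (norm_nonneg _) h2t h0t h2w h0w hX3 hX4 hX5 hn'
    hν1 hν2 hKl).trans hfin

theorem g3_card (P : Pr) (hP : P.Good) : ((P.box.card : ℕ) : ℝ) ≤ Real.exp (5 * P.L) := by
  have h1 : P.d₁ ≤ P.L := by have := hP.hl; unfold Pr.l at this; omega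
  have h2 : P.d₂ ≤ P.L := by have := hP.hl; unfold Pr.l at this; omega
  have h3 : P.d₃ ≤ P.L := by have := hP.hl; unfold Pr.l at this; omega
  have h4 : P.box.card ≤ (P.L + 1) ^ 5 := by
    simp only [Pr.box, Finset.card_product, Finset.card_range]
    calc (P.L + 1) * ((P.L + 1) * ((P.d₁ + 1) * ((P.d₂ + 1) * (P.d₃ + 1))))
        ≤ (P.L + 1) * ((P.L + 1) * ((P.L + 1) * ((P.L + 1) * (P.L + 1)))) := by gcongr
      _ = (P.L + 1) ^ 5 := by ring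
  calc ((P.box.card : ℕ) : ℝ) ≤ (((P.L + 1) ^ 5 : ℕ) : ℝ) := by exact_mod_cast h4
    _ = ((P.L : ℝ) + 1) ^ 5 := by push_cast; ring
    _ ≤ (Real.exp P.L) ^ 5 := by
      have := Real.add_one_le_exp (P.L : ℝ)
      gcongr
    _ = Real.exp (5 * P.L) := by
      rw [← Real.exp_nat_mul]
      norm_num

/-- G3a. PROOF. Let `E = exp(C₀(2 + t.im² + w.im²))` with `C₀` the maximum of the two constants of T5 (`growth`). Then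
`‖N0 t N0 w‖ ≤ E`, `‖Z1‖, ‖Z2‖ ≤ E`, `‖Z3 + k₀ N0 N0‖ ≤ E C' (κ₀ + ‖w - t‖)`, and with `A = P.A ≥ 2`
`‖b₂ Z1 - b₁ Z2 + k₁ N0 N0‖ ≤ E (A + κ₀) ≤ E · 2 A κ₀`, the same for the third factor. The product of the `κ₁+κ₂+κ₃ ≤ l` factors is
`≤ E^(κ₁+κ₂+κ₃) (C'' A)^l (κ₀ + ‖w-t‖)^l` and `A^l ≤ exp L`, `C''^l ≤ exp(L log C'')`; the other factors are
`≤ exp(C₀ 2L (1 + t.im²)) exp(C₀ 2L(1 + w.im²)) E^(l - (κ₁+κ₂+κ₃))`; the number of monomials is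
`(L+1)²(d₁+1)(d₂+1)(d₃+1) ≤ (L+1)^5 ≤ exp(5L)`. -/
theorem Gs_bound (c₁ c₂ : Cv) : ∃ C : ℝ, 1 ≤ C ∧ ∀ (P : Pr), P.Good → ∀ (B κ₀ : ℝ) (k : Fin 3 → ℂ)
    (coef : ℕ × ℕ × ℕ × ℕ × ℕ → ℂ), 1 ≤ κ₀ → (∀ i, ‖k i‖ ≤ κ₀) → (∀ ν ∈ P.box, ‖coef ν‖ ≤ B) → ∀ t w : ℂ,
    ‖Gs c₁ c₂ P k coef t w‖ ≤ B * Real.exp (C * P.L * (1 + t.im ^ 2 + w.im ^ 2)) * (κ₀ + ‖w - t‖) ^ P.l := by
  obtain ⟨C₁, hC₁, h₁⟩ := growth c₁.τ c₁.s c₁.im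
  obtain ⟨C₂, hC₂, h₂⟩ := growth c₂.τ c₂.s c₂.im
  set C' : ℝ := 1 + ‖c₁.τ‖ + ‖c₂.τ‖ with hC'
  have hC'1 : 1 ≤ C' := by
    have h1 := norm_nonneg c₁.τ
    have h2 := norm_nonneg c₂.τ
    linarith
  have hlog : 0 ≤ Real.log C' := Real.log_nonneg hC'1
  refine ⟨6 * (C₁ + C₂) + Real.log C' + 6, by linarith, ?_⟩
  intro P hP B κ₀ k coef hκ hk hB t w
  set S : ℝ := 1 + t.im ^ 2 + w.im ^ 2 with hS
  have hS1 : 1 ≤ S := by have h1 := sq_nonneg t.im; have h2 := sq_nonneg w.im; linarith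
  set E : ℝ := Real.exp ((C₁ + C₂) * S) with hEdef
  have hE1 : 1 ≤ E := Real.one_le_exp (by positivity)
  have ht : Real.exp (C₁ * (1 + t.im ^ 2)) ≤ E := by
    apply Real.exp_le_exp.mpr
    have h1 : 1 + t.im ^ 2 ≤ S := by have := sq_nonneg w.im; linarith
    have h2 : 0 ≤ 1 + t.im ^ 2 := by positivity
    exact mul_le_mul (by linarith) h1 h2 (by linarith)
  have hw : Real.exp (C₂ * (1 + w.im ^ 2)) ≤ E := by
    apply Real.exp_le_exp.mpr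
    have h1 : 1 + w.im ^ 2 ≤ S := by have := sq_nonneg t.im; linarith
    have h2 : 0 ≤ 1 + w.im ^ 2 := by positivity
    exact mul_le_mul (by linarith) h1 h2 (by linarith)
  have hmon : ∀ ν ∈ P.box, ‖Gmon c₁ c₂ P k ν t w‖ ≤
      E ^ (6 * P.L) * (C' ^ P.L * Real.exp P.L) * (κ₀ + ‖w - t‖) ^ P.l := fun ν hν =>
    g3_mon c₁ c₂ P hP κ₀ k hκ hk ν hν t w E hE1 ((h₁ t).1.trans ht) ((h₁ t).2.1.trans ht)
      ((h₁ t).2.2.trans ht) ((h₂ w).1.trans hw) ((h₂ w).2.1.trans hw) ((h₂ w).2.2.trans hw)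
  have hB0 : 0 ≤ B := by
    have h0 : ((0, 0, 0, 0, 0) : ℕ × ℕ × ℕ × ℕ × ℕ) ∈ P.box := by simp [Pr.box]
    exact (norm_nonneg _).trans (hB _ h0)
  have hX0 : 0 ≤ (κ₀ + ‖w - t‖) ^ P.l := by
    have := norm_nonneg (w - t)
    positivity
  have hexp : Real.exp (5 * P.L) * (E ^ (6 * P.L) * (C' ^ P.L * Real.exp P.L)) ≤
      Real.exp ((6 * (C₁ + C₂) + Real.log C' + 6) * P.L * S) := by
    have h1 : E ^ (6 * P.L) = Real.exp ((6 * P.L : ℕ) * ((C₁ + C₂) * S)) := by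
      rw [Real.exp_nat_mul]
    have h2 : C' ^ P.L = Real.exp (P.L * Real.log C') := by
      rw [Real.exp_nat_mul, Real.exp_log (by linarith)]
    rw [h1, h2, ← Real.exp_add, ← Real.exp_add, ← Real.exp_add]
    apply Real.exp_le_exp.mpr
    push_cast
    have hL0 : (0 : ℝ) ≤ P.L := Nat.cast_nonneg _
    have h3 : (P.L : ℝ) * (Real.log C' + 6) ≤ (P.L : ℝ) * (Real.log C' + 6) * S :=
      le_mul_of_one_le_right (mul_nonneg hL0 (by linarith)) hS1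
    have h4 : (6 * (C₁ + C₂) + Real.log C' + 6) * P.L * S = (6 * (P.L : ℝ)) * ((C₁ + C₂) * S) +
      (P.L : ℝ) * (Real.log C' + 6) * S := by ring
    rw [h4]
    linarith
  calc ‖Gs c₁ c₂ P k coef t w‖ ≤ ∑ ν ∈ P.box, ‖coef ν * Gmon c₁ c₂ P k ν t w‖ := norm_sum_le _ _
    _ ≤ ∑ _ν ∈ P.box, B * (E ^ (6 * P.L) * (C' ^ P.L * Real.exp P.L) * (κ₀ + ‖w - t‖) ^ P.l) := by
      apply Finset.sum_le_sum
      intro ν hν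
      rw [norm_mul]
      exact mul_le_mul (hB ν hν) (hmon ν hν) (norm_nonneg _) hB0
    _ = (P.box.card : ℝ) * (B * (E ^ (6 * P.L) * (C' ^ P.L * Real.exp P.L) *
        (κ₀ + ‖w - t‖) ^ P.l)) := by
      rw [Finset.sum_const, nsmul_eq_mul]
    _ ≤ Real.exp (5 * P.L) * (B * (E ^ (6 * P.L) * (C' ^ P.L * Real.exp P.L) *
        (κ₀ + ‖w - t‖) ^ P.l)) := by
      have h1 := g3_card P hP
      have h2 : 0 ≤ B * (E ^ (6 * P.L) * (C' ^ P.L * Real.exp P.L) * (κ₀ + ‖w - t‖) ^ P.l) := by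
        positivity
      exact mul_le_mul_of_nonneg_right h1 h2
    _ = B * (Real.exp (5 * P.L) * (E ^ (6 * P.L) * (C' ^ P.L * Real.exp P.L))) *
        (κ₀ + ‖w - t‖) ^ P.l := by ring
    _ ≤ B * Real.exp ((6 * (C₁ + C₂) + Real.log C' + 6) * P.L * S) *
        (κ₀ + ‖w - t‖) ^ P.l := by gcongr

/-- G3b. PROOF. `gm G m t` is the `m`-th Taylor coefficient at `t` of `w ↦ GG t w`: Cauchy's inequality on `‖w - t‖ = 1`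
(`Complex.norm_iteratedDeriv_le_of_forall_mem_sphere_norm_le`), and `Gs_bound` with `k = 0`, `κ₀ = 1`:
`|w.im| ≤ |t.im| + 1`, `w.im² ≤ 2 t.im² + 2`, `(1 + 1)^l ≤ exp L`. -/
theorem gm_bound (c₁ c₂ : Cv) : ∃ C : ℝ, 1 ≤ C ∧ ∀ (P : Pr), P.Good → ∀ (B : ℝ)
    (coef : ℕ × ℕ × ℕ × ℕ × ℕ → ℂ), (∀ ν ∈ P.box, ‖coef ν‖ ≤ B) → ∀ (m : ℕ) (t : ℂ),
    ‖gm (GG c₁ c₂ P coef) m t‖ ≤ B * Real.exp (C * P.L * (1 + t.im ^ 2)) := by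
  obtain ⟨C₀, hC₀, h₀⟩ := Gs_bound c₁ c₂
  refine ⟨3 * C₀ + 1, by linarith, ?_⟩
  intro P hP B coef hB m t
  have hB0 : 0 ≤ B := by
    have h0 : ((0, 0, 0, 0, 0) : ℕ × ℕ × ℕ × ℕ × ℕ) ∈ P.box := by simp [Pr.box]
    exact (norm_nonneg _).trans (hB _ h0)
  have hL0 : (0 : ℝ) ≤ P.L := Nat.cast_nonneg _
  have h2l : (2 : ℝ) ^ P.l ≤ Real.exp P.L := by
    have h1 : (2 : ℝ) ^ P.l ≤ 2 ^ P.L := pow_le_pow_right₀ (by norm_num) hP.hl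
    have h2 : (2 : ℝ) ≤ Real.exp 1 := by have := Real.add_one_le_exp (1 : ℝ); linarith
    calc (2 : ℝ) ^ P.l ≤ 2 ^ P.L := h1
      _ ≤ Real.exp 1 ^ P.L := by gcongr
      _ = Real.exp P.L := by rw [← Real.exp_nat_mul, mul_one]
  have hdiff : Differentiable ℂ (GG c₁ c₂ P coef t) := by
    intro w
    have h1 : AnalyticAt ℂ (fun p : ℂ × ℂ => GG c₁ c₂ P coef p.1 p.2) (t, w) :=
      GG_an2 c₁ c₂ P coef t w
    have h2 : DifferentiableAt ℂ (fun w' : ℂ => (t, w')) w :=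
      (differentiableAt_const t).prodMk differentiableAt_id
    exact (h1.differentiableAt).comp (f := fun w' : ℂ => (t, w')) w h2
  set Q : ℝ := B * Real.exp ((3 * C₀ + 1) * P.L * (1 + t.im ^ 2)) with hQ
  have hsph : ∀ w ∈ Metric.sphere t 1, ‖GG c₁ c₂ P coef t w‖ ≤ Q := by
    intro w hw
    have hw1 : ‖w - t‖ = 1 := by simpa [Metric.mem_sphere, dist_eq_norm] using hw
    have h1 := h₀ P hP B 1 0 coef le_rfl (fun i => by simp) hB t w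
    rw [hw1] at h1
    have him : |w.im - t.im| ≤ 1 := by
      have := Complex.abs_im_le_norm (w - t)
      rw [hw1] at this
      simpa using this
    have hsq : w.im ^ 2 ≤ 2 * t.im ^ 2 + 2 := by
      have h3 : (w.im - t.im) ^ 2 ≤ 1 := by
        rw [← sq_abs]
        exact pow_le_one₀ (abs_nonneg _) him
      have h4 := sq_nonneg (t.im - (w.im - t.im))
      linarith
    have h4 : Real.exp (C₀ * P.L * (1 + t.im ^ 2 + w.im ^ 2)) * (1 + 1) ^ P.l ≤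
        Real.exp ((3 * C₀ + 1) * P.L * (1 + t.im ^ 2)) := by
      have h5 : ((1 : ℝ) + 1) ^ P.l ≤ Real.exp P.L := by
        have : (1 : ℝ) + 1 = 2 := by norm_num
        rw [this]; exact h2l
      calc Real.exp (C₀ * P.L * (1 + t.im ^ 2 + w.im ^ 2)) * (1 + 1) ^ P.l
          ≤ Real.exp (C₀ * P.L * (1 + t.im ^ 2 + w.im ^ 2)) * Real.exp P.L := by gcongr
        _ = Real.exp (C₀ * P.L * (1 + t.im ^ 2 + w.im ^ 2) + P.L) := by rw [Real.exp_add]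
        _ ≤ Real.exp ((3 * C₀ + 1) * P.L * (1 + t.im ^ 2)) := by
          apply Real.exp_le_exp.mpr
          have h6 : 0 ≤ C₀ * P.L := mul_nonneg (by linarith) hL0
          exact g3_ar2 _ _ _ _ h6 hL0 hsq
    calc ‖GG c₁ c₂ P coef t w‖
        ≤ B * Real.exp (C₀ * P.L * (1 + t.im ^ 2 + w.im ^ 2)) * (1 + 1) ^ P.l := h1
      _ = B * (Real.exp (C₀ * P.L * (1 + t.im ^ 2 + w.im ^ 2)) * (1 + 1) ^ P.l) := by ring
      _ ≤ Q := by rw [hQ]; gcongr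
  have hC := Complex.norm_iteratedDeriv_le_of_forall_mem_sphere_norm_le m one_pos
    (hdiff.diffContOnCl (s := Metric.ball t 1)) hsph
  unfold gm
  rw [norm_div, Complex.norm_natCast, div_le_iff₀ (by positivity)]
  calc ‖iteratedDeriv m (GG c₁ c₂ P coef t) t‖ ≤ (m.factorial : ℝ) * Q / 1 ^ m := hC
    _ = Q * (m.factorial : ℝ) := by rw [one_pow, div_one, mul_comm]

end Pool.Agent.MSP
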