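import Pool.Agent.Lib.MP_f58a57_nt.P.Z6_Zero

/-! # H1: Diophantine geometry of the sample points (MP_f58a57_nt, pairs) -/

open Complex Filter Topology

noncomputable section

namespace Pool.Agent.MSP

theorem h1_bezout (a₁ a₂ : ℤ) (h : IsCoprime a₁ a₂) (h2 : a₂ ≠ 0) :
    ∃ b₁ b₂ : ℤ, a₁ * b₁ + a₂ * b₂ = 1 ∧ |b₁| ≤ |a₂| ∧ |b₂| ≤ 1 + |a₁| := by
  obtain ⟨u, v, huv⟩ := h
  have hm : u % a₂ + a₂ * (u / a₂) = u := Int.emod_add_mul_ediv u a₂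
  refine ⟨u % a₂, v + a₁ * (u / a₂), ?_, ?_, ?_⟩
  · linear_combination huv + a₁ * hm
  · rw [abs_of_nonneg (Int.emod_nonneg _ h2)]
    exact (Int.emod_lt_abs u h2).le
  · have h1 : a₂ * (v + a₁ * (u / a₂)) = 1 - a₁ * (u % a₂) := by linear_combination huv + a₁ * hm
    have h3 : |u % a₂| ≤ |a₂| := by
      rw [abs_of_nonneg (Int.emod_nonneg _ h2)]
      exact (Int.emod_lt_abs u h2).le
    have ha : 0 < |a₂| := abs_pos.2 h2
    have h4 : |a₂| * |v + a₁ * (u / a₂)| ≤ |a₂| * (1 + |a₁|) := by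
      rw [← abs_mul, h1]
      have h5 : |1 - a₁ * (u % a₂)| ≤ 1 + |a₁| * |u % a₂| := by
        refine (abs_sub _ _).trans ?_
        rw [abs_one, abs_mul]
      have h6 : |a₁| * |u % a₂| ≤ |a₁| * |a₂| := mul_le_mul_of_nonneg_left h3 (abs_nonneg _)
      have h7 : (1 : ℤ) ≤ |a₂| := ha
      nlinarith
    exact le_of_mul_le_mul_left h4 ha

/-- H1a. PROOF. `Real.exists_rat_abs_sub_le_and_den_le` gives a rational `q` with `|ν - q| ≤ 1/((N+1) q.den)`, `q.den ≤ N`; put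
`(a₁, a₂) = ±(-q.num, q.den)` with the sign such that `ε = a₁ + a₂ν > 0` (`ε ≠ 0`, `ν` irrational); `ε ≤ 1/(N+1)`. Lower bound: with `ν² = r`,
`ε |a₁ - a₂ν| = |a₁² - a₂² r| ≥ 1/r.den` (it is `≠ 0` as `ν` is irrational) and `|a₁ - a₂ν| ≤ 1 + 2Nν ≤ (1 + 2ν)N`. Bezout: `a₁, a₂` are coprime; take
`b₁` reduced modulo `a₂` (`0 ≤ b₁ < |a₂|`), `b₂ = (1 - a₁b₁)/a₂`, `|b₂| ≤ 1 + |a₁|`. `|a₁| ≤ 1 + Nν`. -/
theorem dirichlet (ν : ℝ) (hν : 0 < ν) (hirr : Irrational ν) (hsq : ∃ r : ℚ, ν ^ 2 = r) :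
    ∃ c C : ℝ, 0 < c ∧ 0 < C ∧ ∀ N : ℕ, 2 ≤ N → ∃ a₁ a₂ b₁ b₂ : ℤ, a₁ * b₁ + a₂ * b₂ = 1 ∧
      c / N ≤ a₁ + a₂ * ν ∧ a₁ + a₂ * ν ≤ 1 / N ∧ |(a₂ : ℝ)| ≤ N ∧
      2 + |(a₁ : ℝ)| + |(a₂ : ℝ)| + |(b₁ : ℝ)| + |(b₂ : ℝ)| ≤ C * N := by
  obtain ⟨r, hr⟩ := hsq
  have hrd : (0 : ℝ) < (r.den : ℝ) := by exact_mod_cast r.den_pos
  refine ⟨1 / (r.den * (1 + 2 * ν)), 7 + 2 * ν, by positivity, by positivity, ?_⟩
  intro N hN
  have hN0 : 0 < N := by omega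
  have hN1 : (1 : ℝ) ≤ N := by exact_mod_cast hN0
  -- the pair
  obtain ⟨a₁, a₂, hcop, ha20, hpos, hle, ha2⟩ : ∃ a₁ a₂ : ℤ, IsCoprime a₁ a₂ ∧ a₂ ≠ 0 ∧
      0 < (a₁ : ℝ) + a₂ * ν ∧ (a₁ : ℝ) + a₂ * ν ≤ 1 / (N + 1) ∧ |(a₂ : ℝ)| ≤ N := by
    obtain ⟨q, hq, hqd⟩ := Real.exists_rat_abs_sub_le_and_den_le ν hN0
    have hd : (0 : ℝ) < q.den := by exact_mod_cast q.den_pos
    have hqe : (q : ℝ) = q.num / q.den := by exact_mod_cast (Rat.cast_def (K := ℝ) q)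
    have hcop : IsCoprime q.num (q.den : ℤ) := Rat.isCoprime_num_den q
    have e1 : (q.den : ℝ) * ν - q.num = q.den * (ν - q) := by
      rw [hqe]
      field_simp
    have habs : |(q.den : ℝ) * ν - q.num| ≤ 1 / (N + 1) := by
      rw [e1, abs_mul, abs_of_pos hd]
      calc (q.den : ℝ) * |ν - q| ≤ q.den * (1 / ((N + 1) * q.den)) :=
            mul_le_mul_of_nonneg_left hq hd.le
        _ = 1 / (N + 1) := by field_simp
    have hne : (q.den : ℝ) * ν - q.num ≠ 0 := by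
      rw [e1]
      refine mul_ne_zero hd.ne' ?_
      intro h
      have h' : ν = (q : ℝ) := by linarith
      exact hirr ⟨q, h'.symm⟩
    have hdN : (q.den : ℝ) ≤ N := by exact_mod_cast hqd
    rcases lt_or_gt_of_ne hne with h | h
    · refine ⟨q.num, -(q.den : ℤ), hcop.neg_right, ?_, ?_, ?_, ?_⟩
      · have := q.den_pos
        omega
      · push_cast
        linarith
      · rw [abs_of_neg h] at habs
        push_cast
        linarith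
      · push_cast
        rw [abs_neg, abs_of_pos hd]
        exact hdN
    · refine ⟨-q.num, (q.den : ℤ), hcop.neg_left, ?_, ?_, ?_, ?_⟩
      · have := q.den_pos
        omega
      · push_cast
        linarith
      · rw [abs_of_pos h] at habs
        push_cast
        linarith
      · push_cast
        rw [abs_of_pos hd]
        exact hdN
  obtain ⟨b₁, b₂, hb, hb1, hb2⟩ := h1_bezout a₁ a₂ hcop ha20
  have hle1 : (1 : ℝ) / (N + 1) ≤ 1 / N := one_div_le_one_div_of_le (by linarith) (by linarith)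
  have hle2 : (1 : ℝ) / (N + 1) ≤ 1 := by
    rw [div_le_one (by linarith)]
    linarith
  have ha1 : |(a₁ : ℝ)| ≤ 1 + ν * N := by
    have h1 : (a₁ : ℝ) = ((a₁ : ℝ) + a₂ * ν) - a₂ * ν := by ring
    rw [h1]
    refine (abs_sub _ _).trans ?_
    rw [abs_of_pos hpos, abs_mul, abs_of_pos hν]
    have h2 := mul_le_mul_of_nonneg_right ha2 hν.le
    linarith
  have hb1' : |(b₁ : ℝ)| ≤ |(a₂ : ℝ)| := by exact_mod_cast hb1
  have hb2' : |(b₂ : ℝ)| ≤ 1 + |(a₁ : ℝ)| := by exact_mod_cast hb2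
  refine ⟨a₁, a₂, b₁, b₂, hb, ?_, hle.trans hle1, ha2, ?_⟩
  · -- lower bound
    have hre : (r : ℝ) = r.num / r.den := by exact_mod_cast (Rat.cast_def (K := ℝ) r)
    have hm : (a₁ : ℝ) - a₂ * ν ≠ 0 := by
      intro h
      have ha20' : (a₂ : ℝ) ≠ 0 := by exact_mod_cast ha20
      have h2 : ν = (((a₁ : ℚ) / (a₂ : ℚ) : ℚ) : ℝ) := by
        push_cast
        field_simp
        linarith
      exact hirr ⟨_, h2.symm⟩
    have hprod : ((a₁ : ℝ) + a₂ * ν) * ((a₁ : ℝ) - a₂ * ν) * r.den =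
        ((a₁ ^ 2 * r.den - a₂ ^ 2 * r.num : ℤ) : ℝ) := by
      have h1 : ((a₁ : ℝ) + a₂ * ν) * ((a₁ : ℝ) - a₂ * ν) = a₁ ^ 2 - a₂ ^ 2 * ν ^ 2 := by ring
      rw [h1, hr, hre]
      push_cast
      field_simp
    have hnz : (a₁ ^ 2 * r.den - a₂ ^ 2 * r.num : ℤ) ≠ 0 := by
      intro h
      rw [h] at hprod
      have : ((a₁ : ℝ) + a₂ * ν) * ((a₁ : ℝ) - a₂ * ν) * r.den ≠ 0 :=
        mul_ne_zero (mul_ne_zero hpos.ne' hm) hrd.ne'
      exact this (by rw [hprod]; simp)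
    have h1 : (1 : ℝ) ≤ ((a₁ : ℝ) + a₂ * ν) * |(a₁ : ℝ) - a₂ * ν| * r.den := by
      have h2 : (1 : ℤ) ≤ |a₁ ^ 2 * r.den - a₂ ^ 2 * r.num| := Int.one_le_abs hnz
      have h3 : (1 : ℝ) ≤ |((a₁ ^ 2 * r.den - a₂ ^ 2 * r.num : ℤ) : ℝ)| := by
        rw [← Int.cast_abs]
        exact_mod_cast h2
      rw [← hprod, abs_mul, abs_mul, abs_of_pos hpos, abs_of_pos hrd] at h3
      exact h3
    have h4 : |(a₁ : ℝ) - a₂ * ν| ≤ (1 + 2 * ν) * N := by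
      refine (abs_sub _ _).trans ?_
      rw [abs_mul, abs_of_pos hν]
      have h2 := mul_le_mul_of_nonneg_right ha2 hν.le
      nlinarith
    have h5 : (1 : ℝ) ≤ ((a₁ : ℝ) + a₂ * ν) * ((1 + 2 * ν) * N) * r.den := by
      refine h1.trans ?_
      exact mul_le_mul_of_nonneg_right (mul_le_mul_of_nonneg_left h4 hpos.le) hrd.le
    rw [div_div, div_le_iff₀ (by positivity)]
    linarith
  · have h1 : 2 + |(a₁ : ℝ)| + |(a₂ : ℝ)| + |(b₁ : ℝ)| + |(b₂ : ℝ)| ≤ 5 + 2 * (ν * N) + 2 * N := by linarith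
    nlinarith

end Pool.Agent.MSP
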