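import Pool.Agent.Lib.MP_f58a57_nt.P.Defs

/-! # M1: maximum principle in a strip, division by the sine (MP_f58a57_nt, pairs) -/

open Complex Filter Topology

noncomputable section

namespace Pool.Agent.MSP

theorem m1_per_nat (h : ℂ → ℂ) (hper : ∀ t, ‖h (t + 1)‖ = ‖h t‖) (n : ℕ) (t : ℂ) :
    ‖h (t + n)‖ = ‖h t‖ := by
  induction n with
  | zero => simp
  | succ n ih =>
    push_cast
    rw [← add_assoc, hper, ih]

theorem m1_per_int (h : ℂ → ℂ) (hper : ∀ t, ‖h (t + 1)‖ = ‖h t‖) (n : ℤ) (t : ℂ) :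
    ‖h (t + n)‖ = ‖h t‖ := by
  obtain ⟨m, rfl | rfl⟩ := n.eq_nat_or_neg
  · simpa using m1_per_nat h hper m t
  · have := m1_per_nat h hper m (t + (-(m : ℤ) : ℤ))
    rw [← this]
    congr 2
    push_cast
    ring

theorem m1_bounded (h : ℂ → ℂ) (hc : Continuous h) (hper : ∀ t, ‖h (t + 1)‖ = ‖h t‖) (R : ℝ) :
    ∃ C : ℝ, ∀ t : ℂ, |t.im| ≤ R → ‖h t‖ ≤ C := by
  have hK : IsCompact (Set.Icc (0 : ℝ) 1 ×ℂ Set.Icc (-R) R) := isCompact_Icc.reProdIm isCompact_Icc
  obtain ⟨C, hC⟩ := hK.exists_bound_of_continuousOn hc.continuousOn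
  refine ⟨C, fun t ht => ?_⟩
  have h1 := m1_per_int h hper (-⌊t.re⌋) t
  rw [← h1]
  apply hC
  rw [Complex.mem_reProdIm]
  have habs := abs_le.1 ht
  constructor
  · have hre : (t + ((-⌊t.re⌋ : ℤ) : ℂ)).re = t.re - ⌊t.re⌋ := by
      rw [Complex.add_re, Complex.intCast_re]; push_cast; ring
    rw [hre]
    constructor
    · have := Int.floor_le t.re
      linarith
    · have := Int.lt_floor_add_one t.re
      linarith
  · simpa using habs

/-- M1a. PROOF. `|h|` is `1`-periodic and continuous, so bounded on the strip; `PhragmenLindelof.horizontal_strip` on `-R < Im < R`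
(the growth hypothesis is trivial for a bounded function). -/
theorem strip_max (h : ℂ → ℂ) (hd : Differentiable ℂ h) (hper : ∀ t, ‖h (t + 1)‖ = ‖h t‖) (R B : ℝ) (hR : 0 < R)
    (hB : ∀ t : ℂ, |t.im| = R → ‖h t‖ ≤ B) (t : ℂ) (ht : |t.im| ≤ R) : ‖h t‖ ≤ B := by
  obtain ⟨C, hC⟩ := m1_bounded h hd.continuous hper R
  have habs := abs_le.1 ht
  refine PhragmenLindelof.horizontal_strip (a := -R) (b := R) hd.diffContOnCl ?_ ?_ ?_ habs.1 habs.2
  · refine ⟨0, div_pos Real.pi_pos (by linarith), 0, ?_⟩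
    simp only [zero_mul, Real.exp_zero]
    refine Asymptotics.IsBigO.of_bound C ?_
    rw [eventually_inf_principal]
    refine Eventually.of_forall fun z hz => ?_
    rw [norm_one, mul_one]
    refine hC z (abs_le.2 ⟨?_, ?_⟩)
    · exact (Set.mem_preimage.1 hz).1.le
    · exact (Set.mem_preimage.1 hz).2.le
  · intro z hz
    exact hB z (by rw [hz, abs_neg, abs_of_pos hR])
  · intro z hz
    exact hB z (by rw [hz, abs_of_pos hR])

theorem m1_sin_upper (z : ℂ) : ‖Complex.sin z‖ ≤ Real.exp |z.im| := by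
  rw [Complex.sin]
  have h1 : ‖Complex.exp (-z * I)‖ = Real.exp z.im := by
    rw [Complex.norm_exp]; congr 1; simp
  have h2 : ‖Complex.exp (z * I)‖ = Real.exp (-z.im) := by
    rw [Complex.norm_exp]; congr 1; simp
  have h3 : ‖(Complex.exp (-z * I) - Complex.exp (z * I)) * I / 2‖
      = ‖Complex.exp (-z * I) - Complex.exp (z * I)‖ / 2 := by
    rw [norm_div, norm_mul, Complex.norm_I, mul_one]; simp
  rw [h3]
  have h4 := norm_sub_le (Complex.exp (-z * I)) (Complex.exp (z * I))
  rw [h1, h2] at h4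
  have h5 : Real.exp z.im ≤ Real.exp |z.im| := Real.exp_le_exp.2 (le_abs_self _)
  have h6 : Real.exp (-z.im) ≤ Real.exp |z.im| := Real.exp_le_exp.2 (neg_le_abs _)
  linarith

theorem m1_sin_lower (z : ℂ) : (Real.exp |z.im| - Real.exp (-|z.im|)) / 2 ≤ ‖Complex.sin z‖ := by
  rw [Complex.sin]
  have h1 : ‖Complex.exp (-z * I)‖ = Real.exp z.im := by
    rw [Complex.norm_exp]; congr 1; simp
  have h2 : ‖Complex.exp (z * I)‖ = Real.exp (-z.im) := by
    rw [Complex.norm_exp]; congr 1; simp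
  have h3 : ‖(Complex.exp (-z * I) - Complex.exp (z * I)) * I / 2‖
      = ‖Complex.exp (-z * I) - Complex.exp (z * I)‖ / 2 := by
    rw [norm_div, norm_mul, Complex.norm_I, mul_one]; simp
  rw [h3]
  rcases le_total 0 z.im with h | h
  · rw [abs_of_nonneg h]
    have h4 := norm_sub_norm_le (Complex.exp (-z * I)) (Complex.exp (z * I))
    rw [h1, h2] at h4
    linarith
  · rw [abs_of_nonpos h, neg_neg]
    have h4 := norm_sub_norm_le (Complex.exp (z * I)) (Complex.exp (-z * I))
    rw [h1, h2, norm_sub_rev] at h4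
    linarith

/-- M1b. `sinh(π|y|) ≤ |sin(π(x+iy))| ≤ cosh(π|y|) ≤ e^{π|y|}`, and `sinh(πR) ≥ e^{2R}` for `R ≥ 1`. -/
theorem sin_upper (t : ℂ) (a : ℝ) : ‖Complex.sin (Real.pi * (t - a))‖ ≤ Real.exp (Real.pi * |t.im|) := by
  have him : ((Real.pi : ℂ) * (t - a)).im = Real.pi * t.im := by
    simp
  have h := m1_sin_upper ((Real.pi : ℂ) * (t - a))
  rwa [him, abs_mul, abs_of_pos Real.pi_pos] at h

theorem sin_lower (t : ℂ) (a R : ℝ) (hR : 1 ≤ R) (ht : |t.im| = R) :
    Real.exp (2 * R) ≤ ‖Complex.sin (Real.pi * (t - a))‖ := by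
  have him : ((Real.pi : ℂ) * (t - a)).im = Real.pi * t.im := by
    simp
  have h := m1_sin_lower ((Real.pi : ℂ) * (t - a))
  rw [him, abs_mul, abs_of_pos Real.pi_pos, ht] at h
  refine le_trans ?_ h
  have h1 : Real.exp (Real.pi * R) = Real.exp (2 * R) * Real.exp ((Real.pi - 2) * R) := by
    rw [← Real.exp_add]; congr 1; ring
  have h2 : 1 + (1.14 : ℝ) + 1.14 ^ 2 / 2 ≤ Real.exp ((Real.pi - 2) * R) := by
    refine le_trans (Real.quadratic_le_exp_of_nonneg (by norm_num)) (Real.exp_le_exp.2 ?_)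
    have := Real.pi_gt_d2
    nlinarith
  have h3 : 1 + (2 : ℝ) + 2 ^ 2 / 2 ≤ Real.exp (2 * R) := by
    refine le_trans (Real.quadratic_le_exp_of_nonneg (by norm_num)) (Real.exp_le_exp.2 ?_)
    linarith
  have h4 : Real.exp (-(Real.pi * R)) ≤ 1 := by
    rw [← Real.exp_zero]
    apply Real.exp_le_exp.2
    have := Real.pi_pos
    have : 0 ≤ Real.pi * R := by positivity
    linarith
  rw [h1]
  have h5 : 0 < Real.exp (2 * R) := Real.exp_pos _
  nlinarith

theorem m1_hasDerivAt_sin (a : ℝ) (t : ℂ) :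
    HasDerivAt (fun t : ℂ => Complex.sin (Real.pi * (t - a)))
      (Complex.cos (Real.pi * (t - a)) * Real.pi) t := by
  have h1 : HasDerivAt (fun t : ℂ => (Real.pi : ℂ) * (t - a)) (Real.pi : ℂ) t := by
    simpa using ((hasDerivAt_id t).sub_const (a : ℂ)).const_mul (Real.pi : ℂ)
  exact h1.csin

theorem m1_deriv_sin (a : ℝ) (t : ℂ) : deriv (fun t : ℂ => Complex.sin (Real.pi * (t - a))) t =
    Real.pi * Complex.cos (Real.pi * (t - a)) := by
  rw [(m1_hasDerivAt_sin a t).deriv, mul_comm]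

theorem m1_sin_zero (a : ℝ) (t : ℂ) (ht : Complex.sin (Real.pi * (t - a)) = 0) :
    ∃ k : ℤ, t = a + k := by
  obtain ⟨k, hk⟩ := Complex.sin_eq_zero_iff.1 ht
  have hpi : (Real.pi : ℂ) ≠ 0 := by exact_mod_cast Real.pi_ne_zero
  refine ⟨k, ?_⟩
  have : t - a = k := by
    apply mul_left_cancel₀ hpi
    rw [hk]; ring
  linear_combination this

/-- M1c. PROOF. `h t = if sin(π(t-a)) = 0 then g'(t)/(π cos(π(t-a))) else g t/sin(π(t-a))`. Near a zero `t₀` of the sine (so `g t₀ = 0`) `h` agrees with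
`dslope g t₀ t/dslope (sin(π(·-a))) t₀ t`, a quotient of analytic functions with nonzero denominator at `t₀`. -/
theorem div_sin (g : ℂ → ℂ) (hg : Differentiable ℂ g) (a : ℝ) (hz : ∀ k : ℤ, g (a + k) = 0) :
    ∃ h : ℂ → ℂ, Differentiable ℂ h ∧ ∀ t, g t = Complex.sin (Real.pi * (t - a)) * h t := by
  classical
  set s : ℂ → ℂ := fun t => Complex.sin (Real.pi * (t - a)) with hs
  have hsd : Differentiable ℂ s := by
    intro t; rw [hs]; fun_prop
  have hsderiv : ∀ t, deriv s t = Real.pi * Complex.cos (Real.pi * (t - a)) := by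
    intro t
    exact m1_deriv_sin a t
  have hzero : ∀ t, s t = 0 → ∃ k : ℤ, t = a + k := by
    intro t ht
    exact m1_sin_zero a t ht
  have hg0 : ∀ t, s t = 0 → g t = 0 := by
    intro t ht
    obtain ⟨k, rfl⟩ := hzero t ht
    exact hz k
  have hs' : ∀ t, s t = 0 → deriv s t ≠ 0 := by
    intro t ht hd
    rw [hsderiv] at hd
    have hpi : (Real.pi : ℂ) ≠ 0 := by exact_mod_cast Real.pi_ne_zero
    have hcos := (mul_eq_zero.1 hd).resolve_left hpi
    have hsin : Complex.sin (Real.pi * (t - a)) = 0 := ht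
    have := Complex.sin_sq_add_cos_sq (Real.pi * (t - a))
    rw [hsin, hcos] at this
    norm_num at this
  refine ⟨fun t => if s t = 0 then deriv g t / deriv s t else g t / s t, ?_, ?_⟩
  · intro t₀
    by_cases ht₀ : s t₀ = 0
    · -- a zero of the sine
      have hdg : DifferentiableAt ℂ (dslope g t₀) t₀ := by
        have := (Complex.differentiableOn_dslope (f := g) (c := t₀) (s := Set.univ)
          Filter.univ_mem).2 hg.differentiableOn
        exact (this t₀ (Set.mem_univ _)).differentiableAt Filter.univ_mem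
      have hds : DifferentiableAt ℂ (dslope s t₀) t₀ := by
        have := (Complex.differentiableOn_dslope (f := s) (c := t₀) (s := Set.univ)
          Filter.univ_mem).2 hsd.differentiableOn
        exact (this t₀ (Set.mem_univ _)).differentiableAt Filter.univ_mem
      have hne : dslope s t₀ t₀ ≠ 0 := by
        rw [dslope_same]; exact hs' t₀ ht₀
      have hquot : DifferentiableAt ℂ (fun t => dslope g t₀ t / dslope s t₀ t) t₀ :=
        hdg.div hds hne
      refine hquot.congr_of_eventuallyEq ?_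
      have hev : ∀ᶠ t in 𝓝 t₀, dslope s t₀ t ≠ 0 := hds.continuousAt.eventually_ne hne
      filter_upwards [hev] with t ht
      by_cases htt : t = t₀
      · subst htt
        rw [if_pos ht₀, dslope_same, dslope_same]
      · have htt' : t - t₀ ≠ 0 := sub_ne_zero.2 htt
        rw [dslope_of_ne _ htt, slope_def_field, ht₀, sub_zero] at ht
        have hst : s t ≠ 0 := by
          intro h
          rw [h, zero_div] at ht
          exact ht rfl
        rw [if_neg hst, dslope_of_ne _ htt, dslope_of_ne _ htt, slope_def_field, slope_def_field,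
          ht₀, hg0 t₀ ht₀, sub_zero, sub_zero]
        field_simp
    · have hev : ∀ᶠ t in 𝓝 t₀, s t ≠ 0 := hsd.continuous.continuousAt.eventually_ne ht₀
      have hquot : DifferentiableAt ℂ (fun t => g t / s t) t₀ := (hg t₀).div (hsd t₀) ht₀
      refine hquot.congr_of_eventuallyEq ?_
      filter_upwards [hev] with t ht
      rw [if_neg ht]
  · intro t
    change g t = s t * _
    by_cases ht : s t = 0
    · simp only [ht, zero_mul]
      exact hg0 t ht
    · simp only [if_neg ht]
      field_simp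

end Pool.Agent.MSP
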