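import Pool.Agent.Lib.MP_f58a57_nt.P.Defs

/-! # T1: the theta product converges and is entire (MP_f58a57_nt, pairs) -/

open Complex Filter Topology

noncomputable section

namespace Pool.Agent.MSP

/-- the deviation of the factor from one -/
def t1_u (τ : ℂ) (n : ℕ) (t : ℂ) : ℂ :=
  (1 - ee ((n + 1) * τ + t)) * (1 - ee ((n + 1) * τ - t)) - 1

theorem t1_norm_ee (x : ℂ) : ‖ee x‖ = Real.exp (-(2 * Real.pi * x.im)) := by
  rw [ee, Complex.norm_exp]
  congr 1
  have : (2 * (Real.pi : ℂ) * I * x) = ((2 * Real.pi : ℝ) : ℂ) * (I * x) := by push_cast; ring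
  rw [this, Complex.re_ofReal_mul]
  simp

theorem t1_fact (τ : ℂ) (n : ℕ) (t : ℂ) :
    (1 - ee ((n + 1) * τ + t)) * (1 - ee ((n + 1) * τ - t)) = 1 + t1_u τ n t := by
  rw [t1_u]; ring

theorem t1_bound {τ : ℂ} (hτ : 0 < τ.im) {R : ℝ} {t : ℂ} (ht : |t.im| ≤ R) (n : ℕ) :
    ‖t1_u τ n t‖ ≤ (3 * Real.exp (2 * (2 * Real.pi * R))) * Real.exp (-(2 * Real.pi * τ.im)) ^ (n + 1) := by
  have hpi := Real.pi_pos
  set r := Real.exp (-(2 * Real.pi * τ.im)) with hr
  set E := Real.exp (2 * Real.pi * R) with hE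
  have hR : 0 ≤ R := (abs_nonneg _).trans ht
  have hr0 : 0 < r := Real.exp_pos _
  have hr1 : r ≤ 1 := by
    rw [hr]
    apply Real.exp_le_one_iff.2
    have : 0 ≤ 2 * Real.pi * τ.im := by positivity
    linarith
  have hE1 : 1 ≤ E := Real.one_le_exp (by positivity)
  have hEE : Real.exp (2 * (2 * Real.pi * R)) = E ^ 2 := by
    rw [hE, ← Real.exp_nat_mul]
    congr 1
  have key : ∀ s : ℂ, |s.im| ≤ R → ‖ee ((n + 1) * τ + s)‖ ≤ r ^ (n + 1) * E := by
    intro s hs
    rw [t1_norm_ee, hr, hE, ← Real.exp_nat_mul, ← Real.exp_add]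
    apply Real.exp_le_exp.2
    have h1 : (((n : ℂ) + 1) * τ + s).im = (n + 1) * τ.im + s.im := by
      simp
    rw [h1]
    have h2 := neg_abs_le s.im
    push_cast
    nlinarith
  have h1 := key t ht
  have h2 : ‖ee ((n + 1) * τ - t)‖ ≤ r ^ (n + 1) * E := by
    rw [sub_eq_add_neg]
    exact key (-t) (by simpa using ht)
  have h3 : t1_u τ n t = -ee ((n + 1) * τ + t) + (-ee ((n + 1) * τ - t)) +
      ee ((n + 1) * τ + t) * ee ((n + 1) * τ - t) := by
    rw [t1_u]; ring
  have hp0 : 0 ≤ r ^ (n + 1) := by positivity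
  have hp1 : r ^ (n + 1) ≤ 1 := pow_le_one₀ hr0.le hr1
  rw [h3, hEE]
  refine (norm_add₃_le).trans ?_
  rw [norm_neg, norm_neg, norm_mul]
  have h4 : ‖ee ((n + 1) * τ + t)‖ * ‖ee ((n + 1) * τ - t)‖ ≤ (r ^ (n + 1) * E) * (r ^ (n + 1) * E) :=
    mul_le_mul h1 h2 (norm_nonneg _) (by positivity)
  have h5 : (r ^ (n + 1) * E) * (r ^ (n + 1) * E) ≤ r ^ (n + 1) * E ^ 2 := by
    have : (r ^ (n + 1) * E) * (r ^ (n + 1) * E) = r ^ (n + 1) * (r ^ (n + 1) * E ^ 2) := by ring
    rw [this]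
    apply mul_le_mul_of_nonneg_left _ hp0
    have hE2 : 0 ≤ E ^ 2 := by positivity
    nlinarith
  have h6 : r ^ (n + 1) * E ≤ r ^ (n + 1) * E ^ 2 := by
    apply mul_le_mul_of_nonneg_left _ hp0
    nlinarith
  linarith

theorem t1_summable_geom {τ : ℂ} (hτ : 0 < τ.im) (C : ℝ) :
    Summable fun n : ℕ => C * Real.exp (-(2 * Real.pi * τ.im)) ^ (n + 1) := by
  have hpi := Real.pi_pos
  have hr1 : Real.exp (-(2 * Real.pi * τ.im)) < 1 := by
    rw [Real.exp_lt_one_iff]
    have : 0 < 2 * Real.pi * τ.im := by positivity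
    linarith
  exact (((summable_nat_add_iff 1).2
    (summable_geometric_of_lt_one (Real.exp_pos _).le hr1))).mul_left C

theorem t1_summable {τ : ℂ} (hτ : 0 < τ.im) (t : ℂ) : Summable fun n : ℕ => ‖t1_u τ n t‖ :=
  Summable.of_nonneg_of_le (fun _ => norm_nonneg _) (fun n => t1_bound hτ le_rfl n)
    (t1_summable_geom hτ _)

/-- T1a. PROOF. The factors are `1 + u_n` with `|u_n| ≤ C |p|^{n+1}`, `|p| = |ee τ| < 1` (for fixed `t`), so summable;
`multipliable_one_add_of_summable` or the like. -/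
theorem thp_multipliable (τ : ℂ) (hτ : 0 < τ.im) (t : ℂ) :
    Multipliable (fun n : ℕ => (1 - ee ((n + 1) * τ + t)) * (1 - ee ((n + 1) * τ - t))) := by
  simp_rw [t1_fact]
  exact Complex.multipliable_one_add_of_summable (t1_summable hτ t).of_norm

/-- T1b. The product of nonzero factors is nonzero. PROOF. `tprod_one_add_ne_zero_of_summable` (see the proof of
`ModularForm.eta_tprod_ne_zero` in Mathlib). -/
theorem thp_ne_zero (τ : ℂ) (hτ : 0 < τ.im) (t : ℂ)
    (h : ∀ n : ℕ, ee ((n + 1) * τ + t) ≠ 1 ∧ ee ((n + 1) * τ - t) ≠ 1) : thp τ t ≠ 0 := by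
  unfold thp
  simp_rw [t1_fact]
  refine tprod_one_add_ne_zero_of_summable (f := fun n => t1_u τ n t) ?_ (t1_summable hτ t)
  intro n
  rw [← t1_fact]
  exact mul_ne_zero (sub_ne_zero.2 (h n).1.symm) (sub_ne_zero.2 (h n).2.symm)

theorem t1_u_differentiable (τ : ℂ) (n : ℕ) : Differentiable ℂ (t1_u τ n) := by
  unfold t1_u ee
  fun_prop

/-- T1c. PROOF. The product converges locally uniformly in `t` (on bounded sets `|u_n(t)| ≤ C |p|^{n+1}`); Mathlib's
`Summable.hasProdLocallyUniformlyOn_...`, cf. `ModularForm.multipliableLocallyUniformlyOn_eta`,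
`differentiableOn_tprod...`. -/
theorem thp_differentiable (τ : ℂ) (hτ : 0 < τ.im) : Differentiable ℂ (thp τ) := by
  intro t
  set R : ℝ := |t.im| + 1 with hR
  have hK : IsOpen {s : ℂ | |s.im| < R} :=
    isOpen_lt (continuous_abs.comp Complex.continuous_im) continuous_const
  have h1 := Summable.hasProdLocallyUniformlyOn_nat_one_add (f := fun n s => t1_u τ n s) hK
    (t1_summable_geom hτ (3 * Real.exp (2 * (2 * Real.pi * R))))
    (Eventually.of_forall fun n s hs => t1_bound hτ (le_of_lt hs) n)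
    (fun n => (t1_u_differentiable τ n).continuous.continuousOn)
  have h2 : DifferentiableOn ℂ (fun s => ∏' n : ℕ, (1 + t1_u τ n s)) {s : ℂ | |s.im| < R} := by
    refine h1.differentiableOn (Eventually.of_forall fun s => ?_) hK
    have h3 : Differentiable ℂ (fun x => ∏ i ∈ s, (1 + t1_u τ i x)) := by
      have h4 : ∀ i ∈ s, Differentiable ℂ (fun x => 1 + t1_u τ i x) :=
        fun i _ => (t1_u_differentiable τ i).const_add 1
      exact Differentiable.fun_finsetProd h4
    exact h3.differentiableOn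
  have h5 : thp τ = fun s => ∏' n : ℕ, (1 + t1_u τ n s) := by
    funext s
    unfold thp
    simp_rw [t1_fact]
  rw [h5]
  exact h2.differentiableAt (hK.mem_nhds (by simp [hR]))

theorem th_differentiable (τ : ℂ) (hτ : 0 < τ.im) : Differentiable ℂ (th τ) := by
  unfold th
  exact (Complex.differentiable_sin.comp (differentiable_id.const_mul _)).mul (thp_differentiable τ hτ)

end Pool.Agent.MSP
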