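import Pool.Agent.Lib.MP_f58a57_nt.P.T1_Prod

/-! # T2: functional equations of the theta function (MP_f58a57_nt, pairs) -/

open Complex Filter Topology

noncomputable section

namespace Pool.Agent.MSP

/-- T2a. `sin` is odd, the two factors of each term of `thp` are exchanged. -/
theorem th_neg (τ t : ℂ) : th τ (-t) = -th τ t := by
  have h : thp τ (-t) = thp τ t := by
    unfold thp
    refine tprod_congr fun n => ?_
    rw [mul_comm, sub_neg_eq_add, ← sub_eq_add_neg]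
  unfold th
  rw [h, mul_neg, Complex.sin_neg, neg_mul]

theorem t2_ee_add (x y : ℂ) : ee (x + y) = ee x * ee y := by
  unfold ee
  rw [← Complex.exp_add]
  ring_nf

theorem t2_ee_one : ee 1 = 1 := by
  unfold ee
  rw [mul_one]
  exact Complex.exp_two_pi_mul_I

theorem t2_ee_add_one (x : ℂ) : ee (x + 1) = ee x := by
  rw [t2_ee_add, t2_ee_one, mul_one]

theorem t2_ee_sub_one (x : ℂ) : ee (x - 1) = ee x := by
  have h := t2_ee_add_one (x - 1)
  rw [sub_add_cancel] at h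
  exact h.symm

/-- T2b. `ee (x + 1) = ee x`, `sin(π(t+1)) = -sin(πt)`. -/
theorem th_add_one (τ t : ℂ) : th τ (t + 1) = -th τ t := by
  have h : thp τ (t + 1) = thp τ t := by
    unfold thp
    refine tprod_congr fun n => ?_
    rw [← add_assoc, t2_ee_add_one, ← sub_sub, t2_ee_sub_one]
  unfold th
  rw [h, mul_add, mul_one, Complex.sin_add_pi, neg_mul]

theorem t2_norm_ee (x : ℂ) : ‖ee x‖ = Real.exp (-(2 * Real.pi * x.im)) := by
  unfold ee
  rw [Complex.norm_exp]
  congr 1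
  simp

theorem t2_mul (τ : ℂ) (hτ : 0 < τ.im) (t : ℂ) :
    Multipliable (fun n : ℕ => 1 - ee ((n + 1) * τ + t)) := by
  have h : Summable (fun n : ℕ => ‖-ee ((n + 1) * τ + t)‖) := by
    have h0 : (fun n : ℕ => ‖-ee ((n + 1) * τ + t)‖) =
        fun n : ℕ => Real.exp (-(2 * Real.pi * (τ.im + t.im))) * Real.exp (-(2 * Real.pi * τ.im)) ^ n := by
      funext n
      rw [norm_neg, t2_norm_ee, ← Real.exp_nat_mul, ← Real.exp_add]
      congr 1
      simp
      ring
    rw [h0]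
    refine Summable.mul_left _ (summable_geometric_of_lt_one (Real.exp_pos _).le ?_)
    rw [Real.exp_lt_one_iff]
    have := Real.pi_pos
    have : 0 < 2 * Real.pi * τ.im := by positivity
    linarith
  have h1 := multipliable_one_add_of_summable h
  refine h1.congr ?_
  intro n
  ring

theorem t2_A (τ : ℂ) (hτ : 0 < τ.im) (t : ℂ) :
    ∏' n : ℕ, (1 - ee ((n + 1) * τ + t)) = (1 - ee (t + τ)) * ∏' n : ℕ, (1 - ee ((n + 1) * τ + (t + τ))) := by
  have e : ∀ n : ℕ, (1 - ee (((n + 1 : ℕ) + 1) * τ + t)) = (1 - ee ((n + 1) * τ + (t + τ))) := by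
    intro n
    congr 2
    push_cast
    ring
  have h := tprod_eq_zero_mul' (f := fun n : ℕ => 1 - ee ((n + 1) * τ + t))
    ((t2_mul τ hτ (t + τ)).congr fun n => (e n).symm)
  rw [h]
  congr 1
  · simp only [Nat.cast_zero, zero_add, one_mul]
    rw [add_comm]
  · exact tprod_congr e

theorem t2_B (τ : ℂ) (hτ : 0 < τ.im) (t : ℂ) :
    ∏' n : ℕ, (1 - ee ((n + 1) * τ - (t + τ))) = (1 - ee (-t)) * ∏' n : ℕ, (1 - ee ((n + 1) * τ - t)) := by
  have h := t2_A τ hτ (-(t + τ))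
  have e1 : ∀ n : ℕ, (1 - ee ((n + 1) * τ - (t + τ))) = (1 - ee ((n + 1) * τ + -(t + τ))) := by
    intro n
    rw [sub_eq_add_neg ((n + 1) * τ)]
  have e2 : ∀ n : ℕ, (1 - ee ((n + 1) * τ + (-(t + τ) + τ))) = (1 - ee ((n + 1) * τ - t)) := by
    intro n
    congr 2
    ring
  rw [tprod_congr e1, h, tprod_congr e2]
  congr 3
  ring

theorem t2_thp (τ : ℂ) (hτ : 0 < τ.im) (t : ℂ) :
    thp τ t = (∏' n : ℕ, (1 - ee ((n + 1) * τ + t))) * ∏' n : ℕ, (1 - ee ((n + 1) * τ - t)) := by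
  unfold thp
  refine Multipliable.tprod_mul (t2_mul τ hτ t) ?_
  exact (t2_mul τ hτ (-t)).congr fun n => by rw [← sub_eq_add_neg]

theorem t2_sin (x : ℂ) :
    Complex.sin (Real.pi * x) = I / 2 * cexp (-(Real.pi * I * x)) * (1 - ee x) := by
  have h : ee x = cexp (Real.pi * I * x) * cexp (Real.pi * I * x) := by
    unfold ee
    rw [← Complex.exp_add]
    ring_nf
  have h2 : cexp (-(Real.pi * I * x)) * cexp (Real.pi * I * x) = 1 := by
    rw [← Complex.exp_add, neg_add_cancel, Complex.exp_zero]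
  rw [h, Complex.sin]
  have e1 : -((Real.pi : ℂ) * x) * I = -(Real.pi * I * x) := by ring
  have e2 : ((Real.pi : ℂ) * x) * I = Real.pi * I * x := by ring
  rw [e1, e2]
  linear_combination (I / 2 * cexp (Real.pi * I * x)) * h2

theorem t2_sin' (x : ℂ) :
    Complex.sin (Real.pi * x) = -(I / 2) * cexp (Real.pi * I * x) * (1 - ee (-x)) := by
  have h := t2_sin (-x)
  rw [mul_neg, Complex.sin_neg] at h
  have e : -((Real.pi : ℂ) * I * -x) = Real.pi * I * x := by ring
  rw [e] at h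
  linear_combination -h

/-- T2c. PROOF. Let `p = ee τ`, `z = ee t`, `A(z) = ∏_{n≥0} (1 - p^{n+1} z)`, `B(z) = ∏_{n≥0} (1 - p^{n+1}/z)`, `thp τ t = A(z) B(z)`
(`Multipliable.tprod_mul`). `A(z) = (1 - pz) A(pz)` and `B(pz) = (1 - 1/z) B(z)` (split off the first factor,
`Multipliable.tprod_eq_zero_mul`; both products converge by the same estimate as T1a). Hence
`(1 - pz) thp τ (t+τ) = (1 - 1/z) thp τ t`. And `sin(πx) = (I/2) e^{-iπx} (1 - ee x)`, so
`th τ (t+τ) = (I/2) e^{-iπt-iπτ} (1 - pz) thp τ (t+τ) = (I/2) e^{-iπt-iπτ}(1 - 1/z) thp τ t = -e^{-iπτ} z⁻¹ sin(πt) thp τ t`. -/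
theorem th_add_tau (τ : ℂ) (hτ : 0 < τ.im) (t : ℂ) :
    th τ (t + τ) = -cexp (-(Real.pi * I * τ) - 2 * Real.pi * I * t) * th τ t := by
  have hA := t2_A τ hτ t
  have hB := t2_B τ hτ t
  have hs := t2_sin (t + τ)
  have hs' := t2_sin' t
  unfold th
  rw [t2_thp τ hτ (t + τ), t2_thp τ hτ t, hB, hA, hs, hs']
  have e : cexp (-(Real.pi * I * (t + τ))) =
      cexp (-(Real.pi * I * τ) - 2 * Real.pi * I * t) * cexp (Real.pi * I * t) := by
    rw [← Complex.exp_add]
    ring_nf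
  rw [e]
  ring

end Pool.Agent.MSP
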