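import Pool.Agent.Lib.MP_f58a57_nt.P.T6_Lim

/-! # T6c: behaviour of `wp` at the origin (MP_f58a57_nt, pairs) -/

open Complex Filter Topology

noncomputable section

namespace Pool.Agent.MSP

private lemma t6c_sin_bound (x : ℂ) (hx : ‖x‖ ≤ 1) :
    ‖Complex.sin x - (x - x ^ 3 / 6)‖ ≤ ‖x‖ ^ 4 := by
  have h1 := Complex.exp_bound (x := -x * I) (by simpa using hx) (n := 4) (by norm_num)
  have h2 := Complex.exp_bound (x := x * I) (by simpa using hx) (n := 4) (by norm_num)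
  have e1 : ‖-x * I‖ = ‖x‖ := by simp
  have e2 : ‖x * I‖ = ‖x‖ := by simp
  rw [e1] at h1
  rw [e2] at h2
  have hI3 : (I : ℂ) ^ 3 = -I := by rw [pow_succ, I_sq]; ring
  have hI4 : (I : ℂ) ^ 4 = 1 := by
    rw [show (4 : ℕ) = 2 * 2 by rfl, pow_mul, I_sq]; norm_num
  have key : Complex.sin x - (x - x ^ 3 / 6) =
      ((cexp (-x * I) - ∑ m ∈ Finset.range 4, (-x * I) ^ m / (m.factorial : ℂ)) -
        (cexp (x * I) - ∑ m ∈ Finset.range 4, (x * I) ^ m / (m.factorial : ℂ))) * I / 2 := by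
    rw [Complex.sin]
    simp only [Finset.sum_range_succ, Finset.sum_range_zero, Nat.factorial]
    push_cast
    ring_nf
    rw [hI4, I_sq]
    ring
  rw [key, norm_div, norm_mul, norm_I, mul_one, Complex.norm_two]
  have h3 := norm_sub_le (cexp (-x * I) - ∑ m ∈ Finset.range 4, (-x * I) ^ m / (m.factorial : ℂ))
    (cexp (x * I) - ∑ m ∈ Finset.range 4, (x * I) ^ m / (m.factorial : ℂ))
  have h4 : ‖x‖ ^ 4 * (((Nat.succ 4 : ℕ) : ℝ) * (((Nat.factorial 4 : ℕ) : ℝ) * ((4 : ℕ) : ℝ))⁻¹)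
      ≤ ‖x‖ ^ 4 := by
    have : (((Nat.succ 4 : ℕ) : ℝ) * (((Nat.factorial 4 : ℕ) : ℝ) * ((4 : ℕ) : ℝ))⁻¹) ≤ 1 := by
      norm_num [Nat.factorial]
    calc _ ≤ ‖x‖ ^ 4 * 1 := mul_le_mul_of_nonneg_left this (by positivity)
      _ = _ := mul_one _
  have h5 := h1.trans h4
  have h6 := h2.trans h4
  linarith

/-- `(x - sin x) / x³ → 1/6` -/
private lemma t6c_cubic : Tendsto (fun x : ℂ => (x - Complex.sin x) / x ^ 3) (𝓝[≠] 0) (𝓝 (1 / 6)) := by
  rw [tendsto_iff_norm_sub_tendsto_zero]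
  have hz : Tendsto (fun x : ℂ => ‖x‖) (𝓝[≠] 0) (𝓝 0) := by
    have : Tendsto (fun x : ℂ => ‖x‖) (𝓝 0) (𝓝 ‖(0 : ℂ)‖) := continuous_norm.tendsto 0
    rw [norm_zero] at this
    exact this.mono_left nhdsWithin_le_nhds
  refine squeeze_zero' (Eventually.of_forall fun x => norm_nonneg _) ?_ hz
  have hev : ∀ᶠ x : ℂ in 𝓝[≠] 0, ‖x‖ ≤ 1 := by
    have := hz.eventually (gt_mem_nhds (zero_lt_one))
    filter_upwards [this] with x hx using hx.le
  filter_upwards [hev, self_mem_nhdsWithin] with x hx hx0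
  have hx0' : x ≠ 0 := hx0
  have hxn : 0 < ‖x‖ := norm_pos_iff.mpr hx0'
  have : (x - Complex.sin x) / x ^ 3 - 1 / 6 = -(Complex.sin x - (x - x ^ 3 / 6)) / x ^ 3 := by
    field_simp
    ring
  rw [this, norm_div, norm_neg, norm_pow, div_le_iff₀ (by positivity)]
  calc _ ≤ ‖x‖ ^ 4 := t6c_sin_bound x hx
    _ = ‖x‖ * ‖x‖ ^ 3 := by ring

/-- `sin x / x → 1` -/
private lemma t6c_sinc : Tendsto (fun x : ℂ => Complex.sin x / x) (𝓝[≠] 0) (𝓝 1) := by
  have h : Tendsto (fun x : ℂ => 1 - x ^ 2 * ((x - Complex.sin x) / x ^ 3)) (𝓝[≠] 0)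
      (𝓝 (1 - 0 ^ 2 * (1 / 6))) := by
    have hx : Tendsto (fun x : ℂ => x ^ 2) (𝓝[≠] 0) (𝓝 (0 ^ 2)) :=
      ((continuous_pow 2).tendsto (0 : ℂ)).mono_left nhdsWithin_le_nhds
    exact tendsto_const_nhds.sub (hx.mul t6c_cubic)
  have h' : (1 : ℂ) - 0 ^ 2 * (1 / 6) = 1 := by ring
  rw [h'] at h
  refine h.congr' ?_
  filter_upwards [self_mem_nhdsWithin] with x hx0
  have hx0' : x ≠ 0 := hx0
  field_simp
  ring

/-- `1/sin² x - 1/x² → 1/3` -/
private lemma t6c_csc : Tendsto (fun x : ℂ => 1 / Complex.sin x ^ 2 - 1 / x ^ 2) (𝓝[≠] 0)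
    (𝓝 (1 / 3)) := by
  have h1 : Tendsto (fun x : ℂ => ((x - Complex.sin x) / x ^ 3) * (1 + Complex.sin x / x) /
      (Complex.sin x / x) ^ 2) (𝓝[≠] 0) (𝓝 ((1 / 6) * (1 + 1) / 1 ^ 2)) :=
    (t6c_cubic.mul (tendsto_const_nhds.add t6c_sinc)).div (t6c_sinc.pow 2) (by norm_num)
  have h2 : (1 / 6 : ℂ) * (1 + 1) / 1 ^ 2 = 1 / 3 := by norm_num
  rw [h2] at h1
  refine h1.congr' ?_
  have hne : ∀ᶠ x : ℂ in 𝓝[≠] 0, Complex.sin x / x ≠ 0 :=
    t6c_sinc.eventually_ne one_ne_zero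
  filter_upwards [self_mem_nhdsWithin, hne] with x hx0 hs
  have hx0' : x ≠ 0 := hx0
  have hs' : Complex.sin x ≠ 0 := fun h => hs (by rw [h, zero_div])
  field_simp
  ring

private lemma t6c_ee_ne_one (τ : ℂ) (hτ : 0 < τ.im) (n : ℕ) : ee ((n + 1) * τ) ≠ 1 := by
  intro h
  have h1 : ‖ee ((n + 1) * τ)‖ = 1 := by rw [h, norm_one]
  rw [ee, Complex.norm_exp] at h1
  have h2 : (2 * Real.pi * I * ((n + 1) * τ) : ℂ).re = -(2 * Real.pi * (n + 1) * τ.im) := by
    simp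
    ring
  rw [h2, Real.exp_eq_one_iff] at h1
  have : 0 < 2 * Real.pi * (n + 1) * τ.im := by positivity
  linarith

private lemma t6c_g0 (τ : ℂ) (hτ : 0 < τ.im) : thp τ 0 ≠ 0 := by
  apply thp_ne_zero τ hτ 0
  intro n
  rw [add_zero, sub_zero]
  exact ⟨t6c_ee_ne_one τ hτ n, t6c_ee_ne_one τ hτ n⟩

private lemma t6c_formula (τ s : ℂ) (hτ : 0 < τ.im) (t : ℂ) (hS : Complex.sin (Real.pi * t) ≠ 0)
    (hg : thp τ t ≠ 0) : wp τ s t = Real.pi ^ 2 / Complex.sin (Real.pi * t) ^ 2 -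
      deriv (logDeriv (thp τ)) t - s := by
  have hd : Differentiable ℂ (thp τ) := thp_differentiable τ hτ
  have hd2 : Differentiable ℂ (deriv (thp τ)) := fun z => (hd.analyticAt z).deriv.differentiableAt
  have hsin : ∀ z : ℂ, HasDerivAt (fun z : ℂ => Complex.sin (Real.pi * z))
      (Real.pi * Complex.cos (Real.pi * z)) z := by
    intro z
    have h1 : HasDerivAt (fun z : ℂ => (Real.pi : ℂ) * z) Real.pi z := by
      simpa using (hasDerivAt_id z).const_mul (Real.pi : ℂ)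
    have := (Complex.hasDerivAt_sin (Real.pi * z)).comp z h1
    rw [mul_comm] at this
    exact this
  have hcos : ∀ z : ℂ, HasDerivAt (fun z : ℂ => Real.pi * Complex.cos (Real.pi * z))
      (-(Real.pi ^ 2 * Complex.sin (Real.pi * z))) z := by
    intro z
    have h1 : HasDerivAt (fun z : ℂ => (Real.pi : ℂ) * z) Real.pi z := by
      simpa using (hasDerivAt_id z).const_mul (Real.pi : ℂ)
    have h2 := ((Complex.hasDerivAt_cos (Real.pi * z)).comp z h1).const_mul (Real.pi : ℂ)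
    have h3 : (Real.pi : ℂ) * (-Complex.sin (Real.pi * z) * Real.pi) =
        -(Real.pi ^ 2 * Complex.sin (Real.pi * z)) := by ring
    rw [h3] at h2
    exact h2
  have h1 : ∀ z, HasDerivAt (th τ) (Real.pi * Complex.cos (Real.pi * z) * thp τ z +
      Complex.sin (Real.pi * z) * deriv (thp τ) z) z := fun z =>
    (hsin z).mul (hd z).hasDerivAt
  have h1' : deriv (th τ) = fun z => Real.pi * Complex.cos (Real.pi * z) * thp τ z +
      Complex.sin (Real.pi * z) * deriv (thp τ) z := funext fun z => (h1 z).deriv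
  have h2 : deriv (deriv (th τ)) t = (-(Real.pi ^ 2 * Complex.sin (Real.pi * t)) * thp τ t +
      Real.pi * Complex.cos (Real.pi * t) * deriv (thp τ) t) +
      (Real.pi * Complex.cos (Real.pi * t) * deriv (thp τ) t +
        Complex.sin (Real.pi * t) * deriv (deriv (thp τ)) t) := by
    rw [h1']
    exact (((hcos t).mul (hd t).hasDerivAt).add ((hsin t).mul (hd2 t).hasDerivAt)).deriv
  have h3 : deriv (logDeriv (thp τ)) t =
      (deriv (deriv (thp τ)) t * thp τ t - deriv (thp τ) t * deriv (thp τ) t) / thp τ t ^ 2 :=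
    ((hd2 t).hasDerivAt.div (hd t).hasDerivAt hg).deriv
  rw [wp, N2, N0, h3, h2, h1']
  have hcs := Complex.sin_sq_add_cos_sq (Real.pi * t)
  have hth : th τ t = Complex.sin (Real.pi * t) * thp τ t := rfl
  rw [hth]
  field_simp
  linear_combination (Real.pi ^ 2 * thp τ t ^ 2) * hcs

/-- T6c. PROOF. For `t ≠ 0` near `0`: `th = sin(πt) thp`, so `th'/th = π cot(πt) + thp'/thp` and
`wp τ s t = -(th'/th)' - s = π²/sin²(πt) - (thp'/thp)'(t) - s` (as `N2/N0² = -(N1/N0)' - s`). `π²/sin²(πt) - 1/t² → π²/3`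
(Taylor), `(thp'/thp)'` is continuous at `0` (analytic) with value T6a, and T6b: the limit is `0`. -/
theorem wp_lim (τ : ℂ) (hτ : 0 < τ.im) :
    Tendsto (fun t : ℂ => wp τ (sE τ) t - 1 / t ^ 2) (𝓝[≠] 0) (𝓝 0) := by
  have hd : Differentiable ℂ (thp τ) := thp_differentiable τ hτ
  have hg0 := t6c_g0 τ hτ
  have hpi : (Real.pi : ℂ) ≠ 0 := by exact_mod_cast Real.pi_ne_zero
  -- continuity of the second logarithmic derivative
  have hcont : Tendsto (fun t => deriv (logDeriv (thp τ)) t) (𝓝[≠] 0)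
      (𝓝 (deriv (logDeriv (thp τ)) 0)) := by
    have ha : AnalyticAt ℂ (logDeriv (thp τ)) 0 := (hd.analyticAt 0).deriv.div (hd.analyticAt 0) hg0
    exact (ha.deriv.continuousAt.tendsto).mono_left nhdsWithin_le_nhds
  -- the scaled cosecant
  have hscale : Tendsto (fun t : ℂ => (Real.pi : ℂ) * t) (𝓝[≠] 0) (𝓝[≠] 0) := by
    rw [tendsto_nhdsWithin_iff]
    refine ⟨?_, ?_⟩
    · have : Tendsto (fun t : ℂ => (Real.pi : ℂ) * t) (𝓝 0) (𝓝 ((Real.pi : ℂ) * 0)) :=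
        (continuous_const.mul continuous_id).tendsto 0
      rw [mul_zero] at this
      exact this.mono_left nhdsWithin_le_nhds
    · filter_upwards [self_mem_nhdsWithin] with t ht
      exact mul_ne_zero hpi ht
  have hcsc := (t6c_csc.comp hscale).const_mul ((Real.pi : ℂ) ^ 2)
  have htot := (hcsc.sub hcont).sub (tendsto_const_nhds (x := sE τ))
  have hval : (Real.pi : ℂ) ^ 2 * (1 / 3) - deriv (logDeriv (thp τ)) 0 - sE τ = 0 := by
    rw [deriv_logDeriv_thp τ hτ, sE_eq τ hτ]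
    ring
  rw [hval] at htot
  refine htot.congr' ?_
  have hgne : ∀ᶠ t : ℂ in 𝓝[≠] 0, thp τ t ≠ 0 :=
    (hd.continuous.continuousAt.eventually_ne hg0).filter_mono nhdsWithin_le_nhds
  have hsne : ∀ᶠ t : ℂ in 𝓝[≠] 0, Complex.sin (Real.pi * t) ≠ 0 := by
    have h1 := hscale.eventually (t6c_sinc.eventually_ne one_ne_zero)
    filter_upwards [h1] with t ht h0
    exact ht (by rw [h0, zero_div])
  filter_upwards [self_mem_nhdsWithin, hgne, hsne] with t ht hg hS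
  have ht' : t ≠ 0 := ht
  rw [t6c_formula τ (sE τ) hτ t hS hg]
  simp only [Function.comp_apply]
  field_simp
  ring

end Pool.Agent.MSP
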