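import Pool.Agent.Lib.MP_f58a57_nt.P.T6c_Lim
import Pool.Agent.Lib.MP_f58a57_nt.P.T4_Shift

/-! # T7: `wp` is the Weierstrass function of `ℤ + ℤτ` (MP_f58a57_nt, pairs) -/

open Complex Filter Topology

noncomputable section

namespace Pool.Agent.MSP

theorem pp_indep (τ : ℂ) (hτ : 0 < τ.im) : LinearIndependent ℝ ![(1 : ℂ), τ] := by
  rw [LinearIndependent.pair_iff]
  intro a b h
  have him := congrArg Complex.im h
  simp at him
  have hb : b = 0 := by
    rcases him with h' | h'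
    · exact h'
    · exact absurd h' hτ.ne'
  have hre := congrArg Complex.re h
  simp [hb] at hre
  exact ⟨hre, hb⟩

/-- the period pair `(1, τ)` -/
def pp (τ : ℂ) (hτ : 0 < τ.im) : PeriodPair := ⟨1, τ, pp_indep τ hτ⟩

theorem mem_pp (τ : ℂ) (hτ : 0 < τ.im) (t : ℂ) : t ∈ (pp τ hτ).lattice ↔ th τ t = 0 := by
  rw [PeriodPair.mem_lattice, th_eq_zero_iff τ hτ]
  constructor
  · rintro ⟨m, n, h⟩
    exact ⟨m, n, by rw [← h]; simp [pp]⟩
  · rintro ⟨m, n, h⟩
    exact ⟨m, n, by rw [h]; simp [pp]⟩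

theorem t7_wp_add (τ : ℂ) (hτ : 0 < τ.im) (s : ℂ) (m n : ℤ) (t : ℂ) :
    wp τ s (t + m + n * τ) = wp τ s t := by
  unfold wp
  rw [N2_shift τ s hτ, N0_shift τ hτ, mul_pow]
  exact mul_div_mul_left _ _ (pow_ne_zero 2 (au_ne τ m n t))

theorem t7_wp_lat (τ : ℂ) (hτ : 0 < τ.im) (s : ℂ) (l : (pp τ hτ).lattice) (t : ℂ) :
    wp τ s (t + l) = wp τ s t := by
  obtain ⟨m, n, h⟩ := PeriodPair.mem_lattice.1 l.2
  rw [← h, ← t7_wp_add τ hτ s m n t]
  congr 1
  simp only [pp]
  ring

theorem t7_analytic (τ : ℂ) (hτ : 0 < τ.im) (s t : ℂ) (ht : th τ t ≠ 0) :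
    AnalyticAt ℂ (wp τ s) t := by
  have h1 : AnalyticAt ℂ (th τ) t := (th_differentiable τ hτ).analyticAt t
  have h2 : AnalyticAt ℂ (deriv (th τ)) t := h1.deriv
  have h3 : AnalyticAt ℂ (deriv (deriv (th τ))) t := h2.deriv
  have h4 : AnalyticAt ℂ (fun t => N2 τ s t) t := by
    unfold N2
    fun_prop
  have h5 : AnalyticAt ℂ (fun t => N0 τ t ^ 2) t := by
    unfold N0
    fun_prop
  exact h4.div h5 (pow_ne_zero 2 ht)

open Classical in
/-- the difference of the two functions, `0` on the lattice -/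
def t7_D (τ : ℂ) (hτ : 0 < τ.im) (x : ℂ) : ℂ :=
  if x ∈ (pp τ hτ).lattice then 0 else wp τ (sE τ) x - (pp τ hτ).weierstrassP x

theorem t7_D_add (τ : ℂ) (hτ : 0 < τ.im) (x : ℂ) (l : (pp τ hτ).lattice) :
    t7_D τ hτ (x + l) = t7_D τ hτ x := by
  unfold t7_D
  rw [t7_wp_lat, PeriodPair.weierstrassP_add_coe]
  have h : (x + l ∈ (pp τ hτ).lattice) ↔ (x ∈ (pp τ hτ).lattice) := by
    simpa using ((pp τ hτ).lattice.toAddSubgroup.add_mem_cancel_right (y := x) l.2)
  by_cases hx : x ∈ (pp τ hτ).lattice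
  · rw [if_pos (h.2 hx), if_pos hx]
  · rw [if_neg (fun h' => hx (h.1 h')), if_neg hx]

theorem t7_D_off (τ : ℂ) (hτ : 0 < τ.im) (x : ℂ) (hx : x ∉ (pp τ hτ).lattice) :
    AnalyticAt ℂ (t7_D τ hτ) x := by
  have h1 : AnalyticAt ℂ (wp τ (sE τ)) x :=
    t7_analytic τ hτ _ x (fun h => hx ((mem_pp τ hτ x).2 h))
  have h2 : AnalyticAt ℂ (pp τ hτ).weierstrassP x :=
    (pp τ hτ).analyticOnNhd_weierstrassP x hx
  have h3 : AnalyticAt ℂ (fun x => wp τ (sE τ) x - (pp τ hτ).weierstrassP x) x := h1.sub h2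
  refine h3.congr ?_
  filter_upwards [(pp τ hτ).isClosed_lattice.isOpen_compl.mem_nhds hx] with y hy
  unfold t7_D
  rw [if_neg (show y ∉ (pp τ hτ).lattice from hy)]

theorem t7_D_zero (τ : ℂ) (hτ : 0 < τ.im) : AnalyticAt ℂ (t7_D τ hτ) 0 := by
  set L := pp τ hτ with hL
  have hev : ∀ᶠ x in 𝓝[≠] (0 : ℂ), x ∉ L.lattice := by
    have h1 := L.compl_lattice_sdiff_singleton_mem_nhds 0
    filter_upwards [nhdsWithin_le_nhds h1, self_mem_nhdsWithin] with x hx hx0
    intro hxL
    exact hx ⟨hxL, hx0⟩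
  have h0 : t7_D τ hτ 0 = 0 := by
    unfold t7_D
    rw [if_pos (zero_mem _)]
  have hP : Tendsto (fun t : ℂ => L.weierstrassP t - 1 / t ^ 2) (𝓝[≠] 0) (𝓝 0) := by
    have h1 : ∀ t : ℂ, L.weierstrassP t - 1 / t ^ 2 = L.weierstrassPExcept 0 t := by
      intro t
      have := L.weierstrassPExcept_add 0 t
      simp only [ZeroMemClass.coe_zero, sub_zero] at this
      rw [← this]
      simp
    have h2 : Tendsto (L.weierstrassPExcept 0) (𝓝 0) (𝓝 0) := by
      have h3 := (L.analyticAt_weierstrassPExcept 0).continuousAt.tendsto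
      rwa [L.weierstrassPExcept_zero] at h3
    refine (h2.mono_left nhdsWithin_le_nhds).congr fun t => (h1 t).symm
  have hD : Tendsto (t7_D τ hτ) (𝓝[≠] 0) (𝓝 0) := by
    have h1 := (wp_lim τ hτ).sub hP
    rw [sub_zero] at h1
    refine h1.congr' ?_
    filter_upwards [hev] with x hx
    unfold t7_D
    rw [if_neg hx]
    ring
  refine Complex.analyticAt_of_differentiable_on_punctured_nhds_of_continuousAt ?_ ?_
  · filter_upwards [hev] with x hx
    exact (t7_D_off τ hτ x hx).differentiableAt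
  · rw [continuousAt_iff_punctured_nhds, h0]
    exact hD

theorem t7_D_analytic (τ : ℂ) (hτ : 0 < τ.im) (x : ℂ) : AnalyticAt ℂ (t7_D τ hτ) x := by
  by_cases hx : x ∈ (pp τ hτ).lattice
  · have h0 := t7_D_zero τ hτ
    have h1 : AnalyticAt ℂ (fun y => t7_D τ hτ (y - x)) x := by
      have h2 : AnalyticAt ℂ (t7_D τ hτ) ((fun y : ℂ => y - x) x) := by
        simpa using h0
      exact h2.comp (f := fun y : ℂ => y - x) (by fun_prop)
    refine h1.congr (Eventually.of_forall fun y => ?_)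
    have := t7_D_add τ hτ (y - x) ⟨x, hx⟩
    simp only [sub_add_cancel] at this
    exact this.symm
  · exact t7_D_off τ hτ x hx

/-- T7. PROOF. Both sides are analytic off the lattice (`wp = N2/N0²`, `N0 = th ≠ 0` there; Mathlib
`analyticOnNhd_weierstrassP`), and periodic (T4; `weierstrassP_add_coe`). At `0` the difference tends to `0`:
`wp - 1/t² → 0` (T6c) and `℘ - 1/t² → 0` (Mathlib: `weierstrassPExcept 0` is analytic at `0` with value `0`,
`weierstrassPExcept_add`, `weierstrassPExcept_zero`). So the difference `D`, extended by `0` on the lattice, is continuous and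
analytic off the lattice, hence entire (removable singularities:
`Complex.differentiableOn_update_limUnder_of_isLittleO` or
`DifferentiableOn... continuousAt`), periodic for `1` and `τ`, so bounded, so constant (`Differentiable.apply_eq_apply_of_bounded`),
`= D 0 = 0`. See Mathlib's proof of `PeriodPair.relation_eq_zero` for the same pattern. -/
theorem wp_eq (τ : ℂ) (hτ : 0 < τ.im) (t : ℂ) (ht : th τ t ≠ 0) :
    wp τ (sE τ) t = (pp τ hτ).weierstrassP t := by
  have hd : Differentiable ℂ (t7_D τ hτ) := fun x => (t7_D_analytic τ hτ x).differentiableAt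
  have h1 : t7_D τ hτ t = t7_D τ hτ 0 :=
    hd.apply_eq_apply_of_bounded (IsZLattice.isCompact_range_of_periodic (pp τ hτ).lattice _
      hd.continuous fun z w hw => by
        have := t7_D_add τ hτ z ⟨w, hw⟩
        exact this).isBounded t 0
  have h0 : t7_D τ hτ 0 = 0 := by
    unfold t7_D
    rw [if_pos (zero_mem _)]
  rw [h0] at h1
  unfold t7_D at h1
  rw [if_neg (fun h => ht ((mem_pp τ hτ t).1 h))] at h1
  exact sub_eq_zero.1 h1

end Pool.Agent.MSP
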