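import Pool.Agent.Lib.MP_f58a57_nt.P.T7_Wp

/-! # T8: the invariants and the differential equation (MP_f58a57_nt, pairs) -/

open Complex Filter Topology

noncomputable section

namespace Pool.Agent.MSP

/-- the lattice sum is the Eisenstein series -/
theorem t8_G (τ : ℂ) (hτ : 0 < τ.im) {k : ℕ} (hk : 3 ≤ k) :
    (pp τ hτ).G k = 2 * riemannZeta k * ModularForm.E hk (UpperHalfPlane.ofComplex τ) := by
  have hz : UpperHalfPlane.ofComplex τ = ⟨τ, hτ⟩ := UpperHalfPlane.ofComplex_apply_of_im_pos hτ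
  rw [hz]
  have h1 := tsum_eisSummand_eq_riemannZeta_mul_eisensteinSeries hk (⟨τ, hτ⟩ : UpperHalfPlane)
  have h2 : ModularForm.E hk (⟨τ, hτ⟩ : UpperHalfPlane) =
      (1 / 2 : ℂ) * eisensteinSeries (N := 1) 0 k ⟨τ, hτ⟩ := by
    rw [show ModularForm.E hk (⟨τ, hτ⟩ : UpperHalfPlane) =
      (1 / 2 : ℂ) • EisensteinSeries.eisensteinSeriesSIF (N := 1) 0 k ⟨τ, hτ⟩ from rfl,
      EisensteinSeries.eisensteinSeriesSIF_apply 0 k, smul_eq_mul]
  have h3 : 2 * riemannZeta k * ((1 / 2 : ℂ) * eisensteinSeries (N := 1) 0 k ⟨τ, hτ⟩) =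
      riemannZeta k * eisensteinSeries (N := 1) 0 k ⟨τ, hτ⟩ := by ring
  rw [h2, h3, ← h1]
  set e : (Fin 2 → ℤ) ≃ (pp τ hτ).lattice :=
    ((finTwoArrowEquiv ℤ).trans (Equiv.prodComm ℤ ℤ)).trans
      (pp τ hτ).latticeEquivProd.symm.toEquiv with he
  rw [PeriodPair.G, ← e.tsum_eq]
  apply tsum_congr
  intro v
  have h4 : ((e v : (pp τ hτ).lattice) : ℂ) = v 0 * τ + v 1 := by
    have h5 := (pp τ hτ).latticeEquiv_symm_apply (v 1, v 0)
    have h6 : e v = (pp τ hτ).latticeEquivProd.symm (v 1, v 0) := by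
      rw [he]
      rfl
    rw [h6, h5]
    simp only [pp]
    ring
  rw [h4, EisensteinSeries.eisSummand, zpow_neg, zpow_natCast]

theorem t8_bernoulli_six : bernoulli 6 = 1 / 42 := by
  have h5 : bernoulli' 5 = 0 := bernoulli'_eq_zero_of_odd (by decide) (by norm_num)
  have c2 : Nat.choose 6 2 = 15 := by decide
  have c3 : Nat.choose 6 3 = 20 := by decide
  have c4 : Nat.choose 6 4 = 15 := by decide
  rw [bernoulli_eq_bernoulli'_of_ne_one (by norm_num), bernoulli'_def]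
  norm_num [Finset.sum_range_succ, Finset.sum_range_zero, h5, c2, c3, c4]

theorem t8_zeta_six : riemannZeta 6 = (Real.pi : ℂ) ^ 6 / 945 := by
  have h := riemannZeta_two_mul_nat (k := 3) (by norm_num)
  have e1 : (2 * ((3 : ℕ) : ℂ)) = 6 := by norm_num
  have e2 : 2 * 3 = 6 := by norm_num
  rw [e1, e2, t8_bernoulli_six] at h
  rw [h]
  simp only [Nat.factorial]
  push_cast
  ring

/-- T8a. `g₂ = 60 ∑ λ⁻⁴ = 60 · 2ζ(4) E₄ = (4/3) π⁴ E₄`. PROOF. `PeriodPair.g₂ = 60 * G 4`, `G 4 = ∑' l : lattice, (l^4)⁻¹`; reindex by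
`PeriodPair.latticeEquivProd` as a sum over pairs of integers; Mathlib: the sum over all pairs is `2ζ(k)` times the normalised
Eisenstein series (`EisensteinSeries`: `tsum_eisSummand_eq_riemannZeta_mul_eisensteinSeries` or the like; the definition of `E₄` is
`ModularForm.E`/`EisensteinSeries.E`), `riemannZeta_four`. -/
theorem g2_eq (τ : ℂ) (hτ : 0 < τ.im) : (pp τ hτ).g₂ = 4 / 3 * Real.pi ^ 4 * MSD.e4 τ := by
  have h : (pp τ hτ).G 4 = 2 * riemannZeta (4 : ℕ) * MSD.e4 τ := t8_G τ hτ (by norm_num)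
  rw [PeriodPair.g₂, h]
  push_cast
  rw [riemannZeta_four]
  ring

/-- T8b. `g₃ = 140 ∑ λ⁻⁶ = 140 · 2ζ(6) E₆ = (8/27) π⁶ E₆`; `ζ(6) = π⁶/945` (`riemannZeta_two_mul_nat` with Bernoulli numbers). -/
theorem g3_eq (τ : ℂ) (hτ : 0 < τ.im) : (pp τ hτ).g₃ = 8 / 27 * Real.pi ^ 6 * MSD.e6 τ := by
  have h : (pp τ hτ).G 6 = 2 * riemannZeta (6 : ℕ) * MSD.e6 τ := t8_G τ hτ (by norm_num)
  rw [PeriodPair.g₃, h]
  push_cast
  rw [t8_zeta_six]
  ring

end Pool.Agent.MSP
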