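import Pool.Agent.Lib.MP_f58a57_nt.P.V1_Leib

/-! # V2: derivatives along the diagonal (MP_f58a57_nt, pairs) -/

open Complex Filter Topology

noncomputable section

namespace Pool.Agent.MSP

variable {G : ℂ → ℂ → ℂ}

theorem v2_swap {H : ℂ → ℂ → ℂ} {t w : ℂ} (h : An2 H t w) : An2 (fun w' t' => H t' w') w t := by
  have h1 : AnalyticAt ℂ (fun p : ℂ × ℂ => H p.1 p.2) ((fun q : ℂ × ℂ => (q.2, q.1)) (w, t)) := h
  have h2 : AnalyticAt ℂ (fun q : ℂ × ℂ => (q.2, q.1)) (w, t) := analyticAt_snd.prod analyticAt_fst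
  exact AnalyticAt.comp (f := fun q : ℂ × ℂ => (q.2, q.1)) h1 h2

theorem v2_slice_left {H : ℂ → ℂ → ℂ} {t w : ℂ} (h : An2 H t w) : AnalyticAt ℂ (fun t' => H t' w) t := by
  have h1 : AnalyticAt ℂ (fun p : ℂ × ℂ => H p.1 p.2) ((fun t' : ℂ => (t', w)) t) := h
  have h2 : AnalyticAt ℂ (fun t' : ℂ => (t', w)) t := analyticAt_id.prod analyticAt_const
  exact AnalyticAt.comp (f := fun t' : ℂ => (t', w)) h1 h2

theorem v2_slice_right {H : ℂ → ℂ → ℂ} {t w : ℂ} (h : An2 H t w) : AnalyticAt ℂ (H t) w :=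
  v2_slice_left (v2_swap h)

/-- V2a. PROOF. `(t,w) ↦ dd r s G t w` is analytic everywhere: `∂_t`, `∂_w` are `fderiv` applied to `(1,0)`, `(0,1)`. -/
theorem an2_dd (hG : ∀ t w, An2 G t w) (r s : ℕ) : ∀ t w, An2 (dd r s G) t w := by
  intro t w
  have h1 : An2 (fun t w => iteratedDeriv s (G t) w) t w := an2_iter G t w (hG t w) s
  have h2 : An2 (fun w' t' => iteratedDeriv s (G t') w') w t := v2_swap h1
  have h3 := an2_iter (fun w' t' => iteratedDeriv s (G t') w') w t h2 r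
  exact v2_swap h3

theorem v2_fderiv_left {H : ℂ → ℂ → ℂ} {t w : ℂ} (h : An2 H t w) :
    HasDerivAt (fun t' => H t' w) (fderiv ℂ (fun p : ℂ × ℂ => H p.1 p.2) (t, w) (1, 0)) t := by
  have h1 : HasFDerivAt (fun p : ℂ × ℂ => H p.1 p.2) (fderiv ℂ (fun p : ℂ × ℂ => H p.1 p.2) (t, w))
      ((fun t' : ℂ => (t', w)) t) := h.differentiableAt.hasFDerivAt
  have h2 : HasDerivAt (fun t' : ℂ => (t', w)) ((1 : ℂ), (0 : ℂ)) t :=
    (hasDerivAt_id t).prodMk (hasDerivAt_const t w)
  exact h1.comp_hasDerivAt t h2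

theorem v2_fderiv_right {H : ℂ → ℂ → ℂ} {t w : ℂ} (h : An2 H t w) :
    HasDerivAt (fun w' => H t w') (fderiv ℂ (fun p : ℂ × ℂ => H p.1 p.2) (t, w) (0, 1)) w := by
  have h1 : HasFDerivAt (fun p : ℂ × ℂ => H p.1 p.2) (fderiv ℂ (fun p : ℂ × ℂ => H p.1 p.2) (t, w))
      ((fun w' : ℂ => (t, w')) w) := h.differentiableAt.hasFDerivAt
  have h2 : HasDerivAt (fun w' : ℂ => (t, w')) ((0 : ℂ), (1 : ℂ)) w :=
    (hasDerivAt_const w t).prodMk (hasDerivAt_id w)
  exact h1.comp_hasDerivAt w h2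

private theorem v2_aux {E : Type*} [NormedAddCommGroup E] [NormedSpace ℂ E] {F : E → E →L[ℂ] ℂ}
    {F2 : E →L[ℂ] E →L[ℂ] ℂ} {p : E} (h : HasFDerivAt F F2 p) {g : ℂ → E} {g2 : E} {t : ℂ}
    (hg : HasDerivAt g g2 t) (hp : g t = p) (v : E) : HasDerivAt (fun s => F (g s) v) (F2 g2 v) t := by
  subst hp
  have h1 : HasDerivAt (fun s => F (g s)) (F2 g2) t := h.comp_hasDerivAt t hg
  exact ((ContinuousLinearMap.apply ℂ ℂ v).hasFDerivAt.comp_hasDerivAt t h1)

theorem v2_symm {H : ℂ → ℂ → ℂ} (h : ∀ t w, An2 H t w) (t w : ℂ) :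
    deriv (fun w' => deriv (fun t' => H t' w') t) w = deriv (fun t' => deriv (fun w' => H t' w') w) t := by
  set f : ℂ × ℂ → ℂ := fun p => H p.1 p.2 with hf
  have hd : ∀ p : ℂ × ℂ, HasFDerivAt f (fderiv ℂ f p) p := fun p =>
    (h p.1 p.2).differentiableAt.hasFDerivAt
  have hd2 : HasFDerivAt (fderiv ℂ f) (fderiv ℂ (fderiv ℂ f) (t, w)) (t, w) :=
    ((h t w).fderiv).differentiableAt.hasFDerivAt
  have hs := second_derivative_symmetric hd hd2 (0, 1) (1, 0)
  have e1 : (fun w' => deriv (fun t' => H t' w') t) = fun w' => fderiv ℂ f (t, w') (1, 0) := by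
    funext w'
    exact (v2_fderiv_left (h t w')).deriv
  have e2 : (fun t' => deriv (fun w' => H t' w') w) = fun t' => fderiv ℂ f (t', w) (0, 1) := by
    funext t'
    exact (v2_fderiv_right (h t' w)).deriv
  rw [e1, e2]
  have h2 : HasDerivAt (fun w' : ℂ => (t, w')) ((0 : ℂ), (1 : ℂ)) w :=
    (hasDerivAt_const w t).prodMk (hasDerivAt_id w)
  have h3 : HasDerivAt (fun t' : ℂ => (t', w)) ((1 : ℂ), (0 : ℂ)) t :=
    (hasDerivAt_id t).prodMk (hasDerivAt_const t w)
  rw [(v2_aux hd2 h2 rfl (1, 0)).deriv, (v2_aux hd2 h3 rfl (0, 1)).deriv]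
  exact hs

theorem v2_comm (r : ℕ) : ∀ (H : ℂ → ℂ → ℂ), (∀ t w, An2 H t w) → ∀ t w : ℂ,
    deriv (fun w' => iteratedDeriv r (fun t' => H t' w') t) w = iteratedDeriv r (fun t' => deriv (H t') w) t := by
  induction r with
  | zero =>
    intro H h t w
    simp only [iteratedDeriv_zero]
  | succ r ih =>
    intro H h t w
    have hD1 : ∀ t w, An2 (fun t w => deriv (fun t' => H t' w) t) t w := by
      intro t w
      have h3 := an2_iter (fun w' t' => H t' w') w t (v2_swap (h t w)) 1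
      have h4 := v2_swap h3
      simpa only [iteratedDeriv_one] using h4
    have key := ih (fun t w => deriv (fun t' => H t' w) t) hD1 t w
    have e1 : (fun w' => iteratedDeriv (r + 1) (fun t' => H t' w') t) =
        fun w' => iteratedDeriv r (fun t' => deriv (fun t'' => H t'' w') t') t := by
      funext w'
      rw [iteratedDeriv_succ']
    rw [e1]
    have e2 : iteratedDeriv (r + 1) (fun t' => deriv (H t') w) t =
        iteratedDeriv r (fun t' => deriv (fun t'' => deriv (H t'') w) t') t := by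
      rw [iteratedDeriv_succ']
    rw [e2]
    have e3 : (fun t' => deriv (fun t'' => deriv (H t'') w) t') =
        fun t' => deriv ((fun t w => deriv (fun t' => H t' w) t) t') w := by
      funext t'
      exact (v2_symm h t' w).symm
    rw [e3]
    exact key

/-- V2b. `∂_t dd r s G = dd (r+1) s G` (definition: `iteratedDeriv_succ`) and `∂_w dd r s G = dd r (s+1) G` (symmetry of second derivatives of
analytic functions: `∂_w ∂_t = ∂_t ∂_w`, induction on `r`; `second_derivative_symmetric` or `ContDiffAt.isSymmSndFDerivAt`). -/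
theorem deriv_dd_left (hG : ∀ t w, An2 G t w) (r s : ℕ) (t w : ℂ) :
    HasDerivAt (fun t' => dd r s G t' w) (dd (r + 1) s G t w) t := by
  have h1 := (v2_slice_left (an2_dd hG r s t w)).differentiableAt.hasDerivAt
  have e : dd (r + 1) s G t w = deriv (fun t' => dd r s G t' w) t := by
    unfold dd
    rw [iteratedDeriv_succ]
  rw [e]
  exact h1

theorem deriv_dd_right (hG : ∀ t w, An2 G t w) (r s : ℕ) (t w : ℂ) :
    HasDerivAt (fun w' => dd r s G t w') (dd r (s + 1) G t w) w := by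
  have h1 := (v2_slice_right (an2_dd hG r s t w)).differentiableAt.hasDerivAt
  have e : dd r (s + 1) G t w = deriv (dd r s G t) w := by
    have h2 := v2_comm r (fun t w => iteratedDeriv s (G t) w) (fun t w => an2_iter G t w (hG t w) s) t w
    unfold dd
    have e3 : (fun t' => iteratedDeriv (s + 1) (G t') w) = fun t' => deriv ((fun t w => iteratedDeriv s (G t) w) t') w := by
      funext t'
      rw [iteratedDeriv_succ]
    rw [e3]
    exact h2.symm
  rw [e]
  exact h1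

/-- V2c. chain rule along the diagonal. -/
theorem deriv_dd_diag (hG : ∀ t w, An2 G t w) (r s : ℕ) (t : ℂ) :
    HasDerivAt (fun t' => dd r s G t' t') (dd (r + 1) s G t t + dd r (s + 1) G t t) t := by
  have ha := an2_dd hG r s t t
  have h1 : HasFDerivAt (fun p : ℂ × ℂ => dd r s G p.1 p.2) (fderiv ℂ (fun p : ℂ × ℂ => dd r s G p.1 p.2) (t, t))
      ((fun t' : ℂ => (t', t')) t) := ha.differentiableAt.hasFDerivAt
  have h2 : HasDerivAt (fun t' : ℂ => (t', t')) ((1 : ℂ), (1 : ℂ)) t :=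
    (hasDerivAt_id t).prodMk (hasDerivAt_id t)
  have h3 := HasFDerivAt.comp_hasDerivAt (f := fun t' : ℂ => (t', t')) t h1 h2
  have e1 := (v2_fderiv_left ha).unique (deriv_dd_left hG r s t t)
  have e2 := (v2_fderiv_right ha).unique (deriv_dd_right hG r s t t)
  rw [← e1, ← e2, ← map_add]
  have e3 : ((1 : ℂ), (0 : ℂ)) + ((0 : ℂ), (1 : ℂ)) = ((1 : ℂ), (1 : ℂ)) := by
    simp
  rw [e3]
  exact h3

end Pool.Agent.MSP
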