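import Pool.Agent.Lib.MP_f58a57_nt.P.G3_Bound
import Pool.Agent.Lib.MP_f58a57_nt.P.M2_Schwarz

/-! # Z1: bound on horizontal lines (MP_f58a57_nt, pairs) -/

open Complex Filter Topology

noncomputable section

namespace Pool.Agent.MSP

/-- the derivatives of order `< T` vanish at the diagonal points `pts` -/
def Van (c₁ c₂ : Cv) (P : Pr) (coef : ℕ × ℕ × ℕ × ℕ × ℕ → ℂ) {q : ℕ} (pts : Fin q → ℝ) (T : ℕ) : Prop :=
  ∀ j r s, r + s < T → dd r s (GG c₁ c₂ P coef) (pts j) (pts j) = 0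

/-- Z1. PROOF. `g = gm GG m` is entire, `1`-periodic, `‖g t‖ ≤ B exp(C₁ L (1 + t.im²))` (G3b), of order `≥ 2S' - m ≥ S'` at every `pts j` (V3d).
`schwarz`: with `R = qS'/(2CL)`, i.e. `qS' = 2CLR`, and `|t.im| ≤ R/4`:
`‖g t‖ ≤ B exp(C L (1 + R²) - (2 - π/4) R · 2CLR)` and `2(2 - π/4) ≥ 2`. (`C₀ = C₁`.) -/
theorem line_bound (c₁ c₂ : Cv) : ∃ C₀ : ℝ, 1 ≤ C₀ ∧ ∀ C : ℝ, C₀ ≤ C → ∀ (P : Pr), P.Good → ∀ (B : ℝ)
    (coef : ℕ × ℕ × ℕ × ℕ × ℕ → ℂ), (∀ ν ∈ P.box, ‖coef ν‖ ≤ B) → ∀ (q S' : ℕ) (pts : Fin q → ℝ),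
    (∀ i j, i ≠ j → ∀ k : ℤ, pts i - pts j ≠ k) → Van c₁ c₂ P coef pts (2 * S') →
    ∀ R : ℝ, 1 ≤ R → R * (2 * C * P.L) = q * S' → ∀ m < S', ∀ t : ℂ, |t.im| ≤ R / 4 →
    ‖gm (GG c₁ c₂ P coef) m t‖ ≤ B * Real.exp (C * P.L - C * P.L * R ^ 2) := by
  obtain ⟨C₁, hC₁, hb⟩ := gm_bound c₁ c₂
  refine ⟨C₁, hC₁, ?_⟩
  intro C hC P hP B coef hcoef q S' pts hpts hvan R hR hRq m hm t ht
  have hL0 : (0 : ℝ) ≤ P.L := Nat.cast_nonneg _
  have hB0 : 0 ≤ B := by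
    have h1 := hb P hP B coef hcoef m 0
    have h2 : 0 ≤ B * Real.exp (C₁ * P.L * (1 + (0 : ℂ).im ^ 2)) := (norm_nonneg _).trans h1
    exact nonneg_of_mul_nonneg_left h2 (Real.exp_pos _)
  have hAn : ∀ t w, An2 (GG c₁ c₂ P coef) t w := fun t w => GG_an2 c₁ c₂ P coef t w
  have key := schwarz q S' pts hpts (gm (GG c₁ c₂ P coef) m) (gm_differentiable hAn m)
    (fun t => gm_period c₁ c₂ P coef m t)
    (by
      intro j
      have h1 := order_gm hAn (pts j : ℂ) (2 * S') (fun r s hrs => hvan j r s hrs) m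
      refine le_trans ?_ h1
      have : S' ≤ 2 * S' - m := by omega
      exact_mod_cast this)
    R (B * Real.exp (C * P.L * (1 + R ^ 2))) hR
    (by
      intro t' ht'
      refine (hb P hP B coef hcoef m t').trans ?_
      have h1 : t'.im ^ 2 = R ^ 2 := by rw [← ht', sq_abs]
      rw [h1]
      gcongr)
    t (ht.trans (by linarith))
  refine key.trans ?_
  rw [mul_assoc, ← Real.exp_add]
  refine mul_le_mul_of_nonneg_left (Real.exp_le_exp.mpr ?_) hB0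
  rw [← hRq]
  have hpi : Real.pi ≤ 4 := Real.pi_le_four
  have hpi0 : 0 < Real.pi := Real.pi_pos
  have hCL : 0 ≤ C * P.L := by
    have : 0 ≤ C := by linarith
    positivity
  have h1 : Real.pi * |t.im| ≤ R := by
    calc Real.pi * |t.im| ≤ 4 * (R / 4) := by gcongr
      _ = R := by ring
  have h2 : R * (R * (2 * C * P.L)) ≤ (2 * R - Real.pi * |t.im|) * (R * (2 * C * P.L)) := by
    apply mul_le_mul_of_nonneg_right
    · linarith
    · have : 0 ≤ C := by linarith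
      positivity
  nlinarith [h2]

end Pool.Agent.MSP
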