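import Pool.Agent.Lib.MP_f58a57_nt.P.Defs

/-! # Z2: a one-variable lemma on Taylor coefficients (MP_f58a57_nt, pairs) -/

open Complex Filter Topology

noncomputable section

namespace Pool.Agent.MSP

theorem z2_dslope_diff (f : ℂ → ℂ) (hf : Differentiable ℂ f) : Differentiable ℂ (dslope f 0) := by
  have h1 : DifferentiableOn ℂ (dslope f 0) Set.univ :=
    (differentiableOn_dslope Filter.univ_mem).2 hf.differentiableOn
  exact differentiableOn_univ.1 h1

theorem z2_iter_diff (f : ℂ → ℂ) (hf : Differentiable ℂ f) (N : ℕ) :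
    Differentiable ℂ ((Function.swap dslope 0)^[N] f) := by
  induction N with
  | zero => exact hf
  | succ N ih =>
    rw [Function.iterate_succ_apply']
    exact z2_dslope_diff _ ih

theorem z2_iter_zero (f : ℂ → ℂ) (hf : Differentiable ℂ f) (N : ℕ) :
    ((Function.swap dslope 0)^[N] f) 0 = iteratedDeriv N f 0 / (N.factorial : ℂ) := by
  have h0 : AnalyticAt ℂ f 0 := hf.analyticAt 0
  have h1 := h0.hasFPowerSeriesAt
  have h2 := h1.has_fpower_series_iterate_dslope_fslope N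
  rw [← h2.coeff_zero 1]
  have h3 := FormalMultilinearSeries.coeff_iterate_fslope
    (p := FormalMultilinearSeries.ofScalars ℂ (fun n ↦ iteratedDeriv n f 0 / (n.factorial : ℂ))) N 0
  rw [zero_add, FormalMultilinearSeries.coeff_ofScalars] at h3
  exact h3

theorem z2_split (f : ℂ → ℂ) (hf : Differentiable ℂ f) (N : ℕ) (z : ℂ) :
    f z = ∑ m ∈ Finset.range N, iteratedDeriv m f 0 / (m.factorial : ℂ) * z ^ m
      + z ^ N * ((Function.swap dslope 0)^[N] f) z := by
  induction N with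
  | zero => simp
  | succ N ih =>
    rw [Finset.sum_range_succ, Function.iterate_succ_apply']
    set h := (Function.swap dslope 0)^[N] f with hh
    have h1 : h z = h 0 + z * dslope h 0 z := by
      have h2 := sub_smul_dslope h 0 z
      simp only [sub_zero, smul_eq_mul] at h2
      rw [h2]
      ring
    have h3 : h 0 = iteratedDeriv N f 0 / (N.factorial : ℂ) := z2_iter_zero f hf N
    rw [← h3]
    have h4 : (Function.swap dslope 0 h) = dslope h 0 := rfl
    rw [h4]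
    rw [ih, h1]
    ring

/-- Z2. PROOF. Let `p(z) = ∑_{m<N} g_m z^m` (Taylor polynomial of `g`), `D(z) = K z - c e^{αz} p(z) = c e^{αz} (g z - p z)`, which has a zero of
order `≥ N` at `0`, so `D(z)/z^N` is entire and by the maximum principle on `‖z‖ = 7r` (or Cauchy's inequalities)
`‖D z‖ ≤ 7^{-N} (W + ‖c‖ e^{7‖α‖r} ε ∑_{m<N} (7r)^m)` for `‖z‖ ≤ r`, and `∑_{m<N} (7r)^m ≤ N (7r)^N`; also `‖c e^{αz} p(z)‖ ≤ ‖c‖ e^{‖α‖r} ε N r^N`. Finally
`7^{-N} ≤ e^{-(3/2)N}` (`e^{3/2} < 4.5`). -/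
theorem taylor_split (K g : ℂ → ℂ) (c α : ℂ) (hg : Differentiable ℂ g) (hK : ∀ z, K z = c * cexp (α * z) * g z) (N : ℕ)
    (ε r W : ℝ) (hr : 1 ≤ r) (hε : ∀ m < N, ‖iteratedDeriv m g 0 / (m.factorial : ℂ)‖ ≤ ε)
    (hW : ∀ z, ‖z‖ ≤ 7 * r → ‖K z‖ ≤ W) (z : ℂ) (hz : ‖z‖ ≤ r) :
    ‖K z‖ ≤ 2 * ‖c‖ * ε * Real.exp (7 * ‖α‖ * r) * N * r ^ N + W * Real.exp (-(3 / 2 * N)) := by
  have hr0 : 0 < r := by linarith
  -- notation
  set h := (Function.swap dslope 0)^[N] g with hh
  have hhd : Differentiable ℂ h := z2_iter_diff g hg N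
  set p : ℂ → ℂ := fun w => ∑ m ∈ Finset.range N, iteratedDeriv m g 0 / (m.factorial : ℂ) * w ^ m with hp
  have hgs : ∀ w, g w = p w + w ^ N * h w := fun w => z2_split g hg N w
  -- bound for p
  have hpb : ∀ (R : ℝ), 1 ≤ R → ∀ w : ℂ, ‖w‖ ≤ R → ‖p w‖ ≤ ε * N * R ^ N := by
    intro R hR w hw
    calc ‖p w‖ ≤ ∑ m ∈ Finset.range N, ‖iteratedDeriv m g 0 / (m.factorial : ℂ) * w ^ m‖ := norm_sum_le _ _
      _ ≤ ∑ m ∈ Finset.range N, ε * R ^ N := by
        refine Finset.sum_le_sum fun m hm => ?_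
        rw [Finset.mem_range] at hm
        rw [norm_mul, norm_pow]
        have h1 : ‖w‖ ^ m ≤ R ^ N :=
          (pow_le_pow_left₀ (norm_nonneg _) hw m).trans (pow_le_pow_right₀ hR hm.le)
        exact mul_le_mul (hε m hm) h1 (by positivity) ((norm_nonneg _).trans (hε m hm))
      _ = ε * N * R ^ N := by
        rw [Finset.sum_const, Finset.card_range, nsmul_eq_mul]; ring
  have hNε : 0 ≤ ε * N := by
    rcases Nat.eq_zero_or_pos N with h0 | h0
    · simp [h0]
    · exact mul_nonneg ((norm_nonneg _).trans (hε 0 h0)) (Nat.cast_nonneg _)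
  have hW0 : 0 ≤ W := (norm_nonneg _).trans (hW 0 (by simp; linarith))
  have hexp : ∀ (R : ℝ), ∀ w : ℂ, ‖w‖ ≤ R → ‖cexp (α * w)‖ ≤ Real.exp (‖α‖ * R) := by
    intro R w hw
    rw [Complex.norm_exp]
    refine Real.exp_le_exp.2 ?_
    calc (α * w).re ≤ ‖α * w‖ := Complex.re_le_norm _
      _ = ‖α‖ * ‖w‖ := norm_mul _ _
      _ ≤ ‖α‖ * R := mul_le_mul_of_nonneg_left hw (norm_nonneg _)
  -- H = c e^{αz} h
  set H : ℂ → ℂ := fun w => c * cexp (α * w) * h w with hH
  have hHd : Differentiable ℂ H := by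
    intro w
    have h1 : DifferentiableAt ℂ (fun w => cexp (α * w)) w := by fun_prop
    exact (h1.const_mul c).mul (hhd w)
  have hDH : ∀ w, K w - c * cexp (α * w) * p w = w ^ N * H w := by
    intro w
    rw [hK, hgs]
    simp only [hH]
    ring
  set E := Real.exp (7 * ‖α‖ * r) with hE
  have hE0 : 0 < E := Real.exp_pos _
  set M : ℝ := (W + ‖c‖ * E * (ε * N * (7 * r) ^ N)) / (7 * r) ^ N with hM
  have h7r : 1 ≤ 7 * r := by linarith
  have hHb : ∀ w ∈ frontier (Metric.ball (0 : ℂ) (7 * r)), ‖H w‖ ≤ M := by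
    intro w hw
    rw [frontier_ball _ (by linarith : (7 * r) ≠ 0)] at hw
    have hw' : ‖w‖ = 7 * r := by simpa using hw
    rw [hM, le_div_iff₀ (by positivity)]
    have h1 : ‖H w‖ * (7 * r) ^ N = ‖K w - c * cexp (α * w) * p w‖ := by
      rw [hDH, norm_mul (w ^ N) (H w), norm_pow, hw', mul_comm]
    rw [h1]
    refine (norm_sub_le _ _).trans ?_
    refine add_le_add (hW w hw'.le) ?_
    rw [norm_mul, norm_mul]
    have h2 := hexp (7 * r) w hw'.le
    have h3 := hpb (7 * r) h7r w hw'.le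
    have h4 : ‖α‖ * (7 * r) = 7 * ‖α‖ * r := by ring
    rw [h4] at h2
    gcongr
  have hHz : ‖H z‖ ≤ M := by
    refine Complex.norm_le_of_forall_mem_frontier_norm_le Metric.isBounded_ball
      (hHd.diffContOnCl) hHb ?_
    refine subset_closure ?_
    rw [Metric.mem_ball, dist_zero_right]
    linarith
  have hKz : K z = c * cexp (α * z) * p z + z ^ N * H z := by
    rw [← hDH z]; ring
  have h7N : (7 : ℝ)⁻¹ ^ N ≤ Real.exp (-(3 / 2 * N)) := by
    have h1 : Real.exp (-(3 / 2 * N)) = (Real.exp (-(3/2))) ^ N := by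
      rw [← Real.exp_nat_mul]
      congr 1
      ring
    rw [h1]
    refine pow_le_pow_left₀ (by norm_num) ?_ N
    rw [Real.exp_neg]
    refine inv_anti₀ (Real.exp_pos _) ?_
    have h2 : Real.exp (3/2) ≤ Real.exp 1 ^ 2 := by
      rw [← Real.exp_nat_mul]
      exact Real.exp_le_exp.2 (by norm_num)
    have h3 : Real.exp 1 < 2.7182818286 := Real.exp_one_lt_d9
    have h4 : Real.exp (3/2) ^ 2 = Real.exp 1 ^ 3 := by
      rw [← Real.exp_nat_mul, ← Real.exp_nat_mul]
      congr 1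
      norm_num
    have h5 : Real.exp 1 ^ 3 ≤ 49 := by
      have : Real.exp 1 ^ 3 ≤ 2.7182818286 ^ 3 := pow_le_pow_left₀ (Real.exp_pos _).le h3.le 3
      refine this.trans ?_
      norm_num
    nlinarith [Real.exp_pos (3/2)]
  -- final estimate
  have h1 : ‖c * cexp (α * z) * p z‖ ≤ ‖c‖ * E * (ε * N * r ^ N) := by
    rw [norm_mul, norm_mul]
    have h2 := hexp r z hz
    have h3 := hpb r hr z hz
    have h4 : Real.exp (‖α‖ * r) ≤ E := Real.exp_le_exp.2 (by nlinarith [norm_nonneg α, mul_nonneg (norm_nonneg α) hr0.le])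
    have h5 := h2.trans h4
    gcongr
  have h2 : ‖z ^ N * H z‖ ≤ W * Real.exp (-(3 / 2 * N)) + ‖c‖ * E * (ε * N * r ^ N) := by
    rw [norm_mul, norm_pow]
    have h3 : ‖z‖ ^ N * ‖H z‖ ≤ r ^ N * M :=
      mul_le_mul (pow_le_pow_left₀ (norm_nonneg _) hz N) hHz (norm_nonneg _) (by positivity)
    refine h3.trans ?_
    have h4 : r ^ N * M = W * (7 : ℝ)⁻¹ ^ N + ‖c‖ * E * (ε * N * r ^ N) := by
      rw [hM, mul_pow, inv_pow]
      have : r ^ N ≠ 0 := by positivity
      field_simp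
    rw [h4]
    have := mul_le_mul_of_nonneg_left h7N hW0
    linarith
  rw [hKz]
  refine (norm_add_le _ _).trans ?_
  have : 2 * ‖c‖ * ε * E * N * r ^ N = ‖c‖ * E * (ε * N * r ^ N) + ‖c‖ * E * (ε * N * r ^ N) := by ring
  linarith

end Pool.Agent.MSP
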