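import Pool.Agent.Lib.MP_f58a57_nt.P.Z1_Line
import Pool.Agent.Lib.MP_f58a57_nt.P.Z2_Taylor

/-! # Z3: bound on the sheets (MP_f58a57_nt, pairs) -/

open Complex Filter Topology

noncomputable section

namespace Pool.Agent.MSP

/-- Z3a. The function `K z = Gs_{k(n)} t (t + z - v)` in terms of `GG` (`v = n₂τ₂ - n₁τ₁ + m`): by G1b with `m₁ = 0`, `m₂ = m`, `k = 0`, `w := t + z - v`,
`w + m + n₂τ₂ = t' + z` with `t' = t + n₁τ₁`: `GG t' (t' + z) = (au τ₁ 0 n₁ t * au τ₂ m n₂ (t+z-v))^M * K z`, and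
`au τ₂ m n₂ (t + z - v) = au τ₂ m n₂ (t - v) * exp(-2πi n₂ z)`. -/
theorem sheet_id (c₁ c₂ : Cv) (P : Pr) (coef : ℕ × ℕ × ℕ × ℕ × ℕ → ℂ) (n₁ n₂ m : ℤ) (t z : ℂ) :
    Gs c₁ c₂ P ![(m : ℂ), P.b₂ * n₁ - P.b₁ * n₂, P.a₁ * n₁ + P.a₂ * n₂] coef t
        (t + z - (n₂ * c₂.τ - n₁ * c₁.τ + m)) =
      ((au c₁.τ 0 n₁ t * au c₂.τ m n₂ (t - (n₂ * c₂.τ - n₁ * c₁.τ + m))) ^ P.M)⁻¹ *
        cexp ((2 * Real.pi * I * n₂ * P.M) * z) * GG c₁ c₂ P coef (t + n₁ * c₁.τ) (t + n₁ * c₁.τ + z) := by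
  have h := Gs_shift c₁ c₂ P 0 coef 0 n₁ m n₂ t (t + z - (n₂ * c₂.τ - n₁ * c₁.τ + m))
  have e1 : t + ((0 : ℤ) : ℂ) + n₁ * c₁.τ = t + n₁ * c₁.τ := by push_cast; ring
  have e2 : t + z - (n₂ * c₂.τ - n₁ * c₁.τ + m) + (m : ℂ) + n₂ * c₂.τ = t + n₁ * c₁.τ + z := by ring
  have e3 : (0 : Fin 3 → ℂ) + ![(m : ℂ) - ((0 : ℤ) : ℂ), P.b₂ * n₁ - P.b₁ * n₂, P.a₁ * n₁ + P.a₂ * n₂] =
      ![(m : ℂ), P.b₂ * n₁ - P.b₁ * n₂, P.a₁ * n₁ + P.a₂ * n₂] := by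
    rw [zero_add, Int.cast_zero, sub_zero]
  have e4 : au c₂.τ m n₂ (t + z - (n₂ * c₂.τ - n₁ * c₁.τ + m)) =
      au c₂.τ m n₂ (t - (n₂ * c₂.τ - n₁ * c₁.τ + m)) * cexp (-(2 * Real.pi * I * n₂) * z) := by
    unfold au
    rw [mul_assoc ((-1 : ℂ) ^ (m + n₂)), ← Complex.exp_add]
    congr 2
    ring
  rw [e1, e2, e3, e4] at h
  have h' : GG c₁ c₂ P coef (t + n₁ * c₁.τ) (t + n₁ * c₁.τ + z) = _ := h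
  rw [h', ← mul_assoc (au c₁.τ 0 n₁ t), mul_pow _ (cexp _), ← Complex.exp_nat_mul]
  have hne : (au c₁.τ 0 n₁ t * au c₂.τ m n₂ (t - (n₂ * c₂.τ - n₁ * c₁.τ + m))) ^ P.M ≠ 0 :=
    pow_ne_zero _ (mul_ne_zero (au_ne _ _ _ _) (au_ne _ _ _ _))
  have hexp : cexp ((2 * Real.pi * I * n₂ * P.M) * z) * cexp (P.M * (-(2 * Real.pi * I * n₂) * z)) = 1 := by
    rw [← Complex.exp_add, ← Complex.exp_zero]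
    congr 1
    ring
  generalize (au c₁.τ 0 n₁ t * au c₂.τ m n₂ (t - (n₂ * c₂.τ - n₁ * c₁.τ + m))) ^ P.M = U at hne ⊢
  generalize Gs c₁ c₂ P ![(m : ℂ), P.b₂ * n₁ - P.b₁ * n₂, P.a₁ * n₁ + P.a₂ * n₂] coef t
        (t + z - (n₂ * c₂.τ - n₁ * c₁.τ + m)) = V
  calc V = (U⁻¹ * U) * (cexp ((2 * Real.pi * I * n₂ * P.M) * z) * cexp (P.M * (-(2 * Real.pi * I * n₂) * z))) * V := by
        rw [inv_mul_cancel₀ hne, hexp]; ring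
    _ = _ := by ring

/-- bounds for `n₂` and `m` -/
theorem z3_n2 (c₁ c₂ : Cv) (X R₀ : ℝ) (hR₀ : R₀ ≤ X) (n₁ n₂ m : ℤ) (hn₁ : |(n₁ : ℝ)| ≤ X)
    (hv : ‖(n₂ * c₂.τ - n₁ * c₁.τ + m : ℂ)‖ ≤ R₀) :
    |(n₂ : ℝ)| ≤ (1 + c₁.τ.im) / c₂.τ.im * X ∧
      |(m : ℝ)| ≤ (1 + (1 + c₁.τ.im) / c₂.τ.im * ‖c₂.τ‖ + ‖c₁.τ‖) * X := by
  have h1 := c₁.im
  have h2 := c₂.im
  have him : (n₂ * c₂.τ - n₁ * c₁.τ + m : ℂ).im = n₂ * c₂.τ.im - n₁ * c₁.τ.im := by simp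
  have h3 : |n₂ * c₂.τ.im - n₁ * c₁.τ.im| ≤ R₀ := by
    rw [← him]; exact (Complex.abs_im_le_norm _).trans hv
  have h4 : |(n₂ : ℝ)| * c₂.τ.im ≤ (1 + c₁.τ.im) * X := by
    have h5 : |(n₂ : ℝ) * c₂.τ.im| ≤ |n₂ * c₂.τ.im - n₁ * c₁.τ.im| + |(n₁ : ℝ) * c₁.τ.im| := by
      have := abs_add_le (n₂ * c₂.τ.im - n₁ * c₁.τ.im) ((n₁ : ℝ) * c₁.τ.im)
      simpa using this
    rw [abs_mul, abs_mul, abs_of_pos h1, abs_of_pos h2] at h5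
    have h6 : |(n₁ : ℝ)| * c₁.τ.im ≤ X * c₁.τ.im := mul_le_mul_of_nonneg_right hn₁ h1.le
    linarith
  have h7 : |(n₂ : ℝ)| ≤ (1 + c₁.τ.im) / c₂.τ.im * X := by
    rw [div_mul_eq_mul_div, le_div_iff₀ h2]
    exact h4
  refine ⟨h7, ?_⟩
  have h8 : ‖(m : ℂ)‖ ≤ ‖(n₂ * c₂.τ - n₁ * c₁.τ + m : ℂ)‖ + ‖(n₂ * c₂.τ : ℂ)‖ + ‖(n₁ * c₁.τ : ℂ)‖ := by
    have e : (m : ℂ) = (n₂ * c₂.τ - n₁ * c₁.τ + m : ℂ) - n₂ * c₂.τ + n₁ * c₁.τ := by ring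
    calc ‖(m : ℂ)‖ = ‖(n₂ * c₂.τ - n₁ * c₁.τ + m : ℂ) - n₂ * c₂.τ + n₁ * c₁.τ‖ := by rw [← e]
      _ ≤ ‖(n₂ * c₂.τ - n₁ * c₁.τ + m : ℂ) - n₂ * c₂.τ‖ + ‖(n₁ * c₁.τ : ℂ)‖ := norm_add_le _ _
      _ ≤ _ := by gcongr; exact norm_sub_le _ _
  rw [Complex.norm_intCast, norm_mul, norm_mul, Complex.norm_intCast, Complex.norm_intCast] at h8
  have h9 : |(n₂ : ℝ)| * ‖c₂.τ‖ ≤ (1 + c₁.τ.im) / c₂.τ.im * X * ‖c₂.τ‖ := mul_le_mul_of_nonneg_right h7 (norm_nonneg _)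
  have h10 : |(n₁ : ℝ)| * ‖c₁.τ‖ ≤ X * ‖c₁.τ‖ := mul_le_mul_of_nonneg_right hn₁ (norm_nonneg _)
  calc |(m : ℝ)| ≤ R₀ + (1 + c₁.τ.im) / c₂.τ.im * X * ‖c₂.τ‖ + X * ‖c₁.τ‖ := by linarith
    _ ≤ X + (1 + c₁.τ.im) / c₂.τ.im * X * ‖c₂.τ‖ + X * ‖c₁.τ‖ := by linarith
    _ = _ := by ring

/-- bound for the factor of automorphy -/
theorem z3_au (τ : ℂ) (hτ : 0 < τ.im) (m n : ℤ) (t : ℂ) (a b : ℝ) (hn : |(n : ℝ)| ≤ a) (ht : |t.im| ≤ b) :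
    ‖au τ m n t‖⁻¹ ≤ Real.exp (2 * Real.pi * (a * b)) := by
  rw [norm_au, ← Real.exp_neg]
  refine Real.exp_le_exp.mpr ?_
  have h1 : 0 ≤ Real.pi * (n : ℝ) ^ 2 * τ.im := by positivity
  have h2 : |(n : ℝ) * t.im| ≤ a * b := by
    rw [abs_mul]
    exact mul_le_mul hn ht (abs_nonneg _) ((abs_nonneg _).trans hn)
  have h3 : -((n : ℝ) * t.im) ≤ a * b := (neg_le_abs _).trans h2
  have h4 : Real.pi * (-((n : ℝ) * t.im)) ≤ Real.pi * (a * b) := mul_le_mul_of_nonneg_left h3 Real.pi_pos.le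
  linarith

/-- the Taylor coefficients of `z ↦ G t (t + z)` -/
theorem z3_gm (G : ℂ → ℂ → ℂ) (m : ℕ) (t : ℂ) :
    iteratedDeriv m (fun z => G t (t + z)) 0 / (m.factorial : ℂ) = gm G m t := by
  unfold gm
  rw [iteratedDeriv_comp_const_add]
  simp

theorem z3_pow (S' : ℕ) (r ρ₀ X : ℝ) (hX : 1 ≤ X) (hr0 : 0 ≤ r) (hr : r ≤ (2 * ρ₀ + 1) * X) :
    (S' : ℝ) * r ^ S' ≤ Real.exp ((2 * ρ₀ + 2) * X * S') := by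
  have hS0 : (0 : ℝ) ≤ S' := Nat.cast_nonneg _
  have h2 : (S' : ℝ) ≤ Real.exp S' := by
    have := Real.add_one_le_exp (S' : ℝ)
    linarith
  have h3 : r ^ S' ≤ Real.exp (S' * r) := by
    rw [Real.exp_nat_mul]
    refine pow_le_pow_left₀ hr0 ?_ _
    have := Real.add_one_le_exp r
    linarith
  have h4 : (S' : ℝ) * r ≤ S' * ((2 * ρ₀ + 1) * X) := mul_le_mul_of_nonneg_left hr hS0
  have h5 : (S' : ℝ) * 1 ≤ S' * X := mul_le_mul_of_nonneg_left hX hS0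
  calc (S' : ℝ) * r ^ S' ≤ Real.exp S' * Real.exp (S' * r) := mul_le_mul h2 h3 (pow_nonneg hr0 _) (Real.exp_pos _).le
    _ = Real.exp (S' + S' * r) := by rw [Real.exp_add]
    _ ≤ Real.exp ((2 * ρ₀ + 2) * X * S') := by
      refine Real.exp_le_exp.mpr ?_
      linarith [h4, h5]

theorem z3_R (C₀ C X L R S q : ℝ) (hC₀ : 0 < C₀) (hC : 0 ≤ C) (hX : 0 ≤ X) (hL : 0 < L) (hS : 0 ≤ S) (hq : 1 ≤ q)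
    (hR : C * X / (2 * C₀) ≤ R) (hRm : R * (2 * C₀ * L) = q * S) :
    C / (8 * C₀) * C * L * X ^ 2 + C / (8 * C₀) * X * S ≤ C₀ * L * R ^ 2 := by
  have h0 : 0 ≤ C * X / (2 * C₀) := by positivity
  have hR0 : 0 ≤ R := h0.trans hR
  have h7 : C / (8 * C₀) * C * L * X ^ 2 ≤ 1 / 2 * (C₀ * L * R ^ 2) := by
    have h8 : (C * X / (2 * C₀)) ^ 2 ≤ R ^ 2 := pow_le_pow_left₀ h0 hR 2
    calc C / (8 * C₀) * C * L * X ^ 2 = 1 / 2 * (C₀ * L * (C * X / (2 * C₀)) ^ 2) := by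
          field_simp
          ring
      _ ≤ 1 / 2 * (C₀ * L * R ^ 2) := by gcongr
  have h9 : C / (8 * C₀) * X * S ≤ 1 / 2 * (C₀ * L * R ^ 2) := by
    calc C / (8 * C₀) * X * S = 1 / 4 * ((C * X / (2 * C₀)) * (1 * S)) := by
          field_simp
          ring
      _ ≤ 1 / 4 * (R * (q * S)) := by gcongr
      _ = 1 / 2 * (C₀ * L * R ^ 2) := by rw [← hRm]; ring
  linarith

theorem z3_exp (C₀ C X L K₁ K₂ K₃ K₇ S Y : ℝ) (hC₀ : 1 ≤ C₀) (hC : 1 ≤ C) (hX : 1 ≤ X) (hL : 1 ≤ L) (hS : 0 ≤ S)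
    (hK₁ : 0 ≤ K₁) (hK₂ : 0 ≤ K₂) (hK₃ : 0 ≤ K₃) (hK₇ : K₇ = 3 + C₀ + K₁ + K₂ + K₃) (hC8 : 8 * C₀ * K₇ ≤ C)
    (hY : C / (8 * C₀) * C * L * X ^ 2 + C / (8 * C₀) * X * S ≤ Y) :
    2 + C₀ * L - Y + K₁ * L * X ^ 2 + K₂ * L * X ^ 2 + K₃ * X * S ≤ -S := by
  have hK7C : K₇ ≤ C / (8 * C₀) := by
    rw [le_div_iff₀ (by positivity)]
    linarith
  have hX2 : (1 : ℝ) ≤ X ^ 2 := one_le_pow₀ hX
  have hLX : (1 : ℝ) ≤ L * X ^ 2 := by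
    calc (1 : ℝ) = 1 * 1 := by ring
      _ ≤ L * X ^ 2 := mul_le_mul hL hX2 (by norm_num) (by linarith)
  have hLX0 : 0 ≤ L * X ^ 2 := by linarith
  have hXS : 0 ≤ X * S := by positivity
  have hCC : 0 ≤ C / (8 * C₀) := by positivity
  have h11 : K₇ * (L * X ^ 2) ≤ C / (8 * C₀) * C * L * X ^ 2 := by
    calc K₇ * (L * X ^ 2) ≤ C / (8 * C₀) * (L * X ^ 2) := mul_le_mul_of_nonneg_right hK7C hLX0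
      _ = C / (8 * C₀) * 1 * (L * X ^ 2) := by ring
      _ ≤ C / (8 * C₀) * C * (L * X ^ 2) := by gcongr
      _ = _ := by ring
  have h12 : K₇ * (X * S) ≤ C / (8 * C₀) * X * S := by
    calc K₇ * (X * S) ≤ C / (8 * C₀) * (X * S) := mul_le_mul_of_nonneg_right hK7C hXS
      _ = _ := by ring
  have h13 : S ≤ X * S := by
    calc S = 1 * S := by ring
      _ ≤ X * S := mul_le_mul_of_nonneg_right hX hS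
  have h14 : C₀ * L ≤ C₀ * (L * X ^ 2) := by
    refine mul_le_mul_of_nonneg_left ?_ (by linarith)
    calc L = L * 1 := by ring
      _ ≤ L * X ^ 2 := mul_le_mul_of_nonneg_left hX2 (by linarith)
  have h15 : (2 + C₀ + K₁ + K₂) * (L * X ^ 2) ≤ K₇ * (L * X ^ 2) := by
    refine mul_le_mul_of_nonneg_right ?_ hLX0
    rw [hK₇]; linarith
  have h16 : (K₃ + 1) * (X * S) ≤ K₇ * (X * S) := by
    refine mul_le_mul_of_nonneg_right ?_ hXS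
    rw [hK₇]; linarith
  have h17 : (2 + C₀ + K₁ + K₂) * (L * X ^ 2) = 2 * (L * X ^ 2) + C₀ * (L * X ^ 2) + K₁ * L * X ^ 2 + K₂ * L * X ^ 2 := by ring
  have h18 : (K₃ + 1) * (X * S) = K₃ * X * S + X * S := by ring
  linarith

theorem z3_four : (4 : ℝ) ≤ Real.exp 2 := by
  have h21 : (2 : ℝ) ≤ Real.exp 1 := by
    have := Real.add_one_le_exp (1 : ℝ)
    linarith
  have h22 : Real.exp 2 = Real.exp 1 * Real.exp 1 := by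
    rw [← Real.exp_add]; norm_num
  rw [h22]
  nlinarith

theorem z3_total (B S c e α' w a1 a2 a3 a4 : ℝ) (hB : 0 ≤ B) (hS : 1 ≤ S) (hc : c ≤ Real.exp a1)
    (hα : α' ≤ a2) (hw0 : 0 ≤ w) (hw : w ≤ Real.exp a3) (he : e = B * Real.exp a4)
    (h : 2 + a4 + a1 + a2 + a3 ≤ -S) :
    2 * c * e * Real.exp α' * w + B * Real.exp (S / 2) * Real.exp (-(3 / 2 * S)) ≤ B * Real.exp (-(S / 2)) := by
  have hfirst : 2 * c * e * Real.exp α' * w ≤ 1 / 2 * B * Real.exp (-S) := by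
    have he0 : 0 ≤ B * Real.exp a4 := by positivity
    have h1 : c * Real.exp α' ≤ Real.exp a1 * Real.exp a2 :=
      mul_le_mul hc (Real.exp_le_exp.mpr hα) (Real.exp_pos _).le (Real.exp_pos _).le
    have h2 : c * Real.exp α' * w ≤ Real.exp a1 * Real.exp a2 * Real.exp a3 :=
      mul_le_mul h1 hw hw0 (by positivity)
    have h3 : Real.exp a1 * Real.exp a2 * Real.exp a3 * Real.exp a4 * 4 ≤ Real.exp (-S) := by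
      calc Real.exp a1 * Real.exp a2 * Real.exp a3 * Real.exp a4 * 4
          ≤ Real.exp a1 * Real.exp a2 * Real.exp a3 * Real.exp a4 * Real.exp 2 :=
            mul_le_mul_of_nonneg_left z3_four (by positivity)
        _ = Real.exp (2 + a4 + a1 + a2 + a3) := by simp only [Real.exp_add]; ring
        _ ≤ Real.exp (-S) := Real.exp_le_exp.mpr h
    rw [he]
    calc 2 * c * (B * Real.exp a4) * Real.exp α' * w = 2 * (B * Real.exp a4) * (c * Real.exp α' * w) := by ring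
      _ ≤ 2 * (B * Real.exp a4) * (Real.exp a1 * Real.exp a2 * Real.exp a3) :=
          mul_le_mul_of_nonneg_left h2 (by positivity)
      _ = 1 / 2 * B * (Real.exp a1 * Real.exp a2 * Real.exp a3 * Real.exp a4 * 4) := by ring
      _ ≤ 1 / 2 * B * Real.exp (-S) := mul_le_mul_of_nonneg_left h3 (by positivity)
  have hsecond : B * Real.exp (S / 2) * Real.exp (-(3 / 2 * S)) = B * Real.exp (-S) := by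
    rw [mul_assoc, ← Real.exp_add]
    congr 2
    ring
  have hlast : 3 / 2 * Real.exp (-S) ≤ Real.exp (-(S / 2)) := by
    have h1 : (3 / 2 : ℝ) ≤ Real.exp (S / 2) := by
      have := Real.add_one_le_exp (S / 2)
      linarith
    calc 3 / 2 * Real.exp (-S) ≤ Real.exp (S / 2) * Real.exp (-S) :=
          mul_le_mul_of_nonneg_right h1 (Real.exp_pos _).le
      _ = Real.exp (-(S / 2)) := by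
        rw [← Real.exp_add]
        congr 1
        ring
  have h9 : B * (3 / 2 * Real.exp (-S)) ≤ B * Real.exp (-(S / 2)) := mul_le_mul_of_nonneg_left hlast hB
  linarith

theorem z3_lin (a b X : ℝ) (ha : 0 ≤ a) (hX : 1 ≤ X) : a + X * b ≤ (a + b) * X := by
  nlinarith

theorem z3_cnum (π' ρ₀ κ₂ X R₀ M L : ℝ) (hπ : 0 ≤ π') (hρ : 0 < ρ₀) (hκ : 0 ≤ κ₂) (hX : 1 ≤ X) (hR : R₀ ≤ X) (hR0 : 0 ≤ R₀)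
    (hM0 : 0 ≤ M) (hM : M ≤ 3 * L) (hL : 0 ≤ L) :
    M * (2 * π' * (X * ρ₀) + 2 * π' * (κ₂ * X * (ρ₀ + R₀))) ≤ 6 * π' * (ρ₀ + κ₂ * (ρ₀ + 1)) * L * X ^ 2 := by
  have hX0 : 0 ≤ X := by linarith
  have h6 : ρ₀ + R₀ ≤ (ρ₀ + 1) * X := by
    have := z3_lin ρ₀ 1 X hρ.le hX
    linarith
  have h7 : κ₂ * X * (ρ₀ + R₀) ≤ κ₂ * X * ((ρ₀ + 1) * X) := mul_le_mul_of_nonneg_left h6 (by positivity)
  have hXX : X ≤ X ^ 2 := by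
    calc X = X * 1 := by ring
      _ ≤ X * X := mul_le_mul_of_nonneg_left hX hX0
      _ = X ^ 2 := by ring
  have h8 : X * ρ₀ ≤ X ^ 2 * ρ₀ := mul_le_mul_of_nonneg_right hXX hρ.le
  have h9 : X * ρ₀ + κ₂ * X * (ρ₀ + R₀) ≤ (ρ₀ + κ₂ * (ρ₀ + 1)) * X ^ 2 := by
    have : (ρ₀ + κ₂ * (ρ₀ + 1)) * X ^ 2 = X ^ 2 * ρ₀ + κ₂ * X * ((ρ₀ + 1) * X) := by ring
    linarith
  calc M * (2 * π' * (X * ρ₀) + 2 * π' * (κ₂ * X * (ρ₀ + R₀))) = M * (2 * π') * (X * ρ₀ + κ₂ * X * (ρ₀ + R₀)) := by ring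
    _ ≤ (3 * L) * (2 * π') * ((ρ₀ + κ₂ * (ρ₀ + 1)) * X ^ 2) := by gcongr
    _ = _ := by ring

theorem z3_sq (ρ₀ R₀ a b : ℝ) (hR : 1 ≤ R₀) (ha : a ≤ ρ₀ ^ 2) (hb : b ≤ ((15 * ρ₀ + 8) * R₀) ^ 2) :
    1 + a + b ≤ (1 + ρ₀ ^ 2 + (15 * ρ₀ + 8) ^ 2) * R₀ ^ 2 := by
  have h6 : (1 : ℝ) ≤ R₀ ^ 2 := one_le_pow₀ hR
  have h8 : 1 + ρ₀ ^ 2 ≤ (1 + ρ₀ ^ 2) * R₀ ^ 2 := by
    calc 1 + ρ₀ ^ 2 = (1 + ρ₀ ^ 2) * 1 := by ring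
      _ ≤ (1 + ρ₀ ^ 2) * R₀ ^ 2 := mul_le_mul_of_nonneg_left h6 (by positivity)
  have h9 : (1 + ρ₀ ^ 2 + (15 * ρ₀ + 8) ^ 2) * R₀ ^ 2 = (1 + ρ₀ ^ 2) * R₀ ^ 2 + ((15 * ρ₀ + 8) * R₀) ^ 2 := by ring
  linarith

theorem z3_r1 (ρ₀ R₀ : ℝ) (hρ : 0 ≤ ρ₀) (hR : 1 ≤ R₀) : ρ₀ + 7 * ((2 * ρ₀ + 1) * R₀) + R₀ ≤ (15 * ρ₀ + 8) * R₀ := by
  nlinarith

theorem z3_r2 (ρ₀ R₀ : ℝ) (hρ : 0 ≤ ρ₀) (hR : 1 ≤ R₀) : ρ₀ + ρ₀ + R₀ ≤ (2 * ρ₀ + 1) * R₀ := by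
  nlinarith


private theorem z3s_const (C₀ K₅ K₆ K₇ s : ℝ) (hC₀ : 1 ≤ C₀) (h5 : 0 ≤ K₅) (h6 : 0 ≤ K₆) (h7 : 1 ≤ K₇) (hs : 0 ≤ s) :
    ∃ C : ℝ, 8 * C₀ * K₇ ≤ C ∧ 4 * K₅ ≤ C ∧ K₆ ≤ C ∧ 8 * C₀ * s ≤ C ∧ 2 * C₀ ≤ C ∧ 1 ≤ C := by
  have a : 0 ≤ C₀ * s := mul_nonneg (by linarith) hs
  have b : C₀ * 1 ≤ C₀ * K₇ := mul_le_mul_of_nonneg_left h7 (by linarith)
  exact ⟨8 * (C₀ * K₇) + 4 * K₅ + K₆ + 8 * (C₀ * s), by linarith, by linarith, by linarith, by linarith,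
    by linarith, by linarith⟩

private theorem z3s_R (C₀ C X L q S : ℝ) (hC₀ : 0 < C₀) (hL : 0 < L) (hX : 1 ≤ X) (hC : 2 * C₀ ≤ C)
    (hq : C * X * L ≤ q * S) :
    ∃ R : ℝ, R * (2 * C₀ * L) = q * S ∧ C * X / (2 * C₀) ≤ R ∧ 1 ≤ R := by
  have hCL : 0 < 2 * C₀ * L := mul_pos (mul_pos two_pos hC₀) hL
  have h1 : C * X / (2 * C₀) ≤ q * S / (2 * C₀ * L) := by
    rw [div_le_div_iff₀ (mul_pos two_pos hC₀) hCL]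
    have := mul_le_mul_of_nonneg_right hq (mul_pos two_pos hC₀).le
    linarith
  refine ⟨q * S / (2 * C₀ * L), div_mul_cancel₀ _ hCL.ne', h1, le_trans ?_ h1⟩
  rw [le_div_iff₀ (mul_pos two_pos hC₀)]
  have : C * 1 ≤ C * X := mul_le_mul_of_nonneg_left hX (by linarith)
  linarith

private theorem z3s_q (C X L q S : ℝ) (q' : ℕ) (hq' : q = q') (hC : 0 < C) (hX : 0 < X) (hL : 0 < L)
    (hq : C * X * L ≤ q * S) : 1 ≤ q := by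
  have h1 : 0 < C * X * L := mul_pos (mul_pos hC hX) hL
  have h3 : 0 < q' := by
    rcases Nat.eq_zero_or_pos q' with h | h
    · rw [hq', h, Nat.cast_zero, zero_mul] at hq; linarith
    · exact h
  rw [hq']
  exact_mod_cast h3

private theorem z3s_S (C L R₀ S : ℝ) (hC : 1 ≤ C) (hL : 1 ≤ L) (hR : 1 ≤ R₀) (hS : C * L * R₀ ^ 2 ≤ S) : 1 ≤ S := by
  have h1 : (1 : ℝ) ≤ R₀ ^ 2 := one_le_pow₀ hR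
  have h2 : (1 : ℝ) ≤ C * L := one_le_mul_of_one_le_of_one_le hC hL
  exact (one_le_mul_of_one_le_of_one_le h2 h1).trans hS

private theorem z3s_t (C₀ C X R ρ₀ y : ℝ) (t τ : ℂ) (n₁ : ℤ) (hC₀ : 0 < C₀) (hX : 1 ≤ X) (hρ : 0 ≤ ρ₀)
    (hy : 0 < y) (hτ : τ.im = y) (hn : |(n₁ : ℝ)| ≤ X) (ht : ‖t‖ ≤ ρ₀) (hC : 8 * C₀ * (ρ₀ + y) ≤ C)
    (hR : C * X / (2 * C₀) ≤ R) : |(t + n₁ * τ).im| ≤ R / 4 := by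
  have h1 : (t + n₁ * τ).im = t.im + n₁ * y := by rw [← hτ]; simp
  have h2 : |(n₁ : ℝ) * y| ≤ X * y := by
    rw [abs_mul, abs_of_pos hy]
    exact mul_le_mul_of_nonneg_right hn hy.le
  have h3 : ρ₀ * 1 ≤ ρ₀ * X := mul_le_mul_of_nonneg_left hX hρ
  have h4 : (ρ₀ + y) * X ≤ C * X / (2 * C₀) / 4 := by
    rw [div_div, le_div_iff₀ (mul_pos (mul_pos two_pos hC₀) (by norm_num))]
    have := mul_le_mul_of_nonneg_right hC (zero_le_one.trans hX)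
    linarith
  rw [h1]
  refine (abs_add_le _ _).trans ?_
  have h5 := (Complex.abs_im_le_norm t).trans ht
  linarith

private theorem z3s_c (a b : ℂ) (M : ℕ) (u v : ℝ) (ha : ‖a‖⁻¹ ≤ Real.exp u) (hb : ‖b‖⁻¹ ≤ Real.exp v) :
    ‖((a * b) ^ M)⁻¹‖ ≤ Real.exp (M * (u + v)) := by
  have h3 : ‖((a * b) ^ M)⁻¹‖ = (‖a‖⁻¹ * ‖b‖⁻¹) ^ M := by
    rw [norm_inv, norm_pow, norm_mul, mul_pow, mul_inv, mul_pow, inv_pow, inv_pow]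
  have h0 : 0 ≤ ‖a‖⁻¹ := inv_nonneg.mpr (norm_nonneg _)
  have h0' : 0 ≤ ‖b‖⁻¹ := inv_nonneg.mpr (norm_nonneg _)
  rw [h3, Real.exp_nat_mul, Real.exp_add]
  exact pow_le_pow_left₀ (mul_nonneg h0 h0') (mul_le_mul ha hb h0' (Real.exp_pos _).le) _

private theorem z3s_hc (c₁ c₂ : Cv) (M : ℕ) (n₁ n₂ m : ℤ) (t v : ℂ) (κ₂ X R₀ ρ₀ L : ℝ) (hκ₂ : 0 ≤ κ₂) (hρ : 0 < ρ₀)
    (hX : 1 ≤ X) (hRX : R₀ ≤ X) (hR₀ : 0 ≤ R₀) (hM : (M : ℝ) ≤ 3 * L) (hL : 0 ≤ L) (hn₁ : |(n₁ : ℝ)| ≤ X)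
    (hn₂ : |(n₂ : ℝ)| ≤ κ₂ * X) (ht : ‖t‖ ≤ ρ₀) (hv : ‖v‖ ≤ R₀) :
    ‖((au c₁.τ 0 n₁ t * au c₂.τ m n₂ (t - v)) ^ M)⁻¹‖ ≤
      Real.exp (6 * Real.pi * (ρ₀ + κ₂ * (ρ₀ + 1)) * L * X ^ 2) := by
  have h1 : ‖au c₁.τ 0 n₁ t‖⁻¹ ≤ Real.exp (2 * Real.pi * (X * ρ₀)) :=
    z3_au _ c₁.im _ _ _ _ _ hn₁ ((Complex.abs_im_le_norm _).trans ht)
  have h2 : ‖au c₂.τ m n₂ (t - v)‖⁻¹ ≤ Real.exp (2 * Real.pi * (κ₂ * X * (ρ₀ + R₀))) :=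
    z3_au _ c₂.im _ _ _ _ _ hn₂ ((Complex.abs_im_le_norm _).trans ((norm_sub_le _ _).trans (add_le_add ht hv)))
  exact (z3s_c _ _ M _ _ h1 h2).trans (Real.exp_le_exp.mpr
    (z3_cnum Real.pi ρ₀ κ₂ X R₀ M L Real.pi_pos.le hρ hκ₂ hX hRX hR₀ (Nat.cast_nonneg _) hM hL))

private theorem z3s_α (n₂ : ℤ) (M : ℕ) (κ₂ X ρ₀ L r : ℝ) (hκ₂ : 0 ≤ κ₂) (hX : 1 ≤ X)
    (hM : (M : ℝ) ≤ 3 * L) (hL : 0 ≤ L) (hn₂ : |(n₂ : ℝ)| ≤ κ₂ * X) (hr0 : 0 ≤ r) (hr : r ≤ (2 * ρ₀ + 1) * X) :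
    7 * ‖(2 * Real.pi * I * n₂ * M : ℂ)‖ * r ≤ 42 * Real.pi * κ₂ * (2 * ρ₀ + 1) * L * X ^ 2 := by
  have hpi := Real.pi_pos
  have h1 : ‖(2 * Real.pi * I * n₂ * M : ℂ)‖ = 2 * Real.pi * (|(n₂ : ℝ)| * M) := by
    rw [norm_mul, norm_mul, norm_mul, norm_mul, Complex.norm_intCast, Complex.norm_natCast, Complex.norm_I,
      Complex.norm_real, Real.norm_eq_abs, abs_of_pos hpi, Complex.norm_two, mul_one, mul_assoc]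
  have h2 : |(n₂ : ℝ)| * M ≤ κ₂ * X * (3 * L) :=
    mul_le_mul hn₂ hM (Nat.cast_nonneg _) (mul_nonneg hκ₂ (zero_le_one.trans hX))
  have h3 : |(n₂ : ℝ)| * M * r ≤ κ₂ * X * (3 * L) * ((2 * ρ₀ + 1) * X) :=
    mul_le_mul h2 hr hr0 (mul_nonneg (mul_nonneg hκ₂ (zero_le_one.trans hX)) (by linarith))
  have h4 := mul_le_mul_of_nonneg_left h3 hpi.le
  rw [h1]
  calc 7 * (2 * Real.pi * (|(n₂ : ℝ)| * M)) * r = 14 * (Real.pi * (|(n₂ : ℝ)| * M * r)) := by ring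
    _ ≤ 14 * (Real.pi * (κ₂ * X * (3 * L) * ((2 * ρ₀ + 1) * X))) := by linarith
    _ = _ := by ring

private theorem z3s_kk (A κ X : ℝ) (a₁ a₂ b₁ b₂ n₁ n₂ m : ℤ) (hA : 2 ≤ A) (hA1 : |(a₁ : ℝ)| + |(a₂ : ℝ)| ≤ A)
    (hA2 : |(b₁ : ℝ)| + |(b₂ : ℝ)| ≤ A) (hn₁ : |(n₁ : ℝ)| ≤ κ * X) (hn₂ : |(n₂ : ℝ)| ≤ κ * X)
    (hm : |(m : ℝ)| ≤ κ * X) (i : Fin 3) :
    ‖(![(m : ℂ), b₂ * n₁ - b₁ * n₂, a₁ * n₁ + a₂ * n₂] : Fin 3 → ℂ) i‖ ≤ A * κ * X := by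
  have hY0 : 0 ≤ κ * X := (abs_nonneg _).trans hn₁
  rw [mul_assoc]
  have key : ∀ (a b n n' : ℤ) (z : ℂ), (z = a * n - b * n' ∨ z = a * n + b * n') → |(n : ℝ)| ≤ κ * X →
      |(n' : ℝ)| ≤ κ * X → |(a : ℝ)| + |(b : ℝ)| ≤ A → ‖z‖ ≤ A * (κ * X) := by
    intro a b n n' z hz hn hn' hab
    have h1 : ‖z‖ ≤ ‖(a * n : ℂ)‖ + ‖(b * n' : ℂ)‖ := by
      rcases hz with h | h
      · rw [h]; exact norm_sub_le _ _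
      · rw [h]; exact norm_add_le _ _
    rw [norm_mul, norm_mul, Complex.norm_intCast, Complex.norm_intCast, Complex.norm_intCast,
      Complex.norm_intCast] at h1
    have h2 := mul_le_mul_of_nonneg_left hn (abs_nonneg (a : ℝ))
    have h3 := mul_le_mul_of_nonneg_left hn' (abs_nonneg (b : ℝ))
    have h4 := mul_le_mul_of_nonneg_right hab hY0
    linarith
  match i with
  | 0 =>
    change ‖(m : ℂ)‖ ≤ _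
    rw [Complex.norm_intCast]
    have := mul_le_mul_of_nonneg_right hA hY0
    linarith
  | 1 =>
    change ‖(b₂ * n₁ - b₁ * n₂ : ℂ)‖ ≤ _
    exact key b₂ b₁ n₁ n₂ _ (Or.inl rfl) hn₁ hn₂ (by linarith)
  | 2 =>
    change ‖(a₁ * n₁ + a₂ * n₂ : ℂ)‖ ≤ _
    exact key a₁ a₂ n₁ n₂ _ (Or.inr rfl) hn₁ hn₂ hA1

private theorem z3s_A (P : Pr) : 2 ≤ P.A ∧ |(P.a₁ : ℝ)| + |(P.a₂ : ℝ)| ≤ P.A ∧
    |(P.b₁ : ℝ)| + |(P.b₂ : ℝ)| ≤ P.A := by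
  unfold Pr.A
  have h1 := abs_nonneg (P.a₁ : ℝ)
  have h2 := abs_nonneg (P.a₂ : ℝ)
  have h3 := abs_nonneg (P.b₁ : ℝ)
  have h4 := abs_nonneg (P.b₂ : ℝ)
  exact ⟨by linarith, by linarith, by linarith⟩

private theorem z3s_im (ρ₀ R₀ r : ℝ) (t z v : ℂ) (ht : ‖t‖ ≤ ρ₀) (hv : ‖v‖ ≤ R₀) (hr : r = (2 * ρ₀ + 1) * R₀)
    (hz : ‖z‖ ≤ 7 * r) (hρ : 0 < ρ₀) (hR₀ : 1 ≤ R₀) :
    1 + t.im ^ 2 + (t + z - v).im ^ 2 ≤ (1 + ρ₀ ^ 2 + (15 * ρ₀ + 8) ^ 2) * R₀ ^ 2 := by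
  have h1 : t.im ^ 2 ≤ ρ₀ ^ 2 := by
    rw [← sq_abs]
    exact pow_le_pow_left₀ (abs_nonneg _) ((Complex.abs_im_le_norm _).trans ht) 2
  have h2 : ‖t + z - v‖ ≤ (15 * ρ₀ + 8) * R₀ := by
    have a := norm_sub_le (t + z) v
    have b := norm_add_le t z
    have c := z3_r1 ρ₀ R₀ hρ.le hR₀
    rw [hr] at hz
    linarith
  have h3 : (t + z - v).im ^ 2 ≤ ((15 * ρ₀ + 8) * R₀) ^ 2 := by
    rw [← sq_abs]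
    exact pow_le_pow_left₀ (abs_nonneg _) ((Complex.abs_im_le_norm _).trans h2) 2
  exact z3_sq ρ₀ R₀ _ _ hR₀ h1 h3

private theorem z3s_E (C₁ C K K₅ L R₀ S Y : ℝ) (hC₁ : 0 ≤ C₁) (hL : 0 ≤ L) (hK₅ : K₅ = C₁ * K) (hC : 4 * K₅ ≤ C)
    (hS : C * L * R₀ ^ 2 ≤ S) (hY : Y ≤ K * R₀ ^ 2) : C₁ * L * Y ≤ S / 4 := by
  have h1 : C₁ * L * Y ≤ C₁ * L * (K * R₀ ^ 2) := mul_le_mul_of_nonneg_left hY (mul_nonneg hC₁ hL)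
  have h2 : 4 * K₅ * (L * R₀ ^ 2) ≤ C * (L * R₀ ^ 2) :=
    mul_le_mul_of_nonneg_right hC (mul_nonneg hL (sq_nonneg _))
  have h3 : C₁ * L * (K * R₀ ^ 2) = K₅ * (L * R₀ ^ 2) := by rw [hK₅]; ring
  linarith

private theorem z3s_base (A κ a K₆ C X R₀ r y : ℝ) (t z v : ℂ) (hv : ‖v‖ ≤ R₀) (hz : ‖z‖ ≤ 7 * r)
    (hr : 7 * r + R₀ = a * R₀) (ha : 0 ≤ a) (hRX : R₀ ≤ X) (hX : 0 ≤ X) (hA : 1 ≤ A) (hK₆ : K₆ = κ + a) (hC : K₆ ≤ C)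
    (hy : y = ‖(t + z - v) - t‖) : A * κ * X + y ≤ C * A * X := by
  have e : (t + z - v) - t = z - v := by ring
  rw [e] at hy
  have h1 := norm_sub_le z v
  have h2 : a * R₀ ≤ a * X := mul_le_mul_of_nonneg_left hRX ha
  have h3 : 1 * (a * X) ≤ A * (a * X) := mul_le_mul_of_nonneg_right hA (mul_nonneg ha hX)
  have h4 : K₆ * (A * X) ≤ C * (A * X) := mul_le_mul_of_nonneg_right hC (mul_nonneg (by linarith) hX)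
  have h5 : K₆ * (A * X) = A * κ * X + A * (a * X) := by rw [hK₆]; ring
  linarith

private theorem z3s_fin (B E b S : ℝ) (l : ℕ) (D : ℝ) (hB : 0 ≤ B) (hE : E ≤ S / 4) (hb0 : 0 ≤ b) (hb : b ≤ D)
    (hD : D ^ l ≤ Real.exp (S / 4)) : B * Real.exp E * b ^ l ≤ B * Real.exp (S / 2) := by
  have h1 : b ^ l ≤ Real.exp (S / 4) := (pow_le_pow_left₀ hb0 hb l).trans hD
  have h2 : Real.exp E * b ^ l ≤ Real.exp (S / 4) * Real.exp (S / 4) :=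
    mul_le_mul (Real.exp_le_exp.mpr hE) h1 (pow_nonneg hb0 l) (Real.exp_pos _).le
  have h3 : Real.exp (S / 4) * Real.exp (S / 4) = Real.exp (S / 2) := by
    rw [← Real.exp_add]
    congr 1
    ring
  rw [mul_assoc, ← h3]
  exact mul_le_mul_of_nonneg_left h2 hB

private theorem z3s_diff (c₁ c₂ : Cv) (P : Pr) (coef : ℕ × ℕ × ℕ × ℕ × ℕ → ℂ) (t' : ℂ) :
    Differentiable ℂ (fun z => GG c₁ c₂ P coef t' (t' + z)) := by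
  intro z
  have h1 : AnalyticAt ℂ (fun p : ℂ × ℂ => GG c₁ c₂ P coef p.1 p.2) (t', t' + z) := GG_an2 c₁ c₂ P coef t' (t' + z)
  have h2 : DifferentiableAt ℂ (fun z : ℂ => (t', t' + z)) z :=
    (differentiableAt_const _).prodMk (differentiableAt_id.const_add _)
  have h3 : DifferentiableAt ℂ ((fun p : ℂ × ℂ => GG c₁ c₂ P coef p.1 p.2) ∘ (fun z : ℂ => (t', t' + z))) z :=
    DifferentiableAt.comp z h1.differentiableAt h2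
  exact h3

private theorem z3s_B (P : Pr) (B : ℝ) (coef : ℕ × ℕ × ℕ × ℕ × ℕ → ℂ) (hcoef : ∀ ν ∈ P.box, ‖coef ν‖ ≤ B) :
    0 ≤ B := by
  have h0 : ((0, 0, 0, 0, 0) : ℕ × ℕ × ℕ × ℕ × ℕ) ∈ P.box := by
    simp [Pr.box]
  exact (norm_nonneg _).trans (hcoef _ h0)

/-- the numerical constants -/
private theorem z3s_Ks (C₀ C₁ ρ₀ y₁ y₂ T₁ T₂ : ℝ) (hρ : 0 < ρ₀) (hC₀ : 1 ≤ C₀) (hC₁ : 1 ≤ C₁) (hy₁ : 0 < y₁)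
    (hy₂ : 0 < y₂) (hT₁ : 0 ≤ T₁) (hT₂ : 0 ≤ T₂) :
    ∃ κ₂ κ₃ K₁ K₂ K₃ K₅ K₆ K₇ C : ℝ, κ₂ = (1 + y₁) / y₂ ∧ κ₃ = 1 + (1 + y₁) / y₂ * T₂ + T₁ ∧
      K₁ = 6 * Real.pi * (ρ₀ + κ₂ * (ρ₀ + 1)) ∧ K₂ = 42 * Real.pi * κ₂ * (2 * ρ₀ + 1) ∧ K₃ = 2 * ρ₀ + 2 ∧
      K₅ = C₁ * (1 + ρ₀ ^ 2 + (15 * ρ₀ + 8) ^ 2) ∧ K₆ = (1 + κ₂ + κ₃) + (14 * ρ₀ + 8) ∧
      K₇ = 3 + C₀ + K₁ + K₂ + K₃ ∧ 0 ≤ κ₂ ∧ 1 ≤ κ₃ ∧ 0 ≤ K₁ ∧ 0 ≤ K₂ ∧ 0 ≤ K₃ ∧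
      8 * C₀ * K₇ ≤ C ∧ 4 * K₅ ≤ C ∧ K₆ ≤ C ∧ 8 * C₀ * (ρ₀ + y₁) ≤ C ∧ 2 * C₀ ≤ C ∧ 1 ≤ C := by
  have hpi := Real.pi_pos
  have k2 : 0 ≤ (1 + y₁) / y₂ := div_nonneg (by linarith) hy₂.le
  obtain ⟨κ₂, e2⟩ : ∃ κ₂ : ℝ, κ₂ = (1 + y₁) / y₂ := ⟨_, rfl⟩
  rw [← e2] at k2 ⊢
  have k3 : 1 ≤ 1 + κ₂ * T₂ + T₁ := by
    have := mul_nonneg k2 hT₂
    linarith
  have h1 : 0 ≤ 6 * Real.pi * (ρ₀ + κ₂ * (ρ₀ + 1)) := by positivity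
  have h2 : 0 ≤ 42 * Real.pi * κ₂ * (2 * ρ₀ + 1) := by positivity
  have h5 : 0 ≤ C₁ * (1 + ρ₀ ^ 2 + (15 * ρ₀ + 8) ^ 2) :=
    mul_nonneg (by linarith) (by positivity)
  obtain ⟨C, hC⟩ := z3s_const C₀ _ ((1 + κ₂ + (1 + κ₂ * T₂ + T₁)) + (14 * ρ₀ + 8))
    (3 + C₀ + 6 * Real.pi * (ρ₀ + κ₂ * (ρ₀ + 1)) + 42 * Real.pi * κ₂ * (2 * ρ₀ + 1) + (2 * ρ₀ + 2)) (ρ₀ + y₁) hC₀ h5
    (by linarith) (by linarith) (by linarith)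
  exact ⟨κ₂, _, _, _, _, _, _, _, C, rfl, rfl, rfl, rfl, rfl, rfl, rfl, rfl, k2, k3, h1, h2, by linarith, hC⟩

/-- Z3b. PROOF. Fix `n₁, n₂, m, t, w`, `v = n₂τ₂ - n₁τ₁ + m`, `t' = t + n₁τ₁`, and let
`K z = Gs_{k(n)} t (t + z - v)`, `g z = GG t' (t' + z)`, `z_* = w - t + v`, so `K z_*` is the function to be bounded and
`‖z_*‖ ≤ r := (2ρ₀ + 1) R₀`. `C₀` is the constant of Z1, `C₁` that of G3a; all `C', C'', ...` depend on `c₁, c₂, ρ₀, C₀, C₁` only; `C` is large.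
* `|n₂| ≤ C'X` (`n₂ Im τ₂ = Im v + n₁ Im τ₁`), `|m| ≤ C'X`.
* `taylor_split` with `c = ((au au)^M)⁻¹`, `α = 2πi n₂ M`, `N = S'`. By `norm_au`: `‖c‖ ≤ exp(C'' L X²)`, `7‖α‖r ≤ C'' L X²` (`M ≤ 3L`, `R₀ ≤ X`).
* `ε`: Z1 with the constant `C₀` and `R = qS'/(2C₀L)`. By `C X L ≤ qS'`: `R ≥ CX/(2C₀) ≥ 1`; `|Im t'| ≤ ρ₀ + X Im τ₁ ≤ R/4`. So
  `ε = B exp(C₀L - C₀LR²)` and `C₀LR² = (1/2)C₀LR² + (1/4) R qS' ≥ (C²/(8C₀)) L X² + (C/(8C₀)) X S'` (`q ≥ 1` as `qS' > 0`).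
* `S' r^{S'} ≤ exp(S'(1 + log((2ρ₀+1)R₀))) ≤ exp(C'' S' X)` (`X ≥ R₀ ≥ 1`). So the first term is
  `≤ 2 B exp(C₀L + 2C'' L X² + C'' S'X - (C²/(8C₀)) L X² - (C/(8C₀)) X S') ≤ (1/2) B exp(-S')`.
* `W`: G3a with `κ₀ = C' A X`, `‖z‖ ≤ 7r`: `W = B exp(C'' L R₀²) (C'' A X)^l ≤ B exp(S'/4) exp(S'/4)` if `C ≥ 4C''` (hypotheses `C L R₀² ≤ S'`,
  `(C A X)^l ≤ exp(S'/4)`). Second term `≤ B exp(S'/2 - 3S'/2) = B exp(-S')`.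
* `(3/2) exp(-S') ≤ exp(-S'/2)` as `S' ≥ C L R₀² ≥ 1`. -/
theorem sheet (c₁ c₂ : Cv) (ρ₀ : ℝ) (hρ : 0 < ρ₀) : ∃ C : ℝ, 1 ≤ C ∧ ∀ (P : Pr), P.Good → ∀ (B : ℝ)
    (coef : ℕ × ℕ × ℕ × ℕ × ℕ → ℂ), (∀ ν ∈ P.box, ‖coef ν‖ ≤ B) → ∀ (q S' : ℕ) (pts : Fin q → ℝ),
    (∀ i j, i ≠ j → ∀ k : ℤ, pts i - pts j ≠ k) → Van c₁ c₂ P coef pts (2 * S') →
    ∀ X R₀ : ℝ, 1 ≤ R₀ → R₀ ≤ X → C * P.L * R₀ ^ 2 ≤ S' → C * X * P.L ≤ q * S' →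
    (C * P.A * X) ^ P.l ≤ Real.exp (S' / 4) →
    ∀ n₁ n₂ m : ℤ, |(n₁ : ℝ)| ≤ X → ‖(n₂ * c₂.τ - n₁ * c₁.τ + m : ℂ)‖ ≤ R₀ →
    ∀ t w : ℂ, ‖t‖ ≤ ρ₀ → ‖w‖ ≤ ρ₀ →
    ‖Gs c₁ c₂ P ![(m : ℂ), P.b₂ * n₁ - P.b₁ * n₂, P.a₁ * n₁ + P.a₂ * n₂] coef t w‖ ≤ B * Real.exp (-((S' : ℝ) / 2)) := by
  obtain ⟨C₀, hC₀, hline⟩ := line_bound c₁ c₂
  obtain ⟨C₁, hC₁, hgs⟩ := Gs_bound c₁ c₂
  obtain ⟨κ₂, κ₃, K₁, K₂, K₃, K₅, K₆, K₇, C, hκ₂, hκ₃, hK₁, hK₂, hK₃, hK₅, hK₆, hK₇, hκ₂0, hκ₃0, hK₁0, hK₂0, hK₃0,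
    hC8, hCK5, hCK6, hCρ, hC2, hC1⟩ := z3s_Ks C₀ C₁ ρ₀ c₁.τ.im c₂.τ.im ‖c₁.τ‖ ‖c₂.τ‖ hρ hC₀ hC₁ c₁.im c₂.im
      (norm_nonneg _) (norm_nonneg _)
  have hC₀0 : 0 < C₀ := zero_lt_one.trans_le hC₀
  have hC0 : 0 < C := zero_lt_one.trans_le hC1
  refine ⟨C, hC1, ?_⟩
  intro P hP B coef hcoef q S' pts hpts hvan X R₀ hR₀ hRX hS hq hA n₁ n₂ m hn₁ hv t w ht hw
  have hX : 1 ≤ X := hR₀.trans hRX
  have hX0 : 0 ≤ X := zero_le_one.trans hX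
  have hR₀0 : 0 ≤ R₀ := zero_le_one.trans hR₀
  have hL : (1 : ℝ) ≤ P.L := by exact_mod_cast hP.hL
  have hL0 : (0 : ℝ) < P.L := zero_lt_one.trans_le hL
  have hl : (P.l : ℝ) ≤ P.L := by exact_mod_cast hP.hl
  have hM : (P.M : ℝ) ≤ 3 * P.L := by
    unfold Pr.M
    push_cast
    linarith only [hl]
  obtain ⟨hAP, hA1, hA2⟩ := z3s_A P
  have hS1 : (1 : ℝ) ≤ S' := z3s_S C P.L R₀ S' hC1 hL hR₀ hS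
  have hS0 : (0 : ℝ) ≤ S' := zero_le_one.trans hS1
  have hq1 : (1 : ℝ) ≤ q := z3s_q C X P.L q S' q rfl hC0 (zero_lt_one.trans_le hX) hL0 hq
  obtain ⟨hn₂, hm⟩ := z3_n2 c₁ c₂ X R₀ hRX n₁ n₂ m hn₁ hv
  rw [← hκ₂] at hn₂
  rw [← hκ₃] at hm
  obtain ⟨v, hvdef⟩ : ∃ v : ℂ, v = n₂ * c₂.τ - n₁ * c₁.τ + m := ⟨_, rfl⟩
  rw [← hvdef] at hv
  have hB0 : 0 ≤ B := z3s_B P B coef hcoef
  obtain ⟨R, hRm, hRC, hR1⟩ := z3s_R C₀ C X P.L q S' hC₀0 hL0 hX hC2 hq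
  obtain ⟨t', ht'⟩ : ∃ t' : ℂ, t' = t + n₁ * c₁.τ := ⟨_, rfl⟩
  have hRt : |t'.im| ≤ R / 4 := by
    rw [ht']
    exact z3s_t C₀ C X R ρ₀ _ t c₁.τ n₁ hC₀0 hX hρ.le c₁.im rfl hn₁ ht hCρ hRC
  have heps : ∀ j < S', ‖iteratedDeriv j (fun z => GG c₁ c₂ P coef t' (t' + z)) 0 / (j.factorial : ℂ)‖ ≤
      B * Real.exp (C₀ * P.L - C₀ * P.L * R ^ 2) := by
    intro j hj
    rw [z3_gm]
    exact hline C₀ le_rfl P hP B coef hcoef q S' pts hpts hvan R hR1 hRm j hj t' hRt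
  obtain ⟨r, hr⟩ : ∃ r : ℝ, r = (2 * ρ₀ + 1) * R₀ := ⟨_, rfl⟩
  have h2ρ : 1 ≤ 2 * ρ₀ + 1 := by linarith only [hρ]
  have hr1 : 1 ≤ r := by
    rw [hr]
    exact one_le_mul_of_one_le_of_one_le h2ρ hR₀
  have hr0 : 0 ≤ r := zero_le_one.trans hr1
  have hrX : r ≤ (2 * ρ₀ + 1) * X := by
    rw [hr]
    exact mul_le_mul_of_nonneg_left hRX (zero_le_one.trans h2ρ)
  have hc := z3s_hc c₁ c₂ P.M n₁ n₂ m t v κ₂ X R₀ ρ₀ P.L hκ₂0 hρ hX hRX hR₀0 hM hL0.le hn₁ hn₂ ht hv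
  rw [← hK₁] at hc
  have hαr := z3s_α n₂ P.M κ₂ X ρ₀ P.L r hκ₂0 hX hM hL0.le hn₂ hr0 hrX
  rw [← hK₂] at hαr
  have hid := sheet_id c₁ c₂ P coef n₁ n₂ m t
  obtain ⟨kk, hkk⟩ : ∃ kk : Fin 3 → ℂ, kk = ![(m : ℂ), P.b₂ * n₁ - P.b₁ * n₂, P.a₁ * n₁ + P.a₂ * n₂] := ⟨_, rfl⟩
  have hκs : κ₂ * X ≤ (1 + κ₂ + κ₃) * X := mul_le_mul_of_nonneg_right (by linarith only [hκ₃0]) hX0
  have hκs' : κ₃ * X ≤ (1 + κ₂ + κ₃) * X := mul_le_mul_of_nonneg_right (by linarith only [hκ₂0]) hX0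
  have hκs'' : 1 * X ≤ (1 + κ₂ + κ₃) * X := mul_le_mul_of_nonneg_right (by linarith only [hκ₂0, hκ₃0]) hX0
  have hkk' : ∀ i, ‖kk i‖ ≤ P.A * (1 + κ₂ + κ₃) * X := by
    rw [hkk]
    exact z3s_kk P.A (1 + κ₂ + κ₃) X P.a₁ P.a₂ P.b₁ P.b₂ n₁ n₂ m hAP hA1 hA2 (by linarith only [hn₁, hκs''])
      (hn₂.trans hκs) (hm.trans hκs')
  have hA0 : 1 ≤ P.A := one_le_two.trans hAP
  have hκ01 : 1 ≤ P.A * (1 + κ₂ + κ₃) * X :=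
    one_le_mul_of_one_le_of_one_le (one_le_mul_of_one_le_of_one_le hA0 (by linarith only [hκ₂0, hκ₃0])) hX
  rw [← hkk, ← hvdef, ← ht'] at hid
  rw [← hkk]
  have hW : ∀ z : ℂ, ‖z‖ ≤ 7 * r → ‖Gs c₁ c₂ P kk coef t (t + z - v)‖ ≤ B * Real.exp (S' / 2) := by
    intro z hz
    refine (hgs P hP B _ kk coef hκ01 hkk' hcoef t (t + z - v)).trans ?_
    exact z3s_fin B _ _ S' P.l (C * P.A * X) hB0
      (z3s_E C₁ C _ K₅ P.L R₀ S' _ (zero_le_one.trans hC₁) hL0.le hK₅ hCK5 hS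
        (z3s_im ρ₀ R₀ r t z v ht hv hr hz hρ hR₀))
      (add_nonneg (zero_le_one.trans hκ01) (norm_nonneg _))
      (z3s_base P.A (1 + κ₂ + κ₃) (14 * ρ₀ + 8) K₆ C X R₀ r _ t z v hv hz (by rw [hr]; ring)
        (by linarith only [hρ]) hRX hX0 hA0 hK₆ hCK6 rfl) hA
  have hz : ‖w - t + v‖ ≤ r := by
    have h1 := norm_add_le (w - t) v
    have h2 := norm_sub_le w t
    have h3 := z3_r2 ρ₀ R₀ hρ.le hR₀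
    rw [hr]
    linarith only [h1, h2, h3, ht, hw, hv]
  have hsplit := taylor_split (fun z => Gs c₁ c₂ P kk coef t (t + z - v)) (fun z => GG c₁ c₂ P coef t' (t' + z)) _ _
    (z3s_diff c₁ c₂ P coef t') hid S' (B * Real.exp (C₀ * P.L - C₀ * P.L * R ^ 2)) r (B * Real.exp (S' / 2))
    hr1 heps hW (w - t + v) hz
  have e0 : t + (w - t + v) - v = w := by ring
  simp only [e0] at hsplit
  refine hsplit.trans ?_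
  have hpow := z3_pow S' r ρ₀ X hX hr0 hrX
  have hnum1 := z3_R C₀ C X P.L R S' q hC₀0 hC0.le hX0 hL0 hS0 hq1 hRC hRm
  have hnum2 := z3_exp C₀ C X P.L K₁ K₂ K₃ K₇ S' (C₀ * P.L * R ^ 2) hC₀ hC1 hX hL hS0 hK₁0 hK₂0 hK₃0 hK₇ hC8 hnum1
  rw [← hK₃] at hpow
  have htot := z3_total B S' _ (B * Real.exp (C₀ * P.L - C₀ * P.L * R ^ 2)) _ (S' * r ^ S')
    (K₁ * P.L * X ^ 2) (K₂ * P.L * X ^ 2) (K₃ * X * S') (C₀ * P.L - C₀ * P.L * R ^ 2) hB0 hS1 hc hαr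
    (mul_nonneg hS0 (pow_nonneg hr0 _)) hpow rfl (by linarith only [hnum2])
  refine le_trans (le_of_eq ?_) htot
  rw [mul_assoc (2 * _ * _ * _) (S' : ℝ) (r ^ S')]

end Pool.Agent.MSP
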